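import Pool.Agent.Helper68.Stab.Cogroup
import Pool.Agent.Helper1.Stab.Grass

/-! Homotopies of unstable maps: rotations, the pinch map of the real line, Mayer–Vietoris. -/

open Topology Filter Set

noncomputable section

namespace Pool.Agent.Helper1.Stab

/-! ## Rotations -/

/-- permutation of the coordinates -/
def cperm {n m : Type} [Finite n] [Finite m] (e : n ≃ m) : LC.cpow n ≃ₜ LC.cpow m where
  toFun v := fun x => v (e.symm x)
  invFun v := fun x => v (e x)
  left_inv v := by ext x; simp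
  right_inv v := by ext x; simp
  continuous_toFun := continuous_pi fun _ => continuous_apply _
  continuous_invFun := continuous_pi fun _ => continuous_apply _

/-- a family of homeomorphisms that starts at the identity -/
theorem homotopic_id_of_family {K : LC} (e : K ≃ₜ K) (Φ Ψ : LC.I × K → K) (hΦ : Continuous Φ)
    (hΨ : Continuous Ψ) (h1 : ∀ t k, Ψ (t, Φ (t, k)) = k) (h2 : ∀ t k, Φ (t, Ψ (t, k)) = k)
    (h3 : ∀ k, Φ (0, k) = k) (h4 : ∀ k, Φ (1, k) = e k) :
    (PMap.ofHomeo e).Homotopic (PMap.id K) := by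
  let E : LC.I.prod K ≃ₜ LC.I.prod K :=
    { toFun := fun x => (x.1, Φ x)
      invFun := fun x => (x.1, Ψ x)
      left_inv := fun x => Prod.ext rfl (h1 x.1 x.2)
      right_inv := fun x => Prod.ext rfl (h2 x.1 x.2)
      continuous_toFun := continuous_fst.prodMk hΦ
      continuous_invFun := continuous_fst.prodMk hΨ }
  refine PMap.Homotopic.symm ⟨(PMap.prI K).comp (PMap.ofHomeo E), fun k => ?_, fun k => ?_⟩
  · exact congrArg (fun x : K => (x : OnePoint K)) (h3 k)
  · exact congrArg (fun x : K => (x : OnePoint K)) (h4 k)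

/-- the path from `1` to `-1` on the unit circle -/
def zpath (t : LC.I) : ℂ := Complex.exp (((t : unitInterval) : ℝ) * Real.pi * Complex.I)

theorem zpath_cont : Continuous zpath := by
  unfold zpath
  exact Complex.continuous_exp.comp (by fun_prop)

theorem zpath_ne (t : LC.I) : zpath t ≠ 0 := Complex.exp_ne_zero _

theorem zpath_zero : zpath (0 : unitInterval) = 1 := by
  simp [zpath]

theorem zpath_one : zpath (1 : unitInterval) = -1 := by
  simp [zpath, Complex.exp_pi_mul_I]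

open Classical in
/-- rotation of two coordinates -/
def rotV {n : Type} (i j : n) (c : ℂ) (v : n → ℂ) : n → ℂ := fun x =>
  v x + (c - 1) / 2 * (v i - v j) * ((if x = i then 1 else 0) - (if x = j then 1 else 0))

theorem rotV_rotV {n : Type} {i j : n} (hij : i ≠ j) (c d : ℂ) (v : n → ℂ) :
    rotV i j c (rotV i j d v) = rotV i j (c * d) v := by
  have h1 : rotV i j d v i - rotV i j d v j = d * (v i - v j) := by
    simp only [rotV, if_true, if_neg hij, if_neg hij.symm]
    ring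
  funext x
  show rotV i j d v x + (c - 1) / 2 * (rotV i j d v i - rotV i j d v j) * _ = _
  rw [h1]
  simp only [rotV]
  ring

theorem rotV_one {n : Type} (i j : n) (v : n → ℂ) : rotV i j 1 v = v := by
  funext x
  simp [rotV]

theorem rotV_continuous {n : Type} (i j : n) (c : LC.I → ℂ) (hc : Continuous c) :
    Continuous fun x : LC.I × (n → ℂ) => rotV i j (c x.1) x.2 := by
  refine continuous_pi fun y => ?_
  have h : ∀ y : n, Continuous fun x : LC.I × (n → ℂ) => x.2 y := fun y =>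
    (continuous_apply y).comp continuous_snd
  exact (h y).add ((((hc.comp continuous_fst).sub continuous_const).div_const 2 |>.mul
    ((h i).sub (h j))).mul continuous_const)

theorem rotC_swap {n : Type} [Fintype n] [DecidableEq n] {i j : n} (hij : i ≠ j) :
    (PMap.ofHomeo (cperm (Equiv.swap i j))).Homotopic (PMap.id (LC.cpow n)) := by
  refine homotopic_id_of_family (K := LC.cpow n) (cperm (Equiv.swap i j))
    (fun x => rotV i j (zpath x.1) x.2) (fun x => rotV i j (zpath x.1)⁻¹ x.2)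
    (rotV_continuous i j zpath zpath_cont)
    (rotV_continuous i j (fun t => (zpath t)⁻¹) (zpath_cont.inv₀ zpath_ne)) ?_ ?_ ?_ ?_
  · intro t k
    show rotV i j (zpath t)⁻¹ (rotV i j (zpath t) k) = k
    rw [rotV_rotV hij, inv_mul_cancel₀ (zpath_ne t), rotV_one]
  · intro t k
    show rotV i j (zpath t) (rotV i j (zpath t)⁻¹ k) = k
    rw [rotV_rotV hij, mul_inv_cancel₀ (zpath_ne t), rotV_one]
  · intro k
    show rotV i j (zpath (0 : unitInterval)) k = k
    rw [zpath_zero, rotV_one]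
  · intro k
    show rotV i j (zpath (1 : unitInterval)) k = fun x => k ((Equiv.swap i j).symm x)
    rw [zpath_one]
    funext x
    rw [Equiv.symm_swap]
    by_cases hi : x = i
    · subst hi
      simp only [rotV, if_true, if_neg hij, Equiv.swap_apply_left]
      ring
    · by_cases hj : x = j
      · subst hj
        simp only [rotV, if_true, if_neg hij.symm, Equiv.swap_apply_right]
        ring
      · rw [Equiv.swap_apply_of_ne_of_ne hi hj]
        simp [rotV, if_neg hi, if_neg hj]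

/-- permutations of complex coordinates are homotopic to the identity -/
theorem rotC {n : Type} [Fintype n] (e : Equiv.Perm n) :
    (PMap.ofHomeo (cperm e)).Homotopic (PMap.id (LC.cpow n)) := by
  classical
  refine Equiv.Perm.swap_induction_on (motive := fun e : Equiv.Perm n =>
    (PMap.ofHomeo (cperm e)).Homotopic (PMap.id (LC.cpow n))) e ?_ ?_
  · have : PMap.ofHomeo (cperm (1 : Equiv.Perm n)) = PMap.id (LC.cpow n) := by
      ext v; rfl
    rw [this]
    exact PMap.Homotopic.refl _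
  · intro f x y hxy hf
    have : PMap.ofHomeo (cperm (Equiv.swap x y * f)) =
        (PMap.ofHomeo (cperm (Equiv.swap x y))).comp (PMap.ofHomeo (cperm f)) := by
      ext v; rfl
    rw [this]
    have h := PMap.Homotopic.comp (rotC_swap hxy) hf
    rwa [PMap.id_comp] at h

open Classical in
/-- the vector `e_i - e_j` -/
def dvec {κ : Type} (i j : κ) : κ → ℂ := fun x => (if x = i then 1 else 0) - (if x = j then 1 else 0)

open Classical in
/-- the matrix of `rotV` -/
def rotM {κ : Type} (i j : κ) (c : ℂ) : Matrix κ κ ℂ := fun x y =>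
  (if x = y then 1 else 0) + (c - 1) / 2 * (dvec i j x * dvec i j y)

theorem dvec_sq {κ : Type} [Fintype κ] {i j : κ} (hij : i ≠ j) :
    ∑ x, dvec i j x * dvec i j x = 2 := by
  classical
  have h : ∀ x, dvec i j x * dvec i j x = (if x = i then 1 else 0) + (if x = j then 1 else 0) := by
    intro x
    by_cases h1 : x = i
    · subst h1
      simp [dvec, hij]
    · by_cases h2 : x = j
      · subst h2
        simp [dvec, h1]
      · simp [dvec, h1, h2]
  simp only [h]
  rw [Finset.sum_add_distrib]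
  simp
  norm_num

theorem rotM_mul {κ : Type} [Fintype κ] {i j : κ} (hij : i ≠ j) (c d : ℂ) :
    rotM i j c * rotM i j d = rotM i j (c * d) := by
  classical
  ext x w
  rw [Matrix.mul_apply]
  have h : ∀ y, rotM i j c x y * rotM i j d y w =
      (if x = y then (if y = w then 1 else 0) + (d - 1) / 2 * (dvec i j y * dvec i j w) else 0) +
      (if y = w then (c - 1) / 2 * (dvec i j x * dvec i j y) else 0) +
      ((c - 1) / 2 * ((d - 1) / 2) * (dvec i j x * dvec i j w)) * (dvec i j y * dvec i j y) := by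
    intro y
    simp only [rotM]
    by_cases h1 : x = y
    · by_cases h2 : y = w
      · simp only [h1, h2, if_true]; ring
      · simp only [h1, h2, if_true, if_false]; ring
    · by_cases h2 : y = w
      · subst h2
        simp only [h1, if_true, if_false]; ring
      · simp only [h1, h2, if_false]; ring
  simp only [h]
  rw [Finset.sum_add_distrib, Finset.sum_add_distrib, ← Finset.mul_sum, dvec_sq hij]
  simp only [Finset.sum_ite_eq, Finset.sum_ite_eq', Finset.mem_univ, if_true, rotM]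
  ring

theorem rotM_one {κ : Type} [DecidableEq κ] (i j : κ) : rotM i j 1 = 1 := by
  ext x y
  by_cases h : x = y
  · subst h
    simp [rotM]
  · simp [rotM, h]

theorem rotM_star {κ : Type} (i j : κ) (c : ℂ) : (rotM i j c).conjTranspose = rotM i j (star c) := by
  classical
  ext x y
  have hd : ∀ x, star (dvec i j x) = dvec i j x := by
    intro x
    simp only [dvec]
    by_cases h1 : x = i <;> by_cases h2 : x = j <;> simp [h1, h2]
  have h0 : star (if y = x then (1 : ℂ) else 0) = if x = y then 1 else 0 := by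
    by_cases h : x = y
    · rw [if_pos h.symm, if_pos h, star_one]
    · rw [if_neg (fun h' => h h'.symm), if_neg h, star_zero]
  rw [Matrix.conjTranspose_apply]
  simp only [rotM]
  rw [star_add, star_mul', star_mul', hd, hd, h0, mul_comm (dvec i j y), star_div₀, star_sub,
    star_one, star_ofNat]

theorem rotM_unitary {κ : Type} [Fintype κ] [DecidableEq κ] {i j : κ} (hij : i ≠ j) (c : ℂ)
    (hc : c * star c = 1) : rotM i j c ∈ Matrix.unitaryGroup κ ℂ := by
  rw [Matrix.mem_unitaryGroup_iff, Matrix.star_eq_conjTranspose, rotM_star, rotM_mul hij, hc,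
    rotM_one]

theorem zpath_star (t : LC.I) : zpath t * star (zpath t) = 1 := by
  have h : ‖zpath t‖ = 1 := by
    have : zpath t = Complex.exp (((((t : unitInterval) : ℝ) * Real.pi : ℝ) : ℂ) * Complex.I) := by
      simp [zpath]
    rw [this]
    exact Complex.norm_exp_ofReal_mul_I _
  rw [Complex.star_def, Complex.mul_conj, Complex.normSq_eq_norm_sq, h]
  simp

open scoped Kronecker in
/-- the rotation acting on `ℂ^(κ × Bool)` -/
def rotU {κ : Type} [Fintype κ] [DecidableEq κ] {i j : κ} (hij : i ≠ j) (t : LC.I) :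
    Matrix.unitaryGroup (κ × Bool) ℂ :=
  ⟨rotM i j (zpath t) ⊗ₖ (1 : Matrix Bool Bool ℂ),
    Matrix.kronecker_mem_unitary (rotM_unitary hij _ (zpath_star t)) (one_mem _)⟩

theorem rotU_apply {κ : Type} [Fintype κ] [DecidableEq κ] {i j : κ} (hij : i ≠ j) (t : LC.I)
    (x y : κ × Bool) : (rotU hij t).1 x y =
      rotM i j (zpath t) x.1 y.1 * (1 : Matrix Bool Bool ℂ) x.2 y.2 := rfl

theorem rotU_cont {κ : Type} [Fintype κ] [DecidableEq κ] {i j : κ} (hij : i ≠ j) :
    Continuous fun x : LC.I × GK κ => GK.conj (rotU hij x.1) x.2 := by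
  refine Continuous.subtype_mk ?_ _
  have h1 : Continuous fun x : LC.I × GK κ => (rotU hij x.1).1 := by
    refine continuous_matrix fun a b => ?_
    simp only [rotU_apply, rotM]
    refine Continuous.mul ?_ continuous_const
    exact continuous_const.add ((((zpath_cont.comp continuous_fst).sub continuous_const).div_const
      2).mul continuous_const)
  have h2 : Continuous fun x : LC.I × GK κ => x.2.1 := continuous_subtype_val.comp continuous_snd
  exact (h1.matrix_mul h2).matrix_mul h1.matrix_conjTranspose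

theorem rotM_neg_one {κ : Type} [DecidableEq κ] {i j : κ} (hij : i ≠ j) (x y : κ) :
    rotM i j (-1) x y = if Equiv.swap i j x = y then 1 else 0 := by
  have e : ((-1 : ℂ) - 1) / 2 = -1 := by norm_num
  simp only [rotM, e]
  by_cases hi : x = i
  · subst hi
    rw [Equiv.swap_apply_left]
    simp only [dvec, if_true, if_neg hij]
    by_cases h1 : y = x
    · subst h1
      simp [hij, hij.symm]
    · by_cases h2 : y = j
      · subst h2
        simp [hij, h1]
      · simp [h1, h2, Ne.symm h1, Ne.symm h2]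
  · by_cases hj : x = j
    · subst hj
      rw [Equiv.swap_apply_right]
      simp only [dvec, if_true, if_neg hi]
      by_cases h1 : y = x
      · subst h1
        simp [hij, hi]
      · by_cases h2 : y = i
        · subst h2
          simp [h1, Ne.symm h1]
        · simp [h1, h2, Ne.symm h1, Ne.symm h2]
    · rw [Equiv.swap_apply_of_ne_of_ne hi hj]
      simp [dvec, hi, hj]

theorem rotG_swap {κ : Type} [Fintype κ] [DecidableEq κ] {i j : κ} (hij : i ≠ j) :
    (PMap.ofHomeo (K := LC.G κ) (L := LC.G κ) (GK.reindex (Equiv.swap i j))).Homotopic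
      (PMap.id (LC.G κ)) := by
  refine PMap.Homotopic.symm ⟨PMap.ofProper (K := LC.I.prod (LC.G κ)) (L := LC.G κ)
    (fun x => GK.conj (rotU hij x.1) x.2) (rotU_cont hij) (by
      rw [cocompact_eq_bot]; exact tendsto_bot), fun P => ?_, fun P => ?_⟩
  · refine congrArg (fun x : GK κ => (x : OnePoint (GK κ))) (Subtype.ext ?_)
    have h : (rotU hij (0 : unitInterval)).1 = 1 := by
      ext x y
      rw [rotU_apply, zpath_zero, rotM_one]
      by_cases hxy : x = y
      · subst hxy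
        simp
      · rw [Matrix.one_apply_ne hxy]
        by_cases h1 : x.1 = y.1
        · have h2 : x.2 ≠ y.2 := fun h2 => hxy (Prod.ext h1 h2)
          rw [Matrix.one_apply_ne h2, mul_zero]
        · rw [Matrix.one_apply_ne h1, zero_mul]
    show (rotU hij (0 : unitInterval)).1 * P.1 * (rotU hij (0 : unitInterval)).1.conjTranspose = P.1
    rw [h, Matrix.conjTranspose_one, Matrix.one_mul, Matrix.mul_one]
  · refine congrArg (fun x : GK κ => (x : OnePoint (GK κ))) (Subtype.ext ?_)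
    have h : ∀ x y, (rotU hij (1 : unitInterval)).1 x y =
        if (Equiv.swap i j x.1, x.2) = y then 1 else 0 := by
      intro x y
      rw [rotU_apply, zpath_one, rotM_neg_one hij]
      rcases y with ⟨y1, y2⟩
      by_cases h1 : Equiv.swap i j x.1 = y1
      · by_cases h2 : x.2 = y2
        · subst h1 h2
          simp
        · simp [h1, h2]
      · simp [h1]
    show (rotU hij (1 : unitInterval)).1 * P.1 * (rotU hij (1 : unitInterval)).1.conjTranspose =
      fun x y => P.1 ((Equiv.swap i j).symm x.1, x.2) ((Equiv.swap i j).symm y.1, y.2)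
    ext x y
    rw [Matrix.mul_apply, Equiv.symm_swap]
    simp only [Matrix.mul_apply, Matrix.conjTranspose_apply, h]
    simp only [ite_mul, one_mul, zero_mul, Finset.sum_ite_eq, Finset.mem_univ, if_true]
    rw [Finset.sum_eq_single (Equiv.swap i j y.1, y.2)]
    · rw [if_pos rfl, star_one, mul_one]
    · intro b _ hb
      rw [if_neg (fun h' => hb h'.symm), star_zero, mul_zero]
    · intro h'
      exact absurd (Finset.mem_univ _) h'

/-- permutations of the coordinates of the Grassmannian are homotopic to the identity -/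
theorem rotG {κ : Type} [Fintype κ] (e : Equiv.Perm κ) :
    (PMap.ofHomeo (K := LC.G κ) (L := LC.G κ) (GK.reindex e)).Homotopic (PMap.id (LC.G κ)) := by
  classical
  refine Equiv.Perm.swap_induction_on (motive := fun e : Equiv.Perm κ =>
    (PMap.ofHomeo (K := LC.G κ) (L := LC.G κ) (GK.reindex e)).Homotopic (PMap.id (LC.G κ))) e ?_ ?_
  · have : PMap.ofHomeo (K := LC.G κ) (L := LC.G κ) (GK.reindex (1 : Equiv.Perm κ)) =
        PMap.id (LC.G κ) := by
      ext v; rfl
    rw [this]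
    exact PMap.Homotopic.refl _
  · intro f x y hxy hf
    have : PMap.ofHomeo (K := LC.G κ) (L := LC.G κ) (GK.reindex (Equiv.swap x y * f)) =
        (PMap.ofHomeo (K := LC.G κ) (L := LC.G κ) (GK.reindex (Equiv.swap x y))).comp
          (PMap.ofHomeo (K := LC.G κ) (L := LC.G κ) (GK.reindex f)) := by
      ext v; rfl
    rw [this]
    have h := PMap.Homotopic.comp (rotG_swap hxy) hf
    rwa [PMap.id_comp] at h

/-- the exchange of two complex lines -/
theorem rot2 : (PMap.ofHomeo (LC.swap LC.C LC.C)).Homotopic (PMap.id (LC.C.prod LC.C)) := by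
  refine homotopic_id_of_family (K := LC.C.prod LC.C) (LC.swap LC.C LC.C)
    (fun x : LC.I × (ℂ × ℂ) => (x.2.1 + (zpath x.1 - 1) / 2 * (x.2.1 - x.2.2),
      x.2.2 - (zpath x.1 - 1) / 2 * (x.2.1 - x.2.2)))
    (fun x : LC.I × (ℂ × ℂ) => (x.2.1 + ((zpath x.1)⁻¹ - 1) / 2 * (x.2.1 - x.2.2),
      x.2.2 - ((zpath x.1)⁻¹ - 1) / 2 * (x.2.1 - x.2.2))) ?_ ?_ ?_ ?_ ?_ ?_
  · have h1 := zpath_cont
    exact Continuous.prodMk (by fun_prop) (by fun_prop)
  · have h1 : Continuous fun x : LC.I × (ℂ × ℂ) => ((zpath x.1)⁻¹ - 1) / 2 * (x.2.1 - x.2.2) :=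
      ((((zpath_cont.inv₀ zpath_ne).comp continuous_fst).sub continuous_const).div_const 2).mul
        (by fun_prop)
    have h2 : Continuous fun x : LC.I × (ℂ × ℂ) => x.2.1 := by fun_prop
    have h3 : Continuous fun x : LC.I × (ℂ × ℂ) => x.2.2 := by fun_prop
    exact (h2.add h1).prodMk (h3.sub h1)
  · rintro t ⟨a, b⟩
    have h := zpath_ne t
    refine Prod.ext ?_ ?_
    · show (a + (zpath t - 1) / 2 * (a - b)) + ((zpath t)⁻¹ - 1) / 2 *
        ((a + (zpath t - 1) / 2 * (a - b)) - (b - (zpath t - 1) / 2 * (a - b))) = a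
      field_simp
      ring
    · show (b - (zpath t - 1) / 2 * (a - b)) - ((zpath t)⁻¹ - 1) / 2 *
        ((a + (zpath t - 1) / 2 * (a - b)) - (b - (zpath t - 1) / 2 * (a - b))) = b
      field_simp
      ring
  · rintro t ⟨a, b⟩
    have h := zpath_ne t
    refine Prod.ext ?_ ?_
    · show (a + ((zpath t)⁻¹ - 1) / 2 * (a - b)) + (zpath t - 1) / 2 *
        ((a + ((zpath t)⁻¹ - 1) / 2 * (a - b)) - (b - ((zpath t)⁻¹ - 1) / 2 * (a - b))) = a
      field_simp
      ring
    · show (b - ((zpath t)⁻¹ - 1) / 2 * (a - b)) - (zpath t - 1) / 2 *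
        ((a + ((zpath t)⁻¹ - 1) / 2 * (a - b)) - (b - ((zpath t)⁻¹ - 1) / 2 * (a - b))) = b
      field_simp
      ring
  · rintro ⟨a, b⟩
    show ((a + (zpath (0 : unitInterval) - 1) / 2 * (a - b),
      b - (zpath (0 : unitInterval) - 1) / 2 * (a - b)) : ℂ × ℂ) = (a, b)
    rw [zpath_zero]
    simp
  · rintro ⟨a, b⟩
    show ((a + (zpath (1 : unitInterval) - 1) / 2 * (a - b),
      b - (zpath (1 : unitInterval) - 1) / 2 * (a - b)) : ℂ × ℂ) = (b, a)
    rw [zpath_one]
    refine Prod.ext ?_ ?_ <;> simp only <;> ring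

/-- `ℂ^n × ℂ^n = ℂ^(n ⊔ n)` -/
def sumC (n : Type) [Fintype n] : (LC.cpow n).prod (LC.cpow n) ≃ₜ LC.cpow (n ⊕ n) where
  toFun v := Sum.elim v.1 v.2
  invFun v := (fun x => v (.inl x), fun x => v (.inr x))
  left_inv _ := rfl
  right_inv v := by ext (x | x) <;> rfl
  continuous_toFun := by
    refine continuous_pi ?_
    rintro (x | x)
    · exact (continuous_apply x).comp continuous_fst
    · exact (continuous_apply x).comp continuous_snd
  continuous_invFun := (continuous_pi fun _ => continuous_apply _).prodMk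
    (continuous_pi fun _ => continuous_apply _)

/-- the exchange of two copies of a complex vector space -/
theorem rotX (n : Type) [Fintype n] :
    (PMap.ofHomeo (LC.swap (LC.cpow n) (LC.cpow n))).Homotopic
      (PMap.id ((LC.cpow n).prod (LC.cpow n))) := by
  have h := (PMap.Homotopic.comp_right (PMap.ofHomeo (sumC n).symm)
    ((rotC (Equiv.sumComm n n)).comp_left (PMap.ofHomeo (sumC n))))
  have e1 : (PMap.ofHomeo (sumC n).symm).comp ((PMap.ofHomeo (cperm (Equiv.sumComm n n))).comp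
      (PMap.ofHomeo (sumC n))) = PMap.ofHomeo (LC.swap (LC.cpow n) (LC.cpow n)) := by
    ext v; rfl
  have e2 : (PMap.ofHomeo (sumC n).symm).comp ((PMap.id (LC.cpow (n ⊕ n))).comp
      (PMap.ofHomeo (sumC n))) = PMap.id ((LC.cpow n).prod (LC.cpow n)) := by
    ext v; rfl
  rwa [e1, e2] at h

/-! ## The pinch map of the real line -/

/-- the pinch map `ℝ → ℝ ⊔ ℝ`, `r ↦ r - 1/r`, the first copy for `r < 0` -/
def pinchRFun (r : ℝ) : OnePoint (ℝ ⊕ ℝ) :=
  if r < 0 then ((Sum.inl (r - 1 / r) : ℝ ⊕ ℝ) : OnePoint (ℝ ⊕ ℝ))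
  else if 0 < r then ((Sum.inr (r - 1 / r) : ℝ ⊕ ℝ) : OnePoint (ℝ ⊕ ℝ))
  else OnePoint.infty

/-- a map whose composition with a closed embedding is a map -/
theorem pinchR_factor {K L L' : LC} (e : L → L') (he : IsClosedEmbedding e) (F : PMap K L'.plus)
    (f : K → OnePoint L) (hf : ∀ k, F k = OnePoint.map e (f k)) :
    Continuous f ∧ Tendsto f (cocompact K) (𝓝 (OnePoint.infty : OnePoint L)) := by
  refine PMap.partial_aux f ?_ ?_
  · intro V hV
    obtain ⟨V', hV', rfl⟩ := he.isInducing.isOpen_iff.1 hV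
    have h1 : {k | ∃ l ∈ e ⁻¹' V', f k = (l : OnePoint L)} =
        F.toFun ⁻¹' ((fun l : L' => (l : OnePoint L')) '' V') := by
      ext k
      constructor
      · rintro ⟨l, hl, hk⟩
        refine ⟨e l, hl, ?_⟩
        change _ = F k
        rw [hf, hk]
        rfl
      · rintro ⟨l', hl', hk⟩
        rw [hf] at hk
        rcases hfk : f k with _ | l
        · rw [hfk] at hk
          exact absurd hk (OnePoint.coe_ne_infty l')
        · rw [hfk] at hk
          refine ⟨l, ?_, hfk⟩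
          have : l' = e l := OnePoint.coe_injective hk
          change e l ∈ V'
          rw [← this]
          exact hl'
    rw [h1]
    exact (OnePoint.isOpen_image_coe.2 hV').preimage F.cont
  · intro C hC
    have h1 : {k | ∃ l ∈ C, f k = (l : OnePoint L)} =
        F.toFun ⁻¹' ((fun l : L' => (l : OnePoint L')) '' (e '' C)) := by
      ext k
      constructor
      · rintro ⟨l, hl, hk⟩
        refine ⟨e l, ⟨l, hl, rfl⟩, ?_⟩
        change _ = F k
        rw [hf, hk]
        rfl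
      · rintro ⟨_, ⟨l', hl', rfl⟩, hk⟩
        rw [hf] at hk
        rcases hfk : f k with _ | l
        · rw [hfk] at hk
          exact absurd hk (OnePoint.coe_ne_infty (e l'))
        · rw [hfk] at hk
          refine ⟨l, ?_, hfk⟩
          have : e l' = e l := OnePoint.coe_injective hk
          rw [← he.injective this]
          exact hl'
    rw [h1]
    exact F.isCompact_preimage (hC.image he.continuous)

theorem pinchR_emb : IsClosedEmbedding (fun r : ℝ => (⟨r, 0⟩ : ℂ)) :=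
  Complex.isometry_ofReal.isClosedEmbedding

/-- the inclusion of the real line -/
def pinchR_incl : PMap LC.R LC.C.plus :=
  PMap.ofProper (K := LC.R) (L := LC.C) (fun r : ℝ => (⟨r, 0⟩ : ℂ)) pinchR_emb.continuous
    pinchR_emb.tendsto_cocompact

theorem pinchR_aux : Continuous pinchRFun ∧
    Tendsto pinchRFun (cocompact ℝ) (𝓝 (OnePoint.infty : OnePoint (ℝ ⊕ ℝ))) := by
  have he : IsClosedEmbedding (Sum.map (fun r : ℝ => (⟨r, 0⟩ : ℂ)) (fun r : ℝ => (⟨r, 0⟩ : ℂ))) := by
    refine IsClosedEmbedding.sumElim (IsClosedEmbedding.inl.comp pinchR_emb)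
      (IsClosedEmbedding.inr.comp pinchR_emb) ?_
    rintro (a | a) (b | b) h
    · have := pinchR_emb.injective (Sum.inl_injective h)
      rw [this]
    · exact absurd h Sum.inl_ne_inr
    · exact absurd h Sum.inr_ne_inl
    · have := pinchR_emb.injective (Sum.inr_injective h)
      rw [this]
  refine pinchR_factor (K := LC.R) (L := LC.R.sum LC.R) (L' := LC.C.sum LC.C) _ he
    (pinch.comp pinchR_incl) pinchRFun ?_
  intro r
  change pinchFun ⟨r, 0⟩ = OnePoint.map _ (pinchRFun r)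
  unfold pinchFun pinchRFun
  rcases lt_trichotomy r 0 with h | h | h
  · rw [if_pos h, if_pos h]
    rfl
  · subst h
    simp
  · rw [if_neg (not_lt.2 h.le), if_neg (not_lt.2 h.le), if_pos h, if_pos h]
    rfl

/-- the pinch map `ℝ → ℝ ⊔ ℝ` -/
def pinchR : PMap LC.R (LC.R.sum LC.R).plus := ⟨pinchRFun, pinchR_aux.1, pinchR_aux.2⟩

/-- the reversal of the real line -/
def negR : LC.R ≃ₜ LC.R := Homeomorph.neg ℝ

/-- a homotopy of maps of the complex plane which preserves the real line -/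
theorem pinchR_real {f g : PMap LC.R LC.R.plus} (H : PMap (LC.I.prod LC.C) LC.C.plus)
    (h : ∀ (t : LC.I) (r : ℝ) (l : ℂ), H (t, (⟨r, 0⟩ : ℂ)) = (l : OnePoint ℂ) → l.im = 0)
    (h0 : ∀ r : ℝ, OnePoint.map Complex.re (H (0, (⟨r, 0⟩ : ℂ))) = f r)
    (h1 : ∀ r : ℝ, OnePoint.map Complex.re (H (1, (⟨r, 0⟩ : ℂ))) = g r) : f.Homotopic g := by
  have h2 := pinchR_factor (K := LC.I.prod LC.R) (L := LC.R) (L' := LC.C) _ pinchR_emb
    (H.comp (PMap.ltens LC.I pinchR_incl))
    (fun k => OnePoint.map Complex.re (H (k.1, (⟨k.2, 0⟩ : ℂ)))) (by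
      rintro ⟨t, r⟩
      change H (t, (⟨r, 0⟩ : ℂ)) = OnePoint.map _ (OnePoint.map Complex.re (H (t, (⟨r, 0⟩ : ℂ))))
      rcases hH : H (t, (⟨r, 0⟩ : ℂ)) with _ | l
      · rfl
      · have h3 := h t r l hH
        change ((l : ℂ) : OnePoint ℂ) = ((⟨l.re, 0⟩ : ℂ) : OnePoint ℂ)
        congr 1
        exact Complex.ext rfl h3)
  exact ⟨⟨_, h2.1, h2.2⟩, h0, h1⟩

/-- second unit law -/
theorem pinchR_unit_right :
    (((PMap.zero LC.R LC.R.plus).copair (PMap.id LC.R)).comp pinchR).Homotopic (PMap.id LC.R) := by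
  apply PMap.Homotopic.symm
  refine pinchR_real pinchU_unitH ?_ ?_ ?_
  · intro t r l hl
    obtain ⟨-, rfl⟩ := pinchU_unitFun_eq.1 hl
    rfl
  · intro r
    have h1 : pinchU_unitD ((0 : unitInterval), (⟨r, 0⟩ : ℂ)) = 1 := by
      simp [pinchU_unitD]
    have h2 : pinchU_unitH ((0 : unitInterval), (⟨r, 0⟩ : ℂ)) = ((⟨r, 0⟩ : ℂ) : OnePoint ℂ) := by
      change pinchU_unitFun _ = _
      rw [pinchU_unitFun_eq]
      refine ⟨by rw [h1]; exact one_pos, ?_⟩
      unfold pinchU_unitPhi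
      rw [h1]
      apply Complex.ext
      · simp
      · rfl
    rw [h2]
    rfl
  · intro r
    have h1 : pinchU_unitD ((1 : unitInterval), (⟨r, 0⟩ : ℂ)) = r := by
      simp [pinchU_unitD]
    change OnePoint.map Complex.re (pinchU_unitFun ((1 : unitInterval), (⟨r, 0⟩ : ℂ))) =
      ((PMap.zero LC.R LC.R.plus).copair (PMap.id LC.R)).plus (pinchRFun r)
    unfold pinchRFun
    rcases lt_trichotomy r 0 with h | h | h
    · rw [if_pos h]
      unfold pinchU_unitFun
      rw [if_neg (by rw [h1]; exact not_lt.2 h.le)]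
      rfl
    · rw [if_neg (by rw [h]; exact lt_irrefl _), if_neg (by rw [h]; exact lt_irrefl _)]
      unfold pinchU_unitFun
      rw [if_neg (by rw [h1, h]; exact lt_irrefl _)]
      rfl
    · rw [if_neg (not_lt.2 h.le), if_pos h]
      unfold pinchU_unitFun
      rw [if_pos (by rw [h1]; exact h)]
      unfold pinchU_unitPhi
      rw [h1]
      rfl

theorem pinchR_conj :
    ((PMap.id LC.R).copair (PMap.zero LC.R LC.R.plus)).comp pinchR =
      (PMap.ofHomeo negR).comp
        ((((PMap.zero LC.R LC.R.plus).copair (PMap.id LC.R)).comp pinchR).comp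
          (PMap.ofHomeo negR)) := by
  ext k
  change ((PMap.id LC.R).copair (PMap.zero LC.R LC.R.plus)).plus (pinchRFun k) =
    (PMap.ofHomeo negR).plus (((PMap.zero LC.R LC.R.plus).copair (PMap.id LC.R)).plus
      (pinchRFun (-k : ℝ)))
  unfold pinchRFun
  rcases lt_trichotomy (k : ℝ) 0 with h | h | h
  · rw [if_pos h, if_neg (not_lt.2 (neg_pos.2 h).le), if_pos (neg_pos.2 h)]
    change (((k : ℝ) - 1 / k : ℝ) : OnePoint ℝ) = ((-(-k - 1 / -k) : ℝ) : OnePoint ℝ)
    congr 1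
    rw [one_div_neg_eq_neg_one_div]
    ring
  · have h1 : ¬ ((k : ℝ) < 0) := by rw [h]; exact lt_irrefl _
    have h2 : ¬ (0 < (k : ℝ)) := by rw [h]; exact lt_irrefl _
    have h3 : ¬ (-(k : ℝ) < 0) := by rw [h]; simp
    have h4 : ¬ (0 < -(k : ℝ)) := by rw [h]; simp
    rw [if_neg h1, if_neg h2, if_neg h3, if_neg h4]
    rfl
  · rw [if_neg (not_lt.2 h.le), if_pos h, if_pos (neg_lt_zero.2 h)]
    rfl

theorem pinchR_negR_negR : (PMap.ofHomeo negR).comp ((PMap.id LC.R).comp (PMap.ofHomeo negR)) =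
    PMap.id LC.R := by
  ext k
  change ((-(-(k : ℝ)) : ℝ) : OnePoint ℝ) = ((k : ℝ) : OnePoint ℝ)
  rw [neg_neg]

/-- first unit law -/
theorem pinchR_unit_left :
    (((PMap.id LC.R).copair (PMap.zero LC.R LC.R.plus)).comp pinchR).Homotopic (PMap.id LC.R) := by
  have h := PMap.Homotopic.comp_right (PMap.ofHomeo negR)
    (PMap.Homotopic.comp_left pinchR_unit_right (PMap.ofHomeo negR))
  rw [pinchR_negR_negR] at h
  rw [pinchR_conj]
  exact h

/-- inverse law -/
theorem pinchR_neg :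
    (((PMap.id LC.R).copair (PMap.ofHomeo negR)).comp pinchR).Homotopic
      (PMap.zero LC.R LC.R.plus) := by
  refine pinchR_real negH ?_ ?_ ?_
  · intro t r l hl
    change negPart negU negG (t, (⟨r, 0⟩ : ℂ)) = _ at hl
    by_cases hU : ((t, (⟨r, 0⟩ : ℂ)) : LC.I.prod LC.C) ∈ negU
    · rw [negPart_of_mem hU] at hl
      rw [← OnePoint.coe_injective hl]
      rfl
    · rw [negPart_of_notMem hU] at hl
      exact absurd hl (OnePoint.infty_ne_coe l)
  · intro r
    change OnePoint.map Complex.re (negPart negU negG ((0 : unitInterval), (⟨r, 0⟩ : ℂ))) =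
      ((PMap.id LC.R).copair (PMap.ofHomeo negR)).plus (pinchRFun r)
    have hN : negN ((0 : unitInterval), (⟨r, 0⟩ : ℂ)) = |r| := by
      unfold negN
      simp
    unfold pinchRFun
    rcases lt_trichotomy r 0 with h | h | h
    · rw [if_pos h]
      have hU : (((0 : unitInterval), (⟨r, 0⟩ : ℂ)) : LC.I.prod LC.C) ∈ negU := by
        refine ⟨by simp, ?_⟩
        rw [hN]
        exact abs_pos.2 h.ne
      rw [negPart_of_mem hU]
      change ((negG ((0 : unitInterval), (⟨r, 0⟩ : ℂ)) : ℂ).re : OnePoint ℝ) =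
        ((r - 1 / r : ℝ) : OnePoint ℝ)
      congr 1
      unfold negG
      rw [hN, abs_of_neg h]
      simp
      ring
    · rw [if_neg (by rw [h]; exact lt_irrefl _), if_neg (by rw [h]; exact lt_irrefl _)]
      have hU : (((0 : unitInterval), (⟨r, 0⟩ : ℂ)) : LC.I.prod LC.C) ∉ negU := by
        rintro ⟨-, h2⟩
        rw [hN, h] at h2
        simp at h2
      rw [negPart_of_notMem hU]
      rfl
    · rw [if_neg (not_lt.2 h.le), if_pos h]
      have hU : (((0 : unitInterval), (⟨r, 0⟩ : ℂ)) : LC.I.prod LC.C) ∈ negU := by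
        refine ⟨by simp, ?_⟩
        rw [hN]
        exact abs_pos.2 h.ne'
      rw [negPart_of_mem hU]
      change ((negG ((0 : unitInterval), (⟨r, 0⟩ : ℂ)) : ℂ).re : OnePoint ℝ) =
        ((-(r - 1 / r) : ℝ) : OnePoint ℝ)
      congr 1
      unfold negG
      rw [hN, abs_of_pos h]
      simp
  · intro r
    change OnePoint.map Complex.re (negPart negU negG ((1 : unitInterval), (⟨r, 0⟩ : ℂ))) =
      OnePoint.infty
    rw [negPart_of_notMem]
    · rfl
    · rintro ⟨h1, -⟩
      exact absurd h1 (by simp)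

/-- the pinch map `ℝ × K → (ℝ × K) ⊔ (ℝ × K)` -/
def pinchRK (K : LC) : PMap (LC.R.prod K) ((LC.R.prod K).sum (LC.R.prod K)).plus :=
  (PMap.ofHomeo (dist LC.R LC.R K)).comp (pinchR.tens K)

/-- distributivity -/
def ldist (X K L : LC) : X.prod (K.sum L) ≃ₜ (X.prod K).sum (X.prod L) :=
  Homeomorph.prodSumDistrib

/-- the sum of two maps of `X × K` defined by a map `m : K → K ⊔ K` -/
def PMap.msum {X K : LC} {Y : PT} (m : PMap K (K.sum K).plus) (a b : PMap (X.prod K) Y) :
    PMap (X.prod K) Y :=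
  (a.copair b).comp ((PMap.ofHomeo (ldist X K K)).comp (PMap.ltens X m))

/-! ## Mayer–Vietoris -/

/-! ### Auxiliary constructions -/

/-- the projection along the interval is proper -/
theorem mvu_snd (Z : LC) :
    Tendsto (fun l : LC.I × Z => l.2) (cocompact (LC.I × Z)) (cocompact Z) := by
  intro s hs
  obtain ⟨C, hC, hCs⟩ := mem_cocompact.1 hs
  refine mem_map.2 (mem_cocompact.2 ⟨univ ×ˢ C, isCompact_univ.prod hC, ?_⟩)
  rintro ⟨t, k⟩ h
  exact hCs fun hk => h ⟨trivial, hk⟩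

/-- the inclusion of a closed subspace is proper -/
theorem mvu_val (X K : LC) (S : Set K) (hS : IsClosed S) :
    Tendsto (fun l : X × S => ((l.1, (l.2 : K)) : X × K)) (cocompact (X × S))
      (cocompact (X × K)) :=
  (IsClosedEmbedding.id.prodMap hS.isClosedEmbedding_subtypeVal).tendsto_cocompact

/-- glueing along three closed subsets -/
theorem mvu_glue3 {K : LC} {Y : PT} (s t r : Set K) (hs : IsClosed s) (ht : IsClosed t)
    (hr : IsClosed r) (hst : ∀ k, k ∈ s ∨ k ∈ t ∨ k ∈ r) (f : K → Y)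
    (f1 : PMap (K.closed s hs) Y) (f2 : PMap (K.closed t ht) Y) (f3 : PMap (K.closed r hr) Y)
    (h1 : ∀ k : s, f k = f1 k) (h2 : ∀ k : t, f k = f2 k) (h3 : ∀ k : r, f k = f3 k) :
    Continuous f ∧ Tendsto f (cocompact K) (𝓝 Y.pt) := by
  constructor
  · have hc1 : ContinuousOn f s := by
      rw [continuousOn_iff_continuous_domRestrict]
      refine f1.cont.congr fun k => ?_
      exact (h1 k).symm
    have hc2 : ContinuousOn f t := by
      rw [continuousOn_iff_continuous_domRestrict]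
      refine f2.cont.congr fun k => ?_
      exact (h2 k).symm
    have hc3 : ContinuousOn f r := by
      rw [continuousOn_iff_continuous_domRestrict]
      refine f3.cont.congr fun k => ?_
      exact (h3 k).symm
    have h4 := hc1.union_of_isClosed (hc2.union_of_isClosed hc3 ht hr) hs (ht.union hr)
    have h5 : s ∪ (t ∪ r) = univ := by
      ext k
      exact ⟨fun _ => trivial, fun _ => hst k⟩
    rw [h5] at h4
    exact continuousOn_univ.1 h4
  · intro U hU
    obtain ⟨C1, hC1, h1'⟩ := mem_cocompact.1 (f1.infty hU)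
    obtain ⟨C2, hC2, h2'⟩ := mem_cocompact.1 (f2.infty hU)
    obtain ⟨C3, hC3, h3'⟩ := mem_cocompact.1 (f3.infty hU)
    refine mem_map.2 (mem_cocompact.2 ⟨Subtype.val '' C1 ∪ (Subtype.val '' C2 ∪ Subtype.val '' C3),
      (hC1.image continuous_subtype_val).union ((hC2.image continuous_subtype_val).union
        (hC3.image continuous_subtype_val)), ?_⟩)
    intro k hk
    rcases hst k with hks | hkt | hkr
    · have : (⟨k, hks⟩ : s) ∈ C1ᶜ := fun h => hk (Or.inl ⟨_, h, rfl⟩)
      have h3 := h1' this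
      rw [mem_preimage, h1 ⟨k, hks⟩]
      exact h3
    · have : (⟨k, hkt⟩ : t) ∈ C2ᶜ := fun h => hk (Or.inr (Or.inl ⟨_, h, rfl⟩))
      have h3 := h2' this
      rw [mem_preimage, h2 ⟨k, hkt⟩]
      exact h3
    · have : (⟨k, hkr⟩ : r) ∈ C3ᶜ := fun h => hk (Or.inr (Or.inr ⟨_, h, rfl⟩))
      have h3'' := h3' this
      rw [mem_preimage, h3 ⟨k, hkr⟩]
      exact h3''

/-- the part of a glued map over a closed subset which is given by a homotopy -/
def mvu_pull {L X K : LC} {Y : PT} {S : Set K} (hS : IsClosed S)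
    (H : PMap (LC.I.prod (X.prod (K.closed S hS))) Y) (T : Set L) (hT : IsClosed T)
    (τ : L → LC.I) (hτ : Continuous τ) (q : L → X × K) (hq : Continuous q)
    (hqp : Tendsto q (cocompact L) (cocompact (X × K))) (hTS : ∀ l ∈ T, (q l).2 ∈ S) :
    PMap (L.closed T hT) Y :=
  H.comp (PMap.ofProper (K := L.closed T hT) (L := LC.I.prod (X.prod (K.closed S hS)))
    (fun l : T => ((τ l.1, ((q l.1).1, (⟨(q l.1).2, hTS l.1 l.2⟩ : S))) : LC.I × (X × S)))
    (by
      have h1 : Continuous fun l : T => (q l.1).2 :=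
        continuous_snd.comp (hq.comp continuous_subtype_val)
      exact (hτ.comp continuous_subtype_val).prodMk
        ((continuous_fst.comp (hq.comp continuous_subtype_val)).prodMk
          (h1.subtype_mk _)))
    (MV.proper_aux (X := T) (Y := LC.I × (X × S)) (Z := X × K)
      (g := fun p : LC.I × (X × S) => ((p.2.1, (p.2.2 : K)) : X × K))
      (by
        exact (continuous_fst.comp continuous_snd).prodMk
          (continuous_subtype_val.comp (continuous_snd.comp continuous_snd)))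
      (hqp.comp hT.isClosedEmbedding_subtypeVal.tendsto_cocompact)))

theorem mvu_pull_apply {L X K : LC} {Y : PT} {S : Set K} (hS : IsClosed S)
    (H : PMap (LC.I.prod (X.prod (K.closed S hS))) Y) (T : Set L) (hT : IsClosed T)
    (τ : L → LC.I) (hτ : Continuous τ) (q : L → X × K) (hq : Continuous q)
    (hqp : Tendsto q (cocompact L) (cocompact (X × K))) (hTS : ∀ l ∈ T, (q l).2 ∈ S) (l : T) :
    mvu_pull hS H T hT τ hτ q hq hqp hTS l =
      H ((τ l.1, ((q l.1).1, (⟨(q l.1).2, hTS l.1 l.2⟩ : S))) : LC.I × (X × S)) := rfl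

/-! ### The inverse of `toReal` -/

/-- the inverse of `MV.toReal` -/
def mvu_from (r : ℝ) : ℝ := 2 / (√(r ^ 2 + 4) + 2 - r)

theorem mvu_sqrt (r : ℝ) : |r| < √(r ^ 2 + 4) := by
  apply Real.lt_sqrt_of_sq_lt
  rw [sq_abs]
  linarith

theorem mvu_from_den (r : ℝ) : 2 < √(r ^ 2 + 4) + 2 - r := by
  have := mvu_sqrt r
  have := le_abs_self r
  linarith

theorem mvu_from_pos (r : ℝ) : 0 < mvu_from r := by
  have := mvu_from_den r
  unfold mvu_from
  exact div_pos (by norm_num) (by linarith)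

theorem mvu_from_lt (r : ℝ) : mvu_from r < 1 := by
  have := mvu_from_den r
  unfold mvu_from
  rw [div_lt_one (by linarith)]
  exact this

theorem mvu_from_cont : Continuous mvu_from := by
  unfold mvu_from
  refine continuous_const.div (by fun_prop) fun r => ?_
  have := mvu_from_den r
  linarith

theorem mvu_to_from (r : ℝ) : MV.toReal (mvu_from r) = r := by
  have h1 := mvu_from_den r
  have h2 := mvu_sqrt r
  have h3 := le_abs_self r
  have h4 := Real.mul_self_sqrt (show 0 ≤ r ^ 2 + 4 by positivity)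
  unfold MV.toReal mvu_from
  set S := √(r ^ 2 + 4) with hS
  have h5 : S + 2 - r ≠ 0 := by linarith
  have h6 : S - r ≠ 0 := by
    have : 0 < S - r := by linarith
    exact this.ne'
  have h7 : 1 - 2 / (S + 2 - r) = (S - r) / (S + 2 - r) := by
    rw [eq_div_iff h5]
    field_simp
    ring
  rw [h7, one_div_div, one_div_div, div_sub_div _ _ h6 two_ne_zero, div_eq_iff (by positivity)]
  linear_combination -h4

theorem mvu_toReal_mono {a b : ℝ} (ha : 0 < a) (hb : b < 1) (hab : a ≤ b) :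
    MV.toReal a ≤ MV.toReal b := by
  unfold MV.toReal
  have h1 : 1 / (1 - a) ≤ 1 / (1 - b) := one_div_le_one_div_of_le (by linarith) (by linarith)
  have h2 : 1 / b ≤ 1 / a := one_div_le_one_div_of_le ha hab
  linarith

theorem mvu_toReal_lt {a b : ℝ} (ha : 0 < a) (hb : b < 1) (hab : a < b) :
    MV.toReal a < MV.toReal b := by
  unfold MV.toReal
  have h1 : 1 / (1 - a) ≤ 1 / (1 - b) := one_div_le_one_div_of_le (by linarith) (by linarith)
  have h2 : 1 / b < 1 / a := one_div_lt_one_div_of_lt ha hab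
  linarith

theorem mvu_from_to {v : ℝ} (h0 : 0 < v) (h1 : v < 1) : mvu_from (MV.toReal v) = v := by
  rcases lt_trichotomy (mvu_from (MV.toReal v)) v with h | h | h
  · have := mvu_toReal_lt (mvu_from_pos _) h1 h
    rw [mvu_to_from] at this
    exact absurd this (lt_irrefl _)
  · exact h
  · have := mvu_toReal_lt h0 (mvu_from_lt _) h
    rw [mvu_to_from] at this
    exact absurd this (lt_irrefl _)

theorem mvu_from_strictMono : StrictMono mvu_from := by
  intro a b hab
  by_contra h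
  rw [not_lt] at h
  have := mvu_toReal_mono (mvu_from_pos b) (mvu_from_lt a) h
  rw [mvu_to_from, mvu_to_from] at this
  exact absurd hab (not_lt.2 this)

theorem mvu_from_range : range mvu_from = Ioo (0 : ℝ) 1 := by
  ext v
  constructor
  · rintro ⟨r, rfl⟩
    exact ⟨mvu_from_pos r, mvu_from_lt r⟩
  · rintro ⟨h0, h1⟩
    exact ⟨_, mvu_from_to h0 h1⟩

/-- the inverse of `MV.toReal` as a map to the interval -/
def mvu_fromI (r : LC.R) : LC.I := ⟨mvu_from r, (mvu_from_pos r).le, (mvu_from_lt r).le⟩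

theorem mvu_fromI_emb : IsEmbedding mvu_fromI := by
  have h1 : IsEmbedding mvu_from := by
    refine mvu_from_strictMono.isEmbedding_of_ordConnected ?_
    rw [mvu_from_range]
    exact ordConnected_Ioo
  exact h1.codRestrict (Icc (0 : ℝ) 1) fun r => ⟨(mvu_from_pos r).le, (mvu_from_lt r).le⟩

/-- exchange of the first two factors -/
def mvu_exch (X C : LC) : X × (LC.R × C) ≃ₜ LC.R × (X × C) where
  toFun p := (p.2.1, (p.1, p.2.2))
  invFun p := (p.2.1, (p.1, p.2.2))
  left_inv _ := rfl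
  right_inv _ := rfl
  continuous_toFun := (continuous_fst.comp continuous_snd).prodMk
    (continuous_fst.prodMk (continuous_snd.comp continuous_snd))
  continuous_invFun := (continuous_fst.comp continuous_snd).prodMk
    (continuous_fst.prodMk (continuous_snd.comp continuous_snd))

/-- the embedding of `X × (ℝ × C)` in the compactification of `I × (X × C)` -/
def mvu_emb (X C : LC) (p : X.prod (LC.R.prod C)) : OnePoint (LC.I × (X × C)) :=
  (((mvu_fromI p.2.1, (p.1, p.2.2)) : LC.I × (X × C)) : OnePoint (LC.I × (X × C)))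

theorem mvu_emb_isEmbedding (X C : LC) : IsEmbedding (mvu_emb X C) := by
  have h1 : IsEmbedding (Prod.map mvu_fromI (id : X × C → X × C)) :=
    mvu_fromI_emb.prodMap IsEmbedding.id
  exact OnePoint.isOpenEmbedding_coe.isEmbedding.comp (h1.comp (mvu_exch X C).isEmbedding)

/-- the map on `X × (ℝ × C)` given by a homotopy of the zero map to itself -/
def mvu_open {X C : LC} {Y : PT} (G : PMap (LC.I.prod (X.prod C)) Y)
    (h0 : ∀ z, G (0, z) = Y.pt) (h1 : ∀ z, G (1, z) = Y.pt) :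
    PMap (X.prod (LC.R.prod C)) Y :=
  PMap.ofEmb (mvu_emb X C) (mvu_emb_isEmbedding X C) G.plus G.continuous_plus (by
    intro p hp
    rcases p with _ | ⟨t, x, c⟩
    · rfl
    · by_cases ht : 0 < (t : ℝ) ∧ (t : ℝ) < 1
      · refine absurd ?_ hp
        refine ⟨(x, (MV.toReal t, c)), ?_⟩
        have h2 : mvu_fromI (MV.toReal t) = t := Subtype.ext (mvu_from_to ht.1 ht.2)
        change (((mvu_fromI (MV.toReal t), (x, c)) : LC.I × (X × C)) : OnePoint (LC.I × (X × C))) = _
        rw [h2]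
        rfl
      · change G (t, (x, c)) = Y.pt
        rcases lt_or_eq_of_le t.2.1 with h | h
        · have h3 : (t : ℝ) = 1 := by
            by_contra h4
            exact ht ⟨h, lt_of_le_of_ne t.2.2 h4⟩
          have h4 : t = 1 := Subtype.ext h3
          rw [h4]
          exact h1 _
        · have h4 : t = 0 := Subtype.ext h.symm
          rw [h4]
          exact h0 _)

theorem mvu_open_apply {X C : LC} {Y : PT} (G : PMap (LC.I.prod (X.prod C)) Y)
    (h0 : ∀ z, G (0, z) = Y.pt) (h1 : ∀ z, G (1, z) = Y.pt) (x : X) (r : ℝ) (c : C) :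
    mvu_open G h0 h1 (x, (r, c)) = G (mvu_fromI r, (x, c)) := rfl

theorem mvu_projIcc_zero {a : ℝ} (h : a ≤ 0) : projIcc (0 : ℝ) 1 zero_le_one a = (0 : unitInterval) :=
  projIcc_of_le_left zero_le_one h

theorem mvu_projIcc_one {a : ℝ} (h : 1 ≤ a) : projIcc (0 : ℝ) 1 zero_le_one a = (1 : unitInterval) :=
  projIcc_of_right_le zero_le_one h

section
variable {K : LC} (u : C(K, ℝ)) (X : LC) (Y : PT)

/-- A map with null-homotopic restrictions to the two parts comes from `ℝ × C`. -/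
theorem mv1u (f : PMap (X.prod K) Y)
    (hA : (f.comp (PMap.ltens X (MV.iA u))).Homotopic (PMap.zero _ Y))
    (hB : (f.comp (PMap.ltens X (MV.iB u))).Homotopic (PMap.zero _ Y)) :
    ∃ y : PMap (X.prod (LC.R.prod (MV.C u))) Y, f.Homotopic (y.comp (PMap.ltens X (MV.delta u))) := by
  classical
  obtain ⟨HA, hA0, hA1⟩ := hA
  obtain ⟨HB, hB0, hB1⟩ := hB
  have hA0' : ∀ (x : X) (k : K) (h0 : u k ≤ 1),
      HA ((0 : unitInterval), (x, (⟨k, h0⟩ : {k : K | u k ≤ 1}))) = f (x, k) :=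
    fun x k h0 => hA0 (x, (⟨k, h0⟩ : {k : K | u k ≤ 1}))
  have hA1' : ∀ (x : X) (k : K) (h0 : u k ≤ 1),
      HA ((1 : unitInterval), (x, (⟨k, h0⟩ : {k : K | u k ≤ 1}))) = Y.pt :=
    fun x k h0 => hA1 (x, (⟨k, h0⟩ : {k : K | u k ≤ 1}))
  have hB0' : ∀ (x : X) (k : K) (h0 : 0 ≤ u k),
      HB ((0 : unitInterval), (x, (⟨k, h0⟩ : {k : K | 0 ≤ u k}))) = f (x, k) :=
    fun x k h0 => hB0 (x, (⟨k, h0⟩ : {k : K | 0 ≤ u k}))
  have hB1' : ∀ (x : X) (k : K) (h0 : 0 ≤ u k),
      HB ((1 : unitInterval), (x, (⟨k, h0⟩ : {k : K | 0 ≤ u k}))) = Y.pt :=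
    fun x k h0 => hB1 (x, (⟨k, h0⟩ : {k : K | 0 ≤ u k}))
  -- the map on `I × (X × C)`
  let q : LC.I × (X × {k : K | 0 ≤ u k ∧ u k ≤ 1}) → X × K := fun l => (l.2.1, (l.2.2 : K))
  have hq : Continuous q := (continuous_fst.comp continuous_snd).prodMk
    (continuous_subtype_val.comp (continuous_snd.comp continuous_snd))
  have hqp : Tendsto q (cocompact (LC.I × (X × {k : K | 0 ≤ u k ∧ u k ≤ 1})))
      (cocompact (X × K)) :=
    (mvu_val X K _ (MV.clC u)).comp (mvu_snd (X.prod (MV.C u)))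
  have hs : Continuous fun l : LC.I × (X × {k : K | 0 ≤ u k ∧ u k ≤ 1}) => (l.1 : ℝ) :=
    continuous_subtype_val.comp continuous_fst
  let G : LC.I × (X × {k : K | 0 ≤ u k ∧ u k ≤ 1}) → Y := fun l =>
    if (l.1 : ℝ) ≤ 1 / 2 then HA (projIcc (0 : ℝ) 1 zero_le_one (1 - 2 * (l.1 : ℝ)),
      ((q l).1, (⟨(q l).2, l.2.2.2.2⟩ : {k : K | u k ≤ 1})))
    else HB (projIcc (0 : ℝ) 1 zero_le_one (2 * (l.1 : ℝ) - 1),
      ((q l).1, (⟨(q l).2, l.2.2.2.1⟩ : {k : K | 0 ≤ u k})))
  have hG1 : ∀ l, (l.1 : ℝ) ≤ 1 / 2 → G l =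
      HA (projIcc (0 : ℝ) 1 zero_le_one (1 - 2 * (l.1 : ℝ)),
      ((q l).1, (⟨(q l).2, l.2.2.2.2⟩ : {k : K | u k ≤ 1}))) := fun l h1 => if_pos h1
  have hG2 : ∀ l, 1 / 2 ≤ (l.1 : ℝ) → G l =
      HB (projIcc (0 : ℝ) 1 zero_le_one (2 * (l.1 : ℝ) - 1),
      ((q l).1, (⟨(q l).2, l.2.2.2.1⟩ : {k : K | 0 ≤ u k}))) := by
    intro l h1
    by_cases h2 : (l.1 : ℝ) ≤ 1 / 2
    · have h3 : (l.1 : ℝ) = 1 / 2 := le_antisymm h2 h1
      rw [hG1 l h2, mvu_projIcc_zero (a := 1 - 2 * (l.1 : ℝ)) (by rw [h3]; norm_num),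
        mvu_projIcc_zero (a := 2 * (l.1 : ℝ) - 1) (by rw [h3]; norm_num)]
      exact (hA0' (q l).1 (q l).2 l.2.2.2.2).trans (hB0' (q l).1 (q l).2 l.2.2.2.1).symm
    · exact if_neg h2
  have hT1 : IsClosed {l : LC.I × (X × {k : K | 0 ≤ u k ∧ u k ≤ 1}) | (l.1 : ℝ) ≤ 1 / 2} :=
    isClosed_le hs continuous_const
  have hT2 : IsClosed {l : LC.I × (X × {k : K | 0 ≤ u k ∧ u k ≤ 1}) | 1 / 2 ≤ (l.1 : ℝ)} :=
    isClosed_le continuous_const hs
  have hG := PMap.glue_aux (K := LC.I.prod (X.prod (MV.C u))) (Y := Y)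
    {l : LC.I × (X × {k : K | 0 ≤ u k ∧ u k ≤ 1}) | (l.1 : ℝ) ≤ 1 / 2}
    {l : LC.I × (X × {k : K | 0 ≤ u k ∧ u k ≤ 1}) | 1 / 2 ≤ (l.1 : ℝ)} hT1 hT2
    (by
      ext l
      exact ⟨fun _ => trivial, fun _ => le_total (l.1 : ℝ) (1 / 2)⟩) G
    (mvu_pull (L := LC.I.prod (X.prod (MV.C u))) (MV.clA u) HA _ hT1
      (fun l => projIcc (0 : ℝ) 1 zero_le_one (1 - 2 * (l.1 : ℝ)))
      (continuous_projIcc.comp (continuous_const.sub (continuous_const.mul hs)))
      q hq hqp (fun l _ => l.2.2.2.2))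
    (mvu_pull (L := LC.I.prod (X.prod (MV.C u))) (MV.clB u) HB _ hT2
      (fun l => projIcc (0 : ℝ) 1 zero_le_one (2 * (l.1 : ℝ) - 1))
      (continuous_projIcc.comp ((continuous_const.mul hs).sub continuous_const))
      q hq hqp (fun l _ => l.2.2.2.1))
    (fun k => hG1 k.1 k.2) (fun k => hG2 k.1 k.2)
  let GP : PMap (LC.I.prod (X.prod (MV.C u))) Y := ⟨G, hG.1, hG.2⟩
  have hGP0 : ∀ z, GP (0, z) = Y.pt := by
    rintro ⟨x, c⟩
    refine (hG1 ((0 : unitInterval), (x, c)) ?_).trans ?_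
    · change ((0 : unitInterval) : ℝ) ≤ 1 / 2
      rw [Set.Icc.coe_zero]
      norm_num
    · change HA (projIcc (0 : ℝ) 1 zero_le_one (1 - 2 * ((0 : unitInterval) : ℝ)), _) = _
      rw [mvu_projIcc_one (by rw [Set.Icc.coe_zero]; norm_num)]
      exact hA1' x c.1 c.2.2
  have hGP1 : ∀ z, GP (1, z) = Y.pt := by
    rintro ⟨x, c⟩
    refine (hG2 ((1 : unitInterval), (x, c)) ?_).trans ?_
    · change 1 / 2 ≤ ((1 : unitInterval) : ℝ)
      rw [Set.Icc.coe_one]
      norm_num
    · change HB (projIcc (0 : ℝ) 1 zero_le_one (2 * ((1 : unitInterval) : ℝ) - 1), _) = _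
      rw [mvu_projIcc_one (by rw [Set.Icc.coe_one]; norm_num)]
      exact hB1' x c.1 c.2.1
  refine ⟨mvu_open GP hGP0 hGP1, ?_⟩
  -- the homotopy
  let p : LC.I × (X × K) → X × K := fun l => l.2
  have hp : Continuous p := continuous_snd
  have hpp : Tendsto p (cocompact (LC.I × (X × K))) (cocompact (X × K)) := mvu_snd (X.prod K)
  have hup : Continuous fun l : LC.I × (X × K) => u l.2.2 :=
    u.continuous.comp (continuous_snd.comp continuous_snd)
  have hsp : Continuous fun l : LC.I × (X × K) => (l.1 : ℝ) :=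
    continuous_subtype_val.comp continuous_fst
  let F : LC.I × (X × K) → Y := fun l =>
    if h1 : u l.2.2 ≤ 1 / 2 then
      HA (projIcc (0 : ℝ) 1 zero_le_one ((l.1 : ℝ) - 2 * max (u l.2.2) 0),
      (l.2.1, (⟨l.2.2, h1.trans (by norm_num)⟩ : {k : K | u k ≤ 1})))
    else HB (projIcc (0 : ℝ) 1 zero_le_one ((l.1 : ℝ) - 2 * max (1 - u l.2.2) 0),
      (l.2.1, (⟨l.2.2, le_trans (by norm_num) (not_le.1 h1).le⟩ : {k : K | 0 ≤ u k})))
  have hF1 : ∀ (l : LC.I × (X × K)) (h1 : u l.2.2 ≤ 1 / 2), F l =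
      HA (projIcc (0 : ℝ) 1 zero_le_one ((l.1 : ℝ) - 2 * max (u l.2.2) 0),
      (l.2.1, (⟨l.2.2, h1.trans (by norm_num)⟩ : {k : K | u k ≤ 1}))) := fun l h1 => dif_pos h1
  have hF2 : ∀ (l : LC.I × (X × K)) (h1 : 1 / 2 ≤ u l.2.2), F l =
      HB (projIcc (0 : ℝ) 1 zero_le_one ((l.1 : ℝ) - 2 * max (1 - u l.2.2) 0),
      (l.2.1, (⟨l.2.2, le_trans (by norm_num) h1⟩ : {k : K | 0 ≤ u k}))) := by
    intro l h1
    by_cases h2 : u l.2.2 ≤ 1 / 2
    · have h3 : u l.2.2 = 1 / 2 := le_antisymm h2 h1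
      have h4 : (l.1 : ℝ) ≤ 1 := l.1.2.2
      have h5 := le_max_left (u l.2.2) 0
      have h6 := le_max_left (1 - u l.2.2) 0
      rw [hF1 l h2, mvu_projIcc_zero (a := (l.1 : ℝ) - 2 * max (u l.2.2) 0) (by linarith),
        mvu_projIcc_zero (a := (l.1 : ℝ) - 2 * max (1 - u l.2.2) 0) (by linarith)]
      exact (hA0' l.2.1 l.2.2 _).trans (hB0' l.2.1 l.2.2 _).symm
    · exact dif_neg h2
  have hT1' : IsClosed {l : LC.I × (X × K) | u l.2.2 ≤ 1 / 2} := isClosed_le hup continuous_const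
  have hT2' : IsClosed {l : LC.I × (X × K) | 1 / 2 ≤ u l.2.2} := isClosed_le continuous_const hup
  have hF := PMap.glue_aux (K := LC.I.prod (X.prod K)) (Y := Y)
    {l : LC.I × (X × K) | u l.2.2 ≤ 1 / 2} {l : LC.I × (X × K) | 1 / 2 ≤ u l.2.2} hT1' hT2'
    (by
      ext l
      exact ⟨fun _ => trivial, fun _ => le_total (u l.2.2) (1 / 2)⟩) F
    (mvu_pull (L := LC.I.prod (X.prod K)) (MV.clA u) HA _ hT1'
      (fun l => projIcc (0 : ℝ) 1 zero_le_one ((l.1 : ℝ) - 2 * max (u l.2.2) 0))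
      (continuous_projIcc.comp (hsp.sub (continuous_const.mul (hup.max continuous_const))))
      p hp hpp (fun l hl => (show u l.2.2 ≤ 1 / 2 from hl).trans (by norm_num)))
    (mvu_pull (L := LC.I.prod (X.prod K)) (MV.clB u) HB _ hT2'
      (fun l => projIcc (0 : ℝ) 1 zero_le_one ((l.1 : ℝ) - 2 * max (1 - u l.2.2) 0))
      (continuous_projIcc.comp (hsp.sub (continuous_const.mul
        ((continuous_const.sub hup).max continuous_const))))
      p hp hpp (fun l hl => le_trans (by norm_num) (show 1 / 2 ≤ u l.2.2 from hl)))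
    (fun k => hF1 k.1 k.2) (fun k => hF2 k.1 k.2)
  refine ⟨⟨F, hF.1, hF.2⟩, ?_, ?_⟩
  · rintro ⟨x, k⟩
    change F ((0 : unitInterval), (x, k)) = f (x, k)
    rcases le_total (u k) (1 / 2) with h1 | h1
    · refine (hF1 ((0 : unitInterval), (x, k)) h1).trans ?_
      change HA (projIcc (0 : ℝ) 1 zero_le_one (((0 : unitInterval) : ℝ) - 2 * max (u k) 0), _) = _
      rw [mvu_projIcc_zero (by
        have := le_max_right (u k) 0
        rw [Set.Icc.coe_zero]
        linarith)]
      exact hA0' x k _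
    · refine (hF2 ((0 : unitInterval), (x, k)) h1).trans ?_
      change HB (projIcc (0 : ℝ) 1 zero_le_one
        (((0 : unitInterval) : ℝ) - 2 * max (1 - u k) 0), _) = _
      rw [mvu_projIcc_zero (by
        have := le_max_right (1 - u k) 0
        rw [Set.Icc.coe_zero]
        linarith)]
      exact hB0' x k _
  · rintro ⟨x, k⟩
    change F ((1 : unitInterval), (x, k)) = (mvu_open GP hGP0 hGP1).plus
      (smashPt X (LC.R.prod (MV.C u)) ((x : OnePoint X), MV.deltaFun u k))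
    by_cases hk : 0 < u k ∧ u k < 1
    · have h2 : MV.deltaFun u k =
          (((MV.toReal (u k), (⟨k, hk.1.le, hk.2.le⟩ : {k : K | 0 ≤ u k ∧ u k ≤ 1})) :
            ℝ × {k : K | 0 ≤ u k ∧ u k ≤ 1}) :
            OnePoint (ℝ × {k : K | 0 ≤ u k ∧ u k ≤ 1})) := dif_pos hk
      rw [h2]
      change _ = G (mvu_fromI (MV.toReal (u k)),
        (x, (⟨k, hk.1.le, hk.2.le⟩ : {k : K | 0 ≤ u k ∧ u k ≤ 1})))
      have h3 : ((mvu_fromI (MV.toReal (u k)) : unitInterval) : ℝ) = u k := mvu_from_to hk.1 hk.2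
      rcases le_total (u k) (1 / 2) with h1 | h1
      · refine (hF1 ((1 : unitInterval), (x, k)) h1).trans
          ((hG1 (mvu_fromI (MV.toReal (u k)),
            (x, (⟨k, hk.1.le, hk.2.le⟩ : {k : K | 0 ≤ u k ∧ u k ≤ 1})))
            (by change ((mvu_fromI (MV.toReal (u k)) : unitInterval) : ℝ) ≤ 1 / 2
                rw [h3]; exact h1)).trans ?_).symm
        change HA (projIcc (0 : ℝ) 1 zero_le_one
            (1 - 2 * ((mvu_fromI (MV.toReal (u k)) : unitInterval) : ℝ)), _) =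
          HA (projIcc (0 : ℝ) 1 zero_le_one (((1 : unitInterval) : ℝ) - 2 * max (u k) 0), _)
        rw [h3, Set.Icc.coe_one, max_eq_left hk.1.le]
      · refine (hF2 ((1 : unitInterval), (x, k)) h1).trans
          ((hG2 (mvu_fromI (MV.toReal (u k)),
            (x, (⟨k, hk.1.le, hk.2.le⟩ : {k : K | 0 ≤ u k ∧ u k ≤ 1})))
            (by change 1 / 2 ≤ ((mvu_fromI (MV.toReal (u k)) : unitInterval) : ℝ)
                rw [h3]; exact h1)).trans ?_).symm
        change HB (projIcc (0 : ℝ) 1 zero_le_one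
            (2 * ((mvu_fromI (MV.toReal (u k)) : unitInterval) : ℝ) - 1), _) =
          HB (projIcc (0 : ℝ) 1 zero_le_one (((1 : unitInterval) : ℝ) - 2 * max (1 - u k) 0), _)
        rw [h3, Set.Icc.coe_one, max_eq_left (by linarith [hk.2])]
        congr 3
        ring
    · have h2 : MV.deltaFun u k = OnePoint.infty := dif_neg hk
      rw [h2, smashPt_inf_right]
      change _ = Y.pt
      rcases le_or_gt (u k) 0 with h1 | h1
      · refine (hF1 ((1 : unitInterval), (x, k)) (h1.trans (by norm_num))).trans ?_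
        change HA (projIcc (0 : ℝ) 1 zero_le_one
          (((1 : unitInterval) : ℝ) - 2 * max (u k) 0), _) = _
        rw [max_eq_right h1, Set.Icc.coe_one, mvu_projIcc_one (by norm_num)]
        exact hA1' x k _
      · have h3 : 1 ≤ u k := by
          by_contra h4
          exact hk ⟨h1, not_le.1 h4⟩
        refine (hF2 ((1 : unitInterval), (x, k)) (le_trans (by norm_num) h3)).trans ?_
        change HB (projIcc (0 : ℝ) 1 zero_le_one
          (((1 : unitInterval) : ℝ) - 2 * max (1 - u k) 0), _) = _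
        rw [max_eq_right (by linarith), Set.Icc.coe_one, mvu_projIcc_one (by norm_num)]
        exact hB1' x k _

/-- Glueing of maps with homotopic restrictions to `C`. -/
theorem mv2u (a : PMap (X.prod (MV.A u)) Y) (b : PMap (X.prod (MV.B u)) Y)
    (h : (a.comp (PMap.ltens X (MV.iCA u))).Homotopic (b.comp (PMap.ltens X (MV.iCB u)))) :
    ∃ f : PMap (X.prod K) Y, (f.comp (PMap.ltens X (MV.iA u))).Homotopic a ∧
      (f.comp (PMap.ltens X (MV.iB u))).Homotopic b := by
  classical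
  obtain ⟨H, hH0, hH1⟩ := h
  have hH0' : ∀ (x : X) (k : K) (h0 : 0 ≤ u k ∧ u k ≤ 1),
      H ((0 : unitInterval), (x, (⟨k, h0⟩ : {k : K | 0 ≤ u k ∧ u k ≤ 1}))) =
      a (x, (⟨k, h0.2⟩ : {k : K | u k ≤ 1})) :=
    fun x k h0 => hH0 (x, (⟨k, h0⟩ : {k : K | 0 ≤ u k ∧ u k ≤ 1}))
  have hH1' : ∀ (x : X) (k : K) (h0 : 0 ≤ u k ∧ u k ≤ 1),
      H ((1 : unitInterval), (x, (⟨k, h0⟩ : {k : K | 0 ≤ u k ∧ u k ≤ 1}))) =
      b (x, (⟨k, h0.1⟩ : {k : K | 0 ≤ u k})) :=
    fun x k h0 => hH1 (x, (⟨k, h0⟩ : {k : K | 0 ≤ u k ∧ u k ≤ 1}))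
  let F : X × K → Y := fun l =>
    if h1 : u l.2 ≤ 0 then a (l.1, (⟨l.2, h1.trans zero_le_one⟩ : {k : K | u k ≤ 1}))
    else if h2 : u l.2 ≤ 1 then
      H (projIcc (0 : ℝ) 1 zero_le_one (u l.2),
        (l.1, (⟨l.2, (not_le.1 h1).le, h2⟩ : {k : K | 0 ≤ u k ∧ u k ≤ 1})))
    else b (l.1, (⟨l.2, (not_le.1 h1).le⟩ : {k : K | 0 ≤ u k}))
  have hF1 : ∀ (l : X × K) (h1 : u l.2 ≤ 0), F l =
      a (l.1, (⟨l.2, h1.trans zero_le_one⟩ : {k : K | u k ≤ 1})) := fun l h1 => dif_pos h1
  have hF2 : ∀ (l : X × K) (h1 : 0 ≤ u l.2 ∧ u l.2 ≤ 1), F l =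
      H (projIcc (0 : ℝ) 1 zero_le_one (u l.2),
        (l.1, (⟨l.2, h1⟩ : {k : K | 0 ≤ u k ∧ u k ≤ 1}))) := by
    intro l h1
    by_cases h2 : u l.2 ≤ 0
    · rw [hF1 l h2, mvu_projIcc_zero h2]
      exact (hH0' l.1 l.2 h1).symm
    · exact (dif_neg h2).trans (dif_pos h1.2)
  have hF3 : ∀ (l : X × K) (h1 : 1 ≤ u l.2), F l =
      b (l.1, (⟨l.2, zero_le_one.trans h1⟩ : {k : K | 0 ≤ u k})) := by
    intro l h1
    by_cases h2 : u l.2 ≤ 1
    · rw [hF2 l ⟨zero_le_one.trans h1, h2⟩, mvu_projIcc_one h1]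
      exact hH1' l.1 l.2 _
    · exact (dif_neg (fun h3 => h2 (h3.trans zero_le_one))).trans (dif_neg h2)
  have hu : Continuous fun l : X × K => u l.2 := u.continuous.comp continuous_snd
  have hT1 : IsClosed {l : X × K | u l.2 ≤ 0} := isClosed_le hu continuous_const
  have hT2 : IsClosed {l : X × K | 0 ≤ u l.2 ∧ u l.2 ≤ 1} :=
    (isClosed_le continuous_const hu).inter (isClosed_le hu continuous_const)
  have hT3 : IsClosed {l : X × K | 1 ≤ u l.2} := isClosed_le continuous_const hu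
  have hF := mvu_glue3 (K := X.prod K) (Y := Y) {l : X × K | u l.2 ≤ 0}
    {l : X × K | 0 ≤ u l.2 ∧ u l.2 ≤ 1} {l : X × K | 1 ≤ u l.2} hT1 hT2 hT3
    (by
      intro l
      rcases le_total (u l.2) 0 with h1 | h1
      · exact Or.inl h1
      · rcases le_total (u l.2) 1 with h2 | h2
        · exact Or.inr (Or.inl ⟨h1, h2⟩)
        · exact Or.inr (Or.inr h2)) F
    (mvu_pull (L := X.prod K) (MV.clA u) (a.comp (PMap.prI _)) _ hT1 (fun _ => (0 : unitInterval))
      continuous_const id continuous_id tendsto_id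
      (fun l hl => (show u l.2 ≤ 0 from hl).trans zero_le_one))
    (mvu_pull (L := X.prod K) (MV.clC u) H _ hT2
      (fun l => projIcc (0 : ℝ) 1 zero_le_one (u l.2)) (continuous_projIcc.comp hu)
      id continuous_id tendsto_id (fun l hl => hl))
    (mvu_pull (L := X.prod K) (MV.clB u) (b.comp (PMap.prI _)) _ hT3 (fun _ => (0 : unitInterval))
      continuous_const id continuous_id tendsto_id
      (fun l hl => zero_le_one.trans (show 1 ≤ u l.2 from hl)))
    (fun k => hF1 k.1 k.2) (fun k => hF2 k.1 k.2) (fun k => hF3 k.1 k.2)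
  refine ⟨⟨F, hF.1, hF.2⟩, ?_, ?_⟩
  · -- the homotopy on `A`
    let q : LC.I × (X × {k : K | u k ≤ 1}) → X × K := fun l => (l.2.1, (l.2.2 : K))
    have hq : Continuous q := (continuous_fst.comp continuous_snd).prodMk
      (continuous_subtype_val.comp (continuous_snd.comp continuous_snd))
    have hqp : Tendsto q (cocompact (LC.I × (X × {k : K | u k ≤ 1}))) (cocompact (X × K)) :=
      (mvu_val X K _ (MV.clA u)).comp (mvu_snd (X.prod (MV.A u)))
    have huq : Continuous fun l => u (q l).2 := u.continuous.comp (continuous_snd.comp hq)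
    have hs : Continuous fun l : LC.I × (X × {k : K | u k ≤ 1}) => (l.1 : ℝ) :=
      continuous_subtype_val.comp continuous_fst
    let G : LC.I × (X × {k : K | u k ≤ 1}) → Y := fun l =>
      if h1 : u (q l).2 ≤ 0 then a ((q l).1, (⟨(q l).2, h1.trans zero_le_one⟩ : {k : K | u k ≤ 1}))
      else H (projIcc (0 : ℝ) 1 zero_le_one ((1 - (l.1 : ℝ)) * u (q l).2),
        ((q l).1, (⟨(q l).2, (not_le.1 h1).le, l.2.2.2⟩ : {k : K | 0 ≤ u k ∧ u k ≤ 1})))
    have hG1 : ∀ l (h1 : u (q l).2 ≤ 0), G l =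
        a ((q l).1, (⟨(q l).2, h1.trans zero_le_one⟩ : {k : K | u k ≤ 1})) := fun l h1 => dif_pos h1
    have hG2 : ∀ l (h1 : 0 ≤ u (q l).2), G l =
        H (projIcc (0 : ℝ) 1 zero_le_one ((1 - (l.1 : ℝ)) * u (q l).2),
        ((q l).1, (⟨(q l).2, h1, l.2.2.2⟩ : {k : K | 0 ≤ u k ∧ u k ≤ 1}))) := by
      intro l h1
      by_cases h2 : u (q l).2 ≤ 0
      · have h3 : u (q l).2 = 0 := le_antisymm h2 h1
        rw [hG1 l h2, mvu_projIcc_zero (by rw [h3, mul_zero])]
        exact (hH0' (q l).1 (q l).2 ⟨h1, l.2.2.2⟩).symm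
      · exact dif_neg h2
    have hT1' : IsClosed {l | u (q l).2 ≤ 0} := isClosed_le huq continuous_const
    have hT2' : IsClosed {l | 0 ≤ u (q l).2} := isClosed_le continuous_const huq
    have hG := PMap.glue_aux (K := LC.I.prod (X.prod (MV.A u))) (Y := Y) {l | u (q l).2 ≤ 0}
      {l | 0 ≤ u (q l).2} hT1' hT2'
      (by
        ext l
        exact ⟨fun _ => trivial, fun _ => le_total (u (q l).2) 0⟩) G
      (mvu_pull (L := LC.I.prod (X.prod (MV.A u))) (MV.clA u) (a.comp (PMap.prI _)) _ hT1'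
        (fun _ => (0 : unitInterval)) continuous_const q hq hqp
        (fun l hl => (show u (q l).2 ≤ 0 from hl).trans zero_le_one))
      (mvu_pull (L := LC.I.prod (X.prod (MV.A u))) (MV.clC u) H _ hT2'
        (fun l => projIcc (0 : ℝ) 1 zero_le_one ((1 - (l.1 : ℝ)) * u (q l).2))
        (continuous_projIcc.comp ((continuous_const.sub hs).mul huq))
        q hq hqp (fun l hl => ⟨hl, l.2.2.2⟩))
      (fun k => hG1 k.1 k.2) (fun k => hG2 k.1 k.2)
    refine ⟨⟨G, hG.1, hG.2⟩, ?_, ?_⟩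
    · rintro ⟨x, k⟩
      change G ((0 : unitInterval), (x, k)) = F (x, k.1)
      by_cases h1 : u k.1 ≤ 0
      · rw [hF1 (x, k.1) h1]
        exact hG1 _ h1
      · rw [hF2 (x, k.1) ⟨(not_le.1 h1).le, k.2⟩]
        refine (hG2 _ (not_le.1 h1).le).trans ?_
        change H (projIcc (0 : ℝ) 1 zero_le_one ((1 - ((0 : unitInterval) : ℝ)) * u k.1), _) = _
        rw [Set.Icc.coe_zero, sub_zero, one_mul]
    · rintro ⟨x, k⟩
      change G ((1 : unitInterval), (x, k)) = a (x, k)
      by_cases h1 : u k.1 ≤ 0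
      · exact hG1 _ h1
      · refine (hG2 _ (not_le.1 h1).le).trans ?_
        change H (projIcc (0 : ℝ) 1 zero_le_one ((1 - ((1 : unitInterval) : ℝ)) * u k.1), _) = _
        rw [Set.Icc.coe_one, sub_self, zero_mul, mvu_projIcc_zero le_rfl]
        exact hH0' x k.1 _
  · -- the homotopy on `B`
    let q : LC.I × (X × {k : K | 0 ≤ u k}) → X × K := fun l => (l.2.1, (l.2.2 : K))
    have hq : Continuous q := (continuous_fst.comp continuous_snd).prodMk
      (continuous_subtype_val.comp (continuous_snd.comp continuous_snd))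
    have hqp : Tendsto q (cocompact (LC.I × (X × {k : K | 0 ≤ u k}))) (cocompact (X × K)) :=
      (mvu_val X K _ (MV.clB u)).comp (mvu_snd (X.prod (MV.B u)))
    have huq : Continuous fun l => u (q l).2 := u.continuous.comp (continuous_snd.comp hq)
    have hs : Continuous fun l : LC.I × (X × {k : K | 0 ≤ u k}) => (l.1 : ℝ) :=
      continuous_subtype_val.comp continuous_fst
    let G : LC.I × (X × {k : K | 0 ≤ u k}) → Y := fun l =>
      if h1 : 1 ≤ u (q l).2 then b ((q l).1, (⟨(q l).2, zero_le_one.trans h1⟩ : {k : K | 0 ≤ u k}))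
      else H (projIcc (0 : ℝ) 1 zero_le_one (1 - (1 - (l.1 : ℝ)) * (1 - u (q l).2)),
        ((q l).1, (⟨(q l).2, l.2.2.2, (not_le.1 h1).le⟩ : {k : K | 0 ≤ u k ∧ u k ≤ 1})))
    have hG1 : ∀ l (h1 : 1 ≤ u (q l).2), G l =
        b ((q l).1, (⟨(q l).2, zero_le_one.trans h1⟩ : {k : K | 0 ≤ u k})) :=
      fun l h1 => dif_pos h1
    have hG2 : ∀ l (h1 : u (q l).2 ≤ 1), G l =
        H (projIcc (0 : ℝ) 1 zero_le_one (1 - (1 - (l.1 : ℝ)) * (1 - u (q l).2)),
        ((q l).1, (⟨(q l).2, l.2.2.2, h1⟩ : {k : K | 0 ≤ u k ∧ u k ≤ 1}))) := by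
      intro l h1
      by_cases h2 : 1 ≤ u (q l).2
      · have h3 : u (q l).2 = 1 := le_antisymm h1 h2
        rw [hG1 l h2, mvu_projIcc_one (by rw [h3, sub_self, mul_zero, sub_zero])]
        exact (hH1' (q l).1 (q l).2 ⟨l.2.2.2, h1⟩).symm
      · exact dif_neg h2
    have hT1' : IsClosed {l | 1 ≤ u (q l).2} := isClosed_le continuous_const huq
    have hT2' : IsClosed {l | u (q l).2 ≤ 1} := isClosed_le huq continuous_const
    have hG := PMap.glue_aux (K := LC.I.prod (X.prod (MV.B u))) (Y := Y) {l | 1 ≤ u (q l).2}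
      {l | u (q l).2 ≤ 1} hT1' hT2'
      (by
        ext l
        exact ⟨fun _ => trivial, fun _ => le_total 1 (u (q l).2)⟩) G
      (mvu_pull (L := LC.I.prod (X.prod (MV.B u))) (MV.clB u) (b.comp (PMap.prI _)) _ hT1'
        (fun _ => (0 : unitInterval)) continuous_const q hq hqp
        (fun l hl => zero_le_one.trans (show 1 ≤ u (q l).2 from hl)))
      (mvu_pull (L := LC.I.prod (X.prod (MV.B u))) (MV.clC u) H _ hT2'
        (fun l => projIcc (0 : ℝ) 1 zero_le_one (1 - (1 - (l.1 : ℝ)) * (1 - u (q l).2)))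
        (continuous_projIcc.comp (continuous_const.sub
          ((continuous_const.sub hs).mul (continuous_const.sub huq))))
        q hq hqp (fun l hl => ⟨l.2.2.2, hl⟩))
      (fun k => hG1 k.1 k.2) (fun k => hG2 k.1 k.2)
    refine ⟨⟨G, hG.1, hG.2⟩, ?_, ?_⟩
    · rintro ⟨x, k⟩
      change G ((0 : unitInterval), (x, k)) = F (x, k.1)
      by_cases h1 : 1 ≤ u k.1
      · rw [hF3 (x, k.1) h1]
        exact hG1 _ h1
      · rw [hF2 (x, k.1) ⟨k.2, (not_le.1 h1).le⟩]
        refine (hG2 _ (not_le.1 h1).le).trans ?_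
        change H (projIcc (0 : ℝ) 1 zero_le_one
          (1 - (1 - ((0 : unitInterval) : ℝ)) * (1 - u k.1)), _) = _
        rw [Set.Icc.coe_zero, sub_zero, one_mul, sub_sub_cancel]
    · rintro ⟨x, k⟩
      change G ((1 : unitInterval), (x, k)) = b (x, k)
      by_cases h1 : 1 ≤ u k.1
      · exact hG1 _ h1
      · refine (hG2 _ (not_le.1 h1).le).trans ?_
        change H (projIcc (0 : ℝ) 1 zero_le_one
          (1 - (1 - ((1 : unitInterval) : ℝ)) * (1 - u k.1)), _) = _
        rw [Set.Icc.coe_one, sub_self, zero_mul, sub_zero, mvu_projIcc_one le_rfl]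
        exact hH1' x k.1 _

/-! ### Maps on closed subsets that tend to the base point -/

/-- continuous on a subset and tending to the base point at infinity on this subset -/
def mv3Van {P : LC} {Y : PT} (f : P → Y) (s : Set P) : Prop :=
  ContinuousOn f s ∧ ∀ U ∈ 𝓝 Y.pt, ∃ D : Set P, IsCompact D ∧ ∀ p ∈ s, p ∉ D → f p ∈ U

theorem mv3Van.union {P : LC} {Y : PT} {f : P → Y} {s t : Set P} (hs : IsClosed s)
    (ht : IsClosed t) (h1 : mv3Van f s) (h2 : mv3Van f t) : mv3Van f (s ∪ t) := by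
  refine ⟨h1.1.union_of_isClosed h2.1 hs ht, fun U hU => ?_⟩
  obtain ⟨D1, hD1, h3⟩ := h1.2 U hU
  obtain ⟨D2, hD2, h4⟩ := h2.2 U hU
  refine ⟨D1 ∪ D2, hD1.union hD2, fun p hp hpD => ?_⟩
  rcases hp with hp | hp
  · exact h3 p hp fun h => hpD (Or.inl h)
  · exact h4 p hp fun h => hpD (Or.inr h)

theorem mv3Van.congr {P : LC} {Y : PT} {f g : P → Y} {s : Set P} (h : mv3Van f s)
    (hfg : ∀ p ∈ s, g p = f p) : mv3Van g s := by
  refine ⟨h.1.congr hfg, fun U hU => ?_⟩
  obtain ⟨D1, hD1, h3⟩ := h.2 U hU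
  refine ⟨D1, hD1, fun p hp hpD => ?_⟩
  rw [hfg p hp]
  exact h3 p hp hpD

theorem PMap.mv3van {P : LC} {Y : PT} (F : PMap P Y) (s : Set P) : mv3Van (F : P → Y) s := by
  refine ⟨F.cont.continuousOn, fun U hU => ?_⟩
  obtain ⟨D, hD, h⟩ := mem_cocompact.1 (F.infty hU)
  exact ⟨D, hD, fun p _ hp => h hp⟩

/-- the map defined by a function that is continuous and tends to the base point -/
def mv3Van.toPMap {P : LC} {Y : PT} {f : P → Y} (h : mv3Van f univ) : PMap P Y where
  toFun := f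
  cont := continuousOn_univ.1 h.1
  infty := by
    intro U hU
    obtain ⟨D, hD, h3⟩ := h.2 U hU
    exact mem_map.2 (mem_cocompact.2 ⟨D, hD, fun p hp => h3 p (mem_univ _) hp⟩)

theorem mv3Van.comp {N P : LC} {Y : PT} {f : P → Y} {s : Set P} {s' : Set N} {φ : N → P}
    (hs : IsClosed s) (hf : mv3Van f s) (hφ : ContinuousOn φ s') (hm : ∀ n ∈ s', φ n ∈ s)
    (hc : ∀ D : Set P, IsCompact D → D ⊆ s → (∀ p ∈ D, f p ≠ Y.pt) →
      ∃ Q : Set N, IsCompact Q ∧ ∀ n ∈ s', φ n ∈ D → n ∈ Q) : mv3Van (fun n => f (φ n)) s' := by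
  refine ⟨hf.1.comp hφ hm, fun U hU => ?_⟩
  obtain ⟨V, hVU, hV, hpV⟩ := mem_nhds_iff.1 hU
  obtain ⟨D0, hD0, h0⟩ := hf.2 V (hV.mem_nhds hpV)
  obtain ⟨W, hW, hWV⟩ := (continuousOn_iff_isClosed.1 hf.1) Vᶜ hV.isClosed_compl
  have hcl : IsClosed (f ⁻¹' Vᶜ ∩ s) := by
    rw [hWV]
    exact hW.inter hs
  obtain ⟨Q, hQ, hQ'⟩ := hc (D0 ∩ (f ⁻¹' Vᶜ ∩ s)) (hD0.inter_right hcl)
    (fun p hp => hp.2.2) (fun p hp h => hp.2.1 (by rw [h]; exact hpV))
  refine ⟨Q, hQ, fun n hn hnQ => ?_⟩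
  by_contra hU'
  have h1 : f (φ n) ∉ V := fun h => hU' (hVU h)
  have h2 : φ n ∈ D0 := by
    by_contra h
    exact h1 (h0 _ (hm n hn) h)
  exact hnQ (hQ' n hn ⟨h2, h1, hm n hn⟩)

theorem mv3Van.of_emb {N P : LC} {Y : PT} (j : N → P) (hj : IsClosedEmbedding j) (F : PMap N Y)
    (f : P → Y) (h : ∀ n, f (j n) = F n) : mv3Van f (range j) := by
  constructor
  · rw [continuousOn_iff_isClosed]
    intro t ht
    refine ⟨j '' (F.toFun ⁻¹' t), hj.isClosedMap _ (ht.preimage F.cont), ?_⟩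
    ext p
    constructor
    · rintro ⟨h1, n, rfl⟩
      refine ⟨⟨n, ?_, rfl⟩, n, rfl⟩
      rw [mem_preimage, h n] at h1
      exact h1
    · rintro ⟨⟨n, h1, rfl⟩, -⟩
      refine ⟨?_, n, rfl⟩
      rw [mem_preimage, h n]
      exact h1
  · intro U hU
    obtain ⟨D, hD, h2⟩ := mem_cocompact.1 (F.infty hU)
    refine ⟨j '' D, hD.image hj.continuous, ?_⟩
    rintro _ ⟨n, rfl⟩ hn
    rw [h n]
    exact h2 fun h3 => hn ⟨n, h3, rfl⟩

/-! ### The inverse of `toReal` -/

/-- the inverse of `MV.toReal` -/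
def mv3Sig (r : ℝ) : ℝ := 1 / 2 + r / (2 * (√(r ^ 2 + 4) + 2))

theorem mv3Sig_cont : Continuous mv3Sig := by
  unfold mv3Sig
  refine continuous_const.add (continuous_id.div (by fun_prop) fun r => ?_)
  positivity

theorem mv3Sig_spec (r : ℝ) : 0 < mv3Sig r ∧ mv3Sig r < 1 ∧ MV.toReal (mv3Sig r) = r := by
  have hR := Real.mul_self_sqrt (show 0 ≤ r ^ 2 + 4 by positivity)
  set R := √(r ^ 2 + 4) with hRdef
  have hR0 : 0 ≤ R := Real.sqrt_nonneg _
  have hR1 : |r| < R := by
    apply abs_lt_of_sq_lt_sq _ hR0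
    nlinarith
  rw [abs_lt] at hR1
  have hD : 0 < 2 * (R + 2) := by linarith
  have e : mv3Sig r = (R + 2 + r) / (2 * (R + 2)) := by
    unfold mv3Sig
    rw [← hRdef]
    field_simp
  have h0 : 0 < mv3Sig r := by
    rw [e]
    exact div_pos (by linarith [hR1.1]) hD
  have h1 : mv3Sig r < 1 := by
    rw [e, div_lt_one hD]
    linarith [hR1.2]
  refine ⟨h0, h1, ?_⟩
  have e' : 1 - mv3Sig r = (R + 2 - r) / (2 * (R + 2)) := by
    rw [e]
    field_simp
    ring
  have hp : 0 < R + 2 + r := by linarith [hR1.1]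
  have hq : 0 < R + 2 - r := by linarith [hR1.2]
  unfold MV.toReal
  rw [e', e]
  field_simp
  nlinarith

theorem mv3Sig_neg {r : ℝ} (hr : r ≤ 0) : mv3Sig r ≤ 1 / (1 + |r|) := by
  obtain ⟨h0, h1, h2⟩ := mv3Sig_spec r
  rw [abs_of_nonpos hr, le_div_iff₀ (by linarith)]
  unfold MV.toReal at h2
  have h3 : 1 ≤ 1 / (1 - mv3Sig r) := by
    rw [le_div_iff₀ (by linarith)]
    linarith
  have h4 : 1 / mv3Sig r ≥ 1 + -r := by linarith
  rw [ge_iff_le, le_div_iff₀ h0] at h4
  linarith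

theorem mv3Sig_pos {r : ℝ} (hr : 0 ≤ r) : 1 - mv3Sig r ≤ 1 / (1 + |r|) := by
  obtain ⟨h0, h1, h2⟩ := mv3Sig_spec r
  rw [abs_of_nonneg hr, le_div_iff₀ (by linarith)]
  unfold MV.toReal at h2
  have h3 : 1 ≤ 1 / mv3Sig r := by
    rw [le_div_iff₀ h0]
    linarith
  have h4 : 1 + r ≤ 1 / (1 - mv3Sig r) := by linarith
  rw [le_div_iff₀ (by linarith)] at h4
  linarith

/-! ### The sections of `r ↦ r - 1/r` -/

/-- `-r` for the negative solution of `r - 1/r = q` -/
def mv3Rm (q : ℝ) : ℝ := (√(q ^ 2 + 4) - q) / 2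

/-- the positive solution of `r - 1/r = q` -/
def mv3Rp (q : ℝ) : ℝ := (√(q ^ 2 + 4) + q) / 2

theorem mv3_sqrt (q : ℝ) : |q| < √(q ^ 2 + 4) := by
  apply Real.lt_sqrt_of_sq_lt
  rw [sq_abs]
  linarith

theorem mv3Rm_pos (q : ℝ) : 0 < mv3Rm q := by
  have := (abs_lt.1 (mv3_sqrt q)).2
  unfold mv3Rm
  linarith

theorem mv3Rp_pos (q : ℝ) : 0 < mv3Rp q := by
  have := (abs_lt.1 (mv3_sqrt q)).1
  unfold mv3Rp
  linarith

theorem mv3Rm_eq (q : ℝ) : q = 1 / mv3Rm q - mv3Rm q := by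
  have hR := Real.mul_self_sqrt (show 0 ≤ q ^ 2 + 4 by positivity)
  have h0 := mv3Rm_pos q
  have e : mv3Rm q * mv3Rp q = 1 := by
    unfold mv3Rm mv3Rp
    nlinarith
  rw [← e, mul_div_assoc, mul_comm, div_mul_cancel₀ _ h0.ne']
  unfold mv3Rm mv3Rp
  ring

theorem mv3Rp_eq (q : ℝ) : q = mv3Rp q - 1 / mv3Rp q := by
  have hR := Real.mul_self_sqrt (show 0 ≤ q ^ 2 + 4 by positivity)
  have h0 := mv3Rp_pos q
  have e : mv3Rm q * mv3Rp q = 1 := by
    unfold mv3Rm mv3Rp
    nlinarith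
  rw [← e, mul_div_assoc, div_self h0.ne', mul_one]
  unfold mv3Rm mv3Rp
  ring

theorem mv3Rm_cont : Continuous mv3Rm := by
  unfold mv3Rm
  fun_prop

theorem mv3Rp_cont : Continuous mv3Rp := by
  unfold mv3Rp
  fun_prop

theorem mv3Rm_apply {r : ℝ} (hr : r < 0) : mv3Rm (r - 1 / r) = -r := by
  have h3 : (r - 1 / r) ^ 2 + 4 = (-(r + 1 / r)) ^ 2 := by
    have : r ≠ 0 := ne_of_lt hr
    field_simp
    ring
  have h4 : 0 ≤ -(r + 1 / r) := by
    have : 1 / r < 0 := one_div_neg.2 hr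
    linarith
  unfold mv3Rm
  rw [h3, Real.sqrt_sq h4]
  ring

theorem mv3Rp_apply {r : ℝ} (hr : 0 < r) : mv3Rp (r - 1 / r) = r := by
  have h3 : (r - 1 / r) ^ 2 + 4 = (r + 1 / r) ^ 2 := by
    have : r ≠ 0 := ne_of_gt hr
    field_simp
    ring
  have h4 : 0 ≤ r + 1 / r := by
    have : 0 < 1 / r := one_div_pos.2 hr
    linarith
  unfold mv3Rp
  rw [h3, Real.sqrt_sq h4]
  ring

theorem mv3_bound {ρ q ε : ℝ} (hρ : 0 < ρ) (hε : 0 < ε) (h1 : ε ≤ 2 * (1 / (1 + ρ)))
    (h2 : ε ≤ 2 * (1 - 1 / (1 + ρ))) (hq : |q| ≤ ρ + 1 / ρ) : |q| ≤ 4 / ε := by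
  have h3 : ρ ≤ 2 / ε := by
    rw [le_div_iff₀ hε]
    rw [mul_one_div, le_div_iff₀ (by linarith)] at h1
    nlinarith
  have h4 : 1 / ρ ≤ 2 / ε := by
    have e : 1 - 1 / (1 + ρ) = ρ / (1 + ρ) := by
      field_simp
      ring
    rw [e, ← mul_div_assoc, le_div_iff₀ (by linarith)] at h2
    rw [div_le_div_iff₀ hρ hε]
    nlinarith
  calc |q| ≤ ρ + 1 / ρ := hq
    _ ≤ 2 / ε + 2 / ε := add_le_add h3 h4
    _ = 4 / ε := by ring

/-! ### The square -/

/-- the function `u` cut off at `0` and `1` -/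
def mv3V (k : K) : ℝ := max 0 (min (u k) 1)

theorem mv3V_cont : Continuous (mv3V u) := by
  unfold mv3V
  fun_prop

theorem mv3V_nonneg (k : K) : 0 ≤ mv3V u k := le_max_left _ _

theorem mv3V_le_one (k : K) : mv3V u k ≤ 1 := max_le zero_le_one (min_le_right _ _)

theorem mv3V_eq {k : K} (h0 : 0 ≤ u k) (h1 : u k ≤ 1) : mv3V u k = u k := by
  unfold mv3V
  rw [min_eq_left h1, max_eq_right h0]

theorem mv3V_pos {k : K} (h : 0 < mv3V u k) : 0 < u k := by
  by_contra hc
  rw [not_lt] at hc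
  have : mv3V u k = 0 := by
    unfold mv3V
    rw [min_eq_left (by linarith), max_eq_left hc]
  linarith

theorem mv3V_lt_one {k : K} (h : mv3V u k < 1) : u k < 1 := by
  by_contra hc
  rw [not_lt] at hc
  have : mv3V u k = 1 := by
    unfold mv3V
    rw [min_eq_right hc, max_eq_right zero_le_one]
  linarith

open Classical in
/-- the path of `y` in the parameter `t` -/
def mv3yf (y : PMap (X.prod (LC.R.prod (MV.C u))) Y) (p : LC.R.prod (X.prod K)) : Y :=
  if h : (0 < p.1 ∧ p.1 < 1) ∧ (0 ≤ u p.2.2 ∧ u p.2.2 ≤ 1) then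
    y (p.2.1, (MV.toReal p.1, ⟨p.2.2, h.2⟩)) else Y.pt

theorem mv3yf_of {y : PMap (X.prod (LC.R.prod (MV.C u))) Y} {t : ℝ} {x : X} {k : K}
    (h : 0 < t ∧ t < 1) (hk : 0 ≤ u k ∧ u k ≤ 1) :
    mv3yf u X Y y (t, (x, k)) = y (x, (MV.toReal t, ⟨k, hk⟩)) := by
  unfold mv3yf
  rw [dif_pos ⟨h, hk⟩]

theorem mv3yf_not {y : PMap (X.prod (LC.R.prod (MV.C u))) Y} {t : ℝ} {x : X} {k : K}
    (h : ¬ (0 < t ∧ t < 1)) : mv3yf u X Y y (t, (x, k)) = Y.pt := by
  unfold mv3yf
  rw [dif_neg fun h' => h h'.1]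

theorem mv3yf_delta {y : PMap (X.prod (LC.R.prod (MV.C u))) Y} (x : X) (k : K) :
    (y.comp (PMap.ltens X (MV.delta u))) (x, k) = mv3yf u X Y y (u k, (x, k)) := by
  change y.plus (smashPt X (LC.R.prod (MV.C u)) ((x : OnePoint X), MV.deltaFun u k)) = _
  unfold MV.deltaFun mv3yf
  by_cases h : 0 < u k ∧ u k < 1
  · rw [dif_pos h, dif_pos ⟨h, h.1.le, h.2.le⟩]
    rfl
  · rw [dif_neg h, dif_neg fun h' => h h'.1]
    rfl

open Classical in
/-- the partial map `(t, (x, c)) ↦ (x, (toReal t, c))` -/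
def mv3tr (p : LC.R.prod (X.prod (MV.C u))) : OnePoint (X.prod (LC.R.prod (MV.C u))) :=
  if 0 < p.1 ∧ p.1 < 1 then
    (((p.2.1, (MV.toReal p.1, p.2.2)) : X.prod (LC.R.prod (MV.C u))) :
      OnePoint (X.prod (LC.R.prod (MV.C u)))) else OnePoint.infty

theorem mv3tr_aux : Continuous (mv3tr u X) ∧ Tendsto (mv3tr u X)
    (cocompact (LC.R.prod (X.prod (MV.C u)))) (𝓝 (OnePoint.infty : OnePoint _)) := by
  have hO : IsOpen {p : LC.R.prod (X.prod (MV.C u)) | 0 < p.1 ∧ p.1 < 1} :=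
    (isOpen_lt continuous_const continuous_fst).inter (isOpen_lt continuous_fst continuous_const)
  refine MV.partial_open (X := LC.R.prod (X.prod (MV.C u))) (L := X.prod (LC.R.prod (MV.C u)))
    {p : LC.R.prod (X.prod (MV.C u)) | 0 < p.1 ∧ p.1 < 1} hO
    (fun p => (p.1.2.1, (MV.toReal p.1.1, p.1.2.2))) ?_ (mv3tr u X) ?_ ?_ ?_
  · refine Continuous.prodMk (by fun_prop) (Continuous.prodMk ?_ (by fun_prop))
    unfold MV.toReal
    refine Continuous.sub ?_ ?_
    · refine Continuous.div continuous_const (by fun_prop) (fun k => ?_)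
      exact (sub_pos.2 k.2.2).ne'
    · refine Continuous.div continuous_const (by fun_prop) (fun k => ?_)
      exact k.2.1.ne'
  · rintro ⟨p, hp⟩
    exact if_pos hp
  · intro p hp
    exact if_neg hp
  · intro D hD
    obtain ⟨M, hM⟩ : ∃ M : ℝ, ∀ l ∈ D, |l.2.1| ≤ M := by
      have h1 : IsCompact ((fun l : X.prod (LC.R.prod (MV.C u)) => (l.2.1 : ℝ)) '' D) :=
        hD.image (continuous_fst.comp continuous_snd)
      obtain ⟨M, hM⟩ := h1.isBounded.exists_norm_le
      exact ⟨M, fun l hl => hM _ ⟨l, hl, rfl⟩⟩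
    have hM0 : 0 < max M 0 + 2 := by
      have := le_max_right M 0
      linarith
    refine ⟨Icc (1 / (max M 0 + 2)) (1 - 1 / (max M 0 + 2)) ×ˢ ((Prod.fst '' D) ×ˢ
      ((fun l : X.prod (LC.R.prod (MV.C u)) => l.2.2) '' D)), ?_, ?_, ?_⟩
    · exact isCompact_Icc.prod ((hD.image continuous_fst).prod
        (hD.image (continuous_snd.comp continuous_snd)))
    · rintro p ⟨h1, -⟩
      have h2 : 0 < 1 / (max M 0 + 2) := by positivity
      exact ⟨lt_of_lt_of_le h2 h1.1, lt_of_le_of_lt h1.2 (by linarith)⟩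
    · rintro ⟨p, hp⟩ hpD
      refine ⟨?_, ⟨_, hpD, rfl⟩, ⟨_, hpD, rfl⟩⟩
      exact MV.dA_toReal_bound (le_max_right _ _) hp.1 hp.2
        ((hM _ hpD).trans (le_max_left _ _))

/-- the inclusion -/
def mv3j (p : LC.R.prod (X.prod (MV.C u))) : LC.R.prod (X.prod K) := (p.1, (p.2.1, p.2.2.1))

theorem mv3j_emb : IsClosedEmbedding (mv3j u X) := by
  have h1 : IsClosedEmbedding (Subtype.val : {k : K // 0 ≤ u k ∧ u k ≤ 1} → K) :=
    (MV.clC u).isClosedEmbedding_subtypeVal
  exact (IsClosedEmbedding.id).prodMap (IsClosedEmbedding.id.prodMap h1)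

theorem mv3yf_van (y : PMap (X.prod (LC.R.prod (MV.C u))) Y) :
    mv3Van (mv3yf u X Y y) {p | 0 ≤ u p.2.2 ∧ u p.2.2 ≤ 1} := by
  have h1 := mv3Van.of_emb (mv3j u X) (mv3j_emb u X)
    (y.comp ⟨mv3tr u X, (mv3tr_aux u X).1, (mv3tr_aux u X).2⟩) (mv3yf u X Y y) ?_
  · have e : range (mv3j u X) = {p | 0 ≤ u p.2.2 ∧ u p.2.2 ≤ 1} := by
      ext ⟨t, x, k⟩
      constructor
      · rintro ⟨⟨t', x', k', hk'⟩, h⟩
        have h2 : k' = k := congrArg (fun p => p.2.2) h
        subst h2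
        exact hk'
      · intro h
        exact ⟨(t, (x, ⟨k, h⟩)), rfl⟩
    rw [← e]
    exact h1
  · rintro ⟨t, x, k, hk⟩
    change mv3yf u X Y y (t, (x, k)) = y.plus (mv3tr u X (t, (x, ⟨k, hk⟩)))
    unfold mv3tr
    by_cases h : 0 < t ∧ t < 1
    · rw [mv3yf_of u X Y h hk, if_pos h]
      rfl
    · rw [mv3yf_not u X Y h, if_neg h]
      rfl

/-- The homotopy `G` along the vertical line at `u`, the path of `y` along the bottom line, and the
retraction of the square to these two lines. -/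
def mv3zz (y : PMap (X.prod (LC.R.prod (MV.C u))) Y) (G : PMap (LC.I.prod (X.prod K)) Y)
    (p : (LC.R.prod LC.R).prod (X.prod K)) : Y :=
  if |p.1.1 - mv3V u p.2.2| ≤ p.1.2 then
    G (projIcc 0 1 zero_le_one (p.1.2 - |p.1.1 - mv3V u p.2.2|), p.2)
  else mv3yf u X Y y (max (min (p.1.1 + p.1.2) (mv3V u p.2.2)) (p.1.1 - p.1.2), p.2)

/-- the part where `mv3zz` is used -/
def mv3T : Set ((LC.R.prod LC.R).prod (X.prod K)) :=
  {p | ((0 ≤ p.1.1 ∧ p.1.1 ≤ 1) ∧ (0 ≤ p.1.2 ∧ p.1.2 ≤ 1)) ∧ |p.1.1 - mv3V u p.2.2| ≤ p.1.2} ∪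
  {p | ((0 ≤ p.1.1 ∧ p.1.1 ≤ 1) ∧ (0 ≤ p.1.2 ∧ p.1.2 ≤ 1)) ∧ (p.1.2 ≤ |p.1.1 - mv3V u p.2.2| ∧
    (0 ≤ u p.2.2 ∧ u p.2.2 ≤ 1))}

theorem mv3_vc : Continuous fun p : (LC.R.prod LC.R).prod (X.prod K) => mv3V u p.2.2 :=
  (mv3V_cont u).comp (continuous_snd.comp continuous_snd)

theorem mv3_box : IsClosed {p : (LC.R.prod LC.R).prod (X.prod K) |
    ((0 ≤ p.1.1 ∧ p.1.1 ≤ 1) ∧ (0 ≤ p.1.2 ∧ p.1.2 ≤ 1))} := by
  have h1 : Continuous fun p : (LC.R.prod LC.R).prod (X.prod K) => p.1.1 := by fun_prop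
  have h2 : Continuous fun p : (LC.R.prod LC.R).prod (X.prod K) => p.1.2 := by fun_prop
  exact ((isClosed_le continuous_const h1).inter (isClosed_le h1 continuous_const)).inter
    ((isClosed_le continuous_const h2).inter (isClosed_le h2 continuous_const))

theorem mv3_T1 : IsClosed {p : (LC.R.prod LC.R).prod (X.prod K) |
    ((0 ≤ p.1.1 ∧ p.1.1 ≤ 1) ∧ (0 ≤ p.1.2 ∧ p.1.2 ≤ 1)) ∧ |p.1.1 - mv3V u p.2.2| ≤ p.1.2} := by
  have h3 := mv3_vc u X
  have h5 : Continuous fun p : (LC.R.prod LC.R).prod (X.prod K) => |p.1.1 - mv3V u p.2.2| := by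
    fun_prop
  have h6 : Continuous fun p : (LC.R.prod LC.R).prod (X.prod K) => p.1.2 := by fun_prop
  exact (mv3_box X).inter (isClosed_le h5 h6)

theorem mv3_T2 : IsClosed {p : (LC.R.prod LC.R).prod (X.prod K) |
    ((0 ≤ p.1.1 ∧ p.1.1 ≤ 1) ∧ (0 ≤ p.1.2 ∧ p.1.2 ≤ 1)) ∧ (p.1.2 ≤ |p.1.1 - mv3V u p.2.2| ∧
    (0 ≤ u p.2.2 ∧ u p.2.2 ≤ 1))} := by
  have h3 := mv3_vc u X
  have h4 : Continuous fun p : (LC.R.prod LC.R).prod (X.prod K) => u p.2.2 :=
    u.continuous.comp (continuous_snd.comp continuous_snd)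
  have h5 : Continuous fun p : (LC.R.prod LC.R).prod (X.prod K) => |p.1.1 - mv3V u p.2.2| := by
    fun_prop
  have h6 : Continuous fun p : (LC.R.prod LC.R).prod (X.prod K) => p.1.2 := by fun_prop
  exact (mv3_box X).inter ((isClosed_le h6 h5).inter
    ((isClosed_le continuous_const h4).inter (isClosed_le h4 continuous_const)))

theorem mv3T_closed : IsClosed (mv3T u X) := (mv3_T1 u X).union (mv3_T2 u X)

variable {u X Y} in
theorem mv3zz_bot {y : PMap (X.prod (LC.R.prod (MV.C u))) Y} {G : PMap (LC.I.prod (X.prod K)) Y}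
    (hG : ∀ q, G (0, q) = (y.comp (PMap.ltens X (MV.delta u))) q)
    {t s : ℝ} {x : X} {k : K} (h : s ≤ |t - mv3V u k|) (hk : 0 ≤ u k ∧ u k ≤ 1) :
    mv3zz u X Y y G ((t, s), (x, k)) =
      mv3yf u X Y y (max (min (t + s) (mv3V u k)) (t - s), (x, k)) := by
  unfold mv3zz
  by_cases h1 : |t - mv3V u k| ≤ s
  · rw [if_pos h1]
    have h2 : s = |t - mv3V u k| := le_antisymm h h1
    have h3 : projIcc (0 : ℝ) 1 zero_le_one (s - |t - mv3V u k|) = (0 : unitInterval) := by
      rw [h2, sub_self]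
      exact projIcc_left _
    change G (projIcc (0 : ℝ) 1 zero_le_one (s - |t - mv3V u k|), (x, k)) = _
    rw [h3, hG (x, k), mv3yf_delta]
    congr 2
    have h4 := abs_le.1 h1
    rw [min_eq_right (by linarith), max_eq_left (by linarith), mv3V_eq u hk.1 hk.2]
  · rw [if_neg h1]

theorem mv3_prop1 (D : Set (LC.I.prod (X.prod K))) (hD : IsCompact D) :
    IsCompact ((Icc (0 : ℝ) 1 ×ˢ Icc (0 : ℝ) 1) ×ˢ (Prod.snd '' D) :
      Set ((LC.R.prod LC.R).prod (X.prod K))) :=
  (isCompact_Icc.prod isCompact_Icc).prod (hD.image continuous_snd)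

theorem mv3zz_van {y : PMap (X.prod (LC.R.prod (MV.C u))) Y} {G : PMap (LC.I.prod (X.prod K)) Y}
    (hG : ∀ q, G (0, q) = (y.comp (PMap.ltens X (MV.delta u))) q) :
    mv3Van (mv3zz u X Y y G) (mv3T u X) := by
  have h3 := mv3_vc u X
  refine mv3Van.union (mv3_T1 u X) (mv3_T2 u X) ?_ ?_
  · have h1 := mv3Van.comp (N := (LC.R.prod LC.R).prod (X.prod K)) (P := LC.I.prod (X.prod K))
      (s := univ) (s' := {p | ((0 ≤ p.1.1 ∧ p.1.1 ≤ 1) ∧ (0 ≤ p.1.2 ∧ p.1.2 ≤ 1)) ∧
        |p.1.1 - mv3V u p.2.2| ≤ p.1.2})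
      (φ := fun p => (projIcc 0 1 zero_le_one (p.1.2 - |p.1.1 - mv3V u p.2.2|), p.2))
      isClosed_univ (G.mv3van univ) ?_ (fun _ _ => mem_univ _) ?_
    · refine h1.congr fun p hp => ?_
      unfold mv3zz
      rw [if_pos hp.2]
    · refine Continuous.continuousOn ?_
      exact (continuous_projIcc.comp (by fun_prop)).prodMk continuous_snd
    · intro D hD _ _
      refine ⟨_, mv3_prop1 X D hD, ?_⟩
      rintro p hp hpD
      exact ⟨hp.1, ⟨_, hpD, rfl⟩⟩
  · have h1 := mv3Van.comp (N := (LC.R.prod LC.R).prod (X.prod K)) (P := LC.R.prod (X.prod K))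
      (s := {p | 0 ≤ u p.2.2 ∧ u p.2.2 ≤ 1})
      (s' := {p | ((0 ≤ p.1.1 ∧ p.1.1 ≤ 1) ∧ (0 ≤ p.1.2 ∧ p.1.2 ≤ 1)) ∧
        (p.1.2 ≤ |p.1.1 - mv3V u p.2.2| ∧ (0 ≤ u p.2.2 ∧ u p.2.2 ≤ 1))})
      (φ := fun p => (max (min (p.1.1 + p.1.2) (mv3V u p.2.2)) (p.1.1 - p.1.2), p.2))
      ?_ (mv3yf_van u X Y y) ?_ (fun n hn => hn.2.2) ?_
    · refine h1.congr fun p hp => ?_
      exact mv3zz_bot hG hp.2.1 hp.2.2
    · have h4 : Continuous fun p : LC.R.prod (X.prod K) => u p.2.2 :=
        u.continuous.comp (continuous_snd.comp continuous_snd)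
      exact (isClosed_le continuous_const h4).inter (isClosed_le h4 continuous_const)
    · refine Continuous.continuousOn ?_
      exact Continuous.prodMk (by fun_prop) continuous_snd
    · intro D hD _ _
      refine ⟨(Icc (0 : ℝ) 1 ×ˢ Icc (0 : ℝ) 1) ×ˢ (Prod.snd '' D),
        (isCompact_Icc.prod isCompact_Icc).prod (hD.image continuous_snd), ?_⟩
      rintro p hp hpD
      exact ⟨hp.1, ⟨_, hpD, rfl⟩⟩

/-! The points where `mv3zz` is the base point. -/

variable {u X Y} in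
theorem mv3zz_00 {y : PMap (X.prod (LC.R.prod (MV.C u))) Y} {G : PMap (LC.I.prod (X.prod K)) Y}
    (hG : ∀ q, G (0, q) = (y.comp (PMap.ltens X (MV.delta u))) q) (x : X) (k : K) :
    mv3zz u X Y y G ((0, 0), (x, k)) = Y.pt := by
  unfold mv3zz
  by_cases h : |(0 : ℝ) - mv3V u k| ≤ 0
  · rw [if_pos h]
    have h1 : mv3V u k = 0 := by
      have := abs_nonpos_iff.1 h
      linarith
    have h3 : projIcc (0 : ℝ) 1 zero_le_one (0 - |(0 : ℝ) - mv3V u k|) = (0 : unitInterval) := by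
      rw [h1, sub_self, abs_zero, sub_self]
      exact projIcc_left _
    change G (projIcc (0 : ℝ) 1 zero_le_one (0 - |(0 : ℝ) - mv3V u k|), (x, k)) = _
    rw [h3, hG (x, k), mv3yf_delta]
    apply mv3yf_not
    rintro ⟨h4, h5⟩
    rw [mv3V_eq u h4.le h5.le] at h1
    linarith
  · rw [if_neg h]
    apply mv3yf_not
    rintro ⟨h4, h5⟩
    change 0 < max (min ((0 : ℝ) + 0) (mv3V u k)) (0 - 0) at h4
    rw [add_zero, min_eq_left (mv3V_nonneg u k), sub_self, max_self] at h4
    exact lt_irrefl _ h4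

variable {u X Y} in
theorem mv3zz_10 {y : PMap (X.prod (LC.R.prod (MV.C u))) Y} {G : PMap (LC.I.prod (X.prod K)) Y}
    (hG : ∀ q, G (0, q) = (y.comp (PMap.ltens X (MV.delta u))) q) (x : X) (k : K) :
    mv3zz u X Y y G ((1, 0), (x, k)) = Y.pt := by
  unfold mv3zz
  by_cases h : |(1 : ℝ) - mv3V u k| ≤ 0
  · rw [if_pos h]
    have h1 : mv3V u k = 1 := by
      have := abs_nonpos_iff.1 h
      linarith
    have h3 : projIcc (0 : ℝ) 1 zero_le_one (0 - |(1 : ℝ) - mv3V u k|) = (0 : unitInterval) := by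
      rw [h1, sub_self, abs_zero, sub_self]
      exact projIcc_left _
    change G (projIcc (0 : ℝ) 1 zero_le_one (0 - |(1 : ℝ) - mv3V u k|), (x, k)) = _
    rw [h3, hG (x, k), mv3yf_delta]
    apply mv3yf_not
    rintro ⟨h4, h5⟩
    rw [mv3V_eq u h4.le h5.le] at h1
    linarith
  · rw [if_neg h]
    apply mv3yf_not
    rintro ⟨h4, h5⟩
    change max (min ((1 : ℝ) + 0) (mv3V u k)) (1 - 0) < 1 at h5
    rw [sub_zero] at h5
    exact absurd (lt_of_le_of_lt (le_max_right _ _) h5) (lt_irrefl _)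

variable {u X Y} in
theorem mv3zz_v1 {y : PMap (X.prod (LC.R.prod (MV.C u))) Y} {G : PMap (LC.I.prod (X.prod K)) Y}
    (hG1 : ∀ q, G (1, q) = Y.pt) (x : X) (k : K) :
    mv3zz u X Y y G ((mv3V u k, 1), (x, k)) = Y.pt := by
  unfold mv3zz
  have h : |mv3V u k - mv3V u k| ≤ 1 := by
    rw [sub_self, abs_zero]
    exact zero_le_one
  rw [if_pos h]
  have h3 : projIcc (0 : ℝ) 1 zero_le_one (1 - |mv3V u k - mv3V u k|) = (1 : unitInterval) := by
    rw [sub_self, abs_zero, sub_zero]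
    exact projIcc_right _
  change G (projIcc (0 : ℝ) 1 zero_le_one (1 - |mv3V u k - mv3V u k|), (x, k)) = _
  rw [h3, hG1]

theorem mv3_eps {P : LC} {D : Set P} (hD : IsCompact D) {f : P → ℝ} (hf : Continuous f)
    (h : ∀ p ∈ D, 0 < f p) : ∃ ε, 0 < ε ∧ ∀ p ∈ D, ε ≤ f p :=
  hD.exists_forall_le' hf.continuousOn h

/-- the maps of the two sides -/
theorem mv3_side {y : PMap (X.prod (LC.R.prod (MV.C u))) Y} {G : PMap (LC.I.prod (X.prod K)) Y}
    (hG : ∀ q, G (0, q) = (y.comp (PMap.ltens X (MV.delta u))) q)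
    (hG1 : ∀ q, G (1, q) = Y.pt) (S : Set K) (hS : IsClosed S) (e : ℝ) (he : e = 0 ∨ e = 1)
    (hSe : ∀ k ∈ S, mv3V u k ≠ e → 0 ≤ u k ∧ u k ≤ 1) (ρ : ℝ → ℝ) (hρ : Continuous ρ)
    (hρ0 : ∀ q, 0 < ρ q) (hq : ∀ q, |q| ≤ ρ q + 1 / ρ q) :
    ∃ a : PMap (X.prod (LC.R.prod (K.closed S hS))) Y, ∀ (x : X) (q : ℝ) (k : K.closed S hS),
      a (x, (q, k)) = mv3zz u X Y y G ((e + (mv3V u k.1 - e) * (1 / (1 + ρ q)), 1 / (1 + ρ q)),
        (x, k.1)) := by
  have hval : Continuous fun n : X.prod (LC.R.prod (K.closed S hS)) => n.2.2.1 :=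
    (continuous_subtype_val (p := fun k : K => k ∈ S)).comp (continuous_snd.comp continuous_snd)
  have hvc : Continuous fun n : X.prod (LC.R.prod (K.closed S hS)) => mv3V u n.2.2.1 :=
    (mv3V_cont u).comp hval
  have hρc : Continuous fun n : X.prod (LC.R.prod (K.closed S hS)) => 1 / (1 + ρ n.2.1) := by
    refine continuous_const.div (continuous_const.add
      (hρ.comp (continuous_fst.comp continuous_snd))) fun n => ?_
    have := hρ0 n.2.1
    exact ne_of_gt (by linarith)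
  have h3 := mv3_vc u X
  have hs0 : ∀ q, 0 < 1 / (1 + ρ q) := fun q => by
    have := hρ0 q
    positivity
  have hs1 : ∀ q, 1 / (1 + ρ q) < 1 := fun q => by
    have := hρ0 q
    rw [div_lt_one (by linarith)]
    linarith
  have e0 : 0 ≤ e := by rcases he with h | h <;> rw [h] ; exact zero_le_one
  have e1 : e ≤ 1 := by rcases he with h | h <;> rw [h] ; exact zero_le_one
  have h1 := mv3Van.comp (N := X.prod (LC.R.prod (K.closed S hS)))
    (P := (LC.R.prod LC.R).prod (X.prod K)) (s := mv3T u X) (s' := univ)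
    (φ := fun n => ((e + (mv3V u n.2.2.1 - e) * (1 / (1 + ρ n.2.1)), 1 / (1 + ρ n.2.1)),
      (n.1, n.2.2.1))) (mv3T_closed u X) (mv3zz_van u X Y hG) ?_ ?_ ?_
  · exact ⟨h1.toPMap, fun _ _ _ => rfl⟩
  · refine Continuous.continuousOn ?_
    refine Continuous.prodMk (Continuous.prodMk ?_ hρc) (continuous_fst.prodMk hval)
    exact continuous_const.add ((hvc.sub continuous_const).mul hρc)
  · rintro ⟨x, q, k⟩ -
    have v0 := mv3V_nonneg u k.1
    have v1 := mv3V_le_one u k.1
    have a0 := hs0 q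
    have a1 := hs1 q
    set s := 1 / (1 + ρ q) with hs
    have hbox : (0 ≤ e + (mv3V u k.1 - e) * s ∧ e + (mv3V u k.1 - e) * s ≤ 1) ∧
        (0 ≤ s ∧ s ≤ 1) := by
      refine ⟨⟨?_, ?_⟩, a0.le, a1.le⟩
      · nlinarith
      · nlinarith
    by_cases hT : |e + (mv3V u k.1 - e) * s - mv3V u k.1| ≤ s
    · exact Or.inl ⟨hbox, hT⟩
    · refine Or.inr ⟨hbox, (not_le.1 hT).le, hSe k.1 k.2 fun h => hT ?_⟩
      rw [h]
      have : e + (e - e) * s - e = 0 := by ring
      rw [this, abs_zero]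
      exact a0.le
  · intro D hD hDT hDp
    have hf : Continuous fun p : (LC.R.prod LC.R).prod (X.prod K) =>
        min (|p.1.1 - e| + p.1.2) ((1 - p.1.2) + |p.1.1 - mv3V u p.2.2|) := by fun_prop
    obtain ⟨ε, hε, hεD⟩ := mv3_eps hD hf (by
      rintro ⟨⟨t, s⟩, x, k⟩ hp
      have hbox : 0 ≤ s ∧ s ≤ 1 := by
        rcases hDT hp with h | h
        · exact h.1.2
        · exact h.1.2
      change 0 < min (|t - e| + s) ((1 - s) + |t - mv3V u k|)
      have b1 := abs_nonneg (t - e)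
      have b2 := abs_nonneg (t - mv3V u k)
      rw [lt_min_iff]
      constructor
      · by_contra hc
        apply hDp _ hp
        have c1 : s = 0 := by linarith [hbox.1]
        have c2 : t = e := by
          have := abs_nonpos_iff.1 (show |t - e| ≤ 0 by linarith)
          linarith
        rw [c1, c2]
        rcases he with h | h
        · rw [h]
          exact mv3zz_00 hG x k
        · rw [h]
          exact mv3zz_10 hG x k
      · by_contra hc
        apply hDp _ hp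
        have c1 : s = 1 := by linarith [hbox.2]
        have c2 : t = mv3V u k := by
          have := abs_nonpos_iff.1 (show |t - mv3V u k| ≤ 0 by linarith)
          linarith
        rw [c1, c2]
        exact mv3zz_v1 hG1 x k)
    refine ⟨((fun p : (LC.R.prod LC.R).prod (X.prod K) => p.2.1) '' D) ×ˢ
      ((Icc (-(4 / ε)) (4 / ε)) ×ˢ ((Subtype.val : S → K) ⁻¹'
        ((fun p : (LC.R.prod LC.R).prod (X.prod K) => p.2.2) '' D))), ?_, ?_⟩
    · refine (hD.image (continuous_fst.comp continuous_snd)).prod (isCompact_Icc.prod ?_)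
      exact hS.isClosedEmbedding_subtypeVal.isCompact_preimage
        (hD.image (continuous_snd.comp continuous_snd))
    · rintro ⟨x, q, k⟩ - hp
      refine ⟨⟨_, hp, rfl⟩, ?_, ⟨_, hp, rfl⟩⟩
      have h5 := hεD _ hp
      change ε ≤ min (|e + (mv3V u k.1 - e) * (1 / (1 + ρ q)) - e| + 1 / (1 + ρ q))
        ((1 - 1 / (1 + ρ q)) + |e + (mv3V u k.1 - e) * (1 / (1 + ρ q)) - mv3V u k.1|) at h5
      have v0 := mv3V_nonneg u k.1
      have v1 := mv3V_le_one u k.1
      have a0 := hs0 q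
      have a1 := hs1 q
      have hb : |mv3V u k.1 - e| ≤ 1 := by
        rw [abs_le]
        constructor <;> linarith
      refine abs_le.1 (mv3_bound (hρ0 q) hε ?_ ?_ (hq q))
      · refine (h5.trans (min_le_left _ _)).trans ?_
        rw [show e + (mv3V u k.1 - e) * (1 / (1 + ρ q)) - e = (mv3V u k.1 - e) * (1 / (1 + ρ q)) by
          ring, abs_mul, abs_of_pos a0]
        nlinarith
      · refine (h5.trans (min_le_right _ _)).trans ?_
        rw [show e + (mv3V u k.1 - e) * (1 / (1 + ρ q)) - mv3V u k.1 =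
          -((mv3V u k.1 - e) * (1 - 1 / (1 + ρ q))) by ring, abs_neg, abs_mul,
          abs_of_pos (by linarith : 0 < 1 - 1 / (1 + ρ q))]
        nlinarith

/-- the homotopy -/
theorem mv3_hom {y : PMap (X.prod (LC.R.prod (MV.C u))) Y} {G : PMap (LC.I.prod (X.prod K)) Y}
    (hG : ∀ q, G (0, q) = (y.comp (PMap.ltens X (MV.delta u))) q) :
    ∃ H : PMap (LC.I.prod (X.prod (LC.R.prod (MV.C u)))) Y,
      ∀ (j : unitInterval) (x : X) (r : ℝ) (c : MV.C u),
      H (j, (x, (r, c))) = mv3zz u X Y y G (((1 - (j : ℝ)) * mv3Sig r +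
        j * ((mv3V u c.1 + max r 0) * (1 / (1 + |r|))), j * (1 / (1 + |r|))), (x, c.1)) := by
  have hval : Continuous fun n : LC.I.prod (X.prod (LC.R.prod (MV.C u))) => n.2.2.2.1 :=
    (continuous_subtype_val (p := fun k : K => 0 ≤ u k ∧ u k ≤ 1)).comp
      (continuous_snd.comp (continuous_snd.comp continuous_snd))
  have hvc : Continuous fun n : LC.I.prod (X.prod (LC.R.prod (MV.C u))) => mv3V u n.2.2.2.1 :=
    (mv3V_cont u).comp hval
  have hr : Continuous fun n : LC.I.prod (X.prod (LC.R.prod (MV.C u))) => (n.2.2.1 : ℝ) :=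
    continuous_fst.comp (continuous_snd.comp continuous_snd)
  have hρc : Continuous fun n : LC.I.prod (X.prod (LC.R.prod (MV.C u))) =>
      1 / (1 + |n.2.2.1|) := by
    refine continuous_const.div (continuous_const.add hr.abs) fun n => ?_
    have := abs_nonneg n.2.2.1
    exact ne_of_gt (by linarith)
  have hj : Continuous fun n : LC.I.prod (X.prod (LC.R.prod (MV.C u))) => (n.1 : ℝ) :=
    continuous_subtype_val.comp continuous_fst
  have hs0 : ∀ r : ℝ, 0 < 1 / (1 + |r|) := fun r => by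
    have := abs_nonneg r
    positivity
  have hs1 : ∀ r : ℝ, 1 / (1 + |r|) ≤ 1 := fun r => by
    have := abs_nonneg r
    rw [div_le_one (by linarith)]
    linarith
  have hm : ∀ r : ℝ, |r| * (1 / (1 + |r|)) = 1 - 1 / (1 + |r|) := fun r => by
    have := abs_nonneg r
    field_simp
    ring
  have h1 := mv3Van.comp (N := LC.I.prod (X.prod (LC.R.prod (MV.C u))))
    (P := (LC.R.prod LC.R).prod (X.prod K)) (s := mv3T u X) (s' := univ)
    (φ := fun n => (((1 - (n.1 : ℝ)) * mv3Sig n.2.2.1 +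
        n.1 * ((mv3V u n.2.2.2.1 + max n.2.2.1 0) * (1 / (1 + |n.2.2.1|))),
        n.1 * (1 / (1 + |n.2.2.1|))), (n.2.1, n.2.2.2.1)))
    (mv3T_closed u X) (mv3zz_van u X Y hG) ?_ ?_ ?_
  · exact ⟨h1.toPMap, fun _ _ _ _ => rfl⟩
  · refine Continuous.continuousOn ?_
    refine Continuous.prodMk (Continuous.prodMk ?_ (hj.mul hρc))
      ((continuous_fst.comp continuous_snd).prodMk hval)
    exact ((continuous_const.sub hj).mul (mv3Sig_cont.comp hr)).add
      (hj.mul ((hvc.add (hr.max continuous_const)).mul hρc))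
  · rintro ⟨j, x, r, c⟩ -
    have v0 := mv3V_nonneg u c.1
    have v1 := mv3V_le_one u c.1
    have a0 := hs0 r
    have a1 := hs1 r
    have a2 := hm r
    obtain ⟨g0, g1, -⟩ := mv3Sig_spec r
    have j0 := j.2.1
    have j1 := j.2.2
    have m0 : 0 ≤ max r 0 := le_max_right _ _
    have m1 : max r 0 ≤ |r| := max_le (le_abs_self r) (abs_nonneg r)
    set s := 1 / (1 + |r|) with hs
    have w0 : 0 ≤ (mv3V u c.1 + max r 0) * s := mul_nonneg (by linarith) a0.le
    have w1 : (mv3V u c.1 + max r 0) * s ≤ 1 := by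
      have : (mv3V u c.1 + max r 0) * s ≤ (1 + |r|) * s :=
        mul_le_mul_of_nonneg_right (by linarith) a0.le
      have e3 : (1 + |r|) * s = 1 := by
        rw [add_mul, one_mul, a2]
        ring
      rw [e3] at this
      exact this
    have hbox : (0 ≤ (1 - (j : ℝ)) * mv3Sig r + j * ((mv3V u c.1 + max r 0) * s) ∧
        (1 - (j : ℝ)) * mv3Sig r + j * ((mv3V u c.1 + max r 0) * s) ≤ 1) ∧
        (0 ≤ (j : ℝ) * s ∧ (j : ℝ) * s ≤ 1) := by
      refine ⟨⟨?_, ?_⟩, ?_, ?_⟩
      · have := mul_nonneg j0 w0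
        have := mul_nonneg (sub_nonneg.2 j1) g0.le
        linarith
      · have := mul_le_mul_of_nonneg_left w1 j0
        have := mul_le_mul_of_nonneg_left g1.le (sub_nonneg.2 j1)
        linarith
      · positivity
      · nlinarith
    rcases le_total (|(1 - (j : ℝ)) * mv3Sig r + j * ((mv3V u c.1 + max r 0) * s) - mv3V u c.1|)
      ((j : ℝ) * s) with h | h
    · exact Or.inl ⟨hbox, h⟩
    · exact Or.inr ⟨hbox, h, c.2⟩
  · intro D hD hDT hDp
    have hf : Continuous fun p : (LC.R.prod LC.R).prod (X.prod K) =>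
        min (|p.1.1| + p.1.2) (|1 - p.1.1| + p.1.2) := by fun_prop
    obtain ⟨ε, hε, hεD⟩ := mv3_eps hD hf (by
      rintro ⟨⟨t, s⟩, x, k⟩ hp
      have hbox : 0 ≤ s ∧ s ≤ 1 := by
        rcases hDT hp with h | h
        · exact h.1.2
        · exact h.1.2
      change 0 < min (|t| + s) (|1 - t| + s)
      have b1 := abs_nonneg t
      have b2 := abs_nonneg (1 - t)
      rw [lt_min_iff]
      constructor
      · by_contra hc
        apply hDp _ hp
        have c1 : s = 0 := by linarith [hbox.1]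
        have c2 : t = 0 := abs_nonpos_iff.1 (show |t| ≤ 0 by linarith)
        rw [c1, c2]
        exact mv3zz_00 hG x k
      · by_contra hc
        apply hDp _ hp
        have c1 : s = 0 := by linarith [hbox.1]
        have c2 : t = 1 := by
          have := abs_nonpos_iff.1 (show |1 - t| ≤ 0 by linarith)
          linarith
        rw [c1, c2]
        exact mv3zz_10 hG x k)
    refine ⟨univ ×ˢ (((fun p : (LC.R.prod LC.R).prod (X.prod K) => p.2.1) '' D) ×ˢ
      ((Icc (-(2 / ε)) (2 / ε)) ×ˢ ((Subtype.val : {k : K | 0 ≤ u k ∧ u k ≤ 1} → K) ⁻¹'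
        ((fun p : (LC.R.prod LC.R).prod (X.prod K) => p.2.2) '' D)))), ?_, ?_⟩
    · refine isCompact_univ.prod
        ((hD.image (continuous_fst.comp continuous_snd)).prod (isCompact_Icc.prod ?_))
      exact (MV.clC u).isClosedEmbedding_subtypeVal.isCompact_preimage
        (hD.image (continuous_snd.comp continuous_snd))
    · rintro ⟨j, x, r, c⟩ - hp
      refine ⟨mem_univ _, ⟨_, hp, rfl⟩, ?_, ⟨_, hp, rfl⟩⟩
      have h5 := hεD _ hp
      change ε ≤ min (|(1 - (j : ℝ)) * mv3Sig r +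
        j * ((mv3V u c.1 + max r 0) * (1 / (1 + |r|)))| + j * (1 / (1 + |r|)))
        (|1 - ((1 - (j : ℝ)) * mv3Sig r +
        j * ((mv3V u c.1 + max r 0) * (1 / (1 + |r|))))| + j * (1 / (1 + |r|))) at h5
      have v0 := mv3V_nonneg u c.1
      have v1 := mv3V_le_one u c.1
      have a0 := hs0 r
      have a1 := hs1 r
      have a2 := hm r
      obtain ⟨g0, g1, -⟩ := mv3Sig_spec r
      have j0 := j.2.1
      have j1 := j.2.2
      have key : ε ≤ 2 * (1 / (1 + |r|)) := by
        rcases le_total r 0 with hr0 | hr0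
        · refine (h5.trans (min_le_left _ _)).trans ?_
          have g2 := mv3Sig_neg hr0
          rw [max_eq_right hr0, add_zero]
          set s := 1 / (1 + |r|) with hs
          have w0 : 0 ≤ mv3V u c.1 * s := mul_nonneg v0 a0.le
          have w1 : mv3V u c.1 * s ≤ s := by nlinarith
          have w2 := mul_nonneg j0 w0
          have w3 := mul_nonneg (sub_nonneg.2 j1) g0.le
          rw [abs_of_nonneg (by linarith)]
          have w4 := mul_le_mul_of_nonneg_left w1 j0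
          have w5 := mul_le_mul_of_nonneg_left g2 (sub_nonneg.2 j1)
          nlinarith
        · refine (h5.trans (min_le_right _ _)).trans ?_
          have g2 := mv3Sig_pos hr0
          rw [abs_of_nonneg hr0] at a0 a1 a2 g2
          rw [max_eq_left hr0, abs_of_nonneg hr0]
          set s := 1 / (1 + r) with hs
          have e1 : 1 - ((1 - (j : ℝ)) * mv3Sig r + j * ((mv3V u c.1 + r) * s)) =
              (1 - (j : ℝ)) * (1 - mv3Sig r) + j * ((1 - mv3V u c.1) * s) := by
            have : (mv3V u c.1 + r) * s = mv3V u c.1 * s + (1 - s) := by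
              rw [← a2]
              ring
            rw [this]
            ring
          rw [e1]
          have w0 : 0 ≤ (1 - mv3V u c.1) * s := mul_nonneg (by linarith) a0.le
          have w1 : (1 - mv3V u c.1) * s ≤ s := by nlinarith
          have w2 := mul_nonneg j0 w0
          have w3 := mul_nonneg (sub_nonneg.2 j1) (sub_nonneg.2 g1.le)
          rw [abs_of_nonneg (by linarith)]
          have w4 := mul_le_mul_of_nonneg_left w1 j0
          have w5 := mul_le_mul_of_nonneg_left g2 (sub_nonneg.2 j1)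
          nlinarith
      refine abs_le.1 ?_
      rw [le_div_iff₀ hε]
      rw [mul_one_div, le_div_iff₀ (by have := abs_nonneg r; linarith)] at key
      nlinarith

/-- Exactness at `ℝ × C`. -/
theorem mv3u (y : PMap (X.prod (LC.R.prod (MV.C u))) Y)
    (h : (y.comp (PMap.ltens X (MV.delta u))).Homotopic (PMap.zero _ Y)) :
    ∃ (a : PMap (X.prod (LC.R.prod (MV.A u))) Y) (b : PMap (X.prod (LC.R.prod (MV.B u))) Y),
      y.Homotopic (PMap.msum (pinchRK (MV.C u))
        (a.comp (PMap.ltens X (PMap.ltens LC.R (MV.iCA u))))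
        (b.comp (PMap.ltens X (PMap.ltens LC.R (MV.iCB u))))) := by
  obtain ⟨G, hG, hG1⟩ := h
  have hG1' : ∀ q, G (1, q) = Y.pt := hG1
  obtain ⟨a, ha⟩ := mv3_side u X Y hG hG1' {k : K | u k ≤ 1} (MV.clA u) 0 (Or.inl rfl)
    (fun k hk hv => ⟨(mv3V_pos u (lt_of_le_of_ne (mv3V_nonneg u k) (Ne.symm hv))).le, hk⟩)
    mv3Rm mv3Rm_cont mv3Rm_pos (fun q => by
      have h1 := mv3Rm_pos q
      have h2 : 0 < 1 / mv3Rm q := one_div_pos.2 h1
      have h3 := mv3Rm_eq q
      rw [abs_le]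
      constructor <;> linarith)
  obtain ⟨b, hb⟩ := mv3_side u X Y hG hG1' {k : K | 0 ≤ u k} (MV.clB u) 1 (Or.inr rfl)
    (fun k hk hv => ⟨hk, (mv3V_lt_one u (lt_of_le_of_ne (mv3V_le_one u k) hv)).le⟩)
    mv3Rp mv3Rp_cont mv3Rp_pos (fun q => by
      have h1 := mv3Rp_pos q
      have h2 : 0 < 1 / mv3Rp q := one_div_pos.2 h1
      have h3 := mv3Rp_eq q
      rw [abs_le]
      constructor <;> linarith)
  obtain ⟨H, hH⟩ := mv3_hom u X Y hG
  refine ⟨a, b, H, ?_, ?_⟩
  · rintro ⟨x, r, c⟩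
    rw [hH 0 x r c]
    have e1 : (1 - ((0 : unitInterval) : ℝ)) * mv3Sig r + ((0 : unitInterval) : ℝ) *
        ((mv3V u c.1 + max r 0) * (1 / (1 + |r|))) = mv3Sig r := by
      simp
    have e2 : ((0 : unitInterval) : ℝ) * (1 / (1 + |r|)) = 0 := by
      simp
    obtain ⟨g0, g1, g2⟩ := mv3Sig_spec r
    rw [e1, e2, mv3zz_bot hG (abs_nonneg _) c.2, add_zero, sub_zero, max_eq_right (min_le_left _ _),
      mv3yf_of u X Y ⟨g0, g1⟩ c.2, g2]
    rfl
  · rintro ⟨x, r, c⟩
    rw [hH 1 x r c]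
    have e1 : (1 - ((1 : unitInterval) : ℝ)) * mv3Sig r + ((1 : unitInterval) : ℝ) *
        ((mv3V u c.1 + max r 0) * (1 / (1 + |r|))) = (mv3V u c.1 + max r 0) * (1 / (1 + |r|)) := by
      simp
    have e2 : ((1 : unitInterval) : ℝ) * (1 / (1 + |r|)) = 1 / (1 + |r|) := by
      simp
    rw [e1, e2]
    change _ = ((a.comp (PMap.ltens X (PMap.ltens LC.R (MV.iCA u)))).copair
      (b.comp (PMap.ltens X (PMap.ltens LC.R (MV.iCB u))))).plus
      ((PMap.ofHomeo (ldist X (LC.R.prod (MV.C u)) (LC.R.prod (MV.C u)))).plus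
        (smashPt X ((LC.R.prod (MV.C u)).sum (LC.R.prod (MV.C u))) ((x : OnePoint X),
          (PMap.ofHomeo (dist LC.R LC.R (MV.C u))).plus
            (smashPt (LC.R.sum LC.R) (MV.C u) (pinchRFun r, (c : OnePoint (MV.C u)))))))
    unfold pinchRFun
    rcases lt_trichotomy r 0 with hr | hr | hr
    · rw [if_pos hr]
      refine Eq.trans ?_ (ha x (r - 1 / r) ⟨c.1, c.2.2⟩).symm
      rw [mv3Rm_apply hr, max_eq_right hr.le, abs_of_neg hr, add_zero, zero_add, sub_zero]
    · subst hr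
      rw [if_neg (lt_irrefl _), if_neg (lt_irrefl _), abs_zero, max_self, add_zero, add_zero,
        one_div_one, mul_one]
      exact mv3zz_v1 hG1' x c.1
    · rw [if_neg (not_lt.2 hr.le), if_pos hr]
      refine Eq.trans ?_ (hb x (r - 1 / r) ⟨c.1, c.2.1⟩).symm
      rw [mv3Rp_apply hr, max_eq_left hr.le, abs_of_pos hr]
      congr 3
      field_simp
      ring

end

end Pool.Agent.Helper1.Stab
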