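import Pool.Agent.Helper68.Stab.LocStrict

/-! Identities between representatives. -/

open Topology Filter Set

noncomputable section

namespace Pool.Agent.Helper1.Stab

theorem pt_congr {X Z : Type} {b b' : X} (h : b = b') (z : Z) :
    (((b, z) : X × Z) : OnePoint (X × Z)) = (((b', z) : X × Z) : OnePoint (X × Z)) := by rw [h]

namespace Datum
variable {D : Datum}

section
variable {ι κ l ι' κ' : Type} [Fintype ι] [Fintype κ] [Fintype l] [Fintype ι'] [Fintype κ']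
variable {K L M N Z W : LC}

/-! ### Renaming -/

theorem re_refl (f : D.Rep ι K Z) : f.re (Equiv.refl ι) = f := by
  ext ⟨v, k⟩
  rw [re_val]
  change bnd (f (v, k)) _ = f (v, k)
  rcases f (v, k) with _ | p
  · rfl
  · rfl

theorem re_re (e : ι ≃ κ) (e' : κ ≃ l) (f : D.Rep ι K Z) : (f.re e).re e' = f.re (e.trans e') := by
  ext ⟨v, k⟩
  rw [re_val, re_val, re_val]
  change bnd (bnd (f (D.reA (e.trans e').symm v, k)) _) _ = _
  rcases f (D.reA (e.trans e').symm v, k) with _ | p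
  · rfl
  · rfl

theorem re_symm_re (e : ι ≃ κ) (f : D.Rep κ K Z) : (f.re e.symm).re e = f := by
  rw [re_re, Equiv.symm_trans_self, re_refl]

theorem re_re_symm (e : ι ≃ κ) (f : D.Rep ι K Z) : (f.re e).re e.symm = f := by
  rw [re_re, Equiv.self_trans_symm, re_refl]

/-! ### Stabilisation -/

theorem re_stab (e : ι ≃ ι') (f : D.Rep ι K Z) :
    (f.re e).stab κ = (f.stab κ).re (e.sumCongr (Equiv.refl κ)) := by
  ext ⟨v, k⟩
  rw [stab_val, re_val, re_val, stab_val]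
  have h1 : D.splitA ι κ (D.reA (e.sumCongr (Equiv.refl κ)).symm v) =
      (D.reA e.symm (D.splitA ι' κ v).1, (D.splitA ι' κ v).2) := rfl
  rw [h1]
  rcases f (D.reA e.symm (D.splitA ι' κ v).1, k) with _ | p
  · rfl
  · rcases D.shat κ (D.splitA ι' κ v).2 with _ | c
    · rfl
    · exact pt_congr (D.mulB_re e (Equiv.refl κ) p.1 c) p.2

theorem stab_re (e : κ ≃ κ') (f : D.Rep ι K Z) :
    (f.stab κ).re ((Equiv.refl ι).sumCongr e) = f.stab κ' := by
  ext ⟨v, k⟩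
  rw [stab_val, re_val, stab_val]
  have h1 : D.splitA ι κ (D.reA ((Equiv.refl ι).sumCongr e).symm v) =
      ((D.splitA ι κ' v).1, D.reA e.symm (D.splitA ι κ' v).2) := rfl
  rw [h1]
  have h2 : D.shat κ' (D.splitA ι κ' v).2 =
      bnd (D.shat κ (D.reA e.symm (D.splitA ι κ' v).2))
        (fun b => ((D.reB e b : D.B κ') : OnePoint (D.B κ'))) := by
    rw [← shat_re, reA_trans, Equiv.symm_trans_self]
    rfl
  rw [h2]
  rcases f ((D.splitA ι κ' v).1, k) with _ | p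
  · rfl
  · rcases D.shat κ (D.reA e.symm (D.splitA ι κ' v).2) with _ | c
    · rfl
    · exact pt_congr (D.mulB_re (Equiv.refl ι) e p.1 c).symm p.2

theorem stab_stab (f : D.Rep ι K Z) :
    f.stab (κ ⊕ l) = ((f.stab κ).stab l).re (Equiv.sumAssoc ι κ l) := by
  ext ⟨v, k⟩
  rw [re_val, stab_val, stab_val, stab_val]
  obtain ⟨w, rfl⟩ : ∃ w, v = D.reA (Equiv.sumAssoc ι κ l) w :=
    ⟨D.reA (Equiv.sumAssoc ι κ l).symm v, by rw [reA_trans, Equiv.symm_trans_self]; rfl⟩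
  rw [reA_trans, Equiv.self_trans_symm, splitA_assoc, shat_sum]
  rw [reA_refl]
  simp only [Homeomorph.apply_symm_apply]
  rcases f ((D.splitA ι κ (D.splitA (ι ⊕ κ) l w).1).1, k) with _ | p
  · rfl
  · rcases D.shat κ (D.splitA ι κ (D.splitA (ι ⊕ κ) l w).1).2 with _ | b
    · rfl
    · rcases D.shat l (D.splitA (ι ⊕ κ) l w).2 with _ | c
      · rfl
      · exact pt_congr (D.mulB_assoc p.1 b c) p.2

/-! ### Composition -/

theorem re_cmp_re (e : ι ≃ ι') (e' : κ ≃ κ') (f : D.Rep ι K L) (g : D.Rep κ L Z) :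
    (f.re e).cmp (g.re e') = (f.cmp g).re (e.sumCongr e') := by
  ext ⟨v, k⟩
  rw [cmp_val, re_val, re_val, cmp_val]
  have h1 : D.splitA ι κ (D.reA (e.sumCongr e').symm v) =
      (D.reA e.symm (D.splitA ι' κ' v).1, D.reA e'.symm (D.splitA ι' κ' v).2) := rfl
  rw [h1]
  rcases f (D.reA e.symm (D.splitA ι' κ' v).1, k) with _ | p
  · rfl
  · change bnd (g.re e' ((D.splitA ι' κ' v).2, p.2)) _ = bnd (bnd (g (_, p.2)) _) _
    rw [re_val]
    rcases g (D.reA e'.symm (D.splitA ι' κ' v).2, p.2) with _ | q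
    · rfl
    · exact pt_congr (D.mulB_re e e' p.1 q.1) q.2

/-- `(ι ⊔ κ) ⊔ l = (ι ⊔ l) ⊔ κ` -/
def rot3 (ι κ l : Type) : (ι ⊕ κ) ⊕ l ≃ (ι ⊕ l) ⊕ κ where
  toFun x := match x with
    | .inl (.inl i) => .inl (.inl i)
    | .inl (.inr i) => .inr i
    | .inr i => .inl (.inr i)
  invFun x := match x with
    | .inl (.inl i) => .inl (.inl i)
    | .inl (.inr i) => .inr i
    | .inr i => .inl (.inr i)
  left_inv x := by rcases x with (i | i) | i <;> rfl
  right_inv x := by rcases x with (i | i) | i <;> rfl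

theorem mulB_rot3 (x : D.B ι) (y : D.B κ) (z : D.B l) :
    D.mulBFun (ι ⊕ l) κ (D.mulBFun ι l (x, z), y) =
      D.reB (rot3 ι κ l) (D.mulBFun (ι ⊕ κ) l (D.mulBFun ι κ (x, y), z)) := by
  refine Prod.ext ?_ (GK.ext ?_)
  · funext z
    rcases z with ⟨(i | i) | i, j⟩ <;> rfl
  · rintro ⟨⟨(i | i) | i, j⟩, b⟩ ⟨⟨(i' | i') | i', j'⟩, b'⟩ <;> rfl

theorem stab_cmp (f : D.Rep ι K L) (g : D.Rep κ L Z) :
    (f.stab l).cmp g = ((f.cmp g).stab l).re (rot3 ι κ l) := by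
  ext ⟨v, k⟩
  rw [cmp_val, re_val, stab_val, stab_val, cmp_val]
  have h1 : D.splitA ι κ (D.splitA (ι ⊕ κ) l (D.reA (rot3 ι κ l).symm v)).1 =
      ((D.splitA ι l (D.splitA (ι ⊕ l) κ v).1).1, (D.splitA (ι ⊕ l) κ v).2) := rfl
  have h2 : (D.splitA (ι ⊕ κ) l (D.reA (rot3 ι κ l).symm v)).2 =
      (D.splitA ι l (D.splitA (ι ⊕ l) κ v).1).2 := rfl
  rw [h1, h2]
  rcases f ((D.splitA ι l (D.splitA (ι ⊕ l) κ v).1).1, k) with _ | p
  · rfl
  · change bnd (bnd (D.shat l (D.splitA ι l (D.splitA (ι ⊕ l) κ v).1).2) _) _ =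
      bnd (bnd (bnd (g ((D.splitA (ι ⊕ l) κ v).2, p.2)) _) _) _
    rcases D.shat l (D.splitA ι l (D.splitA (ι ⊕ l) κ v).1).2 with _ | c
    · rcases g ((D.splitA (ι ⊕ l) κ v).2, p.2) with _ | q
      · rfl
      · rfl
    · change bnd (g ((D.splitA (ι ⊕ l) κ v).2, p.2)) _ = _
      rcases g ((D.splitA (ι ⊕ l) κ v).2, p.2) with _ | q
      · rfl
      · exact pt_congr (D.mulB_rot3 p.1 q.1 c) q.2

theorem cmp_stab (f : D.Rep ι K L) (g : D.Rep κ L Z) :
    f.cmp (g.stab l) = ((f.cmp g).stab l).re (Equiv.sumAssoc ι κ l) := by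
  ext ⟨v, k⟩
  rw [cmp_val, re_val, stab_val, cmp_val]
  have h1 : D.splitA ι κ (D.splitA (ι ⊕ κ) l (D.reA (Equiv.sumAssoc ι κ l).symm v)).1 =
      ((D.splitA ι (κ ⊕ l) v).1, (D.splitA κ l (D.splitA ι (κ ⊕ l) v).2).1) := rfl
  have h2 : (D.splitA (ι ⊕ κ) l (D.reA (Equiv.sumAssoc ι κ l).symm v)).2 =
      (D.splitA κ l (D.splitA ι (κ ⊕ l) v).2).2 := rfl
  rw [h1, h2]
  rcases f ((D.splitA ι (κ ⊕ l) v).1, k) with _ | p
  · rfl
  · change bnd (g.stab l ((D.splitA ι (κ ⊕ l) v).2, p.2)) _ =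
      bnd (bnd (bnd (g ((D.splitA κ l (D.splitA ι (κ ⊕ l) v).2).1, p.2)) _) _) _
    rw [stab_val]
    rcases g ((D.splitA κ l (D.splitA ι (κ ⊕ l) v).2).1, p.2) with _ | q
    · rfl
    · change bnd (bnd (D.shat l (D.splitA κ l (D.splitA ι (κ ⊕ l) v).2).2) _) _ =
        bnd (bnd (D.shat l (D.splitA κ l (D.splitA ι (κ ⊕ l) v).2).2) _) _
      rcases D.shat l (D.splitA κ l (D.splitA ι (κ ⊕ l) v).2).2 with _ | c
      · rfl
      · exact pt_congr (D.mulB_assoc p.1 q.1 c) q.2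

theorem cmp_cmp (f : D.Rep ι K L) (g : D.Rep κ L M) (h : D.Rep l M Z) :
    f.cmp (g.cmp h) = ((f.cmp g).cmp h).re (Equiv.sumAssoc ι κ l) := by
  ext ⟨v, k⟩
  rw [cmp_val, re_val, cmp_val, cmp_val]
  have h1 : D.splitA ι κ (D.splitA (ι ⊕ κ) l (D.reA (Equiv.sumAssoc ι κ l).symm v)).1 =
      ((D.splitA ι (κ ⊕ l) v).1, (D.splitA κ l (D.splitA ι (κ ⊕ l) v).2).1) := rfl
  have h2 : (D.splitA (ι ⊕ κ) l (D.reA (Equiv.sumAssoc ι κ l).symm v)).2 =
      (D.splitA κ l (D.splitA ι (κ ⊕ l) v).2).2 := rfl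
  rw [h1, h2]
  rcases f ((D.splitA ι (κ ⊕ l) v).1, k) with _ | p
  · rfl
  · change bnd (g.cmp h ((D.splitA ι (κ ⊕ l) v).2, p.2)) _ =
      bnd (bnd (bnd (g ((D.splitA κ l (D.splitA ι (κ ⊕ l) v).2).1, p.2)) _) _) _
    rw [cmp_val]
    rcases g ((D.splitA κ l (D.splitA ι (κ ⊕ l) v).2).1, p.2) with _ | q
    · rfl
    · change bnd (bnd (h ((D.splitA κ l (D.splitA ι (κ ⊕ l) v).2).2, q.2)) _) _ =
        bnd (bnd (h ((D.splitA κ l (D.splitA ι (κ ⊕ l) v).2).2, q.2)) _) _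
      rcases h ((D.splitA κ l (D.splitA ι (κ ⊕ l) v).2).2, q.2) with _ | r
      · rfl
      · exact pt_congr (D.mulB_assoc p.1 q.1 r.1) r.2

theorem ofMap_cmp (φ : PMap K L.plus) (f : D.Rep κ L Z) :
    (Rep.ofMap ι φ : D.Rep ι K L).cmp f = ((Rep.pre φ f).stab ι).re (Equiv.sumComm κ ι) := by
  ext ⟨v, k⟩
  rw [cmp_val, re_val, stab_val, pre_val, ofMap_val]
  have h1 : D.splitA κ ι (D.reA (Equiv.sumComm κ ι).symm v) =
      ((D.splitA ι κ v).2, (D.splitA ι κ v).1) := rfl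
  rw [h1]
  rcases φ k with _ | l
  · rcases D.shat ι (D.splitA ι κ v).1 with _ | b <;> rfl
  · change bnd (bnd (D.shat ι (D.splitA ι κ v).1) _) _ =
      bnd (bnd (f ((D.splitA ι κ v).2, l)) (fun p => bnd (D.shat ι (D.splitA ι κ v).1) _)) _
    rcases D.shat ι (D.splitA ι κ v).1 with _ | b
    · rcases f ((D.splitA ι κ v).2, l) with _ | p <;> rfl
    · change bnd (f ((D.splitA ι κ v).2, l)) _ = _
      rcases f ((D.splitA ι κ v).2, l) with _ | p
      · rfl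
      · exact pt_congr (D.mulB_comm p.1 b) p.2

theorem cmp_ofMap (f : D.Rep ι K L) (ψ : PMap L Z.plus) :
    f.cmp (Rep.ofMap κ ψ : D.Rep κ L Z) = (f.post ψ).stab κ := by
  ext ⟨v, k⟩
  rw [cmp_val, stab_val, post_val]
  rcases f ((D.splitA ι κ v).1, k) with _ | p
  · rfl
  · change bnd ((Rep.ofMap κ ψ : D.Rep κ L Z) ((D.splitA ι κ v).2, p.2)) _ =
      bnd (bnd (ψ p.2) _) _
    rw [ofMap_val]
    rcases ψ p.2 with _ | z
    · rcases D.shat κ (D.splitA ι κ v).2 with _ | b <;> rfl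
    · rcases D.shat κ (D.splitA ι κ v).2 with _ | b <;> rfl

theorem ofMap_stab (φ : PMap K L.plus) :
    (Rep.ofMap ι φ : D.Rep ι K L).stab κ = Rep.ofMap (ι ⊕ κ) φ := by
  ext ⟨v, k⟩
  rw [stab_val, ofMap_val, ofMap_val, shat_sum]
  rcases D.shat ι (D.splitA ι κ v).1 with _ | b
  · rfl
  · rcases φ k with _ | l
    · rcases D.shat κ (D.splitA ι κ v).2 with _ | c <;> rfl
    · rcases D.shat κ (D.splitA ι κ v).2 with _ | c <;> rfl

theorem ofMap_re (e : ι ≃ κ) (φ : PMap K L.plus) :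
    (Rep.ofMap ι φ : D.Rep ι K L).re e = Rep.ofMap κ φ := by
  ext ⟨v, k⟩
  rw [re_val, ofMap_val, ofMap_val]
  have h2 : D.shat κ v = bnd (D.shat ι (D.reA e.symm v))
        (fun b => ((D.reB e b : D.B κ) : OnePoint (D.B κ))) := by
    rw [← shat_re, reA_trans, Equiv.symm_trans_self]
    rfl
  rw [h2]
  rcases D.shat ι (D.reA e.symm v) with _ | b
  · rfl
  · rcases φ k with _ | l <;> rfl

theorem ofMap_comp (φ : PMap K L.plus) (ψ : PMap L Z.plus) :
    (Rep.ofMap ι φ : D.Rep ι K L).post ψ = Rep.ofMap ι (ψ.comp φ) := by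
  ext ⟨v, k⟩
  rw [post_val, ofMap_val, ofMap_val, comp_bnd]
  rcases D.shat ι v with _ | b
  · rfl
  · rcases φ k with _ | l <;> rfl

theorem pre_ofMap (φ : PMap K L.plus) (ψ : PMap L Z.plus) :
    Rep.pre φ (Rep.ofMap ι ψ : D.Rep ι L Z) = Rep.ofMap ι (ψ.comp φ) := by
  ext ⟨v, k⟩
  rw [pre_val, ofMap_val, comp_bnd]
  rcases φ k with _ | l
  · rcases D.shat ι v with _ | b <;> rfl
  · rfl

/-! ### Precomposition and postcomposition -/

theorem pre_pre (φ : PMap K L.plus) (ψ : PMap L M.plus) (f : D.Rep ι M Z) :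
    Rep.pre φ (Rep.pre ψ f) = Rep.pre (ψ.comp φ) f := by
  ext ⟨v, k⟩
  rw [pre_val, pre_val, comp_bnd]
  rcases φ k with _ | l
  · rfl
  · exact pre_val ψ f v l

theorem post_post (f : D.Rep ι K L) (φ : PMap L M.plus) (ψ : PMap M Z.plus) :
    (f.post φ).post ψ = f.post (ψ.comp φ) := by
  ext ⟨v, k⟩
  rw [post_val, post_val, post_val]
  rcases f (v, k) with _ | p
  · rfl
  · change bnd (bnd (φ p.2) _) _ = bnd (bnd (φ p.2) ψ) _
    rcases φ p.2 with _ | l <;> rfl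

theorem pre_post (φ : PMap K L.plus) (f : D.Rep ι L M) (ψ : PMap M Z.plus) :
    Rep.pre φ (f.post ψ) = (Rep.pre φ f).post ψ := by
  ext ⟨v, k⟩
  rw [pre_val, post_val, pre_val]
  rcases φ k with _ | l
  · rfl
  · exact post_val f ψ v l

theorem pre_stab (φ : PMap K L.plus) (f : D.Rep ι L Z) :
    Rep.pre φ (f.stab κ) = (Rep.pre φ f).stab κ := by
  ext ⟨v, k⟩
  rw [pre_val, stab_val, pre_val]
  rcases φ k with _ | l
  · rfl
  · exact stab_val f κ v l

theorem pre_re (e : ι ≃ κ) (φ : PMap K L.plus) (f : D.Rep ι L Z) :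
    Rep.pre φ (f.re e) = (Rep.pre φ f).re e := by
  ext ⟨v, k⟩
  rw [pre_val, re_val, pre_val]
  rcases φ k with _ | l
  · rfl
  · exact re_val e f v l

theorem post_stab (f : D.Rep ι K L) (ψ : PMap L Z.plus) :
    (f.stab κ).post ψ = (f.post ψ).stab κ := by
  ext ⟨v, k⟩
  rw [post_val, stab_val, stab_val, post_val]
  rcases f ((D.splitA ι κ v).1, k) with _ | p
  · rfl
  · change bnd (bnd (D.shat κ (D.splitA ι κ v).2) _) _ = bnd (bnd (ψ p.2) _) _
    rcases D.shat κ (D.splitA ι κ v).2 with _ | c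
    · rcases ψ p.2 with _ | z <;> rfl
    · rcases hψ : ψ p.2 with _ | z
      · change bnd (ψ p.2) _ = _
        rw [hψ]
        rfl
      · change bnd (ψ p.2) _ = _
        rw [hψ]
        rfl

theorem post_re (e : ι ≃ κ) (f : D.Rep ι K L) (ψ : PMap L Z.plus) :
    (f.re e).post ψ = (f.post ψ).re e := by
  ext ⟨v, k⟩
  rw [post_val, re_val, re_val, post_val]
  rcases f (D.reA e.symm v, k) with _ | p
  · rfl
  · change bnd (ψ p.2) _ = bnd (bnd (ψ p.2) _) _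
    rcases ψ p.2 with _ | z <;> rfl

theorem pre_cmp (φ : PMap K L.plus) (f : D.Rep ι L M) (g : D.Rep κ M Z) :
    (Rep.pre φ f).cmp g = Rep.pre φ (f.cmp g) := by
  ext ⟨v, k⟩
  rw [cmp_val, pre_val, pre_val]
  rcases φ k with _ | l
  · rfl
  · exact (cmp_val f g v l).symm

theorem cmp_post (f : D.Rep ι K L) (g : D.Rep κ L M) (ψ : PMap M Z.plus) :
    f.cmp (g.post ψ) = (f.cmp g).post ψ := by
  ext ⟨v, k⟩
  rw [post_val, cmp_val, cmp_val]
  rcases f ((D.splitA ι κ v).1, k) with _ | p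
  · rfl
  · change bnd (g.post ψ ((D.splitA ι κ v).2, p.2)) _ =
      bnd (bnd (g ((D.splitA ι κ v).2, p.2)) _) _
    rw [post_val]
    rcases g ((D.splitA ι κ v).2, p.2) with _ | q
    · rfl
    · change bnd (bnd (ψ q.2) _) _ = bnd (ψ q.2) _
      rcases ψ q.2 with _ | z <;> rfl

theorem post_cmp (f : D.Rep ι K L) (ψ : PMap L M.plus) (g : D.Rep κ M Z) :
    (f.post ψ).cmp g = f.cmp (Rep.pre ψ g) := by
  ext ⟨v, k⟩
  rw [cmp_val, post_val, cmp_val]
  rcases f ((D.splitA ι κ v).1, k) with _ | p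
  · rfl
  · change bnd (bnd (ψ p.2) _) _ = bnd (Rep.pre ψ g ((D.splitA ι κ v).2, p.2)) _
    rw [pre_val]
    rcases ψ p.2 with _ | z <;> rfl

theorem pre_id (f : D.Rep ι K Z) : Rep.pre (PMap.id K) f = f := by
  ext ⟨v, k⟩
  rw [pre_val]
  rfl

theorem post_id (f : D.Rep ι K Z) : f.post (PMap.id Z) = f := by
  ext ⟨v, k⟩
  rw [post_val]
  rcases f (v, k) with _ | p <;> rfl

/-! ### Products -/

theorem stab_tens (f : D.Rep ι K L) : (f.stab κ).tens W = (f.tens W).stab κ := by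
  ext ⟨v, k, w⟩
  rw [tens_val, stab_val, stab_val, tens_val]
  rcases f ((D.splitA ι κ v).1, k) with _ | p
  · rfl
  · change bnd (bnd (D.shat κ (D.splitA ι κ v).2) _) _ = bnd (D.shat κ (D.splitA ι κ v).2) _
    rcases D.shat κ (D.splitA ι κ v).2 with _ | c <;> rfl

theorem re_tens (e : ι ≃ κ) (f : D.Rep ι K L) : (f.re e).tens W = (f.tens W).re e := by
  ext ⟨v, k, w⟩
  rw [tens_val, re_val, re_val, tens_val]
  rcases f (D.reA e.symm v, k) with _ | p <;> rfl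

theorem cmp_tens (f : D.Rep ι K L) (g : D.Rep κ L Z) :
    (f.cmp g).tens W = (f.tens W).cmp (g.tens W) := by
  ext ⟨v, k, w⟩
  rw [tens_val, cmp_val, cmp_val, tens_val]
  rcases f ((D.splitA ι κ v).1, k) with _ | p
  · rfl
  · change bnd (bnd (g ((D.splitA ι κ v).2, p.2)) _) _ =
      bnd (g.tens W ((D.splitA ι κ v).2, (p.2, w))) _
    rw [tens_val]
    rcases g ((D.splitA ι κ v).2, p.2) with _ | q <;> rfl

theorem ofMap_tens (φ : PMap K L.plus) :
    (Rep.ofMap ι φ : D.Rep ι K L).tens W = Rep.ofMap ι (φ.tens W) := by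
  ext ⟨v, k, w⟩
  rw [tens_val, ofMap_val, ofMap_val]
  rcases D.shat ι v with _ | b
  · rfl
  · change bnd (bnd (φ k) _) _ = bnd (smashPt L W (φ k, (w : OnePoint W))) _
    rcases φ k with _ | l <;> rfl

theorem tens_tens (f : D.Rep ι K L) :
    ((f.tens Z).tens W).post (PMap.ofHomeo (Homeomorph.prodAssoc L Z W :
      (L.prod Z).prod W ≃ₜ L.prod (Z.prod W))) =
    Rep.pre (PMap.ofHomeo (Homeomorph.prodAssoc K Z W :
      (K.prod Z).prod W ≃ₜ K.prod (Z.prod W))) (f.tens (Z.prod W)) := by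
  ext ⟨v, ⟨k, z⟩, w⟩
  rw [post_val, tens_val, tens_val, pre_val]
  change _ = f.tens (Z.prod W) (v, (k, (z, w)))
  rw [tens_val]
  rcases f (v, k) with _ | p <;> rfl

theorem tens_point (f : D.Rep ι K L) :
    (f.tens LC.point).post (PMap.ofHomeo (Homeomorph.prodPUnit L : L.prod LC.point ≃ₜ L)) =
    Rep.pre (PMap.ofHomeo (Homeomorph.prodPUnit K : K.prod LC.point ≃ₜ K)) f := by
  ext ⟨v, k, w⟩
  rw [post_val, tens_val, pre_val]
  change _ = f (v, k)
  rcases f (v, k) with _ | p <;> rfl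

/-- the product with the identity of `W` on the left -/
def Rep.ltens (W : LC) (f : D.Rep ι K L) : D.Rep ι (W.prod K) (W.prod L) :=
  Rep.pre (PMap.ofHomeo (LC.swap W K)) ((f.tens W).post (PMap.ofHomeo (LC.swap L W)))

theorem ltens_val (f : D.Rep ι K L) (v : D.A ι) (w : W) (k : K) :
    Rep.ltens W f (v, (w, k)) = bnd (f (v, k)) (fun p =>
      (((p.1, (w, p.2)) : D.B ι × (W × L)) : OnePoint (D.B ι × (W × L)))) := by
  unfold Rep.ltens
  rw [pre_val]
  change (f.tens W).post (PMap.ofHomeo (LC.swap L W)) (v, (k, w)) = _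
  rw [post_val, tens_val]
  rcases f (v, k) with _ | p <;> rfl

theorem exch_rep (f : D.Rep ι K L) (g : D.Rep κ Z W) :
    (f.tens Z).cmp (Rep.ltens L g) =
      ((Rep.ltens K g).cmp (f.tens W)).re (Equiv.sumComm κ ι) := by
  ext ⟨v, k, z⟩
  rw [cmp_val, re_val, cmp_val, tens_val]
  have h1 : D.splitA κ ι (D.reA (Equiv.sumComm κ ι).symm v) =
      ((D.splitA ι κ v).2, (D.splitA ι κ v).1) := rfl
  rw [h1, ltens_val]
  rcases hf : f ((D.splitA ι κ v).1, k) with _ | p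
  · rcases g ((D.splitA ι κ v).2, z) with _ | q
    · rfl
    · change _ = bnd (bnd (f.tens W ((D.splitA ι κ v).1, (k, q.2))) _) _
      rw [tens_val, hf]
      rfl
  · change bnd (Rep.ltens L g ((D.splitA ι κ v).2, (p.2, z))) _ = _
    rw [ltens_val]
    rcases g ((D.splitA ι κ v).2, z) with _ | q
    · rfl
    · change _ = bnd (bnd (f.tens W ((D.splitA ι κ v).1, (k, q.2))) _) _
      rw [tens_val, hf]
      exact pt_congr (D.mulB_comm q.1 p.1) (p.2, q.2)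

/-! ### Homotopies -/

theorem hstab {f g : D.Rep ι K Z} (h : PMap.Homotopic f g) (κ : Type) [Fintype κ] :
    PMap.Homotopic (f.stab κ) (g.stab κ) :=
  PMap.Homotopic.comp_right _ (PMap.Homotopic.comp_right _
    ((h.box_left (D.shat κ)).comp_left _))

theorem hcmp {f f' : D.Rep ι K L} {g g' : D.Rep κ L Z} (h : PMap.Homotopic f f')
    (h' : PMap.Homotopic g g') : PMap.Homotopic (f.cmp g) (f'.cmp g') :=
  PMap.Homotopic.comp_right _ (PMap.Homotopic.comp_right _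
    ((PMap.Homotopic.box_right (PMap.id (D.B ι)) h').comp
      (PMap.Homotopic.comp_right _ ((h.box_left _).comp_left _))))

theorem htens {f g : D.Rep ι K L} (h : PMap.Homotopic f g) (W : LC) :
    PMap.Homotopic (f.tens W) (g.tens W) :=
  PMap.Homotopic.comp_right _ ((h.box_left _).comp_left _)

theorem hre {f g : D.Rep ι K Z} (h : PMap.Homotopic f g) (e : ι ≃ κ) :
    PMap.Homotopic (f.re e) (g.re e) :=
  PMap.Homotopic.comp_right _ (h.comp_left _)

theorem hpre {f g : D.Rep ι L Z} (h : PMap.Homotopic f g) {φ ψ : PMap K L.plus}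
    (h' : φ.Homotopic ψ) : PMap.Homotopic (Rep.pre φ f) (Rep.pre ψ g) :=
  h.comp (PMap.Homotopic.box_right _ h')

theorem hpost {f g : D.Rep ι K L} (h : PMap.Homotopic f g) {φ ψ : PMap L Z.plus}
    (h' : φ.Homotopic ψ) : PMap.Homotopic (f.post φ) (g.post ψ) :=
  (PMap.Homotopic.box_right _ h').comp h

theorem hofMap {φ ψ : PMap K L.plus} (h' : φ.Homotopic ψ) :
    PMap.Homotopic (Rep.ofMap ι φ : D.Rep ι K L) (Rep.ofMap ι ψ) :=
  PMap.Homotopic.box_right _ h'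

end

end Datum

end Pool.Agent.Helper1.Stab
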