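import Pool.Agent.Helper68.Stab.LocRep

/-! The set-valued bivariant theory: colimit over the stages. -/

open Topology Filter Set

noncomputable section

namespace Pool.Agent.Helper1.Stab

namespace Datum
variable {D : Datum}

section
variable {ι κ l ι' κ' : Type} [Fintype ι] [Fintype κ] [Fintype l] [Fintype ι'] [Fintype κ']
variable {K L M N Z W : LC}

/-- Two representatives (at different stages) are equivalent if they become homotopic after
stabilisation and renaming. -/
def REquiv (f : D.Rep ι K Z) (g : D.Rep κ K Z) : Prop :=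
  ∃ (α β : Type) (_ : Fintype α) (_ : Fintype β) (e : κ ⊕ β ≃ ι ⊕ α),
    PMap.Homotopic (f.stab α) ((g.stab β).re e)

theorem REquiv.of_homotopic {f g : D.Rep ι K Z} (h : PMap.Homotopic f g) : REquiv f g :=
  ⟨PEmpty, PEmpty, inferInstance, inferInstance, Equiv.refl _, by
    rw [re_refl]; exact hstab h PEmpty⟩

theorem REquiv.refl (f : D.Rep ι K Z) : REquiv f f :=
  REquiv.of_homotopic (PMap.Homotopic.refl f)

theorem REquiv.symm {f : D.Rep ι K Z} {g : D.Rep κ K Z} (h : REquiv f g) : REquiv g f := by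
  obtain ⟨α, β, hα, hβ, e, he⟩ := h
  refine ⟨β, α, hβ, hα, e.symm, ?_⟩
  have h1 := (hre he e.symm).symm
  rw [re_re_symm] at h1
  exact h1

theorem REquiv.trans {f : D.Rep ι K Z} {g : D.Rep κ K Z} {h : D.Rep l K Z} (h1 : REquiv f g)
    (h2 : REquiv g h) : REquiv f h := by
  obtain ⟨α, β, hα, hβ, e, he⟩ := h1
  obtain ⟨α', β', hα', hβ', e', he'⟩ := h2
  have k1 : f.stab (α ⊕ α') = ((f.stab α).stab α').re (Equiv.sumAssoc ι α α') := stab_stab f
  have k2 := hre (hstab he α') (Equiv.sumAssoc ι α α')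
  rw [← k1, re_stab] at k2
  have k3 : (g.stab β).stab α' = ((g.stab α').stab β).re (((Equiv.sumAssoc κ α' β).trans
      ((Equiv.refl κ).sumCongr (Equiv.sumComm α' β))).trans (Equiv.sumAssoc κ β α').symm) := by
    rw [← re_re, ← re_re, ← stab_stab, stab_re, stab_stab, re_re_symm]
  rw [k3] at k2
  have k4 := hstab he' β
  rw [re_stab] at k4
  have k5 : (h.stab β').stab β = (h.stab (β' ⊕ β)).re (Equiv.sumAssoc l β' β).symm := by
    rw [stab_stab, re_re_symm]
  rw [k5, re_re] at k4
  have k6 := k2.trans (hre (hre (hre k4 _) _) _)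
  rw [re_re, re_re, re_re] at k6
  exact ⟨α ⊕ α', β' ⊕ β, inferInstance, inferInstance, _, k6⟩

theorem REquiv.re (f : D.Rep ι K Z) (e : ι ≃ κ) : REquiv f (f.re e) :=
  ⟨PEmpty, PEmpty, inferInstance, inferInstance, e.symm.sumCongr (Equiv.refl _), by
    rw [re_stab, re_re]
    have : (e.sumCongr (Equiv.refl PEmpty.{1})).trans (e.symm.sumCongr (Equiv.refl _)) =
        Equiv.refl _ := by
      ext (x | x) <;> simp
    rw [this, re_refl]
    exact PMap.Homotopic.refl _⟩

theorem REquiv.stab (f : D.Rep ι K Z) (κ : Type) [Fintype κ] : REquiv f (f.stab κ) :=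
  ⟨κ ⊕ PEmpty, PEmpty, inferInstance, inferInstance, Equiv.sumAssoc _ _ _, by
    rw [← stab_stab]
    exact PMap.Homotopic.refl _⟩

theorem REquiv.cmp_left {f : D.Rep ι K L} {f' : D.Rep ι' K L} (h : REquiv f f')
    (g : D.Rep κ L Z) : REquiv (f.cmp g) (f'.cmp g) := by
  obtain ⟨α, β, hα, hβ, e, he⟩ := h
  have h1 : REquiv (f.cmp g) ((f.stab α).cmp g) := by
    rw [stab_cmp]
    exact (REquiv.stab _ α).trans (REquiv.re _ _)
  have h2 : REquiv (f'.cmp g) ((f'.stab β).cmp g) := by
    rw [stab_cmp]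
    exact (REquiv.stab _ β).trans (REquiv.re _ _)
  have h3 : REquiv ((f'.stab β).cmp g) (((f'.stab β).re e).cmp g) := by
    have : ((f'.stab β).re e).cmp g = ((f'.stab β).cmp g).re (e.sumCongr (Equiv.refl κ)) := by
      rw [← re_cmp_re, re_refl]
    rw [this]
    exact REquiv.re _ _
  exact (h1.trans (REquiv.of_homotopic (hcmp he (PMap.Homotopic.refl g)))).trans
    (h2.trans h3).symm

theorem REquiv.cmp_right (f : D.Rep ι K L) {g : D.Rep κ L Z} {g' : D.Rep κ' L Z}
    (h : REquiv g g') : REquiv (f.cmp g) (f.cmp g') := by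
  obtain ⟨α, β, hα, hβ, e, he⟩ := h
  have h1 : REquiv (f.cmp g) (f.cmp (g.stab α)) := by
    rw [cmp_stab]
    exact (REquiv.stab _ α).trans (REquiv.re _ _)
  have h2 : REquiv (f.cmp g') (f.cmp (g'.stab β)) := by
    rw [cmp_stab]
    exact (REquiv.stab _ β).trans (REquiv.re _ _)
  have h3 : REquiv (f.cmp (g'.stab β)) (f.cmp ((g'.stab β).re e)) := by
    have : f.cmp ((g'.stab β).re e) = (f.cmp (g'.stab β)).re ((Equiv.refl ι).sumCongr e) := by
      rw [← re_cmp_re, re_refl]
    rw [this]
    exact REquiv.re _ _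
  exact (h1.trans (REquiv.of_homotopic (hcmp (PMap.Homotopic.refl f) he))).trans
    (h2.trans h3).symm

theorem REquiv.tens {f : D.Rep ι K L} {f' : D.Rep ι' K L} (h : REquiv f f') (W : LC) :
    REquiv (f.tens W) (f'.tens W) := by
  obtain ⟨α, β, hα, hβ, e, he⟩ := h
  refine ⟨α, β, hα, hβ, e, ?_⟩
  rw [← stab_tens, ← stab_tens, ← re_tens]
  exact htens he W

end

/-! ## The set `Hom` -/

variable (D)

/-- the setoid of representatives -/
instance repSetoid (K Z : LC) : Setoid (Σ n : ℕ, D.Rep (Fin n) K Z) where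
  r x y := REquiv x.2 y.2
  iseqv := ⟨fun x => REquiv.refl x.2, fun h => REquiv.symm h, fun h h' => REquiv.trans h h'⟩

/-- The elements of the theory. -/
def Hom (K Z : LC) : Type := Quotient (D.repSetoid K Z)

variable {D}

section
variable {ι κ l ι' κ' : Type} [Fintype ι] [Fintype κ] [Fintype l] [Fintype ι'] [Fintype κ']
variable {K L M N Z W : LC}

/-- the class of a representative -/
def cls (f : D.Rep ι K Z) : D.Hom K Z :=
  Quotient.mk _ ⟨Fintype.card ι, f.re (Fintype.equivFin ι)⟩

theorem cls_eq_iff (f : D.Rep ι K Z) (g : D.Rep κ K Z) : cls f = cls g ↔ REquiv f g := by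
  constructor
  · intro h
    have h1 : REquiv (f.re (Fintype.equivFin ι)) (g.re (Fintype.equivFin κ)) := Quotient.exact h
    exact ((REquiv.re f _).trans h1).trans (REquiv.re g _).symm
  · intro h
    exact Quotient.sound (((REquiv.re f _).symm.trans h).trans (REquiv.re g _))

theorem cls_homotopic {f g : D.Rep ι K Z} (h : PMap.Homotopic f g) : cls f = cls g :=
  (cls_eq_iff f g).2 (REquiv.of_homotopic h)

theorem cls_stab (f : D.Rep ι K Z) (κ : Type) [Fintype κ] : cls (f.stab κ) = cls f :=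
  (cls_eq_iff _ _).2 (REquiv.stab f κ).symm

theorem cls_re (e : ι ≃ κ) (f : D.Rep ι K Z) : cls (f.re e) = cls f :=
  (cls_eq_iff _ _).2 (REquiv.re f e).symm

theorem exists_cls (x : D.Hom K Z) : ∃ (n : ℕ) (f : D.Rep (Fin n) K Z), x = cls f := by
  induction x using Quotient.ind with | _ x =>
  exact ⟨x.1, x.2, (Quotient.sound (REquiv.re x.2 _) : _ = cls x.2)⟩

theorem cls_ind {P : D.Hom K Z → Prop} (h : ∀ (n : ℕ) (f : D.Rep (Fin n) K Z), P (cls f))
    (x : D.Hom K Z) : P x := by
  obtain ⟨n, f, rfl⟩ := exists_cls x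
  exact h n f

/-- composition -/
def comp (x : D.Hom K L) (y : D.Hom L Z) : D.Hom K Z :=
  Quotient.liftOn₂ x y (fun a b => cls (a.2.cmp b.2)) (by
    intro a b a' b' h h'
    exact (cls_eq_iff _ _).2 ((REquiv.cmp_left h b.2).trans (REquiv.cmp_right a'.2 h')))

theorem comp_cls (f : D.Rep ι K L) (g : D.Rep κ L Z) : comp (cls f) (cls g) = cls (f.cmp g) := by
  change cls ((f.re _).cmp (g.re _)) = _
  rw [re_cmp_re]
  exact cls_re _ _

/-- product with the identity -/
def tens (x : D.Hom K L) (W : LC) : D.Hom (K.prod W) (L.prod W) :=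
  Quotient.liftOn x (fun a => cls (a.2.tens W)) (by
    intro a a' h
    exact (cls_eq_iff _ _).2 (REquiv.tens h W))

theorem tens_cls (f : D.Rep ι K L) (W : LC) : tens (cls f) W = cls (f.tens W) := by
  change cls ((f.re _).tens W) = _
  rw [re_tens]
  exact cls_re _ _

variable (D) in
/-- the class of a map -/
def J (φ : PMap K L.plus) : D.Hom K L := cls (Rep.ofMap PEmpty φ)

theorem J_eq (ι : Type) [Fintype ι] (φ : PMap K L.plus) :
    D.J φ = cls (Rep.ofMap ι φ : D.Rep ι K L) := by
  unfold J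
  rw [← cls_stab _ ι, ofMap_stab, ← cls_re (Equiv.emptySum PEmpty ι), ofMap_re]

theorem J_comp_cls (φ : PMap K L.plus) (f : D.Rep ι L Z) :
    comp (D.J φ) (cls f) = cls (Rep.pre φ f) := by
  rw [J_eq PEmpty, comp_cls, ofMap_cmp, cls_re, cls_stab]

theorem cls_comp_J (f : D.Rep ι K L) (ψ : PMap L Z.plus) :
    comp (cls f) (D.J ψ) = cls (f.post ψ) := by
  rw [J_eq PEmpty, comp_cls, cmp_ofMap, cls_stab]

/-! ### The axioms that do not involve addition -/

theorem J_homotopic {φ ψ : PMap K L.plus} (h : φ.Homotopic ψ) : D.J φ = D.J ψ :=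
  cls_homotopic (hofMap h)

theorem J_comp (f : PMap K L.plus) (g : PMap L M.plus) :
    D.J (g.comp f) = comp (D.J f) (D.J g) := by
  rw [J_eq PEmpty g, J_comp_cls, pre_ofMap]
  rfl

theorem id_comp (x : D.Hom K L) : comp (D.J (PMap.id K)) x = x := by
  induction x using cls_ind with | _ n f =>
  rw [J_comp_cls, pre_id]

theorem comp_id (x : D.Hom K L) : comp x (D.J (PMap.id L)) = x := by
  induction x using cls_ind with | _ n f =>
  rw [cls_comp_J, post_id]

theorem assoc (x : D.Hom K L) (y : D.Hom L M) (z : D.Hom M N) :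
    comp (comp x y) z = comp x (comp y z) := by
  induction x using cls_ind with | _ n f =>
  induction y using cls_ind with | _ m g =>
  induction z using cls_ind with | _ k h =>
  rw [comp_cls, comp_cls, comp_cls, comp_cls, cmp_cmp, cls_re]

theorem tens_comp (x : D.Hom K L) (y : D.Hom L M) (Z : LC) :
    tens (comp x y) Z = comp (tens x Z) (tens y Z) := by
  induction x using cls_ind with | _ n f =>
  induction y using cls_ind with | _ m g =>
  rw [comp_cls, tens_cls, tens_cls, tens_cls, comp_cls, cmp_tens]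

theorem tens_J (f : PMap K L.plus) (Z : LC) : tens (D.J f) Z = D.J (f.tens Z) := by
  rw [J_eq PEmpty, tens_cls, ofMap_tens]
  rfl

theorem htens_tens (x : D.Hom K L) (Z W : LC) :
    comp (tens (tens x Z) W) (D.J (PMap.ofHomeo (Homeomorph.prodAssoc L Z W :
      (L.prod Z).prod W ≃ₜ L.prod (Z.prod W)))) =
    comp (D.J (PMap.ofHomeo (Homeomorph.prodAssoc K Z W : (K.prod Z).prod W ≃ₜ K.prod (Z.prod W))))
      (tens x (Z.prod W)) := by
  induction x using cls_ind with | _ n f =>
  rw [tens_cls, tens_cls, tens_cls, cls_comp_J, J_comp_cls, tens_tens]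

theorem htens_point (x : D.Hom K L) :
    comp (tens x LC.point) (D.J (PMap.ofHomeo (Homeomorph.prodPUnit L : L.prod LC.point ≃ₜ L))) =
    comp (D.J (PMap.ofHomeo (Homeomorph.prodPUnit K : K.prod LC.point ≃ₜ K))) x := by
  induction x using cls_ind with | _ n f =>
  rw [tens_cls, cls_comp_J, J_comp_cls, tens_point]

/-- product with the identity on the left -/
def ltens (W : LC) (x : D.Hom K L) : D.Hom (W.prod K) (W.prod L) :=
  comp (D.J (PMap.ofHomeo (LC.swap W K)))
    (comp (tens x W) (D.J (PMap.ofHomeo (LC.swap L W))))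

theorem ltens_cls (W : LC) (f : D.Rep ι K L) : ltens W (cls f) = cls (Rep.ltens W f) := by
  unfold ltens Rep.ltens
  rw [tens_cls, cls_comp_J, J_comp_cls]

theorem exch (x : D.Hom K L) (y : D.Hom Z W) :
    comp (tens x Z) (ltens L y) = comp (ltens K y) (tens x W) := by
  induction x using cls_ind with | _ n f =>
  induction y using cls_ind with | _ m g =>
  rw [tens_cls, ltens_cls, ltens_cls, tens_cls, comp_cls, comp_cls, exch_rep, cls_re]

/-- the zero element -/
def hzero (D : Datum) (K Z : LC) : D.Hom K Z := D.J (PMap.zero K Z.plus)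

theorem cls_zero (ι : Type) [Fintype ι] (K Z : LC) :
    cls (ι := ι) (PMap.zero _ _ : D.Rep ι K Z) = D.hzero K Z := by
  unfold hzero
  rw [J_eq ι]
  congr 1
  ext ⟨v, k⟩
  rw [ofMap_val]
  rcases D.shat ι v with _ | b <;> rfl

end

end Datum

end Pool.Agent.Helper1.Stab
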