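import Pool.Agent.Helper68.Stab.LocMV

/-! The tautological classes, the inverse of the class `s`, the theory. -/

open Topology Filter Set CategoryTheory Opposite

noncomputable section

namespace Pool.Agent.Helper1.Stab

/-- `ℂ^n × ℂ^m = ℂ^(n ⊔ m)` -/
def joinH (n m : Type) [Finite n] [Finite m] : (LC.cpow n).prod (LC.cpow m) ≃ₜ LC.cpow (n ⊕ m) where
  toFun x := Sum.elim x.1 x.2
  invFun v := (fun i => v (.inl i), fun i => v (.inr i))
  left_inv _ := rfl
  right_inv v := by funext i; rcases i with i | i <;> rfl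
  continuous_toFun := by
    refine continuous_pi ?_
    rintro (i | i)
    · exact (continuous_apply i).comp continuous_fst
    · exact (continuous_apply i).comp continuous_snd
  continuous_invFun := by
    exact (continuous_pi fun _ => continuous_apply _).prodMk (continuous_pi fun _ => continuous_apply _)

/-- a permutation of the coordinates of `ℂ^n × ℂ^m` -/
def exH {n m : Type} [Finite n] [Finite m] (e : Equiv.Perm (n ⊕ m)) :
    (LC.cpow n).prod (LC.cpow m) ≃ₜ (LC.cpow n).prod (LC.cpow m) :=
  (joinH n m).trans ((cperm e).trans (joinH n m).symm)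

theorem exH_homotopic {n m : Type} [Fintype n] [Fintype m] (e : Equiv.Perm (n ⊕ m)) :
    (PMap.ofHomeo (exH e)).Homotopic (PMap.id ((LC.cpow n).prod (LC.cpow m))) := by
  have h1 : PMap.ofHomeo (exH e) = (PMap.ofHomeo (joinH n m).symm).comp
      ((PMap.ofHomeo (cperm e)).comp (PMap.ofHomeo (joinH n m))) := rfl
  have h2 : PMap.id ((LC.cpow n).prod (LC.cpow m)) = (PMap.ofHomeo (joinH n m).symm).comp
      ((PMap.id (LC.cpow (n ⊕ m))).comp (PMap.ofHomeo (joinH n m))) := rfl
  rw [h1, h2]
  exact PMap.Homotopic.comp_right _ ((rotC e).comp_left _)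

namespace Datum
variable {D : Datum}

section
variable {ι κ l : Type} [Fintype ι] [Fintype κ] [Fintype l]
variable {K L M N Z W : LC}

/-! ## The tautological classes -/

variable (D) in
/-- the class of the tautological bundle -/
def g (κ : Type) [Fintype κ] : D.Hom (LC.G κ) LC.point := cls (Rep.taut D κ)

theorem g_base (κ : Type) [Fintype κ] :
    comp (D.J (PMap.ofPoint (K := LC.G κ) (GK.base κ))) (D.g κ) = D.J (PMap.id LC.point) := by
  unfold g
  rw [J_comp_cls, J_eq κ]
  refine congrArg cls ?_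
  ext ⟨v, k⟩
  rw [pre_val, ofMap_val]
  change Rep.taut D κ (v, GK.base κ) = _
  rw [taut_val, shat_eq]
  rcases D.shatG κ (v, GK.base κ) with _ | b <;> rfl

theorem g_reindex (e : κ ≃ l) :
    comp (D.J (PMap.ofHomeo (K := LC.G κ) (L := LC.G l) (GK.reindex e))) (D.g l) = D.g κ := by
  unfold g
  rw [J_comp_cls, ← cls_re e (Rep.taut D κ)]
  congr 1
  ext ⟨v, P⟩
  rw [pre_val, re_val, taut_val]
  change Rep.taut D l (v, GK.reindex e P) = _
  rw [taut_val]
  have h1 : v = D.reA e (D.reA e.symm v) := by rw [reA_trans, Equiv.symm_trans_self]; rfl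
  have h2 : D.shatG l (v, GK.reindex e P) = bnd (D.shatG κ (D.reA e.symm v, P))
      (fun b => ((D.reB e b : D.B l) : OnePoint (D.B l))) := by
    rw [← shatG_re, ← h1]
  rw [h2]
  rcases D.shatG κ (D.reA e.symm v, P) with _ | b <;> rfl

theorem g_sum (κ l : Type) [Fintype κ] [Fintype l] :
    comp (D.J (GK.sumMap κ l)) (D.g (κ ⊕ l)) =
      comp (comp (tens (D.g κ) (LC.G l)) (ltens LC.point (D.g l)))
        (D.J (PMap.ofHomeo (Homeomorph.prodPUnit LC.point : LC.point.prod LC.point ≃ₜ LC.point))) := by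
  unfold g
  rw [J_comp_cls, tens_cls, ltens_cls, comp_cls, cls_comp_J]
  congr 1
  ext ⟨v, P, Q⟩
  rw [pre_val, post_val, cmp_val, tens_val, taut_val]
  change Rep.taut D (κ ⊕ l) (v, GK.sum (P, Q)) = _
  rw [taut_val, shatG_sum]
  rcases D.shatG κ ((D.splitA κ l v).1, P) with _ | b
  · rfl
  · change _ = bnd (bnd (Rep.ltens LC.point (Rep.taut D l) ((D.splitA κ l v).2,
      (PUnit.unit, Q))) _) _
    rw [ltens_val, taut_val]
    change bnd (bnd (D.shatG l ((D.splitA κ l v).2, Q)) _) _ = _
    rcases D.shatG l ((D.splitA κ l v).2, Q) with _ | c <;> rfl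

end

/-! ## The inverse of `s` -/

variable (D) in
/-- representative of the class `s` -/
def sig : D.Rep D.a (LC.cpow D.w) ((LC.cpow D.u).prod LC.point) :=
  Rep.pre D.s (Rep.ltens (LC.cpow D.u) (Rep.taut D D.a))

theorem sig_val (v : D.A D.a) (k : D.w → ℂ) : D.sig (v, k) = bnd (D.s k) (fun q =>
    bnd (D.shatG D.a (v, q.2)) (fun b =>
      (((b, (q.1, PUnit.unit)) : D.B D.a × ((D.u → ℂ) × PUnit)) :
        OnePoint (D.B D.a × ((D.u → ℂ) × PUnit))))) := by
  unfold sig
  rw [pre_val]
  rcases D.s k with _ | q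
  · rfl
  · change Rep.ltens (LC.cpow D.u) (Rep.taut D D.a) (v, (q.1, q.2)) = _
    rw [ltens_val, taut_val]
    change _ = bnd (D.shatG D.a (v, q.2)) _
    rcases D.shatG D.a (v, q.2) with _ | b <;> rfl

variable (D) in
/-- `((c,v),(y,·)) ↦ ((c,y),v)` -/
def thH : (D.A PUnit).prod ((LC.cpow D.u).prod LC.point) ≃ₜ
    (LC.cpow (PUnit × Option D.u)).prod (LC.cpow D.w) where
  toFun x := ((fun z => match z.2 with
    | none => x.1 (PUnit.unit, none)
    | some j => x.2.1 j), fun j => x.1 (PUnit.unit, some j))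
  invFun x := ((fun z => match z.2 with
    | none => x.1 (PUnit.unit, none)
    | some j => x.2 j), ((fun j => x.1 (PUnit.unit, some j)), PUnit.unit))
  left_inv x := by
    refine Prod.ext ?_ rfl
    funext z
    rcases z with ⟨_, _ | j⟩ <;> rfl
  right_inv x := by
    refine Prod.ext ?_ rfl
    funext z
    rcases z with ⟨_, _ | j⟩ <;> rfl
  continuous_toFun := by
    refine (continuous_pi ?_).prodMk (continuous_pi fun j => (continuous_apply _).comp continuous_fst)
    rintro ⟨_, _ | j⟩
    · exact (continuous_apply _).comp continuous_fst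
    · exact (continuous_apply _).comp (continuous_fst.comp continuous_snd)
  continuous_invFun := by
    refine (continuous_pi ?_).prodMk ((continuous_pi fun j =>
      (continuous_apply _).comp continuous_fst).prodMk continuous_const)
    rintro ⟨_, _ | j⟩
    · exact (continuous_apply _).comp continuous_fst
    · exact (continuous_apply _).comp continuous_snd

variable (D) in
/-- representative of the inverse of `s` -/
def theta : D.Rep PUnit ((LC.cpow D.u).prod LC.point) (LC.cpow D.w) :=
  ((withBase (LC.cpow (PUnit × Option D.u)) (PUnit × Option D.a)).tens (LC.cpow D.w)).comp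
    (PMap.ofHomeo D.thH)

theorem theta_val (v : D.A PUnit) (y : (D.u → ℂ) × PUnit) : D.theta (v, y) =
    ((((D.thH (v, y)).1, GK.base (PUnit × Option D.a)), (D.thH (v, y)).2) :
      D.B PUnit × (D.w → ℂ)) := rfl

/-! ### First identity -/

/-- exchange of `(inr 1, some i)` with `i` -/
def eA (w a : Type) : Equiv.Perm (((a ⊕ PUnit) × Option w) ⊕ w) where
  toFun x := match x with
    | .inl (.inr _, some i) => .inr i
    | .inl (.inr u, none) => .inl (.inr u, none)
    | .inl (.inl j, o) => .inl (.inl j, o)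
    | .inr i => .inl (.inr PUnit.unit, some i)
  invFun x := match x with
    | .inl (.inr _, some i) => .inr i
    | .inl (.inr u, none) => .inl (.inr u, none)
    | .inl (.inl j, o) => .inl (.inl j, o)
    | .inr i => .inl (.inr PUnit.unit, some i)
  left_inv x := by rcases x with ⟨j | u, _ | i⟩ | i <;> rfl
  right_inv x := by rcases x with ⟨j | u, _ | i⟩ | i <;> rfl

/-- exchange of `(inl i, none)` with `(inr 1, some i)` -/
def eG (a : Type) : Equiv.Perm ((a ⊕ PUnit) × Option a) where
  toFun x := match x with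
    | (.inr _, some i) => (.inl i, none)
    | (.inr u, none) => (.inr u, none)
    | (.inl j, some o) => (.inl j, some o)
    | (.inl j, none) => (.inr PUnit.unit, some j)
  invFun x := match x with
    | (.inr _, some i) => (.inl i, none)
    | (.inr u, none) => (.inr u, none)
    | (.inl j, some o) => (.inl j, some o)
    | (.inl j, none) => (.inr PUnit.unit, some j)
  left_inv x := by rcases x with ⟨j | u, _ | i⟩ <;> rfl
  right_inv x := by rcases x with ⟨j | u, _ | i⟩ <;> rfl

variable (D) in
/-- permutation of the coordinates of the Grassmannian in the target -/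
def piB (ι : Type) [Fintype ι] (e : Equiv.Perm (ι × Option D.a)) : D.B ι ≃ₜ D.B ι :=
  (Homeomorph.refl (LC.cpow (ι × Option D.u))).prodCongr (GK.reindex e)

theorem piB_homotopic (ι : Type) [Fintype ι] (e : Equiv.Perm (ι × Option D.a)) :
    (PMap.ofHomeo (D.piB ι e)).Homotopic (PMap.id (D.B ι)) := by
  have h1 : PMap.ofHomeo (D.piB ι e) = (PMap.id (LC.cpow (ι × Option D.u))).box
    (PMap.ofHomeo (K := LC.G (ι × Option D.a)) (L := LC.G (ι × Option D.a)) (GK.reindex e)) := by
    ext x; rfl
  rw [h1, ← PMap.box_id]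
  exact PMap.Homotopic.box_right _ (rotG e)

theorem base_map {κ l : Type} [Fintype κ] [Fintype l] (f : κ → l) (hf : Function.Injective f)
    (x y : κ × Bool) : (GK.base l).1 (f x.1, x.2) (f y.1, y.2) = (GK.base κ).1 x y := by
  by_cases h : x = y
  · subst h
    exact (GK.base_eq (f x.1, x.2)).trans (GK.base_eq x).symm
  · refine (GK.base_ne fun h' => h ?_).trans (GK.base_ne h).symm
    exact Prod.ext (hf (Prod.ext_iff.1 h').1) (Prod.ext_iff.1 h').2

/-- the free slots -/
def phi (a : Type) (x : PUnit.{1} × Option a) : a ⊕ PUnit.{1} := match x.2 with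
  | none => .inr x.1
  | some i => .inl i

theorem phi_injective (a : Type) : Function.Injective (phi a) := by
  rintro ⟨x, _ | i⟩ ⟨y, _ | j⟩ h
  · rfl
  · exact absurd h (by intro h; exact Sum.inl_ne_inr h.symm)
  · exact absurd h (by intro h; exact Sum.inl_ne_inr h)
  · have : i = j := Sum.inl_injective h
    rw [this]

theorem sig_theta : D.sig.cmp D.theta =
    ((PMap.ofHomeo (D.piB (D.a ⊕ PUnit) (eG D.a))).tens (LC.cpow D.w)).comp
      (PMap.comp (Rep.ofMap (D.a ⊕ PUnit) (PMap.id (LC.cpow D.w)) : D.Rep _ _ _)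
        (PMap.ofHomeo (K := (D.A (D.a ⊕ PUnit)).prod (LC.cpow D.w))
          (L := (D.A (D.a ⊕ PUnit)).prod (LC.cpow D.w)) (exH (eA D.w D.a)))) := by
  ext ⟨v, k⟩
  rw [cmp_val, sig_val]
  obtain ⟨V, hV⟩ : ∃ V : D.A (D.a ⊕ PUnit), V = (fun x => match x with
      | (.inr _, some i) => k i
      | (.inr u, none) => v (.inr u, none)
      | (.inl j, o) => v (.inl j, o)) := ⟨_, rfl⟩
  have hsw : exH (eA D.w D.a) (v, k) = (V, fun i => v (.inr PUnit.unit, some i)) := by
    refine Prod.ext ?_ rfl
    rw [hV]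
    funext x
    rcases x with ⟨j | u, _ | i⟩ <;> rfl
  change _ = bnd ((Rep.ofMap (D.a ⊕ PUnit) (PMap.id (LC.cpow D.w)) : D.Rep _ _ _)
    (exH (eA D.w D.a) (v, k))) ((PMap.ofHomeo (D.piB (D.a ⊕ PUnit) (eG D.a))).tens (LC.cpow D.w))
  rw [hsw, ofMap_val, shat_eq]
  have hVr : (fun j => V (.inr PUnit.unit, some j)) = k := by rw [hV]
  have hVl : ∀ i, (fun j => V (.inl i, some j)) = fun j => v (.inl i, some j) := by
    intro i
    rw [hV]
  rcases hs : D.s k with _ | q
  · rw [D.shatG_none (D.a ⊕ PUnit) V _ (.inr PUnit.unit) (by rw [hVr]; exact hs)]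
    rfl
  · rcases D.shatG_cases D.a (D.splitA D.a PUnit v).1 with ⟨i, hi⟩ | ⟨y, hy⟩
    · rw [D.shatG_none (D.a ⊕ PUnit) V _ (.inl i) (by rw [hVl]; exact hi)]
      change bnd (bnd (D.shatG D.a ((D.splitA D.a PUnit v).1, q.2)) _) _ = _
      rw [D.shatG_none D.a _ _ i hi]
      rfl
    · rw [D.shatG_some (D.a ⊕ PUnit) V _ (Sum.elim y (fun _ => q)) (by
        rintro (i | i)
        · rw [hVl]
          exact hy i
        · rw [hVr]
          exact hs)]
      change bnd (bnd (D.shatG D.a ((D.splitA D.a PUnit v).1, q.2)) _) _ = _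
      rw [D.shatG_some D.a _ _ y hy]
      refine congrArg OnePoint.some (Prod.ext (Prod.ext ?_ ?_) rfl)
      · rw [hV]
        funext x
        rcases x with ⟨j | u, _ | i⟩ <;> rfl
      · refine GK.ext ?_
        rintro ⟨⟨j | u, _ | i⟩, b⟩ ⟨⟨j' | u', _ | i'⟩, b'⟩
        · exact (blockDiag_eq (fun i => (Sum.elim y (fun _ => q) i).2) (Sum.inr PUnit.unit)
            (j, b) (j', b')).symm
        · exact (blockDiag_ne (fun i => (Sum.elim y (fun _ => q) i).2) Sum.inr_ne_inl
            (j, b) (i', b')).symm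
        · rfl
        · rfl
        · exact (blockDiag_ne (fun i => (Sum.elim y (fun _ => q) i).2) Sum.inl_ne_inr
            (i, b) (j', b')).symm
        · by_cases hj : j = j'
          · subst hj
            exact (blockDiag_eq (fun i => (y i).2) j (i, b) (i', b')).trans
              (blockDiag_eq (fun i => (Sum.elim y (fun _ => q) i).2) (Sum.inl j)
                (i, b) (i', b')).symm
          · exact (blockDiag_ne (fun i => (y i).2) hj (i, b) (i', b')).trans
              (blockDiag_ne (fun i => (Sum.elim y (fun _ => q) i).2)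
                (fun h => hj (Sum.inl_injective h)) (i, b) (i', b')).symm
        · rfl
        · rfl
        · rfl
        · rfl
        · exact (base_map (phi D.a) (phi_injective D.a) ((u, none), b) ((u', none), b')).symm
        · exact (base_map (phi D.a) (phi_injective D.a) ((u, none), b) ((u', some i'), b')).symm
        · rfl
        · rfl
        · exact (base_map (phi D.a) (phi_injective D.a) ((u, some i), b) ((u', none), b')).symm
        · exact (base_map (phi D.a) (phi_injective D.a) ((u, some i), b) ((u', some i'), b')).symm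

/-! ### Second identity -/

/-- exchange of `(inl 1, some i)` with `i` -/
def eB (u a : Type) : Equiv.Perm (((PUnit.{1} ⊕ a) × Option u) ⊕ u) where
  toFun x := match x with
    | .inl (.inl _, some i) => .inr i
    | .inl (.inl u, none) => .inl (.inl u, none)
    | .inl (.inr j, o) => .inl (.inr j, o)
    | .inr i => .inl (.inl PUnit.unit, some i)
  invFun x := match x with
    | .inl (.inl _, some i) => .inr i
    | .inl (.inl u, none) => .inl (.inl u, none)
    | .inl (.inr j, o) => .inl (.inr j, o)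
    | .inr i => .inl (.inl PUnit.unit, some i)
  left_inv x := by rcases x with ⟨u | j, _ | i⟩ | i <;> rfl
  right_inv x := by rcases x with ⟨u | j, _ | i⟩ | i <;> rfl

/-- exchange of `(inr i, none)` with `(inl 1, some i)` -/
def eG' (a : Type) : Equiv.Perm ((PUnit.{1} ⊕ a) × Option a) where
  toFun x := match x with
    | (.inl _, some i) => (.inr i, none)
    | (.inl u, none) => (.inl u, none)
    | (.inr j, some o) => (.inr j, some o)
    | (.inr j, none) => (.inl PUnit.unit, some j)
  invFun x := match x with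
    | (.inl _, some i) => (.inr i, none)
    | (.inl u, none) => (.inl u, none)
    | (.inr j, some o) => (.inr j, some o)
    | (.inr j, none) => (.inl PUnit.unit, some j)
  left_inv x := by rcases x with ⟨u | j, _ | i⟩ <;> rfl
  right_inv x := by rcases x with ⟨u | j, _ | i⟩ <;> rfl

/-- the free slots -/
def phi' (a : Type) (x : PUnit.{1} × Option a) : PUnit.{1} ⊕ a := match x.2 with
  | none => .inl x.1
  | some i => .inr i

theorem phi'_injective (a : Type) : Function.Injective (phi' a) := by
  rintro ⟨x, _ | i⟩ ⟨y, _ | j⟩ h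
  · rfl
  · exact absurd h (by intro h; exact Sum.inl_ne_inr h)
  · exact absurd h (by intro h; exact Sum.inl_ne_inr h.symm)
  · have : i = j := Sum.inr_injective h
    rw [this]

/-- rearrangement -/
def midH (X P Y Q : LC) : (X.prod P).prod (Y.prod Q) ≃ₜ (X.prod Y).prod (P.prod Q) where
  toFun x := ((x.1.1, x.2.1), (x.1.2, x.2.2))
  invFun x := ((x.1.1, x.2.1), (x.1.2, x.2.2))
  left_inv _ := rfl
  right_inv _ := rfl
  continuous_toFun := by fun_prop
  continuous_invFun := by fun_prop

variable (D) in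
/-- exchange of coordinates in the target -/
def swB : (D.B (PUnit.{1} ⊕ D.a)).prod ((LC.cpow D.u).prod LC.point) ≃ₜ
    (D.B (PUnit.{1} ⊕ D.a)).prod ((LC.cpow D.u).prod LC.point) :=
  (midH (LC.cpow ((PUnit.{1} ⊕ D.a) × Option D.u)) (LC.G ((PUnit.{1} ⊕ D.a) × Option D.a))
    (LC.cpow D.u) LC.point).trans
  (((exH (eB D.u D.a)).prodCongr (Homeomorph.refl
    ((LC.G ((PUnit.{1} ⊕ D.a) × Option D.a)).prod LC.point))).trans
    (midH (LC.cpow ((PUnit.{1} ⊕ D.a) × Option D.u)) (LC.cpow D.u)
      (LC.G ((PUnit.{1} ⊕ D.a) × Option D.a)) LC.point))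

theorem swB_homotopic : (PMap.ofHomeo D.swB).Homotopic (PMap.id _) := by
  have h1 : PMap.ofHomeo D.swB = (PMap.ofHomeo (midH (LC.cpow ((PUnit.{1} ⊕ D.a) × Option D.u))
      (LC.cpow D.u) (LC.G ((PUnit.{1} ⊕ D.a) × Option D.a)) LC.point)).comp
      (((PMap.ofHomeo (exH (eB D.u D.a))).tens
        ((LC.G ((PUnit.{1} ⊕ D.a) × Option D.a)).prod LC.point)).comp
      (PMap.ofHomeo (midH (LC.cpow ((PUnit.{1} ⊕ D.a) × Option D.u))
        (LC.G ((PUnit.{1} ⊕ D.a) × Option D.a)) (LC.cpow D.u) LC.point))) := by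
    ext x; rfl
  have h2 : PMap.id ((D.B (PUnit.{1} ⊕ D.a)).prod ((LC.cpow D.u).prod LC.point)) =
      (PMap.ofHomeo (midH (LC.cpow ((PUnit.{1} ⊕ D.a) × Option D.u))
      (LC.cpow D.u) (LC.G ((PUnit.{1} ⊕ D.a) × Option D.a)) LC.point)).comp
      (((PMap.id ((LC.cpow ((PUnit.{1} ⊕ D.a) × Option D.u)).prod (LC.cpow D.u))).tens
        ((LC.G ((PUnit.{1} ⊕ D.a) × Option D.a)).prod LC.point)).comp
      (PMap.ofHomeo (midH (LC.cpow ((PUnit.{1} ⊕ D.a) × Option D.u))
        (LC.G ((PUnit.{1} ⊕ D.a) × Option D.a)) (LC.cpow D.u) LC.point))) := by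
    rw [PMap.tens, PMap.box_id, PMap.id_comp]
    ext x; rfl
  rw [h1, h2]
  exact PMap.Homotopic.comp_right _ (((exH_homotopic _).box_left _).comp_left _)

theorem theta_sig : D.theta.cmp D.sig =
    ((PMap.ofHomeo (D.piB (PUnit.{1} ⊕ D.a) (eG' D.a))).tens ((LC.cpow D.u).prod LC.point)).comp
      ((PMap.ofHomeo D.swB).comp
        (Rep.ofMap (PUnit.{1} ⊕ D.a) (PMap.id ((LC.cpow D.u).prod LC.point)) : D.Rep _ _ _)) := by
  ext ⟨v, yy⟩
  rw [cmp_val, theta_val, bnd_coe]
  change bnd (D.sig ((D.splitA PUnit.{1} D.a v).2, fun j => v (.inl PUnit.unit, some j))) _ =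
    bnd (bnd ((Rep.ofMap (PUnit.{1} ⊕ D.a) (PMap.id ((LC.cpow D.u).prod LC.point)) :
      D.Rep _ _ _) (v, yy)) (PMap.ofHomeo D.swB))
      ((PMap.ofHomeo (D.piB (PUnit.{1} ⊕ D.a) (eG' D.a))).tens ((LC.cpow D.u).prod LC.point))
  rw [ofMap_val, sig_val, shat_eq]
  rcases hs : D.s (fun j => v (.inl PUnit.unit, some j)) with _ | q
  · rw [D.shatG_none (PUnit.{1} ⊕ D.a) v _ (.inl PUnit.unit) hs]
    rfl
  · rcases D.shatG_cases D.a (D.splitA PUnit.{1} D.a v).2 with ⟨i, hi⟩ | ⟨y, hy⟩
    · rw [D.shatG_none (PUnit.{1} ⊕ D.a) v _ (.inr i) hi]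
      change bnd (bnd (D.shatG D.a ((D.splitA PUnit.{1} D.a v).2, q.2)) _) _ = _
      rw [D.shatG_none D.a _ _ i hi]
      rfl
    · rw [D.shatG_some (PUnit.{1} ⊕ D.a) v _ (Sum.elim (fun _ => q) y) (by
        rintro (i | i)
        · exact hs
        · exact hy i)]
      change bnd (bnd (D.shatG D.a ((D.splitA PUnit.{1} D.a v).2, q.2)) _) _ = _
      rw [D.shatG_some D.a _ _ y hy]
      refine congrArg OnePoint.some (Prod.ext (Prod.ext ?_ ?_) (Prod.ext ?_ rfl))
      · funext x
        rcases x with ⟨u | j, _ | i⟩ <;> rfl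
      · refine GK.ext ?_
        rintro ⟨⟨u | j, _ | i⟩, b⟩ ⟨⟨u' | j', _ | i'⟩, b'⟩
        · exact (base_map (phi' D.a) (phi'_injective D.a) ((u, none), b) ((u', none), b')).symm
        · exact (base_map (phi' D.a) (phi'_injective D.a) ((u, none), b) ((u', some i'), b')).symm
        · rfl
        · rfl
        · exact (base_map (phi' D.a) (phi'_injective D.a) ((u, some i), b) ((u', none), b')).symm
        · exact (base_map (phi' D.a) (phi'_injective D.a) ((u, some i), b)
            ((u', some i'), b')).symm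
        · rfl
        · rfl
        · rfl
        · rfl
        · exact (blockDiag_eq (fun i => (Sum.elim (fun _ => q) y i).2) (Sum.inl PUnit.unit)
            (j, b) (j', b')).symm
        · exact (blockDiag_ne (fun i => (Sum.elim (fun _ => q) y i).2) Sum.inl_ne_inr
            (j, b) (i', b')).symm
        · rfl
        · rfl
        · exact (blockDiag_ne (fun i => (Sum.elim (fun _ => q) y i).2) Sum.inr_ne_inl
            (i, b) (j', b')).symm
        · by_cases hj : j = j'
          · subst hj
            exact (blockDiag_eq (fun i => (y i).2) j (i, b) (i', b')).trans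
              (blockDiag_eq (fun i => (Sum.elim (fun _ => q) y i).2) (Sum.inr j)
                (i, b) (i', b')).symm
          · exact (blockDiag_ne (fun i => (y i).2) hj (i, b) (i', b')).trans
              (blockDiag_ne (fun i => (Sum.elim (fun _ => q) y i).2)
                (fun h => hj (Sum.inr_injective h)) (i, b) (i', b')).symm
      · rfl

variable (D) in
/-- the class of `s` -/
def S : D.Hom (LC.cpow D.w) ((LC.cpow D.u).prod LC.point) :=
  comp (D.J D.s) (ltens (LC.cpow D.u) (D.g D.a))

theorem S_eq : D.S = cls D.sig := by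
  unfold S g sig
  rw [ltens_cls, J_comp_cls]

theorem S_theta : comp D.S (cls D.theta) = D.J (PMap.id (LC.cpow D.w)) := by
  rw [S_eq, comp_cls, sig_theta, J_eq (D.a ⊕ PUnit)]
  refine cls_homotopic ?_
  have h1 := ((piB_homotopic (D := D) (D.a ⊕ PUnit) (eG D.a)).box_left
    (PMap.id (LC.cpow D.w))).comp (PMap.Homotopic.comp_right
      (Rep.ofMap (D.a ⊕ PUnit) (PMap.id (LC.cpow D.w)) : D.Rep _ _ _)
      (exH_homotopic (eA D.w D.a)))
  rw [PMap.box_id, PMap.id_comp] at h1
  exact h1

theorem theta_S : comp (cls D.theta) D.S = D.J (PMap.id ((LC.cpow D.u).prod LC.point)) := by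
  rw [S_eq, comp_cls, theta_sig, J_eq (PUnit.{1} ⊕ D.a)]
  refine cls_homotopic ?_
  have h1 := ((piB_homotopic (D := D) (PUnit.{1} ⊕ D.a) (eG' D.a)).box_left
    (PMap.id ((LC.cpow D.u).prod LC.point))).comp ((swB_homotopic (D := D)).comp_left
      (Rep.ofMap (PUnit.{1} ⊕ D.a) (PMap.id ((LC.cpow D.u).prod LC.point)) : D.Rep _ _ _))
  rw [PMap.box_id, PMap.id_comp, PMap.id_comp] at h1
  exact h1

/-! ## The theory -/

variable (D) in
/-- the data -/
def bivData : BivData where
  Hom := D.Hom
  grp := fun K L => instGrp K L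
  J := D.J
  comp := comp
  tens := tens

variable (D) in
/-- the theory -/
def biv : Biv where
  toBivData := D.bivData
  J_homotopic := J_homotopic
  J_comp := J_comp
  J_zero := J_zero
  id_comp := id_comp
  comp_id := comp_id
  assoc := assoc
  add_comp := add_comp
  comp_add := comp_add
  tens_add := tens_add
  tens_comp := tens_comp
  tens_J := tens_J
  tens_tens := htens_tens
  tens_point := htens_point
  exch := exch
  susp := susp
  mv1 := mv1
  mv2 := mv2
  mv3 := mv3

variable (D) in
/-- the theory over `S[BU]` -/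
def gbiv : GBiv where
  toBiv := D.biv
  g := D.g
  g_base := g_base
  g_reindex := g_reindex
  g_sum := g_sum

variable (D) in
/-- the localised theory -/
def locTheory : LocTheory D where
  toGBiv := D.gbiv
  cls := cls
  cls_homotopic := cls_homotopic
  cls_surj := by
    intro K Z x N
    obtain ⟨n, f, rfl⟩ := exists_cls (D := D) (K := K) (Z := Z) x
    refine ⟨n + N, Nat.le_add_left _ _, (f.stab (Fin N)).re finSumFinEquiv, ?_⟩
    rw [cls_re, cls_stab]
  cls_eq := cls_eq_same
  cls_stab := cls_stab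
  cls_re := by intro ι κ _ _ e K Z f; exact cls_re e f
  cls_zero := fun ι _ K Z => (cls_zero ι K Z).trans (zero_eq K Z).symm
  J_eq := fun ι _ f => J_eq ι f
  comp_cls := comp_cls
  tens_cls := tens_cls
  g_eq := fun ι _ => rfl
  s_inv := ⟨cls D.theta, theta_S, S_theta⟩

end Datum

/-- The theories exist. -/
theorem exists_locTheory' (D : Datum) : Nonempty (LocTheory D) := ⟨D.locTheory⟩

end Pool.Agent.Helper1.Stab
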