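import Pool.Agent.Helper68.Stab.TopA
import Pool.Agent.Helper56.BSU.Shift

/-! The graded functors of suspensions and desuspensions. -/

open CategoryTheory Topology Filter Set Opposite

noncomputable section

namespace Pool.Agent.Helper1.Stab

/-- additivity from naturality after suspension -/
theorem ASeq.add_of_nat {S S' : ASeq} {n n' : ℕ} {K : LC} (θ : S.F (n + 1) ⟶ S'.F (n' + 1))
    (f : S.G n K → S'.G n' K)
    (h : ∀ x, S'.sg n' (f x) = (θ.app (op (LC.C.prod K)) (S.sg n x) : S'.G (n' + 1) (LC.C.prod K)))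
    (x y : S.G n K) : f (x + y) = f x + f y := by
  apply S'.sg_inj
  rw [h, S.sg_add, S'.sg_add, h, h]
  exact IsAddFun.add_nat (S.add (n + 1)) (S'.add (n' + 1)) θ (K := K) _ _

namespace Th

/-- the identification `X.upp (b+1) = X.up.up.upp b` -/
def eU (X : Prespectrum) : ∀ b, X.upp (b + 1) ⟶ X.up.up.upp b
  | 0 => 𝟙 _
  | b + 1 => upup (eU X b)

/-- the inverse identification -/
def eU' (X : Prespectrum) : ∀ b, X.up.up.upp b ⟶ X.upp (b + 1)
  | 0 => 𝟙 _
  | b + 1 => upup (eU' X b)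

theorem upup_comp {X Y Z : Prespectrum} (φ : X ⟶ Y) (ψ : Y ⟶ Z) :
    upup (φ ≫ ψ) = upup φ ≫ upup ψ := rfl

theorem upup_id (X : Prespectrum) : upup (𝟙 X) = 𝟙 X.up.up := rfl

theorem eU_eU' (X : Prespectrum) (b : ℕ) : eU X b ≫ eU' X b = 𝟙 _ := by
  induction b with
  | zero => exact Category.id_comp _
  | succ b ih =>
    change upup (eU X b) ≫ upup (eU' X b) = _
    rw [← upup_comp, ih]
    rfl

theorem eU'_eU (X : Prespectrum) (b : ℕ) : eU' X b ≫ eU X b = 𝟙 _ := by
  induction b with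
  | zero => exact Category.id_comp _
  | succ b ih =>
    change upup (eU' X b) ≫ upup (eU X b) = _
    rw [← upup_comp, ih]
    rfl

theorem eU_nat {X Y : Prespectrum} (w : X ⟶ Y) (b : ℕ) :
    eU X b ≫ Prespectrum.Hom.uppMap (upup w) b =
      Prespectrum.Hom.uppMap w (b + 1) ≫ eU Y b := by
  induction b with
  | zero =>
    change 𝟙 _ ≫ upup w = upup w ≫ 𝟙 _
    rw [Category.id_comp, Category.comp_id]
  | succ b ih =>
    change upup (eU X b) ≫ upup (Prespectrum.Hom.uppMap (upup w) b) =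
      upup (Prespectrum.Hom.uppMap w (b + 1)) ≫ upup (eU Y b)
    rw [← upup_comp, ← upup_comp, ih]

theorem psh_comp {X Y Z : Prespectrum} {K : LC} (φ : X ⟶ Y) (ψ : Y ⟶ Z) (x : CH X K) :
    psh (φ ≫ ψ) x = psh ψ (psh φ x) := by
  induction x using cls_ind with | _ n f =>
  rfl

theorem psh_id {X : Prespectrum} {K : LC} (x : CH X K) : psh (𝟙 X) x = x := by
  induction x using cls_ind with | _ n f =>
  rfl

/-- the comparison on groups -/
def um (X : Prespectrum) (b : ℕ) {K : LC} (x : GG X (b + 1) K) : GG X.up.up b K :=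
  (psh (eU X b) (x : CH (X.upp (b + 1)) K) : CH (X.up.up.upp b) K)

theorem um_rs (X : Prespectrum) (b : ℕ) {K L : LC} (ψ : PMap K L.plus) (x : GG X (b + 1) L) :
    um X b ((seq X).rs (b + 1) ψ x) = (seq X.up.up).rs b ψ (um X b x) :=
  IsAddFun.pb_nat (pshN (eU X b)) ψ x

theorem um_sg (X : Prespectrum) (b : ℕ) {K : LC} (x : GG X (b + 1) K) :
    (seq X.up.up).sg b (um X b x) = um X (b + 1) ((seq X).sg (b + 1) x) :=
  (psh_T (eU X b) x).symm

theorem um_add (X : Prespectrum) (b : ℕ) {K : LC} (x y : GG X (b + 1) K) :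
    um X b (x + y) = um X b x + um X b y :=
  ASeq.add_of_nat (S := seq X) (S' := seq X.up.up) (n := b + 1) (n' := b)
    (pshN (eU X (b + 1))) (um X b) (um_sg X b) x y

theorem um_bijective (X : Prespectrum) (b : ℕ) (K : LC) :
    Function.Bijective (um X b : GG X (b + 1) K → GG X.up.up b K) := by
  refine Function.bijective_iff_has_inverse.2
    ⟨fun y => (psh (eU' X b) (y : CH (X.up.up.upp b) K) : CH (X.upp (b + 1)) K), fun x => ?_,
      fun y => ?_⟩
  · change psh (eU' X b) (psh (eU X b) _) = _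
    rw [← psh_comp, eU_eU', psh_id]
  · change psh (eU X b) (psh (eU' X b) _) = _
    rw [← psh_comp, eU'_eU, psh_id]

/-- the comparison -/
def umG (X : Prespectrum) : (hP.obj X).shift ⟶ hP.obj X.up.up :=
  GF.Hom.mk' (fun b =>
    { app := fun K => AddCommGrpCat.ofHom (AddMonoidHom.mk' (fun x : GG X (b + 1) K.unop.obj =>
        (um X b x : GG X.up.up b K.unop.obj)) (um_add X b))
      naturality := by
        intro K L f
        ext x
        obtain ⟨f⟩ := f
        obtain ⟨f⟩ := f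
        induction f using HMap.ind with | h ψ =>
        exact um_rs X b ψ x }) (by
    intro b K
    ext x
    exact (um_sg X b x).symm)

instance isIso_umG (X : Prespectrum) : IsIso (umG X) :=
  GF.isIso_of_at _ fun b K => um_bijective X b K.obj

/-- the comparison as an isomorphism -/
def umI (X : Prespectrum) : (hP.obj X).shift ≅ hP.obj X.up.up :=
  @asIso _ _ _ _ (umG X) (isIso_umG X)

theorem umG_nat {X Y : Prespectrum} (w : X ⟶ Y) :
    GF.shiftF.map (hP.map w) ≫ umG Y = umG X ≫ hP.map (upup w) := by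
  refine GF.hom_ext fun b => ?_
  ext K x
  change psh (eU Y b) (psh (uppMap w (b + 1)) _) = psh (uppMap (upup w) b) (psh (eU X b) _)
  rw [← psh_comp, ← psh_comp, eU_nat]

end Th

/-- (I4-f) double suspensions -/
theorem hP_up2 : Nonempty ((upF ⋙ upF) ⋙ hP ≅ hP ⋙ GF.shiftF) :=
  ⟨(NatIso.ofComponents (fun X => Th.umI X) fun {X Y} w => Th.umG_nat w).symm⟩

/-- up after down -/
def downUp2 : (downF ⋙ downF) ⋙ (upF ⋙ upF) ≅ 𝟭 Prespectrum :=
  NatIso.ofComponents (fun X => Iso.refl X) (by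
    intro X Y f
    change _ ≫ 𝟙 Y = 𝟙 X ≫ f
    rw [Category.comp_id, Category.id_comp]
    rfl)

/-- (I4-f) double desuspensions -/
theorem hP_down2 : Nonempty ((downF ⋙ downF) ⋙ hP ≅ hP ⋙ GF.unshiftF) := by
  obtain ⟨e⟩ := hP_up2
  have e1 : (downF ⋙ downF) ⋙ hP ≅ ((downF ⋙ downF) ⋙ hP) ⋙ (GF.shiftF ⋙ GF.unshiftF) :=
    (Functor.rightUnitor _).symm ≪≫ Functor.isoWhiskerLeft _ (asIso GF.η)
  have e2 : ((downF ⋙ downF) ⋙ hP) ⋙ (GF.shiftF ⋙ GF.unshiftF) ≅
      ((downF ⋙ downF) ⋙ ((upF ⋙ upF) ⋙ hP)) ⋙ GF.unshiftF :=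
    Functor.isoWhiskerRight (Functor.isoWhiskerLeft (downF ⋙ downF) e.symm) GF.unshiftF
  have e3 : ((downF ⋙ downF) ⋙ ((upF ⋙ upF) ⋙ hP)) ⋙ GF.unshiftF ≅ hP ⋙ GF.unshiftF :=
    Functor.isoWhiskerRight (Functor.isoWhiskerRight downUp2 hP ≪≫ Functor.leftUnitor hP)
      GF.unshiftF
  exact ⟨e1 ≪≫ e2 ≪≫ e3⟩

/-- (I4-f) -/
theorem up_down (X : Prespectrum) : stableEquiv X.upDown := by
  intro a b
  have h : ∀ {F G : ℕ ⥤ AddCommGrpCat.{0}} (α : F ⟶ G), (∀ i, IsIso (α.app i)) →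
      IsIso (Limits.colimMap α) := by
    intro F G α hα
    have : IsIso α := NatIso.isIso_of_isIso_app _
    refine ⟨Limits.colimMap (inv α), ?_, ?_⟩
    · exact (colimMap_comp' (𝟙 F) α (inv α) (fun j => by
        rw [← NatTrans.comp_app, IsIso.hom_inv_id])).symm.trans (colimMap_id' _ fun j => rfl)
    · exact (colimMap_comp' (𝟙 G) (inv α) α (fun j => by
        rw [← NatTrans.comp_app, IsIso.inv_hom_id])).symm.trans (colimMap_id' _ fun j => rfl)
  refine h _ fun i => ?_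
  have h1 : ∀ i, Prespectrum.Hom.piGrpMap X.upDown (a + i) (b + i + 2) = 𝟙 (X.piGrp (a + i) (b + i + 2)) := by
    intro i
    ext x
    obtain ⟨g⟩ := x
    rfl
  change IsIso (Prespectrum.Hom.piGrpMap X.upDown (a + i) (b + i + 2))
  rw [h1]
  exact IsIso.id _

end Pool.Agent.Helper1.Stab
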