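import Pool.Agent.Helper68.Stab.TopA

/-! Wedges of prespectra with T₁ spaces (I4-e). -/

open CategoryTheory Topology Filter Set Opposite

noncomputable section

namespace Pool.Agent.Helper1.Stab

/-! ## Sums -/

/-- `A` is the sum of the `X i`: every value at a test space is the direct sum. -/
structure IsSum {ι : Type} (X : ι → GF) (A : GF) where
  inj : ∀ i, X i ⟶ A
  pr : ∀ i, A ⟶ X i
  inj_pr : ∀ i, inj i ≫ pr i = 𝟙 _
  inj_pr_ne : ∀ i j, i ≠ j → inj i ≫ pr j = 0
  fin : ∀ (b : ℕ) (K : Test) (x : (A.h b).obj (op K)), ∃ F : Finset ι,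
    x = ∑ i ∈ F, (GF.ev b K).map (pr i ≫ inj i) x

namespace Wg

/-! ## Sums of maps with disjoint supports -/

open Classical in
/-- the collapse onto the disjoint union of two disjoint open sets, as a function -/
def splitFun {X : Type} (s t : Set X) (k : X) : OnePoint (s ⊕ t) :=
  if hk : k ∈ s then ((Sum.inl ⟨k, hk⟩ : s ⊕ t) : OnePoint (s ⊕ t)) else
    if hk : k ∈ t then ((Sum.inr ⟨k, hk⟩ : s ⊕ t) : OnePoint (s ⊕ t)) else OnePoint.infty

theorem splitFun_left {X : Type} {s t : Set X} (k : s) :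
    splitFun s t (k : X) = ((Sum.inl k : s ⊕ t) : OnePoint (s ⊕ t)) := dif_pos k.2

theorem splitFun_right {X : Type} {s t : Set X} (h : Disjoint s t) (k : t) :
    splitFun s t (k : X) = ((Sum.inr k : s ⊕ t) : OnePoint (s ⊕ t)) :=
  (dif_neg fun hk => Set.disjoint_left.1 h hk k.2).trans (dif_pos k.2)

theorem splitFun_none {X : Type} {s t : Set X} {k : X} (hs : k ∉ s) (ht : k ∉ t) :
    splitFun s t k = OnePoint.infty := (dif_neg hs).trans (dif_neg ht)

/-- the underlying point -/
def valS {X : Type} {s t : Set X} (l : s ⊕ t) : X := Sum.elim Subtype.val Subtype.val l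

theorem splitFun_val {X : Type} {s t : Set X} (h : Disjoint s t) (l : s ⊕ t) :
    splitFun s t (valS l) = (l : OnePoint (s ⊕ t)) := by
  rcases l with l | l
  · exact splitFun_left l
  · exact splitFun_right h l

theorem splitFun_eq_coe {X : Type} {s t : Set X} {k : X} {l : s ⊕ t}
    (h : splitFun s t k = (l : OnePoint (s ⊕ t))) : k = valS l := by
  unfold splitFun at h
  split_ifs at h with h1 h2
  · rw [← OnePoint.coe_injective h]; rfl
  · rw [← OnePoint.coe_injective h]; rfl
  · exact absurd h (OnePoint.infty_ne_coe l)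

theorem splitFun_set {X : Type} {s t : Set X} (h : Disjoint s t) (V : Set (s ⊕ t)) :
    {k | ∃ l ∈ V, splitFun s t k = (l : OnePoint (s ⊕ t))} = valS '' V := by
  ext k
  constructor
  · rintro ⟨l, hl, hk⟩
    exact ⟨l, hl, (splitFun_eq_coe hk).symm⟩
  · rintro ⟨l, hl, rfl⟩
    exact ⟨l, hl, splitFun_val h l⟩

/-- the collapse onto the disjoint union of two disjoint open sets -/
def split {K : LC} (s t : Set K) (hs : IsOpen s) (ht : IsOpen t) (h : Disjoint s t) :
    PMap K ((K.opn s hs).sum (K.opn t ht)).plus :=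
  PMap.mk' (K := K) (L := (K.opn s hs).sum (K.opn t ht)) (splitFun s t)
    (by
      intro V hV
      have h1 := splitFun_set h V
      refine h1 ▸ ?_
      have h2 : valS '' V = Subtype.val '' (Sum.inl ⁻¹' V : Set s) ∪
          Subtype.val '' (Sum.inr ⁻¹' V : Set t) := by
        ext k
        constructor
        · rintro ⟨l | l, hl, rfl⟩
          · exact Or.inl ⟨l, hl, rfl⟩
          · exact Or.inr ⟨l, hl, rfl⟩
        · rintro (⟨l, hl, rfl⟩ | ⟨l, hl, rfl⟩)
          · exact ⟨Sum.inl l, hl, rfl⟩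
          · exact ⟨Sum.inr l, hl, rfl⟩
      rw [h2]
      exact (hs.isOpenMap_subtype_val _ (hV.preimage continuous_inl)).union
        (ht.isOpenMap_subtype_val _ (hV.preimage continuous_inr)))
    (by
      intro C hC
      have h1 := splitFun_set h C
      refine h1 ▸ ?_
      exact hC.image (continuous_subtype_val.sumElim continuous_subtype_val))

variable {Y : Prespectrum} {K : LC}

theorem pair_add (b : ℕ) {L M : LC} (f : (Y.upp b).Rep 0 L) (g : (Y.upp b).Rep 0 M) :
    Th.cl (Th.pair f g) = Th.cl (Th.pair f (PMap.zero _ _)) +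
      Th.cl (Th.pair (PMap.zero _ _) g) := by
  have key : ∀ x y : Th.GG Y b (L.sum M),
      (Th.seq Y).rs b (PMap.inl L M) x = (Th.seq Y).rs b (PMap.inl L M) y →
      (Th.seq Y).rs b (PMap.inr L M) x = (Th.seq Y).rs b (PMap.inr L M) y → x = y :=
    fun x y h1 h2 => ((Th.seq Y).add b).pair_ext h1 h2
  apply key
  · rw [(Th.seq Y).rs_add, Th.rs_cl, Th.rs_cl, Th.rs_cl, Th.pre_inl_pair, Th.pre_inl_pair,
      Th.pre_inl_pair, Th.cl_zero, add_zero]
  · rw [(Th.seq Y).rs_add, Th.rs_cl, Th.rs_cl, Th.rs_cl, Th.pre_inr_pair, Th.pre_inr_pair,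
      Th.pre_inr_pair, Th.cl_zero, zero_add]

/-- restriction of a representative to an open set outside of which it vanishes -/
def restr {Z : PT} (s : Set K) (hs : IsOpen s) (f : PMap ((LC.cpow (Fin 0)).prod K) Z)
    (h : ∀ x : (Fin 0 → ℂ) × K, x.2 ∉ s → f x = Z.pt) :
    PMap ((LC.cpow (Fin 0)).prod (K.opn s hs)) Z :=
  PMap.ofEmb (P := OnePoint ((LC.cpow (Fin 0)).prod K))
    (fun x => (((x.1, x.2.1) : (LC.cpow (Fin 0)).prod K) : OnePoint ((LC.cpow (Fin 0)).prod K)))
    (OnePoint.isOpenEmbedding_coe.isEmbedding.comp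
      (IsEmbedding.id.prodMap IsEmbedding.subtypeVal)) f.plus f.continuous_plus (by
    intro p hp
    induction p using OnePoint.rec with
    | infty => rfl
    | coe x =>
      by_cases hx : x.2 ∈ s
      · exact absurd ⟨(x.1, ⟨x.2, hx⟩), rfl⟩ hp
      · exact h x hx)

theorem restr_apply {Z : PT} (s : Set K) (hs : IsOpen s) (f : PMap ((LC.cpow (Fin 0)).prod K) Z)
    (h : ∀ x : (Fin 0 → ℂ) × K, x.2 ∉ s → f x = Z.pt) (v : Fin 0 → ℂ) (k : s) :
    restr s hs f h (v, k) = f (v, k.1) := rfl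

/-- sums of maps with disjoint supports, stage zero -/
theorem cl_add_zero (b : ℕ) (hcl : IsClosed ({((Y.upp b).sp (2 * 0)).pt} : Set _))
    (f g h : (Y.upp b).Rep 0 K)
    (h1 : ∀ x, (f x = ((Y.upp b).sp (2 * 0)).pt ∧ h x = g x) ∨
      (g x = ((Y.upp b).sp (2 * 0)).pt ∧ h x = f x)) :
    Th.cl h = Th.cl f + Th.cl g := by
  have e0 : ∀ x : (LC.cpow (Fin 0)).prod K, x = ((fun i => i.elim0), x.2) := fun x =>
    Prod.ext (funext fun i => i.elim0) rfl
  have hemb : Continuous fun k : K => ((fun i => i.elim0, k) : (LC.cpow (Fin 0)).prod K) := by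
    fun_prop
  let s : Set K := {k | f (fun i => i.elim0, k) ≠ ((Y.upp b).sp (2 * 0)).pt}
  let t : Set K := {k | g (fun i => i.elim0, k) ≠ ((Y.upp b).sp (2 * 0)).pt}
  have hs : IsOpen s := hcl.isOpen_compl.preimage (f.cont.comp hemb)
  have ht : IsOpen t := hcl.isOpen_compl.preimage (g.cont.comp hemb)
  have hf : ∀ x : (Fin 0 → ℂ) × K, x.2 ∉ s → f x = ((Y.upp b).sp (2 * 0)).pt := by
    intro x hx
    rw [e0 x]
    by_contra h2
    exact hx h2
  have hg : ∀ x : (Fin 0 → ℂ) × K, x.2 ∉ t → g x = ((Y.upp b).sp (2 * 0)).pt := by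
    intro x hx
    rw [e0 x]
    by_contra h2
    exact hx h2
  have hst : Disjoint s t := by
    rw [Set.disjoint_left]
    intro k hk hk'
    rcases h1 (fun i => i.elim0, k) with h2 | h2
    · exact hk h2.1
    · exact hk' h2.1
  let f' : (Y.upp b).Rep 0 (K.opn s hs) := restr s hs f hf
  let g' : (Y.upp b).Rep 0 (K.opn t ht) := restr t ht g hg
  let d := split s t hs ht hst
  have hd : ∀ (F : (Y.upp b).Rep 0 ((K.opn s hs).sum (K.opn t ht))) (v : Fin 0 → ℂ) (k : K),
      Th.pre d F (v, k) = PMap.plus F (smashPt (LC.cpow (Fin 0)) ((K.opn s hs).sum (K.opn t ht))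
        ((v : OnePoint (Fin 0 → ℂ)), splitFun s t k)) := fun _ _ _ => rfl
  have key : ∀ (F : (Y.upp b).Rep 0 ((K.opn s hs).sum (K.opn t ht))) (G : (Y.upp b).Rep 0 K),
      (∀ (v : Fin 0 → ℂ) (k : s), F (v, (Sum.inl k : s ⊕ t)) = G (v, k.1)) →
      (∀ (v : Fin 0 → ℂ) (k : t), F (v, (Sum.inr k : s ⊕ t)) = G (v, k.1)) →
      (∀ (v : Fin 0 → ℂ) (k : K), k ∉ s → k ∉ t → G (v, k) = ((Y.upp b).sp (2 * 0)).pt) →
      Th.pre d F = G := by
    intro F G hF1 hF2 hF3
    ext ⟨v, k⟩
    rw [hd]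
    by_cases hk : k ∈ s
    · have h2 := splitFun_left (t := t) (⟨k, hk⟩ : s)
      simp only at h2
      rw [h2]
      exact hF1 v ⟨k, hk⟩
    · by_cases hk' : k ∈ t
      · have h2 := splitFun_right hst (⟨k, hk'⟩ : t)
        simp only at h2
        rw [h2]
        exact hF2 v ⟨k, hk'⟩
      · rw [splitFun_none hk hk']
        exact (hF3 v k hk hk').symm
  have hnt : ∀ k : K, k ∈ s → k ∉ t := fun k hk hk' => Set.disjoint_left.1 hst hk hk'
  have e1 : Th.pre d (Th.pair f' g') = h := by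
    refine key _ _ (fun v k => ?_) (fun v k => ?_) (fun v k hk hk' => ?_)
    · change f (v, k.1) = h (v, k.1)
      rcases h1 (v, k.1) with h2 | h2
      · exfalso
        apply k.2
        have := h2.1
        rw [e0 (v, k.1)] at this
        exact this
      · exact h2.2.symm
    · change g (v, k.1) = h (v, k.1)
      rcases h1 (v, k.1) with h2 | h2
      · exact h2.2.symm
      · exfalso
        apply k.2
        have := h2.1
        rw [e0 (v, k.1)] at this
        exact this
    · rcases h1 (v, k) with h2 | h2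
      · rw [h2.2]; exact hg (v, k) hk'
      · rw [h2.2]; exact hf (v, k) hk
  have e2 : Th.pre d (Th.pair f' (PMap.zero _ _)) = f := by
    refine key _ _ (fun v k => ?_) (fun v k => ?_) (fun v k hk hk' => ?_)
    · rfl
    · exact (hf (v, k.1) fun h2 => hnt _ h2 k.2).symm
    · exact hf (v, k) hk
  have e3 : Th.pre d (Th.pair (PMap.zero _ _) g') = g := by
    refine key _ _ (fun v k => ?_) (fun v k => ?_) (fun v k hk hk' => ?_)
    · exact (hg (v, k.1) (hnt _ k.2)).symm
    · rfl
    · exact hg (v, k) hk'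
  have h5 := congrArg ((Th.seq Y).rs b d) (pair_add b f' g')
  rw [(Th.seq Y).rs_add, Th.rs_cl, Th.rs_cl, Th.rs_cl, e1, e2, e3] at h5
  exact h5

/-- sums of maps with disjoint supports -/
theorem cl_add_of_disjoint (hcl : ∀ b n, IsClosed ({((Y.upp b).sp n).pt} : Set _)) (j : ℕ) :
    ∀ (b : ℕ) (K : LC) (f g h : (Y.upp b).Rep j K),
    (∀ x, (f x = ((Y.upp b).sp (2 * j)).pt ∧ h x = g x) ∨
      (g x = ((Y.upp b).sp (2 * j)).pt ∧ h x = f x)) →
    Th.cl h = Th.cl f + Th.cl g := by
  induction j with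
  | zero => exact fun b K f g h h1 => cl_add_zero b (hcl b _) f g h h1
  | succ j ih =>
    intro b K f g h h1
    apply (Th.seq Y).sg_inj
    rw [(Th.seq Y).sg_add', Th.sg_cl, Th.sg_cl, Th.sg_cl]
    refine ih (b + 1) _ _ _ _ ?_
    rintro ⟨v, z, k⟩
    exact h1 _

/-! ## Maps of wedges -/

/-- the constant map of prespectra -/
def zeroH (X Y : Prespectrum) : X ⟶ Y where
  map n := ContinuousMap.const _ (Y.sp n).pt
  map_pt _ := rfl
  map_str n t _ := (Y.str_pt n t).symm

variable {ι : Type} (X : ι → Prespectrum)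

/-- the inclusion of a summand -/
def inc (i : ι) : X i ⟶ wedge X where
  map n := ⟨fun x => Quot.mk (WedgeRel fun i => (X i).sp n) (Sum.inr ⟨i, x⟩),
    continuous_quot_mk.comp (continuous_inr.comp continuous_sigmaMk)⟩
  map_pt n := (Quot.sound (WedgeRel.base (X := fun i => (X i).sp n) i)).symm
  map_str _ _ _ := rfl

/-- the map out of a wedge with given components -/
def desc {Y : Prespectrum} (f : ∀ i, X i ⟶ Y) : wedge X ⟶ Y where
  map n := ⟨Quot.lift (Sum.elim (fun _ => (Y.sp n).pt)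
      (fun x : Σ i, (X i).sp n => Prespectrum.Hom.map (f x.1) n x.2)) (by
        rintro _ _ ⟨i⟩
        exact (Prespectrum.Hom.map_pt (f i) n).symm), by
      refine continuous_quot_lift _ ?_
      refine Continuous.sumElim continuous_const ?_
      exact continuous_sigma fun i => (Prespectrum.Hom.map (f i) n).continuous⟩
  map_pt n := rfl
  map_str n t x := by
    induction x using Quot.ind with | _ x => ?_
    rcases x with _ | ⟨i, x⟩
    · exact (Y.str_pt n t).symm
    · exact Prespectrum.Hom.map_str (f i) n t x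

theorem inc_desc {Y : Prespectrum} (f : ∀ i, X i ⟶ Y) (i : ι) : inc X i ≫ desc X f = f i := by
  refine Prespectrum.Hom.ext (funext fun n => ?_)
  rfl

open Classical in
/-- the projection to a summand -/
def proj (i : ι) : wedge X ⟶ X i :=
  desc X fun j => if h : j = i then eqToHom (congrArg X h) else zeroH _ _

open Classical in
/-- the projection to the summands in a set -/
def eS (S : Set ι) : wedge X ⟶ wedge X :=
  desc X fun i => if i ∈ S then inc X i else zeroH _ _

theorem inc_proj (i : ι) : inc X i ≫ proj X i = 𝟙 _ := by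
  unfold proj
  rw [inc_desc, dif_pos rfl]
  rfl

theorem inc_proj_ne {i j : ι} (h : i ≠ j) : inc X i ≫ proj X j = zeroH _ _ := by
  unfold proj
  rw [inc_desc, dif_neg h]

theorem hom_ext {Y : Prespectrum} {f g : wedge X ⟶ Y} (h : ∀ i, inc X i ≫ f = inc X i ≫ g) :
    f = g := by
  refine Prespectrum.Hom.ext (funext fun n => ?_)
  ext x
  induction x using Quot.ind with | _ x => ?_
  rcases x with _ | ⟨i, x⟩
  · exact (Prespectrum.Hom.map_pt f n).trans (Prespectrum.Hom.map_pt g n).symm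
  · have h1 := congrArg (fun φ : X i ⟶ Y => Prespectrum.Hom.map φ n x) (h i)
    exact h1

theorem zeroH_comp {X Y Z : Prespectrum} (f : Y ⟶ Z) : zeroH X Y ≫ f = zeroH X Z := by
  refine Prespectrum.Hom.ext (funext fun n => ?_)
  ext x
  exact Prespectrum.Hom.map_pt f n

theorem proj_inc (i : ι) : proj X i ≫ inc X i = eS X {i} := by
  refine hom_ext X fun j => ?_
  rw [← Category.assoc]
  by_cases h : j = i
  · subst h
    rw [inc_proj, Category.id_comp]
    unfold eS
    rw [inc_desc, if_pos (Set.mem_singleton j)]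
  · rw [inc_proj_ne X h, zeroH_comp]
    unfold eS
    rw [inc_desc, if_neg (fun h' => h (Set.mem_singleton_iff.1 h'))]

theorem eS_mem {S : Set ι} {i : ι} (hi : i ∈ S) (n : ℕ) (x : (X i).sp n) :
    Prespectrum.Hom.map (eS X S) n (Quot.mk _ (Sum.inr ⟨i, x⟩)) = Quot.mk _ (Sum.inr ⟨i, x⟩) := by
  have h1 : inc X i ≫ eS X S = inc X i := by
    unfold eS
    rw [inc_desc, if_pos hi]
  exact congrArg (fun φ : X i ⟶ wedge X => Prespectrum.Hom.map φ n x) h1

theorem eS_notMem {S : Set ι} {i : ι} (hi : i ∉ S) (n : ℕ) (x : (X i).sp n) :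
    Prespectrum.Hom.map (eS X S) n (Quot.mk _ (Sum.inr ⟨i, x⟩)) = ((wedge X).sp n).pt := by
  have h1 : inc X i ≫ eS X S = zeroH _ _ := by
    unfold eS
    rw [inc_desc, if_neg hi]
  exact congrArg (fun φ : X i ⟶ wedge X => Prespectrum.Hom.map φ n x) h1

/-! ## The maps `e_S` on the shifts of the wedge -/

/-- a family of maps that behaves like the projections to summands of a wedge -/
def PP {ι : Type} {Y : Prespectrum} (e : Set ι → (Y ⟶ Y)) : Prop :=
  ∀ (n : ℕ) (y : Y.sp n), y = (Y.sp n).pt ∨ ∃ i, ∀ S, (i ∈ S → Prespectrum.Hom.map (e S) n y = y) ∧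
    (i ∉ S → Prespectrum.Hom.map (e S) n y = (Y.sp n).pt)

/-- compact sets meet finitely many summands -/
def QQ {ι : Type} {Y : Prespectrum} (e : Set ι → (Y ⟶ Y)) : Prop :=
  ∀ (n : ℕ) (C : Set (Y.sp n)), IsCompact C → ∃ F : Finset ι, ∀ y ∈ C,
    Prespectrum.Hom.map (e ↑F) n y = y

theorem pp_eS : PP (eS X) := by
  intro n y
  induction y using Quot.ind with | _ y => ?_
  rcases y with _ | ⟨i, x⟩
  · exact Or.inl rfl
  · right
    exact ⟨i, fun S => ⟨fun hi => eS_mem X hi n x, fun hi => eS_notMem X hi n x⟩⟩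

/-- closed sets of a wedge -/
theorem isClosed_wedge {ι : Type} (Z : ι → PT) (A : Set (PT.wedge Z))
    (h : ∀ i, IsClosed {x : Z i | (Quot.mk (WedgeRel Z) (Sum.inr ⟨i, x⟩) : PT.wedge Z) ∈ A}) :
    IsClosed A := by
  have hqm : IsQuotientMap (Quot.mk (WedgeRel Z)) := isQuotientMap_quot_mk
  refine hqm.isClosed_preimage.1 ?_
  rw [isClosed_sum_iff]
  refine ⟨isClosed_discrete _, ?_⟩
  rw [isClosed_sigma_iff]
  exact h

/-- compact sets in a wedge of T₁ spaces meet finitely many summands -/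
theorem finite_of_compact {ι : Type} (Z : ι → PT) (h : ∀ i, T1Space (Z i)) (C : Set (PT.wedge Z))
    (hC : IsCompact C) : {i | ∃ x : Z i, x ≠ (Z i).pt ∧
      (Quot.mk (WedgeRel Z) (Sum.inr ⟨i, x⟩) : PT.wedge Z) ∈ C}.Finite := by
  set A := {i | ∃ x : Z i, x ≠ (Z i).pt ∧
      (Quot.mk (WedgeRel Z) (Sum.inr ⟨i, x⟩) : PT.wedge Z) ∈ C} with hA
  choose p hp using fun i : A => i.2
  let q : A → PT.wedge Z := fun i => Quot.mk (WedgeRel Z) (Sum.inr ⟨i.1, p i⟩)
  have hinj : ∀ (i : A) (j : ι) (x : Z j),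
      (Quot.mk (WedgeRel Z) (Sum.inr ⟨j, x⟩) : PT.wedge Z) = q i → j = i.1 := by
    intro i j x hx
    classical
    by_contra hne
    -- evaluate the projection to the summand `i`
    let r : PT.wedge Z → Z i.1 := Quot.lift (Sum.elim (fun _ => (Z i.1).pt)
      (fun x : Σ j, Z j => if h : x.1 = i.1 then h ▸ x.2 else (Z i.1).pt)) (by
        rintro _ _ ⟨j⟩
        change (Z i.1).pt = if h : j = i.1 then h ▸ (Z j).pt else (Z i.1).pt
        split_ifs with h
        · subst h; rfl
        · rfl)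
    have h1 : r (Quot.mk (WedgeRel Z) (Sum.inr ⟨j, x⟩)) = (Z i.1).pt := dif_neg hne
    have h2 : r (q i) = p i := dif_pos rfl
    rw [hx, h2] at h1
    exact (hp i).1 h1
  have hinj' : ∀ (i : A) (x : Z i.1),
      (Quot.mk (WedgeRel Z) (Sum.inr ⟨i.1, x⟩) : PT.wedge Z) = q i → x = p i := by
    intro i x hx
    classical
    let r : PT.wedge Z → Z i.1 := Quot.lift (Sum.elim (fun _ => (Z i.1).pt)
      (fun x : Σ j, Z j => if h : x.1 = i.1 then h ▸ x.2 else (Z i.1).pt)) (by
        rintro _ _ ⟨j⟩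
        change (Z i.1).pt = if h : j = i.1 then h ▸ (Z j).pt else (Z i.1).pt
        split_ifs with h
        · subst h; rfl
        · rfl)
    have h1 : r (Quot.mk (WedgeRel Z) (Sum.inr ⟨i.1, x⟩)) = x := dif_pos rfl
    have h2 : r (q i) = p i := dif_pos rfl
    rw [← h1, hx, h2]
  have hclosed : ∀ B : Set A, IsClosed (q '' B) := by
    intro B
    refine isClosed_wedge Z _ fun j => ?_
    by_cases hj : ∃ i : A, i ∈ B ∧ i.1 = j
    · obtain ⟨i, hiB, rfl⟩ := hj
      have : {x : Z i.1 | (Quot.mk (WedgeRel Z) (Sum.inr ⟨i.1, x⟩) : PT.wedge Z) ∈ q '' B} =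
          {p i} := by
        ext x
        constructor
        · rintro ⟨i', -, hi'⟩
          have h1 : i.1 = i'.1 := hinj i' i.1 x hi'.symm
          have h2 : i = i' := Subtype.ext h1
          subst h2
          exact hinj' i x hi'.symm
        · rintro rfl
          exact ⟨i, hiB, rfl⟩
      rw [this]
      have := h i.1
      exact isClosed_singleton
    · have : {x : Z j | (Quot.mk (WedgeRel Z) (Sum.inr ⟨j, x⟩) : PT.wedge Z) ∈ q '' B} = ∅ := by
        ext x
        refine ⟨?_, fun h => h.elim⟩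
        rintro ⟨i, hiB, hi⟩
        exact hj ⟨i, hiB, (hinj i j x hi.symm).symm⟩
      rw [this]
      exact isClosed_empty
  have hqinj : Function.Injective q := by
    intro i i' hii
    exact Subtype.ext (hinj i' i.1 (p i) hii)
  have hcomp : IsCompact (range q) := by
    have h1 : IsClosed (range q) := by
      rw [← image_univ]
      exact hclosed univ
    refine hC.of_isClosed_subset h1 ?_
    rintro _ ⟨i, rfl⟩
    exact (hp i).2
  have hdisc : DiscreteTopology (range q) := by
    rw [discreteTopology_iff_forall_isClosed]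
    intro s
    have h1 : s = Subtype.val ⁻¹' (q '' {i | (⟨q i, i, rfl⟩ : range q) ∈ s}) := by
      ext ⟨_, i, rfl⟩
      constructor
      · intro hi
        exact ⟨i, hi, rfl⟩
      · rintro ⟨i', hi', hq⟩
        have := hqinj hq
        subst this
        exact hi'
    rw [h1]
    exact (hclosed _).preimage continuous_subtype_val
  have hfin : (range q).Finite := hcomp.finite ⟨hdisc⟩
  have hfinA : Finite A := by
    have : Finite (range q) := hfin
    exact Finite.of_injective (fun i : A => (⟨q i, i, rfl⟩ : range q)) fun i i' hii =>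
      hqinj (congrArg Subtype.val hii)
  exact Set.toFinite A

theorem qq_eS (h : ∀ i n, T1Space ((X i).sp n)) : QQ (eS X) := by
  intro n C hC
  have hfin := finite_of_compact (fun i => (X i).sp n) (fun i => h i n) C hC
  refine ⟨hfin.toFinset, fun y hy => ?_⟩
  induction y using Quot.ind with | _ y => ?_
  rcases y with _ | ⟨i, x⟩
  · rfl
  · by_cases hx : x = ((X i).sp n).pt
    · subst hx
      have h1 : (Quot.mk (WedgeRel fun i => (X i).sp n) (Sum.inr ⟨i, ((X i).sp n).pt⟩) :
          (wedge X).sp n) = ((wedge X).sp n).pt := (Quot.sound (WedgeRel.base i)).symm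
      rw [h1]
      exact Prespectrum.Hom.map_pt _ n
    · have hi : i ∈ (hfin.toFinset : Set ι) := by
        rw [Set.Finite.coe_toFinset]
        exact ⟨x, hx, hy⟩
      exact eS_mem X hi n x

theorem pp_upp {ι : Type} {Y : Prespectrum} {e : Set ι → (Y ⟶ Y)} (h : PP e) (b : ℕ) :
    PP (fun S => Th.uppMap (e S) b) := by
  induction b with
  | zero => exact h
  | succ b ih => exact fun n y => ih (n + 1 + 1) y

theorem qq_upp {ι : Type} {Y : Prespectrum} {e : Set ι → (Y ⟶ Y)} (h : QQ e) (b : ℕ) :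
    QQ (fun S => Th.uppMap (e S) b) := by
  induction b with
  | zero => exact h
  | succ b ih => exact fun n C hC => ih (n + 1 + 1) C hC

theorem closed_upp {Y : Prespectrum} (h : ∀ n, IsClosed ({(Y.sp n).pt} : Set _)) (b : ℕ) :
    ∀ n, IsClosed ({((Y.upp b).sp n).pt} : Set _) := by
  induction b with
  | zero => exact h
  | succ b ih => exact fun n => ih (n + 1 + 1)

theorem closed_wedge (h : ∀ i n, T1Space ((X i).sp n)) (n : ℕ) :
    IsClosed ({((wedge X).sp n).pt} : Set _) := by
  refine isClosed_wedge (fun i => (X i).sp n) _ fun j => ?_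
  have : {x : (X j).sp n | (Quot.mk (WedgeRel fun i => (X i).sp n) (Sum.inr ⟨j, x⟩) :
      (wedge X).sp n) ∈ ({((wedge X).sp n).pt} : Set _)} = {((X j).sp n).pt} := by
    ext x
    constructor
    · intro hx
      have h1 := congrArg (fun y => Prespectrum.Hom.map (proj X j) n y) (Set.mem_singleton_iff.1 hx)
      have h2 : Prespectrum.Hom.map (proj X j) n (Quot.mk _ (Sum.inr ⟨j, x⟩)) = x :=
        congrArg (fun φ : X j ⟶ X j => Prespectrum.Hom.map φ n x) (inc_proj X j)
      exact h2.symm.trans (h1.trans (Prespectrum.Hom.map_pt (proj X j) n))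
    · intro hx
      rw [Set.mem_singleton_iff] at hx
      subst hx
      exact (Quot.sound (WedgeRel.base (X := fun i => (X i).sp n) j)).symm
  have h1 := h j n
  exact this ▸ isClosed_singleton

/-- additivity of the maps `e_S` -/
theorem cl_push_add {ι : Type} {Y : Prespectrum} {e : Set ι → (Y ⟶ Y)} (hP : PP e)
    (hcl : ∀ n, IsClosed ({(Y.sp n).pt} : Set _)) {S T : Set ι} (hST : Disjoint S T) {b j : ℕ}
    {K : LC} (f : (Y.upp b).Rep j K) :
    Th.cl (Th.push (Th.uppMap (e (S ∪ T)) b) f) = Th.cl (Th.push (Th.uppMap (e S) b) f) +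
      Th.cl (Th.push (Th.uppMap (e T) b) f) := by
  refine cl_add_of_disjoint (fun b => closed_upp hcl b) j b K _ _ _ fun x => ?_
  change (Prespectrum.Hom.map (Th.uppMap (e S) b) (2 * j) (f x) = _ ∧
    Prespectrum.Hom.map (Th.uppMap (e (S ∪ T)) b) (2 * j) (f x) =
      Prespectrum.Hom.map (Th.uppMap (e T) b) (2 * j) (f x)) ∨
    (Prespectrum.Hom.map (Th.uppMap (e T) b) (2 * j) (f x) = _ ∧
    Prespectrum.Hom.map (Th.uppMap (e (S ∪ T)) b) (2 * j) (f x) =
      Prespectrum.Hom.map (Th.uppMap (e S) b) (2 * j) (f x))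
  rcases pp_upp hP b (2 * j) (f x) with h | ⟨i, hi⟩
  · left
    rw [h]
    refine ⟨Prespectrum.Hom.map_pt _ _, ?_⟩
    rw [Prespectrum.Hom.map_pt, Prespectrum.Hom.map_pt]
  · by_cases hS : i ∈ S
    · have hT : i ∉ T := Set.disjoint_left.1 hST hS
      right
      refine ⟨(hi T).2 hT, ?_⟩
      exact ((hi (S ∪ T)).1 (Or.inl hS)).trans ((hi S).1 hS).symm
    · left
      refine ⟨(hi S).2 hS, ?_⟩
      by_cases hT : i ∈ T
      · exact ((hi (S ∪ T)).1 (Or.inr hT)).trans ((hi T).1 hT).symm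
      · refine ((hi (S ∪ T)).2 ?_).trans ((hi T).2 hT).symm
        rintro (h | h)
        · exact hS h
        · exact hT h

theorem cl_push_finset {ι : Type} {Y : Prespectrum} {e : Set ι → (Y ⟶ Y)} (hP : PP e)
    (hcl : ∀ n, IsClosed ({(Y.sp n).pt} : Set _)) (F : Finset ι) {b j : ℕ}
    {K : LC} (f : (Y.upp b).Rep j K) :
    Th.cl (Th.push (Th.uppMap (e ↑F) b) f) =
      ∑ i ∈ F, Th.cl (Th.push (Th.uppMap (e {i}) b) f) := by
  classical
  induction F using Finset.induction_on with
  | empty =>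
    rw [Finset.sum_empty, ← Th.cl_zero (j := j)]
    congr 1
    ext x
    change Prespectrum.Hom.map (Th.uppMap (e ↑(∅ : Finset ι)) b) (2 * j) (f x) = _
    rcases pp_upp hP b (2 * j) (f x) with h | ⟨i, hi⟩
    · rw [h]
      exact Prespectrum.Hom.map_pt _ _
    · exact (hi ↑(∅ : Finset ι)).2 (by simp)
  | insert i F hi ih =>
    rw [Finset.sum_insert hi, ← ih, ← cl_push_add hP hcl (S := {i}) (T := ↑F)]
    · rw [Finset.coe_insert, ← Set.singleton_union]
    · rw [Set.disjoint_singleton_left]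
      simpa using hi

theorem hP_zeroH (X Y : Prespectrum) : hP.map (zeroH X Y) = 0 := by
  refine hT_hom_ext fun b j K f => ?_
  change Th.cl (Th.push (Th.uppMap (zeroH X Y) b) f) = (0 : Th.GG Y b K.obj)
  rw [← Th.cl_zero (j := j)]
  congr 1
  ext x
  have h1 : ∀ (b n : ℕ) (y : (X.upp b).sp n),
      Prespectrum.Hom.map (Th.uppMap (zeroH X Y) b) n y = ((Y.upp b).sp n).pt := by
    intro b
    induction b with
    | zero => exact fun n y => rfl
    | succ b ih => exact fun n y => ih (n + 1 + 1) y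
  exact h1 b _ _

end Wg

/-- (I4-e') wedges of T₁ prespectra: the injections are induced by maps of prespectra, and maps out
of a wedge can be given by their components -/
theorem hP_wedge' {ι : Type} (X : ι → Prespectrum) (h : ∀ i n, T1Space ((X i).sp n)) :
    ∃ (S : IsSum (fun i => hP.obj (X i)) (hP.obj (wedge X))) (inc : ∀ i, X i ⟶ wedge X),
      (∀ i, hP.map (inc i) = S.inj i) ∧
      ∀ (Y : Prespectrum) (f : ∀ i, X i ⟶ Y), ∃ g : wedge X ⟶ Y, ∀ i, inc i ≫ g = f i := by
  refine ⟨⟨fun i => hP.map (Wg.inc X i), fun i => hP.map (Wg.proj X i), fun i => ?_,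
    fun i j hij => ?_, fun b K x => ?_⟩, Wg.inc X, fun i => rfl, fun Y f => ⟨Wg.desc X f,
      Wg.inc_desc X f⟩⟩
  · rw [← hP.map_comp, Wg.inc_proj, hP.map_id]
  · rw [← hP.map_comp, Wg.inc_proj_ne X hij, Wg.hP_zeroH]
  · obtain ⟨j, -, f, rfl⟩ := (hT (wedge X)).cls_surj x 0
    obtain ⟨F, hF⟩ := Wg.qq_upp (Wg.qq_eS X h) b (2 * j) (range f.plus)
      (isCompact_range f.continuous_plus)
    refine ⟨F, ?_⟩
    have h1 : Th.push (Th.uppMap (Wg.eS X ↑F) b) f = f := by
      ext x
      exact hF (f x) ⟨((x : (LC.cpow (Fin j)).prod K.obj) :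
        OnePoint ((LC.cpow (Fin j)).prod K.obj)), rfl⟩
    have h2 := Wg.cl_push_finset (Wg.pp_eS X) (Wg.closed_wedge X h) F f
    rw [h1] at h2
    refine Eq.trans h2 (Finset.sum_congr rfl fun i _ => ?_)
    rw [← hP.map_comp, Wg.proj_inc]
    rfl

/-- (I4-e) wedges of T₁ prespectra -/
theorem hP_wedge {ι : Type} (X : ι → Prespectrum) (h : ∀ i n, T1Space ((X i).sp n)) :
    Nonempty (IsSum (fun i => hP.obj (X i)) (hP.obj (wedge X))) := by
  obtain ⟨S, -⟩ := hP_wedge' X h
  exact ⟨S⟩

end Pool.Agent.Helper1.Stab
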