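import Pool.Agent.Helper68.Stab.Count

/-! The results (I4-g), (I4-h), (I4-j) in terms of `IsCompactLevel`. -/

open CategoryTheory Topology Filter Set Opposite

noncomputable section

namespace Pool.Agent.Helper1.Stab

theorem IsCompactLevel.levels {G : Prespectrum} (hG : IsCompactLevel G) : Nonempty (Levels G) := by
  choose K hK e he using hG
  exact ⟨{
    K := K
    test := hK
    e := fun n => (Prespectrum.vE n G).trans (e n)
    e_pt := fun n => by
      change e n (Prespectrum.vE n G ((G.upp n).sp 0).pt) = _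
      rw [Prespectrum.vE_pt, he] }⟩

theorem Levels.isCompactLevel {G : Prespectrum} (L : Levels G) : IsCompactLevel G :=
  fun n => ⟨L.K n, L.test n, L.ev n, L.ev_pt n⟩

/-- (I4-g) -/
theorem realise_free {G Y : Prespectrum} (hG : IsCompactLevel G) (φ : hP.obj G ⟶ hP.obj Y) :
    ∃ (T : Prespectrum) (w : T ⟶ G) (f : T ⟶ Y.free), stableEquiv w ∧ IsCompactLevel T ∧
      (∀ n, T1Space (T.sp n)) ∧ hP.map f = hP.map w ≫ φ ≫ hP.map Y.toFree := by
  obtain ⟨L⟩ := hG.levels
  obtain ⟨T, w, f, h1, h2, -, ⟨h3⟩, h4⟩ := realiseF L φ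
  exact ⟨T, w, f, (stableEquiv_iff w).2 h1, h3.isCompactLevel,
    fun n => by have := h2 n; infer_instance, h4⟩

theorem stableEquiv_toFree (Y : Prespectrum) : stableEquiv Y.toFree :=
  (stableEquiv_iff _).2 Y.isIso_toFree

/-- (I4-h) -/
theorem exists_loc_free {G : Prespectrum} (hG : IsCompactLevel G) (S : Submonoid ℤ) :
    ∃ (G' : Prespectrum) (_ : IsCompactLevel G') (_ : ∀ n, T1Space (G'.sp n))
      (q : hP.obj G ⟶ hP.obj G'), GF.IsLoc S q := by
  obtain ⟨L⟩ := hG.levels
  obtain ⟨G', L', q, -, h2, -, h⟩ := L.exists_locG S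
  exact ⟨G', L'.isCompactLevel, fun n => by have := h2 n; infer_instance, q, h⟩

/-- (I4-j) -/
theorem countable_of_compact {G : Prespectrum} (hG : IsCompactLevel G) (b : ℕ) (K : Test) :
    Countable (((hP.obj G).h b).obj (op K)) := by
  obtain ⟨L⟩ := hG.levels
  exact L.countable b K

end Pool.Agent.Helper1.Stab
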