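import Pool.Agent.Helper1.Stab.Model
import Pool.Agent.Helper68.Stab.TopG

/-! The compact models of the telescopes (I4-i). -/

open CategoryTheory Topology Filter Set Opposite

noncomputable section

namespace Pool.Agent.Helper1.Stab

/-- (I4-i) compact models of the telescopes -/
theorem exists_compactModel {D : Set ℂ} (hD : D = Set.univ ∨ D = {1}) {k d : ℕ} (_hd : Even d)
    (hd0 : 0 < d) (f : GenLoop (Fin d) (Gr D k) (Gr.pt D k)) :
    ∃ (G : Prespectrum) (_ : IsCompactLevel G) (_ : ∀ n, T1Space (G.sp n))
      (w : G ⟶ tele (mulMap f)), stableEquiv w := by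
  refine ⟨model f, (levelsModel hD hd0 f).isCompactLevel, fun n => ?_, modelInc f,
    stableEquiv_modelInc hD hd0 f⟩
  have h1 : T2Space (BG D) := t2_BG hD
  have h2 : T2Space (Sph (lev d n) (BG D)) := Sph.t2 _ _
  have h3 : T2Space ((tele (mulMap f)).sp n) := h2
  change T1Space (modelSet f n)
  infer_instance

end Pool.Agent.Helper1.Stab
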