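import Pool.Agent.Helper1.Stab.Biv

/-! Additive functors on the homotopy category of locally compact spaces: `F (ℂ × K)` is an abelian
group. -/

open Topology Filter Set CategoryTheory Opposite

noncomputable section

namespace Pool.Agent.Helper1.Stab

/-! ## Disjoint unions -/

instance instLocallyCompactSum {X Y : Type} [TopologicalSpace X] [TopologicalSpace Y]
    [LocallyCompactSpace X] [LocallyCompactSpace Y] : LocallyCompactSpace (X ⊕ Y) := by
  refine ⟨fun x n hn => ?_⟩
  rcases x with a | b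
  · have h1 : Sum.inl ⁻¹' n ∈ 𝓝 a := continuous_inl.continuousAt hn
    obtain ⟨s, hs, hsn, hc⟩ := local_compact_nhds h1
    exact ⟨Sum.inl '' s, IsOpenEmbedding.inl.image_mem_nhds.2 hs, image_subset_iff.2 hsn,
      hc.image continuous_inl⟩
  · have h1 : Sum.inr ⁻¹' n ∈ 𝓝 b := continuous_inr.continuousAt hn
    obtain ⟨s, hs, hsn, hc⟩ := local_compact_nhds h1
    exact ⟨Sum.inr '' s, IsOpenEmbedding.inr.image_mem_nhds.2 hs, image_subset_iff.2 hsn,
      hc.image continuous_inr⟩

/-- disjoint union -/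
abbrev LC.sum (K L : LC) : LC := ⟨K ⊕ L⟩

/-- the empty space -/
abbrev LC.empty : LC := ⟨PEmpty⟩

/-- inclusion of the first summand -/
def PMap.inl (K L : LC) : PMap K (K.sum L).plus :=
  PMap.ofProper (K := K) (L := K.sum L) Sum.inl continuous_inl
    IsClosedEmbedding.inl.tendsto_cocompact

/-- inclusion of the second summand -/
def PMap.inr (K L : LC) : PMap L (K.sum L).plus :=
  PMap.ofProper (K := L) (L := K.sum L) Sum.inr continuous_inr
    IsClosedEmbedding.inr.tendsto_cocompact

/-- the map given by `f` and `g` on the two summands -/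
def PMap.copair {K L : LC} {Y : PT} (f : PMap K Y) (g : PMap L Y) : PMap (K.sum L) Y where
  toFun := Sum.elim f g
  cont := f.cont.sumElim g.cont
  infty := by
    intro U hU
    obtain ⟨C1, hC1, h1⟩ := mem_cocompact.1 (f.infty hU)
    obtain ⟨C2, hC2, h2⟩ := mem_cocompact.1 (g.infty hU)
    refine mem_map.2 (mem_cocompact.2 ⟨Sum.inl '' C1 ∪ Sum.inr '' C2,
      (hC1.image continuous_inl).union (hC2.image continuous_inr), ?_⟩)
    rintro (k | k) hk
    · exact h1 fun h => hk (Or.inl ⟨k, h, rfl⟩)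
    · exact h2 fun h => hk (Or.inr ⟨k, h, rfl⟩)

@[simp] theorem PMap.copair_inl {K L : LC} {Y : PT} (f : PMap K Y) (g : PMap L Y) (k : K) :
    f.copair g (Sum.inl k : K ⊕ L) = f k := rfl

@[simp] theorem PMap.copair_inr {K L : LC} {Y : PT} (f : PMap K Y) (g : PMap L Y) (k : L) :
    f.copair g (Sum.inr k : K ⊕ L) = g k := rfl

/-- homotopy classes of maps of a disjoint union -/
theorem PMap.Homotopic.copair {K L : LC} {Y : PT} {f f' : PMap K Y} {g g' : PMap L Y}
    (hf : f.Homotopic f') (hg : g.Homotopic g') : (f.copair g).Homotopic (f'.copair g') := by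
  obtain ⟨H, h0, h1⟩ := hf
  obtain ⟨H', h0', h1'⟩ := hg
  let e : (LC.I.prod (K.sum L)) ≃ₜ (LC.I.prod K).sum (LC.I.prod L) := Homeomorph.prodSumDistrib
  refine ⟨(H.copair H').comp (PMap.ofHomeo e), ?_, ?_⟩
  · rintro (k | k)
    · exact h0 k
    · exact h0' k
  · rintro (k | k)
    · exact h1 k
    · exact h1' k

/-- `f ⊔ g` -/
def PMap.sumMap {K L K' L' : LC} (f : PMap K K'.plus) (g : PMap L L'.plus) :
    PMap (K.sum L) (K'.sum L').plus :=
  ((PMap.inl K' L').comp f).copair ((PMap.inr K' L').comp g)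

/-- copairing of homotopy classes -/
def HMap.copair {K L : LC} {Y : PT} (x : HMap K Y) (y : HMap L Y) : HMap (K.sum L) Y :=
  Quotient.map₂ (fun f g => PMap.copair f g) (fun _ _ h _ _ h' => PMap.Homotopic.copair h h') x y

/-! ## Additive functors -/

/-- A functor with `F (∅)` a point and `F (K ⊔ L) = F K × F L`. -/
structure IsAddFun (F : LCᵒᵖ ⥤ Type) : Prop where
  empty : ∃ z : F.obj (op LC.empty), ∀ y, y = z
  sum : ∀ K L : LC, Function.Bijective (fun x : F.obj (op (K.sum L)) =>
    ((F.map (Quiver.Hom.op ((PMap.inl K L).cls : K ⟶ K.sum L)) x,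
      F.map (Quiver.Hom.op ((PMap.inr K L).cls : L ⟶ K.sum L)) x) : F.obj (op K) × F.obj (op L)))

/-- The morphism of the homotopy category given by a map. -/
abbrev PMap.hom {K L : LC} (f : PMap K L.plus) : K ⟶ L := (f.cls : HMap K L.plus)

/-- pull-back along a map -/
def pb (F : LCᵒᵖ ⥤ Type) {K L : LC} (f : PMap K L.plus) : F.obj (op L) → F.obj (op K) :=
  F.map f.hom.op

theorem pb_homotopic (F : LCᵒᵖ ⥤ Type) {K L : LC} {f g : PMap K L.plus} (h : f.Homotopic g) :
    pb F f = pb F g := by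
  unfold pb PMap.hom
  rw [PMap.cls_eq.2 h]

theorem pb_id (F : LCᵒᵖ ⥤ Type) (K : LC) (x : F.obj (op K)) : pb F (PMap.id K) x = x := by
  have : (PMap.id K).hom = 𝟙 K := rfl
  unfold pb
  rw [this, op_id, F.map_id]
  rfl

theorem pb_comp (F : LCᵒᵖ ⥤ Type) {K L M : LC} (g : PMap L M.plus) (f : PMap K L.plus)
    (x : F.obj (op M)) : pb F (g.comp f) x = pb F f (pb F g x) := by
  have : (g.comp f).hom = f.hom ≫ g.hom := rfl
  unfold pb
  rw [this, op_comp, F.map_comp]
  rfl

/-- `((1,1),(1,2)),((2,1),(2,2)) ↦ ((1,1),(2,1)),((1,2),(2,2))` -/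
def mid4 (K : LC) : PMap ((K.sum K).sum (K.sum K)) ((K.sum K).sum (K.sum K)).plus :=
  (((PMap.inl (K.sum K) (K.sum K)).comp (PMap.inl K K)).copair
    ((PMap.inr (K.sum K) (K.sum K)).comp (PMap.inl K K))).copair
  (((PMap.inl (K.sum K) (K.sum K)).comp (PMap.inr K K)).copair
    ((PMap.inr (K.sum K) (K.sum K)).comp (PMap.inr K K)))

namespace IsAddFun

variable {F : LCᵒᵖ ⥤ Type} (h : IsAddFun F)

/-- the zero element -/
def zero (K : LC) : F.obj (op K) := pb F (PMap.zero K LC.empty.plus) h.empty.choose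

/-- the element of `F (K ⊔ L)` with given restrictions -/
def pair {K L : LC} (x : F.obj (op K)) (y : F.obj (op L)) : F.obj (op (K.sum L)) :=
  ((h.sum K L).2 (x, y)).choose

theorem pair_inl {K L : LC} (x : F.obj (op K)) (y : F.obj (op L)) :
    pb F (PMap.inl K L) (h.pair x y) = x :=
  congrArg Prod.fst ((h.sum K L).2 (x, y)).choose_spec

theorem pair_inr {K L : LC} (x : F.obj (op K)) (y : F.obj (op L)) :
    pb F (PMap.inr K L) (h.pair x y) = y :=
  congrArg Prod.snd ((h.sum K L).2 (x, y)).choose_spec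

include h in
theorem pair_ext {K L : LC} {x y : F.obj (op (K.sum L))}
    (h1 : pb F (PMap.inl K L) x = pb F (PMap.inl K L) y)
    (h2 : pb F (PMap.inr K L) x = pb F (PMap.inr K L) y) : x = y :=
  (h.sum K L).1 (Prod.ext h1 h2)

theorem pb_zero {K L : LC} (f : PMap K L.plus) : pb F f (h.zero L) = h.zero K := by
  unfold zero
  rw [← pb_comp]
  congr 1
  ext k
  change (PMap.zero L LC.empty.plus).plus (f k) = _
  rcases f k with _ | l <;> rfl

theorem pair_pb {K L K' L' : LC} (f : PMap K K'.plus) (g : PMap L L'.plus)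
    (x : F.obj (op K')) (y : F.obj (op L')) :
    h.pair (pb F f x) (pb F g y) = pb F (f.sumMap g) (h.pair x y) := by
  apply h.pair_ext
  · rw [pair_inl, ← pb_comp]
    have : (f.sumMap g).comp (PMap.inl K L) = (PMap.inl K' L').comp f := rfl
    rw [this, pb_comp, pair_inl]
  · rw [pair_inr, ← pb_comp]
    have : (f.sumMap g).comp (PMap.inr K L) = (PMap.inr K' L').comp g := rfl
    rw [this, pb_comp, pair_inr]

theorem pair_copair {K L M : LC} (f : PMap K M.plus) (g : PMap L M.plus) (x : F.obj (op M)) :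
    h.pair (pb F f x) (pb F g x) = pb F (f.copair g) x := by
  apply h.pair_ext
  · rw [pair_inl, ← pb_comp]
    rfl
  · rw [pair_inr, ← pb_comp]
    rfl

include h in
theorem pb_zeroMap {K L : LC} (x : F.obj (op L)) : pb F (PMap.zero K L.plus) x = h.zero K := by
  have h1 : PMap.zero K L.plus = (PMap.zero LC.empty L.plus).comp (PMap.zero K LC.empty.plus) := by
    ext k; rfl
  rw [h1, pb_comp]
  unfold zero
  rw [h.empty.choose_spec (pb F (PMap.zero LC.empty L.plus) x)]

theorem pair_mid4 {K : LC} (a b c d : F.obj (op K)) :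
    h.pair (h.pair a c) (h.pair b d) = pb F (mid4 K) (h.pair (h.pair a b) (h.pair c d)) := by
  apply h.pair_ext <;> apply h.pair_ext
  · rw [pair_inl, pair_inl, ← pb_comp, ← pb_comp]
    have : (mid4 K).comp ((PMap.inl (K.sum K) (K.sum K)).comp (PMap.inl K K)) =
      (PMap.inl (K.sum K) (K.sum K)).comp (PMap.inl K K) := rfl
    rw [this, pb_comp, pair_inl, pair_inl]
  · rw [pair_inl, pair_inr, ← pb_comp, ← pb_comp]
    have : (mid4 K).comp ((PMap.inl (K.sum K) (K.sum K)).comp (PMap.inr K K)) =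
      (PMap.inr (K.sum K) (K.sum K)).comp (PMap.inl K K) := rfl
    rw [this, pb_comp, pair_inr, pair_inl]
  · rw [pair_inr, pair_inl, ← pb_comp, ← pb_comp]
    have : (mid4 K).comp ((PMap.inr (K.sum K) (K.sum K)).comp (PMap.inl K K)) =
      (PMap.inl (K.sum K) (K.sum K)).comp (PMap.inr K K) := rfl
    rw [this, pb_comp, pair_inl, pair_inr]
  · rw [pair_inr, pair_inr, ← pb_comp, ← pb_comp]
    have : (mid4 K).comp ((PMap.inr (K.sum K) (K.sum K)).comp (PMap.inr K K)) =
      (PMap.inr (K.sum K) (K.sum K)).comp (PMap.inr K K) := rfl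
    rw [this, pb_comp, pair_inr, pair_inr]

/-- the operation on `F K` given by a map `m : K → K ⊔ K` -/
def op2 {K : LC} (m : PMap K (K.sum K).plus) (x y : F.obj (op K)) : F.obj (op K) :=
  pb F m (h.pair x y)

theorem op2_zero {K : LC} (m : PMap K (K.sum K).plus)
    (m1 : (((PMap.id K).copair (PMap.zero K K.plus)).comp m).Homotopic (PMap.id K))
    (x : F.obj (op K)) : h.op2 m x (h.zero K) = x := by
  have h1 := pb_homotopic F m1
  have h2 := congrFun h1 x
  rw [pb_comp, pb_id] at h2
  rw [← h.pair_copair, pb_id, h.pb_zeroMap] at h2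
  exact h2

theorem zero_op2 {K : LC} (m : PMap K (K.sum K).plus)
    (m2 : (((PMap.zero K K.plus).copair (PMap.id K)).comp m).Homotopic (PMap.id K))
    (x : F.obj (op K)) : h.op2 m (h.zero K) x = x := by
  have h1 := pb_homotopic F m2
  have h2 := congrFun h1 x
  rw [pb_comp, pb_id] at h2
  rw [← h.pair_copair, pb_id, h.pb_zeroMap] at h2
  exact h2

theorem op2_interchange {K : LC} (m m' : PMap K (K.sum K).plus)
    (hm : ((m'.sumMap m').comp m).Homotopic ((mid4 K).comp ((m.sumMap m).comp m')))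
    (a b c d : F.obj (op K)) :
    h.op2 m (h.op2 m' a b) (h.op2 m' c d) = h.op2 m' (h.op2 m a c) (h.op2 m b d) := by
  unfold op2
  rw [h.pair_pb, ← pb_comp, pb_homotopic F hm, pb_comp, ← h.pair_mid4, pb_comp, ← h.pair_pb]

end IsAddFun

/-! ## The pinch map -/

/-- the pinch map `ℂ → ℂ ⊔ ℂ` in the real coordinate `r`: for `r < 0` the point of the first copy
with real coordinate `r - 1/r`, for `r > 0` the point of the second copy with coordinate
`r - 1/r` -/
def pinchFun (z : ℂ) : OnePoint (ℂ ⊕ ℂ) :=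
  if z.re < 0 then ((Sum.inl ⟨z.re - 1 / z.re, z.im⟩ : ℂ ⊕ ℂ) : OnePoint (ℂ ⊕ ℂ))
  else if 0 < z.re then ((Sum.inr ⟨z.re - 1 / z.re, z.im⟩ : ℂ ⊕ ℂ) : OnePoint (ℂ ⊕ ℂ))
  else OnePoint.infty

theorem pinch_aux : Continuous pinchFun ∧
    Tendsto pinchFun (cocompact ℂ) (𝓝 (OnePoint.infty : OnePoint (ℂ ⊕ ℂ))) := by
  have hmk : ∀ (s : Set ℂ) (f : ℂ → ℝ), ContinuousOn f s →
      ContinuousOn (fun z : ℂ => (⟨f z, z.im⟩ : ℂ)) s := by
    intro s f hf
    have := Complex.equivRealProdCLM.symm.continuous.comp_continuousOn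
      (hf.prodMk Complex.continuous_im.continuousOn)
    exact this
  have hcont : ∀ s : Set ℂ, (∀ z ∈ s, z.re ≠ 0) →
      ContinuousOn (fun z : ℂ => (⟨z.re - 1 / z.re, z.im⟩ : ℂ)) s := by
    intro s hs
    refine hmk s (fun z => z.re - 1 / z.re) ?_
    exact Complex.continuous_re.continuousOn.sub
      (continuousOn_const.div Complex.continuous_re.continuousOn hs)
  have hroot : ∀ s r : ℝ, r ≠ 0 → r * r - s * r - 1 = 0 → r - 1 / r = s := by
    intro s r hr h
    have : r - 1 / r - s = (r * r - s * r - 1) / r := by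
      field_simp
      ring
    rw [h, zero_div] at this
    linarith
  refine PMap.partial_aux (K := LC.C) (L := LC.C.sum LC.C) pinchFun ?_ ?_
  · intro V hV
    have h : {k : ℂ | ∃ l ∈ V, pinchFun k = (l : OnePoint (ℂ ⊕ ℂ))} =
        ({z : ℂ | z.re < 0} ∩ (fun z : ℂ => (⟨z.re - 1 / z.re, z.im⟩ : ℂ)) ⁻¹' (Sum.inl ⁻¹' V)) ∪
        ({z : ℂ | 0 < z.re} ∩
          (fun z : ℂ => (⟨z.re - 1 / z.re, z.im⟩ : ℂ)) ⁻¹' (Sum.inr ⁻¹' V)) := by
      ext z
      constructor
      · rintro ⟨l, hl, hz⟩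
        unfold pinchFun at hz
        split_ifs at hz with h1 h2
        · left
          refine ⟨h1, ?_⟩
          have := OnePoint.coe_injective hz
          change Sum.inl _ ∈ V
          rw [this]
          exact hl
        · right
          refine ⟨h2, ?_⟩
          have := OnePoint.coe_injective hz
          change Sum.inr _ ∈ V
          rw [this]
          exact hl
        · exact absurd hz.symm (OnePoint.coe_ne_infty l)
      · rintro (⟨h1, h2⟩ | ⟨h1, h2⟩)
        · refine ⟨_, h2, ?_⟩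
          unfold pinchFun
          rw [if_pos (show z.re < 0 from h1)]
        · refine ⟨_, h2, ?_⟩
          unfold pinchFun
          rw [if_neg (not_lt.2 (le_of_lt (show 0 < z.re from h1))),
            if_pos (show 0 < z.re from h1)]
    have h' : IsOpen {k : ℂ | ∃ l ∈ V, pinchFun k = (l : OnePoint (ℂ ⊕ ℂ))} := by
      rw [h]
      refine IsOpen.union ?_ ?_
      · exact (hcont _ fun z hz => ne_of_lt hz).isOpen_inter_preimage
          (isOpen_lt Complex.continuous_re continuous_const) (hV.preimage continuous_inl)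
      · exact (hcont _ fun z hz => ne_of_gt hz).isOpen_inter_preimage
          (isOpen_lt continuous_const Complex.continuous_re) (hV.preimage continuous_inr)
    exact h'
  · intro C hC
    have hsq : ∀ s : ℝ, |s| < √(s ^ 2 + 4) := by
      intro s
      apply Real.lt_sqrt_of_sq_lt
      rw [sq_abs]
      linarith
    have h : {k : ℂ | ∃ l ∈ C, pinchFun k = (l : OnePoint (ℂ ⊕ ℂ))} =
        (fun w : ℂ => (⟨(w.re - √(w.re ^ 2 + 4)) / 2, w.im⟩ : ℂ)) '' (Sum.inl ⁻¹' C) ∪
        (fun w : ℂ => (⟨(w.re + √(w.re ^ 2 + 4)) / 2, w.im⟩ : ℂ)) '' (Sum.inr ⁻¹' C) := by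
      ext z
      constructor
      · rintro ⟨l, hl, hz⟩
        unfold pinchFun at hz
        split_ifs at hz with h1 h2
        · left
          have := OnePoint.coe_injective hz
          refine ⟨⟨z.re - 1 / z.re, z.im⟩, ?_, ?_⟩
          · change Sum.inl _ ∈ C
            rw [this]
            exact hl
          · apply Complex.ext
            · change (z.re - 1 / z.re - √((z.re - 1 / z.re) ^ 2 + 4)) / 2 = z.re
              have h3 : (z.re - 1 / z.re) ^ 2 + 4 = (-(z.re + 1 / z.re)) ^ 2 := by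
                have : z.re ≠ 0 := ne_of_lt h1
                field_simp
                ring
              have h4 : 0 ≤ -(z.re + 1 / z.re) := by
                have : 1 / z.re < 0 := one_div_neg.2 h1
                linarith
              rw [h3, Real.sqrt_sq h4]
              ring
            · rfl
        · right
          have := OnePoint.coe_injective hz
          refine ⟨⟨z.re - 1 / z.re, z.im⟩, ?_, ?_⟩
          · change Sum.inr _ ∈ C
            rw [this]
            exact hl
          · apply Complex.ext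
            · change (z.re - 1 / z.re + √((z.re - 1 / z.re) ^ 2 + 4)) / 2 = z.re
              have h3 : (z.re - 1 / z.re) ^ 2 + 4 = (z.re + 1 / z.re) ^ 2 := by
                have : z.re ≠ 0 := ne_of_gt h2
                field_simp
                ring
              have h4 : 0 ≤ z.re + 1 / z.re := by
                have : 0 < 1 / z.re := one_div_pos.2 h2
                linarith
              rw [h3, Real.sqrt_sq h4]
              ring
            · rfl
        · exact absurd hz.symm (OnePoint.coe_ne_infty l)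
      · rintro (⟨w, hw, rfl⟩ | ⟨w, hw, rfl⟩)
        · refine ⟨_, hw, ?_⟩
          have h1 : (w.re - √(w.re ^ 2 + 4)) / 2 < 0 := by
            have := hsq w.re
            have := le_abs_self w.re
            linarith
          unfold pinchFun
          rw [if_pos h1]
          congr 2
          apply Complex.ext
          · change (w.re - √(w.re ^ 2 + 4)) / 2 - 1 / ((w.re - √(w.re ^ 2 + 4)) / 2) = w.re
            have h2 := Real.mul_self_sqrt (show 0 ≤ w.re ^ 2 + 4 by positivity)
            have h3 : (w.re - √(w.re ^ 2 + 4)) / 2 ≠ 0 := ne_of_lt h1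
            exact hroot _ _ h3 (by linear_combination h2 / 4)
          · rfl
        · refine ⟨_, hw, ?_⟩
          have h1 : 0 < (w.re + √(w.re ^ 2 + 4)) / 2 := by
            have := hsq w.re
            have := neg_abs_le w.re
            linarith
          unfold pinchFun
          rw [if_neg (not_lt.2 (le_of_lt h1)), if_pos h1]
          congr 2
          apply Complex.ext
          · change (w.re + √(w.re ^ 2 + 4)) / 2 - 1 / ((w.re + √(w.re ^ 2 + 4)) / 2) = w.re
            have h2 := Real.mul_self_sqrt (show 0 ≤ w.re ^ 2 + 4 by positivity)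
            have h3 : (w.re + √(w.re ^ 2 + 4)) / 2 ≠ 0 := ne_of_gt h1
            exact hroot _ _ h3 (by linear_combination h2 / 4)
          · rfl
    have h' : IsCompact {k : ℂ | ∃ l ∈ C, pinchFun k = (l : OnePoint (ℂ ⊕ ℂ))} := by
      rw [h]
      refine IsCompact.union ?_ ?_
      · refine (IsClosedEmbedding.inl.isCompact_preimage hC).image_of_continuousOn (hmk _ _ ?_)
        fun_prop
      · refine (IsClosedEmbedding.inr.isCompact_preimage hC).image_of_continuousOn (hmk _ _ ?_)
        fun_prop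
    exact h'

/-- the pinch map `ℂ → ℂ ⊔ ℂ` -/
def pinch : PMap LC.C (LC.C.sum LC.C).plus := ⟨pinchFun, pinch_aux.1, pinch_aux.2⟩

/-- the exchange of the real and the imaginary part -/
def reim : LC.C ≃ₜ LC.C where
  toFun z := ⟨z.im, z.re⟩
  invFun z := ⟨z.im, z.re⟩
  left_inv _ := rfl
  right_inv _ := rfl
  continuous_toFun := by
    exact Complex.equivRealProdCLM.symm.continuous.comp
      (Complex.continuous_im.prodMk Complex.continuous_re)
  continuous_invFun := by
    exact Complex.equivRealProdCLM.symm.continuous.comp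
      (Complex.continuous_im.prodMk Complex.continuous_re)

/-- the reversal of the real coordinate -/
def negre : LC.C ≃ₜ LC.C where
  toFun z := ⟨-z.re, z.im⟩
  invFun z := ⟨-z.re, z.im⟩
  left_inv z := Complex.ext (neg_neg _) rfl
  right_inv z := Complex.ext (neg_neg _) rfl
  continuous_toFun := by
    exact Complex.equivRealProdCLM.symm.continuous.comp
      (Complex.continuous_re.neg.prodMk Complex.continuous_im)
  continuous_invFun := by
    exact Complex.equivRealProdCLM.symm.continuous.comp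
      (Complex.continuous_re.neg.prodMk Complex.continuous_im)

/-- the pinch map in the imaginary coordinate -/
def pinch' : PMap LC.C (LC.C.sum LC.C).plus :=
  ((PMap.ofHomeo reim).sumMap (PMap.ofHomeo reim)).comp (pinch.comp (PMap.ofHomeo reim))

/-! ### The unit laws -/

/-- the denominator in the homotopy of the unit law -/
def pinchU_unitD (x : unitInterval × ℂ) : ℝ := 1 - (x.1 : ℝ) + (x.1 : ℝ) * x.2.re

/-- the finite part of the homotopy of the unit law -/
def pinchU_unitPhi (x : unitInterval × ℂ) : ℂ := ⟨x.2.re - (x.1 : ℝ) / pinchU_unitD x, x.2.im⟩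

open Classical in
/-- the homotopy of the unit law -/
def pinchU_unitFun (x : unitInterval × ℂ) : OnePoint ℂ :=
  if 0 < pinchU_unitD x then ((pinchU_unitPhi x : ℂ) : OnePoint ℂ) else OnePoint.infty

theorem pinchU_unitFun_eq {x : unitInterval × ℂ} {l : ℂ} :
    pinchU_unitFun x = (l : OnePoint ℂ) ↔ 0 < pinchU_unitD x ∧ pinchU_unitPhi x = l := by
  unfold pinchU_unitFun
  by_cases h : 0 < pinchU_unitD x
  · rw [if_pos h]
    constructor
    · intro h1
      exact ⟨h, OnePoint.coe_injective h1⟩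
    · rintro ⟨-, h1⟩
      rw [h1]
  · rw [if_neg h]
    constructor
    · intro h1
      exact absurd h1 (OnePoint.infty_ne_coe l)
    · rintro ⟨h1, -⟩
      exact absurd h1 h

theorem continuous_pinchU_unitD : Continuous pinchU_unitD := by
  unfold pinchU_unitD
  have h1 : Continuous fun x : unitInterval × ℂ => (x.1 : ℝ) :=
    continuous_subtype_val.comp continuous_fst
  have h2 : Continuous fun x : unitInterval × ℂ => x.2.re :=
    Complex.continuous_re.comp continuous_snd
  exact (continuous_const.sub h1).add (h1.mul h2)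

theorem continuousOn_pinchU_unitPhi {s : Set (unitInterval × ℂ)} (hs : ∀ x ∈ s, 0 < pinchU_unitD x) :
    ContinuousOn pinchU_unitPhi s := by
  have h1 : Continuous fun x : unitInterval × ℂ => (x.1 : ℝ) :=
    continuous_subtype_val.comp continuous_fst
  have h2 : Continuous fun x : unitInterval × ℂ => x.2.re :=
    Complex.continuous_re.comp continuous_snd
  have h3 : Continuous fun x : unitInterval × ℂ => x.2.im :=
    Complex.continuous_im.comp continuous_snd
  have h4 : ContinuousOn (fun x : unitInterval × ℂ => (x.1 : ℝ) / pinchU_unitD x) s :=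
    h1.continuousOn.div continuous_pinchU_unitD.continuousOn (fun x hx => (hs x hx).ne')
  exact Complex.equivRealProdCLM.symm.continuous.comp_continuousOn
    ((h2.continuousOn.sub h4).prodMk h3.continuousOn)

theorem pinchU_unit_low {x : unitInterval × ℂ} {M : ℝ} (hM : 0 ≤ M) (hD : 0 < pinchU_unitD x)
    (h1 : ‖pinchU_unitPhi x‖ ≤ M) : -M ≤ x.2.re ∧ x.2.re ≤ M + 1 ∧ |x.2.im| ≤ M ∧
      1 / (1 + (2 * M + 1) * (M + 1)) ≤ pinchU_unitD x := by
  have hre : |x.2.re - (x.1 : ℝ) / pinchU_unitD x| ≤ M := (Complex.abs_re_le_norm (pinchU_unitPhi x)).trans h1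
  have him : |x.2.im| ≤ M := (Complex.abs_im_le_norm (pinchU_unitPhi x)).trans h1
  rw [abs_le] at hre
  have ht0 : 0 ≤ (x.1 : ℝ) := x.1.2.1
  have ht1 : (x.1 : ℝ) ≤ 1 := x.1.2.2
  have hq : 0 ≤ (x.1 : ℝ) / pinchU_unitD x := div_nonneg ht0 hD.le
  have ha : -M ≤ x.2.re := by linarith [hre.1]
  have hb : x.2.re ≤ M + 1 := by
    by_contra hcon
    push Not at hcon
    have h2 : 1 ≤ pinchU_unitD x := by
      unfold pinchU_unitD
      nlinarith
    have h3 : (x.1 : ℝ) / pinchU_unitD x ≤ 1 := by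
      rw [div_le_one hD]
      linarith
    linarith [hre.2]
  refine ⟨ha, hb, him, ?_⟩
  have h4 : (x.1 : ℝ) / pinchU_unitD x ≤ 2 * M + 1 := by linarith [hre.1]
  rw [div_le_iff₀ hD] at h4
  have h5 : 1 - (x.1 : ℝ) * (1 + M) ≤ pinchU_unitD x := by
    unfold pinchU_unitD
    nlinarith
  rw [div_le_iff₀ (by positivity)]
  nlinarith

theorem pinchU_unit_aux1 (V : Set ℂ) (hV : IsOpen V) :
    IsOpen {k : unitInterval × ℂ | ∃ l ∈ V, pinchU_unitFun k = (l : OnePoint ℂ)} := by
  have h1 : {k : unitInterval × ℂ | ∃ l ∈ V, pinchU_unitFun k = (l : OnePoint ℂ)} =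
      {k | 0 < pinchU_unitD k} ∩ pinchU_unitPhi ⁻¹' V := by
    ext k
    constructor
    · rintro ⟨l, hl, hk⟩
      obtain ⟨h2, rfl⟩ := pinchU_unitFun_eq.1 hk
      exact ⟨h2, hl⟩
    · rintro ⟨h2, h3⟩
      exact ⟨_, h3, pinchU_unitFun_eq.2 ⟨h2, rfl⟩⟩
  rw [h1]
  exact (continuousOn_pinchU_unitPhi (fun x hx => hx)).isOpen_inter_preimage
    (isOpen_lt continuous_const continuous_pinchU_unitD) hV

theorem pinchU_unit_aux2 (C : Set ℂ) (hC : IsCompact C) :
    IsCompact {k : unitInterval × ℂ | ∃ l ∈ C, pinchU_unitFun k = (l : OnePoint ℂ)} := by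
  obtain ⟨M0, hM0⟩ := hC.isBounded.exists_norm_le
  set M := max M0 0 with hM
  have hM' : 0 ≤ M := le_max_right _ _
  set δ : ℝ := 1 / (1 + (2 * M + 1) * (M + 1)) with hδ
  have hδ0 : 0 < δ := by positivity
  have hQ : IsCompact ((univ : Set unitInterval) ×ˢ Metric.closedBall (0 : ℂ) (2 * M + 1)) :=
    isCompact_univ.prod (isCompact_closedBall _ _)
  have hcl : IsClosed ({k | δ ≤ pinchU_unitD k} ∩ pinchU_unitPhi ⁻¹' C) :=
    (continuousOn_pinchU_unitPhi (fun x hx => lt_of_lt_of_le hδ0 hx)).preimage_isClosed_of_isClosed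
      (isClosed_le continuous_const continuous_pinchU_unitD) hC.isClosed
  have h1 : {k : unitInterval × ℂ | ∃ l ∈ C, pinchU_unitFun k = (l : OnePoint ℂ)} =
      ((univ : Set unitInterval) ×ˢ Metric.closedBall (0 : ℂ) (2 * M + 1)) ∩
        ({k | δ ≤ pinchU_unitD k} ∩ pinchU_unitPhi ⁻¹' C) := by
    ext k
    constructor
    · rintro ⟨l, hl, hk⟩
      obtain ⟨h2, rfl⟩ := pinchU_unitFun_eq.1 hk
      obtain ⟨h3, h4, h5, h6⟩ := pinchU_unit_low hM' h2 ((hM0 _ hl).trans (le_max_left _ _))
      refine ⟨⟨mem_univ _, ?_⟩, h6, hl⟩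
      rw [mem_closedBall_zero_iff]
      calc ‖k.2‖ ≤ |k.2.re| + |k.2.im| := Complex.norm_le_abs_re_add_abs_im _
        _ ≤ (M + 1) + M := add_le_add (abs_le.2 ⟨by linarith, h4⟩) h5
        _ = 2 * M + 1 := by ring
    · rintro ⟨-, h2, h3⟩
      exact ⟨_, h3, pinchU_unitFun_eq.2 ⟨lt_of_lt_of_le hδ0 h2, rfl⟩⟩
  rw [h1]
  exact hQ.inter_right hcl

/-- the homotopy of the unit law -/
def pinchU_unitH : PMap (LC.I.prod LC.C) LC.C.plus := PMap.mk' (K := LC.I.prod LC.C) (L := LC.C) pinchU_unitFun pinchU_unit_aux1 pinchU_unit_aux2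

theorem pinchU_right :
    (((PMap.zero LC.C LC.C.plus).copair (PMap.id LC.C)).comp pinch).Homotopic (PMap.id LC.C) := by
  apply PMap.Homotopic.symm
  refine ⟨pinchU_unitH, fun k => ?_, fun k => ?_⟩
  · change pinchU_unitFun ((0 : unitInterval), k) = ((k : ℂ) : OnePoint ℂ)
    rw [pinchU_unitFun_eq]
    have h1 : pinchU_unitD ((0 : unitInterval), k) = 1 := by
      simp [pinchU_unitD]
    refine ⟨by rw [h1]; exact one_pos, ?_⟩
    apply Complex.ext
    · change k.re - ((0 : unitInterval) : ℝ) / pinchU_unitD ((0 : unitInterval), k) = k.re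
      simp
    · rfl
  · change pinchU_unitFun ((1 : unitInterval), k) =
      ((PMap.zero LC.C LC.C.plus).copair (PMap.id LC.C)).plus (pinchFun k)
    have h1 : pinchU_unitD ((1 : unitInterval), k) = k.re := by
      simp [pinchU_unitD]
    unfold pinchFun
    rcases lt_trichotomy k.re 0 with h | h | h
    · rw [if_pos h]
      unfold pinchU_unitFun
      rw [if_neg (by rw [h1]; exact not_lt.2 h.le)]
      rfl
    · rw [if_neg (by rw [h]; exact lt_irrefl _), if_neg (by rw [h]; exact lt_irrefl _)]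
      unfold pinchU_unitFun
      rw [if_neg (by rw [h1, h]; exact lt_irrefl _)]
      rfl
    · rw [if_neg (not_lt.2 h.le), if_pos h]
      unfold pinchU_unitFun
      rw [if_pos (by rw [h1]; exact h)]
      unfold pinchU_unitPhi
      rw [h1]
      rfl

theorem pinchU_negre_conj :
    ((PMap.id LC.C).copair (PMap.zero LC.C LC.C.plus)).comp pinch =
      (PMap.ofHomeo negre).comp
        ((((PMap.zero LC.C LC.C.plus).copair (PMap.id LC.C)).comp pinch).comp
          (PMap.ofHomeo negre)) := by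
  ext k
  change ((PMap.id LC.C).copair (PMap.zero LC.C LC.C.plus)).plus (pinchFun k) =
    (PMap.ofHomeo negre).plus (((PMap.zero LC.C LC.C.plus).copair (PMap.id LC.C)).plus
      (pinchFun ⟨-k.re, k.im⟩))
  unfold pinchFun
  rcases lt_trichotomy k.re 0 with h | h | h
  · rw [if_pos h, if_neg (not_lt.2 (neg_pos.2 h).le), if_pos (neg_pos.2 h)]
    change ((⟨k.re - 1 / k.re, k.im⟩ : ℂ) : OnePoint ℂ) =
      ((⟨-(-k.re - 1 / -k.re), k.im⟩ : ℂ) : OnePoint ℂ)
    congr 2
    rw [one_div_neg_eq_neg_one_div]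
    ring
  · have h1 : ¬ (k.re < 0) := by rw [h]; exact lt_irrefl _
    have h2 : ¬ (0 < k.re) := by rw [h]; exact lt_irrefl _
    have h3 : ¬ (-k.re < 0) := by rw [h]; simp
    have h4 : ¬ (0 < -k.re) := by rw [h]; simp
    rw [if_neg h1, if_neg h2, if_neg h3, if_neg h4]
    rfl
  · rw [if_neg (not_lt.2 h.le), if_pos h, if_pos (neg_lt_zero.2 h)]
    rfl

theorem pinchU_negre_negre : (PMap.ofHomeo negre).comp ((PMap.id LC.C).comp (PMap.ofHomeo negre)) =
    PMap.id LC.C := by
  ext k
  change ((negre (negre k) : ℂ) : OnePoint ℂ) = ((k : ℂ) : OnePoint ℂ)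
  congr 1
  exact Complex.ext (neg_neg _) rfl

theorem pinchU_left :
    (((PMap.id LC.C).copair (PMap.zero LC.C LC.C.plus)).comp pinch).Homotopic (PMap.id LC.C) := by
  have h := PMap.Homotopic.comp_right (PMap.ofHomeo negre)
    (PMap.Homotopic.comp_left pinchU_right (PMap.ofHomeo negre))
  rw [pinchU_negre_negre] at h
  rw [pinchU_negre_conj]
  exact h

theorem pinchU_reim_reim : (PMap.ofHomeo reim).comp ((PMap.id LC.C).comp (PMap.ofHomeo reim)) =
    PMap.id LC.C := by
  ext k
  rfl

theorem pinchU_reim_conj (f g : PMap LC.C LC.C.plus)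
    (hf : (PMap.ofHomeo reim).comp f = f.comp (PMap.ofHomeo reim))
    (hg : (PMap.ofHomeo reim).comp g = g.comp (PMap.ofHomeo reim)) :
    (f.copair g).comp pinch' =
      (PMap.ofHomeo reim).comp (((f.copair g).comp pinch).comp (PMap.ofHomeo reim)) := by
  ext k
  change (f.copair g).plus (((PMap.ofHomeo reim).sumMap (PMap.ofHomeo reim)).plus
    (pinchFun (reim k))) = (PMap.ofHomeo reim).plus ((f.copair g).plus (pinchFun (reim k)))
  rcases pinchFun (reim k) with _ | (a | a)
  · rfl
  · exact (congrArg (fun q : PMap LC.C LC.C.plus => q a) hf).symm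
  · exact (congrArg (fun q : PMap LC.C LC.C.plus => q a) hg).symm

/-- first unit law -/
theorem pinch_unit_left :
    (((PMap.id LC.C).copair (PMap.zero LC.C LC.C.plus)).comp pinch).Homotopic (PMap.id LC.C) :=
  pinchU_left

/-- second unit law -/
theorem pinch_unit_right :
    (((PMap.zero LC.C LC.C.plus).copair (PMap.id LC.C)).comp pinch).Homotopic (PMap.id LC.C) :=
  pinchU_right

open Classical in
/-- the partial map given by `g` on `U` -/
def negPart {X Y : Type} (U : Set X) (g : X → Y) (k : X) : OnePoint Y :=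
  if k ∈ U then ((g k : Y) : OnePoint Y) else OnePoint.infty

theorem negPart_of_mem {X Y : Type} {U : Set X} {g : X → Y} {k : X} (h : k ∈ U) :
    negPart U g k = ((g k : Y) : OnePoint Y) := if_pos h

theorem negPart_of_notMem {X Y : Type} {U : Set X} {g : X → Y} {k : X} (h : k ∉ U) :
    negPart U g k = OnePoint.infty := if_neg h

theorem negPart_pre {X Y : Type} (U : Set X) (g : X → Y) (V : Set Y) :
    {k | ∃ l ∈ V, negPart U g k = (l : OnePoint Y)} = U ∩ g ⁻¹' V := by
  ext k
  constructor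
  · rintro ⟨l, hl, hk⟩
    by_cases h : k ∈ U
    · rw [negPart_of_mem h] at hk
      have := OnePoint.coe_injective hk
      exact ⟨h, by rw [mem_preimage, this]; exact hl⟩
    · rw [negPart_of_notMem h] at hk
      exact absurd hk (OnePoint.infty_ne_coe l)
  · rintro ⟨h, hk⟩
    exact ⟨g k, hk, negPart_of_mem h⟩

/-- a partial map which is proper on an open set -/
def negMk {K L : LC} (U : Set K) (hU : IsOpen U) (g : K → L) (hg : ContinuousOn g U)
    (hP : ∀ C : Set L, IsCompact C → ∃ P : Set K, IsCompact P ∧ P ⊆ U ∧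
      ∀ k ∈ U, g k ∈ C → k ∈ P) : PMap K L.plus :=
  PMap.mk' (K := K) (L := L) (negPart U g)
    (by
      intro V hV
      rw [negPart_pre]
      exact hg.isOpen_inter_preimage hU hV)
    (by
      intro C hC
      rw [negPart_pre]
      obtain ⟨P, hPc, hPU, hP⟩ := hP C hC
      have h1 : U ∩ g ⁻¹' C = P ∩ g ⁻¹' C := by
        ext k
        exact ⟨fun h => ⟨hP k h.1 h.2, h.2⟩, fun h => ⟨hPU h.1, h.2⟩⟩
      rw [h1]
      exact hPc.of_isClosed_subset
        ((hg.mono hPU).preimage_isClosed_of_isClosed hPc.isClosed hC.isClosed) inter_subset_left)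

/-- `|re z| (1 - t) + t` -/
def negN (k : LC.I.prod LC.C) : ℝ := |k.2.re| * (1 - (k.1 : ℝ)) + (k.1 : ℝ)

theorem negN_cont : Continuous negN := by
  unfold negN
  exact ((Complex.continuous_re.comp continuous_snd).abs.mul
    (continuous_const.sub (continuous_subtype_val.comp continuous_fst))).add
      (continuous_subtype_val.comp continuous_fst)

theorem negN_nonneg (k : LC.I.prod LC.C) : 0 ≤ negN k := by
  unfold negN
  have h1 : 0 ≤ 1 - (k.1 : ℝ) := sub_nonneg.2 k.1.2.2
  have h2 : 0 ≤ (k.1 : ℝ) := k.1.2.1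
  positivity

/-- the domain of the null-homotopy -/
def negU : Set (LC.I.prod LC.C) := {k | (k.1 : ℝ) < 1 ∧ 0 < negN k}

/-- the null-homotopy on its domain -/
def negG (k : LC.I.prod LC.C) : LC.C :=
  (⟨(1 - (k.1 : ℝ)) / negN k - negN k / (1 - (k.1 : ℝ)), k.2.im⟩ : ℂ)

theorem negU_open : IsOpen negU :=
  (isOpen_lt (continuous_subtype_val.comp continuous_fst) continuous_const).inter
    (isOpen_lt continuous_const negN_cont)

theorem negG_cont : ContinuousOn negG negU := by
  have h1 : Continuous fun k : LC.I.prod LC.C => 1 - (k.1 : ℝ) :=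
    continuous_const.sub (continuous_subtype_val.comp continuous_fst)
  have h2 : ContinuousOn (fun k : LC.I.prod LC.C =>
      (1 - (k.1 : ℝ)) / negN k - negN k / (1 - (k.1 : ℝ))) negU := by
    refine (h1.continuousOn.div negN_cont.continuousOn fun k hk => hk.2.ne').sub
      (negN_cont.continuousOn.div h1.continuousOn fun k hk => (sub_pos.2 hk.1).ne')
  exact Complex.equivRealProdCLM.symm.continuous.comp_continuousOn
    (h2.prodMk (Complex.continuous_im.comp continuous_snd).continuousOn)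

/-- a compact set which contains the points whose image is in the box of size `M` -/
def negP (M : ℝ) : Set (LC.I.prod LC.C) :=
  {k | |(1 - (k.1 : ℝ)) ^ 2 - negN k ^ 2| ≤ M * (negN k * (1 - (k.1 : ℝ))) ∧ |k.2.im| ≤ M ∧
    |k.2.re| ≤ M + 1}

theorem negP_compact (M : ℝ) : IsCompact (negP M) := by
  have h1 : Continuous fun k : LC.I.prod LC.C => 1 - (k.1 : ℝ) :=
    continuous_const.sub (continuous_subtype_val.comp continuous_fst)
  have hcl : IsClosed (negP M) :=
    (isClosed_le ((h1.pow 2).sub (negN_cont.pow 2)).abs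
      (continuous_const.mul (negN_cont.mul h1))).inter
    ((isClosed_le (Complex.continuous_im.comp continuous_snd).abs continuous_const).inter
      (isClosed_le (Complex.continuous_re.comp continuous_snd).abs continuous_const))
  have hc : IsCompact ((univ : Set LC.I) ×ˢ Metric.closedBall (0 : ℂ) ((M + 1) + M)) :=
    isCompact_univ.prod (isCompact_closedBall _ _)
  refine hc.of_isClosed_subset hcl ?_
  rintro k ⟨-, h2, h3⟩
  refine ⟨mem_univ _, ?_⟩
  rw [mem_closedBall_zero_iff]
  exact (Complex.norm_le_abs_re_add_abs_im k.2).trans (add_le_add h3 h2)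

theorem negP_sub (M : ℝ) : negP M ⊆ negU := by
  rintro k ⟨h1, -, -⟩
  have ht : 0 ≤ 1 - (k.1 : ℝ) := sub_nonneg.2 k.1.2.2
  have hN := negN_nonneg k
  have e1 : (k.1 : ℝ) ≠ 1 := by
    intro h
    have e2 : negN k = 1 := by
      unfold negN
      rw [h]
      ring
    rw [e2, h] at h1
    norm_num at h1
  refine ⟨lt_of_le_of_ne k.1.2.2 e1, lt_of_le_of_ne hN fun h => ?_⟩
  rw [← h] at h1
  have h2 : (1 - (k.1 : ℝ)) ^ 2 ≤ 0 := by
    have := (le_abs_self _).trans h1
    simpa using this
  have h3 : (1 - (k.1 : ℝ)) = 0 := by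
    have := sq_nonneg (1 - (k.1 : ℝ))
    exact pow_eq_zero_iff (two_ne_zero) |>.1 (le_antisymm h2 this)
  exact e1 (by linarith)

theorem negG_mem (M : ℝ) (hM : 0 ≤ M) (k : LC.I.prod LC.C) (hk : k ∈ negU)
    (h1 : |(negG k).re| ≤ M) (h2 : |(negG k).im| ≤ M) : k ∈ negP M := by
  have hs : 0 < 1 - (k.1 : ℝ) := sub_pos.2 hk.1
  have hN : 0 < negN k := hk.2
  have h1' : |(1 - (k.1 : ℝ)) / negN k - negN k / (1 - (k.1 : ℝ))| ≤ M := h1
  refine ⟨?_, h2, ?_⟩
  · have e1 : (1 - (k.1 : ℝ)) ^ 2 - negN k ^ 2 =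
        ((1 - (k.1 : ℝ)) / negN k - negN k / (1 - (k.1 : ℝ))) * (negN k * (1 - (k.1 : ℝ))) := by
      field_simp
    rw [e1, abs_mul, abs_of_pos (mul_pos hN hs)]
    exact mul_le_mul_of_nonneg_right h1' (mul_pos hN hs).le
  · have hx : |k.2.re| ≤ negN k / (1 - (k.1 : ℝ)) := by
      rw [le_div_iff₀ hs]
      unfold negN
      have := k.1.2.1
      linarith
    refine hx.trans ?_
    by_contra hlt
    rw [not_le] at hlt
    set x := negN k / (1 - (k.1 : ℝ)) with hxdef
    have e2 : (1 - (k.1 : ℝ)) / negN k = 1 / x := by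
      rw [hxdef, one_div_div]
    rw [e2] at h1'
    have hx1 : 1 < x := by linarith
    have h3 : 1 / x < 1 := by
      rw [div_lt_one (by linarith)]
      exact hx1
    have h4 := (abs_le.1 h1').1
    linarith

/-- the null-homotopy -/
def negH : PMap (LC.I.prod LC.C) LC.C.plus :=
  negMk (K := LC.I.prod LC.C) (L := LC.C) negU negU_open negG negG_cont (by
    intro C hC
    obtain ⟨M, hM⟩ := hC.isBounded.exists_norm_le
    refine ⟨negP (max M 0), negP_compact _, negP_sub _, fun k hk hkC => ?_⟩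
    have h1 := (hM _ hkC).trans (le_max_left M 0)
    exact negG_mem _ (le_max_right _ _) k hk ((Complex.abs_re_le_norm _).trans h1)
      ((Complex.abs_im_le_norm _).trans h1))

/-- inverse law -/
theorem pinch_neg :
    (((PMap.id LC.C).copair (PMap.ofHomeo negre)).comp pinch).Homotopic
      (PMap.zero LC.C LC.C.plus) := by
  refine ⟨negH, ?_, ?_⟩
  · intro z
    change negPart negU negG ((0 : unitInterval), z) =
      ((PMap.id LC.C).copair (PMap.ofHomeo negre)).plus (pinchFun z)
    have hN : negN ((0 : unitInterval), z) = |z.re| := by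
      unfold negN
      simp
    unfold pinchFun
    rcases lt_trichotomy z.re 0 with h | h | h
    · rw [if_pos h]
      have hU : (((0 : unitInterval), z) : LC.I.prod LC.C) ∈ negU := by
        refine ⟨by simp, ?_⟩
        rw [hN]
        exact abs_pos.2 h.ne
      rw [negPart_of_mem hU]
      change ((negG ((0 : unitInterval), z) : ℂ) : OnePoint ℂ) =
        (((⟨z.re - 1 / z.re, z.im⟩ : ℂ)) : OnePoint ℂ)
      congr 1
      unfold negG
      rw [hN, abs_of_neg h]
      apply Complex.ext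
      · simp
        ring
      · rfl
    · rw [if_neg (by rw [h]; exact lt_irrefl _), if_neg (by rw [h]; exact lt_irrefl _)]
      have hU : (((0 : unitInterval), z) : LC.I.prod LC.C) ∉ negU := by
        rintro ⟨-, h2⟩
        rw [hN, h] at h2
        simp at h2
      rw [negPart_of_notMem hU]
      rfl
    · rw [if_neg (not_lt.2 h.le), if_pos h]
      have hU : (((0 : unitInterval), z) : LC.I.prod LC.C) ∈ negU := by
        refine ⟨by simp, ?_⟩
        rw [hN]
        exact abs_pos.2 h.ne'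
      rw [negPart_of_mem hU]
      change ((negG ((0 : unitInterval), z) : ℂ) : OnePoint ℂ) =
        (((⟨-(z.re - 1 / z.re), z.im⟩ : ℂ)) : OnePoint ℂ)
      congr 1
      unfold negG
      rw [hN, abs_of_pos h]
      apply Complex.ext
      · simp
      · rfl
  · intro z
    change negPart negU negG ((1 : unitInterval), z) = OnePoint.infty
    refine negPart_of_notMem ?_
    rintro ⟨h1, -⟩
    exact absurd h1 (by simp)

theorem pinch'_unit_left :
    (((PMap.id LC.C).copair (PMap.zero LC.C LC.C.plus)).comp pinch').Homotopic (PMap.id LC.C) := by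
  have h := PMap.Homotopic.comp_right (PMap.ofHomeo reim)
    (PMap.Homotopic.comp_left pinchU_left (PMap.ofHomeo reim))
  rw [pinchU_reim_reim] at h
  rw [pinchU_reim_conj (PMap.id LC.C) (PMap.zero LC.C LC.C.plus) rfl rfl]
  exact h

theorem pinch'_unit_right :
    (((PMap.zero LC.C LC.C.plus).copair (PMap.id LC.C)).comp pinch').Homotopic (PMap.id LC.C) := by
  have h := PMap.Homotopic.comp_right (PMap.ofHomeo reim)
    (PMap.Homotopic.comp_left pinchU_right (PMap.ofHomeo reim))
  rw [pinchU_reim_reim] at h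
  rw [pinchU_reim_conj (PMap.zero LC.C LC.C.plus) (PMap.id LC.C) rfl rfl]
  exact h

theorem pinch_apply_neg {z : ℂ} (h : z.re < 0) :
    pinch z = ((Sum.inl ⟨z.re - 1 / z.re, z.im⟩ : ℂ ⊕ ℂ) : OnePoint (ℂ ⊕ ℂ)) := if_pos h

theorem pinch_apply_pos {z : ℂ} (h : 0 < z.re) :
    pinch z = ((Sum.inr ⟨z.re - 1 / z.re, z.im⟩ : ℂ ⊕ ℂ) : OnePoint (ℂ ⊕ ℂ)) :=
  (if_neg (not_lt.2 h.le)).trans (if_pos h)

theorem pinch_apply_zero {z : ℂ} (h : z.re = 0) : pinch z = (OnePoint.infty : OnePoint (ℂ ⊕ ℂ)) :=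
  (if_neg (not_lt.2 h.ge)).trans (if_neg (not_lt.2 h.le))

theorem pinch'_apply_neg {z : ℂ} (h : z.im < 0) :
    pinch' z = ((Sum.inl ⟨z.re, z.im - 1 / z.im⟩ : ℂ ⊕ ℂ) : OnePoint (ℂ ⊕ ℂ)) := by
  change ((PMap.ofHomeo reim).sumMap (PMap.ofHomeo reim)).plus (pinch (⟨z.im, z.re⟩ : ℂ)) = _
  rw [pinch_apply_neg (z := ⟨z.im, z.re⟩) h]
  rfl

theorem pinch'_apply_pos {z : ℂ} (h : 0 < z.im) :
    pinch' z = ((Sum.inr ⟨z.re, z.im - 1 / z.im⟩ : ℂ ⊕ ℂ) : OnePoint (ℂ ⊕ ℂ)) := by
  change ((PMap.ofHomeo reim).sumMap (PMap.ofHomeo reim)).plus (pinch (⟨z.im, z.re⟩ : ℂ)) = _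
  rw [pinch_apply_pos (z := ⟨z.im, z.re⟩) h]
  rfl

theorem pinch'_apply_zero {z : ℂ} (h : z.im = 0) :
    pinch' z = (OnePoint.infty : OnePoint (ℂ ⊕ ℂ)) := by
  change ((PMap.ofHomeo reim).sumMap (PMap.ofHomeo reim)).plus (pinch (⟨z.im, z.re⟩ : ℂ)) = _
  rw [pinch_apply_zero (z := ⟨z.im, z.re⟩) h]
  rfl

/-- the two pinch maps commute -/
theorem pinch_interchange :
    (pinch'.sumMap pinch').comp pinch = (mid4 LC.C).comp ((pinch.sumMap pinch).comp pinch') := by
  ext z
  change (pinch'.sumMap pinch').plus (pinch z) =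
    (mid4 LC.C).plus ((pinch.sumMap pinch).plus (pinch' z))
  rcases lt_trichotomy z.re 0 with h1 | h1 | h1
  · rw [pinch_apply_neg h1]
    change (PMap.inl _ _).plus (pinch' (⟨z.re - 1 / z.re, z.im⟩ : ℂ)) = _
    rcases lt_trichotomy z.im 0 with h2 | h2 | h2
    · rw [pinch'_apply_neg h2, pinch'_apply_neg (z := ⟨z.re - 1 / z.re, z.im⟩) h2]
      change _ = (mid4 LC.C).plus ((PMap.inl _ _).plus (pinch (⟨z.re, z.im - 1 / z.im⟩ : ℂ)))
      rw [pinch_apply_neg (z := ⟨z.re, z.im - 1 / z.im⟩) h1]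
      rfl
    · rw [pinch'_apply_zero h2, pinch'_apply_zero (z := ⟨z.re - 1 / z.re, z.im⟩) h2]
      rfl
    · rw [pinch'_apply_pos h2, pinch'_apply_pos (z := ⟨z.re - 1 / z.re, z.im⟩) h2]
      change _ = (mid4 LC.C).plus ((PMap.inr _ _).plus (pinch (⟨z.re, z.im - 1 / z.im⟩ : ℂ)))
      rw [pinch_apply_neg (z := ⟨z.re, z.im - 1 / z.im⟩) h1]
      rfl
  · rw [pinch_apply_zero h1]
    rcases lt_trichotomy z.im 0 with h2 | h2 | h2
    · rw [pinch'_apply_neg h2]
      change _ = (mid4 LC.C).plus ((PMap.inl _ _).plus (pinch (⟨z.re, z.im - 1 / z.im⟩ : ℂ)))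
      rw [pinch_apply_zero (z := ⟨z.re, z.im - 1 / z.im⟩) h1]
      rfl
    · rw [pinch'_apply_zero h2]
      rfl
    · rw [pinch'_apply_pos h2]
      change _ = (mid4 LC.C).plus ((PMap.inr _ _).plus (pinch (⟨z.re, z.im - 1 / z.im⟩ : ℂ)))
      rw [pinch_apply_zero (z := ⟨z.re, z.im - 1 / z.im⟩) h1]
      rfl
  · rw [pinch_apply_pos h1]
    change (PMap.inr _ _).plus (pinch' (⟨z.re - 1 / z.re, z.im⟩ : ℂ)) = _
    rcases lt_trichotomy z.im 0 with h2 | h2 | h2
    · rw [pinch'_apply_neg h2, pinch'_apply_neg (z := ⟨z.re - 1 / z.re, z.im⟩) h2]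
      change _ = (mid4 LC.C).plus ((PMap.inl _ _).plus (pinch (⟨z.re, z.im - 1 / z.im⟩ : ℂ)))
      rw [pinch_apply_pos (z := ⟨z.re, z.im - 1 / z.im⟩) h1]
      rfl
    · rw [pinch'_apply_zero h2, pinch'_apply_zero (z := ⟨z.re - 1 / z.re, z.im⟩) h2]
      rfl
    · rw [pinch'_apply_pos h2, pinch'_apply_pos (z := ⟨z.re - 1 / z.re, z.im⟩) h2]
      change _ = (mid4 LC.C).plus ((PMap.inr _ _).plus (pinch (⟨z.re, z.im - 1 / z.im⟩ : ℂ)))
      rw [pinch_apply_pos (z := ⟨z.re, z.im - 1 / z.im⟩) h1]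
      rfl

/-- distributivity -/
def dist (K L Z : LC) : (K.sum L).prod Z ≃ₜ (K.prod Z).sum (L.prod Z) := Homeomorph.sumProdDistrib

/-- the pinch map `ℂ × K → (ℂ × K) ⊔ (ℂ × K)` -/
def pinchK (K : LC) : PMap (LC.C.prod K) ((LC.C.prod K).sum (LC.C.prod K)).plus :=
  (PMap.ofHomeo (dist LC.C LC.C K)).comp (pinch.tens K)

/-- the pinch map in the imaginary coordinate -/
def pinchK' (K : LC) : PMap (LC.C.prod K) ((LC.C.prod K).sum (LC.C.prod K)).plus :=
  (PMap.ofHomeo (dist LC.C LC.C K)).comp (pinch'.tens K)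

theorem dist_smash_aux {L : LC} (m : PMap LC.C (LC.C.sum LC.C).plus) (z : ℂ) (y : OnePoint L) :
    ((PMap.ofHomeo (dist LC.C LC.C L)).comp (m.tens L)).plus
      (smashPt LC.C L ((z : OnePoint ℂ), y)) =
    (PMap.ofHomeo (dist LC.C LC.C L)).plus (smashPt (LC.C.sum LC.C) L (m z, y)) := by
  rcases y with _ | l
  · change (OnePoint.infty : OnePoint _) = (PMap.ofHomeo (dist LC.C LC.C L)).plus
      (smashPt (LC.C.sum LC.C) L (m z, (OnePoint.infty : OnePoint L)))
    rw [smashPt_inf_right]
    rfl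
  · rfl

theorem dist_smash_aux2 {K L : LC} (f : PMap K L.plus) (p : OnePoint (ℂ ⊕ ℂ)) (k : K) :
    ((PMap.ltens LC.C f).sumMap (PMap.ltens LC.C f)).plus
      ((PMap.ofHomeo (dist LC.C LC.C K)).plus (smashPt (LC.C.sum LC.C) K (p, (k : OnePoint K)))) =
    (PMap.ofHomeo (dist LC.C LC.C L)).plus (smashPt (LC.C.sum LC.C) L (p, f k)) := by
  rcases p with _ | (a | a)
  · rfl
  · change (PMap.inl _ _).plus (smashPt LC.C L ((a : OnePoint ℂ), f k)) = _
    rcases f k with _ | l <;> rfl
  · change (PMap.inr _ _).plus (smashPt LC.C L ((a : OnePoint ℂ), f k)) = _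
    rcases f k with _ | l <;> rfl

theorem pinchK_natural {K L : LC} (f : PMap K L.plus) :
    (pinchK L).comp (PMap.ltens LC.C f) =
      ((PMap.ltens LC.C f).sumMap (PMap.ltens LC.C f)).comp (pinchK K) := by
  ext ⟨z, k⟩
  exact (dist_smash_aux pinch z (f k)).trans (dist_smash_aux2 f (pinch z) k).symm

/-! ### Consequences for `ℂ × K` -/

theorem copair_comp {K L K' : LC} {Y : PT} (f : PMap K Y) (g : PMap L Y) (a : PMap K' (K.sum L).plus) :
    (f.copair g).comp a = (f.copair g).comp a := rfl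

theorem zero_box {K L Z W : LC} (g : PMap Z W.plus) :
    (PMap.zero K L.plus).box g = PMap.zero (K.prod Z) (L.prod W).plus := by
  ext x; rfl

/-- a homotopy `(f ⊔ g) m ~ k` for maps of `ℂ` gives one for `ℂ × K` -/
theorem pinchK_aux (m : PMap LC.C (LC.C.sum LC.C).plus) (f g k : PMap LC.C LC.C.plus)
    (hm : ((f.copair g).comp m).Homotopic k) (K : LC) :
    (((f.tens K).copair (g.tens K)).comp
      ((PMap.ofHomeo (dist LC.C LC.C K)).comp (m.tens K))).Homotopic (k.tens K) := by
  have h1 := hm.box_left (PMap.id K)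
  have h2 : ((f.tens K).copair (g.tens K)).comp
      ((PMap.ofHomeo (dist LC.C LC.C K)).comp (m.tens K)) =
      ((f.copair g).comp m).box (PMap.id K) := by
    ext x
    obtain ⟨z, y⟩ := x
    change ((f.tens K).copair (g.tens K)).plus ((PMap.ofHomeo (dist LC.C LC.C K)).plus
      (smashPt (LC.C.sum LC.C) K (m z, (y : OnePoint K)))) =
      smashPt LC.C K ((f.copair g).plus (m z), (y : OnePoint K))
    rcases m z with _ | (a | a)
    · rfl
    · rfl
    · rfl
  rw [h2]
  exact h1

theorem pinchK_unit_left (K : LC) :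
    (((PMap.id (LC.C.prod K)).copair (PMap.zero _ _)).comp (pinchK K)).Homotopic (PMap.id _) := by
  have := pinchK_aux pinch (PMap.id LC.C) (PMap.zero _ _) (PMap.id LC.C) pinch_unit_left K
  rw [PMap.tens, PMap.tens, PMap.box_id, zero_box] at this
  exact this

theorem pinchK_unit_right (K : LC) :
    (((PMap.zero _ _).copair (PMap.id (LC.C.prod K))).comp (pinchK K)).Homotopic (PMap.id _) := by
  have := pinchK_aux pinch (PMap.zero _ _) (PMap.id LC.C) (PMap.id LC.C) pinch_unit_right K
  rw [PMap.tens, PMap.tens, PMap.box_id, zero_box] at this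
  exact this

theorem pinchK'_unit_left (K : LC) :
    (((PMap.id (LC.C.prod K)).copair (PMap.zero _ _)).comp (pinchK' K)).Homotopic (PMap.id _) := by
  have := pinchK_aux pinch' (PMap.id LC.C) (PMap.zero _ _) (PMap.id LC.C) pinch'_unit_left K
  rw [PMap.tens, PMap.tens, PMap.box_id, zero_box] at this
  exact this

theorem pinchK'_unit_right (K : LC) :
    (((PMap.zero _ _).copair (PMap.id (LC.C.prod K))).comp (pinchK' K)).Homotopic (PMap.id _) := by
  have := pinchK_aux pinch' (PMap.zero _ _) (PMap.id LC.C) (PMap.id LC.C) pinch'_unit_right K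
  rw [PMap.tens, PMap.tens, PMap.box_id, zero_box] at this
  exact this

theorem pinchK_neg (K : LC) :
    (((PMap.id (LC.C.prod K)).copair ((PMap.ofHomeo negre).tens K)).comp (pinchK K)).Homotopic
      (PMap.zero _ _) := by
  have := pinchK_aux pinch (PMap.id LC.C) (PMap.ofHomeo negre) (PMap.zero _ _) pinch_neg K
  rw [PMap.tens, PMap.box_id] at this
  rw [← zero_box (PMap.id K)]
  exact this

/-- the inclusion of four copies of `ℂ` at the point `k` -/
def at4 (K : LC) (k : K) (x : OnePoint ((ℂ ⊕ ℂ) ⊕ (ℂ ⊕ ℂ))) :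
    OnePoint (((ℂ × K) ⊕ (ℂ × K)) ⊕ ((ℂ × K) ⊕ (ℂ × K))) :=
  OnePoint.elim x OnePoint.infty fun s =>
    ((Sum.map (Sum.map (fun a => (a, k)) fun a => (a, k))
      (Sum.map (fun a => (a, k)) fun a => (a, k)) s :
      ((ℂ × K) ⊕ (ℂ × K)) ⊕ ((ℂ × K) ⊕ (ℂ × K))) : OnePoint _)

theorem at4_sumMap (m n : PMap LC.C (LC.C.sum LC.C).plus) (K : LC) (z : ℂ) (k : K) :
    ((((PMap.ofHomeo (dist LC.C LC.C K)).comp (n.tens K)).sumMap
      ((PMap.ofHomeo (dist LC.C LC.C K)).comp (n.tens K))).comp
      ((PMap.ofHomeo (dist LC.C LC.C K)).comp (m.tens K))) (z, k) =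
    at4 K k (((n.sumMap n).comp m) z) := by
  change (((PMap.ofHomeo (dist LC.C LC.C K)).comp (n.tens K)).sumMap
      ((PMap.ofHomeo (dist LC.C LC.C K)).comp (n.tens K))).plus
      ((PMap.ofHomeo (dist LC.C LC.C K)).plus
        (smashPt (LC.C.sum LC.C) K (m z, (k : OnePoint K)))) =
    at4 K k ((n.sumMap n).plus (m z))
  rcases m z with _ | (a | a)
  · rfl
  · change (PMap.inl ((LC.C.prod K).sum (LC.C.prod K)) ((LC.C.prod K).sum (LC.C.prod K))).plus
        ((PMap.ofHomeo (dist LC.C LC.C K)).plus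
          (smashPt (LC.C.sum LC.C) K (n a, (k : OnePoint K)))) =
      at4 K k ((PMap.inl (LC.C.sum LC.C) (LC.C.sum LC.C)).plus (n a))
    rcases n a with _ | (b | b) <;> rfl
  · change (PMap.inr ((LC.C.prod K).sum (LC.C.prod K)) ((LC.C.prod K).sum (LC.C.prod K))).plus
        ((PMap.ofHomeo (dist LC.C LC.C K)).plus
          (smashPt (LC.C.sum LC.C) K (n a, (k : OnePoint K)))) =
      at4 K k ((PMap.inr (LC.C.sum LC.C) (LC.C.sum LC.C)).plus (n a))
    rcases n a with _ | (b | b) <;> rfl

theorem at4_mid4 (K : LC) (k : K) (x : OnePoint ((ℂ ⊕ ℂ) ⊕ (ℂ ⊕ ℂ))) :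
    at4 K k ((mid4 LC.C).plus x) = (mid4 (LC.C.prod K)).plus (at4 K k x) := by
  rcases x with _ | ((a | a) | (a | a)) <;> rfl

theorem pinchK_interchange (K : LC) :
    ((pinchK' K).sumMap (pinchK' K)).comp (pinchK K) =
      (mid4 (LC.C.prod K)).comp (((pinchK K).sumMap (pinchK K)).comp (pinchK' K)) := by
  ext ⟨z, k⟩
  refine (at4_sumMap pinch pinch' K z k).trans ?_
  rw [pinch_interchange]
  refine (at4_mid4 K k (((pinch.sumMap pinch).comp pinch') z)).trans ?_
  exact congrArg (mid4 (LC.C.prod K)).plus (at4_sumMap pinch' pinch K z k).symm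

/-! ## The group structure on `F (ℂ × K)` -/

namespace IsAddFun

variable {F : LCᵒᵖ ⥤ Type} (h : IsAddFun F)

/-- the sum of two elements of `F (ℂ × K)` -/
def add {K : LC} (x y : F.obj (op (LC.C.prod K))) : F.obj (op (LC.C.prod K)) :=
  h.op2 (pinchK K) x y

/-- the negative of an element of `F (ℂ × K)` -/
def neg {F : LCᵒᵖ ⥤ Type} {K : LC} (x : F.obj (op (LC.C.prod K))) : F.obj (op (LC.C.prod K)) :=
  pb F ((PMap.ofHomeo negre).tens K) x

theorem add_zero {K : LC} (x : F.obj (op (LC.C.prod K))) : h.add x (h.zero _) = x :=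
  h.op2_zero _ (pinchK_unit_left K) x

theorem zero_add {K : LC} (x : F.obj (op (LC.C.prod K))) : h.add (h.zero _) x = x :=
  h.zero_op2 _ (pinchK_unit_right K) x

theorem add_neg {K : LC} (x : F.obj (op (LC.C.prod K))) : h.add x (neg x) = h.zero _ := by
  have h1 := pb_homotopic F (pinchK_neg K)
  have h2 := congrFun h1 x
  rw [pb_comp, ← h.pair_copair, pb_id, h.pb_zeroMap] at h2
  exact h2

theorem unital_add (K : LC) : EckmannHilton.IsUnital (h.add (K := K)) (h.zero _) :=
  { left_id := h.zero_add, right_id := h.add_zero }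

theorem unital_op2 {K : LC} (m : PMap (LC.C.prod K) ((LC.C.prod K).sum (LC.C.prod K)).plus)
    (m1 : (((PMap.id _).copair (PMap.zero _ _)).comp m).Homotopic (PMap.id (LC.C.prod K)))
    (m2 : (((PMap.zero _ _).copair (PMap.id _)).comp m).Homotopic (PMap.id (LC.C.prod K))) :
    EckmannHilton.IsUnital (h.op2 m) (h.zero _) :=
  { left_id := h.zero_op2 m m2, right_id := h.op2_zero m m1 }

/-- If a binary operation on `F (ℂ × K)` is of the form `pb m (pair x y)` for a map `m`, is
unital, and `m` commutes with the pinch map of `ℂ`, then it is the addition. -/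
theorem op2_eq_add {K : LC}
    (m : PMap (LC.C.prod K) ((LC.C.prod K).sum (LC.C.prod K)).plus)
    (m1 : (((PMap.id _).copair (PMap.zero _ _)).comp m).Homotopic (PMap.id (LC.C.prod K)))
    (m2 : (((PMap.zero _ _).copair (PMap.id _)).comp m).Homotopic (PMap.id (LC.C.prod K)))
    (m3 : (((pinchK K).sumMap (pinchK K)).comp m).Homotopic
      ((mid4 (LC.C.prod K)).comp ((m.sumMap m).comp (pinchK K))))
    (x y : F.obj (op (LC.C.prod K))) : h.op2 m x y = h.add x y := by
  have := EckmannHilton.mul (h.unital_op2 m m1 m2) (h.unital_add K)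
    (fun a b c d => h.op2_interchange m (pinchK K) m3 a b c d)
  rw [this]

theorem add_comm {K : LC} (x y : F.obj (op (LC.C.prod K))) : h.add x y = h.add y x := by
  have := EckmannHilton.mul_comm (h.unital_add K)
    (h.unital_op2 (pinchK' K) (pinchK'_unit_left K) (pinchK'_unit_right K))
    (fun a b c d => h.op2_interchange (pinchK K) (pinchK' K)
      (by rw [pinchK_interchange]; exact PMap.Homotopic.refl _) a b c d)
  have h2 := EckmannHilton.mul (h.unital_add K)
    (h.unital_op2 (pinchK' K) (pinchK'_unit_left K) (pinchK'_unit_right K))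
    (fun a b c d => h.op2_interchange (pinchK K) (pinchK' K)
      (by rw [pinchK_interchange]; exact PMap.Homotopic.refl _) a b c d)
  rw [h2]
  exact this.comm x y

theorem add_assoc {K : LC} (x y z : F.obj (op (LC.C.prod K))) :
    h.add (h.add x y) z = h.add x (h.add y z) := by
  have := EckmannHilton.mul_assoc (h.unital_add K)
    (h.unital_op2 (pinchK' K) (pinchK'_unit_left K) (pinchK'_unit_right K))
    (fun a b c d => h.op2_interchange (pinchK K) (pinchK' K)
      (by rw [pinchK_interchange]; exact PMap.Homotopic.refl _) a b c d)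
  have h2 := EckmannHilton.mul (h.unital_add K)
    (h.unital_op2 (pinchK' K) (pinchK'_unit_left K) (pinchK'_unit_right K))
    (fun a b c d => h.op2_interchange (pinchK K) (pinchK' K)
      (by rw [pinchK_interchange]; exact PMap.Homotopic.refl _) a b c d)
  rw [h2]
  exact this.assoc x y z

/-- `F (ℂ × K)` as an abelian group -/
@[reducible] def grp (K : LC) : AddCommGroup (F.obj (op (LC.C.prod K))) :=
  letI : Add (F.obj (op (LC.C.prod K))) := ⟨h.add⟩
  letI : Zero (F.obj (op (LC.C.prod K))) := ⟨h.zero _⟩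
  letI : Neg (F.obj (op (LC.C.prod K))) := ⟨neg⟩
  { add_assoc := h.add_assoc
    zero_add := h.zero_add
    add_zero := h.add_zero
    add_comm := h.add_comm
    neg_add_cancel := fun x => (h.add_comm _ _).trans (h.add_neg x)
    nsmul := nsmulRec
    zsmul := zsmulRec }

/-- every map `K → L` induces an additive map `F (ℂ × L) → F (ℂ × K)` -/
theorem add_pb {K L : LC} (f : PMap K L.plus) (x y : F.obj (op (LC.C.prod L))) :
    pb F (PMap.ltens LC.C f) (h.add x y) =
      h.add (pb F (PMap.ltens LC.C f) x) (pb F (PMap.ltens LC.C f) y) := by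
  unfold add op2
  rw [h.pair_pb, ← pb_comp, ← pb_comp, pinchK_natural]

/-- a natural transformation of additive functors commutes with `pair` -/
theorem pair_nat {G : LCᵒᵖ ⥤ Type} (hG : IsAddFun G) (θ : F ⟶ G) {K L : LC}
    (x : F.obj (op K)) (y : F.obj (op L)) :
    θ.app _ (h.pair x y) = hG.pair (θ.app _ x) (θ.app _ y) := by
  apply hG.pair_ext
  · rw [hG.pair_inl]
    change (θ.app _ ≫ G.map _) _ = _
    rw [← θ.naturality]
    exact congrArg (θ.app (op K)) (h.pair_inl x y)
  · rw [hG.pair_inr]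
    change (θ.app _ ≫ G.map _) _ = _
    rw [← θ.naturality]
    exact congrArg (θ.app (op L)) (h.pair_inr x y)

theorem pb_nat {F G : LCᵒᵖ ⥤ Type} (θ : F ⟶ G) {K L : LC} (f : PMap K L.plus) (x : F.obj (op L)) :
    θ.app _ (pb F f x) = pb G f (θ.app _ x) := by
  change (F.map _ ≫ θ.app _) _ = _
  rw [θ.naturality]
  rfl

/-- a natural transformation of additive functors is additive on `F (ℂ × K)` -/
theorem add_nat {G : LCᵒᵖ ⥤ Type} (hG : IsAddFun G) (θ : F ⟶ G) {K : LC}
    (x y : F.obj (op (LC.C.prod K))) :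
    θ.app _ (h.add x y) = hG.add (θ.app _ x) (θ.app _ y) := by
  unfold add op2
  rw [pb_nat, h.pair_nat hG]

theorem zero_nat {G : LCᵒᵖ ⥤ Type} (hG : IsAddFun G) (θ : F ⟶ G) (K : LC) :
    θ.app _ (h.zero K) = hG.zero K := by
  unfold zero
  rw [pb_nat]
  rw [hG.empty.choose_spec (θ.app _ h.empty.choose)]

end IsAddFun

end Pool.Agent.Helper1.Stab
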