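import Pool.Agent.Helper1.Stab.Ori
import Pool.Agent.Helper1.Stab.BSU

/-! Lifting classes of families to families with structure group `SU`. -/

open Topology Filter Set Matrix

noncomputable section

namespace Pool.Agent.Helper68.Stab.ThSU

open Pool.Agent.Helper1.Stab
open Pool.Agent.Helper4.Stab (mat fr fr_out fr_row rw' rw'_lt cr rw'_cr sum_rows)

/-! ### Frames of isometries -/

/-- the frame of an isometry -/
def frm {k : ℕ} (V : Matrix (Fin k × Bool) (Fin k) ℂ) (hV : Vᴴ * V = 1) : Frame k :=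
  ⟨fr V, fun _ _ h => fr_out V h, by
    intro j hj j' hj'
    have h1 := congrFun (congrFun hV ⟨j, hj⟩) ⟨j', hj'⟩
    rw [Matrix.mul_apply, Matrix.one_apply] at h1
    simp only [Fin.mk.injEq, Matrix.conjTranspose_apply] at h1
    rw [← h1, ← sum_rows (k := k)]
    refine Finset.sum_congr rfl fun x _ => ?_
    rw [fr_row V x j hj, fr_row V x j' hj']⟩

theorem mat_frm {k : ℕ} (V : Matrix (Fin k × Bool) (Fin k) ℂ) (hV : Vᴴ * V = 1) :
    mat (frm V hV) = V := by
  ext x c
  exact fr_row V x c c.2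

theorem continuous_frm {k : ℕ} {Y : Type} [TopologicalSpace Y]
    {V : Y → Matrix (Fin k × Bool) (Fin k) ℂ} (hV : ∀ y, (V y)ᴴ * V y = 1) (hc : Continuous V) :
    Continuous fun y => frm (V y) (hV y) := by
  refine Continuous.subtype_mk ?_ _
  refine continuous_pi fun i => continuous_pi fun j => ?_
  by_cases h : i < 2 * k ∧ j < k
  · have e : (fun y => fr (V y) i j) = fun y => V y (cr i h.1) ⟨j, h.2⟩ := by
      funext y
      exact dif_pos h
    rw [e]
    exact hc.matrix_elem _ _
  · have e : (fun y => fr (V y) i j) = fun y => if i = 2 * j then 1 else 0 := by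
      funext y
      exact dif_neg h
    rw [e]
    exact continuous_const

theorem rel_of_mul {k : ℕ} {D : Set ℂ} {A B : Frame k} {g : Matrix (Fin k) (Fin k) ℂ}
    (hg : g ∈ Matrix.unitaryGroup (Fin k) ℂ) (hd : g.det ∈ D) (h : mat B = mat A * g) :
    FrameRel D k A B := by
  refine ⟨g, hg, hd, fun i j => ?_⟩
  by_cases hi : i < 2 * k
  · have h1 := congrFun (congrFun h (cr i hi)) j
    rw [Matrix.mul_apply] at h1
    have h2 : ∀ (C : Frame k) (l : Fin k), mat C (cr i hi) l = C.1 i l := by
      intro C l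
      change C.1 (rw' (cr i hi)) l = _
      rw [rw'_cr]
    simp only [h2] at h1
    exact h1
  · have h1 : ∀ (C : Frame k) (l : Fin k), C.1 i l = 0 := by
      intro C l
      rw [C.2.1 i l (Or.inl (by omega)), if_neg]
      have := l.2
      omega
    rw [h1 B j]
    symm
    refine Finset.sum_eq_zero fun l _ => ?_
    rw [h1 A l, zero_mul]

/-! ### The completed isometry -/

section
variable {Rr C : Type} [Fintype Rr] [Fintype C] [DecidableEq Rr] [DecidableEq C]

/-- the isometry completed by coordinate vectors of a second copy -/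
def big (T : Finset Rr) (w : Matrix Rr C ℂ) : Matrix (Rr × Bool) (C ⊕ T) ℂ := fun x c =>
  match c with
  | .inl c => if x.2 = true then w x.1 c else 0
  | .inr t => if x.2 = true then 0 else if x.1 = t.1 then 1 else 0

theorem big_iso (T : Finset Rr) {w : Matrix Rr C ℂ} (h : wᴴ * w = 1) :
    (big T w)ᴴ * big T w = 1 := by
  ext c c'
  rw [Matrix.mul_apply, Fintype.sum_prod_type]
  simp only [Fintype.sum_bool, Matrix.conjTranspose_apply]
  rcases c with c | c <;> rcases c' with c' | c'
  · have h1 := congrFun (congrFun h c) c'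
    rw [Matrix.mul_apply] at h1
    simp only [Matrix.conjTranspose_apply] at h1
    simp only [big, if_true, Bool.false_eq_true, if_false, star_zero, zero_mul, add_zero]
    rw [h1, Matrix.one_apply, Matrix.one_apply]
    simp only [Sum.inl.injEq]
  · simp [big, Matrix.one_apply]
  · simp [big, Matrix.one_apply]
  · simp only [big, if_true, Bool.false_eq_true, if_false, star_zero, zero_mul, zero_add]
    rw [Finset.sum_eq_single c.1]
    · rw [if_pos rfl, star_one, one_mul, Matrix.one_apply]
      by_cases hc : c = c'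
      · rw [if_pos (congrArg _ hc), if_pos (congrArg _ hc)]
      · rw [if_neg (fun h' => hc (Subtype.ext h')), if_neg (fun h' => hc (Sum.inr_injective h'))]
    · intro b _ hb
      rw [if_neg hb, star_zero, zero_mul]
    · intro h'
      exact absurd (Finset.mem_univ _) h'

theorem big_proj {n : ℕ} (T : Finset Rr) (hT : n + T.card = Fintype.card Rr) {w : Matrix Rr C ℂ}
    (P : Pr Rr n) (h : P.1 = w * wᴴ) : big T w * (big T w)ᴴ = (Pr.toG T hT P).1 := by
  classical
  have hv : ∀ x y, (Pr.toG T hT P).1 x y = if x.2 = true ∧ y.2 = true then P.1 x.1 y.1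
    else if x.2 = false ∧ y.2 = false ∧ x.1 = y.1 ∧ x.1 ∈ T then 1 else 0 := by
    intro x y
    simp only [Pr.toG]
    split_ifs <;> rfl
  ext ⟨x, b⟩ ⟨y, c⟩
  rw [Matrix.mul_apply, Fintype.sum_sum_type, hv]
  simp only [Matrix.conjTranspose_apply]
  have hP : P.1 x y = ∑ c, w x c * star (w y c) := by
    rw [h, Matrix.mul_apply]
    rfl
  cases b <;> cases c
  · simp only [big, Bool.false_eq_true, if_false, zero_mul, Finset.sum_const_zero, zero_add,
      false_and, true_and]
    by_cases hxy : x = y ∧ x ∈ T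
    · rw [if_pos hxy, Finset.sum_eq_single ⟨x, hxy.2⟩]
      · rw [if_pos rfl, if_pos hxy.1.symm, star_one, mul_one]
      · intro b _ hb
        rw [if_neg (fun h' => hb (Subtype.ext h'.symm)), zero_mul]
      · intro h'
        exact absurd (Finset.mem_univ _) h'
    · rw [if_neg hxy]
      refine Finset.sum_eq_zero fun t _ => ?_
      by_cases h1 : x = t.1
      · by_cases h2 : y = t.1
        · exact absurd ⟨h1.trans h2.symm, h1 ▸ t.2⟩ hxy
        · rw [if_neg h2, star_zero, mul_zero]
      · rw [if_neg h1, zero_mul]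
  · simp [big]
  · simp [big]
  · simp only [big, if_true, zero_mul, Finset.sum_const_zero, add_zero, and_self]
    exact hP.symm

theorem big_mul (T : Finset Rr) (w : Matrix Rr C ℂ) (h : Matrix C C ℂ) :
    big T (w * h) = big T w * (fromBlocks h 0 0 1 : Matrix (C ⊕ T) (C ⊕ T) ℂ) := by
  ext ⟨x, b⟩ c
  rw [Matrix.mul_apply, Fintype.sum_sum_type]
  rcases c with c | c
  · cases b
    · simp [big]
    · simp [big, Matrix.mul_apply]
  · cases b
    · simp [big, Matrix.one_apply]
    · simp [big]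

theorem continuous_big (T : Finset Rr) {Y : Type} [TopologicalSpace Y] {w : Y → Matrix Rr C ℂ}
    (hw : Continuous w) : Continuous fun y => big T (w y) := by
  refine continuous_matrix fun x c => ?_
  rcases c with c | c
  · by_cases h : x.2 = true
    · simp only [big, if_pos h]
      exact hw.matrix_elem _ _
    · simp only [big, if_neg h]
      exact continuous_const
  · exact continuous_const

end

/-! ### The lift -/

/-- A family of projections with frames over a quotient cover that differ by matrices in `SU`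
comes from a family with structure group `SU`. -/
theorem exists_su_lift {K : LC} [CompactSpace K] {Y : Type} [TopologicalSpace Y] (p : C(Y, K))
    (hp : IsQuotientMap p) {Rr C : Type} [Fintype Rr] [Fintype C] [DecidableEq C]
    (w : Y → Matrix Rr C ℂ) (hw : Continuous w) (hiso : ∀ y, (w y)ᴴ * w y = 1)
    (hrel : ∀ y y', p y = p y' → ∃ h ∈ Matrix.unitaryGroup C ℂ, h.det = 1 ∧ w y' = w y * h)
    {m : ℕ} (hm : m = Fintype.card C) (hle : m ≤ Fintype.card Rr) (E : C(K, Pr Rr m))
    (hE : ∀ y, (E (p y)).1 = w y * (w y)ᴴ) :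
    ∃ (n : ℕ) (Q : C(K, Gr {1} n)), ∀ R : GBiv, R.bun E =
      R.comp (R.J (PMap.ofCont (K := K) (L := LC.G (Fin n)) (fun x => Gr.toGK (Gr.toU (Q x)))
        (Gr.toGK_continuous.comp (Gr.toU.continuous.comp Q.continuous)))) (R.g (Fin n)) := by
  classical
  obtain ⟨T, hT⟩ := exists_compl hle
  let n := Fintype.card Rr
  let ε : Fin n ≃ Rr := (Fintype.equivFin Rr).symm
  have hcard : Fintype.card (C ⊕ T) = n := by
    rw [Fintype.card_sum, Fintype.card_coe, ← hm]
    exact hT
  let η : Fin n ≃ C ⊕ T := (Fintype.equivFinOfCardEq hcard).symm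
  let V : Y → Matrix (Fin n × Bool) (Fin n) ℂ := fun y =>
    (big T (w y)).submatrix (ε.prodCongr (Equiv.refl Bool)) η
  have hV : ∀ y, (V y)ᴴ * V y = 1 := by
    intro y
    change ((big T (w y)).submatrix (ε.prodCongr (Equiv.refl Bool)) η)ᴴ *
      ((big T (w y)).submatrix (ε.prodCongr (Equiv.refl Bool)) η) = 1
    rw [Matrix.conjTranspose_submatrix, Matrix.submatrix_mul_equiv, big_iso T (hiso y),
      Matrix.submatrix_one_equiv]
  have hVc : Continuous V := (continuous_big T hw).matrix_submatrix _ _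
  let f : C(Y, Gr {1} n) := ⟨fun y => Quot.mk _ (frm (V y) (hV y)),
    continuous_quot_mk.comp (continuous_frm hV hVc)⟩
  have hf : Function.FactorsThrough f p := by
    intro y y' hy
    obtain ⟨h, hh, hd, hwy⟩ := hrel y y' hy
    refine Quot.sound (rel_of_mul (g := (fromBlocks h 0 0 1 :
      Matrix (C ⊕ T) (C ⊕ T) ℂ).submatrix η η) ?_ ?_ ?_)
    · rw [Matrix.mem_unitaryGroup_iff'] at hh ⊢
      change ((fromBlocks h 0 0 1 : Matrix (C ⊕ T) (C ⊕ T) ℂ).submatrix η η)ᴴ *
        (fromBlocks h 0 0 1 : Matrix (C ⊕ T) (C ⊕ T) ℂ).submatrix η η = 1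
      have hh' : hᴴ * h = 1 := hh
      rw [Matrix.conjTranspose_submatrix, Matrix.submatrix_mul_equiv,
        Matrix.fromBlocks_conjTranspose, Matrix.fromBlocks_multiply, hh']
      simp
    · rw [Matrix.det_submatrix_equiv_self, Matrix.det_fromBlocks_zero₂₁, hd, Matrix.det_one,
        mul_one]
      exact Set.mem_singleton _
    · rw [mat_frm, mat_frm]
      change (big T (w y')).submatrix (ε.prodCongr (Equiv.refl Bool)) η =
        (big T (w y)).submatrix (ε.prodCongr (Equiv.refl Bool)) η *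
          (fromBlocks h 0 0 1 : Matrix (C ⊕ T) (C ⊕ T) ℂ).submatrix η η
      rw [Matrix.submatrix_mul_equiv, ← big_mul, hwy]
  let Q : C(K, Gr {1} n) := hp.lift f hf
  have hQ : ∀ y, Q (p y) = Quot.mk _ (frm (V y) (hV y)) := fun y =>
    congrArg (fun F : C(Y, Gr {1} n) => F y) (hp.lift_comp f hf)
  refine ⟨n, Q, fun R => ?_⟩
  rw [GBiv.bun_put54 R E hle (GBiv.toGF54 T hT E) (i := Pr.co54 true)
    (A := T.map (Pr.co54 false)) (Pr.co_notMem54 T) (by rw [Finset.card_map]; exact hT)
    (fun k => Pr.put_toG54 T hT (E k))]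
  refine Helper54.Stab.cl_reindex R (F' := ⟨fun x => Gr.toGK (Gr.toU (Q x)),
    Gr.toGK_continuous.comp (Gr.toU.continuous.comp Q.continuous)⟩) ε.symm fun k => ?_
  obtain ⟨y, rfl⟩ := hp.surjective k
  refine Subtype.ext ?_
  change (Gr.toGK (Gr.toU (Q (p y)))).1 = _
  rw [hQ]
  change (Frame.proj (frm (V y) (hV y))).1 = _
  rw [Frame.proj_val, mat_frm]
  change (big T (w y)).submatrix (ε.prodCongr (Equiv.refl Bool)) η *
    ((big T (w y)).submatrix (ε.prodCongr (Equiv.refl Bool)) η)ᴴ = _
  rw [Matrix.conjTranspose_submatrix, Matrix.submatrix_mul_equiv,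
    big_proj T hT (E (p y)) (hE y)]
  ext x z
  rfl

/-! ### Lines and unitary matrices -/

section
variable {S : Type} [Fintype S] [DecidableEq S]

/-- the unitary matrices -/
abbrev UM (S : Type) [Fintype S] [DecidableEq S] : Type := {U : Matrix S S ℂ // Uᴴ * U = 1}

theorem isCompact_um (S : Type) [Fintype S] [DecidableEq S] : CompactSpace (UM S) := by
  have h : IsCompact {U : Matrix S S ℂ | Uᴴ * U = 1} := by
    have hK : IsCompact (Set.pi univ (fun _ : S => Set.pi univ
        (fun _ : S => Metric.closedBall (0 : ℂ) 1))) :=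
      isCompact_univ_pi fun _ => isCompact_univ_pi fun _ => isCompact_closedBall _ _
    refine IsCompact.of_isClosed_subset hK ?_ ?_
    · exact isClosed_eq (continuous_id.matrix_conjTranspose.matrix_mul continuous_id)
        continuous_const
    · intro U hU x _ y _
      rw [mem_closedBall_zero_iff]
      exact entry_norm_bound_of_unitary ((Matrix.mem_unitaryGroup_iff').2 hU) x y
  exact isCompact_iff_compactSpace.1 h

theorem um_col (U : UM S) (a b : S) :
    ∑ x, star (U.1 x a) * U.1 x b = if a = b then 1 else 0 := by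
  have h := congrFun (congrFun U.2 a) b
  rw [Matrix.mul_apply, Matrix.one_apply] at h
  exact h

theorem um_row (U : UM S) (a b : S) :
    ∑ x, U.1 a x * star (U.1 b x) = if a = b then 1 else 0 := by
  have h0 : U.1 * (U.1)ᴴ = 1 := mul_eq_one_comm.1 U.2
  have h := congrFun (congrFun h0 a) b
  rw [Matrix.mul_apply, Matrix.one_apply] at h
  exact h

theorem lineOf_aux (s : S) (U : UM S) (M : Matrix S S ℂ)
    (hM : ∀ x y, M x y = U.1 x s * star (U.1 y s)) : Mᴴ = M ∧ M * M = M ∧ M.trace = (1 : ℕ) := by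
  have h := um_col U s s
  rw [if_pos rfl] at h
  refine ⟨?_, ?_, ?_⟩
  · ext x y
    rw [Matrix.conjTranspose_apply, hM, hM, star_mul', star_star, mul_comm]
  · ext x y
    rw [Matrix.mul_apply]
    have e : ∀ z, M x z * M z y =
        U.1 x s * star (U.1 y s) * (star (U.1 z s) * U.1 z s) := fun z => by
      rw [hM, hM]
      ring
    simp only [e]
    rw [← Finset.mul_sum, h, mul_one, hM]
  · rw [Matrix.trace]
    simp only [Matrix.diag_apply, hM]
    rw [Nat.cast_one, ← h]
    exact Finset.sum_congr rfl fun z _ => mul_comm _ _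

/-- the line of a column -/
def lineOf (s : S) (U : UM S) : Pr S 1 := ⟨fun x y => U.1 x s * star (U.1 y s),
  lineOf_aux s U _ fun _ _ => rfl⟩

theorem lineOf_apply (s : S) (U : UM S) (x y : S) :
    (lineOf s U).1 x y = U.1 x s * star (U.1 y s) := rfl

theorem continuous_lineOf (s : S) : Continuous (lineOf s : UM S → Pr S 1) := by
  refine Continuous.subtype_mk (continuous_matrix fun x y => ?_) _
  exact (continuous_subtype_val.matrix_elem _ _).mul (continuous_subtype_val.matrix_elem _ _).star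

theorem lineOf_surj (s : S) (P : Pr S 1) : ∃ U : UM S, lineOf s U = P := by
  obtain ⟨P, h1, h2, h3⟩ := P
  have hH : P.IsHermitian := h1
  set U : Matrix S S ℂ := (hH.eigenvectorUnitary).1 with hU
  have hUU : Uᴴ * U = 1 := (Matrix.mem_unitaryGroup_iff').1 hH.eigenvectorUnitary.2
  have hS : P = U * Matrix.diagonal (fun i => ((hH.eigenvalues i : ℝ) : ℂ)) * Uᴴ :=
    hH.spectral_theorem
  have hD : Uᴴ * P * U = Matrix.diagonal (fun i => ((hH.eigenvalues i : ℝ) : ℂ)) := by
    conv_lhs => rw [hS]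
    rw [← Matrix.mul_assoc, ← Matrix.mul_assoc, hUU, Matrix.one_mul, Matrix.mul_assoc, hUU,
      Matrix.mul_one]
  have hUU' : U * Uᴴ = 1 := (Matrix.mem_unitaryGroup_iff).1 hH.eigenvectorUnitary.2
  have hDD : Matrix.diagonal (fun i => ((hH.eigenvalues i : ℝ) : ℂ)) *
      Matrix.diagonal (fun i => ((hH.eigenvalues i : ℝ) : ℂ)) =
      Matrix.diagonal (fun i => ((hH.eigenvalues i : ℝ) : ℂ)) := by
    rw [← hD]
    calc Uᴴ * P * U * (Uᴴ * P * U) = Uᴴ * P * (U * Uᴴ) * P * U := by simp only [Matrix.mul_assoc]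
      _ = Uᴴ * (P * P) * U := by rw [hUU', Matrix.mul_one]; simp only [Matrix.mul_assoc]
      _ = Uᴴ * P * U := by rw [h2]
  have hev : ∀ i, hH.eigenvalues i = 0 ∨ hH.eigenvalues i = 1 := by
    intro i
    rw [Matrix.diagonal_mul_diagonal] at hDD
    have h4 := congrFun (Matrix.diagonal_injective hDD) i
    have h5 : hH.eigenvalues i * hH.eigenvalues i = hH.eigenvalues i := by exact_mod_cast h4
    have h6 : hH.eigenvalues i * (hH.eigenvalues i - 1) = 0 := by linarith
    rcases mul_eq_zero.1 h6 with h7 | h7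
    · exact Or.inl h7
    · exact Or.inr (by linarith)
  have hsum : ∑ i, hH.eigenvalues i = 1 := by
    have h4 : P.trace = ∑ i, ((hH.eigenvalues i : ℝ) : ℂ) := by
      conv_lhs => rw [hS]
      rw [Matrix.trace_mul_comm, ← Matrix.mul_assoc, hUU, Matrix.one_mul, Matrix.trace_diagonal]
    rw [h3] at h4
    exact_mod_cast h4.symm
  obtain ⟨i₀, hi₀⟩ : ∃ i, hH.eigenvalues i = 1 := by
    by_contra hc
    push Not at hc
    have h5 : ∑ i, hH.eigenvalues i = 0 :=
      Finset.sum_eq_zero fun i _ => (hev i).resolve_right (hc i)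
    rw [h5] at hsum
    exact zero_ne_one hsum
  have hz : ∀ i, i ≠ i₀ → hH.eigenvalues i = 0 := by
    intro i hi
    rw [← Finset.add_sum_erase _ _ (Finset.mem_univ i₀), hi₀] at hsum
    have h6 : ∑ x ∈ Finset.univ.erase i₀, hH.eigenvalues x = 0 := by linarith
    refine (Finset.sum_eq_zero_iff_of_nonneg fun j _ => ?_).1 h6 i
      (Finset.mem_erase.2 ⟨hi, Finset.mem_univ _⟩)
    rcases hev j with h | h <;> rw [h]
    exact zero_le_one
  let σ := Equiv.swap s i₀
  have hW : (U.submatrix id σ)ᴴ * (U.submatrix id σ) = 1 := by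
    rw [Matrix.conjTranspose_submatrix]
    change (Uᴴ).submatrix σ (Equiv.refl S) * U.submatrix (Equiv.refl S) σ = 1
    rw [Matrix.submatrix_mul_equiv, hUU, Matrix.submatrix_one_equiv]
  refine ⟨⟨U.submatrix id σ, hW⟩, Subtype.ext ?_⟩
  · ext x y
    have h8 : P x y = ∑ i, U x i * ((hH.eigenvalues i : ℝ) : ℂ) * star (U y i) := by
      conv_lhs => rw [hS]
      rw [Matrix.mul_apply]
      simp only [Matrix.mul_diagonal, Matrix.conjTranspose_apply]
    change U x (σ s) * star (U y (σ s)) = P x y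
    rw [h8, Finset.sum_eq_single i₀]
    · rw [hi₀, Equiv.swap_apply_left]
      simp
    · intro b _ hb
      rw [hz b hb]
      simp
    · intro h
      exact absurd (Finset.mem_univ _) h

/-- the other columns -/
def rest (s : S) (U : Matrix S S ℂ) : Matrix S {x : S // ¬ x = s} ℂ := fun x c => U x c.1

theorem rest_iso (s : S) (U : UM S) : (rest s U.1)ᴴ * rest s U.1 = 1 := by
  ext a b
  rw [Matrix.mul_apply, Matrix.one_apply]
  refine (um_col U a.1 b.1).trans ?_
  by_cases h : a = b
  · rw [if_pos h, if_pos (congrArg _ h)]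
  · rw [if_neg h, if_neg (fun h' => h (Subtype.ext h'))]

theorem rest_proj (s : S) (U : UM S) : rest s U.1 * (rest s U.1)ᴴ = 1 - (lineOf s U).1 := by
  ext a b
  rw [Matrix.mul_apply, Matrix.sub_apply, Matrix.one_apply, lineOf_apply, ← um_row U a b,
    Fintype.sum_eq_add_sum_subtype_ne (fun x => U.1 a x * star (U.1 b x)) s]
  rw [add_sub_cancel_left]
  rfl

/-- the comparison matrix -/
def cmp (U U' : UM S) : Matrix S S ℂ := (U.1)ᴴ * U'.1

theorem cmp_iso (U U' : UM S) : (cmp U U')ᴴ * cmp U U' = 1 := by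
  rw [cmp, Matrix.conjTranspose_mul, Matrix.conjTranspose_conjTranspose, Matrix.mul_assoc,
    ← Matrix.mul_assoc U.1, mul_eq_one_comm.1 U.2, Matrix.one_mul, U'.2]

theorem mul_cmp (U U' : UM S) : U.1 * cmp U U' = U'.1 := by
  rw [cmp, ← Matrix.mul_assoc, mul_eq_one_comm.1 U.2, Matrix.one_mul]

variable {s : S} {U U' : UM S} (h : lineOf s U = lineOf s U')

include h

theorem col_eq (x : S) : U'.1 x s = U.1 x s * cmp U U' s s := by
  have h1 : ∀ y, U.1 x s * star (U.1 y s) = U'.1 x s * star (U'.1 y s) := fun y => by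
    rw [← lineOf_apply, ← lineOf_apply, h]
  have h2 := um_col U' s s
  rw [if_pos rfl] at h2
  have h3 : cmp U U' s s = ∑ y, star (U.1 y s) * U'.1 y s := by
    rw [cmp, Matrix.mul_apply]
    rfl
  rw [h3, Finset.mul_sum]
  have h4 : ∀ y, U.1 x s * (star (U.1 y s) * U'.1 y s) =
      U'.1 x s * (star (U'.1 y s) * U'.1 y s) := fun y => by
    rw [← mul_assoc, h1, mul_assoc]
  simp only [h4]
  rw [← Finset.mul_sum, h2, mul_one]

theorem cmp_col {x : S} (hx : x ≠ s) : cmp U U' x s = 0 := by
  rw [cmp, Matrix.mul_apply]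
  simp only [col_eq h, Matrix.conjTranspose_apply, ← mul_assoc]
  rw [← Finset.sum_mul, um_col, if_neg hx, zero_mul]

theorem cmp_unit : star (cmp U U' s s) * cmp U U' s s = 1 := by
  have h1 := congrFun (congrFun (cmp_iso U U') s) s
  rw [Matrix.mul_apply, Matrix.one_apply, if_pos rfl, Finset.sum_eq_single s] at h1
  · exact h1
  · intro b _ hb
    rw [cmp_col h hb, mul_zero]
  · intro h'
    exact absurd (Finset.mem_univ _) h'

theorem cmp_row {x : S} (hx : x ≠ s) : cmp U U' s x = 0 := by
  have h1 := congrFun (congrFun (cmp_iso U U') s) x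
  rw [Matrix.mul_apply, Matrix.one_apply, if_neg (Ne.symm hx), Finset.sum_eq_single s] at h1
  · rw [Matrix.conjTranspose_apply] at h1
    rcases mul_eq_zero.1 h1 with h2 | h2
    · have h3 := cmp_unit h
      rw [h2, zero_mul] at h3
      exact absurd h3 zero_ne_one
    · exact h2
  · intro b _ hb
    rw [Matrix.conjTranspose_apply, cmp_col h hb, star_zero, zero_mul]
  · intro h'
    exact absurd (Finset.mem_univ _) h'

omit h in
/-- the block -/
def blk (s : S) (U U' : UM S) : Matrix {x : S // ¬ x = s} {x : S // ¬ x = s} ℂ :=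
  fun a b => cmp U U' a.1 b.1

theorem blk_iso : (blk s U U')ᴴ * blk s U U' = 1 := by
  ext a b
  have h1 := congrFun (congrFun (cmp_iso U U') a.1) b.1
  rw [Matrix.mul_apply, Matrix.one_apply,
    Fintype.sum_eq_add_sum_subtype_ne (fun x => (cmp U U')ᴴ a.1 x * cmp U U' x b.1) s,
    cmp_row h b.2, mul_zero, zero_add] at h1
  rw [Matrix.mul_apply, Matrix.one_apply]
  refine Eq.trans ?_ (h1.trans ?_)
  · rfl
  · by_cases hab : a = b
    · rw [if_pos hab, if_pos (congrArg _ hab)]
    · rw [if_neg hab, if_neg (fun h' => hab (Subtype.ext h'))]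

theorem det_cmp : (cmp U U').det = cmp U U' s s * (blk s U U').det := by
  rw [Matrix.twoBlockTriangular_det (cmp U U') (fun x => x = s)
    (fun i hi j hj => by rw [hj]; exact cmp_col h hi)]
  congr 1
  have h1 : ∀ (f : Fintype {x : S // x = s}) (d : DecidableEq {x : S // x = s})
      (A : Matrix {x : S // x = s} {x : S // x = s} ℂ),
      @Matrix.det _ d f ℂ _ A = A ⟨s, rfl⟩ ⟨s, rfl⟩ := fun f d A =>
    Matrix.det_eq_elem_of_subsingleton A _
  exact h1 _ _ _

theorem rest_eq : rest s U'.1 = rest s U.1 * blk s U U' := by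
  ext x c
  have h1 := congrFun (congrFun (mul_cmp U U') x) c.1
  rw [Matrix.mul_apply,
    Fintype.sum_eq_add_sum_subtype_ne (fun y => U.1 x y * cmp U U' y c.1) s,
    cmp_row h c.2, mul_zero, zero_add] at h1
  rw [Matrix.mul_apply]
  exact h1.symm

omit h in
theorem det_unit (U : UM S) : star U.1.det * U.1.det = 1 := by
  have h1 := congrArg Matrix.det U.2
  rw [Matrix.det_mul, Matrix.det_conjTranspose, Matrix.det_one] at h1
  exact h1

omit h in
theorem det_eq (U U' : UM S) : U'.1.det = U.1.det * (cmp U U').det := by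
  rw [← Matrix.det_mul, mul_cmp]

end

/-! ### The frame of `H ⊗ γ + H^⊥ + γ^⊥` -/

section
variable {S S' : Type} [Fintype S] [DecidableEq S] [Fintype S'] [DecidableEq S'] (s : S) (t : S')

/-- the tensor product of the first columns, with a determinant factor -/
def w1 (x : UM S × UM S') : Matrix (S × S') Unit ℂ := fun p _ =>
  x.1.1 p.1 s * x.2.1 p.2 t * (star x.1.1.det * star x.2.1.det)

/-- the frame -/
def ww (x : UM S × UM S') : Matrix (((S × S') ⊕ S) ⊕ S')
    ((Unit ⊕ {a : S // ¬ a = s}) ⊕ {b : S' // ¬ b = t}) ℂ :=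
  fromBlocks (fromBlocks (w1 s t x) 0 0 (rest s x.1.1)) 0 0 (rest t x.2.1)

theorem w1_iso (x : UM S × UM S') : (w1 s t x)ᴴ * w1 s t x = 1 := by
  ext a b
  rw [Matrix.mul_apply, Fintype.sum_prod_type]
  simp only [Matrix.conjTranspose_apply, w1, star_mul', star_star]
  have h1 := um_col x.1 s s
  have h2 := um_col x.2 t t
  have h3 := det_unit x.1
  have h4 := det_unit x.2
  rw [if_pos rfl] at h1 h2
  have e : ∀ p q, star (x.1.1 p s) * star (x.2.1 q t) * (x.1.1.det * x.2.1.det) *
      (x.1.1 p s * x.2.1 q t * (star x.1.1.det * star x.2.1.det)) =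
      (star (x.1.1 p s) * x.1.1 p s) * ((star (x.2.1 q t) * x.2.1 q t) *
        ((star x.1.1.det * x.1.1.det) * (star x.2.1.det * x.2.1.det))) := fun p q => by ring
  simp only [e]
  simp only [h3, h4, mul_one]
  simp only [← Finset.mul_sum, h2, mul_one, h1]
  rfl

theorem w1_proj (x : UM S × UM S') :
    w1 s t x * (w1 s t x)ᴴ = (Pr.tensor (lineOf s x.1, lineOf t x.2)).1 := by
  ext a b
  rw [Matrix.mul_apply, Finset.univ_unique, Finset.sum_singleton]
  change w1 s t x a () * star (w1 s t x b ()) =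
    (x.1.1 a.1 s * star (x.1.1 b.1 s)) * (x.2.1 a.2 t * star (x.2.1 b.2 t))
  simp only [w1, star_mul', star_star]
  have h3 := det_unit x.1
  have h4 := det_unit x.2
  linear_combination (x.1.1 a.1 s * star (x.1.1 b.1 s)) * (x.2.1 a.2 t * star (x.2.1 b.2 t)) *
    (star x.2.1.det * x.2.1.det) * h3 +
    (x.1.1 a.1 s * star (x.1.1 b.1 s)) * (x.2.1 a.2 t * star (x.2.1 b.2 t)) * h4

theorem ww_iso (x : UM S × UM S') : (ww s t x)ᴴ * ww s t x = 1 := by
  rw [ww, fromBlocks_conjTranspose, fromBlocks_multiply, fromBlocks_conjTranspose,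
    fromBlocks_multiply, w1_iso, rest_iso, rest_iso]
  simp

theorem ww_proj {m k : ℕ} (hm : 1 + m = Fintype.card S) (hk : 1 + k = Fintype.card S')
    (x : UM S × UM S') : ww s t x * (ww s t x)ᴴ =
      (Pr.sum (Pr.sum (Pr.tensor (lineOf s x.1, lineOf t x.2), Pr.perp hm (lineOf s x.1)),
        Pr.perp hk (lineOf t x.2))).1 := by
  rw [ww, fromBlocks_conjTranspose, fromBlocks_multiply, fromBlocks_conjTranspose,
    fromBlocks_multiply, w1_proj, rest_proj, rest_proj]
  simp only [Matrix.conjTranspose_zero, Matrix.mul_zero, Matrix.zero_mul, add_zero, zero_add]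
  change _ = fromBlocks (fromBlocks _ 0 0 (Pr.perp hm (lineOf s x.1)).1) 0 0
    (Pr.perp hk (lineOf t x.2)).1
  congr 1
  · congr 1
    ext a b
    rw [Matrix.sub_apply, Matrix.one_apply]
    simp only [Pr.perp]
    congr 1
    by_cases h : a = b
    · rw [if_pos h, if_pos h]
    · rw [if_neg h, if_neg h]
  · ext a b
    rw [Matrix.sub_apply, Matrix.one_apply]
    simp only [Pr.perp]
    congr 1
    by_cases h : a = b
    · rw [if_pos h, if_pos h]
    · rw [if_neg h, if_neg h]

theorem continuous_ww : Continuous (ww s t) := by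
  have h1 : ∀ a b, Continuous fun x : UM S × UM S' => x.1.1 a b := fun a b =>
    (continuous_subtype_val.comp continuous_fst).matrix_elem a b
  have h2 : ∀ a b, Continuous fun x : UM S × UM S' => x.2.1 a b := fun a b =>
    (continuous_subtype_val.comp continuous_snd).matrix_elem a b
  have d1 : Continuous fun x : UM S × UM S' => x.1.1.det :=
    (continuous_subtype_val.comp continuous_fst).matrix_det
  have d2 : Continuous fun x : UM S × UM S' => x.2.1.det :=
    (continuous_subtype_val.comp continuous_snd).matrix_det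
  refine Continuous.matrix_fromBlocks (Continuous.matrix_fromBlocks ?_ continuous_const
    continuous_const ?_) continuous_const continuous_const ?_
  · exact continuous_matrix fun p _ => ((h1 _ _).mul (h2 _ _)).mul (d1.star.mul d2.star)
  · exact continuous_matrix fun p c => h1 _ _
  · exact continuous_matrix fun p c => h2 _ _

theorem ww_rel (x y : UM S × UM S') (h1 : lineOf s x.1 = lineOf s y.1)
    (h2 : lineOf t x.2 = lineOf t y.2) :
    ∃ h ∈ Matrix.unitaryGroup ((Unit ⊕ {a : S // ¬ a = s}) ⊕ {b : S' // ¬ b = t}) ℂ,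
      h.det = 1 ∧ ww s t y = ww s t x * h := by
  obtain ⟨c, hc⟩ : ∃ c, c = cmp x.1 y.1 s s * cmp x.2 y.2 t t *
    (star (cmp x.1 y.1).det * star (cmp x.2 y.2).det) := ⟨_, rfl⟩
  have du : ∀ {T : Type} [Fintype T] [DecidableEq T] (U U' : UM T),
      star (cmp U U').det * (cmp U U').det = 1 := by
    intro T _ _ U U'
    have h := congrArg Matrix.det (cmp_iso U U')
    rw [Matrix.det_mul, Matrix.det_conjTranspose, Matrix.det_one] at h
    exact h
  have e1 := du x.1 y.1
  have e2 := du x.2 y.2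
  have e3 := cmp_unit h1
  have e4 := cmp_unit h2
  have hcc : star c * c = 1 := by
    rw [hc]
    simp only [star_mul', star_star]
    linear_combination (star (cmp x.1 y.1 s s) * cmp x.1 y.1 s s) *
      (star (cmp x.2 y.2 t t) * cmp x.2 y.2 t t) * (star (cmp x.2 y.2).det * (cmp x.2 y.2).det) * e1
      + (star (cmp x.1 y.1 s s) * cmp x.1 y.1 s s) *
      (star (cmp x.2 y.2 t t) * cmp x.2 y.2 t t) * e2 +
      (star (cmp x.2 y.2 t t) * cmp x.2 y.2 t t) * e3 + e4
  refine ⟨fromBlocks (fromBlocks (c • (1 : Matrix Unit Unit ℂ)) 0 0 (blk s x.1 y.1)) 0 0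
    (blk t x.2 y.2), ?_, ?_, ?_⟩
  · rw [Matrix.mem_unitaryGroup_iff']
    change (fromBlocks (fromBlocks (c • (1 : Matrix Unit Unit ℂ)) 0 0 (blk s x.1 y.1)) 0 0
      (blk t x.2 y.2))ᴴ * fromBlocks (fromBlocks (c • (1 : Matrix Unit Unit ℂ)) 0 0
        (blk s x.1 y.1)) 0 0 (blk t x.2 y.2) = 1
    rw [fromBlocks_conjTranspose, fromBlocks_multiply, fromBlocks_conjTranspose,
      fromBlocks_multiply, blk_iso h1, blk_iso h2]
    have h3 : (c • (1 : Matrix Unit Unit ℂ))ᴴ * (c • (1 : Matrix Unit Unit ℂ)) = 1 := by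
      rw [conjTranspose_smul, conjTranspose_one, smul_mul_smul_comm, hcc, one_smul, Matrix.one_mul]
    rw [h3]
    simp
  · rw [Matrix.det_fromBlocks_zero₂₁, Matrix.det_fromBlocks_zero₂₁, Matrix.det_unique]
    have h5 : (c • (1 : Matrix Unit Unit ℂ)) default default = c := by simp
    rw [h5, hc]
    have h6 := det_cmp h1
    have h7 := det_cmp h2
    rw [h6] at e1
    rw [h7] at e2
    rw [h6, h7]
    linear_combination (star (cmp x.2 y.2 t t * (blk t x.2 y.2).det) *
      (cmp x.2 y.2 t t * (blk t x.2 y.2).det)) * e1 + e2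
  · rw [ww, ww, fromBlocks_multiply, fromBlocks_multiply, rest_eq h1, rest_eq h2]
    have h8 : w1 s t y = w1 s t x * (c • (1 : Matrix Unit Unit ℂ)) := by
      rw [Matrix.mul_smul, Matrix.mul_one]
      ext p q
      rw [Matrix.smul_apply, smul_eq_mul]
      simp only [w1]
      rw [col_eq h1, col_eq h2, det_eq x.1 y.1, det_eq x.2 y.2, hc, star_mul', star_mul']
      ring
    rw [h8]
    simp

end

/-- The class `θ` is the class of a family with structure group `SU`. -/
theorem exists_theta (S S' : Type) [Fintype S] [Fintype S'] :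
    ∃ (n : ℕ) (Q : C((LC.Pr S 1).prod (LC.Pr S' 1), Gr {1} n)), ∀ R : GBiv, R.theta S S' =
      R.comp (R.J (PMap.ofCont (K := (LC.Pr S 1).prod (LC.Pr S' 1)) (L := LC.G (Fin n))
        (fun x => Gr.toGK (Gr.toU (Q x)))
        (Gr.toGK_continuous.comp (Gr.toU.continuous.comp Q.continuous)))) (R.g (Fin n)) := by
  classical
  rcases isEmpty_or_nonempty ((LC.Pr S 1).prod (LC.Pr S' 1)) with hK | ⟨⟨P₀, Q₀⟩⟩
  · exact ⟨0, ContinuousMap.const _ (Gr.pt {1} 0), fun R => GBiv.eq_of_isEmpty54 R _ _⟩
  have hS := card_pos_of_pr P₀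
  have hS' := card_pos_of_pr Q₀
  obtain ⟨s⟩ : Nonempty S := Fintype.card_pos_iff.1 (by omega)
  obtain ⟨t⟩ : Nonempty S' := Fintype.card_pos_iff.1 (by omega)
  have := isCompact_um S
  have := isCompact_um S'
  let K : LC := (LC.Pr S 1).prod (LC.Pr S' 1)
  let p : C(UM S × UM S', K) := ⟨fun x => (lineOf s x.1, lineOf t x.2),
    ((continuous_lineOf s).comp continuous_fst).prodMk ((continuous_lineOf t).comp continuous_snd)⟩
  have hps : Function.Surjective p := by
    rintro ⟨P, Q⟩
    obtain ⟨U, hU⟩ := lineOf_surj s P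
    obtain ⟨U', hU'⟩ := lineOf_surj t Q
    exact ⟨(U, U'), Prod.ext hU hU'⟩
  have hp : IsQuotientMap p := p.continuous.isClosedMap.isQuotientMap p.continuous hps
  let E : C(K, Pr (((S × S') ⊕ S) ⊕ S') ((1 + (Fintype.card S - 1)) + (Fintype.card S' - 1))) :=
    ⟨fun x => Pr.sum (Pr.sum (Pr.tensor x, Pr.perp hS x.1), Pr.perp hS' x.2),
      Pr.continuous_sum.comp ((Pr.continuous_sum.comp (Pr.continuous_tensor.prodMk
        ((Pr.continuous_perp hS).comp continuous_fst))).prodMk
        ((Pr.continuous_perp hS').comp continuous_snd))⟩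
  have hcS : Fintype.card {a : S // ¬ a = s} = Fintype.card S - 1 := by
    rw [Fintype.card_subtype_compl, Fintype.card_subtype_eq]
  have hcS' : Fintype.card {a : S' // ¬ a = t} = Fintype.card S' - 1 := by
    rw [Fintype.card_subtype_compl, Fintype.card_subtype_eq]
  obtain ⟨n, Q, hQ⟩ := exists_su_lift p hp (ww s t) (continuous_ww s t) (ww_iso s t)
    (fun x y hxy => ww_rel s t x y (congrArg Prod.fst hxy) (congrArg Prod.snd hxy))
    (m := (1 + (Fintype.card S - 1)) + (Fintype.card S' - 1))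
    (by rw [Fintype.card_sum, Fintype.card_sum, hcS, hcS', Fintype.card_unit])
    (E (P₀, Q₀)).le_card E (fun x => (ww_proj s t hS hS' x).symm)
  refine ⟨n, Q, fun R => Eq.trans ?_ (hQ R)⟩
  have e1 := R.bun_sum (K := K) (⟨fun x => Pr.sum (Pr.tensor x, Pr.perp hS x.1),
    Pr.continuous_sum.comp (Pr.continuous_tensor.prodMk
        ((Pr.continuous_perp hS).comp continuous_fst))⟩ :
      C(K, Pr ((S × S') ⊕ S) (1 + (Fintype.card S - 1))))
    (⟨fun x => Pr.perp hS' x.2, (Pr.continuous_perp hS').comp continuous_snd⟩ :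
      C(K, Pr S' (Fintype.card S' - 1)))
  have e2 := R.bun_sum (K := K) (⟨fun x => Pr.tensor x, Pr.continuous_tensor⟩ :
      C(K, Pr (S × S') 1))
    (⟨fun x => Pr.perp hS x.1, (Pr.continuous_perp hS).comp continuous_fst⟩ :
      C(K, Pr S (Fintype.card S - 1)))
  refine Eq.trans ?_ (e1.trans (congrArg (fun z => R.mul z _) e2)).symm
  unfold GBiv.theta
  have e3 := OrX.cotaut_pre R hS (K := K) (⟨Prod.fst, continuous_fst⟩ : C(K, Pr S 1))
  have e4 := OrX.cotaut_pre R hS' (K := K) (⟨Prod.snd, continuous_snd⟩ : C(K, Pr S' 1))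
  exact congrArg₂ (fun a b => R.mul (K := K) (R.mul (K := K)
    (R.bun (K := K) ⟨Pr.tensor, Pr.continuous_tensor⟩) a) b) e3 e4

end Pool.Agent.Helper68.Stab.ThSU
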