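import Pool.Agent.Helper1.Stab.Grass

/-! Strict identities between representatives of elements of the localised theory. All of them are
equalities of partial maps given by formulas, and are checked at points. -/

open Topology Filter Set

noncomputable section

namespace Pool.Agent.Helper1.Stab

/-! ## Evaluation at points -/

/-- Kleisli composition for `OnePoint` -/
def bnd {X Y : Type} (x : OnePoint X) (f : X → OnePoint Y) : OnePoint Y :=
  OnePoint.elim x OnePoint.infty f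

@[simp] theorem bnd_coe {X Y : Type} (x : X) (f : X → OnePoint Y) :
    bnd (x : OnePoint X) f = f x := rfl

@[simp] theorem bnd_infty {X Y : Type} (f : X → OnePoint Y) :
    bnd (OnePoint.infty : OnePoint X) f = OnePoint.infty := rfl

theorem bnd_assoc {X Y Z : Type} (x : OnePoint X) (f : X → OnePoint Y) (g : Y → OnePoint Z) :
    bnd (bnd x f) g = bnd x (fun a => bnd (f a) g) := by
  induction x using OnePoint.rec <;> rfl

theorem bnd_comm {X Y Z : Type} (x : OnePoint X) (y : OnePoint Y) (f : X → Y → OnePoint Z) :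
    bnd x (fun a => bnd y (fun b => f a b)) = bnd y (fun b => bnd x (fun a => f a b)) := by
  induction x using OnePoint.rec <;> induction y using OnePoint.rec <;> rfl

theorem comp_bnd {K L M : LC} (g : PMap L M.plus) (f : PMap K L.plus) (k : K) :
    g.comp f k = bnd (f k) g := rfl

theorem smashPt_bnd {L Z : LC} (x : OnePoint L) (z : OnePoint Z) :
    smashPt L Z (x, z) = bnd x (fun a => bnd z (fun b => (((a, b) : L × Z) : OnePoint (L × Z)))) :=
  rfl

theorem box_bnd {K L Z W : LC} (f : PMap K L.plus) (g : PMap Z W.plus) (k : K) (z : Z) :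
    f.box g (k, z) = bnd (f k) (fun a => bnd (g z)
      (fun b => (((a, b) : L × W) : OnePoint (L × W)))) := rfl

namespace Datum
variable (D : Datum)

/-! ## The transition maps and the products -/

theorem GK.ext {κ : Type} [Fintype κ] {P Q : GK κ} (h : ∀ x y, P.1 x y = Q.1 x y) : P = Q :=
  Subtype.ext (by ext x y; exact h x y)

theorem blockDiag_eq {ι a : Type} [Fintype ι] [Fintype a] (P : ι → GK a) (i : ι) (x y : a × Bool) :
    (blockDiag P).1 ((i, x.1), x.2) ((i, y.1), y.2) = (P i).1 x y := if_pos rfl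

theorem blockDiag_ne {ι a : Type} [Fintype ι] [Fintype a] (P : ι → GK a) {i i' : ι} (h : i ≠ i')
    (x y : a × Bool) :
    (blockDiag P).1 ((i, x.1), x.2) ((i', y.1), y.2) = 0 := if_neg h

theorem GK.base_eq {ι : Type} [Fintype ι] (x : ι × Bool) :
    (GK.base ι).1 x x = if x.2 = true then 1 else 0 := by
  rcases x with ⟨i, b⟩
  cases b
  · exact if_neg fun h => by simp at h
  · exact if_pos ⟨rfl, rfl⟩

theorem GK.base_ne {ι : Type} [Fintype ι] {x y : ι × Bool} (h : x ≠ y) :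
    (GK.base ι).1 x y = 0 := if_neg fun h' => h h'.1

theorem GK.sum_base (ι κ : Type) [Fintype ι] [Fintype κ] :
    GK.sum (GK.base ι, GK.base κ) = GK.base (ι ⊕ κ) := by
  refine GK.ext ?_
  intro x y
  by_cases h : x = y
  · subst h
    rw [GK.base_eq]
    rcases x with ⟨i | i, b⟩
    · exact GK.base_eq (i, b)
    · exact GK.base_eq (i, b)
  · rw [GK.base_ne h]
    rcases x with ⟨i | i, b⟩ <;> rcases y with ⟨j | j, c⟩
    · exact GK.base_ne fun h' => h (by rw [Prod.mk.injEq] at h' ⊢; exact ⟨congrArg _ h'.1, h'.2⟩)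
    · rfl
    · rfl
    · exact GK.base_ne fun h' => h (by rw [Prod.mk.injEq] at h' ⊢; exact ⟨congrArg _ h'.1, h'.2⟩)

theorem GK.reindex_base {ι κ : Type} [Fintype ι] [Fintype κ] (e : ι ≃ κ) :
    GK.reindex e (GK.base ι) = GK.base κ := by
  refine GK.ext ?_
  intro x y
  by_cases h : x = y
  · subst h
    rw [GK.base_eq]
    exact GK.base_eq (e.symm x.1, x.2)
  · rw [GK.base_ne h]
    refine GK.base_ne fun h' => h ?_
    rw [Prod.mk.injEq] at h'
    exact Prod.ext (e.symm.injective h'.1) h'.2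

theorem reA_refl (ι : Type) [Fintype ι] (v : D.A ι) : D.reA (Equiv.refl ι) v = v := rfl

theorem reA_trans {ι κ l : Type} [Fintype ι] [Fintype κ] [Fintype l] (e : ι ≃ κ) (e' : κ ≃ l)
    (v : D.A ι) : D.reA e' (D.reA e v) = D.reA (e.trans e') v := rfl

theorem reA_symm {ι κ : Type} [Fintype ι] [Fintype κ] (e : ι ≃ κ) (v : D.A κ) :
    (D.reA e).symm v = D.reA e.symm v := rfl

theorem reB_refl (ι : Type) [Fintype ι] (v : D.B ι) : D.reB (Equiv.refl ι) v = v := rfl

theorem reB_trans {ι κ l : Type} [Fintype ι] [Fintype κ] [Fintype l] (e : ι ≃ κ) (e' : κ ≃ l)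
    (v : D.B ι) : D.reB e' (D.reB e v) = D.reB (e.trans e') v := rfl

/-- `reA` is compatible with the splitting -/
theorem splitA_re {ι κ ι' κ' : Type} [Fintype ι] [Fintype κ] [Fintype ι'] [Fintype κ']
    (e : ι ≃ ι') (e' : κ ≃ κ') (v : D.A (ι ⊕ κ)) :
    D.splitA ι' κ' (D.reA (e.sumCongr e') v) =
      (D.reA e (D.splitA ι κ v).1, D.reA e' (D.splitA ι κ v).2) := rfl

theorem splitA_comm {ι κ : Type} [Fintype ι] [Fintype κ] (v : D.A (ι ⊕ κ)) :
    D.splitA κ ι (D.reA (Equiv.sumComm ι κ) v) =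
      ((D.splitA ι κ v).2, (D.splitA ι κ v).1) := rfl

theorem splitA_assoc {ι κ l : Type} [Fintype ι] [Fintype κ] [Fintype l] (v : D.A ((ι ⊕ κ) ⊕ l)) :
    D.splitA ι (κ ⊕ l) (D.reA (Equiv.sumAssoc ι κ l) v) =
      ((D.splitA ι κ (D.splitA (ι ⊕ κ) l v).1).1,
        (D.splitA κ l).symm ((D.splitA ι κ (D.splitA (ι ⊕ κ) l v).1).2,
          (D.splitA (ι ⊕ κ) l v).2)) := by
  refine Prod.ext rfl ?_
  funext x
  rcases x with ⟨i | i, j⟩ <;> rfl

/-- `reB` is compatible with the product -/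
theorem mulB_re {ι κ ι' κ' : Type} [Fintype ι] [Fintype κ] [Fintype ι'] [Fintype κ']
    (e : ι ≃ ι') (e' : κ ≃ κ') (x : D.B ι) (y : D.B κ) :
    D.mulBFun ι' κ' (D.reB e x, D.reB e' y) = D.reB (e.sumCongr e') (D.mulBFun ι κ (x, y)) := by
  refine Prod.ext ?_ (GK.ext ?_)
  · funext z
    rcases z with ⟨i | i, j⟩ <;> rfl
  · rintro ⟨⟨i | i, j⟩, b⟩ ⟨⟨i' | i', j'⟩, b'⟩ <;> rfl

theorem mulB_comm {ι κ : Type} [Fintype ι] [Fintype κ] (x : D.B ι) (y : D.B κ) :
    D.mulBFun κ ι (y, x) = D.reB (Equiv.sumComm ι κ) (D.mulBFun ι κ (x, y)) := by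
  refine Prod.ext ?_ (GK.ext ?_)
  · funext z
    rcases z with ⟨i | i, j⟩ <;> rfl
  · rintro ⟨⟨i | i, j⟩, b⟩ ⟨⟨i' | i', j'⟩, b'⟩ <;> rfl

theorem mulB_assoc {ι κ l : Type} [Fintype ι] [Fintype κ] [Fintype l] (x : D.B ι) (y : D.B κ)
    (z : D.B l) : D.mulBFun ι (κ ⊕ l) (x, D.mulBFun κ l (y, z)) =
      D.reB (Equiv.sumAssoc ι κ l) (D.mulBFun (ι ⊕ κ) l (D.mulBFun ι κ (x, y), z)) := by
  refine Prod.ext ?_ (GK.ext ?_)
  · funext z
    rcases z with ⟨i | i | i, j⟩ <;> rfl
  · rintro ⟨⟨i | i | i, j⟩, b⟩ ⟨⟨i' | i' | i', j'⟩, b'⟩ <;> rfl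

theorem shatG_some (ι : Type) [Fintype ι] (v : D.A ι) (P : GK ι) (y : ι → (D.u → ℂ) × GK D.a)
    (h : ∀ i, D.s (fun j => v (i, some j)) = ((y i : (D.u → ℂ) × GK D.a) : OnePoint _)) :
    D.shatG ι (v, P) = (((fun x => match x.2 with
        | none => v (x.1, none)
        | some j => (y x.1).1 j),
      GK.reindex (optEquiv ι D.a) (GK.sum (P, blockDiag fun i => (y i).2))) : D.B ι) := by
  have h0 : ∀ i : ι, ∃ y : (D.u → ℂ) × GK D.a, D.s (fun j => v (i, some j)) =
      ((y : (D.u → ℂ) × GK D.a) : OnePoint ((D.u → ℂ) × GK D.a)) := fun i => ⟨y i, h i⟩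
  have h1 : ∀ i, (h0 i).choose = y i := fun i =>
    OnePoint.coe_injective ((h0 i).choose_spec.symm.trans (h i))
  refine (dif_pos h0).trans ?_
  simp only [h1]
  rfl

theorem shatG_none (ι : Type) [Fintype ι] (v : D.A ι) (P : GK ι) (i : ι)
    (h : D.s (fun j => v (i, some j)) = OnePoint.infty) :
    D.shatG ι (v, P) = OnePoint.infty := by
  refine dif_neg ?_
  intro h0
  obtain ⟨y, hy⟩ := h0 i
  rw [h] at hy
  exact OnePoint.infty_ne_coe _ hy

theorem shatG_cases (ι : Type) [Fintype ι] (v : D.A ι) :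
    (∃ i, D.s (fun j => v (i, some j)) = OnePoint.infty) ∨
    ∃ y : ι → (D.u → ℂ) × GK D.a,
      ∀ i, D.s (fun j => v (i, some j)) = ((y i : (D.u → ℂ) × GK D.a) : OnePoint _) := by
  by_cases h : ∃ i, D.s (fun j => v (i, some j)) = OnePoint.infty
  · exact Or.inl h
  · right
    have : ∀ i, ∃ y : (D.u → ℂ) × GK D.a, D.s (fun j => v (i, some j)) =
      ((y : (D.u → ℂ) × GK D.a) : OnePoint ((D.u → ℂ) × GK D.a)) := by
      intro i
      rcases hs : D.s (fun j => v (i, some j)) with _ | y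
      · exact absurd ⟨i, hs⟩ h
      · exact ⟨y, rfl⟩
    exact ⟨fun i => (this i).choose, fun i => (this i).choose_spec⟩

/-- `shatG` is compatible with renaming -/
theorem shatG_re {ι κ : Type} [Fintype ι] [Fintype κ] (e : ι ≃ κ) (v : D.A ι) (P : GK ι) :
    D.shatG κ (D.reA e v, GK.reindex e P) =
      bnd (D.shatG ι (v, P)) (fun b => ((D.reB e b : D.B κ) : OnePoint (D.B κ))) := by
  rcases D.shatG_cases ι v with ⟨i, hi⟩ | ⟨y, hy⟩
  · rw [D.shatG_none ι v P i hi, D.shatG_none κ (D.reA e v) _ (e i)]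
    · rfl
    · change D.s (fun j => v (e.symm (e i), some j)) = _
      rw [e.symm_apply_apply]
      exact hi
  · rw [D.shatG_some ι v P y hy, D.shatG_some κ (D.reA e v) _ (fun i => y (e.symm i))]
    · rw [bnd_coe]
      congr 1
      refine Prod.ext ?_ (GK.ext ?_)
      · funext z
        rcases z with ⟨i, _ | j⟩ <;> rfl
      · rintro ⟨⟨i, _ | j⟩, b⟩ ⟨⟨i', _ | j'⟩, b'⟩
        · rfl
        · rfl
        · rfl
        · by_cases hi : i = i'
          · subst hi
            exact (blockDiag_eq (fun i => (y (e.symm i)).2) i (j, b) (j', b')).trans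
              (blockDiag_eq (fun i => (y i).2) (e.symm i) (j, b) (j', b')).symm
          · exact (blockDiag_ne (fun i => (y (e.symm i)).2) hi (j, b) (j', b')).trans
              (blockDiag_ne (fun i => (y i).2) (fun h => hi (e.symm.injective h)) (j, b) (j', b')).symm
    · intro i
      exact hy (e.symm i)

/-- `shatG` is multiplicative -/
theorem shatG_sum (ι κ : Type) [Fintype ι] [Fintype κ] (v : D.A (ι ⊕ κ)) (P : GK ι) (Q : GK κ) :
    D.shatG (ι ⊕ κ) (v, GK.sum (P, Q)) =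
      bnd (D.shatG ι ((D.splitA ι κ v).1, P)) (fun b =>
        bnd (D.shatG κ ((D.splitA ι κ v).2, Q)) (fun c =>
          ((D.mulBFun ι κ (b, c) : D.B (ι ⊕ κ)) : OnePoint (D.B (ι ⊕ κ))))) := by
  rcases D.shatG_cases ι (D.splitA ι κ v).1 with ⟨i, hi⟩ | ⟨y, hy⟩
  · rw [D.shatG_none ι _ P i hi, D.shatG_none (ι ⊕ κ) v _ (Sum.inl i)]
    · rfl
    · exact hi
  · rcases D.shatG_cases κ (D.splitA ι κ v).2 with ⟨i, hi⟩ | ⟨y', hy'⟩
    · rw [D.shatG_none κ _ Q i hi, D.shatG_none (ι ⊕ κ) v _ (Sum.inr i)]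
      · rw [D.shatG_some ι _ P y hy]
        rfl
      · exact hi
    · rw [D.shatG_some ι _ P y hy, D.shatG_some κ _ Q y' hy',
        D.shatG_some (ι ⊕ κ) v _ (Sum.elim y y')]
      · rw [bnd_coe, bnd_coe]
        congr 1
        refine Prod.ext ?_ (GK.ext ?_)
        · funext z
          rcases z with ⟨i | i, _ | j⟩ <;> rfl
        · rintro ⟨⟨i | i, _ | j⟩, b⟩ ⟨⟨i' | i', _ | j'⟩, b'⟩ <;> try rfl
          · by_cases hi : i = i'
            · subst hi
              exact (blockDiag_eq (fun i => (Sum.elim y y' i).2) (Sum.inl i) (j, b) (j', b')).trans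
                (blockDiag_eq (fun i => (y i).2) i (j, b) (j', b')).symm
            · exact (blockDiag_ne (fun i => (Sum.elim y y' i).2) (fun h => hi (Sum.inl.inj h))
                (j, b) (j', b')).trans
                (blockDiag_ne (fun i => (y i).2) hi (j, b) (j', b')).symm
          · exact blockDiag_ne (fun i => (Sum.elim y y' i).2) Sum.inl_ne_inr (j, b) (j', b')
          · exact blockDiag_ne (fun i => (Sum.elim y y' i).2) Sum.inr_ne_inl (j, b) (j', b')
          · by_cases hi : i = i'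
            · subst hi
              exact (blockDiag_eq (fun i => (Sum.elim y y' i).2) (Sum.inr i) (j, b) (j', b')).trans
                (blockDiag_eq (fun i => (y' i).2) i (j, b) (j', b')).symm
            · exact (blockDiag_ne (fun i => (Sum.elim y y' i).2) (fun h => hi (Sum.inr.inj h))
                (j, b) (j', b')).trans
                (blockDiag_ne (fun i => (y' i).2) hi (j, b) (j', b')).symm
      · rintro (i | i)
        · exact hy i
        · exact hy' i

/-- `shat` in terms of `shatG` -/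
theorem shat_eq (ι : Type) [Fintype ι] (v : D.A ι) : D.shat ι v = D.shatG ι (v, GK.base ι) := rfl

theorem shat_re {ι κ : Type} [Fintype ι] [Fintype κ] (e : ι ≃ κ) (v : D.A ι) :
    D.shat κ (D.reA e v) =
      bnd (D.shat ι v) (fun b => ((D.reB e b : D.B κ) : OnePoint (D.B κ))) := by
  rw [shat_eq, shat_eq, ← D.shatG_re e v (GK.base ι), GK.reindex_base]

theorem shat_sum (ι κ : Type) [Fintype ι] [Fintype κ] (v : D.A (ι ⊕ κ)) :
    D.shat (ι ⊕ κ) v =
      bnd (D.shat ι (D.splitA ι κ v).1) (fun b =>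
        bnd (D.shat κ (D.splitA ι κ v).2) (fun c =>
          ((D.mulBFun ι κ (b, c) : D.B (ι ⊕ κ)) : OnePoint (D.B (ι ⊕ κ))))) := by
  rw [shat_eq, ← GK.sum_base, D.shatG_sum]
  rfl

/-! ## Values of the operations on representatives -/

variable {D}

theorem stab_val {ι : Type} [Fintype ι] {K Z : LC} (f : D.Rep ι K Z) (κ : Type) [Fintype κ]
    (v : D.A (ι ⊕ κ)) (k : K) :
    f.stab κ (v, k) = bnd (f ((D.splitA ι κ v).1, k)) (fun p =>
      bnd (D.shat κ (D.splitA ι κ v).2) (fun c =>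
        (((D.mulBFun ι κ (p.1, c), p.2) : D.B (ι ⊕ κ) × Z) : OnePoint (D.B (ι ⊕ κ) × Z)))) := by
  change ((D.mulB ι κ).tens Z).plus ((PMap.ofHomeo (LC.rr (D.B ι) Z (D.B κ))).plus
    (smashPt ((D.B ι).prod Z) (D.B κ) (f ((D.splitA ι κ v).1, k), D.shat κ (D.splitA ι κ v).2))) = _
  rcases f ((D.splitA ι κ v).1, k) with _ | p
  · rfl
  · rcases D.shat κ (D.splitA ι κ v).2 with _ | c
    · rfl
    · rfl

theorem cmp_val {ι κ : Type} [Fintype ι] [Fintype κ] {K L Z : LC} (f : D.Rep ι K L)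
    (g : D.Rep κ L Z) (v : D.A (ι ⊕ κ)) (k : K) :
    f.cmp g (v, k) = bnd (f ((D.splitA ι κ v).1, k)) (fun p =>
      bnd (g ((D.splitA ι κ v).2, p.2)) (fun q =>
        (((D.mulBFun ι κ (p.1, q.1), q.2) : D.B (ι ⊕ κ) × Z) : OnePoint (D.B (ι ⊕ κ) × Z)))) := by
  change ((D.mulB ι κ).tens Z).plus ((PMap.ofHomeo (Homeomorph.prodAssoc (D.B ι) (D.B κ) Z).symm :
        PMap ((D.B ι).prod ((D.B κ).prod Z)) (((D.B ι).prod (D.B κ)).prod Z).plus).plus
        ((PMap.ltens (D.B ι) g).plus ((PMap.ofHomeo (LC.rs (D.B ι) L (D.A κ))).plus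
        (smashPt ((D.B ι).prod L) (D.A κ) (f ((D.splitA ι κ v).1, k), ((D.splitA ι κ v).2 : OnePoint (D.A κ))))))) = _
  rcases f ((D.splitA ι κ v).1, k) with _ | p
  · rfl
  · change ((D.mulB ι κ).tens Z).plus ((PMap.ofHomeo (Homeomorph.prodAssoc (D.B ι) (D.B κ) Z).symm :
        PMap ((D.B ι).prod ((D.B κ).prod Z)) (((D.B ι).prod (D.B κ)).prod Z).plus).plus
        (smashPt (D.B ι) ((D.B κ).prod Z) ((p.1 : OnePoint (D.B ι)), g ((D.splitA ι κ v).2, p.2)))) =
      bnd (g ((D.splitA ι κ v).2, p.2)) (fun q =>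
        (((D.mulBFun ι κ (p.1, q.1), q.2) : D.B (ι ⊕ κ) × Z) : OnePoint (D.B (ι ⊕ κ) × Z)))
    rcases g ((D.splitA ι κ v).2, p.2) with _ | q
    · rfl
    · rfl

theorem tens_val {ι : Type} [Fintype ι] {K L : LC} (f : D.Rep ι K L) (W : LC) (v : D.A ι)
    (k : K) (w : W) :
    f.tens W (v, (k, w)) = bnd (f (v, k)) (fun p =>
      (((p.1, (p.2, w)) : D.B ι × (L × W)) : OnePoint (D.B ι × (L × W)))) := by
  change (PMap.ofHomeo (Homeomorph.prodAssoc (D.B ι) L W) :
      PMap (((D.B ι).prod L).prod W) ((D.B ι).prod (L.prod W)).plus).plus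
      (smashPt ((D.B ι).prod L) W (f (v, k), (w : OnePoint W))) = _
  rcases f (v, k) with _ | p
  · rfl
  · rfl

theorem ofMap_val (ι : Type) [Fintype ι] {K L : LC} (f : PMap K L.plus) (v : D.A ι) (k : K) :
    (Rep.ofMap ι f : D.Rep ι K L) (v, k) = bnd (D.shat ι v) (fun b => bnd (f k) (fun l =>
      (((b, l) : D.B ι × L) : OnePoint (D.B ι × L)))) := rfl

theorem re_val {ι κ : Type} [Fintype ι] [Fintype κ] (e : ι ≃ κ) {K Z : LC} (f : D.Rep ι K Z)
    (v : D.A κ) (k : K) :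
    f.re e (v, k) = bnd (f (D.reA e.symm v, k)) (fun p =>
      (((D.reB e p.1, p.2) : D.B κ × Z) : OnePoint (D.B κ × Z))) := by
  change ((PMap.ofHomeo (D.reB e)).tens Z).plus (f (D.reA e.symm v, k)) = _
  rcases f (D.reA e.symm v, k) with _ | p
  · rfl
  · rfl

theorem taut_val (ι : Type) [Fintype ι] (v : D.A ι) (P : GK ι) :
    Rep.taut D ι (v, P) = bnd (D.shatG ι (v, P)) (fun b =>
      (((b, PUnit.unit) : D.B ι × PUnit) : OnePoint (D.B ι × PUnit))) := rfl

/-- precomposition of a representative with a map -/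
def Rep.pre {ι : Type} [Fintype ι] {K L Z : LC} (φ : PMap K L.plus) (f : D.Rep ι L Z) :
    D.Rep ι K Z := PMap.comp f (PMap.ltens (D.A ι) φ)

/-- postcomposition of a representative with a map -/
def Rep.post {ι : Type} [Fintype ι] {K L Z : LC} (f : D.Rep ι K L) (ψ : PMap L Z.plus) :
    D.Rep ι K Z := (PMap.ltens (D.B ι) ψ).comp f

theorem pre_val {ι : Type} [Fintype ι] {K L Z : LC} (φ : PMap K L.plus) (f : D.Rep ι L Z)
    (v : D.A ι) (k : K) : Rep.pre φ f (v, k) = bnd (φ k) (fun l => f (v, l)) := by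
  change PMap.plus f (smashPt (D.A ι) L ((v : OnePoint (D.A ι)), φ k)) = _
  rcases φ k with _ | p
  · rfl
  · rfl

theorem post_val {ι : Type} [Fintype ι] {K L Z : LC} (f : D.Rep ι K L) (ψ : PMap L Z.plus)
    (v : D.A ι) (k : K) : f.post ψ (v, k) = bnd (f (v, k)) (fun p => bnd (ψ p.2) (fun z =>
      (((p.1, z) : D.B ι × Z) : OnePoint (D.B ι × Z)))) := by
  change (PMap.ltens (D.B ι) ψ).plus (f (v, k)) = _
  rcases f (v, k) with _ | p
  · rfl
  · rfl

end Datum

end Pool.Agent.Helper1.Stab
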