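import Pool.Agent.Helper68.Stab.Cl
import Pool.Agent.Helper1.Stab.Comp

/-! The prespectrum of a sequence of locally compact spaces and pointed maps. -/

open CategoryTheory Topology Filter Set Opposite

noncomputable section

namespace Pool.Agent.Helper1.Stab

/-! ## Structure maps -/

/-- a homotopy as a map on `I × K⁺` -/
def PMap.hpFun {K : LC} {Y : PT} (H : PMap (LC.I.prod K) Y) (x : unitInterval × OnePoint K) : Y :=
  OnePoint.elim x.2 Y.pt (fun k => H (x.1, k))

theorem PMap.hpFun_continuous {K : LC} {Y : PT} (H : PMap (LC.I.prod K) Y) :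
    Continuous H.hpFun := by
  rw [continuous_iff_continuousAt]
  rintro ⟨t, x⟩
  induction x using OnePoint.rec with
  | infty =>
    intro U hU
    change U ∈ 𝓝 Y.pt at hU
    obtain ⟨C, hC, h⟩ := H.infty_I hU
    have h1 : (((fun k : K => (k : OnePoint K)) '' C)ᶜ : Set (OnePoint K)) ∈
        𝓝 (OnePoint.infty : OnePoint K) := by
      apply (hC.image OnePoint.continuous_coe).isClosed.isOpen_compl.mem_nhds
      rintro ⟨l, -, h⟩
      exact OnePoint.coe_ne_infty l h
    rw [mem_map, nhds_prod_eq]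
    filter_upwards [prod_mem_prod univ_mem h1]
    rintro ⟨s, y⟩ ⟨-, hy⟩
    induction y using OnePoint.rec with
    | infty =>
      have hpt : Y.pt ∈ U := mem_of_mem_nhds hU
      exact hpt
    | coe k => exact h s k fun hk => hy ⟨k, hk, rfl⟩
  | coe k =>
    have h1 : Topology.IsOpenEmbedding (fun y : unitInterval × K =>
        ((y.1, (y.2 : OnePoint K)) : unitInterval × OnePoint K)) :=
      IsOpenEmbedding.id.prodMap OnePoint.isOpenEmbedding_coe
    have h2 := h1.continuousAt_iff (g := H.hpFun) (x := (t, k))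
    exact h2.1 (H.cont.continuousAt)

/-- a homotopy as a map on `I × K⁺` -/
def PMap.hp {K : LC} {Y : PT} (H : PMap (LC.I.prod K) Y) : C(unitInterval × OnePoint K, Y) :=
  ⟨H.hpFun, H.hpFun_continuous⟩

theorem PMap.hp_infty {K : LC} {Y : PT} (H : PMap (LC.I.prod K) Y) (t : unitInterval) :
    H.hp (t, OnePoint.infty) = Y.pt := rfl

theorem PMap.hp_coe {K : LC} {Y : PT} (H : PMap (LC.I.prod K) Y) (t : unitInterval) (k : K) :
    H.hp (t, (k : OnePoint K)) = H (t, k) := rfl

/-- the inverse of `squash`, `∞` at the end points -/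
def unsqFun (t : unitInterval) : OnePoint ℝ :=
  open Classical in if 0 < (t : ℝ) ∧ (t : ℝ) < 1 then ((unsquash t : ℝ) : OnePoint ℝ)
    else OnePoint.infty

theorem squash_unsquash {t : unitInterval} (h0 : 0 < (t : ℝ)) (h1 : (t : ℝ) < 1) :
    squash (unsquash t) = t := by
  apply Subtype.ext
  change (1 + unsquash t / (1 + |unsquash t|)) / 2 = (t : ℝ)
  unfold unsquash
  split_ifs with h
  · have h2 : (2 * (t : ℝ) - 1) / (2 * t) ≤ 0 :=
      div_nonpos_of_nonpos_of_nonneg (by linarith) (by linarith)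
    rw [abs_of_nonpos h2]
    have h3 : (t : ℝ) ≠ 0 := h0.ne'
    have h4 : 1 + -((2 * (t : ℝ) - 1) / (2 * t)) = 1 / (2 * t) := by
      field_simp
      ring
    rw [h4]
    field_simp
    ring
  · have h2 : 0 ≤ (2 * (t : ℝ) - 1) / (2 - 2 * t) :=
      div_nonneg (by linarith) (by linarith)
    rw [abs_of_nonneg h2]
    have h3 : (1 : ℝ) - t ≠ 0 := by
      intro h5
      linarith
    have h5 : (2 : ℝ) - 2 * t = 2 * (1 - t) := by ring
    have h4 : 1 + (2 * (t : ℝ) - 1) / (2 - 2 * t) = 1 / (2 - 2 * t) := by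
      rw [h5]
      field_simp
      ring
    rw [h4, h5]
    field_simp
    ring

/-- the inverse of `squash` as a pointed map -/
def unsq : PMap LC.I LC.R.plus :=
  ⟨unsqFun, (MV.partial_open (X := LC.I) (L := LC.R) {t : unitInterval | 0 < (t : ℝ) ∧ (t : ℝ) < 1}
    ((isOpen_lt continuous_const continuous_subtype_val).inter
      (isOpen_lt continuous_subtype_val continuous_const))
    (fun t => unsquash t.1) (by
      have h : (fun t : {t : unitInterval | 0 < (t : ℝ) ∧ (t : ℝ) < 1} => unsquash t.1) =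
          fun t => (2 * (t.1 : ℝ) - 1) / (2 * min (t.1 : ℝ) (1 - t.1)) := by
        funext t
        exact LoopAux.unsquash_eq _
      rw [h]
      have h2 : Continuous fun t : {t : unitInterval | 0 < (t : ℝ) ∧ (t : ℝ) < 1} =>
          ((t.1 : unitInterval) : ℝ) := continuous_subtype_val.comp continuous_subtype_val
      refine Continuous.div (by fun_prop) (by fun_prop) fun t => ?_
      have h3 : 0 < min (t.1 : ℝ) (1 - t.1) := lt_min t.2.1 (by linarith [t.2.2])
      positivity) unsqFun
    (fun t => if_pos t.2) (fun t ht => if_neg ht) (by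
      intro D hD
      obtain ⟨R, hR⟩ := hD.isBounded.exists_norm_le
      have hR0 : 0 ≤ max R 0 := le_max_right _ _
      have hd : 0 < 1 / (2 * (1 + max R 0)) := by positivity
      refine ⟨{t | 1 / (2 * (1 + max R 0)) ≤ (t : ℝ) ∧ (t : ℝ) ≤ 1 - 1 / (2 * (1 + max R 0))}, ?_,
        ?_, ?_⟩
      · exact ((isClosed_le continuous_const continuous_subtype_val).inter
          (isClosed_le continuous_subtype_val continuous_const)).isCompact
      · rintro t ⟨h1, h2⟩
        exact ⟨by linarith, by linarith⟩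
      · rintro ⟨t, ht⟩ htD
        have h1 := (hR _ htD).trans (le_max_left R 0)
        exact LoopAux.unsquash_bd hR0 ht.1 ht.2 h1)).1,
    by rw [cocompact_eq_bot]; exact tendsto_bot⟩

theorem unsq_mem {t : unitInterval} (h0 : 0 < (t : ℝ)) (h1 : (t : ℝ) < 1) :
    unsq t = ((unsquash t : ℝ) : OnePoint ℝ) := if_pos ⟨h0, h1⟩

theorem unsq_notMem {t : unitInterval} (h : ¬ (0 < (t : ℝ) ∧ (t : ℝ) < 1)) :
    unsq t = OnePoint.infty := if_neg h

theorem unsq_zero : unsq (0 : unitInterval) = OnePoint.infty := unsq_notMem (by simp)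

theorem unsq_one : unsq (1 : unitInterval) = OnePoint.infty := unsq_notMem (by simp)

/-- the map `I × K⁺ → (ℝ × K)⁺` -/
def strI (K : LC) : C(unitInterval × OnePoint K, OnePoint (LC.R.prod K)) :=
  PMap.hp (Y := (LC.R.prod K).plus) (unsq.box (PMap.id K))

theorem strI_coe (K : LC) (t : unitInterval) (k : K) :
    strI K (t, (k : OnePoint K)) = smashPt LC.R K (unsq t, (k : OnePoint K)) := rfl

theorem strI_infty (K : LC) (t : unitInterval) : strI K (t, OnePoint.infty) = OnePoint.infty := rfl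

theorem strI_of {K : LC} {t : unitInterval} (h : unsq t = OnePoint.infty) (x : OnePoint K) :
    strI K (t, x) = OnePoint.infty := by
  induction x using OnePoint.rec with
  | infty => rfl
  | coe k => rw [strI_coe, h]; rfl

/-- `ℝ × (ℝ × K) = ℂ × K` -/
def cR (K : LC) : LC.R.prod (LC.R.prod K) ≃ₜ LC.C.prod K where
  toFun x := (⟨x.1, x.2.1⟩, x.2.2)
  invFun x := (x.1.re, (x.1.im, x.2))
  left_inv _ := rfl
  right_inv _ := rfl
  continuous_toFun := by
    refine Continuous.prodMk ?_ (by fun_prop)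
    have h : (fun x : ℝ × (ℝ × K) => (⟨x.1, x.2.1⟩ : ℂ)) =
        fun x => (x.1 : ℂ) + (x.2.1 : ℂ) * Complex.I := by
      funext x
      exact Complex.mk_eq_add_mul_I _ _
    change Continuous fun x : ℝ × (ℝ × K) => (⟨x.1, x.2.1⟩ : ℂ)
    rw [h]
    fun_prop
  continuous_invFun := by fun_prop

theorem Prespectrum.sig_plus (Y : Prespectrum) {n : ℕ} {K : LC} (g : PMap K (Y.sp n))
    (t : unitInterval) (x : OnePoint K) :
    (Y.sig g).plus (strI K (t, x)) = Y.str n (t, g.plus x) := by
  induction x using OnePoint.rec with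
  | infty => exact (Y.str_pt n t).symm
  | coe k =>
    by_cases ht : 0 < (t : ℝ) ∧ (t : ℝ) < 1
    · rw [strI_coe, unsq_mem ht.1 ht.2]
      change Y.str n (squash (unsquash t), g k) = Y.str n (t, g k)
      rw [squash_unsquash ht.1 ht.2]
    · rw [strI_coe, unsq_notMem ht]
      change (Y.sp (n + 1)).pt = Y.str n (t, g k)
      have h2 : t = 0 ∨ t = 1 := by
        by_contra h3
        push Not at h3
        apply ht
        exact ⟨lt_of_le_of_ne t.2.1 (fun h => h3.1 (Subtype.ext h.symm)),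
          lt_of_le_of_ne t.2.2 (fun h => h3.2 (Subtype.ext h))⟩
      rcases h2 with rfl | rfl
      · exact (Y.str_zero n _).symm
      · exact (Y.str_one n _).symm

theorem Prespectrum.sigC_cR (Y : Prespectrum) {n : ℕ} {K : LC} (g : PMap K (Y.sp n)) :
    (Y.sigC g).comp (PMap.ofHomeo (cR K)) = Y.sig (Y.sig g) := by
  ext ⟨a, b, k⟩
  rfl

/-! ## The prespectrum of a sequence -/

/-- a sequence of spaces `L n` with structure maps `ℂ × L n → L (n+1)` -/
structure CSeq where
  L : ℕ → LC
  s : ∀ n, PMap (LC.C.prod (L n)) (L (n + 1)).plus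

namespace CSeq

/-- the sequence without its first term -/
def tail (C : CSeq) : CSeq := ⟨fun n => C.L (n + 1), fun n => C.s (n + 1)⟩

/-- the spaces of the prespectrum -/
def sp : ℕ → CSeq → PT
  | 0, C => (C.L 0).plus
  | 1, C => (LC.R.prod (C.L 0)).plus
  | n + 2, C => sp n C.tail

/-- the map `I × (ℝ × L 0)⁺ → (L 1)⁺` -/
def str1 (C : CSeq) : C(unitInterval × OnePoint (LC.R.prod (C.L 0)), OnePoint (C.L 1)) :=
  ⟨fun x => ((C.s 0).comp (PMap.ofHomeo (cR (C.L 0)))).plus (strI (LC.R.prod (C.L 0)) x),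
    (PMap.continuous_plus _).comp (strI _).continuous⟩

/-- the structure maps -/
def str : ∀ (n : ℕ) (C : CSeq), C(unitInterval × sp n C, sp (n + 1) C)
  | 0, C => strI (C.L 0)
  | 1, C => C.str1
  | n + 2, C => str n C.tail

theorem str_zero' : ∀ (n : ℕ) (C : CSeq) (x : sp n C), str n C (0, x) = (sp (n + 1) C).pt
  | 0, C, x => strI_of unsq_zero x
  | 1, C, x => by
    change PMap.plus _ (strI (LC.R.prod (C.L 0)) (0, x)) = _
    rw [strI_of unsq_zero x]
    rfl
  | n + 2, C, x => str_zero' n C.tail x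

theorem str_one' : ∀ (n : ℕ) (C : CSeq) (x : sp n C), str n C (1, x) = (sp (n + 1) C).pt
  | 0, C, x => strI_of unsq_one x
  | 1, C, x => by
    change PMap.plus _ (strI (LC.R.prod (C.L 0)) (1, x)) = _
    rw [strI_of unsq_one x]
    rfl
  | n + 2, C, x => str_one' n C.tail x

theorem str_pt' : ∀ (n : ℕ) (C : CSeq) (t : unitInterval),
    str n C (t, (sp n C).pt) = (sp (n + 1) C).pt
  | 0, _, _ => rfl
  | 1, _, _ => rfl
  | n + 2, C, t => str_pt' n C.tail t

/-- the prespectrum of a sequence -/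
def P (C : CSeq) : Prespectrum where
  sp n := sp n C
  str n := str n C
  str_zero n x := str_zero' n C x
  str_one n x := str_one' n C x
  str_pt n t := str_pt' n C t

theorem P_up_up (C : CSeq) : C.P.up.up = C.tail.P := rfl

/-- a family of maps of the levels that commute with the structure maps -/
structure Fam (C : CSeq) (X : Prespectrum) where
  w : ∀ n, PMap (C.L n) (X.sp (2 * n))
  comm : ∀ n, (w (n + 1)).comp (C.s n) = X.sigC (w n)

/-- the family without its first term -/
def Fam.tail {C : CSeq} {X : Prespectrum} (F : Fam C X) : Fam C.tail X.up.up where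
  w n := F.w (n + 1)
  comm n := F.comm (n + 1)

/-- the maps of a family -/
def Fam.mapF : ∀ (n : ℕ) {C : CSeq} {X : Prespectrum}, Fam C X → C(sp n C, X.sp n)
  | 0, _, _, F => ⟨(F.w 0).plus, (F.w 0).continuous_plus⟩
  | 1, C, X, F => ⟨(X.sig (K := C.L 0) (F.w 0)).plus, (X.sig (K := C.L 0) (F.w 0)).continuous_plus⟩
  | n + 2, _, _, F => Fam.mapF n F.tail

theorem Fam.mapF_pt : ∀ (n : ℕ) {C : CSeq} {X : Prespectrum} (F : Fam C X),
    F.mapF n (sp n C).pt = (X.sp n).pt
  | 0, _, _, _ => rfl
  | 1, _, _, _ => rfl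
  | n + 2, _, _, F => Fam.mapF_pt n F.tail

theorem Fam.mapF_str : ∀ (n : ℕ) {C : CSeq} {X : Prespectrum} (F : Fam C X) (t : unitInterval)
    (x : sp n C), F.mapF (n + 1) (str n C (t, x)) = X.str n (t, F.mapF n x)
  | 0, _, X, F, t, x => X.sig_plus (n := 0) (F.w 0) t x
  | 1, C, X, F, t, x => by
    have h1 := X.sig_plus (n := 1) (X.sig (n := 0) (F.w 0)) t x
    rw [← Prespectrum.sigC_cR] at h1
    refine Eq.trans ?_ h1
    have h2 : ((F.w 1).comp (C.s 0)).comp (PMap.ofHomeo (cR (C.L 0))) =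
        (X.sigC (F.w 0)).comp (PMap.ofHomeo (cR (C.L 0))) := by
      rw [← F.comm 0]
    change (F.w 1).plus (((C.s 0).comp (PMap.ofHomeo (cR (C.L 0)))).plus
      (strI (LC.R.prod (C.L 0)) (t, x))) = _
    rw [← PMap.plus_comp, ← PMap.comp_assoc, h2]
  | n + 2, _, _, F, t, x => Fam.mapF_str n F.tail t x

/-- the map of prespectra of a family -/
def Fam.hom {C : CSeq} {X : Prespectrum} (F : Fam C X) : C.P ⟶ X where
  map n := F.mapF n
  map_pt n := F.mapF_pt n
  map_str n t x := F.mapF_str n t x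

/-! ### Levels -/

/-- the levels `2 n` -/
def spE : ∀ (n : ℕ) (C : CSeq), C.P.sp (2 * n) ≃ₜ OnePoint (C.L n)
  | 0, C => Homeomorph.refl (OnePoint (C.L 0))
  | n + 1, C => spE n C.tail

theorem spE_pt : ∀ (n : ℕ) (C : CSeq), spE n C (C.P.sp (2 * n)).pt = OnePoint.infty
  | 0, _ => rfl
  | n + 1, C => spE_pt n C.tail

theorem spE_map : ∀ (n : ℕ) {C : CSeq} {X : Prespectrum} (F : Fam C X) (x : C.P.sp (2 * n)),
    F.mapF (2 * n) x = (F.w n).plus (spE n C x)
  | 0, _, _, _, _ => rfl
  | n + 1, _, _, F, x => spE_map n F.tail x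

theorem str1_apply (C : CSeq) (t t' : unitInterval) (x : OnePoint (C.L 0)) :
    C.str1 (t, strI (C.L 0) (t', x)) =
      ((C.s 0).comp (PMap.ofHomeo (cR (C.L 0)))).plus (strI (LC.R.prod (C.L 0))
        (t, strI (C.L 0) (t', x))) := rfl

theorem spE_str : ∀ (n : ℕ) (C : CSeq) (z : ℂ) (k : C.L n),
    spE (n + 1) C (C.P.str (2 * n + 1) (squash z.re, C.P.str (2 * n) (squash z.im,
      (spE n C).symm (k : OnePoint (C.L n))))) = C.s n (z, k)
  | 0, C, z, k => by
    change C.str1 (squash z.re, strI (C.L 0) (squash z.im, (k : OnePoint (C.L 0)))) = _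
    rw [str1_apply, strI_coe, unsq_mem (LoopAux.squash_pos _) (LoopAux.squash_lt_one _),
      unsquash_squash]
    change ((C.s 0).comp (PMap.ofHomeo (cR (C.L 0)))).plus (strI (LC.R.prod (C.L 0))
      (squash z.re, (((z.im, k) : LC.R.prod (C.L 0)) : OnePoint (LC.R.prod (C.L 0))))) = _
    rw [strI_coe, unsq_mem (LoopAux.squash_pos _) (LoopAux.squash_lt_one _),
      unsquash_squash]
    rfl
  | n + 1, C, z, k => spE_str n C.tail z k

/-- the levels of the prespectrum of a sequence of test spaces -/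
def levels (C : CSeq) (h : ∀ n, IsTest (C.L n)) : Levels C.P where
  K := C.L
  test := h
  e n := (Prespectrum.vE n C.P).trans (spE n C)
  e_pt n := by
    change spE n C (Prespectrum.vE n C.P ((C.P.upp n).sp 0).pt) = _
    rw [Prespectrum.vE_pt, spE_pt]

theorem levels_ev (C : CSeq) (h : ∀ n, IsTest (C.L n)) (n : ℕ) : (C.levels h).ev n = spE n C := by
  ext x
  change spE n C (Prespectrum.vE n C.P ((Prespectrum.vE n C.P).symm x)) = _
  rw [Homeomorph.apply_symm_apply]
  rfl

theorem levels_step (C : CSeq) (h : ∀ n, IsTest (C.L n)) (n : ℕ) :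
    (C.levels h).step n = C.s n := by
  have h1 : (C.levels h).ev (n + 1) = spE (n + 1) C := C.levels_ev h (n + 1)
  have h2 : (C.levels h).ev n = spE n C := C.levels_ev h n
  have h3 := congrArg ((C.levels h).fac (n + 1)) ((C.levels h).ic_step n)
  rw [(C.levels h).fac_ic] at h3
  rw [h3]
  refine PMap.ext ?_
  rintro ⟨z, (k : (C.L n).carrier)⟩
  change (C.levels h).ev (n + 1) (C.P.str (2 * n + 1) (squash z.re, C.P.str (2 * n) (squash z.im,
    ((C.levels h).ev n).symm (k : OnePoint (C.L n))))) = C.s n (z, k)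
  rw [h1, h2]
  exact spE_str n C z k

theorem Fam.ic_comp {C : CSeq} {X : Prespectrum} (F : Fam C X) (h : ∀ n, IsTest (C.L n)) (n : ℕ) :
    PMap.post (Prespectrum.Hom.map F.hom (2 * n)) (Prespectrum.Hom.map F.hom (2 * n)).continuous
      (Prespectrum.Hom.map_pt F.hom (2 * n)) ((C.levels h).ic n) = F.w n := by
  refine PMap.ext ?_
  intro (k : (C.L n).carrier)
  change F.mapF (2 * n) (((C.levels h).ev n).symm (k : OnePoint (C.L n))) = F.w n k
  rw [spE_map, C.levels_ev h n]
  exact congrArg (F.w n).plus ((spE n C).apply_symm_apply (k : OnePoint (C.L n)))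

/-- the universal elements are mapped to the classes of the family -/
theorem Fam.hom_u {C : CSeq} {X : Prespectrum} (F : Fam C X) (h : ∀ n, IsTest (C.L n)) (n : ℕ) :
    ((hP.map F.hom).app n).app (op ((C.levels h).T n)) ((C.levels h).u n) =
      X.cl n (K := (C.levels h).T n) (F.w n) := by
  rw [← (C.levels h).cl_ic n]
  refine (Prespectrum.map_cl F.hom n _).trans ?_
  exact congrArg (fun g => X.cl n (K := (C.levels h).T n) g) (F.ic_comp h n)

end CSeq

end Pool.Agent.Helper1.Stab
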