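import Pool.Agent.Helper1.Stab.Yoneda

/-! Classes of maps to the even levels of a prespectrum. -/

open CategoryTheory Topology Filter Set Opposite

noncomputable section

namespace Pool.Agent.Helper1.Stab

/-! ## The levels of `X.upp n` -/

/-- `X.upp (n+1)` and `(X.up.up).upp n` have the same spaces -/
def Prespectrum.upH (X : Prespectrum) : ∀ n k : ℕ, (X.upp (n + 1)).sp k ≃ₜ ((X.up.up).upp n).sp k
  | 0, k => Homeomorph.refl (X.sp (k + 2))
  | n + 1, k => Prespectrum.upH X n (k + 2)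

theorem Prespectrum.upH_pt (X : Prespectrum) (n k : ℕ) :
    X.upH n k ((X.upp (n + 1)).sp k).pt = (((X.up.up).upp n).sp k).pt := by
  induction n generalizing k with
  | zero => rfl
  | succ n ih => exact ih (k + 2)

theorem Prespectrum.upH_str (X : Prespectrum) (n k : ℕ) (t : unitInterval)
    (x : (X.upp (n + 1)).sp k) :
    X.upH n (k + 1) ((X.upp (n + 1)).str k (t, x)) = ((X.up.up).upp n).str k (t, X.upH n k x) := by
  induction n generalizing k with
  | zero => rfl
  | succ n ih => exact ih (k + 2) x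

/-- the map `w.up.up` -/
def Prespectrum.Hom.uu {X Y : Prespectrum} (w : X ⟶ Y) : X.up.up ⟶ Y.up.up :=
  Prespectrum.Hom.uppMap w 1

theorem Prespectrum.Hom.upH_map {X Y : Prespectrum} (w : X ⟶ Y) (n k : ℕ)
    (x : (X.upp (n + 1)).sp k) :
    Y.upH n k (Prespectrum.Hom.map (Prespectrum.Hom.uppMap w (n + 1)) k x) =
      Prespectrum.Hom.map (Prespectrum.Hom.uppMap (Prespectrum.Hom.uu w) n) k (X.upH n k x) := by
  induction n generalizing k with
  | zero => rfl
  | succ n ih => exact ih (k + 2) x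

/-- the level `0` of `X.upp n` is the level `2 n` of `X` -/
def Prespectrum.vE : ∀ (n : ℕ) (X : Prespectrum), (X.upp n).sp 0 ≃ₜ X.sp (2 * n)
  | 0, X => Homeomorph.refl (X.sp 0)
  | n + 1, X => (X.upH n 0).trans (Prespectrum.vE n X.up.up)

theorem Prespectrum.vE_pt (n : ℕ) (X : Prespectrum) :
    Prespectrum.vE n X ((X.upp n).sp 0).pt = (X.sp (2 * n)).pt := by
  induction n generalizing X with
  | zero => rfl
  | succ n ih =>
    change Prespectrum.vE n X.up.up (X.upH n 0 ((X.upp (n + 1)).sp 0).pt) = _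
    rw [X.upH_pt]
    exact ih X.up.up

theorem Prespectrum.vE_symm_pt (n : ℕ) (X : Prespectrum) :
    (Prespectrum.vE n X).symm (X.sp (2 * n)).pt = ((X.upp n).sp 0).pt := by
  rw [← Prespectrum.vE_pt, Homeomorph.symm_apply_apply]

theorem Prespectrum.vE_str (n : ℕ) (X : Prespectrum) (t t' : unitInterval)
    (x : (X.upp n).sp 0) :
    Prespectrum.vE (n + 1) X ((X.upp n).str 1 (t, (X.upp n).str 0 (t', x))) =
      X.str (2 * n + 1) (t, X.str (2 * n) (t', Prespectrum.vE n X x)) := by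
  induction n generalizing X with
  | zero => rfl
  | succ n ih =>
    change Prespectrum.vE (n + 1) X.up.up (X.upH n 2 ((X.upp (n + 1)).str 1
      (t, (X.upp (n + 1)).str 0 (t', x)))) = _
    rw [X.upH_str n 1, X.upH_str n 0]
    exact ih X.up.up (X.upH n 0 x)

theorem Prespectrum.vE_map {X Y : Prespectrum} (w : X ⟶ Y) (n : ℕ) (x : (X.upp n).sp 0) :
    Prespectrum.vE n Y (Prespectrum.Hom.map (Prespectrum.Hom.uppMap w n) 0 x) =
      Prespectrum.Hom.map w (2 * n) (Prespectrum.vE n X x) := by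
  induction n generalizing X Y with
  | zero => rfl
  | succ n ih =>
    change Prespectrum.vE n Y.up.up (Y.upH n 0 _) = _
    rw [Prespectrum.Hom.upH_map w n 0]
    exact ih (Prespectrum.Hom.uu w) (X.upH n 0 x)

/-! ## Classes -/

/-- the representative of a map to the level `2 n` -/
def Prespectrum.rp (X : Prespectrum) (n : ℕ) {K : LC} (f : PMap K (X.sp (2 * n))) :
    (X.upp n).Rep 0 K :=
  PMap.comp (L := K) (Y := (X.upp n).sp 0)
    (PMap.post (Z := (X.upp n).sp 0) (Prespectrum.vE n X).symm (Prespectrum.vE n X).symm.continuous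
      (Prespectrum.vE_symm_pt n X) f)
    (PMap.ofHomeo (Levels.z0 K).symm)

/-- the map of a representative -/
def Prespectrum.pr (X : Prespectrum) (n : ℕ) {K : LC} (f : (X.upp n).Rep 0 K) :
    PMap K (X.sp (2 * n)) :=
  PMap.post (Y := (X.upp n).sp 0) (Prespectrum.vE n X) (Prespectrum.vE n X).continuous
      (Prespectrum.vE_pt n X) (PMap.comp (L := (LC.cpow (Fin 0)).prod K) (Y := (X.upp n).sp 0) f
    (PMap.ofHomeo (Levels.z0 K)))

theorem Prespectrum.rp_apply (X : Prespectrum) (n : ℕ) {K : LC} (f : PMap K (X.sp (2 * n)))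
    (v : Fin 0 → ℂ) (k : K) : X.rp n f (v, k) = (Prespectrum.vE n X).symm (f k) := rfl

theorem Prespectrum.pr_apply (X : Prespectrum) (n : ℕ) {K : LC} (f : (X.upp n).Rep 0 K) (k : K) :
    X.pr n f k = Prespectrum.vE n X (f (0, k)) := rfl

theorem Prespectrum.rp_pr (X : Prespectrum) (n : ℕ) {K : LC} (f : (X.upp n).Rep 0 K) :
    X.rp n (X.pr n f) = f := by
  ext ⟨v, k⟩
  have hv : v = 0 := Subsingleton.elim _ _
  subst hv
  rw [X.rp_apply, X.pr_apply, Homeomorph.symm_apply_apply]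

theorem Prespectrum.pr_rp (X : Prespectrum) (n : ℕ) {K : LC} (f : PMap K (X.sp (2 * n))) :
    X.pr n (X.rp n f) = f := by
  ext k
  rw [X.pr_apply, X.rp_apply, Homeomorph.apply_symm_apply]

theorem Prespectrum.rp_homotopic (X : Prespectrum) (n : ℕ) {K : LC} {f g : PMap K (X.sp (2 * n))}
    (h : f.Homotopic g) : (X.rp n f).Homotopic (X.rp n g) := by
  refine PMap.Homotopic.comp_left ?_ _
  obtain ⟨H, h0, h1⟩ := h
  exact ⟨H.post _ (Prespectrum.vE n X).symm.continuous (Prespectrum.vE_symm_pt n X),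
    fun k => congrArg (Prespectrum.vE n X).symm (h0 k),
    fun k => congrArg (Prespectrum.vE n X).symm (h1 k)⟩

theorem Prespectrum.pr_homotopic (X : Prespectrum) (n : ℕ) {K : LC} {f g : (X.upp n).Rep 0 K}
    (h : PMap.Homotopic f g) : (X.pr n f).Homotopic (X.pr n g) := by
  obtain ⟨H, h0, h1⟩ := PMap.Homotopic.comp_left (Y := (X.upp n).sp 0) h
    (PMap.ofHomeo (Levels.z0 K))
  exact ⟨PMap.post (Y := (X.upp n).sp 0) _ (Prespectrum.vE n X).continuous (Prespectrum.vE_pt n X) H,
    fun k => congrArg (Prespectrum.vE n X) (h0 k),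
    fun k => congrArg (Prespectrum.vE n X) (h1 k)⟩

theorem Prespectrum.rp_sigC (X : Prespectrum) (n : ℕ) {K : LC} (f : PMap K (X.sp (2 * n))) :
    X.rp (n + 1) (X.sigC f) = Levels.sh (X.rp n f).next := by
  ext ⟨v, z, k⟩
  rw [Levels.sh_apply, X.rp_apply]
  rw [Homeomorph.symm_apply_eq]
  change X.str (2 * n + 1) (squash z.re, X.str (2 * n) (squash z.im, f k)) =
    Prespectrum.vE (n + 1) X ((X.upp n).str 1 (squash _, (X.upp n).str 0 (squash _,
      (Prespectrum.vE n X).symm (f k))))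
  rw [Prespectrum.vE_str, Homeomorph.apply_symm_apply]
  rfl

/-- the class of a map to the level `2 n` -/
def Prespectrum.cl (X : Prespectrum) (n : ℕ) {K : Test} (f : PMap K.obj (X.sp (2 * n))) :
    ((hP.obj X).h n).obj (op K) :=
  (hT X).cls (b := n) (j := 0) (K := K) (X.rp n f)

theorem Prespectrum.cl_homotopic (X : Prespectrum) (n : ℕ) {K : Test}
    {f g : PMap K.obj (X.sp (2 * n))} (h : f.Homotopic g) : X.cl n f = X.cl n g :=
  (hT X).cls_homotopic (X.rp_homotopic n h)

theorem Prespectrum.cl_comp (X : Prespectrum) (n : ℕ) {K L : Test}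
    (f : PMap L.obj (X.sp (2 * n))) (h : PMap K.obj L.obj.plus) :
    X.cl n (K := K) (f.comp h) = pbT ((hP.obj X).h n) h (X.cl n f) := by
  have h1 := (hT X).map_cls (b := n) (j := 0) (K := K) (L := L) h (X.rp n f)
  refine Eq.trans ?_ h1.symm
  refine congrArg (fun g => (hT X).cls (b := n) (j := 0) (K := K) g) ?_
  ext ⟨v, k⟩
  change (Prespectrum.vE n X).symm (f.plus (h k)) = (X.rp n f).plus (smashPt (LC.cpow (Fin 0)) L.obj
    (((v : Fin 0 → ℂ) : OnePoint (Fin 0 → ℂ)), h k))
  rcases h k with _ | l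
  · exact Prespectrum.vE_symm_pt n X
  · rfl

theorem Prespectrum.sig_cl (X : Prespectrum) (n : ℕ) {K : Test}
    (f : PMap K.obj (X.sp (2 * n))) :
    ((hP.obj X).σ n).hom.app (op K) (X.cl n f) = X.cl (n + 1) (K := Test.cx.obj K) (X.sigC f) := by
  have h1 : (hT X).cls (X.rp n f).next = X.cl n f := (hT X).cls_next (K := K) (X.rp n f)
  have h2 := Levels.sig_cls (K := K) (X.rp n f).next
  rw [h1] at h2
  refine h2.trans ?_
  exact (congrArg (fun g => (hT X).cls (b := n + 1) (j := 0) (K := Test.cx.obj K) g)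
    (X.rp_sigC n f)).symm

theorem Prespectrum.map_cl {X Y : Prespectrum} (w : X ⟶ Y) (n : ℕ) {K : Test}
    (f : PMap K.obj (X.sp (2 * n))) :
    ((hP.map w).app n).app (op K) (X.cl n f) =
      Y.cl n (PMap.post (Prespectrum.Hom.map w (2 * n)) (Prespectrum.Hom.map w (2 * n)).continuous
        (Prespectrum.Hom.map_pt w (2 * n)) f) := by
  have h1 := hP_map_cls w (b := n) (K := K) (X.rp n f)
  refine h1.trans ?_
  refine congrArg (fun g => (hT Y).cls (b := n) (j := 0) (K := K) g) ?_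
  ext ⟨v, k⟩
  rw [Y.rp_apply]
  symm
  rw [Homeomorph.symm_apply_eq]
  change Prespectrum.Hom.map w (2 * n) (f k) = Prespectrum.vE n Y (Prespectrum.Hom.map
    (Prespectrum.Hom.uppMap w n) 0 ((Prespectrum.vE n X).symm (f k)))
  rw [Prespectrum.vE_map, Homeomorph.apply_symm_apply]

/-- `f` and `g` become homotopic after `n` suspensions -/
def Prespectrum.Ev (X : Prespectrum) : ∀ (n : ℕ) {a : ℕ} {K : LC}, PMap K (X.sp a) →
    PMap K (X.sp a) → Prop
  | 0, _, _, f, g => f.Homotopic g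
  | n' + 1, _, _, f, g => Prespectrum.Ev X n' (X.sigC f) (X.sigC g)

theorem Prespectrum.Ev.uu {X : Prespectrum} (n : ℕ) {a : ℕ} {K : LC} {f g : PMap K (X.sp (a + 2))}
    (h : X.Ev n f g) : X.up.up.Ev n (a := a) f g := by
  induction n generalizing a K with
  | zero => exact h
  | succ n ih => exact ih (a := a + 2) h

theorem Prespectrum.Ev.of_uu {X : Prespectrum} (n : ℕ) {a : ℕ} {K : LC}
    {f g : PMap K (X.sp (a + 2))}
    (h : X.up.up.Ev n (a := a) f g) : X.Ev n f g := by
  induction n generalizing a K with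
  | zero => exact h
  | succ n ih => exact ih (a := a + 2) h

theorem Levels.sh_nxt {X : Prespectrum} {b j : ℕ} {K : LC} (f : (X.upp b).Rep j K) (n : ℕ) :
    Levels.sh (j := j + n) (Levels.nxt f (n + 1)) = Levels.nxt (Levels.sh f.next) n := by
  induction n with
  | zero => rfl
  | succ n ih =>
    rw [Levels.nxt_succ (Levels.sh f.next) n, ← ih]
    exact Levels.sh_next (j := j + n) (Levels.nxt f (n + 1))

theorem Prespectrum.ev_of_nxt (X : Prespectrum) (N : ℕ) : ∀ (n : ℕ) (K : LC)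
    (f g : PMap K (X.sp (2 * n))),
    PMap.Homotopic (Levels.nxt (X.rp n f) N) (Levels.nxt (X.rp n g) N) → X.Ev N f g := by
  induction N with
  | zero =>
    intro n K f g h
    have h1 := X.pr_homotopic n h
    change (X.pr n (X.rp n f)).Homotopic (X.pr n (X.rp n g)) at h1
    rw [X.pr_rp, X.pr_rp] at h1
    exact h1
  | succ N ih =>
    intro n K f g h
    refine ih (n + 1) (LC.C.prod K) (X.sigC f) (X.sigC g) ?_
    rw [X.rp_sigC, X.rp_sigC, ← Levels.sh_nxt, ← Levels.sh_nxt]
    exact h.comp_left _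

theorem Prespectrum.ev_of_cl (X : Prespectrum) (n : ℕ) {K : Test}
    {f g : PMap K.obj (X.sp (2 * n))} (h : X.cl n f = X.cl n g) : ∃ N, X.Ev N f g := by
  obtain ⟨N, hN⟩ := (hT X).cls_eq h
  exact ⟨N, X.ev_of_nxt N n K.obj f g hN⟩

theorem Prespectrum.cl_of_ev (X : Prespectrum) (N : ℕ) : ∀ (n : ℕ) (K : Test)
    (f g : PMap K.obj (X.sp (2 * n))), X.Ev N f g → X.cl n f = X.cl n g := by
  induction N with
  | zero => exact fun n K f g h => X.cl_homotopic n h
  | succ N ih =>
    intro n K f g h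
    apply sig_inj (hP.obj X) n K
    have h1 := ih (n + 1) (Test.cx.obj K) (X.sigC f) (X.sigC g) h
    exact (X.sig_cl n f).trans (h1.trans (X.sig_cl n g).symm)

/-- `x` is the class of a map after `n` suspensions -/
def Prespectrum.St (X : Prespectrum) : ∀ (n b : ℕ) (K : Test), ((hP.obj X).h b).obj (op K) → Prop
  | 0, b, K, x => ∃ f : PMap K.obj (X.sp (2 * b)), x = X.cl b f
  | n + 1, b, K, x => Prespectrum.St X n (b + 1) (Test.cx.obj K) (((hP.obj X).σ b).hom.app (op K) x)

theorem Prespectrum.st_cls (X : Prespectrum) : ∀ (j b : ℕ) (K : Test) (f : (X.upp b).Rep j K.obj),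
    X.St j b K ((hT X).cls f)
  | 0, b, K, f => ⟨X.pr b f, congrArg (fun g => (hT X).cls (b := b) (j := 0) (K := K) g)
      (X.rp_pr b f).symm⟩
  | j + 1, b, K, f => by
    change X.St j (b + 1) (Test.cx.obj K) (((hT X).H.σ b).hom.app (op K) ((hT X).cls f))
    rw [Levels.sig_cls]
    exact Prespectrum.st_cls X j (b + 1) (Test.cx.obj K) (Levels.sh f)

theorem Prespectrum.exists_st (X : Prespectrum) (b : ℕ) (K : Test)
    (x : ((hP.obj X).h b).obj (op K)) : ∃ n, X.St n b K x := by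
  obtain ⟨j, -, f, rfl⟩ := (hT X).cls_surj (b := b) (K := K) x 0
  exact ⟨j, X.st_cls j b K f⟩

theorem Prespectrum.St.succ {X : Prespectrum} : ∀ (n b : ℕ) (K : Test)
    (x : ((hP.obj X).h b).obj (op K)), X.St n b K x → X.St (n + 1) b K x
  | 0, b, K, x, ⟨f, hf⟩ => ⟨X.sigC f, by rw [hf]; exact X.sig_cl b f⟩
  | n + 1, b, K, x, h => Prespectrum.St.succ n (b + 1) (Test.cx.obj K) _ h

/-! ## Levels -/

namespace Levels
variable {G : Prespectrum} (L : Levels G)

/-- the level `2 n` -/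
def ev (n : ℕ) : G.sp (2 * n) ≃ₜ OnePoint (L.K n) := (Prespectrum.vE n G).symm.trans (L.e n)

theorem ev_pt (n : ℕ) : L.ev n (G.sp (2 * n)).pt = OnePoint.infty := by
  change L.e n ((Prespectrum.vE n G).symm _) = _
  rw [Prespectrum.vE_symm_pt]
  exact L.e_pt n

/-- the identification `K n → G (2 n)` -/
def ic (n : ℕ) : PMap (L.K n) (G.sp (2 * n)) :=
  PMap.post (Y := (G.upp n).sp 0) (Prespectrum.vE n G) (Prespectrum.vE n G).continuous
    (Prespectrum.vE_pt n G) (L.inc n)

theorem ic_apply (n : ℕ) (k : L.K n) : L.ic n k = (L.ev n).symm (k : OnePoint (L.K n)) := rfl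

theorem rp_ic (n : ℕ) : G.rp n (L.ic n) = L.uRep n := by
  ext ⟨v, k⟩
  rw [G.rp_apply, L.uRep_apply]
  change (Prespectrum.vE n G).symm (Prespectrum.vE n G ((L.e n).symm (k : OnePoint (L.K n)))) = _
  rw [Homeomorph.symm_apply_apply]

theorem cl_ic (n : ℕ) : G.cl n (K := L.T n) (L.ic n) = L.u n := by
  rw [L.u_eq]
  exact congrArg (fun g => (hT G).cls (b := n) (j := 0) (K := L.T n) g) (L.rp_ic n)

/-- the factorisation of a map to a level -/
def fac (n : ℕ) {K : LC} (f : PMap K (G.sp (2 * n))) : PMap K (L.K n).plus :=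
  PMap.post (Z := (L.K n).plus) (L.ev n) (L.ev n).continuous (L.ev_pt n) f

theorem ev_symm_infty (n : ℕ) : (L.ev n).symm OnePoint.infty = (G.sp (2 * n)).pt := by
  rw [← L.ev_pt n, Homeomorph.symm_apply_apply]

theorem ic_plus (n : ℕ) (x : OnePoint (L.K n)) : (L.ic n).plus x = (L.ev n).symm x := by
  rcases x with _ | k
  · exact (L.ev_symm_infty n).symm
  · rfl

theorem ic_fac (n : ℕ) {K : LC} (f : PMap K (G.sp (2 * n))) : (L.ic n).comp (L.fac n f) = f := by
  ext k
  change (L.ic n).plus (L.ev n (f k)) = f k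
  rw [L.ic_plus, Homeomorph.symm_apply_apply]

theorem fac_ic (n : ℕ) {K : LC} (h : PMap K (L.K n).plus) : L.fac n ((L.ic n).comp h) = h := by
  ext k
  change L.ev n ((L.ic n).plus (h k)) = h k
  rw [L.ic_plus, Homeomorph.apply_symm_apply]

theorem fac_homotopic (n : ℕ) {K : LC} {f g : PMap K (G.sp (2 * n))} (h : f.Homotopic g) :
    (L.fac n f).Homotopic (L.fac n g) := by
  obtain ⟨H, h0, h1⟩ := h
  exact ⟨H.post (Z := (L.K n).plus) _ (L.ev n).continuous (L.ev_pt n),
    fun k => congrArg (L.ev n) (h0 k), fun k => congrArg (L.ev n) (h1 k)⟩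

theorem cl_fac (n : ℕ) {K : Test} (f : PMap K.obj (G.sp (2 * n))) :
    G.cl n f = pbT ((hP.obj G).h n) (K := K) (L := L.T n) (L.fac n f) (L.u n) := by
  rw [← L.cl_ic n]
  refine Eq.trans ?_ (G.cl_comp n (K := K) (L := L.T n) (L.ic n) (L.fac n f))
  exact congrArg (fun g => G.cl n (K := K) g) (L.ic_fac n f).symm

/-- the structure maps in terms of the levels -/
theorem ic_step (n : ℕ) : (L.ic (n + 1)).comp (L.step n) = G.sigC (L.ic n) := by
  ext ⟨z, k⟩
  change (L.ic (n + 1)).plus (L.e (n + 1) ((G.upp n).str 1 (squash z.re, (G.upp n).str 0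
    (squash z.im, L.inc n k)))) = G.str (2 * n + 1) (squash z.re, G.str (2 * n) (squash z.im,
      Prespectrum.vE n G (L.inc n k)))
  rw [← Prespectrum.vE_str, L.ic_plus]
  change Prespectrum.vE (n + 1) G ((L.e (n + 1)).symm (L.e (n + 1) _)) = _
  rw [Homeomorph.symm_apply_apply]

end Levels

end Pool.Agent.Helper1.Stab
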