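import Pool.Agent.Helper1.Stab.Basic

/-! Countability of homotopy classes: general topology. -/

open Topology Filter Set

noncomputable section

namespace Pool.Agent.Helper1.Stab

/-- The one-point compactification of a second countable locally compact Hausdorff space is
second countable. -/
theorem secondCountable_onePoint (X : Type) [TopologicalSpace X] [LocallyCompactSpace X]
    [T2Space X] [SecondCountableTopology X] : SecondCountableTopology (OnePoint X) := by
  let e : CompactExhaustion X := CompactExhaustion.choice X
  let B : Set (Set (OnePoint X)) :=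
    (fun U : Set X => ((↑) '' U : Set (OnePoint X))) '' TopologicalSpace.countableBasis X ∪
      range (fun n : ℕ => ((↑) '' e n : Set (OnePoint X))ᶜ)
  have hcl : ∀ n, IsClosed (e n) := fun n => (e.isCompact n).isClosed
  have hB : TopologicalSpace.IsTopologicalBasis B := by
    refine TopologicalSpace.isTopologicalBasis_of_isOpen_of_nhds ?_ ?_
    · rintro u (⟨U, hU, rfl⟩ | ⟨n, rfl⟩)
      · exact OnePoint.isOpen_image_coe.2 (TopologicalSpace.isOpen_of_mem_countableBasis hU)
      · exact OnePoint.isOpen_compl_image_coe.2 ⟨hcl n, e.isCompact n⟩
    · intro a u ha hu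
      by_cases hinf : (OnePoint.infty : OnePoint X) ∈ u
      · have hu' := (OnePoint.isOpen_iff_of_mem hinf).1 hu
        have hu2 := (OnePoint.isOpen_iff_of_mem' hinf).1 hu
        induction a using OnePoint.rec with
        | infty =>
          obtain ⟨n, hn⟩ := e.exists_superset_of_isCompact hu'.2
          refine ⟨_, Or.inr ⟨n, rfl⟩, OnePoint.infty_notMem_image_coe, ?_⟩
          intro x hx
          induction x using OnePoint.rec with
          | infty => exact hinf
          | coe x =>
            by_contra hxu
            exact hx ⟨x, hn hxu, rfl⟩
        | coe a =>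
          obtain ⟨V, hV, haV, hVu⟩ :=
            (TopologicalSpace.isBasis_countableBasis X).exists_subset_of_mem_open
              (show a ∈ ((↑) ⁻¹' u : Set X) from ha) hu2.2
          exact ⟨_, Or.inl ⟨V, hV, rfl⟩, ⟨a, haV, rfl⟩, image_subset_iff.2 hVu⟩
      · have hu' := (OnePoint.isOpen_iff_of_notMem hinf).1 hu
        induction a using OnePoint.rec with
        | infty => exact absurd ha hinf
        | coe a =>
          obtain ⟨V, hV, haV, hVu⟩ :=
            (TopologicalSpace.isBasis_countableBasis X).exists_subset_of_mem_open
              (show a ∈ ((↑) ⁻¹' u : Set X) from ha) hu'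
          exact ⟨_, Or.inl ⟨V, hV, rfl⟩, ⟨a, haV, rfl⟩, image_subset_iff.2 hVu⟩
  exact hB.secondCountableTopology
    (((TopologicalSpace.countable_countableBasis X).image _).union (countable_range _))

/-- the extension to the one-point compactification as a continuous map -/
def PMap.plusC {K : LC} {Y : PT} (f : PMap K Y) : C(OnePoint K, Y) := ⟨f.plus, f.continuous_plus⟩

/-- If every map has a neighbourhood of homotopic maps then there are only countably many
homotopy classes. -/
theorem countable_of_nhds {K L : LC} [SecondCountableTopology K] [SecondCountableTopology L]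
    (h : ∀ f : PMap K L.plus, ∃ O : Set (C(OnePoint K, OnePoint L)), IsOpen O ∧
      f.plusC ∈ O ∧ ∀ g : PMap K L.plus, g.plusC ∈ O → f.Homotopic g) :
    Countable (HMap K L.plus) := by
  haveI := secondCountable_onePoint K
  haveI := secondCountable_onePoint L
  let F : PMap K L.plus → C(OnePoint K, OnePoint L) := fun f => f.plusC
  obtain ⟨D, hDc, hDd⟩ := TopologicalSpace.exists_countable_dense (range F)
  haveI := hDc.to_subtype
  have hsurj : Function.Surjective
      (fun d : D => (Classical.choose d.1.2 : PMap K L.plus).cls) := by
    intro x
    induction x using HMap.ind with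
    | h f =>
      obtain ⟨O, hO, hfO, hg⟩ := h f
      obtain ⟨d, hdO, hdD⟩ := hDd.inter_open_nonempty (Subtype.val ⁻¹' O)
        (hO.preimage continuous_subtype_val) ⟨⟨F f, mem_range_self f⟩, hfO⟩
      refine ⟨⟨d, hdD⟩, ?_⟩
      have h1 : F (Classical.choose d.2) = d.1 := Classical.choose_spec d.2
      have h2 : f.Homotopic (Classical.choose d.2) := by
        apply hg
        change F (Classical.choose d.2) ∈ O
        rw [h1]
        exact hdO
      exact (Quotient.sound (s := PMap.setoid K L.plus) h2).symm
  exact hsurj.countable

end Pool.Agent.Helper1.Stab
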