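import Pool.Agent.Helper1.Stab.GF
import Pool.Agent.Helper68.Stab.CountA

/-! Countability of homotopy classes: maps into `ℝ^a × Q`, `Q` a cubical complex. -/

open Topology Filter Set

noncomputable section

namespace Pool.Agent.Helper1.Stab

/-- the map `ℝ → ℝ` that is constant near the integers: on `[n, n+1]`, with `r = x - n`, it is
`n + max 0 (min 1 (2 r - 1/2))` -/
def clampZ (x : ℝ) : ℝ := ⌊x⌋ + max 0 (min 1 (2 * Int.fract x - 1 / 2))

theorem clampZ_continuous : Continuous clampZ := by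
  have h1 : Continuous ((fun r : ℝ => max 0 (min 1 (2 * r - 1 / 2)) - r) ∘ Int.fract) := by
    refine ContinuousOn.comp_fract'' (Continuous.continuousOn ?_) ?_
    · exact (continuous_const.max (continuous_const.min
        ((continuous_const.mul continuous_id).sub continuous_const))).sub continuous_id
    · norm_num
  have h2 : clampZ = fun x => x + ((fun r : ℝ => max 0 (min 1 (2 * r - 1 / 2)) - r) ∘ Int.fract) x := by
    funext x
    have h3 := Int.floor_add_fract x
    simp only [clampZ, Function.comp_apply]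
    linarith
  rw [h2]
  exact continuous_id.add h1

theorem clampZ_of_mem69 {x : ℝ} {n : ℤ} (h0 : (n : ℝ) ≤ x) (h1 : x < n + 1) :
    clampZ x = n + max 0 (min 1 (2 * (x - n) - 1 / 2)) := by
  have hf : ⌊x⌋ = n := Int.floor_eq_iff.2 ⟨h0, h1⟩
  rw [clampZ, Int.fract, hf]

theorem clampZ_pt {x : ℝ} {n : ℤ} (h : |x - n| ≤ 1 / 4) : clampZ x = n := by
  rw [abs_le] at h
  rcases le_or_gt (n : ℝ) x with hx | hx
  · rw [clampZ_of_mem69 hx (by linarith), max_eq_left, add_zero]
    exact (min_le_right _ _).trans (by linarith)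
  · have h0 : ((n - 1 : ℤ) : ℝ) ≤ x := by push_cast; linarith
    have h1 : x < ((n - 1 : ℤ) : ℝ) + 1 := by push_cast; linarith
    rw [clampZ_of_mem69 h0 h1]
    push_cast
    rw [min_eq_left (by linarith), max_eq_right (by norm_num)]
    ring

theorem clampZ_mem {x : ℝ} {n : ℤ} (h0 : (n : ℝ) - 1 / 4 ≤ x) (h1 : x ≤ n + 5 / 4) :
    (n : ℝ) ≤ clampZ x ∧ clampZ x ≤ n + 1 := by
  rcases lt_or_ge x n with hx | hx
  · rw [clampZ_pt (n := n) (abs_le.2 ⟨by linarith, by linarith⟩)]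
    exact ⟨le_rfl, by linarith⟩
  · rcases lt_or_ge x (n + 1) with hy | hy
    · rw [clampZ_of_mem69 hx hy]
      refine ⟨le_add_of_nonneg_right (le_max_left _ _), ?_⟩
      have : max 0 (min 1 (2 * (x - n) - 1 / 2)) ≤ (1 : ℝ) :=
        max_le zero_le_one (min_le_left _ _)
      linarith
    · have h2 : |x - ((n + 1 : ℤ) : ℝ)| ≤ 1 / 4 := by
        push_cast
        exact abs_le.2 ⟨by linarith, by linarith⟩
      rw [clampZ_pt h2]
      push_cast
      exact ⟨by linarith, le_rfl⟩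

theorem cell_clamp69 {N : ℕ} {c : Fin N → ℤ × Bool} {q y : Fin N → ℝ}
    (hq : q ∈ cell c) (h : ∀ i, |y i - q i| ≤ 1 / 4) : (fun i => clampZ (y i)) ∈ cell c := by
  intro i
  have h1 := hq i
  have h2 := h i
  by_cases hc : (c i).2
  · rw [if_pos hc] at h1 ⊢
    rw [abs_le] at h2
    exact clampZ_mem (by linarith) (by linarith)
  · rw [if_neg hc] at h1 ⊢
    rw [h1] at h2
    exact clampZ_pt h2

/-- points close to a cubical complex are moved into it -/
theorem IsCubical.clamp_mem {N : ℕ} {Q : Set (Fin N → ℝ)} (hQ : IsCubical Q) {q y : Fin N → ℝ}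
    (hq : q ∈ Q) (h : ∀ i, |y i - q i| ≤ 1 / 4) : (fun i => clampZ (y i)) ∈ Q := by
  obtain ⟨S, rfl⟩ := hQ
  obtain ⟨c, hc, hqc⟩ := mem_iUnion₂.1 hq
  exact mem_iUnion₂.2 ⟨c, hc, cell_clamp69 hqc h⟩

/-- the segment from a point of a cubical complex to its image lies in the complex -/
theorem IsCubical.segment_mem {N : ℕ} {Q : Set (Fin N → ℝ)} (hQ : IsCubical Q) {q : Fin N → ℝ}
    (hq : q ∈ Q) {t : ℝ} (h0 : 0 ≤ t) (h1 : t ≤ 1) :
    (fun i => (1 - t) * q i + t * clampZ (q i)) ∈ Q := by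
  obtain ⟨S, rfl⟩ := hQ
  obtain ⟨c, hc, hqc⟩ := mem_iUnion₂.1 hq
  refine mem_iUnion₂.2 ⟨c, hc, fun i => ?_⟩
  have h2 := cell_clamp69 (y := q) hqc (fun i => by rw [sub_self, abs_zero]; norm_num) i
  have h3 := hqc i
  by_cases hi : (c i).2
  · rw [if_pos hi] at h2 h3 ⊢
    obtain ⟨a1, a2⟩ := h2
    obtain ⟨b1, b2⟩ := h3
    have ht : 0 ≤ 1 - t := by linarith
    constructor
    · nlinarith [mul_nonneg ht (sub_nonneg.2 b1), mul_nonneg h0 (sub_nonneg.2 a1)]
    · nlinarith [mul_nonneg ht (sub_nonneg.2 b2), mul_nonneg h0 (sub_nonneg.2 a2)]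
  · rw [if_neg hi] at h2 h3 ⊢
    simp only at h2 ⊢
    rw [h2, h3]
    ring

/-- a cubical complex is compact -/
theorem IsCubical.isCompact' {N : ℕ} {Q : Set (Fin N → ℝ)} (hQ : IsCubical Q) : IsCompact Q := by
  obtain ⟨S, rfl⟩ := hQ
  refine S.isCompact_biUnion fun c _ => ?_
  have e : cell c = Set.pi univ (fun i => if (c i).2 then Icc ((c i).1 : ℝ) ((c i).1 + 1)
      else {((c i).1 : ℝ)}) := by
    ext x
    simp only [cell, mem_ofPred_eq, Set.mem_pi, mem_univ, forall_true_left]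
    refine forall_congr' fun i => ?_
    split_ifs <;> simp
  rw [e]
  refine isCompact_univ_pi fun i => ?_
  split_ifs
  · exact isCompact_Icc
  · exact isCompact_singleton

section

variable {a N : ℕ} {Q : Set (Fin N → ℝ)} (hc : IsClosed Q) (hQ : IsCubical Q)

/-- the target -/
abbrev LQ (a : ℕ) {N : ℕ} {Q : Set (Fin N → ℝ)} (hc : IsClosed Q) : LC :=
  (LC.rpow (Fin a)).prod ((LC.rpow (Fin N)).closed Q hc)

/-- the second component -/
def sndQ (x : LQ a hc) : Fin N → ℝ := Subtype.val (show {q : Fin N → ℝ // q ∈ Q} from x.2)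

theorem continuous_sndQ : Continuous (sndQ (a := a) hc) :=
  (continuous_subtype_val (p := fun q : Fin N → ℝ => q ∈ Q)).comp continuous_snd

theorem sndQ_mem (x : LQ a hc) : sndQ hc x ∈ Q := (show {q : Fin N → ℝ // q ∈ Q} from x.2).2

/-- the first component -/
def fstQ (x : LQ a hc) : Fin a → ℝ := x.1

theorem continuous_fstQ : Continuous (fstQ (a := a) hc) := continuous_fst

/-- a point -/
def mkQ (v : Fin a → ℝ) (q : Fin N → ℝ) (h : q ∈ Q) : LQ a hc :=
  (v, (show {q : Fin N → ℝ // q ∈ Q} from ⟨q, h⟩))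

theorem continuous_mkQ {X : Type} [TopologicalSpace X] {v : X → Fin a → ℝ} {q : X → Fin N → ℝ}
    (hv : Continuous v) (hq : Continuous q) (h : ∀ x, q x ∈ Q) :
    Continuous fun x => mkQ hc (v x) (q x) (h x) :=
  Continuous.prodMk hv (Continuous.subtype_mk hq _)

theorem mkQ_eta (x : LQ a hc) : mkQ hc (fstQ hc x) (sndQ hc x) (sndQ_mem hc x) = x := rfl

theorem isCompact_ball {M : ℝ} (hQ : IsCubical Q) : IsCompact {x : LQ a hc | ‖fstQ hc x‖ ≤ M} := by
  have h1 : IsCompact (Metric.closedBall (0 : Fin a → ℝ) M) := isCompact_closedBall _ _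
  have h2 : CompactSpace {q : Fin N → ℝ // q ∈ Q} := isCompact_iff_compactSpace.1 hQ.isCompact'
  have h3 : IsCompact ((Metric.closedBall (0 : Fin a → ℝ) M) ×ˢ
    (univ : Set {q : Fin N → ℝ // q ∈ Q})) := h1.prod isCompact_univ
  have e : {x : LQ a hc | ‖fstQ hc x‖ ≤ M} = ((Metric.closedBall (0 : Fin a → ℝ) M) ×ˢ
    (univ : Set {q : Fin N → ℝ // q ∈ Q}) : Set ((Fin a → ℝ) × {q : Fin N → ℝ // q ∈ Q})) := by
    ext x
    change ‖fstQ hc x‖ ≤ M ↔ x.1 ∈ Metric.closedBall (0 : Fin a → ℝ) M ∧ x.2 ∈ univ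
    rw [mem_closedBall_zero_iff]
    exact ⟨fun h => ⟨h, trivial⟩, fun h => h.1⟩
  rw [e]
  exact h3

/-- the radial expansion, with a given second component -/
def expPt (r : LC.I.prod (LQ a hc) → Fin N → ℝ) (hr : ∀ x, r x ∈ Q) (x : LC.I.prod (LQ a hc)) :
    LQ a hc :=
  mkQ hc ((1 - ((x.1 : unitInterval) : ℝ) * ‖fstQ hc x.2‖)⁻¹ • fstQ hc x.2) (r x) (hr x)

open Classical in
/-- the same, as a function -/
def expFun (r : LC.I.prod (LQ a hc) → Fin N → ℝ) (hr : ∀ x, r x ∈ Q) (x : LC.I.prod (LQ a hc)) :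
    OnePoint (LQ a hc) :=
  if ((x.1 : unitInterval) : ℝ) * ‖fstQ hc x.2‖ < 1 then (expPt hc r hr x : OnePoint (LQ a hc))
  else OnePoint.infty

theorem exp_aux (hQ : IsCubical Q) (r : LC.I.prod (LQ a hc) → Fin N → ℝ) (hr : ∀ x, r x ∈ Q)
    (hrc : Continuous r) : Continuous (expFun hc r hr) ∧
    Tendsto (expFun hc r hr) (cocompact (LC.I.prod (LQ a hc)))
      (𝓝 (OnePoint.infty : OnePoint (LQ a hc))) := by
  have c1 : Continuous fun x : LC.I.prod (LQ a hc) => ((x.1 : unitInterval) : ℝ) :=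
    continuous_subtype_val.comp continuous_fst
  have c2 : Continuous fun x : LC.I.prod (LQ a hc) => fstQ hc x.2 :=
    (continuous_fstQ hc).comp continuous_snd
  have c4 : Continuous fun x : LC.I.prod (LQ a hc) =>
      ((x.1 : unitInterval) : ℝ) * ‖fstQ hc x.2‖ := c1.mul c2.norm
  refine MV.partial_open (X := LC.I.prod (LQ a hc)) (L := LQ a hc)
    {x | ((x.1 : unitInterval) : ℝ) * ‖fstQ hc x.2‖ < 1} (isOpen_lt c4 continuous_const)
    (fun x => expPt hc r hr x.1) ?_ _ ?_ ?_ ?_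
  · refine continuous_mkQ hc ?_ (hrc.comp continuous_subtype_val) _
    refine Continuous.smul (Continuous.inv₀
        (continuous_const.sub (c4.comp continuous_subtype_val)) fun x => ?_)
        (c2.comp continuous_subtype_val)
    have h := x.2
    exact (sub_pos.2 h).ne'
  · intro x
    exact if_pos x.2
  · intro x hx
    exact if_neg hx
  · intro D hD
    obtain ⟨M0, hM0⟩ := (hD.image (continuous_fstQ hc)).isBounded.exists_norm_le
    set M := max M0 0 with hM
    have hM' : 0 ≤ M := le_max_right _ _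
    refine ⟨(univ ×ˢ {x : LQ a hc | ‖fstQ hc x‖ ≤ M}) ∩
      {x | ((x.1 : unitInterval) : ℝ) * ‖fstQ hc x.2‖ ≤ M / (1 + M)}, ?_, ?_, ?_⟩
    · exact (isCompact_univ.prod (isCompact_ball hc hQ)).inter_right
        (isClosed_le c4 continuous_const)
    · rintro x ⟨-, hx⟩
      have hx' : ((x.1 : unitInterval) : ℝ) * ‖fstQ hc x.2‖ ≤ M / (1 + M) := hx
      have h1 : M / (1 + M) < 1 := by
        rw [div_lt_one (by linarith)]
        linarith
      exact lt_of_le_of_lt hx' h1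
    · intro x hx
      have h1 : ((x.1.1 : unitInterval) : ℝ) * ‖fstQ hc x.1.2‖ < 1 := x.2
      have h2 : ‖fstQ hc (expPt hc r hr x.1)‖ ≤ M := (hM0 _ ⟨_, hx, rfl⟩).trans (le_max_left _ _)
      have h3 : ‖fstQ hc (expPt hc r hr x.1)‖ =
          (1 - ((x.1.1 : unitInterval) : ℝ) * ‖fstQ hc x.1.2‖)⁻¹ * ‖fstQ hc x.1.2‖ := by
        change ‖(1 - ((x.1.1 : unitInterval) : ℝ) * ‖fstQ hc x.1.2‖)⁻¹ • fstQ hc x.1.2‖ = _
        rw [norm_smul, Real.norm_eq_abs, abs_of_nonneg (inv_nonneg.2 (by linarith))]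
      rw [h3, inv_mul_le_iff₀ (by linarith)] at h2
      have s0 : 0 ≤ ((x.1.1 : unitInterval) : ℝ) := x.1.1.2.1
      have s1 : ((x.1.1 : unitInterval) : ℝ) ≤ 1 := x.1.1.2.2
      have n0 : 0 ≤ ‖fstQ hc x.1.2‖ := norm_nonneg _
      refine ⟨⟨trivial, ?_⟩, ?_⟩
      · change ‖fstQ hc x.1.2‖ ≤ M
        have := mul_nonneg s0 n0
        nlinarith
      · change ((x.1.1 : unitInterval) : ℝ) * ‖fstQ hc x.1.2‖ ≤ M / (1 + M)
        rw [le_div_iff₀ (by linarith)]
        have h4 : ((x.1.1 : unitInterval) : ℝ) * ‖fstQ hc x.1.2‖ ≤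
            ((x.1.1 : unitInterval) : ℝ) * ((1 - ((x.1.1 : unitInterval) : ℝ) * ‖fstQ hc x.1.2‖) * M) :=
          mul_le_mul_of_nonneg_left h2 s0
        have h5 : ((x.1.1 : unitInterval) : ℝ) *
            ((1 - ((x.1.1 : unitInterval) : ℝ) * ‖fstQ hc x.1.2‖) * M) ≤
            1 * ((1 - ((x.1.1 : unitInterval) : ℝ) * ‖fstQ hc x.1.2‖) * M) :=
          mul_le_mul_of_nonneg_right s1 (mul_nonneg (by linarith) hM')
        linarith

/-- the segment from the identity to the clamp -/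
def segQ (x : LC.I.prod (LQ a hc)) : Fin N → ℝ := fun i =>
  (1 - ((x.1 : unitInterval) : ℝ)) * sndQ hc x.2 i + ((x.1 : unitInterval) : ℝ) *
    clampZ (sndQ hc x.2 i)

theorem segQ_mem (hQ : IsCubical Q) (x : LC.I.prod (LQ a hc)) : segQ hc x ∈ Q :=
  hQ.segment_mem (sndQ_mem hc x.2) x.1.2.1 x.1.2.2

theorem continuous_segQ : Continuous (segQ (a := a) hc) := by
  have c1 : Continuous fun x : LC.I.prod (LQ a hc) => ((x.1 : unitInterval) : ℝ) :=
    continuous_subtype_val.comp continuous_fst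
  refine continuous_pi fun i => ?_
  have c5 : Continuous fun x : LC.I.prod (LQ a hc) => sndQ hc x.2 i :=
    (continuous_apply i).comp ((continuous_sndQ hc).comp continuous_snd)
  exact ((continuous_const.sub c1).mul c5).add (c1.mul (clampZ_continuous.comp c5))

/-- the homotopy from the identity -/
def expI (hQ : IsCubical Q) : PMap (LC.I.prod (LQ a hc)) (LQ a hc).plus :=
  ⟨expFun hc (segQ hc) (segQ_mem hc hQ), (exp_aux hc hQ _ _ (continuous_segQ hc)).1,
    (exp_aux hc hQ _ _ (continuous_segQ hc)).2⟩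

/-- the end of the homotopy -/
def expE (hQ : IsCubical Q) : PMap (LQ a hc) (LQ a hc).plus where
  toFun x := expI hc hQ ((1 : unitInterval), x)
  cont := (expI hc hQ).cont.comp (continuous_const.prodMk continuous_id)
  infty := by
    intro U hU
    obtain ⟨C, hC, h⟩ := (expI hc hQ).infty_I hU
    exact mem_map.2 (mem_cocompact.2 ⟨C, hC, fun x hx => h 1 x hx⟩)

theorem id_homotopic_expE (hQ : IsCubical Q) :
    (PMap.id (LQ a hc)).Homotopic (expE hc hQ) := by
  refine ⟨expI hc hQ, fun x => ?_, fun x => rfl⟩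
  change expFun hc (segQ hc) (segQ_mem hc hQ) ((0 : unitInterval), x) = (x : OnePoint (LQ a hc))
  unfold expFun
  rw [if_pos (by simp)]
  congr 1
  unfold expPt mkQ
  refine Prod.ext ?_ (Subtype.ext ?_)
  · simp [fstQ]
  · funext i
    simp [segQ, sndQ]

/-- the expansion without the clamp -/
def thQ (x : LQ a hc) : OnePoint (LQ a hc) :=
  expFun hc (fun y => sndQ hc y.2) (fun y => sndQ_mem hc y.2) ((1 : unitInterval), x)

theorem continuous_thQ (hQ : IsCubical Q) : Continuous (thQ (a := a) hc) :=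
  (exp_aux hc hQ _ _ ((continuous_sndQ hc).comp continuous_snd)).1.comp
    (continuous_const.prodMk continuous_id)

theorem thQ_far {x : LQ a hc} (h : 1 ≤ ‖fstQ hc x‖) : thQ hc x = OnePoint.infty := by
  unfold thQ expFun
  rw [if_neg]
  simpa using h

theorem thQ_eq (hQ : IsCubical Q) (x : LQ a hc)
    (h : (fun i => clampZ (sndQ hc x i)) ∈ Q) :
    thQ hc (mkQ hc (fstQ hc x) (fun i => clampZ (sndQ hc x i)) h) = expE hc hQ x := by
  change expFun hc _ _ _ = expFun hc _ _ _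
  unfold expFun
  have e : fstQ hc (mkQ hc (fstQ hc x) (fun i => clampZ (sndQ hc x i)) h) = fstQ hc x := rfl
  simp only [e]
  split_ifs
  · congr 1
    unfold expPt mkQ
    refine Prod.ext rfl (Subtype.ext ?_)
    funext i
    simp [segQ, sndQ]
  · rfl

theorem expE_far (hQ : IsCubical Q) {x : LQ a hc} (h : 1 ≤ ‖fstQ hc x‖) :
    expE hc hQ x = OnePoint.infty := by
  change expFun hc _ _ _ = _
  unfold expFun
  rw [if_neg]
  simpa using h

/-- the points far out -/
def farQ : Set (OnePoint (LQ a hc)) :=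
  ((fun x : LQ a hc => (x : OnePoint (LQ a hc))) '' {x | ‖fstQ hc x‖ ≤ 3})ᶜ

/-- pairs of close points -/
def nearQ : Set (OnePoint (LQ a hc) × OnePoint (LQ a hc)) :=
  (fun p : LQ a hc × LQ a hc => ((p.1 : OnePoint (LQ a hc)), (p.2 : OnePoint (LQ a hc)))) ''
    {p | ‖fstQ hc p.1 - fstQ hc p.2‖ < 1 ∧ ‖sndQ hc p.1 - sndQ hc p.2‖ < 1 / 4} ∪
  farQ hc ×ˢ farQ hc

theorem isOpen_farQ (hQ : IsCubical Q) : IsOpen (farQ (a := a) hc) :=
  ((isCompact_ball hc hQ).image OnePoint.continuous_coe).isClosed.isOpen_compl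

theorem isOpen_nearQ (hQ : IsCubical Q) : IsOpen (nearQ (a := a) hc) := by
  refine IsOpen.union ?_ ((isOpen_farQ hc hQ).prod (isOpen_farQ hc hQ))
  have h1 : IsOpenEmbedding (fun p : LQ a hc × LQ a hc =>
      ((p.1 : OnePoint (LQ a hc)), (p.2 : OnePoint (LQ a hc)))) :=
    OnePoint.isOpenEmbedding_coe.prodMap OnePoint.isOpenEmbedding_coe
  refine h1.isOpenMap _ (IsOpen.inter ?_ ?_)
  · exact isOpen_lt ((((continuous_fstQ hc).comp continuous_fst).sub
      ((continuous_fstQ hc).comp continuous_snd)).norm) continuous_const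
  · exact isOpen_lt ((((continuous_sndQ hc).comp continuous_fst).sub
      ((continuous_sndQ hc).comp continuous_snd)).norm) continuous_const

theorem nearQ_refl (x : OnePoint (LQ a hc)) : (x, x) ∈ nearQ hc := by
  induction x using OnePoint.rec with
  | infty =>
    right
    have : (OnePoint.infty : OnePoint (LQ a hc)) ∈ farQ hc := by
      rintro ⟨y, -, hy⟩
      exact OnePoint.coe_ne_infty y hy
    exact ⟨this, this⟩
  | coe x =>
    left
    refine ⟨(x, x), ⟨?_, ?_⟩, rfl⟩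
    · simp
    · simp

theorem nearQ_coe {x : LQ a hc} {y : OnePoint (LQ a hc)}
    (h : ((x : OnePoint (LQ a hc)), y) ∈ nearQ hc) (hx : ‖fstQ hc x‖ ≤ 3) :
    ∃ z : LQ a hc, y = (z : OnePoint (LQ a hc)) ∧ ‖fstQ hc x - fstQ hc z‖ < 1 ∧
      ‖sndQ hc x - sndQ hc z‖ < 1 / 4 := by
  rcases h with ⟨p, ⟨h1, h2⟩, h3⟩ | ⟨h1, -⟩
  · obtain ⟨h4, h5⟩ := Prod.mk.inj h3
    have h6 := OnePoint.coe_injective h4
    rw [h6] at h1 h2
    exact ⟨p.2, h5.symm, h1, h2⟩
  · exact absurd ⟨x, hx, rfl⟩ h1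

theorem nearQ_symm {x y : OnePoint (LQ a hc)} (h : (x, y) ∈ nearQ hc) : (y, x) ∈ nearQ hc := by
  rcases h with ⟨p, ⟨h1, h2⟩, h3⟩ | ⟨h1, h2⟩
  · left
    obtain ⟨h4, h5⟩ := Prod.mk.inj h3
    refine ⟨(p.2, p.1), ⟨?_, ?_⟩, ?_⟩
    · rw [norm_sub_rev]; exact h1
    · rw [norm_sub_rev]; exact h2
    · exact Prod.ext h5 h4
  · right
    exact ⟨h2, h1⟩

theorem near_homotopic (hQ : IsCubical Q) {K : LC} (f g : PMap K (LQ a hc).plus)
    (hfg : ∀ k, (f k, g k) ∈ nearQ hc) :
    ((expE hc hQ).comp f).Homotopic ((expE hc hQ).comp g) := by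
  classical
  set Ω : Set K := (f.toFun ⁻¹' ((fun l : LQ a hc => (l : OnePoint (LQ a hc))) ''
      {l | ‖fstQ hc l‖ < 3})) ∩
    (g.toFun ⁻¹' ((fun l : LQ a hc => (l : OnePoint (LQ a hc))) '' {l | ‖fstQ hc l‖ < 3})) with hΩ
  have hΩo : IsOpen Ω := by
    have h1 : IsOpen ((fun l : LQ a hc => (l : OnePoint (LQ a hc))) '' {l | ‖fstQ hc l‖ < 3}) :=
      OnePoint.isOpenEmbedding_coe.isOpenMap _ (isOpen_lt (continuous_fstQ hc).norm continuous_const)
    exact (h1.preimage f.cont).inter (h1.preimage g.cont)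
  set Z : Set K := (f.toFun ⁻¹' ((fun l : LQ a hc => (l : OnePoint (LQ a hc))) ''
      {l | ‖fstQ hc l‖ ≤ 2})) ∩
    (g.toFun ⁻¹' ((fun l : LQ a hc => (l : OnePoint (LQ a hc))) '' {l | ‖fstQ hc l‖ ≤ 2})) with hZ
  have hZc : IsCompact Z := (f.isCompact_preimage (isCompact_ball hc hQ)).inter
    (g.isCompact_preimage (isCompact_ball hc hQ))
  have hΩ1 : ∀ k : Ω, ∃ l : LQ a hc, (l : OnePoint (LQ a hc)) = f k ∧ ‖fstQ hc l‖ < 3 := fun k => by
    obtain ⟨l, hl, hk⟩ := k.2.1
    exact ⟨l, hk, hl⟩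
  have hΩ2 : ∀ k : Ω, ∃ l : LQ a hc, (l : OnePoint (LQ a hc)) = g k ∧ ‖fstQ hc l‖ < 3 := fun k => by
    obtain ⟨l, hl, hk⟩ := k.2.2
    exact ⟨l, hk, hl⟩
  choose lf hf1 hf2 using hΩ1
  choose lg hg1 hg2 using hΩ2
  have clf : Continuous lf := by
    rw [OnePoint.isOpenEmbedding_coe.isInducing.continuous_iff]
    have : ((fun l : LQ a hc => (l : OnePoint (LQ a hc))) ∘ lf) = fun k : Ω => f k := funext hf1
    rw [this]
    exact f.cont.comp continuous_subtype_val
  have clg : Continuous lg := by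
    rw [OnePoint.isOpenEmbedding_coe.isInducing.continuous_iff]
    have : ((fun l : LQ a hc => (l : OnePoint (LQ a hc))) ∘ lg) = fun k : Ω => g k := funext hg1
    rw [this]
    exact g.cont.comp continuous_subtype_val
  have hnear : ∀ k : Ω, ‖fstQ hc (lf k) - fstQ hc (lg k)‖ < 1 ∧
      ‖sndQ hc (lf k) - sndQ hc (lg k)‖ < 1 / 4 := by
    intro k
    have h1 := hfg k
    rw [← hf1 k, ← hg1 k] at h1
    obtain ⟨z, h2, h3, h4⟩ := nearQ_coe hc h1 (hf2 k).le
    rw [OnePoint.coe_injective h2]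
    exact ⟨h3, h4⟩
  have hcl : ∀ x : unitInterval × Ω, (fun i => clampZ ((1 - (x.1 : ℝ)) * sndQ hc (lf x.2) i +
      (x.1 : ℝ) * sndQ hc (lg x.2) i)) ∈ Q := by
    intro x
    refine hQ.clamp_mem (y := fun i => (1 - (x.1 : ℝ)) * sndQ hc (lf x.2) i +
      (x.1 : ℝ) * sndQ hc (lg x.2) i) (sndQ_mem hc (lf x.2)) fun i => ?_
    have h1 : |sndQ hc (lf x.2) i - sndQ hc (lg x.2) i| ≤ 1 / 4 :=
      (norm_le_pi_norm (sndQ hc (lf x.2) - sndQ hc (lg x.2)) i).trans (hnear x.2).2.le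
    have e : (1 - (x.1 : ℝ)) * sndQ hc (lf x.2) i + (x.1 : ℝ) * sndQ hc (lg x.2) i -
        sndQ hc (lf x.2) i = -((x.1 : ℝ) * (sndQ hc (lf x.2) i - sndQ hc (lg x.2) i)) := by ring
    rw [e, abs_neg, abs_mul, abs_of_nonneg x.1.2.1]
    calc (x.1 : ℝ) * |sndQ hc (lf x.2) i - sndQ hc (lg x.2) i| ≤
        1 * |sndQ hc (lf x.2) i - sndQ hc (lg x.2) i| :=
          mul_le_mul_of_nonneg_right x.1.2.2 (abs_nonneg _)
      _ ≤ 1 / 4 := by rw [one_mul]; exact h1
  set w : unitInterval × Ω → LQ a hc := fun x =>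
    mkQ hc ((1 - (x.1 : ℝ)) • fstQ hc (lf x.2) + (x.1 : ℝ) • fstQ hc (lg x.2)) _ (hcl x) with hw
  have cx : Continuous fun x : unitInterval × Ω => (x.1 : ℝ) :=
    continuous_subtype_val.comp continuous_fst
  have cw : Continuous w := by
    refine continuous_mkQ hc ?_ ?_ _
    · exact ((continuous_const.sub cx).smul
        ((continuous_fstQ hc).comp (clf.comp continuous_snd))).add
        (cx.smul ((continuous_fstQ hc).comp (clg.comp continuous_snd)))
    · refine continuous_pi fun i => clampZ_continuous.comp ?_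
      exact ((continuous_const.sub cx).mul ((continuous_apply i).comp
        ((continuous_sndQ hc).comp (clf.comp continuous_snd)))).add
        (cx.mul ((continuous_apply i).comp ((continuous_sndQ hc).comp (clg.comp continuous_snd))))
  set F : unitInterval × K → OnePoint (LQ a hc) := fun x =>
    if h : x.2 ∈ Ω then thQ hc (w (x.1, ⟨x.2, h⟩)) else OnePoint.infty with hF
  have hFZ : ∀ x : unitInterval × K, x.2 ∉ Z → F x = OnePoint.infty := by
    intro x hx
    by_cases h : x.2 ∈ Ω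
    · rw [hF]
      simp only
      rw [dif_pos h]
      apply thQ_far
      change 1 ≤ ‖(1 - (x.1 : ℝ)) • fstQ hc (lf ⟨x.2, h⟩) + (x.1 : ℝ) • fstQ hc (lg ⟨x.2, h⟩)‖
      set k : Ω := ⟨x.2, h⟩ with hk
      set t : ℝ := (x.1 : ℝ) with ht
      have t0 : 0 ≤ t := x.1.2.1
      have t1 : t ≤ 1 := x.1.2.2
      have h1 : ‖fstQ hc (lf k) - fstQ hc (lg k)‖ < 1 := (hnear k).1
      have h2 : 2 < ‖fstQ hc (lf k)‖ ∨ 2 < ‖fstQ hc (lg k)‖ := by
        by_contra hcon
        push Not at hcon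
        exact hx ⟨⟨lf k, hcon.1, hf1 k⟩, ⟨lg k, hcon.2, hg1 k⟩⟩
      have n0 : 0 ≤ ‖fstQ hc (lf k) - fstQ hc (lg k)‖ := norm_nonneg _
      rcases h2 with h2 | h2
      · have e : (1 - t) • fstQ hc (lf k) + t • fstQ hc (lg k) =
            fstQ hc (lf k) - t • (fstQ hc (lf k) - fstQ hc (lg k)) := by module
        rw [e]
        have h3 := norm_sub_norm_le (fstQ hc (lf k)) (t • (fstQ hc (lf k) - fstQ hc (lg k)))
        rw [norm_smul, Real.norm_eq_abs, abs_of_nonneg t0] at h3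
        nlinarith
      · have e : (1 - t) • fstQ hc (lf k) + t • fstQ hc (lg k) =
            fstQ hc (lg k) - (1 - t) • (fstQ hc (lg k) - fstQ hc (lf k)) := by module
        rw [e]
        have h3 := norm_sub_norm_le (fstQ hc (lg k)) ((1 - t) • (fstQ hc (lg k) - fstQ hc (lf k)))
        rw [norm_smul, Real.norm_eq_abs, abs_of_nonneg (by linarith), norm_sub_rev (fstQ hc (lg k))] at h3
        nlinarith
    · rw [hF]
      exact dif_neg h
  have hFc : Continuous F := by
    rw [continuous_iff_continuousAt]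
    intro x
    by_cases h : x.2 ∈ Ω
    · have ho : IsOpen {x : unitInterval × K | x.2 ∈ Ω} := hΩo.preimage continuous_snd
      refine ContinuousOn.continuousAt (s := {x : unitInterval × K | x.2 ∈ Ω}) ?_ (ho.mem_nhds h)
      rw [continuousOn_iff_continuous_domRestrict]
      have c5 : Continuous fun y : {x : unitInterval × K | x.2 ∈ Ω} =>
          thQ hc (w (y.1.1, ⟨y.1.2, y.2⟩)) :=
        (continuous_thQ hc hQ).comp (cw.comp ((continuous_fst.comp continuous_subtype_val).prodMk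
          (Continuous.subtype_mk (continuous_snd.comp continuous_subtype_val) _)))
      refine c5.congr fun y => ?_
      change _ = F y.1
      rw [hF]
      simp only
      rw [dif_pos (show y.1.2 ∈ Ω from y.2)]
    · have hx : x.2 ∉ Z := by
        rintro ⟨⟨l, hl, hk⟩, ⟨l', hl', hk'⟩⟩
        have hl1 : ‖fstQ hc l‖ ≤ 2 := hl
        have hl2 : ‖fstQ hc l'‖ ≤ 2 := hl'
        exact h ⟨⟨l, show ‖fstQ hc l‖ < 3 by linarith, hk⟩,
          ⟨l', show ‖fstQ hc l'‖ < 3 by linarith, hk'⟩⟩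
      have ho : IsOpen {x : unitInterval × K | x.2 ∉ Z} :=
        hZc.isClosed.isOpen_compl.preimage continuous_snd
      refine ContinuousAt.congr (f := fun _ => OnePoint.infty) continuousAt_const ?_
      filter_upwards [ho.mem_nhds hx] with y hy
      exact (hFZ y hy).symm
  have hFi : Tendsto F (cocompact (unitInterval × K)) (𝓝 OnePoint.infty) := by
    refine tendsto_const_nhds.congr' ?_
    have h1 : (univ ×ˢ Z : Set (unitInterval × K))ᶜ ∈ cocompact (unitInterval × K) :=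
      (isCompact_univ.prod hZc).compl_mem_cocompact
    filter_upwards [h1] with y hy
    exact (hFZ y fun h => hy ⟨trivial, h⟩).symm
  refine ⟨⟨F, hFc, hFi⟩, fun k => ?_, fun k => ?_⟩
  · change F (0, k) = (expE hc hQ).plus (f k)
    by_cases h : k ∈ Ω
    · rw [← hf1 ⟨k, h⟩]
      change F (0, k) = expE hc hQ (lf ⟨k, h⟩)
      have hcm := hQ.clamp_mem (y := sndQ hc (lf ⟨k, h⟩)) (sndQ_mem hc (lf ⟨k, h⟩))
        (fun i => by simp)
      rw [← thQ_eq hc hQ _ hcm, hF]
      simp only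
      rw [dif_pos h]
      congr 1
      rw [hw]
      unfold mkQ
      refine Prod.ext ?_ (Subtype.ext ?_)
      · simp
      · funext i
        simp
    · have h1 : F (0, k) = OnePoint.infty := by
        rw [hF]
        exact dif_neg h
      rw [h1]
      rcases hfk : f k with _ | l
      · rfl
      · change _ = expE hc hQ l
        by_cases hl : ‖fstQ hc l‖ < 1
        · exfalso
          have h2 := hfg k
          rw [hfk] at h2
          obtain ⟨z, h3, h4, -⟩ := nearQ_coe hc h2 (by linarith)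
          have h5 : ‖fstQ hc z‖ ≤ ‖fstQ hc l‖ + ‖fstQ hc l - fstQ hc z‖ := by
            have := norm_sub_norm_le (fstQ hc z) (fstQ hc l)
            rw [norm_sub_rev] at this
            linarith
          exact h ⟨⟨l, show ‖fstQ hc l‖ < 3 by linarith, hfk.symm⟩,
            ⟨z, show ‖fstQ hc z‖ < 3 by linarith, h3.symm⟩⟩
        · exact (expE_far hc hQ (not_lt.1 hl)).symm
  · change F (1, k) = (expE hc hQ).plus (g k)
    by_cases h : k ∈ Ω
    · rw [← hg1 ⟨k, h⟩]
      change F (1, k) = expE hc hQ (lg ⟨k, h⟩)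
      have hcm := hQ.clamp_mem (y := sndQ hc (lg ⟨k, h⟩)) (sndQ_mem hc (lg ⟨k, h⟩))
        (fun i => by simp)
      rw [← thQ_eq hc hQ _ hcm, hF]
      simp only
      rw [dif_pos h]
      congr 1
      rw [hw]
      unfold mkQ
      refine Prod.ext ?_ (Subtype.ext ?_)
      · simp
      · funext i
        simp
    · have h1 : F (1, k) = OnePoint.infty := by
        rw [hF]
        exact dif_neg h
      rw [h1]
      rcases hgk : g k with _ | l
      · rfl
      · change _ = expE hc hQ l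
        by_cases hl : ‖fstQ hc l‖ < 1
        · exfalso
          have h2 := nearQ_symm hc (hfg k)
          rw [hgk] at h2
          obtain ⟨z, h3, h4, -⟩ := nearQ_coe hc h2 (by linarith)
          have h5 : ‖fstQ hc z‖ ≤ ‖fstQ hc l‖ + ‖fstQ hc l - fstQ hc z‖ := by
            have := norm_sub_norm_le (fstQ hc z) (fstQ hc l)
            rw [norm_sub_rev] at this
            linarith
          exact h ⟨⟨z, show ‖fstQ hc z‖ < 3 by linarith, h3.symm⟩,
            ⟨l, show ‖fstQ hc l‖ < 3 by linarith, hgk.symm⟩⟩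
        · exact (expE_far hc hQ (not_lt.1 hl)).symm

end

/-- Maps that are close to `f` are homotopic to `f`. -/
theorem homotopic_nhds {K : LC} {a N : ℕ} {Q : Set (Fin N → ℝ)} (hc : IsClosed Q)
    (hQ : IsCubical Q)
    (f : PMap K ((LC.rpow (Fin a)).prod ((LC.rpow (Fin N)).closed Q hc)).plus) :
    ∃ O : Set (C(OnePoint K, OnePoint ((LC.rpow (Fin a)).prod ((LC.rpow (Fin N)).closed Q hc)))),
      IsOpen O ∧ f.plusC ∈ O ∧
      ∀ g : PMap K ((LC.rpow (Fin a)).prod ((LC.rpow (Fin N)).closed Q hc)).plus,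
        g.plusC ∈ O → f.Homotopic g := by
  refine ⟨{h | ∀ x, (f.plusC x, h x) ∈ nearQ hc}, ?_, fun x => nearQ_refl hc _, fun g hg => ?_⟩
  · have hW : IsOpen {p : C(OnePoint K, OnePoint (LQ a hc)) × OnePoint K |
        (f.plusC p.2, p.1 p.2) ∈ nearQ hc} := by
      refine (isOpen_nearQ hc hQ).preimage (Continuous.prodMk (f.plusC.continuous.comp continuous_snd) ?_)
      exact continuous_eval
    have h1 := isClosedMap_fst_of_compactSpace _ hW.isClosed_compl
    have e : {h : C(OnePoint K, OnePoint (LQ a hc)) | ∀ x, (f.plusC x, h x) ∈ nearQ hc} =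
        (Prod.fst '' {p : C(OnePoint K, OnePoint (LQ a hc)) × OnePoint K |
        (f.plusC p.2, p.1 p.2) ∈ nearQ hc}ᶜ)ᶜ := by
      ext h
      constructor
      · rintro hh ⟨⟨h', x⟩, hx, rfl⟩
        exact hx (hh x)
      · intro hh x
        by_contra hx
        exact hh ⟨(h, x), hx, rfl⟩
    rw [e]
    exact h1.isOpen_compl
  · have h0 : ∀ h : PMap K (LQ a hc).plus, h.Homotopic ((expE hc hQ).comp h) := fun h => by
      have := (id_homotopic_expE (a := a) hc hQ).comp_left h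
      rwa [PMap.id_comp] at this
    exact (h0 f).trans ((near_homotopic hc hQ f g fun k => hg (k : OnePoint K)).trans (h0 g).symm)

end Pool.Agent.Helper1.Stab
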