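import Pool.Agent.Helper68.Stab.LocG
import Pool.Agent.Helper68.Stab.CountB

/-! Countability of the graded functor of a prespectrum with compact levels. -/

open CategoryTheory Topology Filter Set Opposite

noncomputable section

namespace Pool.Agent.Helper1.Stab

theorem countable_hom_basic (a N : ℕ) (Q : Set (Fin N → ℝ)) (hc : IsClosed Q) (a' N' : ℕ)
    (Q' : Set (Fin N' → ℝ)) (hc' : IsClosed Q') (hQ' : IsCubical Q') :
    Countable (HMap ((LC.rpow (Fin a)).prod ((LC.rpow (Fin N)).closed Q hc))
      ((LC.rpow (Fin a')).prod ((LC.rpow (Fin N')).closed Q' hc')).plus) := by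
  have i1 : SecondCountableTopology ((LC.rpow (Fin a)).prod ((LC.rpow (Fin N)).closed Q hc)) :=
    inferInstanceAs (SecondCountableTopology ((Fin a → ℝ) × Q))
  have i2 : SecondCountableTopology ((LC.rpow (Fin a')).prod ((LC.rpow (Fin N')).closed Q' hc')) :=
    inferInstanceAs (SecondCountableTopology ((Fin a' → ℝ) × Q'))
  exact countable_of_nhds fun f => homotopic_nhds hc' hQ' f

/-- There are only countably many homotopy classes of maps between test spaces. -/
theorem countable_hmap {K L : LC} (hK : IsTest K) (hL : IsTest L) : Countable (HMap K L.plus) := by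
  obtain ⟨a, N, Q, hc, -, i, r, hir⟩ := hK
  obtain ⟨a', N', Q', hc', hQ', i', r', hir'⟩ := hL
  have h1 := countable_hom_basic a N Q hc a' N' Q' hc' hQ'
  have h2 : Function.Injective (fun x : (K ⟶ L) => r ≫ x ≫ i') := by
    intro x y hxy
    have h3 : i ≫ (r ≫ x ≫ i') ≫ r' = i ≫ (r ≫ y ≫ i') ≫ r' := by
      simp only at hxy
      rw [hxy]
    have h4 : ∀ z : K ⟶ L, i ≫ (r ≫ z ≫ i') ≫ r' = z := by
      intro z
      rw [Category.assoc, Category.assoc, hir', Category.comp_id, ← Category.assoc, hir,
        Category.id_comp]
    rw [h4, h4] at h3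
    exact h3
  exact @Function.Injective.countable _ _ h1 _ h2

/-- (I4-j) countability of the graded functor of a prespectrum with compact levels -/
theorem Levels.countable {G : Prespectrum} (L : Levels G) (b : ℕ) (K : Test) :
    Countable (((hP.obj G).h b).obj (op K)) := by
  have key : ∀ (n b : ℕ) (K : Test), Set.Countable {x | G.St n b K x} := by
    intro n
    induction n with
    | zero =>
      intro b K
      have h1 := countable_hmap K.property (L.test b)
      let F : HMap K.obj (L.K b).plus → ((hP.obj G).h b).obj (op K) :=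
        Quotient.lift (fun h : PMap K.obj (L.K b).plus => L.el b K h)
          (fun _ _ h => L.el_homotopic h)
      have h2 : {x | G.St 0 b K x} ⊆ Set.range F := by
        rintro x ⟨f, rfl⟩
        exact ⟨(L.fac b f).cls, (L.cl_fac b f).symm⟩
      exact (Set.countable_range F).mono h2
    | succ n ih =>
      intro b K
      exact (ih (b + 1) (Test.cx.obj K)).preimage_of_injOn
        (f := fun x => ((hP.obj G).σ b).hom.app (op K) x)
        (fun x _ y _ h => sig_inj (hP.obj G) b K h)
  have h3 : (Set.univ : Set (((hP.obj G).h b).obj (op K))) ⊆ ⋃ n, {x | G.St n b K x} := by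
    intro x _
    obtain ⟨n, hn⟩ := G.exists_st b K x
    exact Set.mem_iUnion.2 ⟨n, hn⟩
  exact Set.countable_univ_iff.1 ((Set.countable_iUnion fun n => key n b K).mono h3)

end Pool.Agent.Helper1.Stab
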