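import Pool.Agent.Helper68.Stab.CSeq

/-! Delayed copies of a prespectrum with compact levels. -/

open CategoryTheory Topology Filter Set Opposite

noncomputable section

namespace Pool.Agent.Helper1.Stab

/-! ## Isomorphisms of graded functors -/

theorem GF.isIso_of_bij68 {G H : GF} (F : G ⟶ H)
    (h : ∀ (b : ℕ) (K : Test), Function.Bijective ((F.app b).app (op K))) : IsIso F := by
  have h1 : ∀ b (K : Testᵒᵖ), IsIso ((F.app b).app K) := fun b K =>
    (ConcreteCategory.isIso_iff_bijective _).2 (h b K.unop)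
  have h2 : ∀ b, IsIso (F.app b) := fun b => NatIso.isIso_of_isIso_app _
  refine ⟨⟨fun b => inv (F.app b), fun b => ?_⟩, ?_, ?_⟩
  · rw [IsIso.eq_inv_comp, ← Category.assoc, ← F.comm b, Category.assoc]
    have h3 : Functor.whiskerLeft Test.cx.op (F.app (b + 1)) ≫
        Functor.whiskerLeft Test.cx.op (inv (F.app (b + 1))) = 𝟙 _ := by
      rw [← Functor.whiskerLeft_comp, IsIso.hom_inv_id]
      rfl
    rw [h3, Category.comp_id]
  · exact GF.hom_ext fun b => IsIso.hom_inv_id (F.app b)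
  · exact GF.hom_ext fun b => IsIso.inv_hom_id (F.app b)

/-! ## Elementary properties -/

theorem Prespectrum.sigC_comp (X : Prespectrum) {n : ℕ} {K L : LC} (f : PMap L (X.sp n))
    (h : PMap K L.plus) : (X.sigC f).comp (PMap.ltens LC.C h) = X.sigC (f.comp h) := by
  ext ⟨z, k⟩
  change (X.sigC f).plus (smashPt LC.C L ((z : OnePoint ℂ), h k)) =
    X.str (n + 1) (squash z.re, X.str n (squash z.im, f.plus (h k)))
  rcases h k with _ | l
  · change (X.sp (n + 2)).pt = X.str (n + 1) (squash z.re, X.str n (squash z.im, (X.sp n).pt))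
    rw [X.str_pt, X.str_pt]
  · rfl

theorem Prespectrum.sigC_zero (X : Prespectrum) {n : ℕ} {K : LC} :
    X.sigC (PMap.zero K (X.sp n)) = PMap.zero (LC.C.prod K) (X.sp (n + 2)) := by
  ext ⟨z, k⟩
  change X.str (n + 1) (squash z.re, X.str n (squash z.im, (X.sp n).pt)) = (X.sp (n + 2)).pt
  rw [X.str_pt, X.str_pt]

theorem Prespectrum.sigC_homotopic (X : Prespectrum) {n : ℕ} {K : LC} {f g : PMap K (X.sp n)}
    (h : f.Homotopic g) : (X.sigC f).Homotopic (X.sigC g) := by
  obtain ⟨H, h0, h1⟩ := h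
  let e : LC.I.prod (LC.C.prod K) ≃ₜ LC.C.prod (LC.I.prod K) :=
    { toFun := fun x => (x.2.1, (x.1, x.2.2))
      invFun := fun x => (x.2.1, (x.1, x.2.2))
      left_inv := fun _ => rfl
      right_inv := fun _ => rfl
      continuous_toFun := by fun_prop
      continuous_invFun := by fun_prop }
  refine ⟨(X.sigC H).comp (PMap.ofHomeo e), ?_, ?_⟩
  · rintro ⟨z, k⟩
    change X.str (n + 1) (squash z.re, X.str n (squash z.im, H (0, k))) = _
    rw [h0]
    rfl
  · rintro ⟨z, k⟩
    change X.str (n + 1) (squash z.re, X.str n (squash z.im, H (1, k))) = _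
    rw [h1]
    rfl

/-- postcomposition with a map of prespectra -/
def Prespectrum.Hom.po {X Y : Prespectrum} (w : X ⟶ Y) {n : ℕ} {K : LC} (f : PMap K (X.sp n)) :
    PMap K (Y.sp n) :=
  PMap.post (Prespectrum.Hom.map w n) (Prespectrum.Hom.map w n).continuous
    (Prespectrum.Hom.map_pt w n) f

theorem Prespectrum.Hom.po_sigC {X Y : Prespectrum} (w : X ⟶ Y) {n : ℕ} {K : LC}
    (f : PMap K (X.sp n)) : Prespectrum.Hom.po w (X.sigC f) = Y.sigC (Prespectrum.Hom.po w f) := by
  ext ⟨z, k⟩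
  change Prespectrum.Hom.map w (n + 1 + 1) (X.str (n + 1) (squash z.re, X.str n (squash z.im, f k))) =
    Y.str (n + 1) (squash z.re, Y.str n (squash z.im, Prespectrum.Hom.map w n (f k)))
  rw [Prespectrum.Hom.map_str, Prespectrum.Hom.map_str]

theorem Prespectrum.Hom.po_homotopic {X Y : Prespectrum} (w : X ⟶ Y) {n : ℕ} {K : LC}
    {f g : PMap K (X.sp n)} (h : f.Homotopic g) :
    (Prespectrum.Hom.po w f).Homotopic (Prespectrum.Hom.po w g) := by
  obtain ⟨H, h0, h1⟩ := h
  exact ⟨Prespectrum.Hom.po w H, fun k => congrArg (Prespectrum.Hom.map w n) (h0 k),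
    fun k => congrArg (Prespectrum.Hom.map w n) (h1 k)⟩

/-- `f` becomes null-homotopic after `n` suspensions -/
def Prespectrum.Nul (X : Prespectrum) : ∀ (n : ℕ) {a : ℕ} {K : LC}, PMap K (X.sp a) → Prop
  | 0, _, _, f => f.Homotopic (PMap.zero _ _)
  | n' + 1, _, _, f => Prespectrum.Nul X n' (X.sigC f)

theorem Prespectrum.Nul.of_uu {X : Prespectrum} (n : ℕ) {a : ℕ} {K : LC}
    {f : PMap K (X.sp (a + 2))} (h : X.up.up.Nul n (a := a) f) : X.Nul n f := by
  induction n generalizing a K with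
  | zero => exact h
  | succ n ih => exact ih (a := a + 2) h

theorem Prespectrum.nul_iff_ev (X : Prespectrum) (n : ℕ) {a : ℕ} {K : LC} (f : PMap K (X.sp a)) :
    X.Nul n f ↔ X.Ev n f (PMap.zero _ _) := by
  induction n generalizing a K with
  | zero => exact Iff.rfl
  | succ n ih =>
    change X.Nul n (X.sigC f) ↔ X.Ev n (X.sigC f) (X.sigC (PMap.zero _ _))
    rw [X.sigC_zero]
    exact ih (X.sigC f)

theorem Prespectrum.cl_zero (X : Prespectrum) (n : ℕ) (K : Test) :
    X.cl n (K := K) (PMap.zero K.obj (X.sp (2 * n))) = 0 := by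
  have h1 := X.cl_comp n (K := K) (L := K) (PMap.zero K.obj (X.sp (2 * n)))
    (PMap.zero K.obj K.obj.plus)
  have h2 := (hP_red X).pbT_zeroMap n (K := K) (L := K)
    (X.cl n (K := K) (PMap.zero K.obj (X.sp (2 * n))))
  exact h1.trans h2

theorem Prespectrum.cl_eq_zero_iff (X : Prespectrum) (n : ℕ) {K : Test}
    (f : PMap K.obj (X.sp (2 * n))) : X.cl n f = 0 ↔ ∃ N, X.Nul N f := by
  constructor
  · intro h
    rw [← X.cl_zero n K] at h
    obtain ⟨N, hN⟩ := X.ev_of_cl n h
    exact ⟨N, (X.nul_iff_ev N f).2 hN⟩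
  · rintro ⟨N, hN⟩
    rw [X.cl_of_ev N n K f _ ((X.nul_iff_ev N f).1 hN), X.cl_zero]

/-- `f` can be lifted after `n` suspensions -/
def LiftE {X Y : Prespectrum} (w : X ⟶ Y) : ∀ (n : ℕ) {a : ℕ} {K : LC}, PMap K (Y.sp a) → Prop
  | 0, a, K, f => ∃ f' : PMap K (X.sp a), f.Homotopic (Prespectrum.Hom.po w f')
  | n' + 1, _, _, f => LiftE w n' (Y.sigC f)

theorem LiftE.of_uu {X Y : Prespectrum} {w : X ⟶ Y} (n : ℕ) {a : ℕ} {K : LC}
    {f : PMap K (Y.sp (a + 2))} (h : LiftE (Prespectrum.Hom.uu w) n (a := a) f) :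
    LiftE w n f := by
  induction n generalizing a K with
  | zero => exact h
  | succ n ih => exact ih (a := a + 2) h

theorem LiftE.mem_range {X Y : Prespectrum} {w : X ⟶ Y} (n : ℕ) : ∀ (b : ℕ) (K : Test)
    (f : PMap K.obj (Y.sp (2 * b))), LiftE w n f →
    ∃ x, ((hP.map w).app b).app (op K) x = Y.cl b f := by
  induction n with
  | zero =>
    rintro b K f ⟨f', hf⟩
    refine ⟨X.cl b f', ?_⟩
    rw [Y.cl_homotopic b hf]
    exact Prespectrum.map_cl w b f'
  | succ n ih =>
    intro b K f h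
    obtain ⟨x, hx⟩ := ih (b + 1) (Test.cx.obj K) (Y.sigC f) h
    refine ⟨sigInv (hP.obj X) b K x, ?_⟩
    apply sig_inj (hP.obj Y) b K
    rw [← app_sig, sig_sigInv]
    exact hx.trans (Y.sig_cl b f).symm

/-! ## Levels and delays -/

/-- spaces `K i` with maps to the levels `2 i` that commute with the structure maps -/
structure Lv (X : Prespectrum) where
  K : ℕ → LC
  test : ∀ i, IsTest (K i)
  inc : ∀ i, PMap (K i) (X.sp (2 * i))
  step : ∀ i, PMap (LC.C.prod (K i)) (K (i + 1)).plus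
  comm : ∀ i, (inc (i + 1)).comp (step i) = X.sigC (inc i)

namespace Lv

/-- the levels without the first one -/
def tail {X : Prespectrum} (S : Lv X) : Lv X.up.up where
  K i := S.K (i + 1)
  test i := S.test (i + 1)
  inc i := S.inc (i + 1)
  step i := S.step (i + 1)
  comm i := S.comm (i + 1)

/-- the suspended levels -/
def susp {X : Prespectrum} (S : Lv X) : Lv X.up.up where
  K i := LC.C.prod (S.K i)
  test i := (S.test i).prodC
  inc i := X.sigC (S.inc i)
  step i := PMap.ltens LC.C (S.step i)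
  comm i := by
    refine (X.sigC_comp (S.inc (i + 1)) (S.step i)).trans ?_
    rw [S.comm i]
    rfl

/-- one of the two -/
def next {X : Prespectrum} (S : Lv X) : Bool → Lv X.up.up
  | true => S.tail
  | false => S.susp

/-- the structure map from the level `0` to the next one -/
def nstep {X : Prespectrum} (S : Lv X) : ∀ b : Bool, PMap (LC.C.prod (S.K 0)) ((S.next b).K 0).plus
  | true => S.step 0
  | false => PMap.id _

theorem nstep_comm {X : Prespectrum} (S : Lv X) (b : Bool) :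
    ((S.next b).inc 0).comp (S.nstep b) = X.sigC (S.inc 0) := by
  cases b
  · exact PMap.comp_id _
  · exact S.comm 0

/-- the spaces of the delayed sequence -/
def sL : ∀ (m : ℕ) {X : Prespectrum}, Lv X → (ℕ → Bool) → LC
  | 0, _, S, _ => S.K 0
  | m + 1, _, S, δ => sL m (S.next (δ 0)) (fun i => δ (i + 1))

theorem sTest : ∀ (m : ℕ) {X : Prespectrum} (S : Lv X) (δ : ℕ → Bool), IsTest (sL m S δ)
  | 0, _, S, _ => S.test 0
  | m + 1, _, S, δ => sTest m (S.next (δ 0)) (fun i => δ (i + 1))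

/-- the structure maps of the delayed sequence -/
def sS : ∀ (m : ℕ) {X : Prespectrum} (S : Lv X) (δ : ℕ → Bool),
    PMap (LC.C.prod (sL m S δ)) (sL (m + 1) S δ).plus
  | 0, _, S, δ => S.nstep (δ 0)
  | m + 1, _, S, δ => sS m (S.next (δ 0)) (fun i => δ (i + 1))

/-- the maps from the delayed sequence -/
def sW : ∀ (m : ℕ) {X : Prespectrum} (S : Lv X) (δ : ℕ → Bool), PMap (sL m S δ) (X.sp (2 * m))
  | 0, _, S, _ => S.inc 0
  | m + 1, _, S, δ => sW m (S.next (δ 0)) (fun i => δ (i + 1))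

theorem sComm : ∀ (m : ℕ) {X : Prespectrum} (S : Lv X) (δ : ℕ → Bool),
    (sW (m + 1) S δ).comp (sS m S δ) = X.sigC (sW m S δ)
  | 0, _, S, δ => S.nstep_comm (δ 0)
  | m + 1, _, S, δ => sComm m (S.next (δ 0)) (fun i => δ (i + 1))

/-- the delayed sequence -/
def seq {X : Prespectrum} (S : Lv X) (δ : ℕ → Bool) : CSeq := ⟨fun m => sL m S δ, fun m => sS m S δ⟩

/-- the maps from the delayed sequence -/
def fam {X : Prespectrum} (S : Lv X) (δ : ℕ → Bool) : CSeq.Fam (S.seq δ) X :=
  ⟨fun m => sW m S δ, fun m => sComm m S δ⟩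

theorem seq_P_up_up {X : Prespectrum} (S : Lv X) (δ : ℕ → Bool) :
    (S.seq δ).P.up.up = ((S.next (δ 0)).seq fun i => δ (i + 1)).P := rfl

theorem fam_hom_uu {X : Prespectrum} (S : Lv X) (δ : ℕ → Bool) :
    Prespectrum.Hom.uu (S.fam δ).hom = ((S.next (δ 0)).fam fun i => δ (i + 1)).hom := rfl

/-- `δ` is true infinitely often -/
def Often (δ : ℕ → Bool) : Prop := ∀ m, ∃ n, δ (m + n) = true

theorem Often.tail {δ : ℕ → Bool} (h : Often δ) : Often fun i => δ (i + 1) := by
  intro m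
  obtain ⟨n, hn⟩ := h (m + 1)
  refine ⟨n, ?_⟩
  change δ (m + n + 1) = true
  rw [show m + n + 1 = m + 1 + n by omega]
  exact hn

theorem lift_tail {T' X : Prespectrum} (S : Lv X) (w' : T' ⟶ X.up.up) (n i : ℕ) (b : Bool)
    (hb : b = true) (h : LiftE w' n ((S.next b).inc i)) :
    LiftE w' n (a := 2 * i) (K := S.K (i + 1)) (S.inc (i + 1)) := by
  subst hb
  exact h

theorem lift_susp {T' X : Prespectrum} (S : Lv X) (w' : T' ⟶ X.up.up) (n i : ℕ) (b : Bool)
    (hb : b = false) (h : LiftE w' n ((S.next b).inc i)) :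
    LiftE w' n (a := 2 * i) (K := LC.C.prod (S.K i)) (X.sigC (S.inc i)) := by
  subst hb
  exact h

/-- all levels can be lifted eventually -/
theorem exists_lift (i : ℕ) : ∀ {X : Prespectrum} (S : Lv X) (δ : ℕ → Bool), Often δ →
    ∃ n, LiftE (S.fam δ).hom n (S.inc i) := by
  induction i with
  | zero =>
    intro X S δ _
    refine ⟨0, PMap.id (S.K 0), ?_⟩
    have h : Prespectrum.Hom.po (S.fam δ).hom (n := 0) (K := S.K 0) (PMap.id (S.K 0)) =
      S.inc 0 := by
      ext k
      rfl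
    have h2 := PMap.Homotopic.refl (S.inc 0)
    rw [← h] at h2
    rw [← h]
    exact h2
  | succ i ih =>
    intro X S δ hδ
    obtain ⟨n, hn⟩ := hδ 0
    rw [zero_add] at hn
    induction n generalizing X S δ with
    | zero =>
      obtain ⟨m, hm⟩ := ih (S.next (δ 0)) (fun i => δ (i + 1)) hδ.tail
      exact ⟨m, LiftE.of_uu m (lift_tail S _ m i (δ 0) hn hm)⟩
    | succ n ihn =>
      rcases h0 : δ 0 with _ | _
      · obtain ⟨m, hm⟩ := ihn (S.next (δ 0)) (fun i => δ (i + 1)) hδ.tail hn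
        exact ⟨m + 1, LiftE.of_uu m (lift_susp S _ m (i + 1) (δ 0) h0 hm)⟩
      · obtain ⟨m, hm⟩ := ih (S.next (δ 0)) (fun i => δ (i + 1)) hδ.tail
        exact ⟨m, LiftE.of_uu m (lift_tail S _ m i (δ 0) h0 hm)⟩

/-! ### Injectivity -/

/-- the map `h` becomes null-homotopic after `n` steps -/
def EN : ∀ (n : ℕ) {X : Prespectrum} (S : Lv X) (i : ℕ) {K : LC}, PMap K (S.K i).plus → Prop
  | 0, _, _, _, _, h => h.Homotopic (PMap.zero _ _)
  | n' + 1, _, S, i, _, h => EN n' S (i + 1) ((S.step i).comp (PMap.ltens LC.C h))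

theorem EN.tail {X : Prespectrum} {S : Lv X} (n : ℕ) : ∀ {i : ℕ} {K : LC}
    {h : PMap K (S.K (i + 1)).plus}, EN n S (i + 1) h → EN n S.tail i h := by
  induction n with
  | zero => exact fun h => h
  | succ n ih =>
    intro i K h hh
    exact ih (i := i + 1) hh

theorem EN.of_tail {X : Prespectrum} {S : Lv X} (n : ℕ) : ∀ {i : ℕ} {K : LC}
    {h : PMap K (S.K (i + 1)).plus}, EN n S.tail i h → EN n S (i + 1) h := by
  induction n with
  | zero => exact fun h => h
  | succ n ih =>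
    intro i K h hh
    exact ih (i := i + 1) hh

theorem _root_.Pool.Agent.Helper1.Stab.PMap.ltens_zero' {K L Z : LC} :
    PMap.ltens Z (PMap.zero K L.plus) = PMap.zero (Z.prod K) (Z.prod L).plus := by
  ext ⟨z, k⟩
  rfl

theorem EN.susp {X : Prespectrum} {S : Lv X} (n : ℕ) : ∀ {i : ℕ} {K : LC}
    {h : PMap K (S.K i).plus}, EN n S i h → EN n S.susp i (PMap.ltens LC.C h) := by
  induction n with
  | zero =>
    intro i K h hh
    have h1 : (PMap.ltens LC.C h).Homotopic (PMap.ltens LC.C (PMap.zero K (S.K i).plus)) :=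
      PMap.Homotopic.box_right _ hh
    rw [PMap.ltens_zero'] at h1
    exact h1
  | succ n ih =>
    intro i K h hh
    have h1 := ih hh
    have h2 : PMap.ltens LC.C ((S.step i).comp (PMap.ltens LC.C h)) =
        (PMap.ltens LC.C (S.step i)).comp (PMap.ltens LC.C (PMap.ltens LC.C h)) := by
      have h3 := PMap.box_comp (PMap.id LC.C) (PMap.id LC.C) (S.step i) (PMap.ltens LC.C h)
      rw [PMap.comp_id] at h3
      exact h3
    rw [h2] at h1
    exact h1

/-- null-homotopic maps to the prespectrum are eventually null-homotopic in the levels -/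
def Inj {X : Prespectrum} (S : Lv X) : Prop :=
  ∀ (i : ℕ) (K : LC) (h : PMap K (S.K i).plus), ((S.inc i).comp h).Homotopic (PMap.zero _ _) →
    ∃ n, EN n S i h

theorem Inj.tail {X : Prespectrum} {S : Lv X} (hS : S.Inj) : S.tail.Inj := by
  intro i K h hh
  obtain ⟨n, hn⟩ := hS (i + 1) K h hh
  exact ⟨n, EN.tail n hn⟩

theorem Inj.susp {X : Prespectrum} {S : Lv X} (hS : S.Inj) : S.susp.Inj := by
  intro i K h hh
  have h1 : (X.sigC (S.inc i)).comp h = (S.inc (i + 1)).comp ((S.step i).comp h) := by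
    rw [← PMap.comp_assoc, S.comm i]
  change ((X.sigC (S.inc i)).comp h).Homotopic (PMap.zero _ _) at hh
  rw [h1] at hh
  obtain ⟨n, hn⟩ := hS (i + 1) K _ hh
  refine ⟨n + 1, ?_⟩
  have h2 := EN.susp n hn
  have h3 : PMap.ltens LC.C ((S.step i).comp h) =
      (PMap.ltens LC.C (S.step i)).comp (PMap.ltens LC.C h) := by
    have h4 := PMap.box_comp (PMap.id LC.C) (PMap.id LC.C) (S.step i) h
    rw [PMap.comp_id] at h4
    exact h4
  rw [h3] at h2
  exact h2

theorem Inj.next {X : Prespectrum} {S : Lv X} (hS : S.Inj) (b : Bool) : (S.next b).Inj := by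
  cases b
  · exact hS.susp
  · exact hS.tail

theorem _root_.Pool.Agent.Helper1.Stab.CSeq.sigC_zeroth (C : CSeq) {K : LC}
    (f : PMap K (C.L 0).plus) :
    C.P.sigC (n := 0) f = (C.s 0).comp (PMap.ltens LC.C f) := by
  ext ⟨z, k⟩
  change C.str1 (squash z.re, strI (C.L 0) (squash z.im, f k)) =
    (C.s 0).plus (smashPt LC.C (C.L 0) ((z : OnePoint ℂ), f k))
  rcases f k with _ | l
  · rw [CSeq.str1_apply]
    change PMap.plus _ (strI (LC.R.prod (C.L 0)) (squash z.re, OnePoint.infty)) = _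
    rw [strI_infty]
    rfl
  · exact CSeq.spE_str 0 C z l

theorem en_true {X : Prespectrum} (S : Lv X) (n : ℕ) (b : Bool) (hb : b = true) {K : LC}
    (f : PMap K (S.K 0).plus) (h : EN (n + 1) S 0 f) :
    EN n (S.next b) 0 ((S.nstep b).comp (PMap.ltens LC.C f)) := by
  subst hb
  exact EN.tail n h

theorem en_false {X : Prespectrum} (S : Lv X) (n : ℕ) (b : Bool) (hb : b = false) {K : LC}
    (f : PMap K (S.K 0).plus) (h : EN n S 0 f) :
    EN n (S.next b) 0 ((S.nstep b).comp (PMap.ltens LC.C f)) := by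
  subst hb
  have h1 := EN.susp n h
  have h2 : (S.nstep false).comp (PMap.ltens LC.C f) = PMap.ltens LC.C f := PMap.id_comp _
  rw [h2]
  exact h1

theorem nul_step {X : Prespectrum} (S : Lv X) (δ : ℕ → Bool) {K : LC} (f : PMap K (S.K 0).plus)
    (N : ℕ) (h : ((S.next (δ 0)).seq fun i => δ (i + 1)).P.Nul N (a := 0)
      ((S.nstep (δ 0)).comp (PMap.ltens LC.C f))) : (S.seq δ).P.Nul (N + 1) (a := 0) f := by
  change (S.seq δ).P.Nul N (a := 2) ((S.seq δ).P.sigC (n := 0) f)
  have h1 := (S.seq δ).sigC_zeroth f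
  rw [h1]
  exact Prespectrum.Nul.of_uu (X := (S.seq δ).P) N (a := 0) h

theorem exists_nul (n : ℕ) : ∀ {X : Prespectrum} (S : Lv X) (δ : ℕ → Bool), Often δ →
    ∀ {K : LC} (f : PMap K (S.K 0).plus), EN n S 0 f → ∃ N, (S.seq δ).P.Nul N (a := 0) f := by
  induction n with
  | zero => exact fun S δ _ K f h => ⟨0, h⟩
  | succ n ih =>
    intro X S δ hδ K f h
    obtain ⟨m, hm⟩ := hδ 0
    rw [zero_add] at hm
    induction m generalizing X S δ K f with
    | zero =>
      obtain ⟨N, hN⟩ := ih (S.next (δ 0)) (fun i => δ (i + 1)) hδ.tail _ (en_true S n _ hm f h)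
      exact ⟨N + 1, nul_step S δ f N hN⟩
    | succ m ihm =>
      rcases h0 : δ 0 with _ | _
      · obtain ⟨N, hN⟩ := ihm (S.next (δ 0)) (fun i => δ (i + 1)) hδ.tail _
          (en_false S (n + 1) _ h0 f h) hm
        exact ⟨N + 1, nul_step S δ f N hN⟩
      · obtain ⟨N, hN⟩ := ih (S.next (δ 0)) (fun i => δ (i + 1)) hδ.tail _ (en_true S n _ h0 f h)
        exact ⟨N + 1, nul_step S δ f N hN⟩

theorem exists_nul' (m : ℕ) : ∀ {X : Prespectrum} (S : Lv X) (δ : ℕ → Bool), Often δ → S.Inj →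
    ∀ {K : LC} (f : PMap K ((S.seq δ).P.sp (2 * m))),
    (Prespectrum.Hom.po (S.fam δ).hom f).Homotopic (PMap.zero _ _) →
    ∃ N, (S.seq δ).P.Nul N f := by
  induction m with
  | zero =>
    intro X S δ hδ hS K f h
    obtain ⟨n, hn⟩ := hS 0 K f h
    exact exists_nul n S δ hδ f hn
  | succ m ih =>
    intro X S δ hδ hS K f h
    obtain ⟨N, hN⟩ := ih (S.next (δ 0)) (fun i => δ (i + 1)) hδ.tail (hS.next _) (K := K) f h
    exact ⟨N, Prespectrum.Nul.of_uu (X := (S.seq δ).P) (a := 2 * m) N hN⟩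

theorem exists_nul_of_nul {X : Prespectrum} (S : Lv X) (δ : ℕ → Bool) (hδ : Often δ) (hS : S.Inj)
    (n : ℕ) : ∀ (m : ℕ) {K : LC} (f : PMap K ((S.seq δ).P.sp (2 * m))),
    X.Nul n (Prespectrum.Hom.po (S.fam δ).hom f) → ∃ N, (S.seq δ).P.Nul N f := by
  induction n with
  | zero => exact fun m K f h => exists_nul' m S δ hδ hS f h
  | succ n ih =>
    intro m K f h
    change X.Nul n (X.sigC (Prespectrum.Hom.po (S.fam δ).hom f)) at h
    rw [← Prespectrum.Hom.po_sigC] at h
    obtain ⟨N, hN⟩ := ih (m + 1) _ h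
    exact ⟨N + 1, hN⟩

end Lv

/-! ## The levels of a prespectrum with compact levels -/

/-- the levels -/
def Levels.lv {G : Prespectrum} (L : Levels G) : Lv G where
  K := L.K
  test := L.test
  inc := L.ic
  step := L.step
  comm := L.ic_step

theorem Levels.lv_inj {G : Prespectrum} (L : Levels G) : L.lv.Inj := by
  intro i K h hh
  refine ⟨0, ?_⟩
  have h1 := L.fac_homotopic i hh
  change (L.fac i ((L.ic i).comp h)).Homotopic _ at h1
  rw [L.fac_ic] at h1
  have h2 : L.fac i (PMap.zero K (G.sp (2 * i))) = PMap.zero K (L.K i).plus := by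
    ext k
    exact L.ev_pt i
  rw [h2] at h1
  exact h1

/-- A delayed copy of a prespectrum with compact levels is stably equivalent to it. -/
theorem Levels.isIso_delay {G : Prespectrum} (L : Levels G) (δ : ℕ → Bool) (hδ : Lv.Often δ) :
    IsIso (hP.map (L.lv.fam δ).hom) := by
  refine GF.isIso_of_bij68 _ fun b K => ⟨?_, ?_⟩
  · refine (injective_iff_map_eq_zero
      ((((hP.map (L.lv.fam δ).hom).app b).app (op K)).hom)).2 fun x hx => ?_
    obtain ⟨n, hn⟩ := (L.lv.seq δ).P.exists_st b K x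
    induction n generalizing b K with
    | zero =>
      obtain ⟨f, rfl⟩ := hn
      have h1 := Prespectrum.map_cl (L.lv.fam δ).hom b f
      have h2 := h1.symm.trans hx
      obtain ⟨N, hN⟩ := (G.cl_eq_zero_iff b _).1 h2
      exact ((L.lv.seq δ).P.cl_eq_zero_iff b _).2
        (Lv.exists_nul_of_nul L.lv δ hδ L.lv_inj N b f hN)
    | succ n ih =>
      have h1 := ih (b + 1) (Test.cx.obj K) _ (by
        have h2 := app_sig (hP.map (L.lv.fam δ).hom) b K x
        refine h2.trans ?_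
        have h3 : ((hP.map (L.lv.fam δ).hom).app b).app (op K) x = 0 := hx
        rw [h3]
        exact map_zero (((hP.obj G).σ b).hom.app (op K)).hom) hn
      apply sig_inj _ b K
      exact h1.trans (map_zero (((hP.obj (L.lv.seq δ).P).σ b).hom.app (op K)).hom).symm
  · intro y
    obtain ⟨n, hn⟩ := G.exists_st b K y
    induction n generalizing b K with
    | zero =>
      obtain ⟨f, rfl⟩ := hn
      obtain ⟨N, hN⟩ := Lv.exists_lift b L.lv δ hδ
      obtain ⟨x, hx⟩ := LiftE.mem_range N b (L.T b) (L.ic b) hN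
      refine ⟨pbT ((hP.obj (L.lv.seq δ).P).h b) (K := K) (L := L.T b) (L.fac b f) x, ?_⟩
      rw [app_pbT, hx, L.cl_ic, L.cl_fac]
    | succ n ih =>
      obtain ⟨x, hx⟩ := ih (b + 1) (Test.cx.obj K) _ hn
      refine ⟨sigInv _ b K x, ?_⟩
      apply sig_inj (hP.obj G) b K
      rw [← app_sig, sig_sigInv]
      exact hx

end Pool.Agent.Helper1.Stab
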