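import Pool.Agent.Helper1.Stab.GF

/-! The five lemma for morphisms of exact graded functors. -/

open CategoryTheory Topology Filter Set Opposite

noncomputable section

namespace Pool.Agent.Helper1.Stab

/-! ## Restriction -/

section res
variable (H : Testᵒᵖ ⥤ AddCommGrpCat.{0}) {K L M : LC} (hK : IsTest K) (hL : IsTest L)
  (hM : IsTest M)

theorem res68_comp (f : PMap K L.plus) (g : PMap L M.plus) (x : H.obj (op ⟨M, hM⟩)) :
    Test.res H hK hM (g.comp f) x = Test.res H hK hL f (Test.res H hL hM g x) := by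
  unfold Test.res
  have h : (Quiver.Hom.op (X := (⟨K, hK⟩ : Test)) (Y := (⟨M, hM⟩ : Test))
      (ObjectProperty.homMk (g.comp f).cls)) =
      (Quiver.Hom.op (X := (⟨L, hL⟩ : Test)) (Y := (⟨M, hM⟩ : Test))
        (ObjectProperty.homMk g.cls)) ≫
      (Quiver.Hom.op (X := (⟨K, hK⟩ : Test)) (Y := (⟨L, hL⟩ : Test))
        (ObjectProperty.homMk f.cls)) := rfl
  rw [h, CategoryTheory.Functor.map_comp]
  rfl

theorem res68_id (x : H.obj (op ⟨K, hK⟩)) : Test.res H hK hK (PMap.id K) x = x := by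
  unfold Test.res
  have h : (Quiver.Hom.op (X := (⟨K, hK⟩ : Test)) (Y := (⟨K, hK⟩ : Test))
      (ObjectProperty.homMk (PMap.id K).cls)) = 𝟙 _ := rfl
  rw [h, CategoryTheory.Functor.map_id]
  rfl

theorem res68_homotopic {f g : PMap K L.plus} (h : f.Homotopic g) :
    Test.res H hK hL f = Test.res H hK hL g := by
  unfold Test.res
  rw [PMap.cls_eq.2 h]

theorem res68_add (f : PMap K L.plus) (x y : H.obj (op ⟨L, hL⟩)) :
    Test.res H hK hL f (x + y) = Test.res H hK hL f x + Test.res H hK hL f y :=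
  map_add (H.map _).hom x y

theorem res68_sub (f : PMap K L.plus) (x y : H.obj (op ⟨L, hL⟩)) :
    Test.res H hK hL f (x - y) = Test.res H hK hL f x - Test.res H hK hL f y :=
  map_sub (H.map _).hom x y

theorem res68_zero (f : PMap K L.plus) : Test.res H hK hL f 0 = 0 :=
  map_zero (H.map _).hom

end res

/-- a morphism of graded functors at an element -/
def GF.at {G H : GF} (f : G ⟶ H) (b : ℕ) {K : LC} (hK : IsTest K)
    (x : (G.h b).obj (op ⟨K, hK⟩)) : (H.h b).obj (op ⟨K, hK⟩) := (f.app b).app (op ⟨K, hK⟩) x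

theorem GF.at_add {G H : GF} (f : G ⟶ H) (b : ℕ) {K : LC} (hK : IsTest K)
    (x y : (G.h b).obj (op ⟨K, hK⟩)) : GF.at f b hK (x + y) = GF.at f b hK x + GF.at f b hK y :=
  map_add ((f.app b).app (op ⟨K, hK⟩)).hom x y

theorem GF.at_sub {G H : GF} (f : G ⟶ H) (b : ℕ) {K : LC} (hK : IsTest K)
    (x y : (G.h b).obj (op ⟨K, hK⟩)) : GF.at f b hK (x - y) = GF.at f b hK x - GF.at f b hK y :=
  map_sub ((f.app b).app (op ⟨K, hK⟩)).hom x y

theorem GF.at_zero {G H : GF} (f : G ⟶ H) (b : ℕ) {K : LC} (hK : IsTest K) :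
    GF.at f b hK 0 = 0 := map_zero ((f.app b).app (op ⟨K, hK⟩)).hom

theorem GF.at_res {G H : GF} (f : G ⟶ H) (b : ℕ) {K L : LC} (hK : IsTest K) (hL : IsTest L)
    (φ : PMap K L.plus) (x : (G.h b).obj (op ⟨L, hL⟩)) :
    GF.at f b hK (Test.res (G.h b) hK hL φ x) = Test.res (H.h b) hK hL φ (GF.at f b hL x) :=
  congrArg (fun t => t.hom x) ((f.app b).naturality
    (Quiver.Hom.op (X := (⟨K, hK⟩ : Test)) (Y := (⟨L, hL⟩ : Test)) (ObjectProperty.homMk φ.cls)))

/-- `f` is bijective at `K` -/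
def GF.Bij {G H : GF} (f : G ⟶ H) (K : LC) : Prop :=
  ∃ hK : IsTest K, ∀ b, Function.Bijective (GF.at f b hK)

theorem GF.Bij.ret {G H : GF} {f : G ⟶ H} {K L : LC} (h : Ret K L) (hL : GF.Bij f L) :
    GF.Bij f K := by
  obtain ⟨hL, hb⟩ := hL
  have hK := h.test hL
  obtain ⟨i, r, e⟩ := h
  revert i r
  refine HMap.ind fun i => ?_
  refine HMap.ind fun r => ?_
  intro e
  have e' : (PMap.comp r i).Homotopic (PMap.id K) := PMap.cls_eq.1 e
  have key : ∀ (F : Testᵒᵖ ⥤ AddCommGrpCat.{0}) (x : F.obj (op ⟨K, hK⟩)),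
      Test.res F hK hL i (Test.res F hL hK r x) = x := by
    intro F x
    rw [← res68_comp, res68_homotopic F hK hK e', res68_id]
  refine ⟨hK, fun b => ⟨fun x y hxy => ?_, fun y => ?_⟩⟩
  · have h1 : GF.at f b hL (Test.res (G.h b) hL hK r x) =
        GF.at f b hL (Test.res (G.h b) hL hK r y) := by
      rw [GF.at_res, GF.at_res, hxy]
    have h2 := (hb b).1 h1
    rw [← key (G.h b) x, h2, key]
  · obtain ⟨z, hz⟩ := (hb b).2 (Test.res (H.h b) hL hK r y)
    refine ⟨Test.res (G.h b) hK hL i z, ?_⟩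
    rw [GF.at_res, hz, key]

/-- the five lemma -/
theorem GF.Bij.mv {G H : GF} (hG : G.Exact) (hH : H.Exact) {f : G ⟶ H} {K : LC} (u : C(K, ℝ))
    (hK : IsTest K) (hA : GF.Bij f (MV.A u)) (hB : GF.Bij f (MV.B u)) (hC : GF.Bij f (MV.C u))
    (hA' : GF.Bij f (LC.R.prod (MV.A u))) (hB' : GF.Bij f (LC.R.prod (MV.B u)))
    (hC' : GF.Bij f (LC.R.prod (MV.C u))) : GF.Bij f K := by
  obtain ⟨tA, bA⟩ := hA
  obtain ⟨tB, bB⟩ := hB
  obtain ⟨tC, bC⟩ := hC
  obtain ⟨tA', bA'⟩ := hA'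
  obtain ⟨tB', bB'⟩ := hB'
  obtain ⟨tC', bC'⟩ := hC'
  have tE : IsTest (⟨PEmpty⟩ : LC) := (Ret.of_isEmpty (E := (⟨PEmpty⟩ : LC)) (inferInstanceAs (IsEmpty PEmpty)) K).test hK
  refine ⟨hK, fun b => ?_⟩
  have inj : ∀ x : (G.h b).obj (op ⟨K, hK⟩), GF.at f b hK x = 0 → x = 0 := by
    intro x hx
    have h1 : Test.res (G.h b) tA hK (MV.iA u) x = 0 := by
      apply (bA b).1
      rw [GF.at_res, hx, res68_zero, GF.at_zero]
    have h2 : Test.res (G.h b) tB hK (MV.iB u) x = 0 := by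
      apply (bB b).1
      rw [GF.at_res, hx, res68_zero, GF.at_zero]
    obtain ⟨y, hy⟩ := hG.mv1 b K u hK tA tB tC x h1 h2
    have h3 : Test.res (H.h b) hK tC.prodR (MV.delta u) (GF.at f b tC.prodR y) = 0 := by
      rw [← GF.at_res, ← hy, hx]
    obtain ⟨s', t', hst⟩ := hH.mv3 b K u hK tA tB tC _ h3
    obtain ⟨s, rfl⟩ := (bA' b).2 s'
    obtain ⟨t, rfl⟩ := (bB' b).2 t'
    have h4 : y = Test.res (G.h b) tC.prodR tA.prodR (PMap.ltens LC.R (MV.iCA u)) s -
        Test.res (G.h b) tC.prodR tB.prodR (PMap.ltens LC.R (MV.iCB u)) t := by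
      apply (bC' b).1
      rw [GF.at_sub, GF.at_res, GF.at_res]
      exact hst
    -- restriction to the empty space
    let zK : PMap K (⟨PEmpty⟩ : LC).plus := PMap.zero K (⟨PEmpty⟩ : LC).plus
    have hzero : ∀ {X : LC} (tX : IsTest X) (z : (G.h b).obj (op ⟨X, tX⟩)),
        Test.res (G.h b) hK tX (PMap.zero K X.plus) z =
          Test.res (G.h b) hK tE zK (Test.res (G.h b) tE tX
            (PMap.zero (⟨PEmpty⟩ : LC) X.plus) z) := by
      intro X tX z
      rw [← res68_comp]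
      congr 1
    have hE : ∀ {X X' : LC} (tX : IsTest X) (tX' : IsTest X') (φ : PMap X X'.plus)
        (z : (G.h b).obj (op ⟨X', tX'⟩)),
        Test.res (G.h b) tE tX (PMap.zero (⟨PEmpty⟩ : LC) X.plus) (Test.res (G.h b) tX tX' φ z) =
          Test.res (G.h b) tE tX' (PMap.zero (⟨PEmpty⟩ : LC) X'.plus) z := by
      intro X X' tX tX' φ z
      rw [← res68_comp]
      congr 1
    have h5 : x = Test.res (G.h b) hK tE zK (Test.res (G.h b) tE tC.prodR
        (PMap.zero (⟨PEmpty⟩ : LC) (LC.R.prod (MV.C u)).plus) y) := by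
      rw [hy]
      conv_lhs => rw [h4]
      rw [res68_sub, ← res68_comp, ← res68_comp,
        res68_homotopic (G.h b) hK tA.prodR (MV.delta_iCA u),
        res68_homotopic (G.h b) hK tB.prodR (MV.delta_iCB u), hzero tA.prodR, hzero tB.prodR,
        ← res68_sub]
      congr 1
      rw [h4, res68_sub, hE, hE]
    have h6 : Test.res (G.h b) tE tC.prodR
        (PMap.zero (⟨PEmpty⟩ : LC) (LC.R.prod (MV.C u)).plus) y = 0 := by
      rw [← hE hK tC.prodR (MV.delta u), ← hy, ← hE tA hK (MV.iA u), h1, res68_zero]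
    rw [h5, h6, res68_zero]
  constructor
  · intro x y hxy
    exact sub_eq_zero.1 (inj _ (by rw [GF.at_sub, hxy, sub_self]))
  · intro z
    obtain ⟨a, ha⟩ := (bA b).2 (Test.res (H.h b) tA hK (MV.iA u) z)
    obtain ⟨c, hc⟩ := (bB b).2 (Test.res (H.h b) tB hK (MV.iB u) z)
    have h1 : Test.res (G.h b) tC tA (MV.iCA u) a = Test.res (G.h b) tC tB (MV.iCB u) c := by
      apply (bC b).1
      rw [GF.at_res, GF.at_res, ha, hc, ← res68_comp, ← res68_comp]
      rfl
    obtain ⟨x, hx1, hx2⟩ := hG.mv2 b K u hK tA tB tC a c h1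
    obtain ⟨y', hy'⟩ := hH.mv1 b K u hK tA tB tC (z - GF.at f b hK x)
      (by rw [res68_sub, ← GF.at_res, hx1, ha, sub_self])
      (by rw [res68_sub, ← GF.at_res, hx2, hc, sub_self])
    obtain ⟨y, rfl⟩ := (bC' b).2 y'
    refine ⟨x + Test.res (G.h b) hK tC.prodR (MV.delta u) y, ?_⟩
    rw [GF.at_add, GF.at_res, ← hy', add_sub_cancel]

end Pool.Agent.Helper1.Stab
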