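import Pool.Agent.Helper68.Stab.Delay

/-! A replacement `Y.free` of a prespectrum `Y`: families of maps `T n → Y n` that commute with the
structure maps up to homotopy become maps `T → Y.free`. -/

open CategoryTheory Topology Filter Set Opposite

noncomputable section

namespace Pool.Agent.Helper1.Stab

/-! ## The space `E0` -/

/-- The points of `E0`: maps `E k : ℝ × I^k → X k` which are constant in `t` for `t ≤ 0` and for
`k ≤ t`, compatible with the structure maps for `t ≤ k`. -/
def Prespectrum.E0set (X : Prespectrum) :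
    Set (∀ k : ℕ, C(ℝ × (Fin k → unitInterval), X.sp k)) :=
  {E | (∀ (k : ℕ) (t : ℝ) (v : Fin k → unitInterval), E k (t, v) = E k (max 0 (min t k), v)) ∧
    (∀ (k : ℕ) (t : ℝ) (s : unitInterval) (v : Fin k → unitInterval), t ≤ k →
      E (k + 1) (t, Fin.cons s v) = X.str k (s, E k (t, v))) ∧
    ∀ (k : ℕ) (t : ℝ) (v : Fin k → unitInterval), v ∈ Cube.boundary (Fin k) →
      E k (t, v) = (X.sp k).pt}

/-- the pointed space `E0` -/
def Prespectrum.E0 (X : Prespectrum) : PT :=
  ⟨X.E0set, ⟨fun k => ContinuousMap.const _ (X.sp k).pt, fun _ _ _ => rfl,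
    fun k _ s _ _ => (X.str_pt k s).symm, fun _ _ _ _ => rfl⟩⟩

theorem Prespectrum.E0_ext {X : Prespectrum} {E F : X.E0}
    (h : ∀ k t v, E.1 k (t, v) = F.1 k (t, v)) : E = F :=
  Subtype.ext (funext fun k => ContinuousMap.ext fun x => h k x.1 x.2)

/-- a map to `E0` is continuous if its components are jointly continuous -/
theorem Prespectrum.continuous_E0 {X : Prespectrum} {A : Type} [TopologicalSpace A] {f : A → X.E0}
    (h : ∀ k, Continuous fun x : A × (ℝ × (Fin k → unitInterval)) => (f x.1).1 k x.2) :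
    Continuous f := by
  refine Continuous.subtype_mk (continuous_pi fun k => ?_) _
  exact ContinuousMap.continuous_of_continuous_uncurry _ (h k)

theorem Prespectrum.continuous_eval_E0 (X : Prespectrum) (k : ℕ) :
    Continuous fun x : X.E0 × (ℝ × (Fin k → unitInterval)) => x.1.1 k x.2 := by
  have h : Continuous fun x : X.E0 × (ℝ × (Fin k → unitInterval)) => (x.1.1 k, x.2) :=
    ((continuous_apply k).comp (continuous_subtype_val.comp continuous_fst)).prodMk continuous_snd
  exact continuous_eval.comp h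

theorem snoc_continuous (k : ℕ) : Continuous fun x : (Fin k → unitInterval) × unitInterval =>
    (Fin.snoc (α := fun _ => unitInterval) x.1 x.2 : Fin (k + 1) → unitInterval) := by
  refine continuous_pi fun i => ?_
  refine Fin.lastCases ?_ (fun j => ?_) i
  · simp only [Fin.snoc_last]
    exact continuous_snd
  · simp only [Fin.snoc_castSucc]
    exact (continuous_apply j).comp continuous_fst

theorem snoc_boundary {k : ℕ} {v : Fin k → unitInterval} {s : unitInterval}
    (h : v ∈ Cube.boundary (Fin k) ∨ s = 0 ∨ s = 1) :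
    (Fin.snoc (α := fun _ => unitInterval) v s : Fin (k + 1) → unitInterval) ∈
      Cube.boundary (Fin (k + 1)) := by
  rcases h with ⟨i, hi⟩ | h
  · exact ⟨i.castSucc, by simpa using hi⟩
  · exact ⟨Fin.last k, by simpa using h⟩

theorem clamp_aux (t : ℝ) (k : ℕ) :
    max 0 (min (max t 0 + 1) ((k + 1 : ℕ) : ℝ)) = max 0 (min t k) + 1 := by
  push_cast
  have hk : (0 : ℝ) ≤ k := Nat.cast_nonneg k
  rcases le_total t 0 with h | h
  · rw [max_eq_right h, min_eq_left (by linarith), min_eq_left (by linarith), max_eq_left h]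
    norm_num
  · rw [max_eq_left h]
    rcases le_total t k with h' | h'
    · rw [min_eq_left (by linarith), min_eq_left h', max_eq_right h, max_eq_right (by linarith)]
    · rw [min_eq_right (by linarith), min_eq_right h', max_eq_right hk, max_eq_right (by linarith)]

/-- evaluation at the last coordinate -/
def Prespectrum.str0Fun (X : Prespectrum) (x : unitInterval × X.E0) : X.up.E0 :=
  ⟨fun k => ⟨fun y => x.2.1 (k + 1) (max y.1 0 + 1, Fin.snoc (α := fun _ => unitInterval) y.2 x.1), by
      refine (x.2.1 (k + 1)).continuous.comp (Continuous.prodMk (by fun_prop) ?_)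
      exact (snoc_continuous k).comp (continuous_snd.prodMk continuous_const)⟩, by
    intro k t v
    change x.2.1 (k + 1) (max t 0 + 1, _) = x.2.1 (k + 1) (max (max 0 (min t k)) 0 + 1, _)
    have h1 : max (max 0 (min t (k : ℝ))) 0 = max 0 (min t k) := max_eq_left (le_max_left _ _)
    rw [x.2.2.1 (k + 1) (max t 0 + 1), clamp_aux, h1], by
    intro k t s v ht
    change x.2.1 (k + 1 + 1) (max t 0 + 1, Fin.snoc (α := fun _ => unitInterval)
      (Fin.cons s v : Fin (k + 1) → unitInterval) x.1) =
      X.str (k + 1) (s, x.2.1 (k + 1) (max t 0 + 1, _))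
    rw [← Fin.cons_snoc_eq_snoc_cons]
    refine x.2.2.2.1 (k + 1) _ s _ ?_
    push_cast
    have hk : (0 : ℝ) ≤ k := Nat.cast_nonneg k
    linarith [max_le ht hk], by
    intro k t v hv
    exact x.2.2.2.2 (k + 1) _ _ (snoc_boundary (Or.inl hv))⟩

theorem Prespectrum.str0_continuous (X : Prespectrum) : Continuous X.str0Fun := by
  refine Prespectrum.continuous_E0 (X := X.up) fun k => ?_
  have h : Continuous fun x : (unitInterval × X.E0) × (ℝ × (Fin k → unitInterval)) =>
      (x.1.2, ((max x.2.1 0 + 1, Fin.snoc (α := fun _ => unitInterval) x.2.2 x.1.1) :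
        ℝ × (Fin (k + 1) → unitInterval))) := by
    refine Continuous.prodMk (by fun_prop) (Continuous.prodMk (by fun_prop) ?_)
    exact (snoc_continuous k).comp (Continuous.prodMk (by fun_prop) (by fun_prop))
  exact (X.continuous_eval_E0 (k + 1)).comp h

/-- evaluation at the last coordinate -/
def Prespectrum.str0 (X : Prespectrum) : C(unitInterval × X.E0, X.up.E0) :=
  ⟨X.str0Fun, X.str0_continuous⟩

theorem Prespectrum.str0_apply (X : Prespectrum) (s : unitInterval) (E : X.E0) (k : ℕ) (t : ℝ)
    (v : Fin k → unitInterval) : (X.str0 (s, E)).1 k (t, v) =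
      E.1 (k + 1) (max t 0 + 1, Fin.snoc (α := fun _ => unitInterval) v s) := rfl

theorem Prespectrum.str0_bd (X : Prespectrum) (s : unitInterval) (E : X.E0)
    (hs : s = 0 ∨ s = 1) : X.str0 (s, E) = X.up.E0.pt := by
  refine Prespectrum.E0_ext (X := X.up) fun k t v => ?_
  rw [X.str0_apply]
  exact E.2.2.2 (k + 1) _ _ (snoc_boundary (Or.inr hs))

theorem Prespectrum.str0_pt (X : Prespectrum) (s : unitInterval) :
    X.str0 (s, X.E0.pt) = X.up.E0.pt := rfl

/-! ## The prespectrum `free` -/

/-- the spaces of `X.free` -/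
def freeSp : ℕ → Prespectrum → PT
  | 0, X => X.E0
  | n + 1, X => freeSp n X.up

/-- the structure maps of `X.free` -/
def freeStr : ∀ (n : ℕ) (X : Prespectrum), C(unitInterval × freeSp n X, freeSp (n + 1) X)
  | 0, X => X.str0
  | n + 1, X => freeStr n X.up

theorem freeStr_bd : ∀ (n : ℕ) (X : Prespectrum) (s : unitInterval) (x : freeSp n X)
    (_ : s = 0 ∨ s = 1), freeStr n X (s, x) = (freeSp (n + 1) X).pt
  | 0, X, s, x, hs => X.str0_bd s x hs
  | n + 1, X, s, x, hs => freeStr_bd n X.up s x hs

theorem freeStr_pt : ∀ (n : ℕ) (X : Prespectrum) (s : unitInterval),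
    freeStr n X (s, (freeSp n X).pt) = (freeSp (n + 1) X).pt
  | 0, X, s => X.str0_pt s
  | n + 1, X, s => freeStr_pt n X.up s

/-- the replacement of a prespectrum -/
def Prespectrum.free (X : Prespectrum) : Prespectrum where
  sp n := freeSp n X
  str n := freeStr n X
  str_zero n x := freeStr_bd n X 0 x (Or.inl rfl)
  str_one n x := freeStr_bd n X 1 x (Or.inr rfl)
  str_pt n t := freeStr_pt n X t

/-! ## The map `X → X.free` -/

/-- the iterated structure map -/
def Prespectrum.it (X : Prespectrum) : ∀ k : ℕ, (Fin k → unitInterval) × X.sp 0 → X.sp k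
  | 0, x => x.2
  | k + 1, x => X.str k (x.1 0, Prespectrum.it X k (fun i => x.1 i.succ, x.2))

theorem Prespectrum.it_continuous (X : Prespectrum) (k : ℕ) : Continuous (X.it k) := by
  induction k with
  | zero => exact continuous_snd
  | succ k ih =>
    refine (X.str k).continuous.comp (Continuous.prodMk (by fun_prop) (ih.comp ?_))
    exact (continuous_pi fun i => (continuous_apply i.succ).comp continuous_fst).prodMk
      continuous_snd

theorem Prespectrum.it_bd (X : Prespectrum) (k : ℕ) (v : Fin k → unitInterval)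
    (hv : v ∈ Cube.boundary (Fin k)) (x : X.sp 0) : X.it k (v, x) = (X.sp k).pt := by
  induction k with
  | zero =>
    obtain ⟨i, -⟩ := hv
    exact i.elim0
  | succ k ih =>
    obtain ⟨i, hi⟩ := hv
    refine X.str_bd hi fun j hj => ?_
    subst hj
    exact ih _ ⟨j, hi⟩

theorem Prespectrum.it_pt (X : Prespectrum) (k : ℕ) (v : Fin k → unitInterval) :
    X.it k (v, (X.sp 0).pt) = (X.sp k).pt := by
  induction k with
  | zero => rfl
  | succ k ih =>
    change X.str k (v 0, X.it k (fun i => v i.succ, (X.sp 0).pt)) = _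
    rw [ih, X.str_pt]

theorem snoc_zero' {k : ℕ} (v : Fin (k + 1) → unitInterval) (s : unitInterval) :
    (Fin.snoc (α := fun _ => unitInterval) v s : Fin (k + 2) → unitInterval) 0 = v 0 := by
  rw [show (0 : Fin (k + 2)) = (0 : Fin (k + 1)).castSucc from rfl, Fin.snoc_castSucc]

theorem snoc_succ' {k : ℕ} (v : Fin (k + 1) → unitInterval) (s : unitInterval) :
    (fun i : Fin (k + 1) => (Fin.snoc (α := fun _ => unitInterval) v s :
      Fin (k + 2) → unitInterval) i.succ) =
      Fin.snoc (α := fun _ => unitInterval) (fun i : Fin k => v i.succ) s := by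
  funext i
  refine Fin.lastCases ?_ (fun j => ?_) i
  · rw [Fin.succ_last, Fin.snoc_last, Fin.snoc_last]
  · rw [Fin.succ_castSucc, Fin.snoc_castSucc, Fin.snoc_castSucc]

theorem Prespectrum.it_snoc (X : Prespectrum) (k : ℕ) (v : Fin k → unitInterval)
    (s : unitInterval) (x : X.sp 0) :
    X.it (k + 1) (Fin.snoc (α := fun _ => unitInterval) v s, x) =
      X.up.it k (v, X.str 0 (s, x)) := by
  induction k with
  | zero => rfl
  | succ k ih =>
    change X.str (k + 1) ((Fin.snoc (α := fun _ => unitInterval) v s : Fin (k + 2) → unitInterval) 0,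
      X.it (k + 1) (fun i => (Fin.snoc (α := fun _ => unitInterval) v s :
        Fin (k + 2) → unitInterval) i.succ, x)) =
      X.str (k + 1) (v 0, X.up.it k (fun i => v i.succ, X.str 0 (s, x)))
    rw [snoc_zero', snoc_succ', ih]

/-- the map `X 0 → E0` -/
def Prespectrum.j0 (X : Prespectrum) : C(X.sp 0, X.E0) :=
  ⟨fun x => ⟨fun k => ⟨fun y => X.it k (y.2, x), (X.it_continuous k).comp
      (continuous_snd.prodMk continuous_const)⟩, fun _ _ _ => rfl, fun k t s v _ => by
        change X.str k ((Fin.cons s v : Fin (k + 1) → unitInterval) 0,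
          X.it k (fun i => (Fin.cons s v : Fin (k + 1) → unitInterval) i.succ, x)) = _
        simp only [Fin.cons_zero, Fin.cons_succ]
        rfl, fun k t v hv => X.it_bd k v hv x⟩,
    Prespectrum.continuous_E0 fun k => (X.it_continuous k).comp
      (Continuous.prodMk (by fun_prop) (by fun_prop))⟩

theorem Prespectrum.j0_apply (X : Prespectrum) (x : X.sp 0) (k : ℕ) (t : ℝ)
    (v : Fin k → unitInterval) : (X.j0 x).1 k (t, v) = X.it k (v, x) := rfl

theorem Prespectrum.j0_str (X : Prespectrum) (s : unitInterval) (x : X.sp 0) :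
    X.up.j0 (X.str 0 (s, x)) = X.str0 (s, X.j0 x) := by
  refine Prespectrum.E0_ext (X := X.up) fun k t v => ?_
  rw [X.str0_apply, X.j0_apply]
  exact (X.it_snoc k v s x).symm

/-- the maps `X n → X.free n` -/
def toFreeMap : ∀ (n : ℕ) (X : Prespectrum), C(X.sp n, freeSp n X)
  | 0, X => X.j0
  | n + 1, X => toFreeMap n X.up

theorem toFreeMap_pt : ∀ (n : ℕ) (X : Prespectrum), toFreeMap n X (X.sp n).pt = (freeSp n X).pt
  | 0, X => Prespectrum.E0_ext fun k _ v => X.it_pt k v
  | n + 1, X => toFreeMap_pt n X.up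

theorem toFreeMap_str : ∀ (n : ℕ) (X : Prespectrum) (s : unitInterval) (x : X.sp n),
    toFreeMap (n + 1) X (X.str n (s, x)) = freeStr n X (s, toFreeMap n X x)
  | 0, X, s, x => X.j0_str s x
  | n + 1, X, s, x => toFreeMap_str n X.up s x

/-- the map `X → X.free` -/
def Prespectrum.toFree (X : Prespectrum) : X ⟶ X.free where
  map n := toFreeMap n X
  map_pt n := toFreeMap_pt n X
  map_str n t x := toFreeMap_str n X t x

/-! ## The retraction -/

/-- the maps `X.free n → X n` -/
def freeRet : ∀ (n : ℕ) (X : Prespectrum), C(freeSp n X, X.sp n)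
  | 0, X => ⟨fun E => E.1 0 (0, Fin.elim0),
      (X.continuous_eval_E0 0).comp (continuous_id.prodMk continuous_const)⟩
  | n + 1, X => freeRet n X.up

theorem freeRet_pt : ∀ (n : ℕ) (X : Prespectrum), freeRet n X (freeSp n X).pt = (X.sp n).pt
  | 0, _ => rfl
  | n + 1, X => freeRet_pt n X.up

theorem freeRet_toFreeMap : ∀ (n : ℕ) (X : Prespectrum) (x : X.sp n),
    freeRet n X (toFreeMap n X x) = x
  | 0, _, _ => rfl
  | n + 1, X, x => freeRet_toFreeMap n X.up x

/-- the contraction of `E0` -/
def Prespectrum.con0Fun (X : Prespectrum) (x : unitInterval × X.E0) : X.E0 :=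
  ⟨fun k => ⟨fun y => x.2.1 k ((x.1 : ℝ) * max 0 (min y.1 k), y.2),
      (x.2.1 k).continuous.comp (by fun_prop)⟩, by
    intro k t v
    change x.2.1 k ((x.1 : ℝ) * max 0 (min t k), v) =
      x.2.1 k ((x.1 : ℝ) * max 0 (min (max 0 (min t k)) k), v)
    have hk : (0 : ℝ) ≤ k := Nat.cast_nonneg k
    have h1 : max 0 (min (max 0 (min t (k : ℝ))) k) = max 0 (min t k) := by
      rw [min_eq_left (max_le hk (min_le_right _ _)), max_eq_right (le_max_left _ _)]
    rw [h1], by
    intro k t s v ht
    change x.2.1 (k + 1) ((x.1 : ℝ) * max 0 (min t ((k + 1 : ℕ) : ℝ)), Fin.cons s v) =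
      X.str k (s, x.2.1 k ((x.1 : ℝ) * max 0 (min t k), v))
    have hk : (0 : ℝ) ≤ k := Nat.cast_nonneg k
    have h1 : min t ((k + 1 : ℕ) : ℝ) = t := min_eq_left (by push_cast; linarith)
    rw [h1, min_eq_left ht]
    refine x.2.2.2.1 k _ s v ?_
    have h2 : (x.1 : ℝ) * max 0 t ≤ 1 * max 0 t :=
      mul_le_mul_of_nonneg_right x.1.2.2 (le_max_left _ _)
    linarith [max_le hk ht], by
    intro k t v hv
    exact x.2.2.2.2 k _ v hv⟩

theorem Prespectrum.con0_continuous (X : Prespectrum) : Continuous X.con0Fun := by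
  refine Prespectrum.continuous_E0 fun k => ?_
  have h : Continuous fun x : (unitInterval × X.E0) × (ℝ × (Fin k → unitInterval)) =>
      (x.1.2, (((x.1.1 : ℝ) * max 0 (min x.2.1 k), x.2.2) : ℝ × (Fin k → unitInterval))) := by
    fun_prop
  exact (X.continuous_eval_E0 k).comp h

theorem Prespectrum.E0_zero {X : Prespectrum} (E : X.E0) (k : ℕ) (v : Fin k → unitInterval) :
    E.1 k (0, v) = X.it k (v, E.1 0 (0, Fin.elim0)) := by
  induction k with
  | zero =>
    have hv : v = Fin.elim0 := Subsingleton.elim _ _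
    rw [hv]
    rfl
  | succ k ih =>
    have h1 := E.2.2.1 k 0 (v 0) (fun i => v i.succ) (Nat.cast_nonneg k)
    have h2 : (Fin.cons (v 0) (fun i : Fin k => v i.succ) : Fin (k + 1) → unitInterval) = v := by
      funext i
      refine Fin.cases ?_ (fun j => ?_) i
      · rw [Fin.cons_zero]
      · rw [Fin.cons_succ]
    rw [h2, ih] at h1
    exact h1

/-- the contraction of `X.free n` -/
def freeCon : ∀ (n : ℕ) (X : Prespectrum), C(unitInterval × freeSp n X, freeSp n X)
  | 0, X => ⟨X.con0Fun, X.con0_continuous⟩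
  | n + 1, X => freeCon n X.up

theorem freeCon_pt : ∀ (n : ℕ) (X : Prespectrum) (s : unitInterval),
    freeCon n X (s, (freeSp n X).pt) = (freeSp n X).pt
  | 0, _, _ => rfl
  | n + 1, X, s => freeCon_pt n X.up s

theorem freeCon_one : ∀ (n : ℕ) (X : Prespectrum) (x : freeSp n X), freeCon n X (1, x) = x
  | 0, X, E => Prespectrum.E0_ext fun k t v => by
    change E.1 k (((1 : unitInterval) : ℝ) * max 0 (min t k), v) = _
    rw [E.2.1 k t v, Set.Icc.coe_one, one_mul]
  | n + 1, X, x => freeCon_one n X.up x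

theorem freeCon_zero : ∀ (n : ℕ) (X : Prespectrum) (x : freeSp n X),
    freeCon n X (0, x) = toFreeMap n X (freeRet n X x)
  | 0, X, E => Prespectrum.E0_ext fun k t v => by
    change E.1 k (((0 : unitInterval) : ℝ) * max 0 (min t k), v) = X.it k (v, _)
    rw [Set.Icc.coe_zero, zero_mul]
    exact Prespectrum.E0_zero E k v
  | n + 1, X, x => freeCon_zero n X.up x

/-- postcomposition with a pointed homotopy -/
theorem PMap.homotopic_post {K : LC} {Y Z : PT} (h : C(unitInterval × Y, Z))
    (hpt : ∀ s, h (s, Y.pt) = Z.pt) (f : PMap K Y) (f0 f1 : PMap K Z)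
    (h0 : ∀ k, f0 k = h (0, f k)) (h1 : ∀ k, f1 k = h (1, f k)) : f0.Homotopic f1 := by
  refine ⟨PMap.ofEmb (K := LC.I.prod K) (P := unitInterval × OnePoint K)
    (fun x => (x.1, (x.2 : OnePoint K)))
    (IsEmbedding.id.prodMap OnePoint.isOpenEmbedding_coe.isEmbedding)
    (fun x => h (x.1, f.plus x.2))
    (h.continuous.comp (continuous_fst.prodMk (f.continuous_plus.comp continuous_snd))) ?_,
    fun k => (h0 k).symm, fun k => (h1 k).symm⟩
  rintro ⟨s, x⟩ hx
  induction x using OnePoint.rec with
  | infty => exact hpt s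
  | coe k => exact absurd ⟨(s, k), rfl⟩ hx

theorem po_toFree_homotopic (X : Prespectrum) {n : ℕ} {K : LC} (f : PMap K (X.free.sp n)) :
    f.Homotopic (Prespectrum.Hom.po X.toFree (PMap.post (Z := X.sp n) (freeRet n X)
      (freeRet n X).continuous (freeRet_pt n X) f)) := by
  refine PMap.Homotopic.symm ?_
  exact PMap.homotopic_post (Y := freeSp n X) (Z := freeSp n X) (freeCon n X) (freeCon_pt n X) f _ _
    (fun k => (freeCon_zero n X (f k)).symm) (fun k => (freeCon_one n X (f k)).symm)

/-- A map of prespectra that is bijective on homotopy classes in every level is an isomorphism on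
graded functors. -/
theorem isIso_of_levelwise {X Y : Prespectrum} (w : X ⟶ Y)
    (hi : ∀ (n : ℕ) (K : LC) (f : PMap K (X.sp n)),
      (Prespectrum.Hom.po w f).Homotopic (PMap.zero _ _) → f.Homotopic (PMap.zero _ _))
    (hs : ∀ (n : ℕ) (K : LC) (f : PMap K (Y.sp n)), ∃ f', f.Homotopic (Prespectrum.Hom.po w f')) :
    IsIso (hP.map w) := by
  have hi' : ∀ (N n : ℕ) (K : LC) (f : PMap K (X.sp n)),
      Y.Nul N (Prespectrum.Hom.po w f) → X.Nul N f := by
    intro N
    induction N with
    | zero => exact fun n K f h => hi n K f h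
    | succ N ih =>
      intro n K f h
      refine ih (n + 2) (LC.C.prod K) (X.sigC f) ?_
      rw [Prespectrum.Hom.po_sigC]
      exact h
  refine GF.isIso_of_bij68 _ fun b K => ⟨?_, ?_⟩
  · refine (injective_iff_map_eq_zero ((((hP.map w).app b).app (op K)).hom)).2 fun x hx => ?_
    obtain ⟨n, hn⟩ := X.exists_st b K x
    induction n generalizing b K with
    | zero =>
      obtain ⟨f, rfl⟩ := hn
      have h1 := Prespectrum.map_cl w b f
      have h2 := h1.symm.trans hx
      obtain ⟨N, hN⟩ := (Y.cl_eq_zero_iff b _).1 h2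
      exact (X.cl_eq_zero_iff b _).2 ⟨N, hi' N _ _ f hN⟩
    | succ n ih =>
      have h1 := ih (b + 1) (Test.cx.obj K) _ (by
        have h2 := app_sig (hP.map w) b K x
        refine h2.trans ?_
        have h3 : ((hP.map w).app b).app (op K) x = 0 := hx
        rw [h3]
        exact map_zero (((hP.obj Y).σ b).hom.app (op K)).hom) hn
      apply sig_inj _ b K
      exact h1.trans (map_zero (((hP.obj X).σ b).hom.app (op K)).hom).symm
  · intro y
    obtain ⟨n, hn⟩ := Y.exists_st b K y
    induction n generalizing b K with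
    | zero =>
      obtain ⟨f, rfl⟩ := hn
      obtain ⟨f', hf⟩ := hs (2 * b) K.obj f
      refine ⟨X.cl b f', ?_⟩
      rw [Y.cl_homotopic b hf]
      exact Prespectrum.map_cl w b f'
    | succ n ih =>
      obtain ⟨x, hx⟩ := ih (b + 1) (Test.cx.obj K) _ hn
      refine ⟨sigInv _ b K x, ?_⟩
      apply sig_inj (hP.obj Y) b K
      rw [← app_sig, sig_sigInv]
      exact hx

/-- `X → X.free` is a stable equivalence -/
theorem Prespectrum.isIso_toFree (X : Prespectrum) : IsIso (hP.map X.toFree) := by
  refine isIso_of_levelwise X.toFree (fun n K f h => ?_) (fun n K f => ?_)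
  · obtain ⟨H, h0, h1⟩ := h
    refine ⟨PMap.post (Y := freeSp n X) (Z := X.sp n) (freeRet n X) (freeRet n X).continuous
      (freeRet_pt n X) H, fun k => ?_, fun k => ?_⟩
    · change freeRet n X (H (0, k)) = f k
      rw [h0]
      exact freeRet_toFreeMap n X (f k)
    · change freeRet n X (H (1, k)) = (X.sp n).pt
      rw [h1]
      exact freeRet_pt n X
  · exact ⟨_, po_toFree_homotopic X f⟩

/-! ## Maps to `Y.free` -/

/-- a map up to homotopy -/
structure Coh (T Y : Prespectrum) where
  a : ∀ n, C(T.sp n, Y.sp n)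
  a_pt : ∀ n, a n (T.sp n).pt = (Y.sp n).pt
  b : ∀ n, C(unitInterval × (unitInterval × T.sp n), Y.sp (n + 1))
  b_zero : ∀ n s x, b n (0, (s, x)) = Y.str n (s, a n x)
  b_one : ∀ n s x, b n (1, (s, x)) = a (n + 1) (T.str n (s, x))
  b_bd : ∀ n t s x, s = 0 ∨ s = 1 → b n (t, (s, x)) = (Y.sp (n + 1)).pt
  b_pt : ∀ n t s, b n (t, (s, (T.sp n).pt)) = (Y.sp (n + 1)).pt

namespace Coh

/-- the shift -/
def up {T Y : Prespectrum} (D : Coh T Y) : Coh T.up Y.up where
  a n := D.a (n + 1)
  a_pt n := D.a_pt (n + 1)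
  b n := D.b (n + 1)
  b_zero n := D.b_zero (n + 1)
  b_one n := D.b_one (n + 1)
  b_bd n := D.b_bd (n + 1)
  b_pt n := D.b_pt (n + 1)

variable {T Y : Prespectrum} (D : Coh T Y)

/-- the components -/
def ek : ∀ k : ℕ, ℝ × (Fin k → unitInterval) × T.sp 0 → Y.sp k
  | 0, x => D.a 0 x.2.2
  | k + 1, x => if x.1 ≤ k then Y.str k (x.2.1 0, ek k (x.1, (fun i => x.2.1 i.succ), x.2.2))
      else D.b k (Set.projIcc 0 1 zero_le_one (x.1 - k), (x.2.1 0,
        T.it k ((fun i => x.2.1 i.succ), x.2.2)))

theorem ek_succ_le {k : ℕ} {t : ℝ} (h : t ≤ k) (v : Fin (k + 1) → unitInterval) (x : T.sp 0) :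
    D.ek (k + 1) (t, v, x) = Y.str k (v 0, D.ek k (t, (fun i => v i.succ), x)) := if_pos h

theorem ek_succ_gt {k : ℕ} {t : ℝ} (h : k < t) (v : Fin (k + 1) → unitInterval) (x : T.sp 0) :
    D.ek (k + 1) (t, v, x) = D.b k (Set.projIcc 0 1 zero_le_one (t - k), (v 0,
        T.it k ((fun i => v i.succ), x))) := if_neg (not_le.2 h)

theorem ek_ge {k : ℕ} {t : ℝ} (h : k ≤ t) (v : Fin k → unitInterval) (x : T.sp 0) :
    D.ek k (t, v, x) = D.a k (T.it k (v, x)) := by
  cases k with
  | zero => rfl
  | succ k =>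
    push_cast at h
    rw [D.ek_succ_gt (by linarith), Set.projIcc_of_right_le _ (by linarith)]
    exact D.b_one k (v 0) _

theorem ek_continuous (k : ℕ) : Continuous (D.ek k) := by
  induction k with
  | zero => exact (D.a 0).continuous.comp (by fun_prop)
  | succ k ih =>
    have h1 : Continuous fun x : ℝ × (Fin (k + 1) → unitInterval) × T.sp 0 =>
        ((fun i : Fin k => x.2.1 i.succ) : Fin k → unitInterval) :=
      continuous_pi fun i => (continuous_apply i.succ).comp (continuous_fst.comp continuous_snd)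
    have h2 : Continuous fun x : ℝ × (Fin (k + 1) → unitInterval) × T.sp 0 => x.2.1 0 :=
      (continuous_apply 0).comp (continuous_fst.comp continuous_snd)
    refine Continuous.if_le (f := fun x : ℝ × (Fin (k + 1) → unitInterval) × T.sp 0 => x.1)
      (g := fun _ => (k : ℝ)) ?_ ?_ continuous_fst continuous_const ?_
    · refine (Y.str k).continuous.comp (h2.prodMk (ih.comp (continuous_fst.prodMk
        (h1.prodMk (continuous_snd.comp continuous_snd)))))
    · refine (D.b k).continuous.comp (Continuous.prodMk (continuous_projIcc.comp (by fun_prop))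
        (h2.prodMk ((T.it_continuous k).comp (h1.prodMk (continuous_snd.comp continuous_snd)))))
    · intro x hx
      rw [D.ek_ge hx.ge, hx, sub_self, Set.projIcc_of_le_left _ le_rfl]
      exact (D.b_zero k (x.2.1 0) _).symm

theorem ek_clamp (k : ℕ) (t : ℝ) (v : Fin k → unitInterval) (x : T.sp 0) :
    D.ek k (t, v, x) = D.ek k (max 0 (min t k), v, x) := by
  induction k with
  | zero => rfl
  | succ k ih =>
    have hk : (0 : ℝ) ≤ k := Nat.cast_nonneg k
    rcases le_or_gt t k with h | h
    · have h1 : min t ((k + 1 : ℕ) : ℝ) = t := min_eq_left (by push_cast; linarith)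
      rw [h1, D.ek_succ_le h, D.ek_succ_le (max_le hk h), ih, min_eq_left h]
    · have h1 : max 0 (min t ((k + 1 : ℕ) : ℝ)) = min t ((k + 1 : ℕ) : ℝ) := by
        apply max_eq_right
        apply le_min
        · linarith
        · push_cast
          linarith
      have h2 : (k : ℝ) < min t ((k + 1 : ℕ) : ℝ) := by
        apply lt_min h
        push_cast
        linarith
      rw [h1, D.ek_succ_gt h, D.ek_succ_gt h2]
      congr 2
      rcases le_total t ((k + 1 : ℕ) : ℝ) with h3 | h3
      · rw [min_eq_left h3]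
      · rw [min_eq_right h3]
        push_cast at h3 ⊢
        rw [Set.projIcc_of_right_le _ (by linarith), Set.projIcc_of_right_le _ (by linarith)]

theorem ek_bd (k : ℕ) (t : ℝ) (v : Fin k → unitInterval) (x : T.sp 0)
    (hv : v ∈ Cube.boundary (Fin k)) : D.ek k (t, v, x) = (Y.sp k).pt := by
  induction k with
  | zero =>
    obtain ⟨i, -⟩ := hv
    exact i.elim0
  | succ k ih =>
    obtain ⟨i, hi⟩ := hv
    rcases le_or_gt t k with h | h
    · rw [D.ek_succ_le h]
      refine Y.str_bd hi fun j hj => ?_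
      subst hj
      exact ih _ ⟨j, hi⟩
    · rw [D.ek_succ_gt h]
      induction i using Fin.cases with
      | zero => exact D.b_bd k _ _ _ hi
      | succ j =>
        rw [T.it_bd k (fun i => v i.succ) ⟨j, hi⟩]
        exact D.b_pt k _ _

theorem ek_pt (k : ℕ) (t : ℝ) (v : Fin k → unitInterval) :
    D.ek k (t, v, (T.sp 0).pt) = (Y.sp k).pt := by
  induction k with
  | zero => exact D.a_pt 0
  | succ k ih =>
    rcases le_or_gt t k with h | h
    · rw [D.ek_succ_le h, ih, Y.str_pt]
    · rw [D.ek_succ_gt h, T.it_pt]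
      exact D.b_pt k _ _

theorem ek_up (k : ℕ) (t : ℝ) (v : Fin k → unitInterval) (s : unitInterval) (x : T.sp 0) :
    D.up.ek k (t, v, T.str 0 (s, x)) =
      D.ek (k + 1) (max t 0 + 1, Fin.snoc (α := fun _ => unitInterval) v s, x) := by
  induction k with
  | zero =>
    rw [D.ek_ge (by push_cast; linarith [le_max_right t 0])]
    rfl
  | succ k ih =>
    have hk : (0 : ℝ) ≤ k := Nat.cast_nonneg k
    rcases le_or_gt t k with h | h
    · rw [D.up.ek_succ_le h, D.ek_succ_le (by push_cast; linarith [max_le h hk]), snoc_zero',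
        snoc_succ', ih]
      rfl
    · have h1 : max t 0 = t := max_eq_left (by linarith)
      rw [D.up.ek_succ_gt h, D.ek_succ_gt (by rw [h1]; push_cast; linarith), snoc_zero',
        snoc_succ', T.it_snoc, h1]
      have h2 : t + 1 - ((k + 1 : ℕ) : ℝ) = t - k := by push_cast; ring
      rw [h2]
      rfl

/-- the map `T 0 → E0` -/
def F0 : C(T.sp 0, Y.E0) :=
  ⟨fun x => ⟨fun k => ⟨fun y => D.ek k (y.1, y.2, x), (D.ek_continuous k).comp (by fun_prop)⟩,
      fun k t v => D.ek_clamp k t v x, fun k t s v ht => by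
        change D.ek (k + 1) (t, Fin.cons s v, x) = Y.str k (s, D.ek k (t, v, x))
        rw [D.ek_succ_le ht]
        simp only [Fin.cons_zero, Fin.cons_succ], fun k t v hv => D.ek_bd k t v x hv⟩,
    Prespectrum.continuous_E0 fun k => (D.ek_continuous k).comp (by fun_prop)⟩

theorem F0_apply (x : T.sp 0) (k : ℕ) (t : ℝ) (v : Fin k → unitInterval) :
    (D.F0 x).1 k (t, v) = D.ek k (t, v, x) := rfl

theorem F0_str (s : unitInterval) (x : T.sp 0) : D.up.F0 (T.str 0 (s, x)) = Y.str0 (s, D.F0 x) := by
  refine Prespectrum.E0_ext (X := Y.up) fun k t v => ?_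
  rw [Y.str0_apply, D.F0_apply, D.up.F0_apply]
  exact D.ek_up k t v s x

/-- the maps `T n → Y.free n` -/
def mapF : ∀ (n : ℕ) {T Y : Prespectrum}, Coh T Y → C(T.sp n, freeSp n Y)
  | 0, _, _, D => D.F0
  | n + 1, _, _, D => mapF n D.up

theorem mapF_pt : ∀ (n : ℕ) {T Y : Prespectrum} (D : Coh T Y),
    mapF n D (T.sp n).pt = (freeSp n Y).pt
  | 0, _, _, D => Prespectrum.E0_ext fun k t v => D.ek_pt k t v
  | n + 1, _, _, D => mapF_pt n D.up

theorem mapF_str : ∀ (n : ℕ) {T Y : Prespectrum} (D : Coh T Y) (s : unitInterval) (x : T.sp n),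
    mapF (n + 1) D (T.str n (s, x)) = freeStr n Y (s, mapF n D x)
  | 0, _, _, D, s, x => D.F0_str s x
  | n + 1, _, _, D, s, x => mapF_str n D.up s x

/-- the map of prespectra `T → Y.free` -/
def hom : T ⟶ Y.free where
  map n := mapF n D
  map_pt n := mapF_pt n D
  map_str n s x := mapF_str n D s x

theorem freeRet_mapF : ∀ (n : ℕ) {T Y : Prespectrum} (D : Coh T Y) (x : T.sp n),
    freeRet n Y (mapF n D x) = D.a n x
  | 0, _, _, _, _ => rfl
  | n + 1, _, _, D, x => freeRet_mapF n D.up x

/-- the map is homotopic to the given maps -/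
theorem po_hom_homotopic {n : ℕ} {K : LC} (f : PMap K (T.sp n)) :
    (Prespectrum.Hom.po D.hom f).Homotopic (Prespectrum.Hom.po Y.toFree
      (PMap.post (Z := Y.sp n) (D.a n) (D.a n).continuous (D.a_pt n) f)) := by
  have h1 := po_toFree_homotopic Y (Prespectrum.Hom.po D.hom f)
  have h2 : PMap.post (Z := Y.sp n) (freeRet n Y) (freeRet n Y).continuous (freeRet_pt n Y)
      (Prespectrum.Hom.po D.hom f) =
      PMap.post (Z := Y.sp n) (D.a n) (D.a n).continuous (D.a_pt n) f := by
    ext k
    exact freeRet_mapF n D (f k)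
  rw [h2] at h1
  exact h1

end Coh

end Pool.Agent.Helper1.Stab
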