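import Pool.Agent.Helper68.Stab.LocMV

/-! The group structure on a sequence of additive functors with suspension isomorphisms. -/

open CategoryTheory Topology Filter Set Opposite

noncomputable section

namespace Pool.Agent.Helper1.Stab

/-- A sequence of set-valued additive functors and natural bijections `F n K = F (n+1) (ℂ × K)`. -/
structure ASeq where
  F : ℕ → (LCᵒᵖ ⥤ Type)
  add : ∀ n, IsAddFun (F n)
  T : ∀ n (K : LC), (F n).obj (op K) ≃ (F (n + 1)).obj (op (LC.C.prod K))
  T_pb : ∀ n {K L : LC} (φ : PMap K L.plus) (x : (F n).obj (op L)),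
    T n K (pb (F n) φ x) = pb (F (n + 1)) (PMap.ltens LC.C φ) (T n L x)

namespace ASeq
variable (S : ASeq) (n : ℕ) {K L : LC}

/-- the group structure -/
@[reducible] def grp (n : ℕ) (K : LC) : AddCommGroup ((S.F n).obj (op K)) :=
  letI : AddCommGroup ((S.F (n + 1)).obj (op (LC.C.prod K))) := (S.add (n + 1)).grp K
  (S.T n K).addCommGroup

/-- the group -/
def G (n : ℕ) (K : LC) : Type := (S.F n).obj (op K)

instance (n : ℕ) (K : LC) : AddCommGroup (S.G n K) := S.grp n K

/-- restriction -/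
def rs (φ : PMap K L.plus) (x : S.G n L) : S.G n K := pb (S.F n) φ x

/-- suspension -/
def sg (x : S.G n K) : S.G (n + 1) (LC.C.prod K) := S.T n K x

theorem sg_inj {x y : S.G n K} (h : S.sg n x = S.sg n y) : x = y := (S.T n K).injective h

theorem sg_surj (y : S.G (n + 1) (LC.C.prod K)) : ∃ x, S.sg n x = y := (S.T n K).surjective y

theorem sg_rs (φ : PMap K L.plus) (x : S.G n L) :
    S.sg n (S.rs n φ x) = S.rs (n + 1) (PMap.ltens LC.C φ) (S.sg n x) := S.T_pb n φ x

theorem rs_id (x : S.G n K) : S.rs n (PMap.id K) x = x := pb_id _ _ _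

theorem rs_comp {M : LC} (g : PMap L M.plus) (f : PMap K L.plus) (x : S.G n M) :
    S.rs n (g.comp f) x = S.rs n f (S.rs n g x) := pb_comp _ _ _ _

theorem rs_homotopic {f g : PMap K L.plus} (h : f.Homotopic g) : S.rs n f = S.rs n g := by
  funext x
  exact congrFun (pb_homotopic (S.F n) h) x

/-- the sum defined by a map `m : K → K ⊔ K` -/
def op2 (m : PMap K (K.sum K).plus) (x y : S.G n K) : S.G n K := (S.add n).op2 m x y

theorem sg_add (x y : S.G n K) :
    S.sg n (x + y) = S.op2 (n + 1) (pinchK K) (S.sg n x) (S.sg n y) :=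
  (S.T n K).apply_symm_apply _

theorem sg_pair (x : S.G n K) (y : S.G n L) :
    S.sg n ((S.add n).pair x y : S.G n (K.sum L)) =
      S.rs (n + 1) (PMap.ofHomeo (ldist LC.C K L))
        ((S.add (n + 1)).pair (S.sg n x) (S.sg n y) :
          S.G (n + 1) ((LC.C.prod K).sum (LC.C.prod L))) := by
  have e1 : (PMap.ofHomeo (ldist LC.C K L).symm).comp (PMap.ofHomeo (ldist LC.C K L)) =
      PMap.id _ := by
    ext x
    exact congrArg OnePoint.some ((ldist LC.C K L).symm_apply_apply x)
  have key : S.rs (n + 1) (PMap.ofHomeo (ldist LC.C K L).symm)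
      (S.sg n ((S.add n).pair x y : S.G n (K.sum L))) =
        ((S.add (n + 1)).pair (S.sg n x) (S.sg n y) :
          S.G (n + 1) ((LC.C.prod K).sum (LC.C.prod L))) := by
    apply (S.add (n + 1)).pair_ext
    · refine Eq.trans ?_ ((S.add (n + 1)).pair_inl (S.sg n x) (S.sg n y)).symm
      change S.rs (n + 1) (PMap.inl (LC.C.prod K) (LC.C.prod L)) (S.rs (n + 1) _ _) = _
      rw [← S.rs_comp]
      have e2 : (PMap.ofHomeo (ldist LC.C K L).symm).comp (PMap.inl (LC.C.prod K) (LC.C.prod L)) =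
          PMap.ltens LC.C (PMap.inl K L) := by
        ext x; rfl
      rw [e2, ← S.sg_rs]
      exact congrArg (S.sg n) ((S.add n).pair_inl x y)
    · refine Eq.trans ?_ ((S.add (n + 1)).pair_inr (S.sg n x) (S.sg n y)).symm
      change S.rs (n + 1) (PMap.inr (LC.C.prod K) (LC.C.prod L)) (S.rs (n + 1) _ _) = _
      rw [← S.rs_comp]
      have e2 : (PMap.ofHomeo (ldist LC.C K L).symm).comp (PMap.inr (LC.C.prod K) (LC.C.prod L)) =
          PMap.ltens LC.C (PMap.inr K L) := by
        ext x; rfl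
      rw [e2, ← S.sg_rs]
      exact congrArg (S.sg n) ((S.add n).pair_inr x y)
  rw [← key, ← S.rs_comp, e1, S.rs_id]

theorem sg_op2 (m : PMap K (K.sum K).plus) (x y : S.G n K) :
    S.sg n (S.op2 n m x y) = S.op2 (n + 1) (Datum.cm m) (S.sg n x) (S.sg n y) := by
  change S.sg n (S.rs n m ((S.add n).pair x y : S.G n (K.sum K))) = _
  rw [S.sg_rs, S.sg_pair, ← S.rs_comp]
  rfl

/-- an operation given by a unital map is the addition -/
theorem op2_eq (m : PMap K (K.sum K).plus)
    (m1 : (((PMap.id _).copair (PMap.zero _ _)).comp m).Homotopic (PMap.id K))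
    (m2 : (((PMap.zero _ _).copair (PMap.id _)).comp m).Homotopic (PMap.id K))
    (x y : S.G n K) : S.op2 n m x y = x + y := by
  apply S.sg_inj
  rw [S.sg_add, S.sg_op2]
  refine (S.add (n + 1)).op2_eq_add (K := K) (Datum.cm m) ?_ ?_ ?_ _ _
  · have := Datum.cm_copair m (PMap.id K) (PMap.zero K K.plus)
    rw [PMap.ltens, PMap.box_id, Datum.ltens_zeroMap] at this
    rw [this, ← PMap.box_id]
    exact PMap.Homotopic.box_right _ m1
  · have := Datum.cm_copair m (PMap.zero K K.plus) (PMap.id K)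
    rw [Datum.ltens_zeroMap, PMap.ltens, PMap.box_id] at this
    rw [this, ← PMap.box_id]
    exact PMap.Homotopic.box_right _ m2
  · rw [Datum.cm_interchange]
    exact PMap.Homotopic.refl _

/-- suspension is additive -/
theorem sg_add' (x y : S.G n K) : S.sg n (x + y) = S.sg n x + S.sg n y := by
  rw [S.sg_add]
  exact S.op2_eq (n + 1) (pinchK K) (pinchK_unit_left K) (pinchK_unit_right K) _ _

theorem rs_op2 (φ : PMap K L.plus) (x y : S.G n (LC.C.prod L)) :
    S.rs n (PMap.ltens LC.C φ) (S.op2 n (pinchK L) x y) =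
      S.op2 n (pinchK K) (S.rs n (PMap.ltens LC.C φ) x) (S.rs n (PMap.ltens LC.C φ) y) :=
  (S.add n).add_pb φ x y

/-- restriction is additive -/
theorem rs_add (φ : PMap K L.plus) (x y : S.G n L) :
    S.rs n φ (x + y) = S.rs n φ x + S.rs n φ y := by
  apply S.sg_inj
  rw [S.sg_rs, S.sg_add, S.sg_add, S.rs_op2, S.sg_rs, S.sg_rs]

/-- restriction as a homomorphism -/
def rsHom (φ : PMap K L.plus) : S.G n L →+ S.G n K := AddMonoidHom.mk' (S.rs n φ) (S.rs_add n φ)

/-- suspension as an isomorphism -/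
def sgEquiv (K : LC) : S.G n K ≃+ S.G (n + 1) (LC.C.prod K) :=
  { S.T n K with map_add' := S.sg_add' n }

theorem rs_zero (φ : PMap K L.plus) : S.rs n φ (0 : S.G n L) = 0 := (S.rsHom n φ).map_zero

theorem zero_eq : (0 : S.G n K) = (S.add n).zero K := by
  have h1 : S.rs n (PMap.zero K K.plus) (0 : S.G n K) = (S.add n).zero K :=
    (S.add n).pb_zeroMap _
  rw [← h1, S.rs_zero]

theorem rs_zeroMap (x : S.G n L) : S.rs n (PMap.zero K L.plus) x = 0 := by
  rw [S.zero_eq]
  exact (S.add n).pb_zeroMap x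

end ASeq

end Pool.Agent.Helper1.Stab
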