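import Pool.Agent.Helper68.Stab.LocHom
import Pool.Agent.Helper68.Stab.Unstable

/-! Permutations act trivially up to homotopy; `Hom(-, Z)` is an additive functor. -/

open Topology Filter Set CategoryTheory Opposite

noncomputable section

namespace Pool.Agent.Helper1.Stab

theorem PMap.ofHomeo_prodCongr {K L Z W : LC} (a : K ≃ₜ L) (b : Z ≃ₜ W) :
    PMap.ofHomeo (K := K.prod Z) (L := L.prod W) (a.prodCongr b) =
      (PMap.ofHomeo a).box (PMap.ofHomeo b) := by
  ext x; rfl

/-- maps of `X × (K ⊔ L)` with homotopic restrictions are homotopic -/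
theorem PMap.Homotopic.of_sum {X K L : LC} {Y : PT} {f g : PMap (X.prod (K.sum L)) Y}
    (h1 : (f.comp (PMap.ltens X (PMap.inl K L))).Homotopic (g.comp (PMap.ltens X (PMap.inl K L))))
    (h2 : (f.comp (PMap.ltens X (PMap.inr K L))).Homotopic (g.comp (PMap.ltens X (PMap.inr K L)))) :
    f.Homotopic g := by
  have key : ∀ f : PMap (X.prod (K.sum L)) Y, f =
      ((f.comp (PMap.ltens X (PMap.inl K L))).copair (f.comp (PMap.ltens X (PMap.inr K L)))).comp
        (PMap.ofHomeo (ldist X K L)) := by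
    intro f
    ext ⟨x, k | k⟩ <;> rfl
  rw [key f, key g]
  exact (h1.copair h2).comp_left _

namespace Datum
variable {D : Datum}

section
variable {ι κ l ι' κ' : Type} [Fintype ι] [Fintype κ] [Fintype l] [Fintype ι'] [Fintype κ']
variable {K L M N Z W : LC}

/-- permutations of the elements of a stage act trivially up to homotopy -/
theorem re_perm (e : Equiv.Perm ι) (f : D.Rep ι K Z) : PMap.Homotopic (f.re e) f := by
  have hA : (PMap.ofHomeo (D.reA e.symm)).Homotopic (PMap.id (D.A ι)) := by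
    have h1 := rotC (n := ι × Option D.w) (e.symm.prodCongr (Equiv.refl _))
    have h2 : PMap.ofHomeo (D.reA e.symm) =
        PMap.ofHomeo (cperm (n := ι × Option D.w) (e.symm.prodCongr (Equiv.refl _))) := by
      ext v; rfl
    rw [h2]
    exact h1
  have hB : (PMap.ofHomeo (D.reB e)).Homotopic (PMap.id (D.B ι)) := by
    have h1 := rotC (n := ι × Option D.u) (e.prodCongr (Equiv.refl _))
    have h3 := rotG (κ := ι × Option D.a) (e.prodCongr (Equiv.refl _))
    have h2 : PMap.ofHomeo (D.reB e) =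
        (PMap.ofHomeo (cperm (n := ι × Option D.u) (e.prodCongr (Equiv.refl _)))).box
          (PMap.ofHomeo (K := LC.G (ι × Option D.a)) (L := LC.G (ι × Option D.a))
            (GK.reindex (e.prodCongr (Equiv.refl _)))) := by
      ext v; rfl
    rw [h2, ← PMap.box_id]
    exact h1.box h3
  have h4 : f = ((PMap.id (D.B ι)).tens Z).comp (PMap.comp f ((PMap.id (D.A ι)).tens K)) := by
    rw [PMap.tens, PMap.tens, PMap.box_id, PMap.box_id, PMap.comp_id, PMap.id_comp]
  have h5 : PMap.Homotopic (f.re e)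
      (((PMap.id (D.B ι)).tens Z).comp (PMap.comp f ((PMap.id (D.A ι)).tens K))) :=
    (hB.box_left _).comp (PMap.Homotopic.comp_right _ (hA.box_left _))
  rw [← h4] at h5
  exact h5

/-- equality of classes at the same stage -/
theorem cls_eq_same {f g : D.Rep ι K Z} (h : cls f = cls g) :
    ∃ n : ℕ, PMap.Homotopic (f.stab (Fin n)) (g.stab (Fin n)) := by
  obtain ⟨α, β, hα, hβ, e, he⟩ := (cls_eq_iff f g).1 h
  have hc : Fintype.card α = Fintype.card β := by
    have h1 := Fintype.card_congr e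
    rw [Fintype.card_sum, Fintype.card_sum] at h1
    omega
  refine ⟨Fintype.card α, ?_⟩
  have a : α ≃ Fin (Fintype.card α) := Fintype.equivFin α
  have b : β ≃ Fin (Fintype.card α) := by rw [hc]; exact Fintype.equivFin β
  have h2 := hre he ((Equiv.refl ι).sumCongr a)
  rw [stab_re] at h2
  have h3 : g.stab β = (g.stab (Fin (Fintype.card α))).re ((Equiv.refl ι).sumCongr b.symm) :=
    (stab_re b.symm g).symm
  rw [h3, re_re, re_re] at h2
  exact h2.trans (re_perm _ _)

/-- two elements have representatives at a common stage -/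
theorem exists_common (x : D.Hom K Z) (y : D.Hom L W) :
    ∃ (n : ℕ) (f : D.Rep (Fin n) K Z) (g : D.Rep (Fin n) L W), x = cls f ∧ y = cls g := by
  obtain ⟨n, f, rfl⟩ := exists_cls x
  obtain ⟨m, g, rfl⟩ := exists_cls y
  refine ⟨n + m, (f.stab (Fin m)).re finSumFinEquiv,
    (g.stab (Fin n)).re ((Equiv.sumComm _ _).trans finSumFinEquiv), ?_, ?_⟩
  · rw [cls_re, cls_stab]
  · rw [cls_re, cls_stab]

/-- the representative with given restrictions -/
def Rep.pair (f : D.Rep ι K Z) (g : D.Rep ι L Z) : D.Rep ι (K.sum L) Z :=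
  (PMap.copair f g).comp (PMap.ofHomeo (ldist (D.A ι) K L))

theorem pre_inl_pair (f : D.Rep ι K Z) (g : D.Rep ι L Z) :
    Rep.pre (PMap.inl K L) (Rep.pair f g) = f := by
  ext ⟨v, k⟩; rfl

theorem pre_inr_pair (f : D.Rep ι K Z) (g : D.Rep ι L Z) :
    Rep.pre (PMap.inr K L) (Rep.pair f g) = g := by
  ext ⟨v, k⟩; rfl

end

variable (D) in
/-- the class of a homotopy class of maps -/
def JH {K L : LC} (φ : K ⟶ L) : D.Hom K L :=
  Quotient.lift (fun f : PMap K L.plus => D.J f) (fun _ _ h => J_homotopic h) φ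

variable (D) in
/-- the functor `Hom(-, Z)` -/
def fn (Z : LC) : LCᵒᵖ ⥤ Type where
  obj K := D.Hom K.unop Z
  map {K L} φ := TypeCat.ofHom (fun x : D.Hom K.unop Z => (comp (D.JH φ.unop) x : D.Hom L.unop Z))
  map_id K := by
    ext x
    exact id_comp x
  map_comp {K L M} φ ψ := by
    ext x
    obtain ⟨φ⟩ := φ
    obtain ⟨ψ⟩ := ψ
    induction φ using HMap.ind with | _ f =>
    induction ψ using HMap.ind with | _ g =>
    change comp (D.J (f.comp g)) x = comp (D.J g) (comp (D.J f) x)
    rw [J_comp, assoc]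

theorem pb_fn {K L Z : LC} (φ : PMap K L.plus) (x : D.Hom L Z) :
    pb (D.fn Z) φ x = comp (D.J φ) x := rfl

variable (D) in
theorem isAddFun (Z : LC) : IsAddFun (D.fn Z) where
  empty := by
    refine ⟨D.hzero LC.empty Z, ?_⟩
    intro y
    induction (y : D.Hom LC.empty Z) using cls_ind with | _ n f =>
    rw [← cls_zero (Fin n)]
    congr 1
    ext ⟨v, k⟩
    exact k.elim
  sum := by
    intro K L
    constructor
    · intro x y hxy
      obtain ⟨n, f, g, hx, hy⟩ := exists_common (D := D) (K := K.sum L) (L := K.sum L)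
        (Z := Z) (W := Z) x y
      have h1 : comp (D.J (PMap.inl K L)) x = comp (D.J (PMap.inl K L)) y :=
        congrArg Prod.fst hxy
      have h2 : comp (D.J (PMap.inr K L)) x = comp (D.J (PMap.inr K L)) y :=
        congrArg Prod.snd hxy
      rw [hx, hy, J_comp_cls, J_comp_cls] at h1 h2
      obtain ⟨n1, h3⟩ := cls_eq_same h1
      obtain ⟨n2, h4⟩ := cls_eq_same h2
      have h5 := hre (hstab h3 (Fin n2)) (Equiv.sumAssoc _ _ _)
      rw [← stab_stab, ← stab_stab] at h5
      have h6 := hre (hstab h4 (Fin n1)) (Equiv.sumAssoc _ _ _)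
      rw [← stab_stab, ← stab_stab] at h6
      have h7 := hre h6 ((Equiv.refl (Fin n)).sumCongr (Equiv.sumComm (Fin n2) (Fin n1)))
      rw [stab_re, stab_re] at h7
      rw [← pre_stab, ← pre_stab] at h5 h7
      have h8 : PMap.Homotopic (f.stab (Fin n1 ⊕ Fin n2)) (g.stab (Fin n1 ⊕ Fin n2)) :=
        PMap.Homotopic.of_sum h5 h7
      have h9 := cls_homotopic h8
      rw [cls_stab, cls_stab] at h9
      rw [hx, hy]
      exact h9
    · rintro ⟨x, y⟩
      obtain ⟨n, f, g, hx, hy⟩ := exists_common (D := D) (K := K) (L := L) (Z := Z) (W := Z) x y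
      refine ⟨(cls (Rep.pair f g) : D.Hom (K.sum L) Z), Prod.ext ?_ ?_⟩
      · change comp (D.J (PMap.inl K L)) (cls (Rep.pair f g)) = x
        rw [J_comp_cls, pre_inl_pair, hx]
      · change comp (D.J (PMap.inr K L)) (cls (Rep.pair f g)) = y
        rw [J_comp_cls, pre_inr_pair, hy]

end Datum

end Pool.Agent.Helper1.Stab
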