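import Pool.Agent.Helper68.Stab.Realise

/-! Localisations of prespectra with compact levels. -/

open CategoryTheory Topology Filter Set Opposite

noncomputable section

namespace Pool.Agent.Helper1.Stab

/-! ## Multiples -/

theorem pbT_zsmul (F : Testᵒᵖ ⥤ AddCommGrpCat.{0}) {K L : Test} (f : PMap K.obj L.obj.plus)
    (n : ℤ) (x : F.obj (op L)) : pbT F f (n • x) = n • pbT F f x :=
  map_zsmul (F.map (Quiver.Hom.op (X := K) (Y := L) (tmk f))).hom n x

theorem sig_zsmul (H : GF) (b : ℕ) (K : Test) (n : ℤ) (x : (H.h b).obj (op K)) :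
    (H.σ b).hom.app (op K) (n • x) = n • (H.σ b).hom.app (op K) x :=
  map_zsmul ((H.σ b).hom.app (op K)).hom n x

theorem app_zsmul {G H : GF} (F : G ⟶ H) (b : ℕ) (K : Test) (n : ℤ) (x : (G.h b).obj (op K)) :
    (F.app b).app (op K) (n • x) = n • (F.app b).app (op K) x :=
  map_zsmul ((F.app b).app (op K)).hom n x

theorem sigInv_zsmul (H : GF) (b : ℕ) (K : Test) (n : ℤ)
    (x : (H.h (b + 1)).obj (op (Test.cx.obj K))) :
    sigInv H b K (n • x) = n • sigInv H b K x :=
  map_zsmul ((H.σ b).inv.app (op K)).hom n x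

/-- the sum of two maps `ℂ × K → M` induces the sum -/
theorem pbT_pinch {H : GF} (hH : H.Exact) (hH0 : H.Red) (b : ℕ) (K M : Test)
    (f g : PMap (Test.cx.obj K).obj M.obj.plus) (x : (H.h b).obj (op M)) :
    pbT (H.h b) (K := Test.cx.obj K) (L := M) ((PMap.copair f g).comp (pinchK K.obj)) x =
      pbT (H.h b) (K := Test.cx.obj K) (L := M) f x +
        pbT (H.h b) (K := Test.cx.obj K) (L := M) g x := by
  let L : Test := Test.cx.obj K
  let c1 : PMap (Test.dbl9 L).obj L.obj.plus :=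
    (PMap.id L.obj).copair (PMap.zero L.obj L.obj.plus)
  let c2 : PMap (Test.dbl9 L).obj L.obj.plus :=
    (PMap.zero L.obj L.obj.plus).copair (PMap.id L.obj)
  let p : PMap L.obj (Test.dbl9 L).obj.plus := pinchK K.obj
  let i1 : PMap L.obj (Test.dbl9 L).obj.plus := PMap.inl L.obj L.obj
  let i2 : PMap L.obj (Test.dbl9 L).obj.plus := PMap.inr L.obj L.obj
  let F := H.h b
  let fg : PMap (Test.dbl9 L).obj M.obj.plus := PMap.copair f g
  have p1 : ∀ (x : F.obj (op L)), pbT F p (pbT F c1 x) = x := by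
    intro x
    rw [← pbT_comp, pbT_homotopic F (pinchK_unit_left K.obj : (PMap.comp c1 p).Homotopic _)]
    exact pbT_id F L x
  have p2 : ∀ (x : F.obj (op L)), pbT F p (pbT F c2 x) = x := by
    intro x
    rw [← pbT_comp, pbT_homotopic F (pinchK_unit_right K.obj : (PMap.comp c2 p).Homotopic _)]
    exact pbT_id F L x
  have a1 : ∀ (x : F.obj (op L)), pbT F i1 (pbT F c1 x) = x := by
    intro x
    rw [← pbT_comp]
    exact pbT_id F L x
  have a2 : ∀ (x : F.obj (op L)), pbT F i2 (pbT F c2 x) = x := by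
    intro x
    rw [← pbT_comp]
    exact pbT_id F L x
  have b1 : ∀ (x : F.obj (op L)),
      pbT F i1 (pbT F c2 x) = pbT F (K := L) (L := L) (PMap.zero L.obj L.obj.plus) x := by
    intro x
    rw [← pbT_comp]
    rfl
  have b2 : ∀ (x : F.obj (op L)),
      pbT F i2 (pbT F c1 x) = pbT F (K := L) (L := L) (PMap.zero L.obj L.obj.plus) x := by
    intro x
    rw [← pbT_comp]
    rfl
  have d1 : pbT F i1 (pbT F fg x) = pbT F (K := L) (L := M) f x := by
    rw [← pbT_comp]
    rfl
  have d2 : pbT F i2 (pbT F fg x) = pbT F (K := L) (L := M) g x := by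
    rw [← pbT_comp]
    rfl
  have key : pbT F fg x = pbT F c1 (pbT F (K := L) (L := M) f x) +
      pbT F c2 (pbT F (K := L) (L := M) g x) := by
    have h := hH.dbl_zero hH0 b L
      (pbT F fg x - (pbT F c1 (pbT F (K := L) (L := M) f x) +
        pbT F c2 (pbT F (K := L) (L := M) g x)))
      (by
        change pbT F i1 _ = 0
        rw [pbT_sub, pbT_add, a1, b1, hH0.pbT_zeroMap, add_zero, d1, sub_self])
      (by
        change pbT F i2 _ = 0
        rw [pbT_sub, pbT_add, b2, a2, hH0.pbT_zeroMap, zero_add, d2, sub_self])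
    exact sub_eq_zero.1 h
  have h1 := pbT_comp F (K := L) (L := Test.dbl9 L) (M := M) fg p x
  refine h1.trans ?_
  rw [key, pbT_add, p1, p2]

/-- the `m`-fold multiple of the identity of `ℂ × K` -/
def mu (K : LC) : ℕ → PMap (LC.C.prod K) (LC.C.prod K).plus
  | 0 => PMap.zero _ _
  | m + 1 => (PMap.copair (mu K m) (PMap.id _)).comp (pinchK K)

theorem pbT_mu {H : GF} (hH : H.Exact) (hH0 : H.Red) (b : ℕ) (K : Test) (m : ℕ)
    (x : (H.h b).obj (op (Test.cx.obj K))) :
    pbT (H.h b) (K := Test.cx.obj K) (L := Test.cx.obj K) (mu K.obj m) x = (m : ℤ) • x := by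
  induction m with
  | zero =>
    rw [Nat.cast_zero, zero_smul]
    exact hH0.pbT_zeroMap b (K := Test.cx.obj K) (L := Test.cx.obj K) x
  | succ m ih =>
    have h1 := pbT_pinch hH hH0 b K (Test.cx.obj K) (mu K.obj m) (PMap.id _) x
    refine h1.trans ?_
    rw [ih, Nat.cast_succ, add_smul, one_smul]
    congr 1
    exact pbT_id (H.h b) (Test.cx.obj K) x

/-! ## Elements of the graded functor of a prespectrum with compact levels -/

namespace Levels
variable {G : Prespectrum} (L : Levels G)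

/-- the element of a map to a level -/
def el (n : ℕ) (K : Test) (h : PMap K.obj (L.K n).plus) : ((hP.obj G).h n).obj (op K) :=
  pbT ((hP.obj G).h n) (K := K) (L := L.T n) h (L.u n)

theorem ind (P : ∀ (b : ℕ) (K : Test), ((hP.obj G).h b).obj (op K) → Prop)
    (h1 : ∀ (n : ℕ) (K : Test) (h : PMap K.obj (L.K n).plus), P n K (L.el n K h))
    (h2 : ∀ (b : ℕ) (K : Test) (y : ((hP.obj G).h b).obj (op K)),
      P (b + 1) (Test.cx.obj K) (((hP.obj G).σ b).hom.app (op K) y) → P b K y)
    (b : ℕ) (K : Test) (y : ((hP.obj G).h b).obj (op K)) : P b K y := by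
  obtain ⟨n, hn⟩ := G.exists_st b K y
  induction n generalizing b K with
  | zero =>
    obtain ⟨f, rfl⟩ := hn
    rw [L.cl_fac]
    exact h1 b K (L.fac b f)
  | succ n ih => exact h2 b K y (ih (b + 1) (Test.cx.obj K) _ hn)

theorem step_u (n : ℕ) : pbT ((hP.obj G).h (n + 1)) (K := Test.cx.obj (L.T n)) (L := L.T (n + 1))
    (L.step n) (L.u (n + 1)) = ((hP.obj G).σ n).hom.app (op (L.T n)) (L.u n) :=
  L.compatible_u n

/-- the suspension of an element -/
theorem sig_el (n : ℕ) (K : Test) (h : PMap K.obj (L.K n).plus) :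
    ((hP.obj G).σ n).hom.app (op K) (L.el n K h) =
      L.el (n + 1) (Test.cx.obj K) ((L.step n).comp (PMap.ltens LC.C h)) := by
  have h1 := sig_pbT (hP.obj G) n (K := K) (L := L.T n) h (L.u n)
  rw [← L.step_u n] at h1
  have h2 := pbT_comp ((hP.obj G).h (n + 1)) (K := Test.cx.obj K) (L := Test.cx.obj (L.T n))
    (M := L.T (n + 1)) (L.step n) (PMap.ltens LC.C h) (L.u (n + 1))
  exact h1.trans h2.symm

/-- `h` becomes null-homotopic after `N` steps -/
def LN : ∀ (_ n : ℕ) {K : LC}, PMap K (L.K n).plus → Prop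
  | 0, _, _, h => h.Homotopic (PMap.zero _ _)
  | N + 1, n, _, h => LN N (n + 1) ((L.step n).comp (PMap.ltens LC.C h))

theorem ic_homotopic_zero (n : ℕ) {K : LC} (h : PMap K (L.K n).plus)
    (hh : ((L.ic n).comp h).Homotopic (PMap.zero _ _)) : h.Homotopic (PMap.zero _ _) := by
  have h1 := L.fac_homotopic n hh
  rw [L.fac_ic] at h1
  have h2 : L.fac n (PMap.zero K (G.sp (2 * n))) = PMap.zero K (L.K n).plus := by
    ext k
    exact L.ev_pt n
  rw [h2] at h1
  exact h1

theorem ln_of_nul (N : ℕ) : ∀ (n : ℕ) (K : LC) (h : PMap K (L.K n).plus),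
    G.Nul N ((L.ic n).comp h) → L.LN N n h := by
  induction N with
  | zero => exact fun n K h hh => L.ic_homotopic_zero n h hh
  | succ N ih =>
    intro n K h hh
    refine ih (n + 1) _ ((L.step n).comp (PMap.ltens LC.C h)) ?_
    have h1 : G.Nul N (G.sigC ((L.ic n).comp h)) := hh
    rw [← G.sigC_comp, ← L.ic_step, PMap.comp_assoc] at h1
    exact h1

theorem el_eq_cl (n : ℕ) (K : Test) (h : PMap K.obj (L.K n).plus) :
    L.el n K h = G.cl n ((L.ic n).comp h) := by
  unfold el
  rw [← L.cl_ic]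
  exact (G.cl_comp n (K := K) (L := L.T n) (L.ic n) h).symm

theorem exists_ln {n : ℕ} {K : Test} {h : PMap K.obj (L.K n).plus} (hh : L.el n K h = 0) :
    ∃ N, L.LN N n h := by
  rw [L.el_eq_cl] at hh
  obtain ⟨N, hN⟩ := (G.cl_eq_zero_iff n _).1 hh
  exact ⟨N, L.ln_of_nul N n K.obj h hN⟩

theorem el_homotopic {n : ℕ} {K : Test} {h h' : PMap K.obj (L.K n).plus} (hh : h.Homotopic h') :
    L.el n K h = L.el n K h' :=
  congrFun (pbT_homotopic ((hP.obj G).h n) (K := K) (L := L.T n) hh) (L.u n)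

theorem el_zero (n : ℕ) (K : Test) : L.el n K (PMap.zero _ _) = 0 :=
  (hP_red G).pbT_zeroMap n (K := K) (L := L.T n) (L.u n)

/-! ## Localisation -/

section loc

variable (m : ℕ → ℕ)

/-- the sequence with modified structure maps -/
def locSeq : CSeq := ⟨L.K, fun n => (L.step n).comp (mu (L.K n) (m n))⟩

/-- the levels -/
def locL : Levels (L.locSeq m).P := (L.locSeq m).levels L.test

theorem locL_step (n : ℕ) : (L.locL m).step n = (L.step n).comp (mu (L.K n) (m n)) :=
  (L.locSeq m).levels_step L.test n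

/-- pull-back along a modified structure map -/
theorem pbT_locStep {H : GF} (hH : H.Exact) (hH0 : H.Red) (b n : ℕ)
    (x : (H.h b).obj (op (L.T (n + 1)))) :
    pbT (H.h b) (K := Test.cx.obj (L.T n)) (L := L.T (n + 1)) ((L.locL m).step n) x =
      (m n : ℤ) • pbT (H.h b) (K := Test.cx.obj (L.T n)) (L := L.T (n + 1)) (L.step n) x := by
  rw [L.locL_step m n]
  have h1 := pbT_comp (H.h b) (K := Test.cx.obj (L.T n)) (L := Test.cx.obj (L.T n))
    (M := L.T (n + 1)) (L.step n) (mu (L.K n) (m n)) x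
  exact h1.trans (pbT_mu hH hH0 b (L.T n) (m n) _)

/-- the products of the multipliers -/
def MM : ℕ → ℤ
  | 0 => 1
  | n + 1 => m n * MM n

theorem exists_locHom : ∃ q : hP.obj G ⟶ hP.obj (L.locSeq m).P,
    ∀ n, (q.app n).app (op (L.T n)) (L.u n) = MM m n • (L.locL m).u n := by
  let H := hP.obj (L.locSeq m).P
  let u : ∀ n, (H.h n).obj (op (L.T n)) := (L.locL m).u
  refine L.yoneda_hP (L.locSeq m).P (fun n => MM m n • u n) fun n => ?_
  have h1 : pbT (H.h (n + 1)) (K := Test.cx.obj (L.T n)) (L := L.T (n + 1))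
      (L.step n) (MM m (n + 1) • u (n + 1)) =
      (H.σ n).hom.app (op (L.T n)) (MM m n • u n) := by
    have h2 := (L.locL m).step_u n
    have h3 := L.pbT_locStep m (hP_exact (L.locSeq m).P) (hP_red (L.locSeq m).P) (n + 1) n
      (u (n + 1))
    have h4 : (m n : ℤ) • pbT (H.h (n + 1)) (K := Test.cx.obj (L.T n)) (L := L.T (n + 1))
      (L.step n) (u (n + 1)) = (H.σ n).hom.app (op (L.T n)) (u n) := h3.symm.trans h2
    rw [pbT_zsmul, sig_zsmul]
    have h5 : MM m (n + 1) = MM m n * m n := mul_comm _ _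
    rw [h5, mul_smul]
    exact congrArg (fun z => MM m n • z) h4
  exact h1

/-- the morphism `s⁻¹` on the levels: the division by `s` for `s ∣ m n` -/
theorem exists_div {s : ℤ} {i : ℕ} (hs : ∀ n, i ≤ n → s ∣ m n) :
    ∃ t : hP.obj (L.locSeq m).P ⟶ hP.obj (L.locSeq m).P,
      ∀ n, s • (t.app n).app (op (L.T n)) ((L.locL m).u n) = (L.locL m).u n := by
  choose! c hc using hs
  let H := hP.obj (L.locSeq m).P
  let u : ∀ n, (H.h n).obj (op (L.T n)) := (L.locL m).u
  -- `r n x = σ⁻¹ (step n)^* x`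
  let r : ∀ n, (H.h (n + 1)).obj (op (L.T (n + 1))) → (H.h n).obj (op (L.T n)) := fun n x =>
    sigInv H n (L.T n) (pbT (H.h (n + 1)) (K := Test.cx.obj (L.T n)) (L := L.T (n + 1))
      (L.step n) x)
  have hr : ∀ n (a : ℤ) x, r n (a • x) = a • r n x := by
    intro n a x
    change sigInv H n (L.T n) _ = _
    rw [pbT_zsmul, sigInv_zsmul]
  have hru : ∀ n, (m n : ℤ) • r n (u (n + 1)) = u n := by
    intro n
    change (m n : ℤ) • sigInv H n (L.T n) _ = _
    rw [← sigInv_zsmul]
    have h2 := (L.locL m).step_u n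
    have h3 := L.pbT_locStep m (hP_exact (L.locSeq m).P) (hP_red (L.locSeq m).P) (n + 1) n
      ((L.locL m).u (n + 1))
    have h4 := h3.symm.trans h2
    refine (congrArg (sigInv H n (L.T n)) h4).trans ?_
    exact sigInv_sig H n (L.T n) (u n)
  let t : ∀ (_ n : ℕ), (H.h n).obj (op (L.T n)) := fun k => Nat.rec
    (motive := fun _ => ∀ n, (H.h n).obj (op (L.T n))) (fun n => c n • r n (u (n + 1)))
    (fun _ f n => (m n : ℤ) • r n (f (n + 1))) k
  have ht0 : ∀ n, t 0 n = c n • r n (u (n + 1)) := fun _ => rfl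
  have ht1 : ∀ k n, t (k + 1) n = (m n : ℤ) • r n (t k (n + 1)) := fun _ _ => rfl
  have hst0 : ∀ n, i ≤ n → s • t 0 n = u n := by
    intro n hn
    rw [ht0, ← mul_smul, ← hc n hn, hru]
  have hst : ∀ k n, i ≤ n + k → s • t k n = u n := by
    intro k
    induction k with
    | zero => exact fun n hn => hst0 n hn
    | succ k ih =>
      intro n hn
      rw [ht1, smul_comm, ← hr, ih (n + 1) (by omega), hru]
  have hcomp : (L.locL m).Compatible H (fun n => t (i - n) n) := by
    intro n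
    have h1 : pbT (H.h (n + 1)) (K := Test.cx.obj (L.T n)) (L := L.T (n + 1))
        ((L.locL m).step n) (t (i - (n + 1)) (n + 1)) =
        (H.σ n).hom.app (op (L.T n)) (t (i - n) n) := by
      rw [L.pbT_locStep m (hP_exact (L.locSeq m).P) (hP_red (L.locSeq m).P) (n + 1) n]
      have h2 : t (i - n) n = (m n : ℤ) • r n (t (i - (n + 1)) (n + 1)) := by
        rcases Nat.lt_or_ge n i with h | h
        · rw [show i - n = (i - (n + 1)) + 1 by omega]
        · have h9 : s • r n (t 0 (n + 1)) = r n (u (n + 1)) := by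
            rw [← hr, hst0 (n + 1) (by omega)]
          rw [show i - n = 0 by omega, show i - (n + 1) = 0 by omega, ht0, hc n h, mul_comm,
            mul_smul, h9]
      rw [h2, sig_zsmul]
      exact congrArg (fun z => (m n : ℤ) • z) (sig_sigInv H n (L.T n) _).symm
    exact h1
  obtain ⟨F, hF⟩ := (L.locL m).yoneda_hP (L.locSeq m).P (fun n => t (i - n) n) hcomp
  refine ⟨F, fun n => ?_⟩
  have h1 := hF n
  refine (congrArg (fun z => s • z) h1).trans ?_
  exact hst (i - n) n (by omega)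

theorem div_apply {s : ℤ} (t : hP.obj (L.locSeq m).P ⟶ hP.obj (L.locSeq m).P)
    (ht : ∀ n, s • (t.app n).app (op (L.T n)) ((L.locL m).u n) = (L.locL m).u n) (b : ℕ)
    (K : Test) (y : ((hP.obj (L.locSeq m).P).h b).obj (op K)) :
    s • (t.app b).app (op K) y = y := by
  refine (L.locL m).ind (fun b K y => s • (t.app b).app (op K) y = y) ?_ ?_ b K y
  · intro n K h
    change s • (t.app n).app (op K) (pbT _ (K := K) (L := L.T n) h ((L.locL m).u n)) =
      pbT _ (K := K) (L := L.T n) h ((L.locL m).u n)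
    rw [app_pbT, ← pbT_zsmul]
    exact congrArg (pbT _ (K := K) (L := L.T n) h) (ht n)
  · intro b K y hy
    apply sig_inj _ b K
    rw [sig_zsmul, ← app_sig]
    exact hy

end loc

/-- (I4-h) localisations of prespectra with compact levels -/
theorem exists_locG (S : Submonoid ℤ) : ∃ (G' : Prespectrum) (L' : Levels G')
    (q : hP.obj G ⟶ hP.obj G'), (∀ n, L'.K n = L.K n) ∧ (∀ n, T2Space (G'.sp n)) ∧
      (∀ n, CompactSpace (G'.sp n)) ∧ GF.IsLoc S q := by
  obtain ⟨e, he⟩ := (Set.to_countable (S : Set ℤ)).exists_eq_range ⟨1, S.one_mem⟩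
  have heS : ∀ i, e i ∈ S := by
    intro i
    have h1 : e i ∈ (S : Set ℤ) := by
      rw [he]
      exact mem_range_self i
    exact h1
  let a : ℕ → ℤ := fun n => ∏ i ∈ Finset.range (n + 1), e i
  let m : ℕ → ℕ := fun n => (a n).natAbs * (a n).natAbs
  have ha : ∀ n, a n ∈ S := fun n => Submonoid.prod_mem S fun i _ => heS i
  have hm : ∀ n, (m n : ℤ) = a n * a n := by
    intro n
    change (((a n).natAbs * (a n).natAbs : ℕ) : ℤ) = a n * a n
    rw [Nat.cast_mul]
    exact Int.natAbs_mul_self' (a n)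
  have hmS : ∀ n, (m n : ℤ) ∈ S := fun n => by rw [hm]; exact S.mul_mem (ha n) (ha n)
  have hMS : ∀ n, MM m n ∈ S := by
    intro n
    induction n with
    | zero => exact S.one_mem
    | succ n ih => exact S.mul_mem (hmS n) ih
  have hdvd : ∀ s ∈ S, ∃ i, ∀ n, i ≤ n → s ∣ m n := by
    intro s hs
    have h1 : s ∈ Set.range e := by
      rw [← he]
      exact hs
    obtain ⟨i, rfl⟩ := h1
    refine ⟨i, fun n hn => ?_⟩
    rw [hm]
    exact Dvd.dvd.mul_right (Finset.dvd_prod_of_mem e (Finset.mem_range.2 (by omega))) _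
  obtain ⟨q, hq⟩ := L.exists_locHom m
  -- `S` acts bijectively
  have hdiv : ∀ s ∈ S, ∃ t : hP.obj (L.locSeq m).P ⟶ hP.obj (L.locSeq m).P,
      ∀ (b : ℕ) (K : Test) (y : ((hP.obj (L.locSeq m).P).h b).obj (op K)),
        s • (t.app b).app (op K) y = y := by
    intro s hs
    obtain ⟨i, hi⟩ := hdvd s hs
    obtain ⟨t, ht⟩ := L.exists_div m hi
    exact ⟨t, L.div_apply m t ht⟩
  have hinj : ∀ s ∈ S, ∀ (b : ℕ) (K : Test) (y : ((hP.obj (L.locSeq m).P).h b).obj (op K)),
      s • y = 0 → y = 0 := by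
    intro s hs b K y hy
    obtain ⟨t, ht⟩ := hdiv s hs
    rw [← ht b K y, ← app_zsmul, hy]
    exact map_zero ((t.app b).app (op K)).hom
  have hqel : ∀ (n : ℕ) (K : Test) (h : PMap K.obj (L.K n).plus),
      (q.app n).app (op K) (L.el n K h) = MM m n • (L.locL m).el n K h := by
    intro n K h
    change (q.app n).app (op K) (pbT _ (K := K) (L := L.T n) h (L.u n)) =
      MM m n • pbT _ (K := K) (L := L.T n) h ((L.locL m).u n)
    rw [app_pbT, ← pbT_zsmul]
    exact congrArg (pbT _ (K := K) (L := L.T n) h) (hq n)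
  -- null-homotopic in `G'` implies torsion in `G`
  have hnull : ∀ (N n : ℕ) (K : Test) (h : PMap K.obj (L.K n).plus), (L.locL m).LN N n h →
      ∃ s ∈ S, s • L.el n K h = 0 := by
    intro N
    induction N with
    | zero =>
      intro n K h hh
      have h1 : L.el n K h = L.el n K (PMap.zero _ _) := L.el_homotopic hh
      exact ⟨1, S.one_mem, by rw [one_smul, h1, L.el_zero]⟩
    | succ N ih =>
      intro n K h hh
      obtain ⟨s, hs, h1⟩ := ih (n + 1) (Test.cx.obj K)
        (((L.locL m).step n).comp (PMap.ltens LC.C h)) hh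
      refine ⟨s * m n, S.mul_mem hs (hmS n), ?_⟩
      apply sig_inj (hP.obj G) n K
      rw [sig_zsmul, mul_smul]
      have h2 : L.el (n + 1) (Test.cx.obj K) (((L.locL m).step n).comp (PMap.ltens LC.C h)) =
          (m n : ℤ) • ((hP.obj G).σ n).hom.app (op K) (L.el n K h) := by
        have h3 := pbT_comp ((hP.obj G).h (n + 1)) (K := Test.cx.obj K)
          (L := Test.cx.obj (L.T n)) (M := L.T (n + 1)) ((L.locL m).step n) (PMap.ltens LC.C h)
          (L.u (n + 1))
        have h4 := L.pbT_locStep m (hP_exact G) (hP_red G) (n + 1) n (L.u (n + 1))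
        have h5 := L.step_u n
        rw [h4, h5, pbT_zsmul] at h3
        refine h3.trans ?_
        congr 1
        exact (sig_pbT (hP.obj G) n (K := K) (L := L.T n) h (L.u n)).symm
      rw [← h2, h1]
      exact (map_zero (((hP.obj G).σ n).hom.app (op K)).hom).symm
  refine ⟨(L.locSeq m).P, L.locL m, q, fun _ => rfl, fun n => CSeq.t2 n _,
    fun n => CSeq.compact n _, fun b K => ?_⟩
  refine ⟨fun s => ?_, fun y => ?_, fun {x₁ x₂} hx => ?_⟩
  · obtain ⟨t, ht⟩ := hdiv s s.2
    rw [Module.End.isUnit_iff]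
    refine ⟨fun y y' hy => ?_, fun y => ⟨(t.app b).app (op K) y, ht b K y⟩⟩
    have h1 : (s : ℤ) • y = (s : ℤ) • y' := hy
    have h3 : (s : ℤ) • (y - y') = (s : ℤ) • y - (s : ℤ) • y' := zsmul_sub y y' (s : ℤ)
    have h2 := hinj s s.2 b K (y - y') (h3.trans (sub_eq_zero.2 h1))
    exact sub_eq_zero.1 h2
  · have key := (L.locL m).ind (fun b K y => ∃ (x : ((hP.obj G).h b).obj (op K)) (s : ℤ),
      s ∈ S ∧ s • y = (q.app b).app (op K) x)
      (fun n K h => ⟨L.el n K h, MM m n, hMS n, (hqel n K h).symm⟩)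
      (by
        rintro b K y ⟨x, s, hs, hx⟩
        refine ⟨sigInv _ b K x, s, hs, ?_⟩
        apply sig_inj _ b K
        rw [sig_zsmul, ← app_sig, sig_sigInv]
        exact hx) b K y
    obtain ⟨x, s, hs, hx⟩ := key
    exact ⟨(x, ⟨s, hs⟩), hx⟩
  · have key : ∀ (b : ℕ) (K : Test) (x : ((hP.obj G).h b).obj (op K)),
        (q.app b).app (op K) x = 0 → ∃ s ∈ S, s • x = 0 := by
      refine L.ind _ ?_ ?_
      · intro n K h hx
        rw [hqel] at hx
        have h1 := hinj _ (hMS n) n K _ hx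
        obtain ⟨N, hN⟩ := (L.locL m).exists_ln h1
        exact hnull N n K h hN
      · intro b K y ih hy
        obtain ⟨s, hs, h1⟩ := ih (by
          rw [app_sig, hy]
          exact map_zero (((hP.obj (L.locSeq m).P).σ b).hom.app (op K)).hom)
        refine ⟨s, hs, ?_⟩
        apply sig_inj _ b K
        rw [sig_zsmul, h1]
        exact (map_zero (((hP.obj G).σ b).hom.app (op K)).hom).symm
    have hx' : (q.app b).app (op K) (x₁ - x₂) = 0 := by
      have h1 : (q.app b).app (op K) x₁ = (q.app b).app (op K) x₂ := hx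
      have h2 : (q.app b).app (op K) (x₁ - x₂) =
        (q.app b).app (op K) x₁ - (q.app b).app (op K) x₂ := map_sub ((q.app b).app (op K)).hom x₁ x₂
      rw [h2, h1, sub_self]
    obtain ⟨s, hs, h1⟩ := key b K _ hx'
    refine ⟨⟨s, hs⟩, ?_⟩
    exact sub_eq_zero.1 ((zsmul_sub x₁ x₂ s).symm.trans h1)

end Levels

end Pool.Agent.Helper1.Stab
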