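import Pool.Agent.Helper68.Stab.LocSusp

/-! The group structure on `Hom`. -/

open Topology Filter Set CategoryTheory Opposite

noncomputable section

namespace Pool.Agent.Helper1.Stab

namespace Datum
variable {D : Datum}

section
variable {ι κ l : Type} [Fintype ι] [Fintype κ] [Fintype l]
variable {K L M N Z W : LC}

/-- the operation on representatives defined by a map `m : K → K ⊔ K` -/
def Rep.op (m : PMap K (K.sum K).plus) (f g : D.Rep ι K Z) : D.Rep ι K Z :=
  Rep.pre m (Rep.pair f g)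

theorem op_val (m : PMap K (K.sum K).plus) (f g : D.Rep ι K Z) (v : D.A ι) (k : K) :
    Rep.op m f g (v, k) = bnd (m k) (fun s : K ⊕ K =>
      Sum.elim (fun a => f (v, a)) (fun a => g (v, a)) s) := by
  unfold Rep.op
  rw [pre_val]
  rcases m k with _ | (a | a) <;> rfl

theorem pair_cls (f : D.Rep ι K Z) (g : D.Rep ι L Z) :
    (D.isAddFun Z).pair (K := K) (L := L) (cls f : D.Hom K Z) (cls g : D.Hom L Z) =
      (cls (Rep.pair f g) : D.Hom (K.sum L) Z) := by
  apply (D.isAddFun Z).pair_ext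
  · rw [(D.isAddFun Z).pair_inl, pb_fn, J_comp_cls, pre_inl_pair]
  · rw [(D.isAddFun Z).pair_inr, pb_fn, J_comp_cls, pre_inr_pair]

theorem op2_cls (m : PMap K (K.sum K).plus) (f g : D.Rep ι K Z) :
    (D.isAddFun Z).op2 m (cls f : D.Hom K Z) (cls g : D.Hom K Z) =
      (cls (Rep.op m f g) : D.Hom K Z) := by
  unfold IsAddFun.op2
  rw [pair_cls, pb_fn, J_comp_cls]
  rfl

theorem pinchK_val (K : LC) (c : ℂ) (k : K) : pinchK K (c, k) = bnd (pinch c) (fun s : ℂ ⊕ ℂ =>
    ((Sum.elim (fun a => (Sum.inl (a, k) : (ℂ × K) ⊕ (ℂ × K))) (fun a => Sum.inr (a, k)) s :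
      (ℂ × K) ⊕ (ℂ × K)) : OnePoint ((ℂ × K) ⊕ (ℂ × K)))) := by
  change (PMap.ofHomeo (dist LC.C LC.C K)).plus (smashPt (LC.C.sum LC.C) K (pinch c,
    (k : OnePoint K))) = _
  rcases pinch c with _ | (a | a) <;> rfl

/-- the sum of representatives with domain `ℂ × K` -/
def Rep.addC (f g : D.Rep ι (LC.C.prod K) Z) : D.Rep ι (LC.C.prod K) Z := Rep.op (pinchK K) f g

theorem addC_val (f g : D.Rep ι (LC.C.prod K) Z) (v : D.A ι) (c : ℂ) (k : K) :
    Rep.addC f g (v, (c, k)) = bnd (pinch c) (fun s : ℂ ⊕ ℂ =>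
      Sum.elim (fun a => f (v, (a, k))) (fun a => g (v, (a, k))) s) := by
  unfold Rep.addC
  rw [op_val, pinchK_val]
  rcases pinch c with _ | (a | a) <;> rfl

theorem add_cls (f g : D.Rep ι (LC.C.prod K) Z) :
    (D.isAddFun Z).add (cls f : D.Hom (LC.C.prod K) Z) (cls g : D.Hom (LC.C.prod K) Z) =
      (cls (Rep.addC f g) : D.Hom (LC.C.prod K) Z) := op2_cls _ _ _

theorem addC_cmp (f g : D.Rep ι (LC.C.prod K) L) (h : D.Rep κ L Z) :
    (Rep.addC f g).cmp h = Rep.addC (f.cmp h) (g.cmp h) := by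
  ext ⟨v, c, k⟩
  rw [cmp_val, addC_val, addC_val]
  rcases pinch c with _ | (a | a)
  · rfl
  · exact (cmp_val f h v (a, k)).symm
  · exact (cmp_val g h v (a, k)).symm

theorem ltens_cmp_addC (f : D.Rep ι K L) (g h : D.Rep κ (LC.C.prod L) Z) :
    (Rep.ltens LC.C f).cmp (Rep.addC g h) =
      Rep.addC ((Rep.ltens LC.C f).cmp g) ((Rep.ltens LC.C f).cmp h) := by
  ext ⟨v, c, k⟩
  rw [cmp_val, addC_val, ltens_val]
  have key : ∀ (g : D.Rep κ (LC.C.prod L) Z) (a : ℂ), (Rep.ltens LC.C f).cmp g (v, (a, k)) =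
      bnd (f ((D.splitA ι κ v).1, k)) (fun p => bnd (g ((D.splitA ι κ v).2, (a, p.2)))
      (fun q => (((D.mulBFun ι κ (p.1, q.1), q.2) : D.B (ι ⊕ κ) × Z) :
        OnePoint (D.B (ι ⊕ κ) × Z)))) := by
    intro g a
    rw [cmp_val, ltens_val, bnd_assoc]
    rfl
  simp only [key]
  rcases f ((D.splitA ι κ v).1, k) with _ | p
  · rcases pinch c with _ | (a | a) <;> rfl
  · change bnd (Rep.addC g h ((D.splitA ι κ v).2, (c, p.2))) _ = _
    rw [addC_val]
    rcases pinch c with _ | (a | a) <;> rfl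

theorem addC_post (f g : D.Rep ι (LC.C.prod K) L) (ψ : PMap L Z.plus) :
    (Rep.addC f g).post ψ = Rep.addC (f.post ψ) (g.post ψ) := by
  ext ⟨v, c, k⟩
  rw [post_val, addC_val, addC_val]
  rcases pinch c with _ | (a | a)
  · rfl
  · exact (post_val f ψ v (a, k)).symm
  · exact (post_val g ψ v (a, k)).symm

/-- associativity -/
abbrev asc (K L Z : LC) : (K.prod L).prod Z ≃ₜ K.prod (L.prod Z) := Homeomorph.prodAssoc K L Z

theorem addC_tens (f g : D.Rep ι (LC.C.prod K) L) (W : LC) :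
    Rep.pre (PMap.ofHomeo (asc LC.C K W).symm) ((Rep.addC f g).tens W) =
      Rep.addC (Rep.pre (PMap.ofHomeo (asc LC.C K W).symm) (f.tens W))
        (Rep.pre (PMap.ofHomeo (asc LC.C K W).symm) (g.tens W)) := by
  ext ⟨v, c, k, w⟩
  rw [pre_val, addC_val]
  change (Rep.addC f g).tens W (v, ((c, k), w)) = _
  rw [tens_val, addC_val]
  rcases pinch c with _ | (a | a)
  · rfl
  · change bnd (f (v, (a, k))) _ = Rep.pre (PMap.ofHomeo (asc LC.C K W).symm) (f.tens W)
      (v, (a, (k, w)))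
    rw [pre_val]
    change _ = f.tens W (v, ((a, k), w))
    rw [tens_val]
  · change bnd (g (v, (a, k))) _ = Rep.pre (PMap.ofHomeo (asc LC.C K W).symm) (g.tens W)
      (v, (a, (k, w)))
    rw [pre_val]
    change _ = g.tens W (v, ((a, k), w))
    rw [tens_val]

theorem ltens_tens (f : D.Rep ι K L) (C W : LC) :
    Rep.ltens C (f.tens W) = Rep.pre (PMap.ofHomeo (asc C K W).symm)
      (((Rep.ltens C f).tens W).post (PMap.ofHomeo (asc C L W))) := by
  ext ⟨v, c, k, w⟩
  rw [ltens_val, tens_val, pre_val]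
  change _ = ((Rep.ltens C f).tens W).post (PMap.ofHomeo (asc C L W)) (v, ((c, k), w))
  rw [post_val, tens_val, ltens_val]
  rcases f (v, k) with _ | p <;> rfl

theorem ltens_cmp (f : D.Rep ι K L) (g : D.Rep κ L Z) :
    Rep.ltens W (f.cmp g) = (Rep.ltens W f).cmp (Rep.ltens W g) := by
  unfold Rep.ltens
  have h1 : ∀ X : D.Rep κ (L.prod W) (W.prod Z),
      Rep.pre ((PMap.ofHomeo (LC.swap W L)).comp (PMap.ofHomeo (LC.swap L W))) X = X := by
    intro X
    have h2 : (PMap.ofHomeo (LC.swap W L)).comp (PMap.ofHomeo (LC.swap L W)) =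
        PMap.id (L.prod W) := by
      ext x; rfl
    rw [h2, pre_id]
  rw [cmp_tens, pre_cmp, post_cmp, pre_pre, h1, cmp_post]

end

/-! ## The group -/

theorem ltens_comp {K L M W : LC} (x : D.Hom K L) (y : D.Hom L M) :
    ltens W (comp x y) = comp (ltens W x) (ltens W y) := by
  induction x using cls_ind with | _ n f =>
  induction y using cls_ind with | _ m g =>
  rw [comp_cls, ltens_cls, ltens_cls, ltens_cls, comp_cls, ltens_cmp]

/-- the bijection `Hom(K, L) = Hom(ℂ × K, ℂ × L)` -/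
def TE (D : Datum) (K L : LC) : D.Hom K L ≃ D.Hom (LC.C.prod K) (LC.C.prod L) :=
  Equiv.ofBijective _ (ltensC_bijective K L)

/-- the group structure -/
instance instGrp (K L : LC) : AddCommGroup (D.Hom K L) :=
  letI : AddCommGroup (D.Hom (LC.C.prod K) (LC.C.prod L)) := (D.isAddFun (LC.C.prod L)).grp K
  (TE D K L).addCommGroup

theorem T_add {K L : LC} (x y : D.Hom K L) : ltens LC.C (x + y) =
    (D.isAddFun (LC.C.prod L)).add (K := K) (ltens LC.C x) (ltens LC.C y) :=
  (TE D K L).apply_symm_apply _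

theorem T_injective {K L : LC} {x y : D.Hom K L} (h : ltens LC.C x = ltens LC.C y) : x = y :=
  (ltensC_bijective K L).1 h

theorem zero_fn (K Z : LC) : (D.isAddFun Z).zero K = D.hzero K Z := by
  unfold IsAddFun.zero
  have h1 := (D.isAddFun Z).empty.choose_spec (D.hzero LC.empty Z)
  rw [← h1, pb_fn]
  unfold hzero
  rw [← J_comp]
  rfl

theorem ltens_zero {K Z : LC} (W : LC) : ltens W (D.hzero K Z) = D.hzero (W.prod K) (W.prod Z) := by
  rw [← cls_zero PEmpty, ltens_cls, ← cls_zero PEmpty]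
  congr 1

theorem zero_eq (K L : LC) : (0 : D.Hom K L) = D.hzero K L := by
  apply T_injective
  rw [ltens_zero]
  have h1 : ltens LC.C (0 : D.Hom K L) = (D.isAddFun (LC.C.prod L)).zero (LC.C.prod K) :=
    (TE D K L).apply_symm_apply _
  rw [h1, zero_fn]

theorem J_zero (K L : LC) : D.J (PMap.zero K L.plus) = 0 := (zero_eq K L).symm

theorem add_comp {K L M : LC} (x x' : D.Hom K L) (y : D.Hom L M) :
    comp (x + x') y = comp x y + comp x' y := by
  apply T_injective
  rw [T_add, ltens_comp, ltens_comp, ltens_comp, T_add]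
  obtain ⟨n, f, g, rfl, rfl⟩ := exists_common x x'
  induction y using cls_ind with | _ m h =>
  rw [ltens_cls, ltens_cls, ltens_cls, add_cls, comp_cls, comp_cls, comp_cls, add_cls, addC_cmp]

theorem comp_add {K L M : LC} (x : D.Hom K L) (y y' : D.Hom L M) :
    comp x (y + y') = comp x y + comp x y' := by
  apply T_injective
  rw [T_add, ltens_comp, ltens_comp, ltens_comp, T_add]
  obtain ⟨n, f, g, rfl, rfl⟩ := exists_common y y'
  induction x using cls_ind with | _ m h =>
  rw [ltens_cls, ltens_cls, ltens_cls, add_cls, comp_cls, comp_cls, comp_cls, add_cls,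
    ltens_cmp_addC]

theorem T_tens {K L : LC} (x : D.Hom K L) (W : LC) : ltens LC.C (tens x W) =
    comp (D.J (PMap.ofHomeo (asc LC.C K W).symm))
      (comp (tens (ltens LC.C x) W) (D.J (PMap.ofHomeo (asc LC.C L W)))) := by
  induction x using cls_ind with | _ n f =>
  rw [tens_cls, ltens_cls, ltens_cls, tens_cls, cls_comp_J, J_comp_cls, ltens_tens]

theorem tens_add {K L : LC} (x x' : D.Hom K L) (Z : LC) :
    tens (x + x') Z = tens x Z + tens x' Z := by
  apply T_injective
  rw [T_add, T_tens, T_tens, T_tens, T_add]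
  obtain ⟨n, f, g, rfl, rfl⟩ := exists_common x x'
  rw [ltens_cls, ltens_cls, add_cls, tens_cls, tens_cls, tens_cls, cls_comp_J, cls_comp_J,
    cls_comp_J, J_comp_cls, J_comp_cls, J_comp_cls, add_cls, pre_post, pre_post, pre_post,
    addC_tens, addC_post]

end Datum

end Pool.Agent.Helper1.Stab
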