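import Pool.Agent.Helper68.Stab.LocGroup

/-! Suspension, other descriptions of the addition, Mayer–Vietoris. -/

open Topology Filter Set CategoryTheory Opposite

noncomputable section

namespace Pool.Agent.Helper1.Stab

namespace Datum
variable {D : Datum}

/-! ## Unital operations -/

/-- the map `ℂ × m` for `m : X → X ⊔ X` -/
def cm {X : LC} (m : PMap X (X.sum X).plus) :
    PMap (LC.C.prod X) ((LC.C.prod X).sum (LC.C.prod X)).plus :=
  (PMap.ofHomeo (ldist LC.C X X)).comp (PMap.ltens LC.C m)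

theorem cm_val {X : LC} (m : PMap X (X.sum X).plus) (c : ℂ) (x : X) :
    cm m (c, x) = bnd (m x) (fun s : X ⊕ X =>
    ((Sum.elim (fun a => (Sum.inl (c, a) : (ℂ × X) ⊕ (ℂ × X))) (fun a => Sum.inr (c, a)) s :
      (ℂ × X) ⊕ (ℂ × X)) : OnePoint ((ℂ × X) ⊕ (ℂ × X)))) := by
  change (PMap.ofHomeo (ldist LC.C X X)).plus (smashPt LC.C (X.sum X) ((c : OnePoint LC.C), m x)) = _
  rcases m x with _ | (a | a) <;> rfl

theorem cm_copair {X : LC} (m : PMap X (X.sum X).plus) (f g : PMap X X.plus) :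
    ((PMap.ltens LC.C f).copair (PMap.ltens LC.C g)).comp (cm m) =
      PMap.ltens LC.C ((f.copair g).comp m) := by
  ext ⟨c, x⟩
  rw [comp_bnd, cm_val]
  change _ = smashPt LC.C X ((c : OnePoint LC.C), bnd (m x) (f.copair g))
  rcases m x with _ | (a | a) <;> rfl

theorem ltens_zeroMap {X : LC} : PMap.ltens LC.C (PMap.zero X X.plus) =
    PMap.zero (LC.C.prod X) (LC.C.prod X).plus := by
  ext ⟨c, x⟩; rfl

theorem cm_interchange {X : LC} (m : PMap X (X.sum X).plus) :
    ((pinchK X).sumMap (pinchK X)).comp (cm m) =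
      (mid4 (LC.C.prod X)).comp (((cm m).sumMap (cm m)).comp (pinchK X)) := by
  ext ⟨c, x⟩
  rw [comp_bnd, cm_val, comp_bnd, comp_bnd, pinchK_val]
  rcases hm : m x with _ | (a | a)
  · rcases pinch c with _ | (b | b)
    · rfl
    · change _ = bnd (bnd (cm m (b, x)) _) _
      rw [cm_val, hm]
      rfl
    · change _ = bnd (bnd (cm m (b, x)) _) _
      rw [cm_val, hm]
      rfl
  · change bnd (pinchK X (c, a)) _ = _
    rw [pinchK_val]
    rcases pinch c with _ | (b | b)
    · rfl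
    · change _ = bnd (bnd (cm m (b, x)) _) _
      rw [cm_val, hm]
      rfl
    · change _ = bnd (bnd (cm m (b, x)) _) _
      rw [cm_val, hm]
      rfl
  · change bnd (pinchK X (c, a)) _ = _
    rw [pinchK_val]
    rcases pinch c with _ | (b | b)
    · rfl
    · change _ = bnd (bnd (cm m (b, x)) _) _
      rw [cm_val, hm]
      rfl
    · change _ = bnd (bnd (cm m (b, x)) _) _
      rw [cm_val, hm]
      rfl

theorem ltens_op {ι : Type} [Fintype ι] {X Z : LC} (m : PMap X (X.sum X).plus) (f g : D.Rep ι X Z) :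
    Rep.ltens LC.C (Rep.op m f g) = Rep.op (cm m) (Rep.ltens LC.C f) (Rep.ltens LC.C g) := by
  ext ⟨v, c, x⟩
  rw [ltens_val, op_val, op_val, cm_val]
  rcases m x with _ | (a | a)
  · rfl
  · change bnd (f (v, a)) _ = Rep.ltens LC.C f (v, (c, a))
    rw [ltens_val]
  · change bnd (g (v, a)) _ = Rep.ltens LC.C g (v, (c, a))
    rw [ltens_val]

/-- an operation given by a unital map is the addition -/
theorem op2_eq {X Z : LC} (m : PMap X (X.sum X).plus)
    (m1 : (((PMap.id _).copair (PMap.zero _ _)).comp m).Homotopic (PMap.id X))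
    (m2 : (((PMap.zero _ _).copair (PMap.id _)).comp m).Homotopic (PMap.id X))
    (x y : D.Hom X Z) : (D.isAddFun Z).op2 m x y = x + y := by
  apply T_injective
  rw [T_add]
  obtain ⟨n, f, g, rfl, rfl⟩ := exists_common x y
  have h1 := (D.isAddFun (LC.C.prod Z)).op2_eq_add (K := X) (cm m) (by
      have := cm_copair m (PMap.id X) (PMap.zero X X.plus)
      rw [PMap.ltens, PMap.box_id, ltens_zeroMap] at this
      rw [this, ← PMap.box_id]
      exact PMap.Homotopic.box_right _ m1) (by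
      have := cm_copair m (PMap.zero X X.plus) (PMap.id X)
      rw [ltens_zeroMap, PMap.ltens, PMap.box_id] at this
      rw [this, ← PMap.box_id]
      exact PMap.Homotopic.box_right _ m2) (by
      rw [cm_interchange]
      exact PMap.Homotopic.refl _) (cls (Rep.ltens LC.C f) : D.Hom (LC.C.prod X) (LC.C.prod Z))
      (cls (Rep.ltens LC.C g) : D.Hom (LC.C.prod X) (LC.C.prod Z))
  rw [ltens_cls, ltens_cls]
  rw [← h1]
  rw [op2_cls]
  rw [op2_cls]
  rw [ltens_cls, ltens_op]

theorem pinchRK_unit_left (K : LC) :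
    (((PMap.id (LC.R.prod K)).copair (PMap.zero _ _)).comp (pinchRK K)).Homotopic (PMap.id _) := by
  have h2 : ((PMap.id (LC.R.prod K)).copair (PMap.zero _ _)).comp (pinchRK K) =
      (((PMap.id LC.R).copair (PMap.zero LC.R LC.R.plus)).comp pinchR).box (PMap.id K) := by
    ext x
    obtain ⟨z, y⟩ := x
    change ((PMap.id (LC.R.prod K)).copair (PMap.zero _ _)).plus ((PMap.ofHomeo (dist LC.R LC.R K)).plus
      (smashPt (LC.R.sum LC.R) K (pinchR z, (y : OnePoint K)))) =
      smashPt LC.R K (((PMap.id LC.R).copair (PMap.zero LC.R LC.R.plus)).plus (pinchR z),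
        (y : OnePoint K))
    rcases pinchR z with _ | (a | a) <;> rfl
  rw [h2, ← PMap.box_id]
  exact pinchR_unit_left.box_left _

theorem pinchRK_unit_right (K : LC) :
    (((PMap.zero _ _).copair (PMap.id (LC.R.prod K))).comp (pinchRK K)).Homotopic (PMap.id _) := by
  have h2 : ((PMap.zero _ _).copair (PMap.id (LC.R.prod K))).comp (pinchRK K) =
      (((PMap.zero LC.R LC.R.plus).copair (PMap.id LC.R)).comp pinchR).box (PMap.id K) := by
    ext x
    obtain ⟨z, y⟩ := x
    change ((PMap.zero _ _).copair (PMap.id (LC.R.prod K))).plus ((PMap.ofHomeo (dist LC.R LC.R K)).plus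
      (smashPt (LC.R.sum LC.R) K (pinchR z, (y : OnePoint K)))) =
      smashPt LC.R K (((PMap.zero LC.R LC.R.plus).copair (PMap.id LC.R)).plus (pinchR z),
        (y : OnePoint K))
    rcases pinchR z with _ | (a | a) <;> rfl
  rw [h2, ← PMap.box_id]
  exact pinchR_unit_right.box_left _

theorem msum_eq {ι : Type} [Fintype ι] {X Z : LC} (m : PMap X (X.sum X).plus) (f g : D.Rep ι X Z) :
    PMap.msum m f g = Rep.op m f g := by
  unfold PMap.msum Rep.op Rep.pre Rep.pair
  rw [PMap.comp_assoc]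

theorem cls_msum {ι : Type} [Fintype ι] {K Z : LC} (f g : D.Rep ι (LC.R.prod K) Z) :
    (cls (PMap.msum (pinchRK K) f g : D.Rep ι (LC.R.prod K) Z) : D.Hom _ _) = cls f + cls g := by
  rw [msum_eq, ← op2_cls]
  exact op2_eq _ (pinchRK_unit_left K) (pinchRK_unit_right K) _ _

/-! ## Suspension by a real line -/

theorem ltens_eq_tens {K L : LC} (W : LC) (x : D.Hom K L) :
    comp (D.J (PMap.ofHomeo (LC.swap K W))) (ltens W x) =
      comp (tens x W) (D.J (PMap.ofHomeo (LC.swap L W))) := by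
  unfold ltens
  rw [← assoc, ← J_comp]
  have : (PMap.ofHomeo (LC.swap W K)).comp (PMap.ofHomeo (LC.swap K W)) = PMap.id (K.prod W) := by
    ext x; rfl
  rw [this, id_comp]

theorem J_homeo_comp {K L M : LC} (e : K ≃ₜ L) : Function.Bijective
    (fun x : D.Hom L M => comp (D.J (PMap.ofHomeo e)) x) := by
  have h1 : (PMap.ofHomeo e.symm).comp (PMap.ofHomeo e) = PMap.id K := by
    ext x
    exact congrArg OnePoint.some (e.symm_apply_apply x)
  have h2 : (PMap.ofHomeo e).comp (PMap.ofHomeo e.symm) = PMap.id L := by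
    ext x
    exact congrArg OnePoint.some (e.apply_symm_apply x)
  refine Function.bijective_iff_has_inverse.2 ⟨fun x => comp (D.J (PMap.ofHomeo e.symm)) x, ?_, ?_⟩
  · intro x
    change comp _ (comp _ x) = x
    rw [← assoc, ← J_comp, h2, id_comp]
  · intro x
    change comp _ (comp _ x) = x
    rw [← assoc, ← J_comp, h1, id_comp]

theorem comp_J_homeo {K L M : LC} (e : L ≃ₜ M) : Function.Bijective
    (fun x : D.Hom K L => comp x (D.J (PMap.ofHomeo e))) := by
  have h1 : (PMap.ofHomeo e.symm).comp (PMap.ofHomeo e) = PMap.id L := by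
    ext x
    exact congrArg OnePoint.some (e.symm_apply_apply x)
  have h2 : (PMap.ofHomeo e).comp (PMap.ofHomeo e.symm) = PMap.id M := by
    ext x
    exact congrArg OnePoint.some (e.apply_symm_apply x)
  refine Function.bijective_iff_has_inverse.2 ⟨fun x => comp x (D.J (PMap.ofHomeo e.symm)), ?_, ?_⟩
  · intro x
    change comp (comp x _) _ = x
    rw [assoc, ← J_comp, h1, comp_id]
  · intro x
    change comp (comp x _) _ = x
    rw [assoc, ← J_comp, h2, comp_id]

theorem tensC_bijective (K L : LC) :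
    Function.Bijective (fun x : D.Hom K L => (tens x LC.C : D.Hom (K.prod LC.C) (L.prod LC.C))) := by
  have h1 : (fun x : D.Hom K L => comp (tens x LC.C) (D.J (PMap.ofHomeo (LC.swap L LC.C)))) =
      (fun y => comp (D.J (PMap.ofHomeo (LC.swap K LC.C))) y) ∘ (fun x => ltens LC.C x) := by
    funext x
    exact (ltens_eq_tens LC.C x).symm
  have h2 : Function.Bijective
      (fun x : D.Hom K L => comp (tens x LC.C) (D.J (PMap.ofHomeo (LC.swap L LC.C)))) := by
    rw [h1]
    exact (J_homeo_comp _).comp (ltensC_bijective K L)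
  have h3 : (fun x : D.Hom K L => comp (tens x LC.C) (D.J (PMap.ofHomeo (LC.swap L LC.C)))) =
      (fun y => comp y (D.J (PMap.ofHomeo (LC.swap L LC.C)))) ∘ (fun x => tens x LC.C) := rfl
  rw [h3] at h2
  exact ((comp_J_homeo _).of_comp_iff' _).1 h2

/-- the plane -/
def cR : LC.C ≃ₜ LC.R.prod LC.R := Complex.equivRealProdCLM.toHomeomorph

theorem tensRR_bijective (K L : LC) : Function.Bijective (fun x : D.Hom K L =>
    (tens x (LC.R.prod LC.R) : D.Hom (K.prod (LC.R.prod LC.R)) (L.prod (LC.R.prod LC.R)))) := by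
  have h1 : (fun x : D.Hom K L => comp (tens x LC.C) (D.J (PMap.ltens L (PMap.ofHomeo cR)))) =
      (fun y => comp (D.J (PMap.ltens K (PMap.ofHomeo cR))) y) ∘
        (fun x => tens x (LC.R.prod LC.R)) := by
    funext x
    have h := exch x (D.J (PMap.ofHomeo cR))
    have h2 : ∀ M : LC, ltens M (D.J (PMap.ofHomeo cR)) = D.J (PMap.ltens M (PMap.ofHomeo cR)) := by
      intro M
      unfold ltens
      rw [tens_J, ← J_comp, ← J_comp]
      rfl
    rw [h2, h2] at h
    exact h
  have e1 : ∀ M : LC, PMap.ltens M (PMap.ofHomeo cR) =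
      PMap.ofHomeo (K := M.prod LC.C) (L := M.prod (LC.R.prod LC.R))
        ((Homeomorph.refl M).prodCongr cR) := by
    intro M
    ext x; rfl
  rw [e1, e1] at h1
  have h2 : Function.Bijective (fun x : D.Hom K L => comp (tens x LC.C)
      (D.J (PMap.ofHomeo (K := L.prod LC.C) (L := L.prod (LC.R.prod LC.R))
        ((Homeomorph.refl L).prodCongr cR)))) :=
    (comp_J_homeo _).comp (tensC_bijective K L)
  rw [h1] at h2
  exact ((J_homeo_comp _).of_comp_iff' _).1 h2

theorem tensR_tensR_bijective (K L : LC) : Function.Bijective (fun x : D.Hom K L =>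
    (tens (tens x LC.R) LC.R : D.Hom ((K.prod LC.R).prod LC.R) ((L.prod LC.R).prod LC.R))) := by
  have h1 : (fun x : D.Hom K L => comp (tens (tens x LC.R) LC.R)
      (D.J (PMap.ofHomeo (asc L LC.R LC.R)))) =
      (fun y => comp (D.J (PMap.ofHomeo (asc K LC.R LC.R))) y) ∘
        (fun x => tens x (LC.R.prod LC.R)) := by
    funext x
    exact htens_tens x LC.R LC.R
  have h2 : Function.Bijective (fun x : D.Hom K L => comp (tens (tens x LC.R) LC.R)
      (D.J (PMap.ofHomeo (asc L LC.R LC.R)))) := by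
    rw [h1]
    exact (J_homeo_comp _).comp (tensRR_bijective K L)
  have h3 : (fun x : D.Hom K L => comp (tens (tens x LC.R) LC.R)
      (D.J (PMap.ofHomeo (asc L LC.R LC.R)))) =
      (fun y => comp y (D.J (PMap.ofHomeo (asc L LC.R LC.R)))) ∘
        (fun x => tens (tens x LC.R) LC.R) := rfl
  rw [h3] at h2
  exact ((comp_J_homeo _).of_comp_iff' _).1 h2

theorem susp (K L : LC) :
    Function.Bijective (fun x : D.Hom K L => (tens x LC.R : D.Hom (K.prod LC.R) (L.prod LC.R))) := by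
  have inj : ∀ K L : LC, Function.Injective
      (fun x : D.Hom K L => (tens x LC.R : D.Hom (K.prod LC.R) (L.prod LC.R))) := by
    intro K L x y hxy
    have hxy' : tens x LC.R = tens y LC.R := hxy
    refine (tensR_tensR_bijective K L).1 ?_
    change tens (tens x LC.R) LC.R = tens (tens y LC.R) LC.R
    rw [hxy']
  refine ⟨inj K L, fun y => ?_⟩
  obtain ⟨x, hx⟩ := (tensR_tensR_bijective K L).2 (tens y LC.R)
  exact ⟨x, inj _ _ hx⟩

/-! ## Mayer–Vietoris -/

theorem zero_stab {ι κ : Type} [Fintype ι] [Fintype κ] {K Z : LC} :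
    Rep.stab (PMap.zero _ _ : D.Rep ι K Z) κ = PMap.zero _ _ := by
  ext ⟨v, k⟩
  rw [stab_val]
  rfl

theorem zero_re {ι κ : Type} [Fintype ι] [Fintype κ] (e : ι ≃ κ) {K Z : LC} :
    Rep.re e (PMap.zero _ _ : D.Rep ι K Z) = PMap.zero _ _ := by
  ext ⟨v, k⟩
  rw [re_val]
  rfl

theorem mv1 {K L : LC} (u : C(K, ℝ)) (x : D.Hom K L) (hA : comp (D.J (MV.iA u)) x = 0)
    (hB : comp (D.J (MV.iB u)) x = 0) :
    ∃ y : D.Hom (LC.R.prod (MV.C u)) L, x = comp (D.J (MV.delta u)) y := by
  obtain ⟨n, f, rfl⟩ := exists_cls x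
  rw [J_comp_cls, zero_eq, ← cls_zero (Fin n)] at hA hB
  obtain ⟨n1, h1⟩ := cls_eq_same hA
  obtain ⟨n2, h2⟩ := cls_eq_same hB
  have h3 := hre (hstab h1 (Fin n2)) (Equiv.sumAssoc _ _ _)
  rw [← stab_stab, ← stab_stab, zero_stab, ← pre_stab] at h3
  have h4 := hre (hstab h2 (Fin n1)) (Equiv.sumAssoc _ _ _)
  rw [← stab_stab, ← stab_stab, zero_stab] at h4
  have h5 := hre h4 ((Equiv.refl (Fin n)).sumCongr (Equiv.sumComm (Fin n2) (Fin n1)))
  rw [stab_re, zero_re, ← pre_stab] at h5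
  obtain ⟨y, hy⟩ := mv1u u _ _ (f.stab (Fin n1 ⊕ Fin n2)) h3 h5
  refine ⟨cls (y : D.Rep (Fin n ⊕ (Fin n1 ⊕ Fin n2)) (LC.R.prod (MV.C u)) L), ?_⟩
  rw [J_comp_cls, ← cls_stab f (Fin n1 ⊕ Fin n2)]
  exact cls_homotopic hy

theorem mv2 {K L : LC} (u : C(K, ℝ)) (a : D.Hom (MV.A u) L) (b : D.Hom (MV.B u) L)
    (hab : comp (D.J (MV.iCA u)) a = comp (D.J (MV.iCB u)) b) :
    ∃ x : D.Hom K L, comp (D.J (MV.iA u)) x = a ∧ comp (D.J (MV.iB u)) x = b := by
  obtain ⟨n, f, g, rfl, rfl⟩ := exists_common a b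
  rw [J_comp_cls, J_comp_cls] at hab
  obtain ⟨m, h⟩ := cls_eq_same hab
  rw [← pre_stab, ← pre_stab] at h
  obtain ⟨F, h1, h2⟩ := mv2u u _ _ (f.stab (Fin m)) (g.stab (Fin m)) h
  refine ⟨cls (F : D.Rep (Fin n ⊕ Fin m) K L), ?_, ?_⟩
  · rw [J_comp_cls, ← cls_stab f (Fin m)]
    exact cls_homotopic h1
  · rw [J_comp_cls, ← cls_stab g (Fin m)]
    exact cls_homotopic h2

theorem mv3 {K L : LC} (u : C(K, ℝ)) (y : D.Hom (LC.R.prod (MV.C u)) L)
    (hy : comp (D.J (MV.delta u)) y = 0) :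
    ∃ (a : D.Hom (LC.R.prod (MV.A u)) L) (b : D.Hom (LC.R.prod (MV.B u)) L),
      y = comp (D.J (PMap.ltens LC.R (MV.iCA u))) a -
        comp (D.J (PMap.ltens LC.R (MV.iCB u))) b := by
  obtain ⟨n, f, rfl⟩ := exists_cls y
  rw [J_comp_cls, zero_eq, ← cls_zero (Fin n)] at hy
  obtain ⟨m, h⟩ := cls_eq_same hy
  rw [← pre_stab, zero_stab] at h
  obtain ⟨a, b, hab⟩ := mv3u u _ _ (f.stab (Fin m)) h
  refine ⟨cls (a : D.Rep (Fin n ⊕ Fin m) (LC.R.prod (MV.A u)) L),
    - cls (b : D.Rep (Fin n ⊕ Fin m) (LC.R.prod (MV.B u)) L), ?_⟩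
  have neg_comp : ∀ {K L M : LC} (x : D.Hom K L) (y : D.Hom L M), comp x (-y) = - comp x y := by
    intro K L M x y
    have h1 : comp x (-y) + comp x y = 0 := by
      rw [← comp_add, neg_add_cancel, zero_eq, zero_eq]
      unfold hzero
      induction x using cls_ind with | _ n f =>
      rw [cls_comp_J, J_eq (Fin n)]
      congr 1
      ext ⟨v, k⟩
      rw [post_val, ofMap_val]
      rcases f (v, k) with _ | p
      · rcases D.shat _ v with _ | b <;> rfl
      · rcases D.shat _ v with _ | b <;> rfl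
    exact eq_neg_of_add_eq_zero_left h1
  rw [neg_comp, sub_neg_eq_add, J_comp_cls, J_comp_cls, ← cls_stab f (Fin m), ← cls_msum]
  exact cls_homotopic hab

end Datum

end Pool.Agent.Helper1.Stab
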