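import Pool.Agent.Helper68.Stab.LocAdd

/-! Suspension is bijective. -/

open Topology Filter Set CategoryTheory Opposite

noncomputable section

namespace Pool.Agent.Helper1.Stab

open Classical in
/-- change of one coordinate -/
def upd {n : Type} (x0 : n) (v : n → ℂ) (c : ℂ) : n → ℂ := Function.update v x0 c

open Classical in
theorem upd_self {n : Type} (x0 : n) (v : n → ℂ) (c : ℂ) : upd x0 v c x0 = c :=
  Function.update_self _ _ _

open Classical in
theorem upd_ne {n : Type} {x0 x : n} (h : x ≠ x0) (v : n → ℂ) (c : ℂ) : upd x0 v c x = v x :=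
  Function.update_of_ne h _ _

theorem upd_upd {n : Type} (x0 : n) (v : n → ℂ) (c : ℂ) : upd x0 (upd x0 v c) (v x0) = v := by
  funext x
  by_cases h : x = x0
  · subst h
    exact upd_self _ _ _
  · rw [upd_ne h, upd_ne h]

open Classical in
/-- exchange of one coordinate of `v` with `c` -/
def swHomeo {n : Type} [Finite n] (x0 : n) (R : LC) :
    (LC.cpow n).prod (LC.C.prod R) ≃ₜ (LC.cpow n).prod (LC.C.prod R) where
  toFun v := (upd x0 v.1 v.2.1, (v.1 x0, v.2.2))
  invFun v := (upd x0 v.1 v.2.1, (v.1 x0, v.2.2))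
  left_inv v := Prod.ext (upd_upd x0 v.1 v.2.1) (Prod.ext (upd_self x0 v.1 v.2.1) rfl)
  right_inv v := Prod.ext (upd_upd x0 v.1 v.2.1) (Prod.ext (upd_self x0 v.1 v.2.1) rfl)
  continuous_toFun := by
    refine (Continuous.update continuous_fst x0 (continuous_fst.comp continuous_snd)).prodMk ?_
    exact ((continuous_apply x0).comp continuous_fst).prodMk (continuous_snd.comp continuous_snd)
  continuous_invFun := by
    refine (Continuous.update continuous_fst x0 (continuous_fst.comp continuous_snd)).prodMk ?_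
    exact ((continuous_apply x0).comp continuous_fst).prodMk (continuous_snd.comp continuous_snd)

open Classical in
/-- the homeomorphism used to conjugate -/
def swConj {n : Type} [Finite n] (x0 : n) (R : LC) :
    (LC.cpow n).prod (LC.C.prod R) ≃ₜ (LC.C.prod LC.C).prod ((LC.cpow {j : n // j ≠ x0}).prod R) :=
  ((Homeomorph.funSplitAt ℂ x0).prodCongr (Homeomorph.refl (ℂ × R))).trans
    (Homeomorph.prodProdProdComm ℂ ({j : n // j ≠ x0} → ℂ) ℂ R)

theorem sw_homotopic {n : Type} [Fintype n] (x0 : n) (R : LC) :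
    (PMap.ofHomeo (swHomeo x0 R)).Homotopic (PMap.id _) := by
  classical
  have h1 : PMap.ofHomeo (swHomeo x0 R) = (PMap.ofHomeo (swConj x0 R).symm).comp
      (((PMap.ofHomeo (LC.swap LC.C LC.C)).tens ((LC.cpow {j : n // j ≠ x0}).prod R)).comp
        (PMap.ofHomeo (swConj x0 R))) := by
    ext ⟨v, c, r⟩
    refine congrArg OnePoint.some (?_ : swHomeo x0 R (v, (c, r)) = (swConj x0 R).symm
      ((c, v x0), ((fun j => v j.1), r)))
    rw [Homeomorph.eq_symm_apply]
    refine Prod.ext (Prod.ext ?_ rfl) (Prod.ext ?_ rfl)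
    · exact upd_self x0 v c
    · funext j
      exact upd_ne j.2 v c
  have h2 : PMap.id ((LC.cpow n).prod (LC.C.prod R)) = (PMap.ofHomeo (swConj x0 R).symm).comp
      (((PMap.id (LC.C.prod LC.C)).tens ((LC.cpow {j : n // j ≠ x0}).prod R)).comp
        (PMap.ofHomeo (swConj x0 R))) := by
    rw [PMap.tens, PMap.box_id, PMap.id_comp]
    ext x
    exact congrArg OnePoint.some ((swConj x0 R).symm_apply_apply x).symm
  rw [h1, h2]
  exact PMap.Homotopic.comp_right _ ((rot2.box_left _).comp_left _)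

namespace Datum
variable {D : Datum}

section
variable {ι κ l : Type} [Fintype ι] [Fintype κ] [Fintype l]
variable {K L M N Z W : LC}

variable (D) in
/-- `A (1) = ℂ × ℂ^w` -/
def alpha : D.A PUnit ≃ₜ LC.C.prod (LC.cpow D.w) where
  toFun v := (v (PUnit.unit, none), fun j => v (PUnit.unit, some j))
  invFun p := fun x => match x.2 with
    | none => p.1
    | some j => p.2 j
  left_inv v := by ext ⟨i, _ | j⟩ <;> rfl
  right_inv v := rfl
  continuous_toFun := by
    exact (continuous_apply _).prodMk (continuous_pi fun _ => continuous_apply _)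
  continuous_invFun := by
    refine continuous_pi ?_
    rintro ⟨i, _ | j⟩
    · exact continuous_fst
    · exact (continuous_apply _).comp continuous_snd

variable (D) in
/-- rearrangement in the domain -/
def abA (ι : Type) [Fintype ι] (K : LC) :
    (D.A (ι ⊕ PUnit)).prod K ≃ₜ ((D.A ι).prod (LC.C.prod K)).prod (LC.cpow D.w) where
  toFun x := (((D.splitA ι PUnit x.1).1, ((D.alpha (D.splitA ι PUnit x.1).2).1, x.2)),
    (D.alpha (D.splitA ι PUnit x.1).2).2)
  invFun x := ((D.splitA ι PUnit).symm (x.1.1, D.alpha.symm (x.1.2.1, x.2)), x.1.2.2)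
  left_inv x := by
    refine Prod.ext ?_ rfl
    change (D.splitA ι PUnit).symm ((D.splitA ι PUnit x.1).1,
      D.alpha.symm (D.alpha (D.splitA ι PUnit x.1).2)) = x.1
    rw [Homeomorph.symm_apply_apply]
    exact (D.splitA ι PUnit).symm_apply_apply x.1
  right_inv x := by
    simp only [Homeomorph.apply_symm_apply]
  continuous_toFun := by
    have h1 : Continuous fun x : (D.A (ι ⊕ PUnit)).prod K => D.splitA ι PUnit x.1 :=
      (D.splitA ι PUnit).continuous.comp continuous_fst
    have h2 : Continuous fun x : (D.A (ι ⊕ PUnit)).prod K =>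
        D.alpha (D.splitA ι PUnit x.1).2 := D.alpha.continuous.comp (continuous_snd.comp h1)
    exact ((continuous_fst.comp h1).prodMk ((continuous_fst.comp h2).prodMk continuous_snd)).prodMk
      (continuous_snd.comp h2)
  continuous_invFun := by
    have h1 : Continuous fun x : ((D.A ι).prod (LC.C.prod K)).prod (LC.cpow D.w) =>
        D.alpha.symm (x.1.2.1, x.2) := D.alpha.symm.continuous.comp
      ((continuous_fst.comp (continuous_snd.comp continuous_fst)).prodMk continuous_snd)
    exact ((D.splitA ι PUnit).symm.continuous.comp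
      ((continuous_fst.comp continuous_fst).prodMk h1)).prodMk
      (continuous_snd.comp (continuous_snd.comp continuous_fst))

variable (D) in
/-- rearrangement in the target -/
def abB (ι : Type) [Fintype ι] (Z : LC) :
    ((D.B ι).prod (LC.C.prod Z)).prod (LC.cpow D.w) ≃ₜ ((D.B ι).prod Z).prod (D.A PUnit) where
  toFun x := ((x.1.1, x.1.2.2), D.alpha.symm (x.1.2.1, x.2))
  invFun x := ((x.1.1, ((D.alpha x.2).1, x.1.2)), (D.alpha x.2).2)
  left_inv x := by
    simp only [Homeomorph.apply_symm_apply]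
  right_inv x := by
    refine Prod.ext rfl ?_
    exact D.alpha.symm_apply_apply x.2
  continuous_toFun := by
    have h1 : Continuous fun x : ((D.B ι).prod (LC.C.prod Z)).prod (LC.cpow D.w) =>
        D.alpha.symm (x.1.2.1, x.2) := D.alpha.symm.continuous.comp
      ((continuous_fst.comp (continuous_snd.comp continuous_fst)).prodMk continuous_snd)
    exact ((continuous_fst.comp continuous_fst).prodMk
      (continuous_snd.comp (continuous_snd.comp continuous_fst))).prodMk h1
  continuous_invFun := by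
    have h2 : Continuous fun x : ((D.B ι).prod Z).prod (D.A PUnit) => D.alpha x.2 :=
      D.alpha.continuous.comp continuous_snd
    exact ((continuous_fst.comp continuous_fst).prodMk ((continuous_fst.comp h2).prodMk
      (continuous_snd.comp continuous_fst))).prodMk (continuous_snd.comp h2)

/-- absorption of a complex line in the stage -/
def Rep.ab (h : D.Rep ι (LC.C.prod K) (LC.C.prod Z)) : D.Rep (ι ⊕ PUnit) K Z :=
  ((D.mulB ι PUnit).tens Z).comp ((PMap.ofHomeo (LC.rr (D.B ι) Z (D.B PUnit))).comp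
    (((PMap.id ((D.B ι).prod Z)).box (D.shat PUnit)).comp ((PMap.ofHomeo (D.abB ι Z)).comp
      ((PMap.tens h (LC.cpow D.w)).comp (PMap.ofHomeo (D.abA ι K))))))

theorem ab_val (h : D.Rep ι (LC.C.prod K) (LC.C.prod Z)) (v : D.A (ι ⊕ PUnit)) (k : K) :
    h.ab (v, k) = bnd (h ((D.splitA ι PUnit v).1, ((D.alpha (D.splitA ι PUnit v).2).1, k)))
      (fun p => bnd (D.shat PUnit (D.alpha.symm (p.2.1, (D.alpha (D.splitA ι PUnit v).2).2)))
        (fun c => (((D.mulBFun ι PUnit (p.1, c), p.2.2) : D.B (ι ⊕ PUnit) × Z) :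
          OnePoint (D.B (ι ⊕ PUnit) × Z)))) := by
  change ((D.mulB ι PUnit).tens Z).plus ((PMap.ofHomeo (LC.rr (D.B ι) Z (D.B PUnit))).plus
    (((PMap.id ((D.B ι).prod Z)).box (D.shat PUnit)).plus ((PMap.ofHomeo (D.abB ι Z)).plus
      (smashPt ((D.B ι).prod (LC.C.prod Z)) (LC.cpow D.w)
        (h ((D.splitA ι PUnit v).1, ((D.alpha (D.splitA ι PUnit v).2).1, k)),
          ((D.alpha (D.splitA ι PUnit v).2).2 : OnePoint (LC.cpow D.w))))))) = _
  rcases h ((D.splitA ι PUnit v).1, ((D.alpha (D.splitA ι PUnit v).2).1, k)) with _ | p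
  · rfl
  · change ((D.mulB ι PUnit).tens Z).plus ((PMap.ofHomeo (LC.rr (D.B ι) Z (D.B PUnit))).plus
      (smashPt ((D.B ι).prod Z) (D.B PUnit) (((p.1, p.2.2) : D.B ι × Z),
        D.shat PUnit (D.alpha.symm (p.2.1, (D.alpha (D.splitA ι PUnit v).2).2))))) =
      bnd (D.shat PUnit (D.alpha.symm (p.2.1, (D.alpha (D.splitA ι PUnit v).2).2)))
        (fun c => (((D.mulBFun ι PUnit (p.1, c), p.2.2) : D.B (ι ⊕ PUnit) × Z) :
          OnePoint (D.B (ι ⊕ PUnit) × Z)))
    rcases D.shat PUnit (D.alpha.symm (p.2.1, (D.alpha (D.splitA ι PUnit v).2).2)) with _ | c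
    · rfl
    · rfl

theorem hab {h h' : D.Rep ι (LC.C.prod K) (LC.C.prod Z)} (H : PMap.Homotopic h h') :
    PMap.Homotopic h.ab h'.ab :=
  PMap.Homotopic.comp_right _ (PMap.Homotopic.comp_right _ (PMap.Homotopic.comp_right _
    (PMap.Homotopic.comp_right _ ((H.box_left _).comp_left _))))

theorem ab_ltens (f : D.Rep ι K Z) : (Rep.ltens LC.C f).ab = f.stab PUnit := by
  ext ⟨v, k⟩
  rw [ab_val, ltens_val, stab_val]
  rcases f ((D.splitA ι PUnit v).1, k) with _ | p
  · rfl
  · have : D.alpha.symm ((D.alpha (D.splitA ι PUnit v).2).1, (D.alpha (D.splitA ι PUnit v).2).2) =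
      (D.splitA ι PUnit v).2 := D.alpha.symm_apply_apply (D.splitA ι PUnit v).2
    change bnd (D.shat PUnit (D.alpha.symm ((D.alpha (D.splitA ι PUnit v).2).1,
      (D.alpha (D.splitA ι PUnit v).2).2))) _ = bnd (D.shat PUnit (D.splitA ι PUnit v).2) _
    rw [this]

/-- change of the free coordinate of `B (1)` -/
def setB (b : D.B PUnit) (c : ℂ) : D.B PUnit :=
  ((fun x => match x.2 with
    | none => c
    | some j => b.1 (x.1, some j)), b.2)

/-- `shat (1)` is the identity on the free coordinate -/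
theorem shat_alpha (c c' : ℂ) (w : D.w → ℂ) :
    D.shat PUnit (D.alpha.symm (c', w)) = bnd (D.shat PUnit (D.alpha.symm (c, w)))
      (fun b => ((setB b c' : D.B PUnit) : OnePoint (D.B PUnit))) := by
  rw [shat_eq, shat_eq]
  rcases D.shatG_cases PUnit (D.alpha.symm (c, w)) with ⟨i, hi⟩ | ⟨y, hy⟩
  · rw [D.shatG_none PUnit _ _ i hi, D.shatG_none PUnit (D.alpha.symm (c', w)) _ i hi]
    rfl
  · rw [D.shatG_some PUnit _ _ y hy, D.shatG_some PUnit (D.alpha.symm (c', w)) _ y hy, bnd_coe]
    refine congrArg OnePoint.some (Prod.ext ?_ rfl)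
    funext x
    rcases x with ⟨i, _ | j⟩
    · rfl
    · rfl

theorem shat_alpha_none {c : ℂ} {w : D.w → ℂ} {b : D.B PUnit}
    (h : D.shat PUnit (D.alpha.symm (c, w)) = ((b : D.B PUnit) : OnePoint (D.B PUnit))) :
    b.1 (PUnit.unit, none) = c := by
  rw [shat_eq] at h
  rcases D.shatG_cases PUnit (D.alpha.symm (c, w)) with ⟨i, hi⟩ | ⟨y, hy⟩
  · rw [D.shatG_none PUnit _ _ i hi] at h
    exact absurd h (OnePoint.infty_ne_coe _)
  · rw [D.shatG_some PUnit _ _ y hy] at h
    have := OnePoint.coe_injective h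
    rw [← this]
    rfl

/-- rearrangement -/
def rhoB (X P R : LC) : (X.prod P).prod (LC.C.prod R) ≃ₜ X.prod (LC.C.prod (P.prod R)) where
  toFun x := (x.1.1, (x.2.1, (x.1.2, x.2.2)))
  invFun x := ((x.1, x.2.2.1), (x.2.1, x.2.2.2))
  left_inv _ := rfl
  right_inv _ := rfl
  continuous_toFun := by fun_prop
  continuous_invFun := by fun_prop

variable (D) in
/-- exchange of the last free coordinate in the domain with the coordinate of `ℂ` -/
def tauA (ι : Type) [Fintype ι] (K : LC) :
    (D.A (ι ⊕ PUnit)).prod (LC.C.prod K) ≃ₜ (D.A (ι ⊕ PUnit)).prod (LC.C.prod K) :=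
  swHomeo (n := (ι ⊕ PUnit) × Option D.w) (Sum.inr PUnit.unit, none) K

variable (D) in
/-- exchange of the last free coordinate in the target with the coordinate of `ℂ` -/
def tauB (ι : Type) [Fintype ι] (Z : LC) :
    (D.B (ι ⊕ PUnit)).prod (LC.C.prod Z) ≃ₜ (D.B (ι ⊕ PUnit)).prod (LC.C.prod Z) :=
  (rhoB (LC.cpow ((ι ⊕ PUnit) × Option D.u)) (LC.G ((ι ⊕ PUnit) × Option D.a)) Z).trans
    ((swHomeo (n := (ι ⊕ PUnit) × Option D.u) (Sum.inr PUnit.unit, none)
      ((LC.G ((ι ⊕ PUnit) × Option D.a)).prod Z)).trans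
    (rhoB (LC.cpow ((ι ⊕ PUnit) × Option D.u)) (LC.G ((ι ⊕ PUnit) × Option D.a)) Z).symm)

theorem tauA_homotopic : (PMap.ofHomeo (D.tauA ι K)).Homotopic (PMap.id _) :=
  sw_homotopic _ _

theorem tauB_homotopic : (PMap.ofHomeo (D.tauB ι Z)).Homotopic (PMap.id _) := by
  have h1 : PMap.ofHomeo (D.tauB ι Z) = (PMap.ofHomeo (rhoB (LC.cpow ((ι ⊕ PUnit) × Option D.u))
      (LC.G ((ι ⊕ PUnit) × Option D.a)) Z).symm).comp ((PMap.ofHomeo
      (swHomeo (n := (ι ⊕ PUnit) × Option D.u) (Sum.inr PUnit.unit, none)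
      ((LC.G ((ι ⊕ PUnit) × Option D.a)).prod Z))).comp (PMap.ofHomeo
      (rhoB (LC.cpow ((ι ⊕ PUnit) × Option D.u)) (LC.G ((ι ⊕ PUnit) × Option D.a)) Z))) := rfl
  rw [h1]
  have h2 := PMap.Homotopic.comp_right (PMap.ofHomeo (rhoB (LC.cpow ((ι ⊕ PUnit) × Option D.u))
      (LC.G ((ι ⊕ PUnit) × Option D.a)) Z).symm) ((sw_homotopic
      (n := (ι ⊕ PUnit) × Option D.u) (Sum.inr PUnit.unit, none)
      ((LC.G ((ι ⊕ PUnit) × Option D.a)).prod Z)).comp_left (PMap.ofHomeo
      (rhoB (LC.cpow ((ι ⊕ PUnit) × Option D.u)) (LC.G ((ι ⊕ PUnit) × Option D.a)) Z)))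
  exact h2

/-- the key identity -/
theorem ltens_ab (h : D.Rep ι (LC.C.prod K) (LC.C.prod Z)) :
    Rep.ltens LC.C h.ab = (PMap.ofHomeo (D.tauB ι Z)).comp
      (PMap.comp (h.stab PUnit) (PMap.ofHomeo (D.tauA ι K))) := by
  classical
  ext ⟨v, c, k⟩
  rw [ltens_val, ab_val]
  change _ = bnd (h.stab PUnit ((D.tauA ι K) (v, (c, k)))) (fun p =>
    ((D.tauB ι Z p : (D.B (ι ⊕ PUnit)).prod (LC.C.prod Z)) :
      OnePoint ((D.B (ι ⊕ PUnit)).prod (LC.C.prod Z))))
  have hv : (D.tauA ι K) (v, (c, k)) = (upd (Sum.inr PUnit.unit, none) v c,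
      ((D.alpha (D.splitA ι PUnit v).2).1, k)) := rfl
  rw [hv, stab_val]
  have h1 : (D.splitA ι PUnit (upd (Sum.inr PUnit.unit, none) v c)).1 =
      (D.splitA ι PUnit v).1 := by
    funext x
    refine upd_ne ?_ _ _
    intro h
    exact Sum.inl_ne_inr (Prod.ext_iff.1 h).1
  have h2 : (D.splitA ι PUnit (upd (Sum.inr PUnit.unit, none) v c)).2 =
      D.alpha.symm (c, (D.alpha (D.splitA ι PUnit v).2).2) := by
    funext x
    rcases x with ⟨i, _ | j⟩
    · exact upd_self _ _ _
    · refine upd_ne ?_ _ _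
      intro h
      exact Option.some_ne_none j (Prod.ext_iff.1 h).2
  rw [h1, h2]
  rcases h ((D.splitA ι PUnit v).1, ((D.alpha (D.splitA ι PUnit v).2).1, k)) with _ | p
  · rfl
  · change bnd (bnd (D.shat PUnit (D.alpha.symm (p.2.1, (D.alpha (D.splitA ι PUnit v).2).2))) _) _
      = bnd (bnd (D.shat PUnit (D.alpha.symm (c, (D.alpha (D.splitA ι PUnit v).2).2))) _) _
    rw [shat_alpha c p.2.1]
    rcases hs : D.shat PUnit (D.alpha.symm (c, (D.alpha (D.splitA ι PUnit v).2).2)) with _ | b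
    · rfl
    · have h3 := shat_alpha_none hs
      refine congrArg OnePoint.some (Prod.ext (Prod.ext ?_ ?_) (Prod.ext ?_ rfl))
      · funext x
        rcases x with ⟨i | i, _ | j⟩
        · refine (upd_ne ?_ _ _).symm
          intro h
          exact Sum.inl_ne_inr (Prod.ext_iff.1 h).1
        · refine (upd_ne ?_ _ _).symm
          intro h
          exact Sum.inl_ne_inr (Prod.ext_iff.1 h).1
        · exact (upd_self _ _ _).symm
        · refine (upd_ne ?_ _ _).symm
          intro h
          exact Option.some_ne_none j (Prod.ext_iff.1 h).2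
      · rfl
      · exact h3.symm

theorem ltens_ab_homotopic (h : D.Rep ι (LC.C.prod K) (LC.C.prod Z)) :
    PMap.Homotopic (Rep.ltens LC.C h.ab) (h.stab PUnit) := by
  rw [ltens_ab]
  have h1 := (tauB_homotopic (D := D) (ι := ι) (Z := Z)).comp
    (PMap.Homotopic.comp_right (h.stab PUnit) (tauA_homotopic (D := D) (ι := ι) (K := K)))
  rw [PMap.comp_id, PMap.id_comp] at h1
  exact h1

theorem ltens_stab (f : D.Rep ι K L) : (Rep.ltens W f).stab κ = Rep.ltens W (f.stab κ) := by
  unfold Rep.ltens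
  rw [← pre_stab, ← post_stab, stab_tens]

theorem ltens_re (e : ι ≃ κ) (f : D.Rep ι K L) : (Rep.ltens W f).re e = Rep.ltens W (f.re e) := by
  unfold Rep.ltens
  rw [← pre_re, ← post_re, re_tens]

/-- multiplication by a complex line is bijective -/
theorem ltensC_bijective (K L : LC) :
    Function.Bijective (fun x : D.Hom K L => (ltens LC.C x : D.Hom (LC.C.prod K) (LC.C.prod L))) := by
  constructor
  · intro x y hxy
    obtain ⟨n, f, g, rfl, rfl⟩ := exists_common x y
    change ltens LC.C (cls f) = ltens LC.C (cls g) at hxy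
    rw [ltens_cls, ltens_cls] at hxy
    obtain ⟨m, h⟩ := cls_eq_same hxy
    rw [ltens_stab, ltens_stab] at h
    have h2 := hab h
    rw [ab_ltens, ab_ltens] at h2
    have h3 := cls_homotopic h2
    rw [cls_stab, cls_stab, cls_stab, cls_stab] at h3
    exact h3
  · intro y
    obtain ⟨n, h, rfl⟩ := exists_cls y
    refine ⟨cls h.ab, ?_⟩
    change ltens LC.C (cls h.ab) = cls h
    rw [ltens_cls, cls_homotopic (ltens_ab_homotopic h), cls_stab]

end

end Datum

end Pool.Agent.Helper1.Stab
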