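import Pool.Agent.Helper68.Stab.TopA

/-! Loops `(I^N, ∂) → Y` and maps `ℝ^N → Y` that vanish at infinity. -/

open CategoryTheory Topology Filter Set Opposite

noncomputable section

namespace Pool.Agent.Helper1.Stab

namespace Lp

/-! ## The open cube -/

theorem squash_val (t : ℝ) : ((squash t : unitInterval) : ℝ) = (1 + t / (1 + |t|)) / 2 := rfl

theorem squash_cont : Continuous squash := by
  refine Continuous.subtype_mk ?_ _
  refine (continuous_const.add ?_).div_const 2
  exact continuous_id.div (continuous_const.add continuous_abs) fun t => by positivity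

theorem squash_pos (t : ℝ) : 0 < ((squash t : unitInterval) : ℝ) := by
  rw [squash_val]
  have h1 : |t / (1 + |t|)| < 1 := by
    rw [abs_div, abs_of_pos (show 0 < 1 + |t| by positivity), div_lt_one (by positivity)]
    linarith
  linarith [(abs_lt.1 h1).1]

theorem squash_lt (t : ℝ) : ((squash t : unitInterval) : ℝ) < 1 := by
  rw [squash_val]
  have h1 : |t / (1 + |t|)| < 1 := by
    rw [abs_div, abs_of_pos (show 0 < 1 + |t| by positivity), div_lt_one (by positivity)]
    linarith
  linarith [(abs_lt.1 h1).2]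

theorem squash_mono : StrictMono squash := by
  intro s t hst
  rw [← Subtype.coe_lt_coe, squash_val, squash_val]
  have hs : 0 < 1 + |s| := by positivity
  have ht : 0 < 1 + |t| := by positivity
  have h : s / (1 + |s|) < t / (1 + |t|) := by
    rw [div_lt_div_iff₀ hs ht]
    rcases le_total 0 s with h1 | h1 <;> rcases le_total 0 t with h2 | h2
    · rw [abs_of_nonneg h1, abs_of_nonneg h2]; nlinarith
    · rw [abs_of_nonneg h1, abs_of_nonpos h2]; nlinarith
    · rw [abs_of_nonpos h1, abs_of_nonneg h2]; nlinarith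
    · rw [abs_of_nonpos h1, abs_of_nonpos h2]; nlinarith
  linarith

/-- the inverse of `squash` -/
theorem squash_surj {s : unitInterval} (h0 : 0 < (s : ℝ)) (h1 : (s : ℝ) < 1) :
    ∃ t, squash t = s := by
  rcases le_total (s : ℝ) (1 / 2) with h | h
  · refine ⟨(2 * s - 1) / (2 * s), Subtype.ext ?_⟩
    rw [squash_val, abs_of_nonpos (div_nonpos_of_nonpos_of_nonneg (by linarith) (by linarith))]
    have : (2 * (s : ℝ)) ≠ 0 := by linarith
    field_simp
    ring
  · refine ⟨(2 * s - 1) / (2 - 2 * s), Subtype.ext ?_⟩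
    rw [squash_val, abs_of_nonneg (div_nonneg (by linarith) (by linarith))]
    have h2 : (2 - 2 * (s : ℝ)) ≠ 0 := by linarith
    have h3 : 1 + (2 * (s : ℝ) - 1) / (2 - 2 * s) = 1 / (2 - 2 * s) := by
      rw [eq_div_iff h2, add_mul, div_mul_cancel₀ _ h2]
      ring
    rw [h3, div_div_div_cancel_right₀ h2, div_one]
    ring

theorem squash_range : range squash = {s : unitInterval | 0 < (s : ℝ) ∧ (s : ℝ) < 1} := by
  ext s
  constructor
  · rintro ⟨t, rfl⟩
    exact ⟨squash_pos t, squash_lt t⟩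
  · rintro ⟨h0, h1⟩
    exact squash_surj h0 h1

theorem squash_emb : IsEmbedding squash := by
  refine squash_mono.isEmbedding_of_ordConnected ?_
  rw [squash_range]
  refine ⟨fun x hx y hy z hz => ⟨lt_of_lt_of_le hx.1 hz.1, lt_of_le_of_lt hz.2 hy.2⟩⟩

section
variable (N : Type)

/-- the inclusion of the open cube -/
def io (v : N → ℝ) : N → unitInterval := fun i => squash (v i)

theorem io_emb : IsEmbedding (io N) := by
  have h := IsEmbedding.piMap (ι := N) (fun _ => squash_emb)
  exact h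

theorem io_range (s : N → unitInterval) :
    s ∈ range (io N) ↔ ∀ i, 0 < (s i : ℝ) ∧ (s i : ℝ) < 1 := by
  constructor
  · rintro ⟨v, rfl⟩ i
    exact ⟨squash_pos _, squash_lt _⟩
  · intro h
    choose v hv using fun i => squash_surj (h i).1 (h i).2
    exact ⟨v, funext hv⟩

theorem io_open [Finite N] : IsOpen (range (io N)) := by
  have h : range (io N) = ⋂ i, {s : N → unitInterval | 0 < (s i : ℝ) ∧ (s i : ℝ) < 1} := by
    ext s
    rw [io_range, mem_iInter]
    rfl
  rw [h]
  refine isOpen_iInter_of_finite fun i => ?_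
  have hc : Continuous fun s : N → unitInterval => (s i : ℝ) :=
    continuous_subtype_val.comp (continuous_apply i)
  exact (isOpen_lt continuous_const hc).inter (isOpen_lt hc continuous_const)

variable {N}

theorem mem_boundary_iff (s : N → unitInterval) : s ∈ Cube.boundary N ↔ s ∉ range (io N) := by
  rw [io_range]
  constructor
  · rintro ⟨i, hi⟩ h
    rcases hi with hi | hi
    · have := (h i).1
      rw [hi] at this
      exact lt_irrefl _ this
    · have := (h i).2
      rw [hi] at this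
      exact lt_irrefl _ this
  · intro h
    by_contra hb
    apply h
    intro i
    have h0 : s i ≠ 0 := fun h0 => hb ⟨i, Or.inl h0⟩
    have h1 : s i ≠ 1 := fun h1 => hb ⟨i, Or.inr h1⟩
    exact ⟨lt_of_le_of_ne (s i).2.1 fun h => h0 (Subtype.ext h.symm),
      lt_of_le_of_ne (s i).2.2 fun h => h1 (Subtype.ext h)⟩

end

/-! ## Loops and maps -/

section
variable {N : Type} [Finite N] {Y : PT}

/-- the cube -/
abbrev cube (N : Type) [Finite N] : LC := ⟨N → unitInterval⟩

/-- a loop as a map -/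
def ofLoop (f : GenLoop N Y Y.pt) : PMap (LC.rpow N) Y :=
  PMap.ofEmb (K := LC.rpow N) (io N) (io_emb N) f.1 f.1.continuous
    (fun p hp => f.2 p ((mem_boundary_iff p).2 hp))

theorem ofLoop_apply (f : GenLoop N Y Y.pt) (v : N → ℝ) : ofLoop f v = f (io N v) := rfl

/-- the collapse -/
def qq (N : Type) [Finite N] : PMap (cube N) (LC.rpow N).plus :=
  (PMap.ofHomeo (K := (cube N).opn (range (io N)) (io_open N)) (L := LC.rpow N)
    (io_emb N).toHomeomorph.symm).comp (PMap.collapse (K := cube N) (range (io N)) (io_open N))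

theorem qq_io (v : N → ℝ) : qq N (io N v) = ((v : N → ℝ) : OnePoint (N → ℝ)) := by
  change (PMap.ofHomeo (K := (cube N).opn (range (io N)) (io_open N)) (L := LC.rpow N)
    (io_emb N).toHomeomorph.symm).plus (collapseFun (range (io N)) (io N v)) = _
  have h := collapseFun_of_mem (⟨io N v, v, rfl⟩ : range (io N))
  simp only at h
  rw [h]
  refine congrArg OnePoint.some (?_ : (io_emb N).toHomeomorph.symm ⟨io N v, v, rfl⟩ = v)
  rw [Homeomorph.symm_apply_eq]
  rfl

theorem qq_bd {s : N → unitInterval} (h : s ∉ range (io N)) :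
    qq N s = (OnePoint.infty : OnePoint (N → ℝ)) := by
  change (PMap.ofHomeo (K := (cube N).opn (range (io N)) (io_open N)) (L := LC.rpow N)
    (io_emb N).toHomeomorph.symm).plus (collapseFun (range (io N)) s) = _
  rw [collapseFun_of_notMem h]
  rfl

/-- a map as a loop -/
def toLoop (g : PMap (LC.rpow N) Y) : GenLoop N Y Y.pt :=
  ⟨⟨g.comp (qq N), (g.comp (qq N)).cont⟩, fun s hs => by
    change g.plus (qq N s) = Y.pt
    rw [qq_bd ((mem_boundary_iff s).1 hs)]
    rfl⟩

theorem toLoop_apply (g : PMap (LC.rpow N) Y) (s : N → unitInterval) :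
    toLoop g s = g.plus (qq N s) := rfl

theorem ofLoop_toLoop (g : PMap (LC.rpow N) Y) : ofLoop (toLoop g) = g := by
  ext v
  rw [ofLoop_apply, toLoop_apply, qq_io]
  rfl

theorem toLoop_ofLoop (f : GenLoop N Y Y.pt) : toLoop (ofLoop f) = f := by
  ext s
  rw [toLoop_apply]
  by_cases h : s ∈ range (io N)
  · obtain ⟨v, rfl⟩ := h
    rw [qq_io]
    rfl
  · rw [qq_bd h]
    exact (f.2 s ((mem_boundary_iff s).2 h)).symm

theorem ofLoop_homotopic {f g : GenLoop N Y Y.pt} (h : GenLoop.Homotopic f g) :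
    (ofLoop f).Homotopic (ofLoop g) := by
  obtain ⟨H⟩ := h
  refine ⟨PMap.ofEmb (K := LC.I.prod (LC.rpow N)) (P := unitInterval × (N → unitInterval))
    (Prod.map id (io N)) (IsEmbedding.id.prodMap (io_emb N)) H H.continuous ?_, ?_, ?_⟩
  · rintro ⟨t, s⟩ hp
    have hs : s ∉ range (io N) := by
      rintro ⟨v, rfl⟩
      exact hp ⟨(t, v), rfl⟩
    have h1 : s ∈ Cube.boundary N := (mem_boundary_iff s).2 hs
    rw [H.eq_fst t h1]
    exact f.2 s h1
  · intro v
    exact H.apply_zero _
  · intro v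
    exact H.apply_one _

theorem toLoop_homotopic {f g : PMap (LC.rpow N) Y} (h : f.Homotopic g) :
    GenLoop.Homotopic (toLoop f) (toLoop g) := by
  obtain ⟨H, h0, h1⟩ := h
  let F := H.comp ((PMap.id LC.I).box (qq N))
  have hF : ∀ (t : unitInterval) (s : N → unitInterval),
      F (t, s) = H.plus (smashPt LC.I (LC.rpow N) ((t : OnePoint unitInterval), qq N s)) :=
    fun _ _ => rfl
  refine ⟨⟨⟨⟨F, F.cont⟩, fun s => ?_, fun s => ?_⟩, fun t s hs => ?_⟩⟩
  · change F (0, s) = f.plus (qq N s)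
    rw [hF]
    rcases qq N s with _ | v
    · rfl
    · exact h0 v
  · change F (1, s) = g.plus (qq N s)
    rw [hF]
    rcases qq N s with _ | v
    · rfl
    · exact h1 v
  · change F (t, s) = f.plus (qq N s)
    rw [hF, qq_bd ((mem_boundary_iff s).1 hs)]
    rfl

theorem ofLoop_homotopic_iff {f g : GenLoop N Y Y.pt} :
    (ofLoop f).Homotopic (ofLoop g) ↔ GenLoop.Homotopic f g := by
  refine ⟨fun h => ?_, ofLoop_homotopic⟩
  have h1 := toLoop_homotopic h
  rwa [toLoop_ofLoop, toLoop_ofLoop] at h1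

end

end Lp

/-! ## Levels -/

/-- the identity -/
def Prespectrum.castH (X : Prespectrum) {m n : ℕ} (h : n = m) : X.sp n ≃ₜ X.sp m :=
  h ▸ Homeomorph.refl (X.sp n)

/-- the levels of `X.upp b` -/
def Prespectrum.lv (X : Prespectrum) :
    ∀ (b m n : ℕ), n = 2 * b + m → (X.sp n ≃ₜ (X.upp b).sp m)
  | 0, m, n, h => X.castH (h.trans (by omega) : n = m)
  | b + 1, m, n, h => Prespectrum.lv X b (m + 1 + 1) n (by omega)

theorem Prespectrum.lv_pt (X : Prespectrum) (b m n : ℕ) (h : n = 2 * b + m) :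
    X.lv b m n h (X.sp n).pt = ((X.upp b).sp m).pt := by
  induction b generalizing m n with
  | zero =>
    have h' : n = m := by omega
    subst h'
    rfl
  | succ b ih => exact ih (m + 1 + 1) n (by omega)

theorem Prespectrum.lv_str (X : Prespectrum) (b m n : ℕ) (h : n = 2 * b + m)
    (h' : n + 1 = 2 * b + (m + 1)) (t : unitInterval) (x : X.sp n) :
    X.lv b (m + 1) (n + 1) h' (X.str n (t, x)) = (X.upp b).str m (t, X.lv b m n h x) := by
  induction b generalizing m n with
  | zero =>
    have h1 : n = m := by omega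
    subst h1
    rfl
  | succ b ih => exact ih (m + 1 + 1) n (by omega) (by omega) x

theorem Prespectrum.lv_map {X Y : Prespectrum} (w : X ⟶ Y) (b m n : ℕ) (h : n = 2 * b + m)
    (x : X.sp n) : Y.lv b m n h (Prespectrum.Hom.map w n x) =
      Prespectrum.Hom.map (Prespectrum.Hom.uppMap w b) m (X.lv b m n h x) := by
  induction b generalizing m n with
  | zero =>
    have h1 : n = m := by omega
    subst h1
    rfl
  | succ b ih => exact ih (m + 1 + 1) n (by omega) x

/-! ## Coordinates -/

namespace Lp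

/-- `ℝ × (ℝ × ℝ^M) = ℝ^(M+2)` -/
def cons2 (M : ℕ) : LC.C.prod (LC.rpow (Fin M)) ≃ₜ LC.rpow (Fin (M + 1 + 1)) where
  toFun x := Fin.cons x.1.re (Fin.cons x.1.im x.2 : Fin (M + 1) → ℝ)
  invFun x := (⟨x 0, x 1⟩, fun i => x i.succ.succ)
  left_inv x := by
    refine Prod.ext (Complex.ext ?_ ?_) (funext fun i => ?_)
    · simp
    · change (Fin.cons x.1.re (Fin.cons x.1.im x.2 : Fin (M + 1) → ℝ) : Fin (M + 1 + 1) → ℝ) 1 = _
      rw [← Fin.succ_zero_eq_one, Fin.cons_succ, Fin.cons_zero]
    · simp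
  right_inv x := by
    funext i
    refine Fin.cases ?_ (fun i => ?_) i
    · rfl
    · refine Fin.cases ?_ (fun i => ?_) i
      · rfl
      · rfl
  continuous_toFun := by
    refine continuous_pi fun i => ?_
    refine Fin.cases ?_ (fun i => ?_) i
    · simp only [Fin.cons_zero]
      exact Complex.continuous_re.comp continuous_fst
    · simp only [Fin.cons_succ]
      refine Fin.cases ?_ (fun i => ?_) i
      · simp only [Fin.cons_zero]
        exact Complex.continuous_im.comp continuous_fst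
      · simp only [Fin.cons_succ]
        exact (continuous_apply i).comp continuous_snd
  continuous_invFun := by
    refine Continuous.prodMk ?_ (continuous_pi fun i => continuous_apply _)
    have h : Continuous fun x : Fin (M + 1 + 1) → ℝ => (x 0, x 1) :=
      (continuous_apply 0).prodMk (continuous_apply 1)
    exact Complex.equivRealProdCLM.symm.continuous.comp h

/-- `ℂ^j × ℝ^a = ℝ^(a + 2j)` -/
def cr (a : ℕ) : ∀ j : ℕ, (LC.cpow (Fin j)).prod (LC.rpow (Fin a)) ≃ₜ LC.rpow (Fin (a + 2 * j))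
  | 0 => (Homeomorph.uniqueProd (Fin 0 → ℂ) (Fin a → ℝ))
  | j + 1 => (Th.hd j (LC.rpow (Fin a))).trans
      (((Homeomorph.refl ℂ).prodCongr (cr a j)).trans (cons2 (a + 2 * j)))

theorem cr_succ (a j : ℕ) (v : Fin (j + 1) → ℂ) (r : Fin a → ℝ) : cr a (j + 1) (v, r) =
    (Fin.cons (v 0).re (Fin.cons (v 0).im (cr a j (fun i => v i.succ, r)) :
      Fin (a + 2 * j + 1) → ℝ) : Fin (a + 2 * j + 1 + 1) → ℝ) := rfl

/-- renaming of coordinates -/
def cst {m n : ℕ} (h : m = n) : LC.rpow (Fin n) ≃ₜ LC.rpow (Fin m) where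
  toFun v i := v (Fin.cast h i)
  invFun v i := v (Fin.cast h.symm i)
  left_inv v := by ext i; simp
  right_inv v := by ext i; simp
  continuous_toFun := continuous_pi fun i => continuous_apply _
  continuous_invFun := continuous_pi fun i => continuous_apply _

/-- coordinates -/
def crM (a j M : ℕ) (hM : M = a + 2 * j) :
    (LC.cpow (Fin j)).prod (LC.rpow (Fin a)) ≃ₜ LC.rpow (Fin M) :=
  (cr a j).trans (cst hM)

variable {X : Prespectrum}

/-- the representative of a loop -/
def rep (a b j M n : ℕ) (hM : M = a + 2 * j) (hn : n = 2 * b + 2 * j)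
    (f : GenLoop (Fin M) (X.sp n) (X.sp n).pt) : (X.upp b).Rep j (LC.rpow (Fin a)) :=
  PMap.post (X.lv b (2 * j) n hn) (X.lv b (2 * j) n hn).continuous (X.lv_pt b (2 * j) n hn)
    ((ofLoop f).comp (PMap.ofHomeo (crM a j M hM)))

theorem rep_apply (a b j M n : ℕ) (hM : M = a + 2 * j) (hn : n = 2 * b + 2 * j)
    (f : GenLoop (Fin M) (X.sp n) (X.sp n).pt) (v : Fin j → ℂ) (r : Fin a → ℝ) :
    rep a b j M n hM hn f (v, r) =
      X.lv b (2 * j) n hn (f (fun i => squash (cr a j (v, r) (Fin.cast hM i)))) := rfl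

theorem rep_next (a b j M n : ℕ) (hM : M = a + 2 * j) (hn : n = 2 * b + 2 * j)
    (hM' : M + 1 + 1 = a + 2 * (j + 1)) (hn' : n + 1 + 1 = 2 * b + 2 * (j + 1))
    (f : GenLoop (Fin M) (X.sp n) (X.sp n).pt) :
    rep a b (j + 1) (M + 1 + 1) (n + 1 + 1) hM' hn' (X.stab (X.stab f)) =
      (rep a b j M n hM hn f).next := by
  subst hM
  ext ⟨v, r⟩
  rw [rep_apply]
  change X.lv b (2 * j + 1 + 1) (n + 1 + 1) hn' (X.str (n + 1) (squash (v 0).re,
    X.str n (squash (v 0).im, f (fun i => squash (cr a j (fun i => v i.succ, r) i))))) =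
    (X.upp b).str (2 * j + 1) (squash (v 0).re, (X.upp b).str (2 * j) (squash (v 0).im,
      rep a b j (a + 2 * j) n rfl hn f (fun i => v i.succ, r)))
  rw [X.lv_str b (2 * j + 1) (n + 1) (by omega) hn', X.lv_str b (2 * j) n hn (by omega)]
  rfl

theorem rep_homotopic_iff (a b j M n : ℕ) (hM : M = a + 2 * j) (hn : n = 2 * b + 2 * j)
    {f g : GenLoop (Fin M) (X.sp n) (X.sp n).pt} :
    PMap.Homotopic (rep a b j M n hM hn f) (rep a b j M n hM hn g) ↔ GenLoop.Homotopic f g := by
  rw [← ofLoop_homotopic_iff]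
  constructor
  · rintro ⟨H, h0, h1⟩
    have h2 : ((ofLoop f).comp (PMap.ofHomeo (crM a j M hM))).Homotopic
        ((ofLoop g).comp (PMap.ofHomeo (crM a j M hM))) := by
      refine ⟨PMap.post (Z := X.sp n) (X.lv b (2 * j) n hn).symm (X.lv b (2 * j) n hn).symm.continuous
        ((Homeomorph.symm_apply_eq _).2 (X.lv_pt b (2 * j) n hn).symm) H, fun k => ?_, fun k => ?_⟩
      · exact (congrArg (X.lv b (2 * j) n hn).symm (h0 k)).trans
          ((X.lv b (2 * j) n hn).symm_apply_apply _)
      · exact (congrArg (X.lv b (2 * j) n hn).symm (h1 k)).trans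
          ((X.lv b (2 * j) n hn).symm_apply_apply _)
    have h3 := h2.comp_left (PMap.ofHomeo (crM a j M hM).symm)
    have h4 : ∀ f : GenLoop (Fin M) (X.sp n) (X.sp n).pt,
        ((ofLoop f).comp (PMap.ofHomeo (crM a j M hM))).comp
          (PMap.ofHomeo (crM a j M hM).symm) = ofLoop f := by
      intro f
      ext x
      exact congrArg (ofLoop f) ((crM a j M hM).apply_symm_apply x)
    rwa [h4, h4] at h3
  · intro h
    obtain ⟨H, h0, h1⟩ := h.comp_left (PMap.ofHomeo (crM a j M hM))
    exact ⟨PMap.post (X.lv b (2 * j) n hn) (X.lv b (2 * j) n hn).continuous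
      (X.lv_pt b (2 * j) n hn) H, fun k => congrArg (X.lv b (2 * j) n hn) (h0 k),
      fun k => congrArg (X.lv b (2 * j) n hn) (h1 k)⟩

theorem rep_surj (a b j M n : ℕ) (hM : M = a + 2 * j) (hn : n = 2 * b + 2 * j)
    (R : (X.upp b).Rep j (LC.rpow (Fin a))) : ∃ f, rep a b j M n hM hn f = R := by
  refine ⟨toLoop (PMap.comp (PMap.post (Z := X.sp n) (X.lv b (2 * j) n hn).symm
    (X.lv b (2 * j) n hn).symm.continuous
    ((Homeomorph.symm_apply_eq _).2 (X.lv_pt b (2 * j) n hn).symm) R)
    (PMap.ofHomeo (crM a j M hM).symm)), ?_⟩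
  unfold rep
  rw [ofLoop_toLoop]
  ext x
  change X.lv b (2 * j) n hn ((X.lv b (2 * j) n hn).symm (R ((crM a j M hM).symm
    (crM a j M hM x)))) = R x
  rw [Homeomorph.apply_symm_apply, Homeomorph.symm_apply_apply]

theorem rep_const (a b j M n : ℕ) (hM : M = a + 2 * j) (hn : n = 2 * b + 2 * j) :
    rep a b j M n hM hn (GenLoop.const : GenLoop (Fin M) (X.sp n) (X.sp n).pt) =
      PMap.zero _ _ := by
  ext ⟨v, r⟩
  exact X.lv_pt b (2 * j) n hn

theorem rep_push {Y : Prespectrum} (w : X ⟶ Y) (a b j M n : ℕ) (hM : M = a + 2 * j)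
    (hn : n = 2 * b + 2 * j) (f : GenLoop (Fin M) (X.sp n) (X.sp n).pt) :
    rep a b j M n hM hn (postL (Prespectrum.Hom.map w n) (Prespectrum.Hom.map_pt w n) f) =
      Prespectrum.Rep.push (Prespectrum.Hom.uppMap w b) (rep a b j M n hM hn f) := by
  ext ⟨v, r⟩
  exact Prespectrum.lv_map w b (2 * j) n hn _

end Lp

end Pool.Agent.Helper1.Stab
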