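import Pool.Agent.Helper68.Stab.Loops

/-! The class of a loop is additive. -/

open CategoryTheory Topology Filter Set Opposite

noncomputable section

namespace Pool.Agent.Helper1.Stab

namespace Th
variable {Y : Prespectrum} {K L M : LC}

/-- the sum of representatives in the last complex coordinate -/
def addL {j : ℕ} (f g : Y.Rep (j + 1) K) : Y.Rep (j + 1) K :=
  ush (pre (pinchK K) (pair (sh f) (sh g)))

theorem cl_addL {b j : ℕ} (f g : (Y.upp b).Rep (j + 1) K) : cl (addL f g) = cl f + cl g := by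
  apply (seq Y).sg_inj
  rw [(seq Y).sg_add', sg_cl, sg_cl, sg_cl]
  unfold addL
  rw [sh_ush]
  exact cl_op (Y := Y) (b := b + 1) (K := LC.C.prod K) _ (pinchK_unit_left K)
    (pinchK_unit_right K) (sh f) (sh g)

theorem pair_zero {j : ℕ} (f : Y.Rep j K) : pair f (PMap.zero _ _ : Y.Rep j K) =
    pre ((PMap.id K).copair (PMap.zero K K.plus)) f := by
  ext ⟨v, k | k⟩ <;> rfl

theorem zero_pair {j : ℕ} (f : Y.Rep j K) : pair (PMap.zero _ _ : Y.Rep j K) f =
    pre ((PMap.zero K K.plus).copair (PMap.id K)) f := by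
  ext ⟨v, k | k⟩ <;> rfl

theorem addL_zero {j : ℕ} (f : Y.Rep (j + 1) K) :
    PMap.Homotopic (addL f (PMap.zero _ _)) f := by
  have h0 : sh (PMap.zero _ _ : Y.Rep (j + 1) K) = PMap.zero _ _ := rfl
  have h1 : PMap.Homotopic (pre (pinchK K) (pair (sh f) (PMap.zero _ _))) (sh f) := by
    rw [pair_zero, pre_pre]
    have h2 := pre_homotopic (pinchK_unit_left K) (PMap.Homotopic.refl (sh f))
    rw [pre_id] at h2
    exact h2
  have h2 := ush_homotopic h1
  rw [ush_sh] at h2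
  unfold addL
  rw [h0]
  exact h2

theorem zero_addL {j : ℕ} (f : Y.Rep (j + 1) K) :
    PMap.Homotopic (addL (PMap.zero _ _) f) f := by
  have h0 : sh (PMap.zero _ _ : Y.Rep (j + 1) K) = PMap.zero _ _ := rfl
  have h1 : PMap.Homotopic (pre (pinchK K) (pair (PMap.zero _ _) (sh f))) (sh f) := by
    rw [zero_pair, pre_pre]
    have h2 := pre_homotopic (pinchK_unit_right K) (PMap.Homotopic.refl (sh f))
    rw [pre_id] at h2
    exact h2
  have h2 := ush_homotopic h1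
  rw [ush_sh] at h2
  unfold addL
  rw [h0]
  exact h2

/-- change of the last coordinate -/
def updL {j : ℕ} (v : Fin (j + 1) → ℂ) (c : ℂ) : Fin (j + 1) → ℂ := fun i =>
  Fin.lastCases (motive := fun _ => ℂ) c (fun i => v i.castSucc) i

theorem addL_val {j : ℕ} (f g : Y.Rep (j + 1) K) (v : Fin (j + 1) → ℂ) (k : K) :
    addL f g (v, k) = OnePoint.elim (pinch (v (Fin.last j))) (Y.sp (2 * (j + 1))).pt
      (fun s : ℂ ⊕ ℂ => Sum.elim (fun c => f (updL v c, k)) (fun c => g (updL v c, k)) s) := by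
  change PMap.plus (pair (sh f) (sh g)) (smashPt (LC.cpow (Fin j)) ((LC.C.prod K).sum (LC.C.prod K))
    (((fun i => v i.castSucc : Fin j → ℂ) : OnePoint (Fin j → ℂ)),
      pinchK K (v (Fin.last j), k))) = _
  rw [Datum.pinchK_val]
  rcases pinch (v (Fin.last j)) with _ | (c | c) <;> rfl

end Th

namespace Lp
variable {X : Prespectrum}

/-- change of the first real coordinate -/
def updF {j : ℕ} (v : Fin (j + 1) → ℂ) (t : ℝ) : Fin (j + 1) → ℂ :=
  Fin.cons ⟨t, (v 0).im⟩ (fun i => v i.succ)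

theorem updL_zero {j : ℕ} (v : Fin (j + 1 + 1) → ℂ) (c : ℂ) : Th.updL v c 0 = v 0 := by
  unfold Th.updL
  rw [show (0 : Fin (j + 1 + 1)) = (0 : Fin (j + 1)).castSucc from rfl, Fin.lastCases_castSucc]

theorem updF_updL {j : ℕ} (v : Fin (j + 1 + 1) → ℂ) (t : ℝ) (c : ℂ) :
    Th.updL (updF v t) c = updF (Th.updL v c) t := by
  funext i
  refine Fin.cases ?_ (fun i => ?_) i
  · change Th.updL (updF v t) c 0 = ⟨t, (Th.updL v c 0).im⟩
    rw [updL_zero, updL_zero]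
    rfl
  · change Th.updL (updF v t) c i.succ = Th.updL v c i.succ
    unfold Th.updL
    refine Fin.lastCases ?_ (fun i => ?_) i
    · rw [Fin.succ_last, Fin.lastCases_last, Fin.lastCases_last]
    · rw [Fin.succ_castSucc, Fin.lastCases_castSucc, Fin.lastCases_castSucc]
      rfl

theorem updF_last {j : ℕ} (v : Fin (j + 1 + 1) → ℂ) (t : ℝ) :
    updF v t (Fin.last (j + 1)) = v (Fin.last (j + 1)) := rfl

theorem update_coord (a j : ℕ) (v : Fin (j + 1) → ℂ) (r : Fin a → ℝ) (t : ℝ) :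
    Function.update (fun i : Fin (a + 2 * j + 1 + 1) => squash (cr a (j + 1) (v, r) i)) 0
      (squash t) = fun i => squash (cr a (j + 1) (updF v t, r) i) := by
  funext i
  rw [cr_succ, cr_succ]
  refine Fin.cases ?_ (fun i => ?_) i
  · rw [Function.update_self]
    rfl
  · rw [Function.update_of_ne (Fin.succ_ne_zero i)]
    refine Fin.cases ?_ (fun i => ?_) i
    · rfl
    · rfl

/-- the value of a loop with a given first coordinate -/
def Rv (a b j n : ℕ) (hn : n = 2 * b + 2 * (j + 1))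
    (f : GenLoop (Fin (a + 2 * (j + 1))) (X.sp n) (X.sp n).pt) (s : unitInterval)
    (v : Fin (j + 1) → ℂ) (r : Fin a → ℝ) : (X.upp b).sp (2 * (j + 1)) :=
  X.lv b (2 * (j + 1)) n hn (f (Function.update
    (fun i : Fin (a + 2 * j + 1 + 1) => squash (cr a (j + 1) (v, r) i)) 0 s))

theorem Rv_squash (a b j n : ℕ) (hn : n = 2 * b + 2 * (j + 1))
    (f : GenLoop (Fin (a + 2 * (j + 1))) (X.sp n) (X.sp n).pt) (t : ℝ)
    (v : Fin (j + 1) → ℂ) (r : Fin a → ℝ) : Rv a b j n hn f (squash t) v r =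
      rep a b (j + 1) (a + 2 * (j + 1)) n rfl hn f (updF v t, r) := by
  unfold Rv
  rw [update_coord]
  rfl

theorem Rv_bd (a b j n : ℕ) (hn : n = 2 * b + 2 * (j + 1))
    (f : GenLoop (Fin (a + 2 * (j + 1))) (X.sp n) (X.sp n).pt) {s : unitInterval}
    (hs : ¬ (0 < (s : ℝ) ∧ (s : ℝ) < 1))
    (v : Fin (j + 1) → ℂ) (r : Fin a → ℝ) : Rv a b j n hn f s v r =
      ((X.upp b).sp (2 * (j + 1))).pt := by
  unfold Rv
  refine Eq.trans ?_ (X.lv_pt b (2 * (j + 1)) n hn)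
  congr 1
  refine f.2 _ ((mem_boundary_iff _).2 fun h => hs ?_)
  have h1 := (io_range _ _).1 h 0
  rw [Function.update_self] at h1
  exact h1

theorem rep_trans (a b j n : ℕ) (hn : n = 2 * b + 2 * (j + 1))
    (f g : GenLoop (Fin (a + 2 * (j + 1))) (X.sp n) (X.sp n).pt)
    (v : Fin (j + 1) → ℂ) (r : Fin a → ℝ) :
    rep a b (j + 1) (a + 2 * (j + 1)) n rfl hn
      (GenLoop.transAt (0 : Fin (a + 2 * j + 1 + 1)) f g) (v, r) =
      if ((squash (v 0).re : unitInterval) : ℝ) ≤ 1 / 2 then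
        Rv a b j n hn f (Set.projIcc 0 1 zero_le_one (2 * ((squash (v 0).re : unitInterval) : ℝ))) v r
      else Rv a b j n hn g
        (Set.projIcc 0 1 zero_le_one (2 * ((squash (v 0).re : unitInterval) : ℝ) - 1)) v r := by
  rw [rep_apply]
  simp only [GenLoop.transAt, GenLoop.coe_copy]
  by_cases h : ((squash (v 0).re : unitInterval) : ℝ) ≤ 1 / 2
  · rw [if_pos h]
    exact congrArg (X.lv b (2 * (j + 1)) n hn) (if_pos h)
  · rw [if_neg h]
    exact congrArg (X.lv b (2 * (j + 1)) n hn) (if_neg h)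

/-- sums of values -/
theorem Rv_addL (a b j n : ℕ) (hn : n = 2 * b + 2 * (j + 1 + 1))
    (f g h : GenLoop (Fin (a + 2 * (j + 1 + 1))) (X.sp n) (X.sp n).pt)
    (hh : rep a b (j + 1 + 1) _ n rfl hn h = Th.addL (rep a b (j + 1 + 1) _ n rfl hn f)
      (rep a b (j + 1 + 1) _ n rfl hn g)) (s : unitInterval)
    (v : Fin (j + 1 + 1) → ℂ) (r : Fin a → ℝ) : Rv a b (j + 1) n hn h s v r =
      OnePoint.elim (pinch (v (Fin.last (j + 1)))) ((X.upp b).sp (2 * (j + 1 + 1))).pt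
      (fun p : ℂ ⊕ ℂ => Sum.elim (fun c => Rv a b (j + 1) n hn f s (Th.updL v c) r)
        (fun c => Rv a b (j + 1) n hn g s (Th.updL v c) r) p) := by
  by_cases hs : 0 < (s : ℝ) ∧ (s : ℝ) < 1
  · obtain ⟨t, rfl⟩ := squash_surj hs.1 hs.2
    rw [Rv_squash, hh, Th.addL_val, updF_last]
    rcases pinch (v (Fin.last (j + 1))) with _ | (c | c)
    · rfl
    · change rep a b (j + 1 + 1) _ n rfl hn f (Th.updL (updF v t) c, r) =
        Rv a b (j + 1) n hn f (squash t) (Th.updL v c) r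
      rw [Rv_squash, updF_updL]
    · change rep a b (j + 1 + 1) _ n rfl hn g (Th.updL (updF v t) c, r) =
        Rv a b (j + 1) n hn g (squash t) (Th.updL v c) r
      rw [Rv_squash, updF_updL]
  · rw [Rv_bd _ _ _ _ _ _ hs]
    rcases pinch (v (Fin.last (j + 1))) with _ | (c | c)
    · rfl
    · exact (Rv_bd a b (j + 1) n hn f hs (Th.updL v c) r).symm
    · exact (Rv_bd a b (j + 1) n hn g hs (Th.updL v c) r).symm

/-- the interchange law -/
theorem rep_interchange (a b j n : ℕ) (hn : n = 2 * b + 2 * (j + 1 + 1))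
    (f1 f2 g1 g2 h1 h2 : GenLoop (Fin (a + 2 * (j + 1 + 1))) (X.sp n) (X.sp n).pt)
    (e1 : rep a b (j + 1 + 1) _ n rfl hn h1 = Th.addL (rep a b (j + 1 + 1) _ n rfl hn f1)
      (rep a b (j + 1 + 1) _ n rfl hn g1))
    (e2 : rep a b (j + 1 + 1) _ n rfl hn h2 = Th.addL (rep a b (j + 1 + 1) _ n rfl hn f2)
      (rep a b (j + 1 + 1) _ n rfl hn g2)) :
    Th.addL (rep a b (j + 1 + 1) _ n rfl hn
        (GenLoop.transAt (0 : Fin (a + 2 * (j + 1) + 1 + 1)) f1 f2))
      (rep a b (j + 1 + 1) _ n rfl hn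
        (GenLoop.transAt (0 : Fin (a + 2 * (j + 1) + 1 + 1)) g1 g2)) =
    rep a b (j + 1 + 1) _ n rfl hn (GenLoop.transAt (0 : Fin (a + 2 * (j + 1) + 1 + 1)) h1 h2) := by
  ext ⟨v, r⟩
  rw [Th.addL_val, rep_trans, Rv_addL a b j n hn f1 g1 h1 e1, Rv_addL a b j n hn f2 g2 h2 e2]
  rcases pinch (v (Fin.last (j + 1))) with _ | (c | c)
  · by_cases h : ((squash (v 0).re : unitInterval) : ℝ) ≤ 1 / 2
    · rw [if_pos h]; rfl
    · rw [if_neg h]; rfl
  · change rep a b (j + 1 + 1) _ n rfl hn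
      (GenLoop.transAt (0 : Fin (a + 2 * (j + 1) + 1 + 1)) f1 f2) (Th.updL v c, r) = _
    rw [rep_trans, updL_zero]
    rfl
  · change rep a b (j + 1 + 1) _ n rfl hn
      (GenLoop.transAt (0 : Fin (a + 2 * (j + 1) + 1 + 1)) g1 g2) (Th.updL v c, r) = _
    rw [rep_trans, updL_zero]
    rfl

/-- the class of a loop -/
def tl (a b j M n : ℕ) (hM : M = a + 2 * j) (hn : n = 2 * b + 2 * j)
    (f : GenLoop (Fin M) (X.sp n) (X.sp n).pt) : Th.GG X b (LC.rpow (Fin a)) :=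
  Th.cl (rep a b j M n hM hn f)

theorem hgm_eq {N Y : Type} [TopologicalSpace Y] {y : Y} {f g : GenLoop N Y y} :
    hgm f = hgm g ↔ GenLoop.Homotopic f g := Quotient.eq

/-- additivity -/
theorem tl_trans (a b j M n : ℕ) (hM : M + 1 + 1 = a + 2 * (j + 1 + 1))
    (hn : n = 2 * b + 2 * (j + 1 + 1))
    (f g : GenLoop (Fin (M + 1 + 1)) (X.sp n) (X.sp n).pt) :
    tl a b (j + 1 + 1) (M + 1 + 1) n hM hn (GenLoop.transAt 0 f g) =
      tl a b (j + 1 + 1) (M + 1 + 1) n hM hn f + tl a b (j + 1 + 1) (M + 1 + 1) n hM hn g := by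
  obtain rfl : M = a + 2 * (j + 1) := by omega
  have k1 : GenLoop.Homotopic (GenLoop.transAt 0 f GenLoop.const) f := by
    rw [← hgm_eq, ← hgm_mul 0]
    exact one_mul (hgm f)
  have k2 : GenLoop.Homotopic (GenLoop.transAt 0 GenLoop.const g) g := by
    rw [← hgm_eq, ← hgm_mul 0]
    exact mul_one (hgm g)
  obtain ⟨h1, e1⟩ := rep_surj a b (j + 1 + 1) (a + 2 * (j + 1 + 1)) n rfl hn
    (Th.addL (rep a b (j + 1 + 1) _ n rfl hn f) (rep a b (j + 1 + 1) _ n rfl hn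
      (GenLoop.const : GenLoop (Fin (a + 2 * (j + 1) + 1 + 1)) (X.sp n) (X.sp n).pt)))
  obtain ⟨h2, e2⟩ := rep_surj a b (j + 1 + 1) (a + 2 * (j + 1 + 1)) n rfl hn
    (Th.addL (rep a b (j + 1 + 1) _ n rfl hn
      (GenLoop.const : GenLoop (Fin (a + 2 * (j + 1) + 1 + 1)) (X.sp n) (X.sp n).pt))
      (rep a b (j + 1 + 1) _ n rfl hn g))
  have k3 := rep_interchange a b j n hn f GenLoop.const GenLoop.const g h1 h2 e1 e2
  have k4 : GenLoop.Homotopic h1 f := by
    rw [← rep_homotopic_iff a b (j + 1 + 1) (a + 2 * (j + 1 + 1)) n rfl hn, e1, rep_const]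
    exact Th.addL_zero _
  have k5 : GenLoop.Homotopic h2 g := by
    rw [← rep_homotopic_iff a b (j + 1 + 1) (a + 2 * (j + 1 + 1)) n rfl hn, e2, rep_const]
    exact Th.zero_addL _
  have k6 : GenLoop.Homotopic (GenLoop.transAt 0 h1 h2) (GenLoop.transAt 0 f g) := by
    rw [← hgm_eq, ← hgm_mul 0, ← hgm_mul 0, hgm_eq.2 k4, hgm_eq.2 k5]
  have k7 : tl a b (j + 1 + 1) (a + 2 * (j + 1) + 1 + 1) n hM hn
      (GenLoop.transAt 0 f GenLoop.const) = tl a b (j + 1 + 1) _ n hM hn f :=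
    Th.cl_homotopic ((rep_homotopic_iff _ _ _ _ _ _ _).2 k1)
  have k8 : tl a b (j + 1 + 1) (a + 2 * (j + 1) + 1 + 1) n hM hn
      (GenLoop.transAt 0 GenLoop.const g) = tl a b (j + 1 + 1) _ n hM hn g :=
    Th.cl_homotopic ((rep_homotopic_iff _ _ _ _ _ _ _).2 k2)
  have k9 : tl a b (j + 1 + 1) (a + 2 * (j + 1) + 1 + 1) n hM hn
      (GenLoop.transAt 0 h1 h2) = tl a b (j + 1 + 1) _ n hM hn (GenLoop.transAt 0 f g) :=
    Th.cl_homotopic ((rep_homotopic_iff _ _ _ _ _ _ _).2 k6)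
  rw [← k7, ← k8, ← k9]
  unfold tl
  rw [← Th.cl_addL]
  exact congrArg Th.cl k3.symm

end Lp

end Pool.Agent.Helper1.Stab
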