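import Pool.Agent.Helper68.Stab.PiAdd

/-! Stable homotopy groups are the values of the graded functor on `ℝ^a`. -/

open CategoryTheory Topology Filter Set Opposite

noncomputable section

namespace Pool.Agent.Helper1.Stab

namespace Ps

section
variable (a b i0 a' b' : ℕ) (ha : a' = a + i0) (hb : b + i0 = 2 * b')

/-- the sequence of homotopy groups -/
abbrev F (X : Prespectrum) : ℕ ⥤ AddCommGrpCat.{0} :=
  Functor.ofSequence (fun i => X.stabHom (a + i) (b + i + 2))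

/-- the target -/
abbrev Gt (X : Prespectrum) : AddCommGrpCat.{0} :=
  AddCommGrpCat.of (Th.GG X b' (LC.rpow (Fin a')))

include ha in
theorem hM (k : ℕ) : a + (i0 + 2 * k + 2) + 1 + 1 = a' + 2 * (k + 1 + 1) := by omega
include hb in
theorem hn (k : ℕ) : b + (i0 + 2 * k + 2) + 2 = 2 * b' + 2 * (k + 1 + 1) := by omega

/-- the class of a loop -/
def tauFun (X : Prespectrum) (k : ℕ)
    (x : X.piGrp (a + (i0 + 2 * k + 2)) (b + (i0 + 2 * k + 2) + 2)) :
    Th.GG X b' (LC.rpow (Fin a')) :=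
  Quotient.lift (fun f => Lp.tl a' b' (k + 1 + 1) (a + (i0 + 2 * k + 2) + 1 + 1)
    (b + (i0 + 2 * k + 2) + 2) (hM a i0 a' ha k) (hn b i0 b' hb k) f)
    (fun _ _ h => Th.cl_homotopic ((Lp.rep_homotopic_iff _ _ _ _ _ _ _).2 h))
    (Additive.toMul x)

/-- a loop as an element -/
def el (X : Prespectrum) {m n : ℕ} (f : GenLoop (Fin (m + 2)) (X.sp n) (X.sp n).pt) :
    X.piGrp m n := Additive.ofMul (hgm f)

theorem exists_el (X : Prespectrum) {m n : ℕ} (x : X.piGrp m n) : ∃ f, x = el X f := by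
  obtain ⟨f⟩ := x
  exact ⟨f, rfl⟩

theorem tauFun_el (X : Prespectrum) (k : ℕ)
    (f : GenLoop (Fin (a + (i0 + 2 * k + 2) + 2)) (X.sp (b + (i0 + 2 * k + 2) + 2))
      (X.sp (b + (i0 + 2 * k + 2) + 2)).pt) :
    tauFun a b i0 a' b' ha hb X k (el X f) = Lp.tl a' b' (k + 1 + 1)
      (a + (i0 + 2 * k + 2) + 1 + 1) (b + (i0 + 2 * k + 2) + 2) (hM a i0 a' ha k)
      (hn b i0 b' hb k) f := rfl

theorem tauFun_add (X : Prespectrum) (k : ℕ)
    (x y : X.piGrp (a + (i0 + 2 * k + 2)) (b + (i0 + 2 * k + 2) + 2)) :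
    tauFun a b i0 a' b' ha hb X k (x + y) =
      tauFun a b i0 a' b' ha hb X k x + tauFun a b i0 a' b' ha hb X k y := by
  obtain ⟨f, rfl⟩ := exists_el X x
  obtain ⟨g, rfl⟩ := exists_el X y
  have h1 : el X f + el X g = el X (GenLoop.transAt 0 g f) :=
    congrArg Additive.ofMul (hgm_mul 0 f g)
  rw [h1, tauFun_el, tauFun_el, tauFun_el]
  exact (Lp.tl_trans a' b' k (a + (i0 + 2 * k + 2)) (b + (i0 + 2 * k + 2) + 2)
    (hM a i0 a' ha k) (hn b i0 b' hb k) g f).trans (add_comm _ _)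

/-- the class of a loop, as a homomorphism -/
def tau (X : Prespectrum) (k : ℕ) : (F a b X).obj (i0 + 2 * k + 2) ⟶ Gt a' b' X :=
  AddCommGrpCat.ofHom (AddMonoidHom.mk' (tauFun a b i0 a' b' ha hb X k)
    (tauFun_add a b i0 a' b' ha hb X k))

theorem map_two (X : Prespectrum) (i : ℕ) (h : i ≤ i + 1 + 1) :
    (F a b X).map (homOfLE h) =
      X.stabHom (a + i) (b + i + 2) ≫ X.stabHom (a + (i + 1)) (b + (i + 1) + 2) := by
  have h1 : homOfLE h = homOfLE (Nat.le_add_right i 1) ≫ homOfLE (Nat.le_add_right (i + 1) 1) :=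
    rfl
  rw [h1, CategoryTheory.Functor.map_comp, Functor.ofSequence_map_homOfLE_succ,
    Functor.ofSequence_map_homOfLE_succ]
  rfl

/-- the double stabilisation -/
theorem map_two_el (X : Prespectrum) (i : ℕ) (h : i ≤ i + 1 + 1)
    (f : GenLoop (Fin (a + i + 2)) (X.sp (b + i + 2)) (X.sp (b + i + 2)).pt) :
    (F a b X).map (homOfLE h) (el X f : X.piGrp (a + i) (b + i + 2)) =
      (el X (X.stab (X.stab f)) : X.piGrp (a + i + 1 + 1) (b + i + 2 + 1 + 1)) := by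
  rw [map_two]
  rfl

theorem tau_step (X : Prespectrum) (k : ℕ) (h : i0 + 2 * k + 2 ≤ i0 + 2 * (k + 1) + 2) :
    (F a b X).map (homOfLE h) ≫ tau a b i0 a' b' ha hb X (k + 1) =
      tau a b i0 a' b' ha hb X k := by
  ext x
  obtain ⟨f, rfl⟩ := exists_el X x
  change tauFun a b i0 a' b' ha hb X (k + 1) ((F a b X).map (homOfLE h)
    (el X f : X.piGrp (a + (i0 + 2 * k + 2)) (b + (i0 + 2 * k + 2) + 2))) =
    tauFun a b i0 a' b' ha hb X k (el X f)
  have h1 := map_two_el a b X (i0 + 2 * k + 2) h f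
  refine (congrArg (tauFun a b i0 a' b' ha hb X (k + 1)) h1).trans ?_
  change Th.cl (Lp.rep a' b' (k + 1 + 1 + 1) (a + (i0 + 2 * k + 2) + 1 + 1 + 1 + 1)
    (b + (i0 + 2 * k + 2) + 2 + 1 + 1) _ _ (X.stab (X.stab f))) =
    Th.cl (Lp.rep a' b' (k + 1 + 1) (a + (i0 + 2 * k + 2) + 1 + 1)
    (b + (i0 + 2 * k + 2) + 2) _ _ f)
  rw [Lp.rep_next a' b' (k + 1 + 1) (a + (i0 + 2 * k + 2) + 1 + 1)
    (b + (i0 + 2 * k + 2) + 2) (hM a i0 a' ha k) (hn b i0 b' hb k)]
  exact Th.cls_next _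

theorem tau_le (X : Prespectrum) (k k' : ℕ) (hk : k ≤ k')
    (h : i0 + 2 * k + 2 ≤ i0 + 2 * k' + 2) :
    (F a b X).map (homOfLE h) ≫ tau a b i0 a' b' ha hb X k' = tau a b i0 a' b' ha hb X k := by
  induction k', hk using Nat.le_induction with
  | base =>
    have h1 : homOfLE h = 𝟙 _ := rfl
    rw [h1, CategoryTheory.Functor.map_id, Category.id_comp]
  | succ m hm ih =>
    have h1 : homOfLE h = homOfLE (show i0 + 2 * k + 2 ≤ i0 + 2 * m + 2 by omega) ≫
      homOfLE (show i0 + 2 * m + 2 ≤ i0 + 2 * (m + 1) + 2 by omega) := rfl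
    rw [h1, CategoryTheory.Functor.map_comp, Category.assoc, tau_step, ih]

/-- the legs -/
def leg (X : Prespectrum) (i : ℕ) : (F a b X).obj i ⟶ Gt a' b' X :=
  (F a b X).map (homOfLE (show i ≤ i0 + 2 * i + 2 by omega)) ≫ tau a b i0 a' b' ha hb X i

theorem leg_eq (X : Prespectrum) (i k : ℕ) (h : i ≤ i0 + 2 * k + 2) (hk : i ≤ k) :
    (F a b X).map (homOfLE h) ≫ tau a b i0 a' b' ha hb X k = leg a b i0 a' b' ha hb X i := by
  have h1 : homOfLE h = homOfLE (show i ≤ i0 + 2 * i + 2 by omega) ≫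
      homOfLE (show i0 + 2 * i + 2 ≤ i0 + 2 * k + 2 by omega) := rfl
  rw [h1, CategoryTheory.Functor.map_comp, Category.assoc, tau_le a b i0 a' b' ha hb X i k hk]
  rfl

theorem leg_nat (X : Prespectrum) {i i' : ℕ} (f : i ⟶ i') :
    (F a b X).map f ≫ leg a b i0 a' b' ha hb X i' = leg a b i0 a' b' ha hb X i := by
  have hf : i ≤ i' := leOfHom f
  have h0 : f = homOfLE hf := rfl
  have h1 : homOfLE (show i ≤ i0 + 2 * i' + 2 by omega) = homOfLE hf ≫
    homOfLE (show i' ≤ i0 + 2 * i' + 2 by omega) := rfl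
  rw [← leg_eq a b i0 a' b' ha hb X i i' (by omega) hf, h1, CategoryTheory.Functor.map_comp,
    Category.assoc, h0]
  rfl

/-- the cocone -/
def coc (X : Prespectrum) : Limits.Cocone (F a b X) where
  pt := Gt a' b' X
  ι :=
    { app := fun i => leg a b i0 a' b' ha hb X i
      naturality := fun i i' f => by
        rw [leg_nat]
        exact (Category.comp_id _).symm }

/-- the comparison -/
def dsc (X : Prespectrum) : Limits.colimit (F a b X) ⟶ Gt a' b' X :=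
  Limits.colimit.desc (F a b X) (coc a b i0 a' b' ha hb X)

theorem ι_dsc (X : Prespectrum) (i : ℕ) :
    Limits.colimit.ι (F a b X) i ≫ dsc a b i0 a' b' ha hb X = leg a b i0 a' b' ha hb X i :=
  Limits.colimit.ι_desc _ _

/-- the point of the sequence of sets of homotopy classes -/
def sp (X : Prespectrum) (k : ℕ)
    (f : GenLoop (Fin (a + (i0 + 2 * k + 2) + 2)) (X.sp (b + (i0 + 2 * k + 2) + 2))
      (X.sp (b + (i0 + 2 * k + 2) + 2)).pt) :
    Σ n, Th.HA (X.upp b') (LC.rpow (Fin a')) n :=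
  ⟨k + 1 + 1, PMap.cls (Lp.rep a' b' (k + 1 + 1) (a + (i0 + 2 * k + 2) + 1 + 1)
        (b + (i0 + 2 * k + 2) + 2) (hM a i0 a' ha k) (hn b i0 b' hb k) f)⟩

theorem stp_sp (X : Prespectrum) (k : ℕ)
    (f : GenLoop (Fin (a + (i0 + 2 * k + 2) + 2)) (X.sp (b + (i0 + 2 * k + 2) + 2))
      (X.sp (b + (i0 + 2 * k + 2) + 2)).pt) :
    Sq.stp Th.hs (sp a b i0 a' b' ha hb X k f) =
      sp a b i0 a' b' ha hb X (k + 1) (X.stab (X.stab f)) := by
  change (⟨k + 1 + 1 + 1, PMap.cls (Prespectrum.Rep.next (Lp.rep a' b' (k + 1 + 1)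
      (a + (i0 + 2 * k + 2) + 1 + 1)
        (b + (i0 + 2 * k + 2) + 2) (hM a i0 a' ha k) (hn b i0 b' hb k) f))⟩ :
      Σ n, Th.HA (X.upp b') (LC.rpow (Fin a')) n) = _
  rw [← Lp.rep_next a' b' (k + 1 + 1) (a + (i0 + 2 * k + 2) + 1 + 1)
    (b + (i0 + 2 * k + 2) + 2) (hM a i0 a' ha k) (hn b i0 b' hb k)
    (hM a i0 a' ha (k + 1)) (hn b i0 b' hb (k + 1))]
  rfl

theorem inj_aux (X : Prespectrum) (m k : ℕ)
    (f g : GenLoop (Fin (a + (i0 + 2 * k + 2) + 2)) (X.sp (b + (i0 + 2 * k + 2) + 2))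
      (X.sp (b + (i0 + 2 * k + 2) + 2)).pt)
    (h : (Sq.stp Th.hs)^[m] (sp a b i0 a' b' ha hb X k f) =
      (Sq.stp Th.hs)^[m] (sp a b i0 a' b' ha hb X k g)) :
    ∃ (k' : ℕ) (hk : i0 + 2 * k + 2 ≤ i0 + 2 * k' + 2),
      (F a b X).map (homOfLE hk) (el X f : X.piGrp (a + (i0 + 2 * k + 2)) (b + (i0 + 2 * k + 2) + 2))
        = (F a b X).map (homOfLE hk)
          (el X g : X.piGrp (a + (i0 + 2 * k + 2)) (b + (i0 + 2 * k + 2) + 2)) := by
  induction m generalizing k with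
  | zero =>
    refine ⟨k, le_rfl, ?_⟩
    have h1 := eq_of_heq (Sigma.mk.inj_iff.1 h).2
    have h2 : GenLoop.Homotopic f g :=
      (Lp.rep_homotopic_iff a' b' (k + 1 + 1) _ _ (hM a i0 a' ha k) (hn b i0 b' hb k)).1
        (PMap.cls_eq.1 h1)
    have h3 : el X f = el X g := congrArg Additive.ofMul (Lp.hgm_eq.2 h2)
    exact congrArg _ h3
  | succ m ih =>
    rw [Function.iterate_succ_apply, Function.iterate_succ_apply, stp_sp, stp_sp] at h
    obtain ⟨k', hk, h1⟩ := ih (k + 1) _ _ h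
    refine ⟨k', by omega, ?_⟩
    have h2 : ∀ f : GenLoop (Fin (a + (i0 + 2 * k + 2) + 2)) (X.sp (b + (i0 + 2 * k + 2) + 2))
        (X.sp (b + (i0 + 2 * k + 2) + 2)).pt,
        (F a b X).map (homOfLE (show i0 + 2 * k + 2 ≤ i0 + 2 * k' + 2 by omega))
          (el X f : X.piGrp (a + (i0 + 2 * k + 2)) (b + (i0 + 2 * k + 2) + 2)) =
        (F a b X).map (homOfLE hk) (el X (X.stab (X.stab f)) :
          X.piGrp (a + (i0 + 2 * (k + 1) + 2)) (b + (i0 + 2 * (k + 1) + 2) + 2)) := by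
      intro f
      have h3 : homOfLE (show i0 + 2 * k + 2 ≤ i0 + 2 * k' + 2 by omega) =
        homOfLE (show i0 + 2 * k + 2 ≤ i0 + 2 * k + 2 + 1 + 1 by omega) ≫ homOfLE hk := rfl
      rw [h3, CategoryTheory.Functor.map_comp]
      exact congrArg ((F a b X).map (homOfLE hk)) (map_two_el a b X (i0 + 2 * k + 2) _ f)
    rw [h2, h2]
    exact h1

theorem tau_eq (X : Prespectrum) (k : ℕ) (x y : (F a b X).obj (i0 + 2 * k + 2))
    (h : tau a b i0 a' b' ha hb X k x = tau a b i0 a' b' ha hb X k y) :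
    ∃ (k' : ℕ) (hk : i0 + 2 * k + 2 ≤ i0 + 2 * k' + 2),
      (F a b X).map (homOfLE hk) x = (F a b X).map (homOfLE hk) y := by
  obtain ⟨f, rfl⟩ := exists_el X x
  obtain ⟨g, rfl⟩ := exists_el X y
  have h1 : Th.cl (Lp.rep a' b' (k + 1 + 1) (a + (i0 + 2 * k + 2) + 1 + 1)
        (b + (i0 + 2 * k + 2) + 2) (hM a i0 a' ha k) (hn b i0 b' hb k) f) =
      Th.cl (Lp.rep a' b' (k + 1 + 1) (a + (i0 + 2 * k + 2) + 1 + 1)
        (b + (i0 + 2 * k + 2) + 2) (hM a i0 a' ha k) (hn b i0 b' hb k) g) := h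
  obtain ⟨m, hm⟩ := Th.cl_eq_iff.1 h1
  refine inj_aux a b i0 a' b' ha hb X m k f g ?_
  unfold sp
  rw [Sq.stp_iter, Sq.stp_iter, Th.up_cls, Th.up_cls, PMap.cls_eq.2 hm]

theorem dsc_bijective (X : Prespectrum) :
    Function.Bijective (dsc a b i0 a' b' ha hb X) := by
  constructor
  · refine (injective_iff_map_eq_zero (dsc a b i0 a' b' ha hb X).hom).2 fun z hz => ?_
    obtain ⟨i, x, rfl⟩ := Limits.Concrete.colimit_exists_rep (F a b X) z
    have h1 : leg a b i0 a' b' ha hb X i x = 0 := by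
      rw [← ι_dsc]
      exact hz
    have h2 : tau a b i0 a' b' ha hb X i ((F a b X).map
        (homOfLE (show i ≤ i0 + 2 * i + 2 by omega)) x) =
        tau a b i0 a' b' ha hb X i 0 := by
      refine Eq.trans h1 ?_
      exact (map_zero (tau a b i0 a' b' ha hb X i).hom).symm
    obtain ⟨k', hk, h3⟩ := tau_eq a b i0 a' b' ha hb X i _ _ h2
    have h4 : (F a b X).map (homOfLE hk) ((F a b X).map
        (homOfLE (show i ≤ i0 + 2 * i + 2 by omega)) x) = 0 :=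
      h3.trans (map_zero ((F a b X).map (homOfLE hk)).hom)
    have h5 : Limits.colimit.ι (F a b X) i = (F a b X).map
        (homOfLE (show i ≤ i0 + 2 * i + 2 by omega)) ≫ (F a b X).map (homOfLE hk) ≫
          Limits.colimit.ι (F a b X) (i0 + 2 * k' + 2) := by
      rw [Limits.colimit.w, Limits.colimit.w]
    rw [h5]
    change Limits.colimit.ι (F a b X) (i0 + 2 * k' + 2) ((F a b X).map (homOfLE hk)
      ((F a b X).map (homOfLE (show i ≤ i0 + 2 * i + 2 by omega)) x)) = 0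
    rw [h4]
    exact map_zero (Limits.colimit.ι (F a b X) (i0 + 2 * k' + 2)).hom
  · intro y
    obtain ⟨N, hN⟩ := Th.exists_cl (Y := X) (b := b') (K := LC.rpow (Fin a')) y
    obtain ⟨R, rfl⟩ := hN (N + 1 + 1) (by omega)
    obtain ⟨f, hf⟩ := Lp.rep_surj a' b' (N + 1 + 1) (a + (i0 + 2 * N + 2) + 1 + 1)
      (b + (i0 + 2 * N + 2) + 2) (hM a i0 a' ha N) (hn b i0 b' hb N) R
    refine ⟨Limits.colimit.ι (F a b X) (i0 + 2 * N + 2) (el X f : X.piGrp
      (a + (i0 + 2 * N + 2)) (b + (i0 + 2 * N + 2) + 2)), ?_⟩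
    have h1 : (F a b X).map (𝟙 (i0 + 2 * N + 2)) ≫ leg a b i0 a' b' ha hb X (i0 + 2 * N + 2) =
      leg a b i0 a' b' ha hb X (i0 + 2 * N + 2) := leg_nat a b i0 a' b' ha hb X _
    have h2 : leg a b i0 a' b' ha hb X (i0 + 2 * N + 2) = tau a b i0 a' b' ha hb X N :=
      tau_le a b i0 a' b' ha hb X N (i0 + 2 * N + 2) (by omega) (by omega)
    have h3 : Limits.colimit.ι (F a b X) (i0 + 2 * N + 2) ≫ dsc a b i0 a' b' ha hb X =
      tau a b i0 a' b' ha hb X N := (ι_dsc a b i0 a' b' ha hb X _).trans h2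
    have h4 := congrArg (fun φ : (F a b X).obj (i0 + 2 * N + 2) ⟶ Gt a' b' X =>
      φ (el X f : X.piGrp (a + (i0 + 2 * N + 2)) (b + (i0 + 2 * N + 2) + 2))) h3
    refine h4.trans ?_
    change Th.cl (Lp.rep a' b' (N + 1 + 1) (a + (i0 + 2 * N + 2) + 1 + 1)
      (b + (i0 + 2 * N + 2) + 2) _ _ f) = _
    rw [hf]

/-! ## Naturality -/

/-- the map of the targets -/
def Gm {X Y : Prespectrum} (w : X ⟶ Y) : Gt a' b' X ⟶ Gt a' b' Y :=
  AddCommGrpCat.ofHom (AddMonoidHom.mk' (fun x : Th.GG X b' (LC.rpow (Fin a')) =>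
    (Th.pm w b' x : Th.GG Y b' (LC.rpow (Fin a')))) (Th.pm_add w b'))

theorem tau_nat {X Y : Prespectrum} (w : X ⟶ Y) (k : ℕ) :
    Prespectrum.Hom.piGrpMap w (a + (i0 + 2 * k + 2)) (b + (i0 + 2 * k + 2) + 2) ≫
      tau a b i0 a' b' ha hb Y k = tau a b i0 a' b' ha hb X k ≫ Gm a' b' w := by
  ext x
  obtain ⟨f, rfl⟩ := exists_el X x
  change Th.cl (Lp.rep a' b' (k + 1 + 1) (a + (i0 + 2 * k + 2) + 1 + 1)
        (b + (i0 + 2 * k + 2) + 2) (hM a i0 a' ha k) (hn b i0 b' hb k)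
        (postL (Prespectrum.Hom.map w (b + (i0 + 2 * k + 2) + 2))
          (Prespectrum.Hom.map_pt w (b + (i0 + 2 * k + 2) + 2)) f)) =
    Th.cl (Prespectrum.Rep.push (Prespectrum.Hom.uppMap w b') (Lp.rep a' b' (k + 1 + 1)
      (a + (i0 + 2 * k + 2) + 1 + 1)
        (b + (i0 + 2 * k + 2) + 2) (hM a i0 a' ha k) (hn b i0 b' hb k) f))
  rw [Lp.rep_push]

/-- the map of sequences -/
def Fm {X Y : Prespectrum} (w : X ⟶ Y) : F a b X ⟶ F a b Y :=
  NatTrans.ofSequence (fun i => Prespectrum.Hom.piGrpMap w (a + i) (b + i + 2)) (fun i => by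
      rw [Functor.ofSequence_map_homOfLE_succ, Functor.ofSequence_map_homOfLE_succ]
      exact Prespectrum.stabHom_naturality w (a + i) (b + i + 2))

theorem leg_w {X Y : Prespectrum} (w : X ⟶ Y) (i : ℕ) :
    (Fm a b w).app i ≫ leg a b i0 a' b' ha hb Y i = leg a b i0 a' b' ha hb X i ≫ Gm a' b' w := by
  unfold leg
  rw [← Category.assoc, ← (Fm a b w).naturality, Category.assoc, Category.assoc]
  congr 1
  exact tau_nat a b i0 a' b' ha hb w i

theorem dsc_nat {X Y : Prespectrum} (w : X ⟶ Y) :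
    (piS a b).map w ≫ dsc a b i0 a' b' ha hb Y = dsc a b i0 a' b' ha hb X ≫ Gm a' b' w := by
  apply Limits.colimit.hom_ext
  intro i
  change Limits.colimit.ι (F a b X) i ≫ Limits.colimMap (Fm a b w) ≫ dsc a b i0 a' b' ha hb Y = _
  rw [Limits.ι_colimMap_assoc, ι_dsc, ← Category.assoc, ι_dsc, leg_w]

include ha hb in
/-- the comparison of functors -/
theorem iso : Nonempty (piS a b ≅ hP ⋙ GF.ev b' (Test.R a')) := by
  have h : ∀ X, IsIso (dsc a b i0 a' b' ha hb X) := fun X =>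
    (ConcreteCategory.isIso_iff_bijective _).2 (dsc_bijective a b i0 a' b' ha hb X)
  exact ⟨NatIso.ofComponents (fun X => @asIso _ _ _ _ (dsc a b i0 a' b' ha hb X) (h X))
    fun {X Y} w => dsc_nat a b i0 a' b' ha hb w⟩

end

end Ps

/-- (I4-c) stable homotopy groups are the values on `ℝ^a` -/
theorem piS_iso68 (a b : ℕ) : ∃ a' b', Nonempty (piS a b ≅ hP ⋙ GF.ev b' (Test.R a')) := by
  rcases Nat.even_or_odd b with ⟨c, hc⟩ | ⟨c, hc⟩
  · exact ⟨a, c, Ps.iso a b 0 a c (by omega) (by omega)⟩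
  · exact ⟨a + 1, c + 1, Ps.iso a b 1 (a + 1) (c + 1) (by omega) (by omega)⟩

/-- (I4-c') every value on `ℝ^a` is a stable homotopy group -/
theorem piS_iso68' (a b : ℕ) : Nonempty (piS a (2 * b) ≅ hP ⋙ GF.ev b (Test.R a)) :=
  Ps.iso a (2 * b) 0 a b (by omega) (by omega)

end Pool.Agent.Helper1.Stab
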