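import Pool.Agent.Helper68.Stab.Free

/-! Realisation of morphisms of graded functors. -/

open CategoryTheory Topology Filter Set Opposite

noncomputable section

namespace Pool.Agent.Helper1.Stab

/-! ## Families of maps that commute up to homotopy -/

/-- maps of the levels of a sequence that commute with the structure maps up to homotopy -/
structure CohFam (C : CSeq) (Y : Prespectrum) where
  g : ∀ n, PMap (C.L n) (Y.sp (2 * n))
  h : ∀ n, PMap (LC.I.prod (LC.C.prod (C.L n))) (Y.sp (2 * n + 2))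
  h_zero : ∀ n x, h n (0, x) = Y.sigC (g n) x
  h_one : ∀ n x, h n (1, x) = ((g (n + 1)).comp (C.s n)) x

namespace CohFam

/-- the family without its first term -/
def tail {C : CSeq} {Y : Prespectrum} (D : CohFam C Y) : CohFam C.tail Y.up.up where
  g n := D.g (n + 1)
  h n := D.h (n + 1)
  h_zero n := D.h_zero (n + 1)
  h_one n := D.h_one (n + 1)

/-- the maps -/
def cA : ∀ (n : ℕ) {C : CSeq} {Y : Prespectrum}, CohFam C Y → C(CSeq.sp n C, Y.sp n)
  | 0, _, _, D => ⟨(D.g 0).plus, (D.g 0).continuous_plus⟩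
  | 1, C, Y, D => ⟨(Y.sig (K := C.L 0) (D.g 0)).plus, (Y.sig (K := C.L 0) (D.g 0)).continuous_plus⟩
  | n + 2, _, _, D => cA n D.tail

/-- the homotopies -/
def cB : ∀ (n : ℕ) {C : CSeq} {Y : Prespectrum}, CohFam C Y →
    C(unitInterval × (unitInterval × CSeq.sp n C), Y.sp (n + 1))
  | 0, _, Y, D => ⟨fun x => Y.str 0 (x.2.1, (D.g 0).plus x.2.2), (Y.str 0).continuous.comp
      ((continuous_fst.comp continuous_snd).prodMk ((D.g 0).continuous_plus.comp
        (continuous_snd.comp continuous_snd)))⟩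
  | 1, C, Y, D => ⟨fun x => (D.h 0).hp (x.1, (PMap.ofHomeo (cR (C.L 0))).plus
      (strI (LC.R.prod (C.L 0)) x.2)), (D.h 0).hp.continuous.comp (continuous_fst.prodMk
        ((PMap.continuous_plus _).comp ((strI _).continuous.comp continuous_snd)))⟩
  | n + 2, _, _, D => cB n D.tail

theorem cA_pt : ∀ (n : ℕ) {C : CSeq} {Y : Prespectrum} (D : CohFam C Y),
    D.cA n (CSeq.sp n C).pt = (Y.sp n).pt
  | 0, _, _, _ => rfl
  | 1, _, _, _ => rfl
  | n + 2, _, _, D => cA_pt n D.tail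

theorem hp_zero {K : LC} {Y : PT} (H : PMap (LC.I.prod K) Y) (f : PMap K Y)
    (h : ∀ x, H (0, x) = f x) (x : OnePoint K) : H.hp (0, x) = f.plus x := by
  induction x using OnePoint.rec with
  | infty => rfl
  | coe k => exact h k

theorem hp_one {K : LC} {Y : PT} (H : PMap (LC.I.prod K) Y) (f : PMap K Y)
    (h : ∀ x, H (1, x) = f x) (x : OnePoint K) : H.hp (1, x) = f.plus x := by
  induction x using OnePoint.rec with
  | infty => rfl
  | coe k => exact h k

theorem cB_zero : ∀ (n : ℕ) {C : CSeq} {Y : Prespectrum} (D : CohFam C Y) (s : unitInterval)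
    (x : CSeq.sp n C), D.cB n (0, (s, x)) = Y.str n (s, D.cA n x)
  | 0, _, _, _, _, _ => rfl
  | 1, C, Y, D, s, x => by
    change (D.h 0).hp (0, (PMap.ofHomeo (cR (C.L 0))).plus (strI (LC.R.prod (C.L 0)) (s, x))) =
      Y.str 1 (s, (Y.sig (K := C.L 0) (D.g 0)).plus x)
    rw [hp_zero (D.h 0) (Y.sigC (n := 0) (K := C.L 0) (D.g 0)) (D.h_zero 0), ← PMap.plus_comp,
      Prespectrum.sigC_cR]
    exact Y.sig_plus (n := 1) (Y.sig (n := 0) (D.g 0)) s x
  | n + 2, _, _, D, s, x => cB_zero n D.tail s x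

theorem cB_one : ∀ (n : ℕ) {C : CSeq} {Y : Prespectrum} (D : CohFam C Y) (s : unitInterval)
    (x : CSeq.sp n C), D.cB n (1, (s, x)) = D.cA (n + 1) (CSeq.str n C (s, x))
  | 0, _, Y, D, s, x => (Y.sig_plus (n := 0) (D.g 0) s x).symm
  | 1, C, Y, D, s, x => by
    change (D.h 0).hp (1, (PMap.ofHomeo (cR (C.L 0))).plus (strI (LC.R.prod (C.L 0)) (s, x))) =
      (D.g 1).plus (((C.s 0).comp (PMap.ofHomeo (cR (C.L 0)))).plus
        (strI (LC.R.prod (C.L 0)) (s, x)))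
    rw [hp_one (D.h 0) ((D.g 1).comp (C.s 0)) (D.h_one 0), PMap.plus_comp, PMap.plus_comp]
  | n + 2, _, _, D, s, x => cB_one n D.tail s x

theorem cB_bd : ∀ (n : ℕ) {C : CSeq} {Y : Prespectrum} (D : CohFam C Y) (t s : unitInterval)
    (x : CSeq.sp n C), s = 0 ∨ s = 1 → D.cB n (t, (s, x)) = (Y.sp (n + 1)).pt
  | 0, _, Y, D, _, s, x, hs => by
    rcases hs with rfl | rfl
    · exact Y.str_zero 0 _
    · exact Y.str_one 0 _
  | 1, C, Y, D, t, s, x, hs => by
    have h1 : strI (LC.R.prod (C.L 0)) (s, x) = OnePoint.infty := by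
      rcases hs with rfl | rfl
      · exact strI_of unsq_zero x
      · exact strI_of unsq_one x
    change (D.h 0).hp (t, (PMap.ofHomeo (cR (C.L 0))).plus (strI (LC.R.prod (C.L 0)) (s, x))) = _
    rw [h1]
    rfl
  | n + 2, _, _, D, t, s, x, hs => cB_bd n D.tail t s x hs

theorem cB_pt : ∀ (n : ℕ) {C : CSeq} {Y : Prespectrum} (D : CohFam C Y) (t s : unitInterval),
    D.cB n (t, (s, (CSeq.sp n C).pt)) = (Y.sp (n + 1)).pt
  | 0, _, Y, _, _, s => Y.str_pt 0 s
  | 1, _, _, _, _, _ => rfl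
  | n + 2, _, _, D, t, s => cB_pt n D.tail t s

/-- the map up to homotopy -/
def coh {C : CSeq} {Y : Prespectrum} (D : CohFam C Y) : Coh C.P Y where
  a n := D.cA n
  a_pt n := D.cA_pt n
  b n := D.cB n
  b_zero n s x := D.cB_zero n s x
  b_one n s x := D.cB_one n s x
  b_bd n t s x hs := D.cB_bd n t s x hs
  b_pt n t s := D.cB_pt n t s

theorem cA_even : ∀ (n : ℕ) {C : CSeq} {Y : Prespectrum} (D : CohFam C Y) (x : C.P.sp (2 * n)),
    D.cA (2 * n) x = (D.g n).plus (CSeq.spE n C x)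
  | 0, _, _, _, _ => rfl
  | n + 1, _, _, D, x => cA_even n D.tail x

/-- the values on the universal elements -/
theorem hom_u {C : CSeq} {Y : Prespectrum} (D : CohFam C Y) (h : ∀ n, IsTest (C.L n)) (n : ℕ) :
    ((hP.map D.coh.hom).app n).app (op ((C.levels h).T n)) ((C.levels h).u n) =
      ((hP.map Y.toFree).app n).app (op ((C.levels h).T n))
        (Y.cl n (K := (C.levels h).T n) (D.g n)) := by
  rw [← (C.levels h).cl_ic n]
  refine (Prespectrum.map_cl D.coh.hom n _).trans ?_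
  refine Eq.trans ?_ (Prespectrum.map_cl Y.toFree n (K := (C.levels h).T n) (D.g n)).symm
  have h1 := D.coh.po_hom_homotopic (n := 2 * n) ((C.levels h).ic n)
  refine Eq.trans (Prespectrum.cl_homotopic Y.free n (K := (C.levels h).T n) h1) ?_
  refine congrArg (fun g => Y.free.cl n (K := (C.levels h).T n) (Prespectrum.Hom.po Y.toFree g)) ?_
  refine PMap.ext ?_
  intro (k : (C.L n).carrier)
  change D.cA (2 * n) (((C.levels h).ev n).symm (k : OnePoint (C.L n))) = D.g n k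
  rw [cA_even, C.levels_ev h n]
  exact congrArg (D.g n).plus ((CSeq.spE n C).apply_symm_apply (k : OnePoint (C.L n)))

end CohFam

/-! ## Correspondences -/

/-- there is a map related to a suspension of `f` -/
def CorrEx {X Z : Prespectrum}
    (R : ∀ (i : ℕ) (K : Test), PMap K.obj (X.sp (2 * i)) → PMap K.obj (Z.sp (2 * i)) → Prop) :
    ∀ (_ i : ℕ) (K : Test), PMap K.obj (X.sp (2 * i)) → Prop
  | 0, i, K, f => ∃ g, R i K f g
  | n + 1, i, K, f => CorrEx R n (i + 1) (Test.cx.obj K) (X.sigC f)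

/-- a correspondence between maps to `X` and maps to `Z` that is the graph of a map on stable
classes -/
structure Corr (X Z : Prespectrum) where
  R : ∀ (i : ℕ) (K : Test), PMap K.obj (X.sp (2 * i)) → PMap K.obj (Z.sp (2 * i)) → Prop
  comp : ∀ (i : ℕ) (K L : Test) (f : PMap L.obj (X.sp (2 * i))) (g : PMap L.obj (Z.sp (2 * i)))
    (h : PMap K.obj L.obj.plus), R i L f g → R i K (f.comp h) (g.comp h)
  sig : ∀ (i : ℕ) (K : Test) (f : PMap K.obj (X.sp (2 * i))) (g : PMap K.obj (Z.sp (2 * i))),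
    R i K f g → R (i + 1) (Test.cx.obj K) (X.sigC f) (Z.sigC g)
  ex : ∀ (i : ℕ) (K : Test) (f : PMap K.obj (X.sp (2 * i))), ∃ n, CorrEx R n i K f
  uni : ∀ (i : ℕ) (K : Test) (f : PMap K.obj (X.sp (2 * i))) (g g' : PMap K.obj (Z.sp (2 * i))),
    R i K f g → R i K f g' → ∃ n, Z.Ev n g g'

theorem CorrEx.tail {X Z : Prespectrum}
    (R : ∀ (i : ℕ) (K : Test), PMap K.obj (X.sp (2 * i)) → PMap K.obj (Z.sp (2 * i)) → Prop)
    (n : ℕ) : ∀ (i : ℕ) (K : Test) (f : PMap K.obj (X.sp (2 * (i + 1)))), CorrEx R n (i + 1) K f →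
    CorrEx (X := X.up.up) (Z := Z.up.up) (fun i K f g => R (i + 1) K f g) n i K f := by
  induction n with
  | zero => exact fun i K f h => h
  | succ n ih => exact fun i K f h => ih (i + 1) (Test.cx.obj K) (X.sigC f) h

/-- the shift of a correspondence -/
def Corr.tail {X Z : Prespectrum} (C : Corr X Z) : Corr X.up.up Z.up.up where
  R i K f g := C.R (i + 1) K f g
  comp i K L f g h := C.comp (i + 1) K L f g h
  sig i K f g := C.sig (i + 1) K f g
  ex i K f := by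
    obtain ⟨n, hn⟩ := C.ex (i + 1) K f
    exact ⟨n, CorrEx.tail C.R n i K f hn⟩
  uni i K f g g' h h' := by
    obtain ⟨n, hn⟩ := C.uni (i + 1) K f g g' h h'
    exact ⟨n, Prespectrum.Ev.uu n hn⟩

/-- the correspondence of a morphism -/
def corrOf {G Y : Prespectrum} (φ : hP.obj G ⟶ hP.obj Y) : Corr G Y where
  R i K f g := Y.cl i g = (φ.app i).app (op K) (G.cl i f)
  comp i K L f g h hR := by
    rw [Y.cl_comp, G.cl_comp, hR, app_pbT]
  sig i K f g hR := by
    have h1 := Y.sig_cl i g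
    have h2 := G.sig_cl i f
    rw [← h1, ← h2, hR]
    exact (app_sig φ i K _).symm
  ex i K f := by
    obtain ⟨n, hn⟩ := Y.exists_st i K ((φ.app i).app (op K) (G.cl i f))
    refine ⟨n, ?_⟩
    induction n generalizing i K with
    | zero =>
      obtain ⟨g, hg⟩ := hn
      exact ⟨g, hg.symm⟩
    | succ n ih =>
      refine ih (i + 1) (Test.cx.obj K) (G.sigC f) ?_
      have h1 := app_sig φ i K (G.cl i f)
      have h2 := G.sig_cl i f
      rw [← h2]
      rw [h1]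
      exact hn
  uni i K f g g' h h' := Y.ev_of_cl i (h.trans h'.symm)

/-! ## The construction of the delay -/

/-- a stage of the construction -/
structure Sta (X Z : Prespectrum) where
  C : Corr X Z
  S : Lv X
  g : PMap (S.K 0) (Z.sp 0)
  hg : C.R 0 ⟨S.K 0, S.test 0⟩ (S.inc 0) g

namespace Sta

/-- the next level can be reached -/
def Jump {X Z : Prespectrum} (Q : Sta X Z) : Prop :=
  ∃ g' : PMap (Q.S.K 1) (Z.sp 2), Q.C.R 1 ⟨Q.S.K 1, Q.S.test 1⟩ (Q.S.inc 1) g' ∧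
    (Z.sigC Q.g).Homotopic (g'.comp (Q.S.step 0))

theorem exists_next {X Z : Prespectrum} (Q : Sta X Z) :
    ∃ (b : Bool) (g : PMap ((Q.S.next b).K 0) (Z.sp 2)),
      Q.C.R 1 ⟨(Q.S.next b).K 0, (Q.S.next b).test 0⟩ ((Q.S.next b).inc 0) g ∧
      (Z.sigC Q.g).Homotopic (g.comp (Q.S.nstep b)) ∧ (Q.Jump → b = true) := by
  by_cases h : Q.Jump
  · obtain ⟨g', h1, h2⟩ := h
    exact ⟨true, g', h1, h2, fun _ => rfl⟩
  · refine ⟨false, Z.sigC Q.g, Q.C.sig 0 ⟨Q.S.K 0, Q.S.test 0⟩ (Q.S.inc 0) Q.g Q.hg, ?_,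
      fun h' => absurd h' h⟩
    have h1 : (Z.sigC Q.g).Homotopic ((Z.sigC Q.g).comp (PMap.id (LC.C.prod (Q.S.K 0)))) := by
      rw [PMap.comp_id]
      exact PMap.Homotopic.refl _
    exact h1

/-- the decision -/
def bb {X Z : Prespectrum} (Q : Sta X Z) : Bool := Q.exists_next.choose

/-- the next map -/
def gg {X Z : Prespectrum} (Q : Sta X Z) : PMap ((Q.S.next Q.bb).K 0) (Z.sp 2) :=
  Q.exists_next.choose_spec.choose

theorem gg_R {X Z : Prespectrum} (Q : Sta X Z) :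
    Q.C.R 1 ⟨(Q.S.next Q.bb).K 0, (Q.S.next Q.bb).test 0⟩ ((Q.S.next Q.bb).inc 0) Q.gg :=
  Q.exists_next.choose_spec.choose_spec.1

theorem gg_homotopic {X Z : Prespectrum} (Q : Sta X Z) :
    (Z.sigC Q.g).Homotopic (Q.gg.comp (Q.S.nstep Q.bb)) :=
  Q.exists_next.choose_spec.choose_spec.2.1

theorem bb_true {X Z : Prespectrum} (Q : Sta X Z) (h : Q.Jump) : Q.bb = true :=
  Q.exists_next.choose_spec.choose_spec.2.2 h

/-- the next stage -/
def nx {X Z : Prespectrum} (Q : Sta X Z) : Sta X.up.up Z.up.up where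
  C := Q.C.tail
  S := Q.S.next Q.bb
  g := Q.gg
  hg := Q.gg_R

/-- the decisions -/
def dl : ∀ (_ : ℕ) {X Z : Prespectrum}, Sta X Z → Bool
  | 0, _, _, Q => Q.bb
  | m + 1, _, _, Q => dl m Q.nx

/-- the maps -/
def gs : ∀ (m : ℕ) {X Z : Prespectrum} (Q : Sta X Z),
    PMap (Lv.sL m Q.S (fun i => dl i Q)) (Z.sp (2 * m))
  | 0, _, _, Q => Q.g
  | m + 1, _, _, Q => gs m Q.nx

theorem gs_homotopic : ∀ (m : ℕ) {X Z : Prespectrum} (Q : Sta X Z),
    (Z.sigC (gs m Q)).Homotopic ((gs (m + 1) Q).comp (Lv.sS m Q.S (fun i => dl i Q)))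
  | 0, _, _, Q => Q.gg_homotopic
  | m + 1, _, _, Q => gs_homotopic m Q.nx

/-- the maps that commute up to homotopy -/
def cf {X Z : Prespectrum} (Q : Sta X Z) : CohFam (Q.S.seq (fun i => dl i Q)) Z where
  g n := gs n Q
  h n := (gs_homotopic n Q).choose
  h_zero n x := (gs_homotopic n Q).choose_spec.1 x
  h_one n x := (gs_homotopic n Q).choose_spec.2 x

theorem gs_R : ∀ (m : ℕ) {X Z : Prespectrum} (Q : Sta X Z),
    Q.C.R m ⟨Lv.sL m Q.S (fun i => dl i Q), Lv.sTest m Q.S _⟩ (Lv.sW m Q.S (fun i => dl i Q))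
      (gs m Q)
  | 0, _, _, Q => Q.hg
  | m + 1, _, _, Q => gs_R m Q.nx

/-! ### Infinitely many jumps -/

theorem Ev_trans_left {Z : Prespectrum} (n : ℕ) : ∀ {a : ℕ} {K : LC} {f g g' : PMap K (Z.sp a)},
    Z.Ev n f g → g.Homotopic g' → Z.Ev n f g' := by
  induction n with
  | zero => exact fun h h' => PMap.Homotopic.trans h h'
  | succ n ih => exact fun h h' => ih h (Z.sigC_homotopic h')

theorem exists_jump_aux (N : ℕ) : ∀ {X Z : Prespectrum} (Q : Sta X Z)
    (g' : PMap (Q.S.K 1) (Z.sp 2)), Q.C.R 1 ⟨Q.S.K 1, Q.S.test 1⟩ (Q.S.inc 1) g' →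
    Z.Ev N (g'.comp (Q.S.step 0)) (Z.sigC Q.g) → ∃ n, dl n Q = true := by
  induction N with
  | zero =>
    intro X Z Q g' hR h
    exact ⟨0, Q.bb_true ⟨g', hR, PMap.Homotopic.symm h⟩⟩
  | succ N ih =>
    intro X Z Q g' hR h
    rcases hb : Q.bb with _ | _
    · have key : ∀ (b : Bool) (_ : b = false) (gn : PMap ((Q.S.next b).K 0) (Z.sp 2)),
          (Z.sigC Q.g).Homotopic (gn.comp (Q.S.nstep b)) →
          ∃ g'' : PMap ((Q.S.next b).K 1) (Z.up.up.sp 2),
            Q.C.tail.R 1 ⟨(Q.S.next b).K 1, (Q.S.next b).test 1⟩ ((Q.S.next b).inc 1) g'' ∧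
            Z.up.up.Ev N (g''.comp ((Q.S.next b).step 0)) (Z.up.up.sigC gn) := by
        rintro _ rfl gn hgn
        have h1 : gn.comp (Q.S.nstep false) = gn := PMap.comp_id _
        rw [h1] at hgn
        refine ⟨Z.sigC g', Q.C.sig 1 ⟨Q.S.K 1, Q.S.test 1⟩ (Q.S.inc 1) g' hR, ?_⟩
        have h2 : Z.Ev N (Z.sigC (g'.comp (Q.S.step 0))) (Z.sigC (Z.sigC Q.g)) := h
        rw [← Z.sigC_comp] at h2
        have h3 := Ev_trans_left N h2 (Z.sigC_homotopic hgn)
        exact Prespectrum.Ev.uu N (a := 2) h3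
      obtain ⟨g'', h1, h2⟩ := key Q.bb hb Q.gg Q.gg_homotopic
      obtain ⟨n, hn⟩ := ih Q.nx g'' h1 h2
      exact ⟨n + 1, hn⟩
    · exact ⟨0, hb⟩

theorem exists_jump_aux' (N : ℕ) : ∀ {X Z : Prespectrum} (Q : Sta X Z),
    CorrEx Q.C.R N 1 ⟨Q.S.K 1, Q.S.test 1⟩ (Q.S.inc 1) → ∃ n, dl n Q = true := by
  induction N with
  | zero =>
    rintro X Z Q ⟨g', hg'⟩
    have h1 := Q.C.comp 1 (Test.cx.obj ⟨Q.S.K 0, Q.S.test 0⟩) ⟨Q.S.K 1, Q.S.test 1⟩ (Q.S.inc 1) g'
      (Q.S.step 0) hg'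
    have h2 := Q.C.sig 0 ⟨Q.S.K 0, Q.S.test 0⟩ (Q.S.inc 0) Q.g Q.hg
    have h3 : (Q.S.inc 1).comp (Q.S.step 0) = X.sigC (Q.S.inc 0) := Q.S.comm 0
    have h4 : Q.C.R 1 (Test.cx.obj ⟨Q.S.K 0, Q.S.test 0⟩) (X.sigC (Q.S.inc 0))
        (g'.comp (Q.S.step 0)) := by
      rw [← h3]
      exact h1
    obtain ⟨N, hN⟩ := Q.C.uni 1 _ _ _ _ h4 h2
    exact exists_jump_aux N Q g' hg' hN
  | succ N ih =>
    intro X Z Q h
    rcases hb : Q.bb with _ | _
    · have key : ∀ (b : Bool) (_ : b = false),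
          CorrEx Q.C.tail.R N 1 ⟨(Q.S.next b).K 1, (Q.S.next b).test 1⟩ ((Q.S.next b).inc 1) := by
        rintro _ rfl
        exact CorrEx.tail Q.C.R N 1 _ _ h
      obtain ⟨n, hn⟩ := ih Q.nx (key Q.bb hb)
      exact ⟨n + 1, hn⟩
    · exact ⟨0, hb⟩

theorem exists_jump {X Z : Prespectrum} (Q : Sta X Z) : ∃ n, dl n Q = true := by
  obtain ⟨N, hN⟩ := Q.C.ex 1 ⟨Q.S.K 1, Q.S.test 1⟩ (Q.S.inc 1)
  exact exists_jump_aux' N Q hN

theorem often (m : ℕ) : ∀ {X Z : Prespectrum} (Q : Sta X Z), ∃ n, dl (m + n) Q = true := by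
  induction m with
  | zero =>
    intro X Z Q
    obtain ⟨n, hn⟩ := Q.exists_jump
    exact ⟨n, by rw [zero_add]; exact hn⟩
  | succ m ih =>
    intro X Z Q
    obtain ⟨n, hn⟩ := ih Q.nx
    refine ⟨n, ?_⟩
    rw [show m + 1 + n = (m + n) + 1 by omega]
    exact hn

end Sta

/-! ## The levels with an empty first level -/

theorem isTest_empty : IsTest LC.empty :=
  (IsTest.rpow 0).isEmpty9 ⟨fun x => nomatch x⟩

namespace Levels
variable {G : Prespectrum} (L : Levels G)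

/-- the spaces -/
def eK : ℕ → LC
  | 0 => LC.empty
  | i + 1 => L.K (i + 1)

theorem eTest : ∀ i, IsTest (L.eK i)
  | 0 => isTest_empty
  | i + 1 => L.test (i + 1)

/-- the inclusions -/
def eInc : ∀ i, PMap (L.eK i) (G.sp (2 * i))
  | 0 => PMap.zero _ _
  | i + 1 => L.ic (i + 1)

/-- the structure maps -/
def eStep : ∀ i, PMap (LC.C.prod (L.eK i)) (L.eK (i + 1)).plus
  | 0 => PMap.zero _ _
  | i + 1 => L.step (i + 1)

theorem eComm : ∀ i, (L.eInc (i + 1)).comp (L.eStep i) = G.sigC (L.eInc i)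
  | 0 => PMap.ext fun x => nomatch x.2
  | i + 1 => L.ic_step (i + 1)

/-- the levels -/
def lvE : Lv G where
  K := L.eK
  test := L.eTest
  inc := L.eInc
  step := L.eStep
  comm := L.eComm

theorem lvE_inj : L.lvE.Inj := by
  intro i K h hh
  refine ⟨0, ?_⟩
  cases i with
  | zero =>
    have h1 : h = PMap.zero K (LC.empty).plus := by
      ext k
      rcases h k with _ | l
      · rfl
      · exact nomatch l
    change h.Homotopic (PMap.zero _ _)
    rw [h1]
    exact PMap.Homotopic.refl _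
  | succ i =>
    have h1 := L.fac_homotopic (i + 1) hh
    change (L.fac (i + 1) ((L.ic (i + 1)).comp h)).Homotopic _ at h1
    rw [L.fac_ic] at h1
    have h2 : L.fac (i + 1) (PMap.zero K (G.sp (2 * (i + 1)))) = PMap.zero K (L.K (i + 1)).plus := by
      ext k
      exact L.ev_pt (i + 1)
    rw [h2] at h1
    exact h1

/-- A delayed copy of a prespectrum with compact levels is stably equivalent to it. -/
theorem isIso_delayE (δ : ℕ → Bool) (hδ : Lv.Often δ) : IsIso (hP.map (L.lvE.fam δ).hom) := by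
  have hsurj : ∀ (n b : ℕ) (K : Test) (y : ((hP.obj G).h (b + 1)).obj (op K)),
      G.St n (b + 1) K y → ∃ x, ((hP.map (L.lvE.fam δ).hom).app (b + 1)).app (op K) x = y := by
    intro n
    induction n with
    | zero =>
      rintro b K y ⟨f, rfl⟩
      obtain ⟨N, hN⟩ := Lv.exists_lift (b + 1) L.lvE δ hδ
      obtain ⟨x, hx⟩ := LiftE.mem_range N (b + 1) (L.T (b + 1)) (L.ic (b + 1)) hN
      refine ⟨pbT ((hP.obj (L.lvE.seq δ).P).h (b + 1)) (K := K) (L := L.T (b + 1))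
        (L.fac (b + 1) f) x, ?_⟩
      rw [app_pbT, hx, L.cl_ic, L.cl_fac]
    | succ n ih =>
      intro b K y hy
      obtain ⟨x, hx⟩ := ih (b + 1) (Test.cx.obj K) _ hy
      refine ⟨sigInv _ (b + 1) K x, ?_⟩
      apply sig_inj (hP.obj G) (b + 1) K
      rw [← app_sig, sig_sigInv]
      exact hx
  refine GF.isIso_of_bij68 _ fun b K => ⟨?_, ?_⟩
  · refine (injective_iff_map_eq_zero
      ((((hP.map (L.lvE.fam δ).hom).app b).app (op K)).hom)).2 fun x hx => ?_
    obtain ⟨n, hn⟩ := (L.lvE.seq δ).P.exists_st b K x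
    induction n generalizing b K with
    | zero =>
      obtain ⟨f, rfl⟩ := hn
      have h1 := Prespectrum.map_cl (L.lvE.fam δ).hom b f
      have h2 := h1.symm.trans hx
      obtain ⟨N, hN⟩ := (G.cl_eq_zero_iff b _).1 h2
      exact ((L.lvE.seq δ).P.cl_eq_zero_iff b _).2
        (Lv.exists_nul_of_nul L.lvE δ hδ L.lvE_inj N b f hN)
    | succ n ih =>
      have h1 := ih (b + 1) (Test.cx.obj K) _ (by
        have h2 := app_sig (hP.map (L.lvE.fam δ).hom) b K x
        refine h2.trans ?_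
        have h3 : ((hP.map (L.lvE.fam δ).hom).app b).app (op K) x = 0 := hx
        rw [h3]
        exact map_zero (((hP.obj G).σ b).hom.app (op K)).hom) hn
      apply sig_inj _ b K
      exact h1.trans (map_zero (((hP.obj (L.lvE.seq δ).P).σ b).hom.app (op K)).hom).symm
  · intro y
    obtain ⟨n, hn⟩ := G.exists_st b K y
    obtain ⟨x, hx⟩ := hsurj n b (Test.cx.obj K) _ (Prespectrum.St.succ n b K y hn)
    refine ⟨sigInv _ b K x, ?_⟩
    apply sig_inj (hP.obj G) b K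
    rw [← app_sig, sig_sigInv]
    exact hx

end Levels

/-! ## Realisation -/

theorem CSeq.t2 : ∀ (n : ℕ) (C : CSeq), T2Space (CSeq.sp n C)
  | 0, C => inferInstanceAs (T2Space (OnePoint (C.L 0)))
  | 1, C => inferInstanceAs (T2Space (OnePoint (LC.R.prod (C.L 0))))
  | n + 2, C => CSeq.t2 n C.tail

theorem CSeq.compact : ∀ (n : ℕ) (C : CSeq), CompactSpace (CSeq.sp n C)
  | 0, C => inferInstanceAs (CompactSpace (OnePoint (C.L 0)))
  | 1, C => inferInstanceAs (CompactSpace (OnePoint (LC.R.prod (C.L 0))))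
  | n + 2, C => CSeq.compact n C.tail

/-- (I4-g) realisation of morphisms: a morphism `hP G ⟶ hP Y` is induced by
`G ← T → Y.free ← Y`, where the outer maps are stable equivalences. -/
theorem realiseF {G Y : Prespectrum} (L : Levels G) (φ : hP.obj G ⟶ hP.obj Y) :
    ∃ (T : Prespectrum) (w : T ⟶ G) (f : T ⟶ Y.free), IsIso (hP.map w) ∧
      (∀ n, T2Space (T.sp n)) ∧ (∀ n, CompactSpace (T.sp n)) ∧ Nonempty (Levels T) ∧
      hP.map f = hP.map w ≫ φ ≫ hP.map Y.toFree := by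
  let C := corrOf φ
  have hg : C.R 0 ⟨L.lvE.K 0, L.lvE.test 0⟩ (L.lvE.inc 0) (PMap.zero (L.lvE.K 0) (Y.sp 0)) := by
    have h1 : ∀ x : ((hP.obj Y).h 0).obj (op ⟨L.lvE.K 0, L.lvE.test 0⟩), x = 0 :=
      hP_red Y 0 (L.lvE.K 0) (L.lvE.test 0) ⟨fun x => nomatch x⟩
    change Y.cl 0 _ = _
    rw [h1 (Y.cl 0 _), h1 ((φ.app 0).app _ _)]
  let Q : Sta G Y := ⟨C, L.lvE, PMap.zero (L.lvE.K 0) (Y.sp 0), hg⟩
  let δ : ℕ → Bool := fun i => Sta.dl i Q
  have hδ : Lv.Often δ := fun m => Sta.often m Q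
  let D : CohFam (L.lvE.seq δ) Y := Q.cf
  have ht : ∀ n, IsTest ((L.lvE.seq δ).L n) := fun n => Lv.sTest n L.lvE δ
  refine ⟨(L.lvE.seq δ).P, (L.lvE.fam δ).hom, D.coh.hom, L.isIso_delayE δ hδ,
    fun n => CSeq.t2 n _, fun n => CSeq.compact n _, ⟨(L.lvE.seq δ).levels ht⟩, ?_⟩
  refine ((L.lvE.seq δ).levels ht).hom_ext (hP.obj Y.free) fun n => ?_
  rw [D.hom_u ht n]
  have h1 := (L.lvE.fam δ).hom_u ht n
  have h2 : ((hP.map (L.lvE.fam δ).hom ≫ φ ≫ hP.map Y.toFree).app n).app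
      (op (((L.lvE.seq δ).levels ht).T n)) (((L.lvE.seq δ).levels ht).u n) =
      ((hP.map Y.toFree).app n).app (op (((L.lvE.seq δ).levels ht).T n))
        ((φ.app n).app (op (((L.lvE.seq δ).levels ht).T n))
          (((hP.map (L.lvE.fam δ).hom).app n).app (op (((L.lvE.seq δ).levels ht).T n))
            (((L.lvE.seq δ).levels ht).u n))) := rfl
  rw [h2, h1]
  have h3 : Y.cl n (K := ((L.lvE.seq δ).levels ht).T n) (D.g n) =
      (φ.app n).app (op (((L.lvE.seq δ).levels ht).T n))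
        (G.cl n (K := ((L.lvE.seq δ).levels ht).T n) ((L.lvE.fam δ).w n)) := Sta.gs_R n Q
  rw [h3]

end Pool.Agent.Helper1.Stab
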