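import Pool.Agent.Helper68.Stab.Five

/-! A morphism of exact graded functors that is bijective on all `ℝ^a` is an isomorphism:
induction over cubical complexes. -/

open CategoryTheory Topology Filter Set Opposite

noncomputable section

namespace Pool.Agent.Helper1.Stab

namespace Sphs

/-- a finite union of cells -/
def cells {N : ℕ} (S : Finset (Fin N → ℤ × Bool)) : Set (Fin N → ℝ) := ⋃ c ∈ S, cell c

theorem mem_cells {N : ℕ} {S : Finset (Fin N → ℤ × Bool)} {x : Fin N → ℝ} :
    x ∈ cells S ↔ ∃ c ∈ S, x ∈ cell c := by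
  simp [cells]

theorem isClosed_cell {N : ℕ} (c : Fin N → ℤ × Bool) : IsClosed (cell c) := by
  unfold cell
  simp only [Set.ofPred_forall]
  refine isClosed_iInter fun i => ?_
  by_cases h : (c i).2
  · simp only [if_pos h]
    exact (isClosed_le continuous_const (continuous_apply i)).inter
      (isClosed_le (continuous_apply i) continuous_const)
  · simp only [if_neg h]
    exact isClosed_eq (continuous_apply i) continuous_const

theorem cell_bdd {N : ℕ} (c : Fin N → ℤ × Bool) :
    cell c ⊆ Set.pi Set.univ (fun i => Icc ((c i).1 : ℝ) ((c i).1 + 1)) := by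
  intro x hx i _
  have h := hx i
  by_cases h1 : (c i).2
  · rw [if_pos h1] at h
    exact h
  · rw [if_neg h1] at h
    rw [h]
    exact ⟨le_rfl, by linarith⟩

theorem isCompact_cell {N : ℕ} (c : Fin N → ℤ × Bool) : IsCompact (cell c) :=
  (isCompact_univ_pi fun _ => isCompact_Icc).of_isClosed_subset (isClosed_cell c) (cell_bdd c)

theorem isCompact_cells {N : ℕ} (S : Finset (Fin N → ℤ × Bool)) : IsCompact (cells S) :=
  S.isCompact_biUnion fun c _ => isCompact_cell c

theorem isClosed_cells {N : ℕ} (S : Finset (Fin N → ℤ × Bool)) : IsClosed (cells S) :=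
  (isCompact_cells S).isClosed

/-- the part of a complex where the `k`-th coordinate lies in `I` -/
def part {N : ℕ} (S : Finset (Fin N → ℤ × Bool)) (k : Fin N) (I : Set ℝ) : Set (Fin N → ℝ) :=
  {x | x ∈ cells S ∧ x k ∈ I}

theorem isCompact_part {N : ℕ} (S : Finset (Fin N → ℤ × Bool)) (k : Fin N) {I : Set ℝ}
    (hI : IsClosed I) : IsCompact (part S k I) :=
  (isCompact_cells S).inter_right (hI.preimage (continuous_apply k))

theorem isClosed_part {N : ℕ} (S : Finset (Fin N → ℤ × Bool)) (k : Fin N) {I : Set ℝ}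
    (hI : IsClosed I) : IsClosed (part S k I) := (isCompact_part S k hI).isClosed

/-- the complex as a space -/
def CX {N : ℕ} (S : Finset (Fin N → ℤ × Bool)) : LC :=
  (LC.rpow (Fin N)).closed (cells S) (isClosed_cells S)

/-- the part as a space -/
def PX {N : ℕ} (S : Finset (Fin N → ℤ × Bool)) (k : Fin N) {I : Set ℝ} (hI : IsClosed I) : LC :=
  (LC.rpow (Fin N)).closed (part S k I) (isClosed_part S k hI)

instance {N : ℕ} (S : Finset (Fin N → ℤ × Bool)) : CompactSpace (CX S) :=
  isCompact_iff_compactSpace.1 (isCompact_cells S)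

instance {N : ℕ} (S : Finset (Fin N → ℤ × Bool)) (k : Fin N) {I : Set ℝ} (hI : IsClosed I) :
    CompactSpace (PX S k hI) :=
  isCompact_iff_compactSpace.1 (isCompact_part S k hI)

/-- moving the `k`-th coordinate -/
theorem ret_part {N : ℕ} (S S' : Finset (Fin N → ℤ × Bool)) (k : Fin N) {I : Set ℝ}
    (hI : IsClosed I) (hc : Convex ℝ I) (φ ψ : ℝ → ℝ) (hφ : Continuous φ) (hψ : Continuous ψ)
    (hp : ∀ x ∈ cells S, x k ∈ I → Function.update x k (φ (x k)) ∈ cells S')
    (hq : ∀ y ∈ cells S', Function.update y k (ψ (y k)) ∈ cells S ∧ ψ (y k) ∈ I)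
    (hh : ∀ x ∈ cells S, x k ∈ I → ∀ t : ℝ, 0 ≤ t → t ≤ 1 →
      Function.update x k ((1 - t) * ψ (φ (x k)) + t * x k) ∈ cells S) (L : LC) :
    Ret (L.prod (PX S k hI)) (L.prod (CX S')) := by
  refine Ret.of_compact L (PX S k hI) (CX S')
    ⟨fun x => ⟨Function.update x.1 k (φ (x.1 k)), hp x.1 x.2.1 x.2.2⟩, ?_⟩
    ⟨fun y => ⟨Function.update y.1 k (ψ (y.1 k)), (hq y.1 y.2).1, by
      rw [Function.update_self]; exact (hq y.1 y.2).2⟩, ?_⟩
    ⟨fun z => ⟨Function.update z.2.1 k ((1 - (z.1 : ℝ)) * ψ (φ (z.2.1 k)) + z.1 * z.2.1 k),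
      hh z.2.1 z.2.2.1 z.2.2.2 _ z.1.2.1 z.1.2.2, ?_⟩, ?_⟩ ?_ ?_
  · refine Continuous.subtype_mk ?_ _
    have h1 : Continuous (fun x : PX S k hI => (x.1 : Fin N → ℝ)) := continuous_subtype_val
    exact h1.update k (hφ.comp ((continuous_apply k).comp h1))
  · refine Continuous.subtype_mk ?_ _
    have h1 : Continuous (fun x : CX S' => (x.1 : Fin N → ℝ)) := continuous_subtype_val
    exact h1.update k (hψ.comp ((continuous_apply k).comp h1))
  · rw [Function.update_self]
    have h1 : ψ (φ (z.2.1 k)) ∈ I := by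
      have h2 := hq _ (hp z.2.1 z.2.2.1 z.2.2.2)
      rw [Function.update_self] at h2
      exact h2.2
    have h2 := hc h1 z.2.2.2 (sub_nonneg.2 z.1.2.2) z.1.2.1 (sub_add_cancel _ _)
    exact h2
  · refine Continuous.subtype_mk ?_ _
    have h1 : Continuous (fun z : unitInterval × PX S k hI => (z.2.1 : Fin N → ℝ)) :=
      continuous_subtype_val.comp continuous_snd
    have h2 : Continuous (fun z : unitInterval × PX S k hI => z.2.1 k) :=
      (continuous_apply k).comp h1
    have h3 : Continuous (fun z : unitInterval × PX S k hI => (z.1 : ℝ)) :=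
      continuous_subtype_val.comp continuous_fst
    exact h1.update k (((continuous_const.sub h3).mul (hψ.comp (hφ.comp h2))).add (h3.mul h2))
  · intro x
    apply Subtype.ext
    change Function.update x.1 k ((1 - ((0 : unitInterval) : ℝ)) * ψ (φ (x.1 k)) +
      ((0 : unitInterval) : ℝ) * x.1 k) = Function.update (Function.update x.1 k (φ (x.1 k))) k
        (ψ (Function.update x.1 k (φ (x.1 k)) k))
    rw [Function.update_self, Function.update_idem]
    simp
  · intro x
    apply Subtype.ext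
    change Function.update x.1 k ((1 - ((1 : unitInterval) : ℝ)) * ψ (φ (x.1 k)) +
      ((1 : unitInterval) : ℝ) * x.1 k) = x.1
    simp

/-- moving a coordinate inside a cell -/
theorem update_mem_cell {N : ℕ} {c : Fin N → ℤ × Bool} {x : Fin N → ℝ} {k : Fin N} {s : ℝ}
    {d : ℤ × Bool} (hx : x ∈ cell c)
    (hs : if d.2 then (d.1 : ℝ) ≤ s ∧ s ≤ d.1 + 1 else s = d.1) :
    Function.update x k s ∈ cell (Function.update c k d) := by
  intro i
  by_cases h : i = k
  · subst h
    rw [Function.update_self, Function.update_self]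
    exact hs
  · rw [Function.update_of_ne h, Function.update_of_ne h]
    exact hx i

theorem update_mem_cell' {N : ℕ} {c : Fin N → ℤ × Bool} {x : Fin N → ℝ} {k : Fin N} {s : ℝ}
    (hx : x ∈ cell c)
    (hs : if (c k).2 then ((c k).1 : ℝ) ≤ s ∧ s ≤ (c k).1 + 1 else s = (c k).1) :
    Function.update x k s ∈ cell c := by
  have h := update_mem_cell (k := k) hx hs
  rwa [Function.update_eq_self] at h

theorem update_mem_of_update {N : ℕ} {c : Fin N → ℤ × Bool} {x : Fin N → ℝ} {k : Fin N} {s : ℝ}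
    {d : ℤ × Bool} (hx : x ∈ cell (Function.update c k d))
    (hs : if (c k).2 then ((c k).1 : ℝ) ≤ s ∧ s ≤ (c k).1 + 1 else s = (c k).1) :
    Function.update x k s ∈ cell c := by
  have h := update_mem_cell (k := k) (d := c k) hx hs
  rwa [Function.update_idem, Function.update_eq_self] at h

theorem mem_cell_update {N : ℕ} {c : Fin N → ℤ × Bool} {x : Fin N → ℝ} {k : Fin N} {m : ℤ}
    (hx : x ∈ cell (Function.update c k (m, false))) : x k = m := by
  have h := hx k
  rw [Function.update_self] at h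
  exact h

theorem cell_ge {N : ℕ} {c : Fin N → ℤ × Bool} {x : Fin N → ℝ} (hx : x ∈ cell c) (k : Fin N) :
    ((c k).1 : ℝ) ≤ x k := ((cell_bdd c hx) k trivial).1

section
variable {N : ℕ} (S : Finset (Fin N → ℤ × Bool)) (k : Fin N) (m : ℤ)

open Classical in
/-- the cells that meet the wall `x_k = m` -/
def SA : Finset (Fin N → ℤ × Bool) :=
  (S.filter (fun c => (c k).1 = m)).image (fun c => Function.update c k (m, false))

open Classical in
/-- the walls of the cells over `[m, m+1]` -/
def SM : Finset (Fin N → ℤ × Bool) :=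
  (S.filter (fun c => c k = (m, true))).image (fun c => Function.update c k (m, false))

open Classical in
/-- the part `m + 1 ≤ x_k` -/
def SB : Finset (Fin N → ℤ × Bool) :=
  S.filter (fun c => m + 1 ≤ (c k).1) ∪
    (S.filter (fun c => c k = (m, true))).image (fun c => Function.update c k (m + 1, false))

variable {S k m}

theorem mem_SA {c' : Fin N → ℤ × Bool} : c' ∈ SA S k m ↔
    ∃ c ∈ S, (c k).1 = m ∧ Function.update c k (m, false) = c' := by
  simp [SA, and_assoc]

theorem mem_SM {c' : Fin N → ℤ × Bool} : c' ∈ SM S k m ↔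
    ∃ c ∈ S, c k = (m, true) ∧ Function.update c k (m, false) = c' := by
  simp [SM, and_assoc]

theorem mem_SB {c' : Fin N → ℤ × Bool} : c' ∈ SB S k m ↔
    (c' ∈ S ∧ m + 1 ≤ (c' k).1) ∨
    ∃ c ∈ S, c k = (m, true) ∧ Function.update c k (m + 1, false) = c' := by
  simp [SB, and_assoc]

theorem ret_A (hS : ∀ c ∈ S, m ≤ (c k).1) (L : LC) :
    Ret (L.prod (PX S k (I := Iic ((m : ℝ) + 2 / 3)) isClosed_Iic)) (L.prod (CX (SA S k m))) := by
  have key : ∀ c ∈ S, ∀ x ∈ cell c, x k ≤ (m : ℝ) + 2 / 3 → (c k).1 = m := by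
    intro c hc x hx hxk
    have h1 := cell_ge hx k
    have h2 : ((c k).1 : ℝ) < m + 1 := by linarith
    have h3 : (c k).1 < m + 1 := by exact_mod_cast h2
    have h4 := hS c hc
    omega
  refine ret_part S (SA S k m) k isClosed_Iic (convex_Iic _) (fun _ => m) id continuous_const
    continuous_id ?_ ?_ ?_ L
  · intro x hx hxk
    obtain ⟨c, hc, hxc⟩ := mem_cells.1 hx
    exact mem_cells.2 ⟨_, mem_SA.2 ⟨c, hc, key c hc x hxc hxk, rfl⟩, update_mem_cell hxc rfl⟩
  · intro y hy
    obtain ⟨c', hc', hyc⟩ := mem_cells.1 hy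
    obtain ⟨c, hc, hm, rfl⟩ := mem_SA.1 hc'
    have h1 := mem_cell_update hyc
    rw [id, h1]
    refine ⟨mem_cells.2 ⟨c, hc, update_mem_of_update hyc ?_⟩, ?_⟩
    · rw [hm]
      by_cases h2 : (c k).2
      · rw [if_pos h2]
        exact ⟨le_rfl, by linarith⟩
      · rw [if_neg h2]
    · rw [mem_Iic]
      linarith
  · intro x hx hxk t h0 h1
    obtain ⟨c, hc, hxc⟩ := mem_cells.1 hx
    have hm := key c hc x hxc hxk
    refine mem_cells.2 ⟨c, hc, update_mem_cell' hxc ?_⟩
    have h3 := hxc k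
    rw [hm] at h3 ⊢
    rw [id]
    by_cases h2 : (c k).2
    · rw [if_pos h2] at h3 ⊢
      constructor <;> nlinarith [h3.1, h3.2]
    · rw [if_neg h2] at h3 ⊢
      rw [h3]
      ring

theorem ret_M (hS : ∀ c ∈ S, m ≤ (c k).1) (L : LC) :
    Ret (L.prod (PX S k (I := Icc ((m : ℝ) + 1 / 3) ((m : ℝ) + 2 / 3)) isClosed_Icc))
      (L.prod (CX (SM S k m))) := by
  have key : ∀ c ∈ S, ∀ x ∈ cell c, x k ∈ Icc ((m : ℝ) + 1 / 3) ((m : ℝ) + 2 / 3) →
      c k = (m, true) := by
    intro c hc x hx hxk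
    have h1 := cell_ge hx k
    have h2 : ((c k).1 : ℝ) < m + 1 := by linarith [hxk.2]
    have h3 : (c k).1 < m + 1 := by exact_mod_cast h2
    have h4 := hS c hc
    have h5 : (c k).1 = m := by omega
    refine Prod.ext h5 ?_
    by_contra h6
    have h7 := hx k
    rw [if_neg h6, h5] at h7
    linarith [hxk.1]
  refine ret_part S (SM S k m) k isClosed_Icc (convex_Icc _ _) (fun _ => m)
    (fun _ => (m : ℝ) + 1 / 2) continuous_const continuous_const ?_ ?_ ?_ L
  · intro x hx hxk
    obtain ⟨c, hc, hxc⟩ := mem_cells.1 hx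
    exact mem_cells.2 ⟨_, mem_SM.2 ⟨c, hc, key c hc x hxc hxk, rfl⟩, update_mem_cell hxc rfl⟩
  · intro y hy
    obtain ⟨c', hc', hyc⟩ := mem_cells.1 hy
    obtain ⟨c, hc, hm, rfl⟩ := mem_SM.1 hc'
    refine ⟨mem_cells.2 ⟨c, hc, update_mem_of_update hyc ?_⟩, ?_⟩
    · rw [hm]
      exact ⟨by linarith, by linarith⟩
    · exact ⟨by linarith, by linarith⟩
  · intro x hx hxk t h0 h1
    obtain ⟨c, hc, hxc⟩ := mem_cells.1 hx
    have hm := key c hc x hxc hxk
    refine mem_cells.2 ⟨c, hc, update_mem_cell' hxc ?_⟩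
    rw [hm]
    obtain ⟨h3, h4⟩ := hxk
    constructor
    · change (m : ℝ) ≤ (1 - t) * (m + 1 / 2) + t * x k
      nlinarith
    · change (1 - t) * (m + 1 / 2) + t * x k ≤ (m : ℝ) + 1
      nlinarith

theorem ret_B (hS : ∀ c ∈ S, m ≤ (c k).1) (L : LC) :
    Ret (L.prod (PX S k (I := Ici ((m : ℝ) + 1 / 3)) isClosed_Ici)) (L.prod (CX (SB S k m))) := by
  have key : ∀ c ∈ S, ∀ x ∈ cell c, (m : ℝ) + 1 / 3 ≤ x k → m + 1 ≤ (c k).1 ∨ c k = (m, true) := by
    intro c hc x hx hxk
    have h4 := hS c hc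
    by_cases h5 : m + 1 ≤ (c k).1
    · exact Or.inl h5
    · right
      have h5 : (c k).1 = m := by omega
      refine Prod.ext h5 ?_
      by_contra h6
      have h7 := hx k
      rw [if_neg h6, h5] at h7
      linarith
  have big : ∀ c : Fin N → ℤ × Bool, ∀ x ∈ cell c, m + 1 ≤ (c k).1 → (m : ℝ) + 1 ≤ x k := by
    intro c x hx h
    have h1 := cell_ge hx k
    have h2 : ((m + 1 : ℤ) : ℝ) ≤ (c k).1 := by exact_mod_cast h
    push_cast at h2
    linarith
  refine ret_part S (SB S k m) k isClosed_Ici (convex_Ici _) (fun s => max s ((m : ℝ) + 1)) id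
    (continuous_id.max continuous_const) continuous_id ?_ ?_ ?_ L
  · intro x hx hxk
    obtain ⟨c, hc, hxc⟩ := mem_cells.1 hx
    rcases key c hc x hxc hxk with h | h
    · rw [max_eq_left (big c x hxc h), Function.update_eq_self]
      exact mem_cells.2 ⟨c, mem_SB.2 (Or.inl ⟨hc, h⟩), hxc⟩
    · have h1 := hxc k
      rw [h] at h1
      rw [max_eq_right h1.2]
      refine mem_cells.2 ⟨_, mem_SB.2 (Or.inr ⟨c, hc, h, rfl⟩), update_mem_cell hxc ?_⟩
      change (m : ℝ) + 1 = ((m + 1 : ℤ) : ℝ)
      push_cast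
      rfl
  · intro y hy
    obtain ⟨c', hc', hyc⟩ := mem_cells.1 hy
    rcases mem_SB.1 hc' with ⟨hc, h⟩ | ⟨c, hc, hm, rfl⟩
    · rw [id, Function.update_eq_self]
      refine ⟨mem_cells.2 ⟨c', hc, hyc⟩, ?_⟩
      have := big c' y hyc h
      rw [mem_Ici]
      linarith
    · have h1 := mem_cell_update hyc
      push_cast at h1
      rw [id, h1]
      refine ⟨mem_cells.2 ⟨c, hc, update_mem_of_update hyc ?_⟩, ?_⟩
      · rw [hm]
        exact ⟨by linarith, le_rfl⟩
      · rw [mem_Ici]
        linarith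
  · intro x hx hxk t h0 h1
    obtain ⟨c, hc, hxc⟩ := mem_cells.1 hx
    refine mem_cells.2 ⟨c, hc, ?_⟩
    rcases key c hc x hxc hxk with h | h
    · rw [id, max_eq_left (big c x hxc h)]
      have : (1 - t) * x k + t * x k = x k := by ring
      rw [this, Function.update_eq_self]
      exact hxc
    · have h2 := hxc k
      rw [h] at h2
      obtain ⟨h3, h4⟩ := h2
      simp only at h3 h4
      rw [id, max_eq_right h4]
      refine update_mem_cell' hxc ?_
      rw [h]
      constructor
      · change (m : ℝ) ≤ (1 - t) * (m + 1) + t * x k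
        nlinarith
      · change (1 - t) * (m + 1) + t * x k ≤ (m : ℝ) + 1
        nlinarith

end

/-- a part of `ℝ^a × |S|` -/
def partH {N : ℕ} (a : ℕ) (S : Finset (Fin N → ℤ × Bool)) (k : Fin N) {I : Set ℝ}
    (hI : IsClosed I) (J : Set ((LC.rpow (Fin a)).prod (CX S))) (hJ : IsClosed J)
    (h : ∀ z : (LC.rpow (Fin a)).prod (CX S), z ∈ J ↔ z.2.1 k ∈ I) :
    ((LC.rpow (Fin a)).prod (CX S)).closed J hJ ≃ₜ (LC.rpow (Fin a)).prod (PX S k hI) where
  toFun z := (z.1.1, ⟨z.1.2.1, z.1.2.2, (h z.1).1 z.2⟩)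
  invFun z := ⟨(z.1, ⟨z.2.1, z.2.2.1⟩), (h (z.1, ⟨z.2.1, z.2.2.1⟩)).2 z.2.2.2⟩
  left_inv z := rfl
  right_inv z := rfl
  continuous_toFun := by
    have h1 : Continuous (fun z : ((LC.rpow (Fin a)).prod (CX S)).closed J hJ =>
      (z.1 : (LC.rpow (Fin a)).prod (CX S))) := continuous_subtype_val
    refine (continuous_fst.comp h1).prodMk (Continuous.subtype_mk ?_ _)
    exact continuous_subtype_val.comp (continuous_snd.comp h1)
  continuous_invFun := by
    refine Continuous.subtype_mk (continuous_fst.prodMk (Continuous.subtype_mk ?_ _)) _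
    exact continuous_subtype_val.comp continuous_snd

theorem ret_R {X : LC} {a : ℕ} {Y : LC} (h : Ret X ((LC.rpow (Fin a)).prod Y)) :
    Ret (LC.R.prod X) ((LC.rpow (Fin (a + 1))).prod Y) :=
  (Ret.ltens LC.R h).trans ((Ret.assoc _ _ _).trans
    (Ret.of_homeo ((consR a).prodCongr (Homeomorph.refl _))))

/-! ### The induction -/

section
variable {B : LC → Prop} (ret : ∀ {K L : LC}, Ret K L → B L → B K)
  (sph : ∀ a : ℕ, B (LC.rpow (Fin a)))
  (mv : ∀ {K : LC} (u : C(K, ℝ)), IsTest K → B (MV.A u) → B (MV.B u) → B (MV.C u) →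
    B (LC.R.prod (MV.A u)) → B (LC.R.prod (MV.B u)) → B (LC.R.prod (MV.C u)) → B K)

/-- the statement holds for all `ℝ^a × |S|` -/
def Good (B : LC → Prop) {N : ℕ} (S : Finset (Fin N → ℤ × Bool)) : Prop :=
  ∀ a : ℕ, B ((LC.rpow (Fin a)).prod (CX S))

include ret sph in
/-- a point or the empty set -/
theorem good_zero {N : ℕ} (S : Finset (Fin N → ℤ × Bool)) (μ : Fin N → ℤ)
    (h : ∀ c ∈ S, ∀ i, c i = (μ i, false)) : Good B S := by
  intro a
  rcases S.eq_empty_or_nonempty with hS | ⟨c₀, hc₀⟩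
  · subst hS
    refine ret (Ret.of_isEmpty (E := (LC.rpow (Fin a)).prod (CX ∅)) ⟨?_⟩ _) (sph a)
    rintro ⟨v, x, hx⟩
    obtain ⟨c, hc, -⟩ := mem_cells.1 hx
    simp at hc
  · have hm : ∀ x ∈ cells S, x = fun i => (μ i : ℝ) := by
      intro x hx
      obtain ⟨c, hc, hxc⟩ := mem_cells.1 hx
      funext i
      have h1 := hxc i
      rw [h c hc i] at h1
      exact h1
    have hp : (fun i => (μ i : ℝ)) ∈ cells S := by
      refine mem_cells.2 ⟨c₀, hc₀, fun i => ?_⟩
      rw [h c₀ hc₀ i]
      rfl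
    let e : (LC.rpow (Fin a)).prod (CX S) ≃ₜ LC.rpow (Fin a) :=
      { toFun := fun z => z.1
        invFun := fun v => (v, ⟨_, hp⟩)
        left_inv := fun z => Prod.ext rfl (Subtype.ext (hm _ z.2.2).symm)
        right_inv := fun _ => rfl
        continuous_toFun := continuous_fst
        continuous_invFun := continuous_id.prodMk continuous_const }
    exact ret (Ret.of_homeo e) (sph a)

include ret mv in
/-- cutting -/
theorem good_cut {N : ℕ} {S : Finset (Fin N → ℤ × Bool)} {k : Fin N} {m : ℤ}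
    (hS : ∀ c ∈ S, m ≤ (c k).1) (hA : Good B (SA S k m)) (hB : Good B (SB S k m))
    (hM : Good B (SM S k m)) : Good B S := by
  intro a
  let u : C((LC.rpow (Fin a)).prod (CX S), ℝ) := ⟨fun z => 3 * (z.2.1 k - m) - 1, by
    have h1 : Continuous (fun z : (LC.rpow (Fin a)).prod (CX S) => (z.2.1 : Fin N → ℝ)) :=
      continuous_subtype_val.comp continuous_snd
    exact (continuous_const.mul (((continuous_apply k).comp h1).sub continuous_const)).sub
      continuous_const⟩
  have rA : Ret (MV.A u) ((LC.rpow (Fin a)).prod (CX (SA S k m))) :=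
    (Ret.of_homeo (partH a S k isClosed_Iic {z | u z ≤ 1} (MV.clA u) fun z => by
      change 3 * (z.2.1 k - m) - 1 ≤ 1 ↔ z.2.1 k ≤ (m : ℝ) + 2 / 3
      constructor <;> intro h <;> linarith)).trans (ret_A hS _)
  have rB : Ret (MV.B u) ((LC.rpow (Fin a)).prod (CX (SB S k m))) :=
    (Ret.of_homeo (partH a S k isClosed_Ici {z | 0 ≤ u z} (MV.clB u) fun z => by
      change 0 ≤ 3 * (z.2.1 k - m) - 1 ↔ (m : ℝ) + 1 / 3 ≤ z.2.1 k
      constructor <;> intro h <;> linarith)).trans (ret_B hS _)
  have rC : Ret (MV.C u) ((LC.rpow (Fin a)).prod (CX (SM S k m))) :=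
    (Ret.of_homeo (partH a S k isClosed_Icc {z | 0 ≤ u z ∧ u z ≤ 1} (MV.clC u) fun z => by
      change (0 ≤ 3 * (z.2.1 k - m) - 1 ∧ 3 * (z.2.1 k - m) - 1 ≤ 1) ↔
        (m : ℝ) + 1 / 3 ≤ z.2.1 k ∧ z.2.1 k ≤ (m : ℝ) + 2 / 3
      constructor <;> rintro ⟨h1, h2⟩ <;> constructor <;> linarith)).trans (ret_M hS _)
  have tK : IsTest ((LC.rpow (Fin a)).prod (CX S)) :=
    ⟨a, N, cells S, isClosed_cells S, ⟨S, rfl⟩, Ret.refl _⟩
  exact mv u tK (ret rA (hA a)) (ret rB (hB a)) (ret rC (hM a)) (ret (ret_R rA) (hA (a + 1)))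
    (ret (ret_R rB) (hB (a + 1))) (ret (ret_R rC) (hM (a + 1)))

include ret sph mv in
theorem good_all {N : ℕ} : ∀ (j : ℕ), j ≤ N → ∀ (μ : Fin N → ℤ) (S : Finset (Fin N → ℤ × Bool)),
    (∀ c ∈ S, ∀ i : Fin N, j ≤ i.1 → c i = (μ i, false)) → Good B S := by
  intro j
  induction j with
  | zero =>
    intro _ μ S h
    exact good_zero ret sph S μ fun c hc i => h c hc i (Nat.zero_le _)
  | succ j ih =>
    intro hj μ S h
    have ih' := ih (by omega)
    let k : Fin N := ⟨j, hj⟩
    -- the inner induction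
    have inner : ∀ (w : ℕ) (m : ℤ) (S : Finset (Fin N → ℤ × Bool)),
        (∀ c ∈ S, ∀ i : Fin N, j + 1 ≤ i.1 → c i = (μ i, false)) →
        (∀ c ∈ S, m ≤ (c k).1 ∧ (c k).1 + (if (c k).2 then 1 else 0) ≤ m + w) → Good B S := by
      intro w
      induction w with
      | zero =>
        intro m S h1 h2
        refine ih' (Function.update μ k m) S fun c hc i hi => ?_
        by_cases hik : i = k
        · subst hik
          obtain ⟨h3, h4⟩ := h2 c hc
          rw [Function.update_self]
          by_cases h5 : (c k).2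
          · rw [if_pos h5] at h4
            push_cast at h4
            omega
          · rw [if_neg h5] at h4
            push_cast at h4
            exact Prod.ext (by omega) (by simpa using h5)
        · rw [Function.update_of_ne hik]
          refine h1 c hc i ?_
          have : i.1 ≠ j := fun h => hik (Fin.ext h)
          omega
      | succ w ihw =>
        intro m S h1 h2
        have ne : ∀ i : Fin N, j + 1 ≤ i.1 → i ≠ k := by
          intro i hi h
          rw [h] at hi
          exact absurd hi (by simp [k])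
        have wall : ∀ (c : Fin N → ℤ × Bool) (m' : ℤ), c ∈ S → ∀ i : Fin N, j ≤ i.1 →
            Function.update c k (m', false) i = (Function.update μ k m' i, false) := by
          intro c m' hc i hi
          by_cases hik : i = k
          · subst hik
            rw [Function.update_self, Function.update_self]
          · rw [Function.update_of_ne hik, Function.update_of_ne hik]
            refine h1 c hc i ?_
            have : i.1 ≠ j := fun h => hik (Fin.ext h)
            omega
        refine good_cut ret mv (k := k) (m := m) (fun c hc => (h2 c hc).1) ?_ ?_ ?_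
        · refine ih' (Function.update μ k m) _ fun c' hc' i hi => ?_
          obtain ⟨c, hc, -, rfl⟩ := mem_SA.1 hc'
          exact wall c m hc i hi
        · refine ihw (m + 1) _ (fun c' hc' i hi => ?_) fun c' hc' => ?_
          · rcases mem_SB.1 hc' with ⟨hc, -⟩ | ⟨c, hc, -, rfl⟩
            · exact h1 c' hc i hi
            · rw [Function.update_of_ne (ne i hi)]
              exact h1 c hc i hi
          · rcases mem_SB.1 hc' with ⟨hc, h3⟩ | ⟨c, hc, h3, rfl⟩
            · refine ⟨h3, ?_⟩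
              have := (h2 c' hc).2
              push_cast at this ⊢
              linarith
            · rw [Function.update_self]
              refine ⟨le_rfl, ?_⟩
              simp
        · refine ih' (Function.update μ k m) _ fun c' hc' i hi => ?_
          obtain ⟨c, hc, -, rfl⟩ := mem_SM.1 hc'
          exact wall c m hc i hi
    -- bounds
    obtain ⟨M, hM⟩ : ∃ M : ℕ, ∀ c ∈ S, |(c k).1| + 1 ≤ (M : ℤ) := by
      refine ⟨∑ c ∈ S, ((c k).1.natAbs + 1), fun c hc => ?_⟩
      have h3 := Finset.single_le_sum (f := fun c : Fin N → ℤ × Bool => (c k).1.natAbs + 1)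
        (fun _ _ => Nat.zero_le _) hc
      have h4 : |(c k).1| = ((c k).1.natAbs : ℤ) := Int.abs_eq_natAbs _
      rw [h4]
      exact_mod_cast h3
    refine inner (2 * M) (-M) S h fun c hc => ?_
    have h3 := hM c hc
    have h4 := abs_le.1 (le_refl |(c k).1|)
    constructor
    · linarith [h4.1]
    · have h5 : (if (c k).2 then (1 : ℤ) else 0) ≤ 1 := by split_ifs <;> norm_num
      push_cast
      linarith [h4.2]

include ret sph mv in
/-- induction over the test spaces -/
theorem test_ind (K : LC) (hK : IsTest K) : B K := by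
  obtain ⟨a, N, Q, hQ, ⟨S, rfl⟩, h⟩ := hK
  exact ret h (good_all ret sph mv N le_rfl (fun _ => 0) S
    (fun c _ i hi => absurd i.2 (by omega)) a)

end

theorem isIso_of_bij {G H : GF} (F : G ⟶ H)
    (h : ∀ (b : ℕ) (K : Test), Function.Bijective ((F.app b).app (op K))) : IsIso F := by
  have h1 : ∀ b (K : Testᵒᵖ), IsIso ((F.app b).app K) := fun b K =>
    (ConcreteCategory.isIso_iff_bijective _).2 (h b K.unop)
  have h2 : ∀ b, IsIso (F.app b) := fun b => NatIso.isIso_of_isIso_app _
  refine ⟨⟨fun b => inv (F.app b), fun b => ?_⟩, ?_, ?_⟩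
  · rw [IsIso.eq_inv_comp, ← Category.assoc, ← F.comm b, Category.assoc]
    have h3 : Functor.whiskerLeft Test.cx.op (F.app (b + 1)) ≫
        Functor.whiskerLeft Test.cx.op (inv (F.app (b + 1))) = 𝟙 _ := by
      rw [← Functor.whiskerLeft_comp, IsIso.hom_inv_id]
      rfl
    rw [h3, Category.comp_id]
  · exact GF.hom_ext fun b => IsIso.hom_inv_id (F.app b)
  · exact GF.hom_ext fun b => IsIso.inv_hom_id (F.app b)

end Sphs

/-- A morphism of exact graded functors that is bijective on all `ℝ^a` is an isomorphism. -/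
theorem GF.isIso_of_spheres68 {G H : GF} (hG : G.Exact) (hH : H.Exact) (f : G ⟶ H)
    (h : ∀ b a, IsIso ((GF.ev b (Test.R a)).map f)) : IsIso f := by
  have hsph : ∀ a : ℕ, GF.Bij f (LC.rpow (Fin a)) := fun a =>
    ⟨IsTest.rpow a, fun b => (ConcreteCategory.isIso_iff_bijective _).1 (h b a)⟩
  refine Sphs.isIso_of_bij f fun b K => ?_
  obtain ⟨_, hb⟩ := Sphs.test_ind (B := GF.Bij f) (fun r hL => hL.ret r) hsph
    (fun u hK hA hB hC hA' hB' hC' => GF.Bij.mv hG hH u hK hA hB hC hA' hB' hC')
    K.obj K.property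
  exact hb b

end Pool.Agent.Helper1.Stab
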