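import Pool.Agent.Helper68.Stab.PiS
import Pool.Agent.Helper68.Stab.Spheres

/-! Stable equivalences are the maps that induce isomorphisms of graded functors. -/

open CategoryTheory Topology Filter Set Opposite

noncomputable section

namespace Pool.Agent.Helper1.Stab

/-- (I4-d) a map of prespectra is a stable equivalence iff it is an isomorphism of graded
functors -/
theorem stableEquiv_iff68 {X Y : Prespectrum} (φ : X ⟶ Y) :
    stableEquiv φ ↔ IsIso (hP.map φ) := by
  constructor
  · intro h
    refine GF.isIso_of_spheres68 (hT X).exact (hT Y).exact (hP.map φ) fun b a => ?_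
    obtain ⟨e⟩ := piS_iso68' a b
    exact (NatIso.isIso_map_iff e φ).1 (h a (2 * b))
  · intro h a b
    obtain ⟨a', b', ⟨e⟩⟩ := piS_iso68 a b
    refine (NatIso.isIso_map_iff e φ).2 ?_
    change IsIso ((GF.ev b' (Test.R a')).map (hP.map φ))
    infer_instance

end Pool.Agent.Helper1.Stab
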