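import Pool.Agent.Helper1.Stab.Biv

/-! Test spaces: elementary closure properties, cubical sets. -/

open CategoryTheory Topology Filter Set Opposite

noncomputable section

namespace Pool.Agent.Helper1.Stab

/-! ## Test spaces -/

/-- a closed unit cell of `ℝ^N` with integral vertices: in each coordinate a point or an interval -/
def cell {N : ℕ} (c : Fin N → ℤ × Bool) : Set (Fin N → ℝ) :=
  {x | ∀ i, if (c i).2 then ((c i).1 : ℝ) ≤ x i ∧ x i ≤ (c i).1 + 1 else x i = (c i).1}

/-- a finite union of cells -/
def IsCubical {N : ℕ} (Q : Set (Fin N → ℝ)) : Prop :=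
  ∃ S : Finset (Fin N → ℤ × Bool), Q = ⋃ c ∈ S, cell c

/-- `K` is a homotopy retract of `ℝ^a × Q` for a finite cubical complex `Q`. -/
def IsTest : ObjectProperty LC := fun K =>
  ∃ (a N : ℕ) (Q : Set (Fin N → ℝ)) (h : IsClosed Q), IsCubical Q ∧
    ∃ (i : K ⟶ (LC.rpow (Fin a)).prod ((LC.rpow (Fin N)).closed Q h))
      (r : (LC.rpow (Fin a)).prod ((LC.rpow (Fin N)).closed Q h) ⟶ K), i ≫ r = 𝟙 K

/-- The category of test spaces: homotopy classes of pointed maps of one-point
compactifications. -/
abbrev Test : Type 1 := IsTest.FullSubcategory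

/-- the functor `X × -` on the homotopy category -/
def LC.prodL (X : LC) : LC ⥤ LC where
  obj K := X.prod K
  map {K L} f := HMap.box (K := X) (L := X) (PMap.id X).cls (f : HMap K L.plus)
  map_id K := by
    change (PMap.id X).cls.box (PMap.id K).cls = (PMap.id (X.prod K)).cls
    rw [HMap.box_cls, PMap.box_id]
  map_comp {K L M} f g := by
    revert f g
    refine HMap.ind fun f => ?_
    refine HMap.ind fun g => ?_
    change (PMap.id X).cls.box (PMap.comp g f).cls =
      ((PMap.id X).cls.box g.cls).comp ((PMap.id X).cls.box f.cls)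
    simp only [HMap.box_cls, HMap.comp_cls, ← PMap.box_comp, PMap.comp_id]

/-! ## Retracts -/

/-- `K` is a retract of `L` in the homotopy category -/
def Ret (K L : LC) : Prop := ∃ (i : K ⟶ L) (r : L ⟶ K), i ≫ r = 𝟙 K

theorem Ret.refl (K : LC) : Ret K K := ⟨𝟙 K, 𝟙 K, Category.id_comp _⟩

theorem Ret.trans {K L M : LC} (h : Ret K L) (h' : Ret L M) : Ret K M := by
  obtain ⟨i, r, e⟩ := h
  obtain ⟨i', r', e'⟩ := h'
  refine ⟨i ≫ i', r' ≫ r, ?_⟩
  rw [Category.assoc, ← Category.assoc i' r' r, e', Category.id_comp, e]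

theorem Ret.test {K L : LC} (h : Ret K L) (hL : IsTest L) : IsTest K := by
  obtain ⟨a, N, Q, hQ, hc, i', r', h'⟩ := hL
  obtain ⟨i, r, e⟩ := h.trans ⟨i', r', h'⟩
  exact ⟨a, N, Q, hQ, hc, i, r, e⟩

theorem Ret.of_homeo {K L : LC} (e : K ≃ₜ L) : Ret K L := by
  refine ⟨(PMap.ofHomeo e).cls, (PMap.ofHomeo e.symm).cls, ?_⟩
  change (PMap.comp (PMap.ofHomeo e.symm) (PMap.ofHomeo e)).cls = (PMap.id K).cls
  congr 1
  ext k
  change ((e.symm (e k) : K) : OnePoint K) = (k : OnePoint K)
  rw [e.symm_apply_apply]

theorem Ret.of_isEmpty {E : LC} (hE : IsEmpty E) (K : LC) : Ret E K := by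
  refine ⟨(PMap.zero E K.plus).cls, (PMap.zero K E.plus).cls, ?_⟩
  change (PMap.comp (PMap.zero K E.plus) (PMap.zero E K.plus)).cls = (PMap.id E).cls
  congr 1
  ext k
  exact (hE.false k).elim

theorem Ret.ltens (X : LC) {K L : LC} (h : Ret K L) : Ret (X.prod K) (X.prod L) := by
  obtain ⟨i, r, e⟩ := h
  exact ⟨(LC.prodL X).map i, (LC.prodL X).map r, ((LC.prodL X).map_comp i r).symm.trans
    ((congrArg (fun f => (LC.prodL X).map f) e).trans ((LC.prodL X).map_id K))⟩

/-- Products with compact spaces: a homotopy retraction of compact spaces. -/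
theorem Ret.of_compact (L X Y : LC) [CompactSpace X] [CompactSpace Y] (p : C(X, Y)) (q : C(Y, X))
    (h : C(unitInterval × X, X)) (h0 : ∀ x, h (0, x) = q (p x)) (h1 : ∀ x, h (1, x) = x) :
    Ret (L.prod X) (L.prod Y) := by
  have proper : ∀ (A B : LC) [CompactSpace A] [CompactSpace B] (f : C(A, B)),
      Tendsto f (cocompact A) (cocompact B) := by
    intro A B _ _ f
    rw [cocompact_eq_bot, cocompact_eq_bot]
    exact tendsto_bot
  refine ⟨((PMap.id L).box (PMap.ofProper p p.continuous (proper X Y p))).cls,
    ((PMap.id L).box (PMap.ofProper q q.continuous (proper Y X q))).cls, ?_⟩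
  change (PMap.comp ((PMap.id L).box (PMap.ofProper q q.continuous (proper Y X q)))
    ((PMap.id L).box (PMap.ofProper p p.continuous (proper X Y p)))).cls = (PMap.id (L.prod X)).cls
  rw [← PMap.box_comp, PMap.id_comp, ← PMap.box_id, PMap.cls_eq]
  refine PMap.Homotopic.box_right _ ?_
  exact ⟨PMap.ofProper (K := LC.I.prod X) (L := X) h h.continuous (proper (LC.I.prod X) X h),
    fun x => congrArg OnePoint.some (h0 x), fun x => congrArg OnePoint.some (h1 x)⟩

/-! ## Closure properties -/

/-- `X × (L × Q) = (X × L) × Q` -/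
theorem Ret.assoc (X L Q : LC) : Ret (X.prod (L.prod Q)) ((X.prod L).prod Q) :=
  Ret.of_homeo (Homeomorph.prodAssoc X L Q).symm

/-- `(ℝ × ℝ^a) × Q = ℝ^(a+1) × Q` -/
def consR (a : ℕ) : LC.R.prod (LC.rpow (Fin a)) ≃ₜ LC.rpow (Fin (a + 1)) where
  toFun x := Fin.cons x.1 x.2
  invFun x := (x 0, fun i => x i.succ)
  left_inv x := by simp
  right_inv x := by
    funext i
    refine Fin.cases ?_ (fun i => ?_) i <;> simp
  continuous_toFun := by
    refine continuous_pi fun i => ?_
    refine Fin.cases ?_ (fun i => ?_) i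
    · simp only [Fin.cons_zero]; exact continuous_fst
    · simp only [Fin.cons_succ]; exact (continuous_apply i).comp continuous_snd
  continuous_invFun := (continuous_apply 0).prodMk (continuous_pi fun i => continuous_apply _)

theorem IsTest.prodR {K : LC} (h : IsTest K) : IsTest (LC.R.prod K) := by
  obtain ⟨a, N, Q, hQ, hc, i, r, e⟩ := h
  have h1 : Ret (LC.R.prod K) (LC.R.prod ((LC.rpow (Fin a)).prod ((LC.rpow (Fin N)).closed Q hQ))) :=
    Ret.ltens LC.R ⟨i, r, e⟩
  have h2 := h1.trans (Ret.assoc _ _ _)
  have h3 : Ret ((LC.R.prod (LC.rpow (Fin a))).prod ((LC.rpow (Fin N)).closed Q hQ))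
      ((LC.rpow (Fin (a + 1))).prod ((LC.rpow (Fin N)).closed Q hQ)) :=
    Ret.of_homeo ((consR a).prodCongr (Homeomorph.refl _))
  obtain ⟨i', r', e'⟩ := h2.trans h3
  exact ⟨a + 1, N, Q, hQ, hc, i', r', e'⟩

theorem IsTest.prodC {K : LC} (h : IsTest K) : IsTest (LC.C.prod K) := by
  have h1 : Ret (LC.C.prod K) ((LC.R.prod LC.R).prod K) :=
    Ret.of_homeo (Complex.equivRealProdCLM.toHomeomorph.prodCongr (Homeomorph.refl _))
  have h2 : Ret ((LC.R.prod LC.R).prod K) (LC.R.prod (LC.R.prod K)) :=
    Ret.of_homeo (Homeomorph.prodAssoc ℝ ℝ K)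
  exact (h1.trans h2).test h.prodR.prodR

theorem isTest_point : IsTest LC.point := by
  refine ⟨0, 0, Set.univ, isClosed_univ, ⟨{fun i => i.elim0}, ?_⟩, ?_⟩
  · ext x
    simp only [mem_univ, mem_iUnion, true_iff]
    exact ⟨_, Finset.mem_singleton_self _, fun i => i.elim0⟩
  · refine Ret.of_homeo ?_
    exact
      { toFun := fun _ => (fun i => i.elim0, ⟨fun i => i.elim0, trivial⟩)
        invFun := fun _ => PUnit.unit
        left_inv := fun _ => rfl
        right_inv := fun x => Prod.ext (Subsingleton.elim _ _)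
          (Subtype.ext (Subsingleton.elim (α := Fin 0 → ℝ) _ _))
        continuous_toFun := continuous_const
        continuous_invFun := continuous_const }

theorem IsTest.rpow (a : ℕ) : IsTest (LC.rpow (Fin a)) := by
  induction a with
  | zero =>
    refine Ret.test (Ret.of_homeo ?_) isTest_point
    exact
      { toFun := fun _ => PUnit.unit
        invFun := fun _ i => i.elim0
        left_inv := fun x => Subsingleton.elim _ _
        right_inv := fun x => rfl
        continuous_toFun := continuous_const
        continuous_invFun := continuous_const }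
  | succ a ih => exact Ret.test (Ret.of_homeo (consR a).symm) ih.prodR

theorem IsTest.cpow (a : ℕ) : IsTest (LC.cpow (Fin a)) := by
  induction a with
  | zero =>
    refine Ret.test (Ret.of_homeo ?_) isTest_point
    exact
      { toFun := fun _ => PUnit.unit
        invFun := fun _ i => i.elim0
        left_inv := fun x => Subsingleton.elim _ _
        right_inv := fun x => rfl
        continuous_toFun := continuous_const
        continuous_invFun := continuous_const }
  | succ a ih =>
    refine Ret.test (Ret.of_homeo ?_) ih.prodC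
    exact
      { toFun := fun x => (x 0, fun i => x i.succ)
        invFun := fun x => Fin.cons x.1 x.2
        left_inv := fun x => by
          funext i
          refine Fin.cases ?_ (fun i => ?_) i <;> simp
        right_inv := fun x => by simp
        continuous_toFun := (continuous_apply 0).prodMk (continuous_pi fun i => continuous_apply _)
        continuous_invFun := by
          refine continuous_pi fun i => ?_
          refine Fin.cases ?_ (fun i => ?_) i
          · simp only [Fin.cons_zero]; exact continuous_fst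
          · simp only [Fin.cons_succ]; exact (continuous_apply i).comp continuous_snd }

end Pool.Agent.Helper1.Stab
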