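import Pool.Agent.Helper1.Stab.GF
import Pool.Agent.Helper68.Stab.LocMV

/-! The set-valued theory of a prespectrum on locally compact spaces. -/

open CategoryTheory Topology Filter Set Opposite

noncomputable section

namespace Pool.Agent.Helper1.Stab

/-! ## Colimits of sequences of sets -/

namespace Sq
variable {A B : ℕ → Type} (s : ∀ n, A n → A (n + 1)) (t : ∀ n, B n → B (n + 1))

/-- one step -/
def stp (p : Σ n, A n) : Σ n, A n := ⟨p.1 + 1, s p.1 p.2⟩

/-- iteration -/
def up {n : ℕ} (x : A n) (k : ℕ) : A (n + k) :=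
  Nat.rec (motive := fun k => A (n + k)) x (fun k y => s (n + k) y) k

theorem up_succ {n : ℕ} (x : A n) (k : ℕ) : up s x (k + 1) = s (n + k) (up s x k) := rfl

theorem stp_iter {n : ℕ} (x : A n) (k : ℕ) : (stp s)^[k] ⟨n, x⟩ = ⟨n + k, up s x k⟩ := by
  induction k with
  | zero => rfl
  | succ k ih => rw [Function.iterate_succ_apply', ih]; rfl

/-- equivalence -/
@[reducible] def setoid : Setoid (Σ n, A n) where
  r p q := ∃ m n, (stp s)^[m] p = (stp s)^[n] q
  iseqv :=
    { refl := fun p => ⟨0, 0, rfl⟩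
      symm := fun ⟨m, n, h⟩ => ⟨n, m, h.symm⟩
      trans := by
        rintro p q r ⟨m, n, h⟩ ⟨m', n', h'⟩
        refine ⟨m' + m, n + n', ?_⟩
        rw [Function.iterate_add_apply, h, ← Function.iterate_add_apply, Nat.add_comm m' n,
          Function.iterate_add_apply, h', ← Function.iterate_add_apply] }

/-- the colimit -/
def Colim : Type := Quotient (setoid s)

/-- the class of an element -/
def mk {n : ℕ} (x : A n) : Colim s := Quotient.mk (setoid s) ⟨n, x⟩

theorem mk_s {n : ℕ} (x : A n) : mk s (s n x) = mk s x :=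
  Quotient.sound (s := setoid s) ⟨0, 1, rfl⟩

theorem mk_up {n : ℕ} (x : A n) (k : ℕ) : mk s (up s x k) = mk s x := by
  induction k with
  | zero => rfl
  | succ k ih => rw [up_succ, mk_s, ih]

theorem mk_eq_iff {n : ℕ} {x y : A n} : mk s x = mk s y ↔ ∃ k, up s x k = up s y k := by
  constructor
  · intro h
    obtain ⟨k, m, hkm⟩ := Quotient.exact (s := setoid s) h
    rw [stp_iter, stp_iter] at hkm
    have h1 : k = m := by
      have := congrArg Sigma.fst hkm
      exact Nat.add_left_cancel this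
    subst h1
    exact ⟨k, eq_of_heq (Sigma.mk.inj_iff.1 hkm).2⟩
  · rintro ⟨k, hk⟩
    rw [← mk_up s x k, hk, mk_up]

theorem exists_mk (z : Colim s) : ∃ N, ∀ n, N ≤ n → ∃ x : A n, z = mk s x := by
  induction z using Quotient.ind with | _ p =>
  obtain ⟨N, x⟩ := p
  refine ⟨N, fun n hn => ?_⟩
  induction n, hn using Nat.le_induction with
  | base => exact ⟨x, rfl⟩
  | succ n _ ih =>
    obtain ⟨y, hy⟩ := ih
    exact ⟨s n y, hy.trans (mk_s s y).symm⟩

/-- the map of colimits -/
def map (g : ∀ n, A n → B n) (h : ∀ n x, g (n + 1) (s n x) = t n (g n x)) :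
    Colim s → Colim t := by
  refine Quotient.lift (s := setoid s) (fun p => mk t (g p.1 p.2)) ?_
  rintro ⟨n, x⟩ ⟨n', x'⟩ ⟨k, k', e⟩
  have key : ∀ (n : ℕ) (x : A n) (k : ℕ), mk t (g (n + k) (up s x k)) = mk t (g n x) := by
    intro n x k
    induction k with
    | zero => rfl
    | succ k ih => rw [up_succ, ← ih, ← mk_s t (g (n + k) (up s x k)), ← h]; rfl
  rw [stp_iter, stp_iter] at e
  have h1 := congrArg (fun p : Σ n, A n => mk t (g p.1 p.2)) e
  exact (key n x k).symm.trans (h1.trans (key n' x' k'))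

theorem map_mk (g : ∀ n, A n → B n) (h : ∀ n x, g (n + 1) (s n x) = t n (g n x)) {n : ℕ}
    (x : A n) : map s t g h (mk s x) = mk t (g n x) := rfl

theorem exists_mk₂ (z : Colim s) (w : Colim t) (N : ℕ) :
    ∃ n, N ≤ n ∧ ∃ (x : A n) (y : B n), z = mk s x ∧ w = mk t y := by
  obtain ⟨N1, h1⟩ := exists_mk s z
  obtain ⟨N2, h2⟩ := exists_mk t w
  obtain ⟨x, hx⟩ := h1 (max N (max N1 N2)) (by omega)
  obtain ⟨y, hy⟩ := h2 (max N (max N1 N2)) (by omega)
  exact ⟨_, le_max_left _ _, x, y, hx, hy⟩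

end Sq

/-! ## Structure maps -/

namespace Th
variable {Y : Prespectrum} {K L M : LC}

theorem sigC_apply {n : ℕ} (f : PMap K (Y.sp n)) (z : ℂ) (k : K) : Y.sigC f (z, k) =
    Y.str (n + 1) (squash z.re, Y.str n (squash z.im, f k)) := rfl

theorem sigC_comp {n : ℕ} (f : PMap L (Y.sp n)) (h : PMap K L.plus) :
    (Y.sigC f).comp (PMap.ltens LC.C h) = Y.sigC (f.comp h) := by
  ext ⟨z, k⟩
  change (Y.sigC f).plus (smashPt LC.C L ((z : OnePoint ℂ), h k)) =
    Y.str (n + 1) (squash z.re, Y.str n (squash z.im, f.plus (h k)))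
  rcases h k with _ | l
  · change (Y.sp (n + 2)).pt = Y.str (n + 1) (squash z.re, Y.str n (squash z.im, (Y.sp n).pt))
    rw [Y.str_pt, Y.str_pt]
  · rfl

/-- exchange of the interval -/
def eI (K : LC) : LC.I.prod (LC.C.prod K) ≃ₜ LC.C.prod (LC.I.prod K) where
  toFun := fun x => (x.2.1, (x.1, x.2.2))
  invFun := fun x => (x.2.1, (x.1, x.2.2))
  left_inv := fun _ => rfl
  right_inv := fun _ => rfl
  continuous_toFun := by fun_prop
  continuous_invFun := by fun_prop

theorem sigC_homotopic {n : ℕ} {f g : PMap K (Y.sp n)} (h : f.Homotopic g) :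
    (Y.sigC f).Homotopic (Y.sigC g) := by
  obtain ⟨H, h0, h1⟩ := h
  refine ⟨(Y.sigC H).comp (PMap.ofHomeo (eI K)), ?_, ?_⟩
  · rintro ⟨z, k⟩
    change Y.str (n + 1) (squash z.re, Y.str n (squash z.im, H (0, k))) = _
    rw [h0]
    rfl
  · rintro ⟨z, k⟩
    change Y.str (n + 1) (squash z.re, Y.str n (squash z.im, H (1, k))) = _
    rw [h1]
    rfl

/-- the first coordinate -/
def hd (j : ℕ) (K : LC) : (LC.cpow (Fin (j + 1))).prod K ≃ₜ LC.C.prod ((LC.cpow (Fin j)).prod K) where
  toFun x := (x.1 0, (fun i => x.1 i.succ, x.2))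
  invFun x := (Fin.cons x.1 x.2.1, x.2.2)
  left_inv x := by
    refine Prod.ext (funext fun i => ?_) rfl
    refine Fin.cases ?_ (fun i => ?_) i <;> simp
  right_inv x := by simp
  continuous_toFun := by fun_prop
  continuous_invFun := by
    refine Continuous.prodMk (continuous_pi fun i => ?_) (by fun_prop)
    refine Fin.cases ?_ (fun i => ?_) i
    · simp only [Fin.cons_zero]; fun_prop
    · simp only [Fin.cons_succ]; fun_prop

/-- the last coordinate -/
def lst (j : ℕ) (K : LC) :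
    (LC.cpow (Fin j)).prod (LC.C.prod K) ≃ₜ (LC.cpow (Fin (j + 1))).prod K where
  toFun := fun x => (fun i => Fin.lastCases (motive := fun _ => ℂ) x.2.1 x.1 i, x.2.2)
  invFun := fun x => (fun i => x.1 i.castSucc, (x.1 (Fin.last j), x.2))
  left_inv := by
    rintro ⟨v, z, k⟩
    simp
  right_inv := by
    rintro ⟨v, k⟩
    refine Prod.ext (funext fun i => ?_) rfl
    refine Fin.lastCases ?_ (fun i => ?_) i <;> simp
  continuous_toFun := by
    refine Continuous.prodMk (continuous_pi fun i => ?_) (by fun_prop)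
    refine Fin.lastCases ?_ (fun i => ?_) i
    · simp only [Fin.lastCases_last]; fun_prop
    · simp only [Fin.lastCases_castSucc]; fun_prop
  continuous_invFun := by fun_prop

theorem next_eq {j : ℕ} (f : Y.Rep j K) :
    f.next = (Y.sigC f).comp (PMap.ofHomeo (hd j K)) := rfl

theorem next_homotopic {j : ℕ} {f g : Y.Rep j K} (h : PMap.Homotopic f g) :
    PMap.Homotopic f.next g.next := by
  rw [next_eq, next_eq]
  exact (sigC_homotopic h).comp_left (PMap.ofHomeo (hd j K))

/-- precomposition -/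
def pre {j : ℕ} (φ : PMap K L.plus) (f : Y.Rep j L) : Y.Rep j K :=
  PMap.comp f (PMap.ltens (LC.cpow (Fin j)) φ)

theorem pre_next {j : ℕ} (φ : PMap K L.plus) (f : Y.Rep j L) :
    (pre φ f).next = pre φ f.next := by
  ext ⟨v, k⟩
  change Y.str _ (squash (v 0).re, Y.str _ (squash (v 0).im,
    PMap.plus f (smashPt (LC.cpow (Fin j)) L (((fun i => v i.succ : Fin j → ℂ) :
      OnePoint (Fin j → ℂ)), φ k)))) =
    PMap.plus f.next (smashPt (LC.cpow (Fin (j + 1))) L ((v : OnePoint (Fin (j + 1) → ℂ)), φ k))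
  rcases φ k with _ | l
  · change Y.str _ (squash (v 0).re, Y.str _ (squash (v 0).im, (Y.sp (2 * j)).pt)) = _
    rw [Y.str_pt]
    exact Y.str_pt _ _
  · rfl

theorem pre_homotopic {j : ℕ} {φ ψ : PMap K L.plus} (h : φ.Homotopic ψ) {f g : Y.Rep j L}
    (h' : PMap.Homotopic f g) : PMap.Homotopic (pre φ f) (pre ψ g) :=
  h'.comp (PMap.Homotopic.box_right _ h)

theorem pre_id {j : ℕ} (f : Y.Rep j K) : pre (PMap.id K) f = f := by
  unfold pre
  rw [PMap.ltens, PMap.box_id, PMap.comp_id]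

theorem pre_pre {j : ℕ} (φ : PMap K L.plus) (ψ : PMap L M.plus) (f : Y.Rep j M) :
    pre φ (pre ψ f) = pre (ψ.comp φ) f := by
  unfold pre
  rw [PMap.comp_assoc, PMap.ltens, PMap.ltens, ← PMap.box_comp, PMap.comp_id]

/-- the representative with given restrictions -/
def pair {j : ℕ} (f : Y.Rep j K) (g : Y.Rep j L) : Y.Rep j (K.sum L) :=
  (PMap.copair f g).comp (PMap.ofHomeo (ldist (LC.cpow (Fin j)) K L))

theorem pre_inl_pair {j : ℕ} (f : Y.Rep j K) (g : Y.Rep j L) :
    pre (PMap.inl K L) (pair f g) = f := by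
  ext ⟨v, k⟩; rfl

theorem pre_inr_pair {j : ℕ} (f : Y.Rep j K) (g : Y.Rep j L) :
    pre (PMap.inr K L) (pair f g) = g := by
  ext ⟨v, k⟩; rfl

/-- iteration -/
def nxt {j : ℕ} (f : Y.Rep j K) (n : ℕ) : Y.Rep (j + n) K :=
  Nat.rec (motive := fun n => Y.Rep (j + n) K) f (fun _ r => r.next) n

theorem nxt_succ {j : ℕ} (f : Y.Rep j K) (n : ℕ) : nxt f (n + 1) = (nxt f n).next := rfl

theorem nxt_homotopic {j : ℕ} {f g : Y.Rep j K} (h : PMap.Homotopic f g) (n : ℕ) :
    PMap.Homotopic (nxt f n) (nxt g n) := by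
  induction n with
  | zero => exact h
  | succ n ih => exact next_homotopic ih

theorem pre_nxt {j : ℕ} (φ : PMap K L.plus) (f : Y.Rep j L) (n : ℕ) :
    nxt (pre φ f) n = pre φ (nxt f n) := by
  induction n with
  | zero => rfl
  | succ n ih => rw [nxt_succ, nxt_succ, ih, pre_next]

variable (Y K) in
/-- the groups of homotopy classes -/
abbrev HA (j : ℕ) : Type := HMap ((LC.cpow (Fin j)).prod K) (Y.sp (2 * j))

/-- the transition map -/
def hs (j : ℕ) (x : HA Y K j) : HA Y K (j + 1) :=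
  Quotient.map (fun f : Y.Rep j K => (f.next : PMap _ _)) (fun _ _ h => next_homotopic h) x

variable (Y K) in
/-- the set `colim_j [ℂ^j × K, Y (2 j)]` -/
def CH : Type := Sq.Colim (A := HA Y K) hs

/-- the class of a representative -/
def cls {j : ℕ} (f : Y.Rep j K) : CH Y K := Sq.mk (A := HA Y K) hs (PMap.cls f)

theorem cls_homotopic {j : ℕ} {f g : Y.Rep j K} (h : PMap.Homotopic f g) : cls f = cls g := by
  unfold cls
  rw [PMap.cls_eq.2 h]

theorem cls_next {j : ℕ} (f : Y.Rep j K) : cls f.next = cls f :=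
  Sq.mk_s (A := HA Y K) hs (PMap.cls f)

theorem cls_nxt {j : ℕ} (f : Y.Rep j K) (n : ℕ) : cls (nxt f n) = cls f := by
  induction n with
  | zero => rfl
  | succ n ih => rw [nxt_succ, cls_next, ih]

theorem up_cls {j : ℕ} (f : Y.Rep j K) (n : ℕ) :
    Sq.up (A := HA Y K) hs (PMap.cls f) n = PMap.cls (nxt f n) := by
  induction n with
  | zero => rfl
  | succ n ih => rw [Sq.up_succ, ih]; rfl

theorem cls_eq_iff {j : ℕ} {f g : Y.Rep j K} : cls f = cls g ↔
    ∃ n, PMap.Homotopic (nxt f n) (nxt g n) := by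
  refine (Sq.mk_eq_iff (A := HA Y K) hs).trans ?_
  simp only [up_cls, PMap.cls_eq]

theorem exists_cls (x : CH Y K) : ∃ N, ∀ n, N ≤ n → ∃ f : Y.Rep n K, x = cls f := by
  obtain ⟨N, h⟩ := Sq.exists_mk (A := HA Y K) hs x
  refine ⟨N, fun n hn => ?_⟩
  obtain ⟨y, hy⟩ := h n hn
  induction y using HMap.ind with | h f =>
  exact ⟨f, hy⟩

theorem exists_cls₂ {Z : Prespectrum} (x : CH Y K) (y : CH Z L) (N : ℕ) :
    ∃ n, N ≤ n ∧ ∃ (f : Y.Rep n K) (g : Z.Rep n L), x = cls f ∧ y = cls g := by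
  obtain ⟨N1, h1⟩ := exists_cls x
  obtain ⟨N2, h2⟩ := exists_cls y
  obtain ⟨f, hf⟩ := h1 (max N (max N1 N2)) (by omega)
  obtain ⟨g, hg⟩ := h2 (max N (max N1 N2)) (by omega)
  exact ⟨_, le_max_left _ _, f, g, hf, hg⟩

theorem cls_ind {P : CH Y K → Prop} (h : ∀ (n : ℕ) (f : Y.Rep n K), P (cls f)) (x : CH Y K) :
    P x := by
  obtain ⟨N, hN⟩ := exists_cls x
  obtain ⟨f, rfl⟩ := hN N le_rfl
  exact h N f

/-- restriction -/
def rst (φ : HMap K L.plus) : CH Y L → CH Y K :=
  Sq.map (A := HA Y L) (B := HA Y K) hs hs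
    (fun j x => x.comp ((PMap.id (LC.cpow (Fin j))).cls.box φ)) (by
      intro j x
      induction x using HMap.ind with | h f =>
      induction φ using HMap.ind with | h φ =>
      change PMap.cls (pre φ (Prespectrum.Rep.next f)) = PMap.cls (Prespectrum.Rep.next (pre φ f))
      rw [pre_next])

theorem rst_cls (φ : PMap K L.plus) {j : ℕ} (f : Y.Rep j L) : rst φ.cls (cls f) = cls (pre φ f) :=
  rfl

variable (Y) in
/-- the functor `K ↦ colim_j [ℂ^j × K, Y (2 j)]` -/
def fn : LCᵒᵖ ⥤ Type where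
  obj K := CH Y K.unop
  map {K L} φ := TypeCat.ofHom (fun x : CH Y K.unop => (rst φ.unop x : CH Y L.unop))
  map_id K := by
    ext x
    induction (x : CH Y K.unop) using cls_ind with | _ n f =>
    change rst (PMap.id K.unop).cls (cls f) = cls f
    rw [rst_cls, pre_id]
  map_comp {K L M} φ ψ := by
    ext x
    obtain ⟨φ⟩ := φ
    obtain ⟨ψ⟩ := ψ
    induction φ using HMap.ind with | _ f =>
    induction ψ using HMap.ind with | _ g =>
    induction (x : CH Y K.unop) using cls_ind with | _ n h =>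
    change rst (f.comp g).cls (cls h) = rst g.cls (rst f.cls (cls h))
    rw [rst_cls, rst_cls, rst_cls, pre_pre]

theorem pb_cls (φ : PMap K L.plus) {j : ℕ} (f : Y.Rep j L) :
    pb (fn Y) φ (cls f : CH Y L) = (cls (pre φ f) : CH Y K) := rfl

variable (Y) in
theorem isAddFun : IsAddFun (fn Y) where
  empty := by
    refine ⟨(cls (j := 0) (PMap.zero _ _ : Y.Rep 0 LC.empty) : CH Y LC.empty), fun y => ?_⟩
    obtain ⟨n, -, f, g, hf, hg⟩ := exists_cls₂ (Y := Y) (Z := Y) (K := LC.empty) (L := LC.empty) y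
      (cls (j := 0) (PMap.zero _ _ : Y.Rep 0 LC.empty)) 0
    refine (hf.trans ?_).trans hg.symm
    congr 1
    ext ⟨v, k⟩
    exact k.elim
  sum := by
    intro K L
    constructor
    · intro x y hxy
      obtain ⟨n, -, f, g, hx, hy⟩ := exists_cls₂ (Y := Y) (Z := Y) (K := K.sum L) (L := K.sum L)
        x y 0
      have h1 : pb (fn Y) (PMap.inl K L) x = pb (fn Y) (PMap.inl K L) y := congrArg Prod.fst hxy
      have h2 : pb (fn Y) (PMap.inr K L) x = pb (fn Y) (PMap.inr K L) y := congrArg Prod.snd hxy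
      rw [hx, hy, pb_cls, pb_cls] at h1 h2
      obtain ⟨n1, h3⟩ := cls_eq_iff.1 h1
      obtain ⟨n2, h4⟩ := cls_eq_iff.1 h2
      have h5 : ∀ {f g : Y.Rep n K} {N N' : ℕ}, N ≤ N' → PMap.Homotopic (nxt f N) (nxt g N) →
          PMap.Homotopic (nxt f N') (nxt g N') := by
        intro f g N N' hN h
        induction N', hN using Nat.le_induction with
        | base => exact h
        | succ m _ ih => exact next_homotopic ih
      have h6 : ∀ {f g : Y.Rep n L} {N N' : ℕ}, N ≤ N' → PMap.Homotopic (nxt f N) (nxt g N) →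
          PMap.Homotopic (nxt f N') (nxt g N') := by
        intro f g N N' hN h
        induction N', hN using Nat.le_induction with
        | base => exact h
        | succ m _ ih => exact next_homotopic ih
      have h7 := h5 (le_max_left n1 n2) h3
      have h8 := h6 (le_max_right n1 n2) h4
      rw [pre_nxt, pre_nxt] at h7 h8
      have h9 : PMap.Homotopic (nxt f (max n1 n2)) (nxt g (max n1 n2)) :=
        PMap.Homotopic.of_sum h7 h8
      rw [hx, hy]
      exact cls_eq_iff.2 ⟨_, h9⟩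
    · rintro ⟨x, y⟩
      obtain ⟨n, -, f, g, hx, hy⟩ := exists_cls₂ (Y := Y) (Z := Y) (K := K) (L := L) x y 0
      refine ⟨(cls (pair f g) : CH Y (K.sum L)), Prod.ext ?_ ?_⟩
      · change pb (fn Y) (PMap.inl K L) (cls (pair f g) : CH Y (K.sum L)) = x
        rw [pb_cls, pre_inl_pair]
        exact hx.symm
      · change pb (fn Y) (PMap.inr K L) (cls (pair f g) : CH Y (K.sum L)) = y
        rw [pb_cls, pre_inr_pair]
        exact hy.symm

end Th

end Pool.Agent.Helper1.Stab
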