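import Pool.Agent.Helper68.Stab.Theory
import Pool.Agent.Helper68.Stab.GrpSeq

/-! The graded functor of a prespectrum. -/

open CategoryTheory Topology Filter Set Opposite

noncomputable section

namespace Pool.Agent.Helper1.Stab

namespace Th
variable {Y : Prespectrum} {K L M : LC}

/-! ## Suspension -/

/-- the suspension isomorphism on representatives -/
def sh {j : ℕ} (f : Y.Rep (j + 1) K) : Y.up.up.Rep j (LC.C.prod K) :=
  PMap.comp (Y := Y.sp (2 * (j + 1))) f (PMap.ofHomeo (lst j K))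

theorem sh_apply {j : ℕ} (f : Y.Rep (j + 1) K) (v : Fin j → ℂ) (z : ℂ) (k : K) :
    sh f (v, (z, k)) = f (fun i => Fin.lastCases (motive := fun _ => ℂ) z v i, k) := rfl

theorem sh_next {j : ℕ} (f : Y.Rep (j + 1) K) : sh f.next = (sh f).next := by
  ext ⟨v, z, k⟩
  rw [sh_apply]
  change Y.sigC f (Fin.lastCases (motive := fun _ => ℂ) z v 0,
      (fun i : Fin (j + 1) => Fin.lastCases (motive := fun _ => ℂ) z v i.succ, k)) =
    Y.up.up.sigC (sh f) (v 0, (fun i => v i.succ, (z, k)))
  have h0 : Fin.lastCases (motive := fun _ => ℂ) z v (0 : Fin (j + 2)) = v 0 := by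
    rw [show (0 : Fin (j + 2)) = (0 : Fin (j + 1)).castSucc from rfl, Fin.lastCases_castSucc]
  have h1 : (fun i : Fin (j + 1) => Fin.lastCases (motive := fun _ => ℂ) z v i.succ) =
      fun i => Fin.lastCases (motive := fun _ => ℂ) z (fun i : Fin j => v i.succ) i := by
    funext i
    refine Fin.lastCases ?_ (fun i => ?_) i
    · rw [Fin.succ_last, Fin.lastCases_last, Fin.lastCases_last]
    · rw [Fin.succ_castSucc, Fin.lastCases_castSucc, Fin.lastCases_castSucc]
  rw [h0, h1]
  rfl

theorem sh_homotopic {j : ℕ} {f g : Y.Rep (j + 1) K} (h : PMap.Homotopic f g) :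
    PMap.Homotopic (sh f) (sh g) :=
  PMap.Homotopic.comp_left (Y := Y.sp (2 * (j + 1))) h (PMap.ofHomeo (lst j K))

/-- the inverse of `sh` -/
def ush {j : ℕ} (h : Y.up.up.Rep j (LC.C.prod K)) : Y.Rep (j + 1) K :=
  PMap.comp (Y := Y.sp (2 * (j + 1))) h (PMap.ofHomeo (lst j K).symm)

theorem sh_ush {j : ℕ} (h : Y.up.up.Rep j (LC.C.prod K)) : sh (ush h) = h := by
  ext x
  exact congrArg h ((lst j K).symm_apply_apply x)

theorem ush_sh {j : ℕ} (f : Y.Rep (j + 1) K) : ush (sh f) = f := by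
  ext x
  exact congrArg f ((lst j K).apply_symm_apply x)

theorem ush_homotopic {j : ℕ} {f g : Y.up.up.Rep j (LC.C.prod K)} (h : PMap.Homotopic f g) :
    PMap.Homotopic (ush f) (ush g) :=
  PMap.Homotopic.comp_left (Y := Y.sp (2 * (j + 1))) h (PMap.ofHomeo (lst j K).symm)

theorem pre_sh {j : ℕ} (φ : PMap K L.plus) (f : Y.Rep (j + 1) L) :
    sh (pre φ f) = pre (PMap.ltens LC.C φ) (sh f) := by
  ext ⟨v, z, k⟩
  change PMap.plus f (smashPt (LC.cpow (Fin (j + 1))) L (((fun i =>
    Fin.lastCases (motive := fun _ => ℂ) z v i : Fin (j + 1) → ℂ) :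
      OnePoint (Fin (j + 1) → ℂ)), φ k)) =
    PMap.plus (sh f) (smashPt (LC.cpow (Fin j)) (LC.C.prod L) ((v : OnePoint (Fin j → ℂ)),
      smashPt LC.C L ((z : OnePoint ℂ), φ k)))
  rcases φ k with _ | l
  · rfl
  · rfl

/-- the transition map of stage `j + 1` in terms of `sh` -/
theorem ush_next {j : ℕ} (h : Y.up.up.Rep j (LC.C.prod K)) : ush h.next = (ush h).next := by
  have h1 := sh_next (ush h)
  rw [sh_ush] at h1
  rw [← h1, ush_sh]

/-- the suspension map -/
def T : CH Y K → CH Y.up.up (LC.C.prod K) :=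
  Sq.map (A := HA Y K) (B := HA Y.up.up (LC.C.prod K)) hs hs
    (fun j x => Quotient.map (fun f : Y.Rep j K => (sh f.next : PMap _ _))
      (fun _ _ h => sh_homotopic (next_homotopic h)) x) (by
      intro j x
      induction x using HMap.ind with | h f =>
      change PMap.cls (sh (Prespectrum.Rep.next (Prespectrum.Rep.next f))) =
        PMap.cls (Prespectrum.Rep.next (sh (Prespectrum.Rep.next f)))
      rw [sh_next])

theorem T_cls {j : ℕ} (f : Y.Rep (j + 1) K) : T (cls f) = cls (sh f) := by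
  have h1 : T (cls f) = cls (sh f.next) := rfl
  rw [h1, sh_next, cls_next]

/-- the inverse of the suspension map -/
def U : CH Y.up.up (LC.C.prod K) → CH Y K := by
  refine Quotient.lift (s := Sq.setoid (A := HA Y.up.up (LC.C.prod K)) hs)
    (fun p => Quotient.lift (s := PMap.setoid _ _) (fun h : Y.up.up.Rep p.1 (LC.C.prod K) =>
      cls (ush h)) (fun _ _ h => cls_homotopic (ush_homotopic h)) p.2) ?_
  rintro ⟨n, x⟩ ⟨n', x'⟩ ⟨k, k', e⟩
  have key : ∀ (n : ℕ) (x : HA Y.up.up (LC.C.prod K) n) (k : ℕ),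
      (fun p : Σ n, HA Y.up.up (LC.C.prod K) n => Quotient.lift (s := PMap.setoid _ _)
        (fun h : Y.up.up.Rep p.1 (LC.C.prod K) => (cls (ush h) : CH Y K))
        (fun _ _ h => cls_homotopic (ush_homotopic h)) p.2) ((Sq.stp hs)^[k] ⟨n, x⟩) =
      (fun p : Σ n, HA Y.up.up (LC.C.prod K) n => Quotient.lift (s := PMap.setoid _ _)
        (fun h : Y.up.up.Rep p.1 (LC.C.prod K) => (cls (ush h) : CH Y K))
        (fun _ _ h => cls_homotopic (ush_homotopic h)) p.2) ⟨n, x⟩ := by
    intro n x k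
    induction k with
    | zero => rfl
    | succ k ih =>
      rw [Function.iterate_succ_apply']
      refine Eq.trans ?_ ih
      generalize (Sq.stp (A := HA Y.up.up (LC.C.prod K)) hs)^[k] ⟨n, x⟩ = p
      obtain ⟨m, y⟩ := p
      induction y using HMap.ind with | h f =>
      change cls (ush (Prespectrum.Rep.next (Y := Y.up.up) f)) = cls (ush f)
      rw [ush_next, cls_next]
  have h1 := congrArg (fun p : Σ n, HA Y.up.up (LC.C.prod K) n => Quotient.lift
    (s := PMap.setoid _ _) (fun h : Y.up.up.Rep p.1 (LC.C.prod K) => (cls (ush h) : CH Y K))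
        (fun _ _ h => cls_homotopic (ush_homotopic h)) p.2) e
  exact (key n x k).symm.trans (h1.trans (key n' x' k'))

theorem U_cls {j : ℕ} (h : Y.up.up.Rep j (LC.C.prod K)) : U (cls h) = cls (ush h) := rfl

/-- the suspension isomorphism -/
def TE (Y : Prespectrum) (K : LC) : CH Y K ≃ CH Y.up.up (LC.C.prod K) where
  toFun := T
  invFun := U
  left_inv x := by
    induction x using cls_ind with | _ n f =>
    rw [← cls_next, T_cls, U_cls, ush_sh]
  right_inv y := by
    induction y using cls_ind with | _ n h =>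
    rw [U_cls, T_cls, sh_ush]

/-- the sequence of functors -/
def seq (Y : Prespectrum) : ASeq where
  F b := fn (Y.upp b)
  add b := isAddFun (Y.upp b)
  T b K := TE (Y.upp b) K
  T_pb b K L φ x := by
    change T (rst φ.cls (x : CH (Y.upp b) L)) = rst (PMap.ltens LC.C φ).cls
      (T (x : CH (Y.upp b) L))
    induction (x : CH (Y.upp b) L) using cls_ind with | _ n f =>
    rw [← cls_next f, T_cls, rst_cls, rst_cls, T_cls, pre_sh]

/-- the groups -/
abbrev GG (Y : Prespectrum) (b : ℕ) (K : LC) : Type := (seq Y).G b K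

/-- the class of a representative -/
def cl {b j : ℕ} (f : (Y.upp b).Rep j K) : GG Y b K := (cls f : CH (Y.upp b) K)

theorem rs_cl {b j : ℕ} (φ : PMap K L.plus) (f : (Y.upp b).Rep j L) :
    (seq Y).rs b φ (cl f) = cl (pre φ f) := rfl

theorem sg_cl {b j : ℕ} (f : (Y.upp b).Rep (j + 1) K) :
    (seq Y).sg b (cl f) = cl (b := b + 1) (sh f) := T_cls f

theorem cl_zero {b j : ℕ} : cl (PMap.zero _ _ : (Y.upp b).Rep j K) = 0 := by
  have h1 := (seq Y).rs_zeroMap (K := K) (L := K) b (cl (PMap.zero _ _ : (Y.upp b).Rep j K))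
  rw [← h1, rs_cl]
  congr 1

theorem op2_cl {b j : ℕ} (m : PMap K (K.sum K).plus) (f g : (Y.upp b).Rep j K) :
    (seq Y).op2 b m (cl f) (cl g) = cl (pre m (pair f g)) := by
  have h1 : ((isAddFun (Y.upp b)).pair (K := K) (L := K) (cls f : CH (Y.upp b) K)
      (cls g : CH (Y.upp b) K) : CH (Y.upp b) (K.sum K)) = cls (pair f g) := by
    apply (isAddFun (Y.upp b)).pair_ext
    · rw [(isAddFun (Y.upp b)).pair_inl]
      change _ = pb (fn (Y.upp b)) (PMap.inl K K) (cls (pair f g) : CH (Y.upp b) (K.sum K))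
      rw [pb_cls, pre_inl_pair]
    · rw [(isAddFun (Y.upp b)).pair_inr]
      change _ = pb (fn (Y.upp b)) (PMap.inr K K) (cls (pair f g) : CH (Y.upp b) (K.sum K))
      rw [pb_cls, pre_inr_pair]
  change pb (fn (Y.upp b)) m ((isAddFun (Y.upp b)).pair (K := K) (L := K)
    (cls f : CH (Y.upp b) K) (cls g : CH (Y.upp b) K)) = _
  have h2 := congrArg (fun z : CH (Y.upp b) (K.sum K) => pb (fn (Y.upp b)) m z) h1
  exact h2

/-- the sum defined by a unital map -/
theorem cl_op {b j : ℕ} (m : PMap K (K.sum K).plus)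
    (m1 : (((PMap.id _).copair (PMap.zero _ _)).comp m).Homotopic (PMap.id K))
    (m2 : (((PMap.zero _ _).copair (PMap.id _)).comp m).Homotopic (PMap.id K))
    (f g : (Y.upp b).Rep j K) : cl (pre m (pair f g)) = cl f + cl g := by
  rw [← op2_cl, (seq Y).op2_eq b m m1 m2]

theorem cl_msum {b j : ℕ} (f g : (Y.upp b).Rep j (LC.R.prod K)) :
    cl (PMap.msum (pinchRK K) f g : (Y.upp b).Rep j (LC.R.prod K)) = cl f + cl g := by
  rw [← cl_op _ (Datum.pinchRK_unit_left K) (Datum.pinchRK_unit_right K)]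
  unfold PMap.msum pre pair
  rw [PMap.comp_assoc]

/-! ## The graded functor -/

/-- the functor `H^b` -/
def hb (Y : Prespectrum) (b : ℕ) : Testᵒᵖ ⥤ AddCommGrpCat.{0} where
  obj K := AddCommGrpCat.of (GG Y b K.unop.obj)
  map {K L} f := AddCommGrpCat.ofHom (AddMonoidHom.mk'
    (fun x : GG Y b K.unop.obj => (((seq Y).F b).map (f.unop.hom).op x : GG Y b L.unop.obj)) (by
      obtain ⟨f⟩ := f
      obtain ⟨f⟩ := f
      induction f using HMap.ind with | h φ =>
      exact (seq Y).rs_add b φ))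
  map_id K := by
    ext x
    exact (seq Y).rs_id b x
  map_comp {K L M} f g := by
    ext x
    obtain ⟨f⟩ := f
    obtain ⟨f⟩ := f
    obtain ⟨g⟩ := g
    obtain ⟨g⟩ := g
    induction f using HMap.ind with | h φ =>
    induction g using HMap.ind with | h ψ =>
    exact (seq Y).rs_comp b φ ψ x

/-- the graded functor -/
def gf (Y : Prespectrum) : GF where
  h b := hb Y b
  σ b := NatIso.ofComponents (fun K => AddEquiv.toAddCommGrpIso ((seq Y).sgEquiv b K.unop.obj)) (by
    intro K L f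
    ext x
    obtain ⟨f⟩ := f
    obtain ⟨f⟩ := f
    induction f using HMap.ind with | h φ =>
    exact (seq Y).sg_rs b φ x)

end Th

end Pool.Agent.Helper1.Stab
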