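import Pool.Agent.Helper68.Stab.Theory2

/-! Mayer–Vietoris sequences and functoriality of the graded functor of a prespectrum. -/

open CategoryTheory Topology Filter Set Opposite

noncomputable section

namespace Pool.Agent.Helper1.Stab

/-- postcomposition with a map of prespectra -/
def Prespectrum.Hom.uppMap {X Y : Prespectrum} (φ : X ⟶ Y) : ∀ b : ℕ, X.upp b ⟶ Y.upp b
  | 0 => φ
  | b + 1 =>
    { map := fun n => (Prespectrum.Hom.map (Prespectrum.Hom.uppMap φ b) (n + 1 + 1))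
      map_pt := fun n => (Prespectrum.Hom.map_pt (Prespectrum.Hom.uppMap φ b) (n + 1 + 1))
      map_str := fun n => (Prespectrum.Hom.map_str (Prespectrum.Hom.uppMap φ b) (n + 1 + 1)) }

/-- postcomposition of a representative -/
def Prespectrum.Rep.push {X Y : Prespectrum} (φ : X ⟶ Y) {j : ℕ} {K : LC} (f : X.Rep j K) :
    Y.Rep j K :=
  PMap.post (Prespectrum.Hom.map φ (2 * j)) (Prespectrum.Hom.map φ (2 * j)).continuous
    (Prespectrum.Hom.map_pt φ (2 * j)) f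

namespace Th
variable {Y : Prespectrum} {K L M : LC}

theorem zero_next {j : ℕ} : Prespectrum.Rep.next (PMap.zero _ _ : Y.Rep j K) = PMap.zero _ _ := by
  ext ⟨v, k⟩
  change Y.str _ (squash (v 0).re, Y.str _ (squash (v 0).im, (Y.sp (2 * j)).pt)) = _
  rw [Y.str_pt]
  exact Y.str_pt _ _

theorem nxt_zero' {j : ℕ} (n : ℕ) : nxt (PMap.zero _ _ : Y.Rep j K) n = PMap.zero _ _ := by
  induction n with
  | zero => rfl
  | succ n ih =>
    rw [nxt_succ, ih, zero_next]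
    rfl

theorem nxt_le {j : ℕ} {f g : Y.Rep j K} {N N' : ℕ} (hN : N ≤ N')
    (h : PMap.Homotopic (nxt f N) (nxt g N)) : PMap.Homotopic (nxt f N') (nxt g N') := by
  induction N', hN using Nat.le_induction with
  | base => exact h
  | succ m _ ih => exact next_homotopic ih

theorem cl_eq_iff {b j : ℕ} {f g : (Y.upp b).Rep j K} : cl f = cl g ↔
    ∃ n, PMap.Homotopic (nxt f n) (nxt g n) := cls_eq_iff

theorem cl_nxt {b j : ℕ} (f : (Y.upp b).Rep j K) (n : ℕ) : cl (nxt f n) = cl f := cls_nxt f n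

theorem cl_homotopic {b j : ℕ} {f g : (Y.upp b).Rep j K} (h : PMap.Homotopic f g) :
    cl f = cl g := cls_homotopic h

theorem exists_cl {b : ℕ} (x : GG Y b K) : ∃ N, ∀ n, N ≤ n → ∃ f : (Y.upp b).Rep n K, x = cl f :=
  exists_cls x

theorem exists_cl₂ {b : ℕ} (x : GG Y b K) (y : GG Y b L) :
    ∃ n, ∃ (f : (Y.upp b).Rep n K) (g : (Y.upp b).Rep n L), x = cl f ∧ y = cl g := by
  obtain ⟨n, -, f, g, h⟩ := exists_cls₂ (Y := Y.upp b) (Z := Y.upp b) x y 0
  exact ⟨n, f, g, h⟩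

theorem cl_eq_zero {b j : ℕ} {f : (Y.upp b).Rep j K} (h : cl f = 0) :
    ∃ N, ∀ n, N ≤ n → PMap.Homotopic (nxt f n) (PMap.zero _ _) := by
  rw [← cl_zero (j := j)] at h
  obtain ⟨N, hN⟩ := cl_eq_iff.1 h
  refine ⟨N, fun n hn => ?_⟩
  have h1 := nxt_le hn hN
  rw [nxt_zero'] at h1
  exact h1

theorem mv1 {b : ℕ} (u : C(K, ℝ)) (x : GG Y b K) (hA : (seq Y).rs b (MV.iA u) x = 0)
    (hB : (seq Y).rs b (MV.iB u) x = 0) :
    ∃ y : GG Y b (LC.R.prod (MV.C u)), x = (seq Y).rs b (MV.delta u) y := by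
  obtain ⟨n, hn⟩ := exists_cl x
  obtain ⟨f, rfl⟩ := hn n le_rfl
  rw [rs_cl] at hA hB
  obtain ⟨n1, h1⟩ := cl_eq_zero hA
  obtain ⟨n2, h2⟩ := cl_eq_zero hB
  have h3 := h1 (max n1 n2) (le_max_left _ _)
  have h4 := h2 (max n1 n2) (le_max_right _ _)
  rw [pre_nxt] at h3 h4
  obtain ⟨y, hy⟩ := mv1u u _ _ (nxt f (max n1 n2)) h3 h4
  refine ⟨cl (y : (Y.upp b).Rep (n + max n1 n2) (LC.R.prod (MV.C u))), ?_⟩
  rw [rs_cl, ← cl_nxt f (max n1 n2)]
  exact cl_homotopic hy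

theorem mv2 {b : ℕ} (u : C(K, ℝ)) (x : GG Y b (MV.A u)) (y : GG Y b (MV.B u))
    (hab : (seq Y).rs b (MV.iCA u) x = (seq Y).rs b (MV.iCB u) y) :
    ∃ z : GG Y b K, (seq Y).rs b (MV.iA u) z = x ∧ (seq Y).rs b (MV.iB u) z = y := by
  obtain ⟨n, f, g, rfl, rfl⟩ := exists_cl₂ x y
  rw [rs_cl, rs_cl] at hab
  obtain ⟨m, h⟩ := cl_eq_iff.1 hab
  rw [pre_nxt, pre_nxt] at h
  obtain ⟨F, h1, h2⟩ := mv2u u _ _ (nxt f m) (nxt g m) h
  refine ⟨cl (F : (Y.upp b).Rep (n + m) K), ?_, ?_⟩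
  · rw [rs_cl, ← cl_nxt f m]
    exact cl_homotopic h1
  · rw [rs_cl, ← cl_nxt g m]
    exact cl_homotopic h2

theorem mv3 {b : ℕ} (u : C(K, ℝ)) (y : GG Y b (LC.R.prod (MV.C u)))
    (hy : (seq Y).rs b (MV.delta u) y = 0) :
    ∃ (s : GG Y b (LC.R.prod (MV.A u))) (t : GG Y b (LC.R.prod (MV.B u))),
      y = (seq Y).rs b (PMap.ltens LC.R (MV.iCA u)) s -
        (seq Y).rs b (PMap.ltens LC.R (MV.iCB u)) t := by
  obtain ⟨n, hn⟩ := exists_cl y
  obtain ⟨f, rfl⟩ := hn n le_rfl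
  rw [rs_cl] at hy
  obtain ⟨m, hm⟩ := cl_eq_zero hy
  have h := hm m le_rfl
  rw [pre_nxt] at h
  obtain ⟨a, c, hac⟩ := mv3u u _ _ (nxt f m) h
  refine ⟨cl (a : (Y.upp b).Rep (n + m) (LC.R.prod (MV.A u))),
    - cl (c : (Y.upp b).Rep (n + m) (LC.R.prod (MV.B u))), ?_⟩
  have h5 := ((seq Y).rsHom b (PMap.ltens LC.R (MV.iCB u))).map_neg
    (cl (c : (Y.upp b).Rep (n + m) (LC.R.prod (MV.B u))))
  have h6 : (seq Y).rs b (PMap.ltens LC.R (MV.iCB u))
      (-cl (c : (Y.upp b).Rep (n + m) (LC.R.prod (MV.B u)))) =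
      -(seq Y).rs b (PMap.ltens LC.R (MV.iCB u))
        (cl (c : (Y.upp b).Rep (n + m) (LC.R.prod (MV.B u)))) := h5
  rw [h6, sub_neg_eq_add, rs_cl, rs_cl, ← cl_nxt f m]
  refine Eq.trans ?_ (cl_msum _ _)
  exact cl_homotopic hac

theorem gf_exact (Y : Prespectrum) : (gf Y).Exact where
  mv1 b K u hK hA hB hC x h1 h2 := mv1 u x h1 h2
  mv2 b K u hK hA hB hC x y h := mv2 u x y h
  mv3 b K u hK hA hB hC y h := mv3 u y h

/-- the theory -/
def theory (Y : Prespectrum) : HTheory Y where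
  H := gf Y
  exact := gf_exact Y
  cls {b j K} f := cl f
  cls_homotopic h := cl_homotopic h
  cls_next f := cls_next f
  cls_surj {b K} x N := by
    obtain ⟨n, hn⟩ := exists_cl x
    obtain ⟨f, hf⟩ := hn (max n N) (le_max_left _ _)
    exact ⟨_, le_max_right _ _, f, hf⟩
  cls_eq h := cl_eq_iff.1 h
  map_cls φ f := rs_cl φ f
  σ_cls f := sg_cl f

/-! ## Functoriality -/

/-- postcomposition of a representative -/
abbrev push {X : Prespectrum} (φ : X ⟶ Y) {j : ℕ} (f : X.Rep j K) : Y.Rep j K :=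
  Prespectrum.Rep.push φ f

theorem push_next {X : Prespectrum} (φ : X ⟶ Y) {j : ℕ} (f : X.Rep j K) :
    push φ f.next = (push φ f).next := by
  ext ⟨v, k⟩
  change Prespectrum.Hom.map φ (2 * j + 1 + 1) (X.str (2 * j + 1) (squash (v 0).re,
    X.str (2 * j) (squash (v 0).im, f ((fun i => v i.succ), k)))) =
    Y.str (2 * j + 1) (squash (v 0).re, Y.str (2 * j) (squash (v 0).im,
      Prespectrum.Hom.map φ (2 * j) (f ((fun i => v i.succ), k))))
  rw [Prespectrum.Hom.map_str, Prespectrum.Hom.map_str]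

theorem push_homotopic {X : Prespectrum} (φ : X ⟶ Y) {j : ℕ} {f g : X.Rep j K}
    (h : PMap.Homotopic f g) : PMap.Homotopic (push φ f) (push φ g) := by
  obtain ⟨H, h0, h1⟩ := h
  exact ⟨PMap.post _ (Prespectrum.Hom.map φ (2 * j)).continuous (Prespectrum.Hom.map_pt φ (2 * j)) H,
    fun k => congrArg (Prespectrum.Hom.map φ (2 * j)) (h0 k),
    fun k => congrArg (Prespectrum.Hom.map φ (2 * j)) (h1 k)⟩

theorem push_pre {X : Prespectrum} (φ : X ⟶ Y) {j : ℕ} (ψ : PMap K L.plus) (f : X.Rep j L) :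
    push φ (pre ψ f) = pre ψ (push φ f) := by
  ext ⟨v, k⟩
  change Prespectrum.Hom.map φ (2 * j) (PMap.plus f (smashPt (LC.cpow (Fin j)) L
      ((v : OnePoint (Fin j → ℂ)), ψ k))) =
    PMap.plus (push φ f) (smashPt (LC.cpow (Fin j)) L ((v : OnePoint (Fin j → ℂ)), ψ k))
  rcases ψ k with _ | l
  · exact Prespectrum.Hom.map_pt φ (2 * j)
  · rfl

/-- the map `φ.up.up` -/
def upup {X : Prespectrum} (φ : X ⟶ Y) : X.up.up ⟶ Y.up.up where
  map n := Prespectrum.Hom.map φ (n + 1 + 1)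
  map_pt n := Prespectrum.Hom.map_pt φ (n + 1 + 1)
  map_str n := Prespectrum.Hom.map_str φ (n + 1 + 1)

theorem push_sh {X : Prespectrum} (φ : X ⟶ Y) {j : ℕ} (f : X.Rep (j + 1) K) :
    push (upup φ) (sh f) = sh (push φ f) := rfl

/-- postcomposition -/
def psh {X : Prespectrum} (φ : X ⟶ Y) : CH X K → CH Y K :=
  Sq.map (A := HA X K) (B := HA Y K) hs hs
    (fun j x => Quotient.map (fun f : X.Rep j K => (push φ f : PMap _ _))
      (fun _ _ h => push_homotopic φ h) x) (by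
      intro j x
      induction x using HMap.ind with | h f =>
      change PMap.cls (push φ (Prespectrum.Rep.next f)) =
        PMap.cls (Prespectrum.Rep.next (push φ f))
      rw [push_next])

theorem psh_cls {X : Prespectrum} (φ : X ⟶ Y) {j : ℕ} (f : X.Rep j K) :
    psh φ (cls f) = cls (push φ f) := rfl

theorem psh_T {X : Prespectrum} (φ : X ⟶ Y) (x : CH X K) :
    psh (upup φ) (T x) = T (psh φ x) := by
  induction x using cls_ind with | _ n f =>
  rw [← cls_next f, T_cls, psh_cls, psh_cls, push_sh, ← T_cls]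

/-- a natural transformation of set-valued functors -/
def pshN {X : Prespectrum} (φ : X ⟶ Y) : fn X ⟶ fn Y where
  app K := TypeCat.ofHom (fun x : CH X K.unop => (psh φ x : CH Y K.unop))
  naturality K L f := by
    obtain ⟨f⟩ := f
    induction f using HMap.ind with | h ψ =>
    ext x
    induction (x : CH X K.unop) using cls_ind with | _ n f =>
    change psh φ (rst ψ.cls (cls f)) = rst ψ.cls (psh φ (cls f))
    rw [rst_cls, psh_cls, psh_cls, rst_cls, push_pre]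

/-- postcomposition with a map of prespectra -/
abbrev uppMap {X Y : Prespectrum} (φ : X ⟶ Y) (b : ℕ) : X.upp b ⟶ Y.upp b :=
  Prespectrum.Hom.uppMap φ b

theorem uppMap_succ {X Y : Prespectrum} (φ : X ⟶ Y) (b : ℕ) :
    uppMap φ (b + 1) = upup (uppMap φ b) := rfl

/-- the induced map on groups -/
def pm {X : Prespectrum} (φ : X ⟶ Y) (b : ℕ) (x : GG X b K) : GG Y b K :=
  (psh (uppMap φ b) (x : CH (X.upp b) K) : CH (Y.upp b) K)

theorem pm_cl {X : Prespectrum} (φ : X ⟶ Y) {b j : ℕ} (f : (X.upp b).Rep j K) :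
    pm φ b (cl f) = cl (push (uppMap φ b) f) := rfl

theorem pm_rs {X : Prespectrum} (φ : X ⟶ Y) (b : ℕ) (ψ : PMap K L.plus) (x : GG X b L) :
    pm φ b ((seq X).rs b ψ x) = (seq Y).rs b ψ (pm φ b x) :=
  IsAddFun.pb_nat (pshN (uppMap φ b)) ψ x

theorem pm_sg {X : Prespectrum} (φ : X ⟶ Y) (b : ℕ) (x : GG X b K) :
    pm φ (b + 1) ((seq X).sg b x) = (seq Y).sg b (pm φ b x) := psh_T (uppMap φ b) x

theorem pm_add {X : Prespectrum} (φ : X ⟶ Y) (b : ℕ) (x y : GG X b K) :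
    pm φ b (x + y) = pm φ b x + pm φ b y := by
  apply (seq Y).sg_inj
  rw [← pm_sg, (seq X).sg_add, (seq Y).sg_add, ← pm_sg, ← pm_sg]
  exact IsAddFun.add_nat ((seq X).add (b + 1)) ((seq Y).add (b + 1)) (pshN (uppMap φ (b + 1)))
    (K := K) _ _

/-- the induced morphism of graded functors -/
def gfMap {X : Prespectrum} (φ : X ⟶ Y) : gf X ⟶ gf Y :=
  GF.Hom.mk' (fun b =>
    { app := fun K => AddCommGrpCat.ofHom (AddMonoidHom.mk' (fun x : GG X b K.unop.obj =>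
        (pm φ b x : GG Y b K.unop.obj)) (pm_add φ b))
      naturality := by
        intro K L f
        ext x
        obtain ⟨f⟩ := f
        obtain ⟨f⟩ := f
        induction f using HMap.ind with | h ψ =>
        exact pm_rs φ b ψ x }) (by
    intro b K
    ext x
    exact pm_sg φ b x)

end Th

/-- The graded functors of all prespectra, with functoriality. -/
theorem exists_theories : ∃ T : ∀ Y : Prespectrum, HTheory Y,
    ∀ (X Y : Prespectrum) (φ : X ⟶ Y), ∃ F : (T X).H ⟶ (T Y).H,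
      ∀ (b j : ℕ) (K : Test) (f : (X.upp b).Rep j K.obj),
        (F.app b).app (op K) ((T X).cls f) =
          (T Y).cls (f.push (Prespectrum.Hom.uppMap φ b)) :=
  ⟨Th.theory, fun _ _ φ => ⟨Th.gfMap φ, fun _ _ _ _ => rfl⟩⟩

end Pool.Agent.Helper1.Stab
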