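import Pool.Agent.Helper68.Stab.Theory3

/-! The functor from prespectra to graded functors. -/

open CategoryTheory Topology Filter Set Opposite

noncomputable section

namespace Pool.Agent.Helper1.Stab

/-- the graded functor of a prespectrum -/
def hT (Y : Prespectrum) : HTheory Y := Th.theory Y

/-- (I4-b) functoriality -/
theorem exists_hmap {X Y : Prespectrum} (φ : X ⟶ Y) : ∃ F : (hT X).H ⟶ (hT Y).H,
    ∀ (b j : ℕ) (K : Test) (f : (X.upp b).Rep j K.obj),
      (F.app b).app (op K) ((hT X).cls f) =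
        (hT Y).cls (f.push (Prespectrum.Hom.uppMap φ b)) :=
  ⟨Th.gfMap φ, fun _ _ _ _ => rfl⟩

/-- morphisms out of `(hT X).H` are determined by their values on classes -/
theorem hT_hom_ext {X : Prespectrum} {H : GF} {F F' : (hT X).H ⟶ H}
    (h : ∀ (b j : ℕ) (K : Test) (f : (X.upp b).Rep j K.obj),
      (F.app b).app (op K) ((hT X).cls f) = (F'.app b).app (op K) ((hT X).cls f)) : F = F' := by
  refine GF.hom_ext fun b => ?_
  ext K x
  obtain ⟨j, -, f, rfl⟩ := (hT X).cls_surj (K := K.unop) x 0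
  exact h b j K.unop f

theorem uppMap_id (X : Prespectrum) (b : ℕ) : Prespectrum.Hom.uppMap (𝟙 X) b = 𝟙 (X.upp b) := by
  induction b with
  | zero => rfl
  | succ b ih =>
    refine Prespectrum.Hom.ext (funext fun n => ?_)
    exact congrArg (fun φ : X.upp b ⟶ X.upp b => Prespectrum.Hom.map φ (n + 1 + 1)) ih

theorem uppMap_comp {X Y Z : Prespectrum} (φ : X ⟶ Y) (ψ : Y ⟶ Z) (b : ℕ) :
    Prespectrum.Hom.uppMap (φ ≫ ψ) b =
      Prespectrum.Hom.uppMap φ b ≫ Prespectrum.Hom.uppMap ψ b := by
  induction b with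
  | zero => rfl
  | succ b ih =>
    refine Prespectrum.Hom.ext (funext fun n => ?_)
    exact congrArg (fun φ : X.upp b ⟶ Z.upp b => Prespectrum.Hom.map φ (n + 1 + 1)) ih

/-- the functor from prespectra to graded functors -/
def hP : Prespectrum ⥤ GF where
  obj Y := (hT Y).H
  map φ := Th.gfMap φ
  map_id X := by
    refine hT_hom_ext fun b j K f => ?_
    change Th.cl (Prespectrum.Rep.push (Prespectrum.Hom.uppMap (𝟙 X) b) f) = Th.cl f
    rw [uppMap_id]
    rfl
  map_comp {X Y Z} φ ψ := by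
    refine hT_hom_ext fun b j K f => ?_
    change Th.cl (Prespectrum.Rep.push (Prespectrum.Hom.uppMap (φ ≫ ψ) b) f) =
      Th.cl (Prespectrum.Rep.push (Prespectrum.Hom.uppMap ψ b)
        (Prespectrum.Rep.push (Prespectrum.Hom.uppMap φ b) f))
    rw [uppMap_comp]
    rfl

theorem hP_map_cls {X Y : Prespectrum} (φ : X ⟶ Y) {b j : ℕ} {K : Test}
    (f : (X.upp b).Rep j K.obj) : ((hP.map φ).app b).app (op K) ((hT X).cls f) =
        (hT Y).cls (f.push (Prespectrum.Hom.uppMap φ b)) := rfl

/-- A morphism of graded functors with bijective components is an isomorphism. -/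
theorem GF.isIso_of_at {G H : GF} (F : G ⟶ H)
    (h : ∀ (b : ℕ) (K : Test), Function.Bijective ((F.app b).app (op K))) : IsIso F := by
  have h1 : ∀ b (K : Testᵒᵖ), IsIso ((F.app b).app K) := fun b K =>
    (ConcreteCategory.isIso_iff_bijective _).2 (h b K.unop)
  have h2 : ∀ b, IsIso (F.app b) := fun b => NatIso.isIso_of_isIso_app _
  refine ⟨⟨fun b => inv (F.app b), fun b => ?_⟩, ?_, ?_⟩
  · rw [IsIso.eq_inv_comp, ← Category.assoc, ← F.comm b, Category.assoc]
    have h3 : Functor.whiskerLeft Test.cx.op (F.app (b + 1)) ≫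
        Functor.whiskerLeft Test.cx.op (inv (F.app (b + 1))) = 𝟙 _ := by
      rw [← Functor.whiskerLeft_comp, IsIso.hom_inv_id]
      rfl
    rw [h3, Category.comp_id]
  · exact GF.hom_ext fun b => IsIso.hom_inv_id (F.app b)
  · exact GF.hom_ext fun b => IsIso.inv_hom_id (F.app b)

end Pool.Agent.Helper1.Stab
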